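import Pool.Agent.Work.MP_0f91f8_co.PC.DefsC
import Pool.Agent.Work.MP_0f91f8_co.FC.StmtsS

/-!
# Block PC, module CT: statements with complete proofs (helper40)

Item `X`: statement `StX`, file `PC/I_X.lean`, theorem `pr_X`, namespace `Pool.Agent.F0f91f8.PC`. Earlier items (and the
interface statements of `Defs.lean`, `DefsC.lean`) may be taken as hypotheses; items of the block FC are on main
(`FC/I_*.lean`, e.g. `pr_SB : .. StSB`). Not in `L²`: `bl` is `0`, but all functions below are bounded and measurable on finite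
measure spaces, so `bl ν φ` is the class of `φ` (`MemLp.coeFn_toLp`).
-/

set_option autoImplicit false

namespace Pool.Agent.F0f91f8.PC

open Filter Topology ComplexConjugate MeasureTheory
open Pool.Agent.F0f91f8.HD Pool.Agent.F0f91f8.RC Pool.Agent.F0f91f8.KR Pool.Agent.F0f91f8.FC
open Pool.Agent.Work.MP_0f91f8_co.EF (GG ev)
open scoped BigOperators

/-! ## 1. Systems and the form `bt` -/

/-- [CU] (EASY) the isometries `U`: `U S (m n) = U S m ∘ U S n` (`m, n > 0`; on functions `F (T (m n) x) = F (T m (T n x))`, and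
`T m (T n x) = T n (T m x)`; use `Lp.compMeasurePreserving_comp_apply` or `Lp.coeFn_compMeasurePreserving`), and `U n H = H ∘ T n`
almost everywhere. -/
def StCU : Prop := ∀ (X : Type) (_ : MeasurableSpace X) (μ : Measure X) (_ : IsProbabilityMeasure μ)
  (S : Sys μ),
  (∀ m n : ℕ, 0 < m → 0 < n → ∀ H : Lp ℂ 2 μ, U S (m * n) H = U S m (U S n H)) ∧
  (∀ m n : ℕ, 0 < m → 0 < n → ∀ H : Lp ℂ 2 μ, U S m (U S n H) = U S n (U S m H)) ∧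
  ∀ n : ℕ, 0 < n → ∀ H : Lp ℂ 2 μ, (U S n H : X → ℂ) =ᵐ[μ] fun x => (H : X → ℂ) (S.T n x)

/-- [CB] (EASY-MEDIUM) the form `bt`. `1_A(T z x)` is measurable and bounded by `1` (for all `z`, `T z` is measurable), `H`, `G` are in
`L²`, so the integrand is integrable (`MemLp.integrable_mul`, `Integrable.bdd_mul`) and `‖bt‖ ≤ ‖H‖ ‖G‖` (Cauchy-Schwarz, or write
`bt S A z H G = inner F G` with `F = conj (1_A(T z ·) H)`, `‖F‖ ≤ ‖H‖`). Additivity in both arguments, symmetry by commutativity.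
Invariance: for `z > 0` substitute `T m` (measure preserving): `bt (z m) (U m H) (U m G) = bt z H G`. The last part is the
definition for indicator functions: `∫ 1_A(T_z) 1_A(T_x) 1_A(T_y)` is the measure of the set. (hU : StCU) -/
def StCB : Prop := ∀ (X : Type) (_ : MeasurableSpace X) (μ : Measure X) (_ : IsProbabilityMeasure μ)
  (S : Sys μ) (A : Set X), MeasurableSet A →
  (∀ (z : ℕ) (H G : Lp ℂ 2 μ), ‖bt S A z H G‖ ≤ ‖H‖ * ‖G‖) ∧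
  (∀ (z : ℕ) (H G : Lp ℂ 2 μ), bt S A z H G = bt S A z G H) ∧
  (∀ (z : ℕ) (H H' G : Lp ℂ 2 μ), bt S A z (H + H') G = bt S A z H G + bt S A z H' G) ∧
  (∀ (z : ℕ) (c : ℂ) (H G : Lp ℂ 2 μ), bt S A z (c • H) G = c * bt S A z H G) ∧
  (∀ (z m : ℕ) (H G : Lp ℂ 2 μ), 0 < z → 0 < m → bt S A (z * m) (U S m H) (U S m G) = bt S A z H G) ∧
  (∀ (z : ℕ) (H : Lp ℂ 2 μ), ∃ F : Lp ℂ 2 μ, ‖F‖ ≤ ‖H‖ ∧ ∀ G : Lp ℂ 2 μ,
    bt S A z H G = inner ℂ F G) ∧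
  ∀ x y z : ℕ, 0 < x → 0 < y → 0 < z → bt S A z (U S x (b1 μ A)) (U S y (b1 μ A)) =
    ((μ.real {t | S.T x t ∈ A ∧ S.T y t ∈ A ∧ S.T z t ∈ A} : ℝ) : ℂ)

/-- [CT] (MEDIUM) truncation. `G` is approximated by a bounded function: there are `B` and `G' ∈ L²` with `|G'| ≤ B` almost everywhere
and `‖G - G'‖ ≤ η/2` (e.g. `G' = G` where `|G| ≤ B`, `0` elsewhere, dominated convergence; or density of simple functions
`Lp.simpleFunc.denseRange`). `U y G'` is bounded by `B` too and `‖U y G - U y G'‖ ≤ η/2`. So the difference is at most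
`∫ |1_A(T z x) - 1_A(T z' x)| |H| |U y G'| + 2 · ‖H‖ η/2 ≤ B ‖H‖ sqrt(dd S A z z') + η` (`|..| ≤ 1`; the function
`|1_A(T z x) - 1_A(T z' x)|` is the indicator of the set of `dd`, its `L²` norm is `sqrt (dd)`). (hU : StCU) (hB : StCB) -/
def StCT : Prop := ∀ (X : Type) (_ : MeasurableSpace X) (μ : Measure X) (_ : IsProbabilityMeasure μ)
  (S : Sys μ) (A : Set X), MeasurableSet A → ∀ (G : Lp ℂ 2 μ) (η : ℝ), 0 < η → ∃ B : ℝ, 0 ≤ B ∧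
  ∀ z z' y : ℕ, 0 < z → 0 < z' → 0 < y → ∀ H : Lp ℂ 2 μ, ‖H‖ ≤ 1 →
    ‖bt S A z H (U S y G) - bt S A z' H (U S y G)‖ ≤ B * Real.sqrt (dd S A z z') + η

/-- [CV] (EASY-MEDIUM) the spectral isometry. (i) `σ` has mass `‖b1 μ A‖² = μ A ≤ 1` (`V (b1 univ) = b1 μ A`, `V` isometry), so
`‖V (b1 σ E)‖ ≤ 1`. (ii) iterate `V.mul` with `φ = 1_E`: `U n V(1_E) = V(ev n 1_E)`. (iii) inner products: `V` is an isometry and
`‖ev g n‖ = 1` for `n > 0`. (iv) for real differences: `‖U a V(1_E) - U b V(1_E)‖² = ∫_E |ev g a - ev g b|² dσ ≤` the same over `GG`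
`= ‖U a f - U b f‖² = dd S A a b`, `f = b1 μ A` (`1_A(T a x) - 1_A(T b x)` has absolute value the indicator of the set of `dd`).
`ev g` is completely multiplicative with `‖ev g n‖ = 1`, continuous in `g` (`EF/Ev.lean`). (hU : StCU) -/
def StCV : Prop := ∀ (X : Type) (_ : MeasurableSpace X) (μ : Measure X) (_ : IsProbabilityMeasure μ)
  (S : Sys μ) (A : Set X), MeasurableSet A → ∀ (σ : Measure GG) (_ : IsFiniteMeasure σ)
  (V : SpV S (b1 μ A) σ) (E : Set GG), MeasurableSet E →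
  σ.real Set.univ ≤ 1 ∧ ‖V.V (b1 σ E)‖ ≤ 1 ∧ ‖V.V (b1 σ E)‖ ^ 2 = σ.real E ∧
  (∀ n : ℕ, 0 < n → U S n (V.V (b1 σ E)) = V.V (bl σ fun g => ev g n * E.indicator (fun _ => 1) g)) ∧
  (∀ a b : ℕ, 0 < a → 0 < b → inner ℂ (U S a (V.V (b1 σ E))) (U S b (V.V (b1 σ E))) =
    ∫ g in E, ev g b * conj (ev g a) ∂σ) ∧
  (∀ a b : ℕ, 0 < a → 0 < b → ‖U S a (V.V (b1 σ E)) - U S b (V.V (b1 σ E))‖ ≤ Real.sqrt (dd S A a b)) ∧
  ∀ a b : ℕ, 0 < a → 0 < b → ‖U S a (b1 μ A) - U S b (b1 μ A)‖ = Real.sqrt (dd S A a b)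

/-! ## 2. Bessel -/

/-- [CBs] (EASY-MEDIUM) Bessel's inequality with weights. `a s = ⟪F, u s⟫`, `‖a s‖ ≤ ‖F‖ c`. `L = ∑ ω |a s|² = ⟪F, ∑ ω conj(a s) u s⟫ ≤
‖F‖ ‖∑ ω conj(a s) u s‖`, `‖∑ ..‖² ≤ ∑ ω ω' |a s| |a s'| |⟪u s, u s'⟫| ≤ (‖F‖ c)² (∑ ω) (∑ ω ω' |⟪u s, u s'⟫|²)^(1/2)` (Cauchy-Schwarz
with weights `ω ω'`). -/
def StCBs : Prop := ∀ (H : Type) (_ : NormedAddCommGroup H) (_ : InnerProductSpace ℂ H)
  (T : Finset ℕ) (ω : ℕ → ℝ) (u : ℕ → H) (F : H) (c : ℝ), (∀ s ∈ T, 0 ≤ ω s) → 0 ≤ c →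
  (∀ s ∈ T, ‖u s‖ ≤ c) →
  ∑ s ∈ T, ω s * ‖inner ℂ F (u s)‖ ^ 2 ≤ ‖F‖ ^ 2 * c * Real.sqrt (∑ s ∈ T, ω s) *
    (∑ s ∈ T, ∑ s' ∈ T, ω s * ω s' * ‖inner ℂ (u s) (u s')‖ ^ 2) ^ (1 / 4 : ℝ)

/-- [CSl] (EASY-MEDIUM) `SltS`. `bt S A z H (·) = inner F (·)`, `‖F‖ ≤ ‖H‖ ≤ 1` (`StCB`); `u s = U (s c) V(1_E) = U c (U s V(1_E))`,
`‖u s‖ ≤ 1`, `⟪u s, u s'⟫ = ⟪U s V(1_E), U s' V(1_E)⟫ = ∫_E ev s' conj (ev s)` (isometry, `StCV`); `StCBs` with `ω = w1 K y ≥ 0`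
(the factors `(1 - 5/p)⁻¹`, `p > K ≥ 10`, are positive), `∑ ω ≤ 3` (`MasS`), `sqrt 3 ≤ 2`.
(hU : StCU) (hB : StCB) (hV : StCV) (hBs : StCBs) (hM : MasS) -/
def StCSl : Prop := SltS

/-! ## 3. The Gram matrix -/

/-- the numbers `∏ p^(e p)`, `p ∈ P`, `e p ≤ N` -/
def SN (P : Finset ℕ) (N : ℕ) : Finset ℕ :=
  (Fintype.piFinset fun _ : P => Finset.range (N + 1)).image fun e => ∏ p : P, (p : ℕ) ^ e p

/-- [CId] (EASY-MEDIUM) `‖∫_E φ‖² = ∫∫_{E×E} φ(g) conj φ(g')` (`integral_prod_mul`, `Measure.prod_restrict`), `φ = ev g s' conj (ev g s)`; multiply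
by `ω s ω s'` and add (finite sums): the integrand is `|∑_s ω s ev g s conj (ev g' s)|²` (up to the order of the factors). -/
def StCId : Prop := ∀ (σ : Measure GG) (_ : IsFiniteMeasure σ) (E : Set GG), MeasurableSet E →
  ∀ (T : Finset ℕ) (ω : ℕ → ℝ),
  ∑ s ∈ T, ∑ s' ∈ T, ω s * ω s' * ‖∫ g in E, ev g s' * conj (ev g s) ∂σ‖ ^ 2 =
    ∫ p in E ×ˢ E, ‖∑ s ∈ T, (ω s : ℂ) * (ev p.1 s * conj (ev p.2 s))‖ ^ 2 ∂(σ.prod σ)

/-- [CPb] (MEDIUM) Euler product. For `T = SN (PN K y 1) N` the sum factorises: `w1 K y s ψ(s)` is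
`∏_{p ∈ PN K y 1} (1 - 1/p) · ∏_{p | s} (1 - 5/p)⁻¹ (ψ p/p)^(e p)`, `ψ s = ev g s conj (ev g' s)` completely multiplicative, so the sum is
`∏_p (1 - 1/p) (1 + (1-5/p)⁻¹ ∑_{1 ≤ e ≤ N} (ψ p/p)^e)` (`Finset.prod_univ_sum`, the map `e ↦ ∏ p^(e p)` is injective by unique
factorisation). Each factor: `(1-5/p)⁻¹ = 1 + 5/(p-5)`, so it differs from `(1 - 1/p)(1 + ψ p/p)` by at most
`(1/p)(5/(p-5)) + ∑_{e ≥ 2} (1 + 5/(p-5)) p^(-e) ≤ 30/p²` (`p ≥ 11`), and `|(1 - 1/p)(1 + ψ p/p)| ≤ |1 - (1 - ψ p)/p| + 1/p² ≤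
1 - (1 - Re ψ p)/p + 3/p²` (`|1 - z|² = 1 - 2 Re z + |z|²`, `|z| ≤ 2/p`), `1 - Re ψ p = |1 - ψ p|²/2` as `|ψ p| = 1`. So the factor is
`≤ exp(-|1 - ψ p|²/(2p) + 33/p²)`, and `∑_{p ≥ 11} 33/p² ≤ 33/10 ≤ 4`, `exp 4 ≤ 100`. -/
def StCPb : Prop := ∀ (K y N : ℕ) (g g' : GG), 10 ≤ K → 1 ≤ N →
  ‖∑ s ∈ SN (PN K y 1) N, (w1 K y s : ℂ) * (ev g s * conj (ev g' s))‖ ≤
    100 * Real.exp (-(∑ p ∈ PN K y 1, ‖1 - ev g p * conj (ev g' p)‖ ^ 2 / (2 * (p : ℝ))))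

/-- [CGm] (MEDIUM) `GamS`. All terms of the double sum are `≥ 0`, so `T` may be replaced by `SN (PN K y 1) N ⊇ T` (`N` large: every
`s ∈ T` has all its primes in `PN K y 1`; exponents `≤ s`). By `StCId` and `StCPb` the sum is at most
`10⁴ ∫_{E×E} exp(-∑_{p ∈ PN K y 1} ‖1 - ev g p conj (ev g' p)‖²/p) d(σ×σ) =: 10⁴ I(y)`. As `y → ∞` the integrand decreases; it tends to `0`
at every pair which is not related (`Rl`: then the sum over all primes, hence over the primes `> K`, is infinite; `ev g p = g p`),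
and the related pairs in `E × E` have measure `0` (`Cn`). Dominated convergence (bounded by `1`): `I(y) → 0`.
(hId : StCId) (hPb : StCPb) -/
def StCGm : Prop := GamS

/-! ## 4. Product law -/

/-- [CWp] (MEDIUM) `WtP`. `S = ∏ s j`. `PN K y (S n)` is `PN K y 1` without the primes dividing `S n`, so
`∏_{PN (S n)} (1 - om p/p) = ∏_{PN 1} (1 - om p/p) / ∏_{p ∈ PN 1, p | S n} (1 - om p/p)`; `om p = 3 + rho p ≤ 5`
(`FC.StRh`), `1 - om p/p ≥ 1 - 5/p > 0` (`p ≥ 11`), and `1 - om p/p ≤ (1 - 1/p)³ (1 - rho p/p)` (Bernoulli: `(1-a)(1-b) ≥ 1 - a - b`).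
The primes dividing `S n` in `(K, y]` are those of the `s j` and those of `n` (`AdmS`), and a product of factors `(1-5/p)⁻¹ ≥ 1` over the
union is at most the product of the products. `rho4 (s 3)/S = (1/s 0)(1/s 1)(1/s 2)(rho4 (s 3)/s 3)`. (hRh : FC.StRh) -/
def StCWp : Prop := WtP

/-- [CMs] (MEDIUM) `MasS`. `T ⊆ SN (PN K y 1) N` for `N` large, terms `≥ 0`. As in `StCPb` with `ψ = 1`:
`∑ w1 = ∏_p (1 - 1/p)(1 + (1-5/p)⁻¹ ∑_{1≤e≤N} p^(-e)) ≤ ∏_p (1 - 1/p + 1/(p-5)) = ∏ (1 + 5/(p(p-5))) ≤ exp(∑_{p ≥ 11} 10/p²) ≤ e ≤ 3`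
(`p - 5 ≥ p/2`, `∑_{m ≥ 11} 10/m² ≤ 1`). For `w3`: the factor is `(1 - ρ/p)(1 + ρ (1-5/p)⁻¹ ∑ p^(-e))`, `ρ = rho p ≤ 2`, at most
`1 - ρ/p + (1 - ρ/p) ρ p/((p-5)(p-1))`; since `(1 - ρ/p) ≤ (p-1)/p` for `ρ ≥ 1` this is `≤ 1 - ρ/p + ρ/(p-5) ≤ 1 + 10 ρ/p²`... and
`≤ exp(20/p²)`: total `≤ exp(20/10)`. To get the bound `3` for `w3` use the better tail: all `p > K ≥ 10` are primes `≥ 11` and odd, so
`∑ 1/p² ≤ ∑_{m odd ≥ 11} 1/m² ≤ 1/20`, total `≤ e ≤ 3`. (hRh : FC.StRh) -/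
def StCMs : Prop := MasS

/-! ## 5. Representatives -/

/-- [CDc] (EASY) decomposition. `N = ∏ p^(v_p)` (`Nat.factorization_prod_pow_eq_self`), split the primes into `≤ K`, `(K, y]`, `> y`;
positivity. -/
def StCDc : Prop := ∀ K y N : ℕ, K ≤ y → 0 < N →
  N = sm K N * sp K y N * rp y N ∧ 0 < sm K N ∧ 0 < sp K y N ∧ 0 < rp y N ∧ Sy K y (sp K y N)

/-- [CRp] (EASY-MEDIUM) `RepQ`. `L = sm · sp · rp` (`StCDc`), `U L = U (sm sp) (U rp)`, so it suffices to bound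
`‖U (rp y L) V(1_E) - U (rq y q cl L) V(1_E)‖`. Induction over the prime factors (`Finset.prod_induction` / telescoping): if `U a`, `U b` differ on
`V(1_E)` by `η` and `U p`, `U q` by `sqrt δ` then `U (a p)`, `U (b q)` differ by `η + sqrt δ` (`U (a p) - U (b q) = U p (U a - U b) +
U b (U p - U q)`, commutativity, isometries). `‖U p V(1_E) - U q V(1_E)‖ ≤ sqrt (dd S A p q) ≤ sqrt δ` (`StCV`), `q = rr q cl p` as
`cl p ≠ none`. The number of steps is `nb y L ≤ R'`. (hU : StCU) (hV : StCV) (hDc : StCDc) -/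
def StCRp : Prop := RepQ

/-! ## 6. Domination -/

/-- [CAd] (MEDIUM) the parts in `(K, y]` of the four forms are an admissible tuple. If a prime `p > K` divides two of the forms or a
form and `n`, then `p | v` and `p | n` (`Lf i - Lf j` is `κ n`, `2 κ n`; `L₃ = 2 (κ n)², (κ n)², 2 (κ n)²` modulo `L₀, L₁, L₂`, and `L_j = v` or `v²` modulo
`n`; `p ∤ 2 κ`), excluded by `Gv`. `s j ∣ Lf κ n v j`. Then `v ∈ Ns K y (K! κ) n 0 X s`: the forms with `κ' = K! κ`, `a' = K! v` are `K!`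
times (`(K!)²` times for `j = 3`) the old ones, `s j` divides them; and a prime `p ∈ PN K y (S n)` dividing one of the new forms divides the
old one (`p > K`, `p ∤ K!`), so `p | sp K y (Lf j) = s j | S`, a contradiction. `s ∈ SS K y n X` since `(s j)^16 ≤ X`. -/
def StCAd : Prop := ∀ K κ n y X E₀ R' v : ℕ, 10 ≤ K → K ≤ y → 0 < κ → (∀ p : ℕ, p.Prime → p ∣ κ → p ≤ K) →
  0 < n → Gv K κ n y X E₀ R' v →
  (fun j => sp K y (Lf κ n v j)) ∈ SS K y n X ∧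
  v ∈ Ns K y (K.factorial * κ) n 0 X (fun j => sp K y (Lf κ n v j))

/-- [CRq] (EASY-MEDIUM) the possible values of `rq`: group the prime factors `> y` of `N` by the class: `rq = ∏_i (q i)^(t i)`,
`t i = ∑_{p > y, cl p = some i} v_p(N) ≤ nb y N ≤ R'`. -/
def StCRq : Prop := ∀ (J y R' : ℕ) (q : Fin J → ℕ) (cl : ℕ → Option (Fin J)) (N : ℕ), nb y N ≤ R' →
  ∃ t : Fin J → Fin (R' + 1), rq y q cl N = Dq q t

/-- [CDm] (MEDIUM) `DomQ`. `R₀` from `FC.StSB`. Sort `v ∈ Vs` by `s(v) = (sp ..)_j`, `e(v) = (sm ..)_j ≤ E₀`, `t(v)` of `StCRq`. So the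
left side is at most `∑_e ∑_t ∑_{s ∈ SS} #{v ∈ Vs : s(v) = s} Ψ s e (Dq t)` (each `v` contributes its own term; all terms `≥ 0`), and
`#{v : s(v) = s} ≤ |Ns K y (K! κ) n 0 X s| ≤ 6 X Wt K y n s` (`StCAd`; `FC.StSB` with `w = K`, `κ = K! κ` (`Adm`), `c = 0`; the members of `SS`
are admissible with `(∏ s)⁴ ≤ X`; `y ≥ 2`). (hSB : FC.StSB) (hAd : StCAd) (hRq : StCRq) -/
def StCDm : Prop := DomQ

/-! ## 7. The estimate for fixed `n` -/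

/-- the value at the parts `s`, `e`, `D` -/
noncomputable def Ps {X : Type} [MeasurableSpace X] {μ : Measure X} (S : Sys μ) (A : Set X) (κ n : ℕ)
    (h g : Lp ℂ 2 μ) (s e D : Fin 4 → ℕ) : ℝ :=
  if ∀ j, 0 < s j ∧ 0 < e j ∧ 0 < D j then
    ‖bt S A (e 3 * s 3 * D 3) (U S (2 * κ * n * (e 1 * s 1 * D 1)) h)
      (U S (e 0 * s 0 * D 0 * (e 2 * s 2 * D 2)) g)‖ ^ 2
  else 0

/-- [CFx] (MEDIUM) fixed `e`, `D`, all `s`. Every `s ∈ SS` has `s j ∈ T := {s ≤ X : Sy K y s}`, and `Wt ≤ hn w1 w1 w1 w3` (`WtP`). If `E'` is the set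
with small Gram matrix: fix `s 1, s 2, s 3`; the sum over `s 0 ∈ T` of `w1 (s 0) Ps` is `≤ 2 Γ^(1/4)` (`SltS` with `z = e 3 s 3 D 3`,
`H = U (2 κ n e 1 s 1 D 1) h`, `c = e 0 D 0 e 2 s 2 D 2`), then `∑ w1 w1 w3 ≤ 27` (`MasS`): total `≤ hn 54 Γ^(1/4)`. If `E` is: the same in the slot `s 1`
with `bt S A z H G = bt S A z G H`. (`Γ`: the double sum of `SltS` for `T`, assumed `≤ γ`.) (hWp : WtP) (hMs : MasS) (hSl : SltS) (hB : StCB) (hV : StCV) -/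
def StCFx : Prop := ∀ (X : Type) (_ : MeasurableSpace X) (μ : Measure X) (_ : IsProbabilityMeasure μ)
  (S : Sys μ) (A : Set X), MeasurableSet A → ∀ (σ : Measure GG) (_ : IsFiniteMeasure σ)
  (V : SpV S (b1 μ A) σ) (E E' : Set GG), MeasurableSet E → MeasurableSet E' →
  ∀ (K y n κ X₁ : ℕ) (e D : Fin 4 → ℕ) (γ : ℝ), 10 ≤ K → 0 < n → 0 < κ → 0 ≤ γ →
  ((∀ T : Finset ℕ, (∀ s ∈ T, Sy K y s) → ∑ s ∈ T, ∑ s' ∈ T, w1 K y s * w1 K y s' *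
      ‖∫ g in E, ev g s' * conj (ev g s) ∂σ‖ ^ 2 ≤ γ) ∨
    (∀ T : Finset ℕ, (∀ s ∈ T, Sy K y s) → ∑ s ∈ T, ∑ s' ∈ T, w1 K y s * w1 K y s' *
      ‖∫ g in E', ev g s' * conj (ev g s) ∂σ‖ ^ 2 ≤ γ)) →
  ∑ s ∈ SS K y n X₁, Wt K y n s * Ps S A κ n (V.V (b1 σ E)) (V.V (b1 σ E')) s e D ≤
    54 * hn K y n * γ ^ (1 / 4 : ℝ)

/-- [CPt] (EASY-MEDIUM) a good member. `x = tX κ k a n = 2 κ n L₁`, `y = L₀ L₂`, `z = L₃`, `L_j = Lf κ n (k a) j`; `L_j' = sm · sp · rq`.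
`bt z (U x h) (U y g) - bt z' (U x' h) (U y' g)`, `z' = L₃'`, `x' = 2 κ n L₁'`, `y' = L₀' L₂'`: change `z` first (`StCT` for `G = g`, constant `B` for
`η`): `≤ B sqrt(dd z z') + η ≤ B R' sqrt δ + η` (`sqrt (dd z z') = ‖U z f - U z' f‖`, `RepQ` with `E = univ`, `V (b1 univ) = f`); then `x`
(`‖U x h - U x' h‖ = ‖U L₁ h - U L₁' h‖ ≤ R' sqrt δ`), then `y` (`≤ 2 R' sqrt δ`). (hU hB hV hRp hDc) -/
def StCPt : Prop := ∀ (X : Type) (_ : MeasurableSpace X) (μ : Measure X) (_ : IsProbabilityMeasure μ)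
  (S : Sys μ) (A : Set X), MeasurableSet A → ∀ (σ : Measure GG) (_ : IsFiniteMeasure σ)
  (V : SpV S (b1 μ A) σ) (E E' : Set GG), MeasurableSet E → MeasurableSet E' →
  ∀ (B η : ℝ), 0 ≤ B → (∀ z z' y : ℕ, 0 < z → 0 < z' → 0 < y → ∀ H : Lp ℂ 2 μ, ‖H‖ ≤ 1 →
    ‖bt S A z H (U S y (V.V (b1 σ E'))) - bt S A z' H (U S y (V.V (b1 σ E')))‖ ≤
      B * Real.sqrt (dd S A z z') + η) →
  ∀ (K y R' J κ k a n : ℕ) (q : Fin J → ℕ) (cl : ℕ → Option (Fin J)) (δ : ℝ), 0 ≤ δ → (∀ i, 0 < q i) →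
  (∀ (p : ℕ) (i : Fin J), p.Prime → cl p = some i → dd S A p (q i) ≤ δ) → K ≤ y → 0 < κ → 0 < k →
  0 < a → 0 < n → (∀ j, nb y (Lf κ n (k * a) j) ≤ R') →
  (∀ (j : Fin 4) (p : ℕ), p.Prime → y < p → p ∣ Lf κ n (k * a) j → cl p ≠ none) →
  ‖bt S A (tZ κ k a n) (U S (tX κ k a n) (V.V (b1 σ E))) (U S (tY κ k a n) (V.V (b1 σ E')))‖ ≤
    (B + 3) * R' * Real.sqrt δ + η +
    Real.sqrt (Ps S A κ n (V.V (b1 σ E)) (V.V (b1 σ E')) (fun j => sp K y (Lf κ n (k * a) j))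
      (fun j => sm K (Lf κ n (k * a) j)) (fun j => rq y q cl (Lf κ n (k * a) j)))

open Classical in
/-- [CFn] (MEDIUM) fixed `n`. `a = Q (v + v') + 1`, `Q = w!`, `D = DR 1 w K`; a value of `v + v'` is taken at most `D M` times and
`a ↦ k a` is injective, `1 ≤ k a ≤ X₁ = 3 k Q D M`. So the sum over `v, v' ≤ D M` of a nonnegative function of `k a` over the good ones
is at most `D M ∑_{V ∈ Vs}`, `Vs` = the set of all `V` with `Gv`, and by `DomQ` and `StCFx`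
`≤ D M · 6 X₁ (E₀+1)^4 (R'+1)^(4J) 54 hn γ^(1/4)`. Divide by `(D M)²`. (hDm : DomQ) (hFx : StCFx) -/
def StCFn : Prop := ∃ R₀ : ℕ, 0 < R₀ ∧
  ∀ (X : Type) (_ : MeasurableSpace X) (μ : Measure X) (_ : IsProbabilityMeasure μ)
  (S : Sys μ) (A : Set X), MeasurableSet A → ∀ (σ : Measure GG) (_ : IsFiniteMeasure σ)
  (V : SpV S (b1 μ A) σ) (E E' : Set GG), MeasurableSet E → MeasurableSet E' →
  ∀ (K y n κ k Q D M E₀ R' J : ℕ) (q : Fin J → ℕ) (cl : ℕ → Option (Fin J)) (γ : ℝ), 10 ≤ K → K ≤ y →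
  0 < n → 0 < κ → (∀ p : ℕ, p.Prime → p ∣ κ → p ≤ K) → 0 < k → 0 < Q → 0 < D → 0 < M → 0 ≤ γ →
  y ^ (8 * R₀) ≤ 3 * k * Q * D * M →
  ((∀ T : Finset ℕ, (∀ s ∈ T, Sy K y s) → ∑ s ∈ T, ∑ s' ∈ T, w1 K y s * w1 K y s' *
      ‖∫ g in E, ev g s' * conj (ev g s) ∂σ‖ ^ 2 ≤ γ) ∨
    (∀ T : Finset ℕ, (∀ s ∈ T, Sy K y s) → ∑ s ∈ T, ∑ s' ∈ T, w1 K y s * w1 K y s' *
      ‖∫ g in E', ev g s' * conj (ev g s) ∂σ‖ ^ 2 ≤ γ)) →
  (∑ v ∈ Finset.Icc 1 (D * M), ∑ v' ∈ Finset.Icc 1 (D * M),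
    if Gv K κ n y (3 * k * Q * D * M) E₀ R' (k * (Q * (v + v') + 1)) then
      Ps S A κ n (V.V (b1 σ E)) (V.V (b1 σ E'))
        (fun j => sp K y (Lf κ n (k * (Q * (v + v') + 1)) j))
        (fun j => sm K (Lf κ n (k * (Q * (v + v') + 1)) j))
        (fun j => rq y q cl (Lf κ n (k * (Q * (v + v') + 1)) j))
    else 0) / ((D * M : ℕ) : ℝ) ^ 2 ≤
    1000 * (k * Q : ℕ) * ((E₀ + 1 : ℕ) : ℝ) ^ 4 * ((R' + 1 : ℕ) : ℝ) ^ (4 * J) * hn K y n *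
      γ ^ (1 / 4 : ℝ)

/-! ## 8. The continuous part -/

open Classical in
/-- [CAv] (MEDIUM) the average over the family for fixed `e`, `e'`. `κ = kR 1 w K e`, `k = kK 1 w K e'`, `Q = w!`, `D = DR 1 w K`,
`X₁ = 3 k Q D M`. On the members which are not `Gm` the form is `≤ 1` in absolute value; on the members `Gm` use `StCPt`, and the mean of
`sqrt Ps` over the good ones is at most the square root of the mean of `Ps` (Cauchy-Schwarz, `(∑ f/N)² ≤ ∑ f²/N`), which is bounded by `StCFn`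
with `hn ≤ 2`, for every `n = Q s + 1`. All prime factors of `κ = w! kp w K e` are `≤ w ≤ K`. (`BRK`, `BFK` are averages of
`(DM)² M²` terms; `‖BFK F‖ ≤ BRK ‖F‖`.) (hB : StCB) (hV : StCV) (hPt : StCPt) (hFn : StCFn) -/
def StCAv : Prop := ∃ R₀ : ℕ, 0 < R₀ ∧
  ∀ (X : Type) (_ : MeasurableSpace X) (μ : Measure X) (_ : IsProbabilityMeasure μ)
  (S : Sys μ) (A : Set X), MeasurableSet A → ∀ (σ : Measure GG) (_ : IsFiniteMeasure σ)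
  (V : SpV S (b1 μ A) σ) (E E' : Set GG), MeasurableSet E → MeasurableSet E' →
  ∀ (B η : ℝ), 0 ≤ B → 0 ≤ η → (∀ z z' y : ℕ, 0 < z → 0 < z' → 0 < y → ∀ H : Lp ℂ 2 μ, ‖H‖ ≤ 1 →
    ‖bt S A z H (U S y (V.V (b1 σ E'))) - bt S A z' H (U S y (V.V (b1 σ E')))‖ ≤
      B * Real.sqrt (dd S A z z') + η) →
  ∀ (w K y E₀ R' J M : ℕ) (q : Fin J → ℕ) (cl : ℕ → Option (Fin J)) (δ γ : ℝ), 10 ≤ w → w ≤ K → K ≤ y →
  0 < M → 0 ≤ δ → 0 ≤ γ → (∀ i, 0 < q i) →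
  (∀ (p : ℕ) (i : Fin J), p.Prime → cl p = some i → dd S A p (q i) ≤ δ) →
  ((∀ T : Finset ℕ, (∀ s ∈ T, Sy K y s) → ∑ s ∈ T, ∑ s' ∈ T, w1 K y s * w1 K y s' *
      ‖∫ g in E, ev g s' * conj (ev g s) ∂σ‖ ^ 2 ≤ γ) ∨
    (∀ T : Finset ℕ, (∀ s ∈ T, Sy K y s) → ∑ s ∈ T, ∑ s' ∈ T, w1 K y s * w1 K y s' *
      ‖∫ g in E', ev g s' * conj (ev g s) ∂σ‖ ^ 2 ≤ γ)) →
  ∀ (e : Fin (w + 1) → Fin K) (e' : Fin (K + 1) → Fin K), y ^ (8 * R₀) ≤ M →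
  ‖BFK 1 w K M fun a n => bt S A (tZ (kR 1 w K e) (kK 1 w K e') a n)
      (U S (tX (kR 1 w K e) (kK 1 w K e') a n) (V.V (b1 σ E)))
      (U S (tY (kR 1 w K e) (kK 1 w K e') a n) (V.V (b1 σ E')))‖ ≤
    BRK 1 w K M (fun a n =>
      if Gm w K (kR 1 w K e) (kK 1 w K e') a n y
        (3 * kK 1 w K e' * w.factorial * DR 1 w K * M) E₀ R' (fun p => cl p = none) then 0 else 1) +
    (B + 3) * R' * Real.sqrt δ + η +
    Real.sqrt (2000 * (kK 1 w K e' * w.factorial : ℕ) * ((E₀ + 1 : ℕ) : ℝ) ^ 4 *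
      ((R' + 1 : ℕ) : ℝ) ^ (4 * J) * γ ^ (1 / 4 : ℝ))

/-- [CFi] (MEDIUM) `ContS`. Let `ε > 0`. `w` with `w ≥ 10`, `C/w ≤ ε/8` (`C` of `GoodS`), `K ≥ w`. `δ₁ = ε/8`, `R ≥ R₁`, `8 R₀ + 1` (`R₀` of `StCAv`); `E₀`, `δ_G`
of `GoodS`; `B` (maximum for `E'` and `F'`) of `StCT` with `η = ε/8`; `δ = min δ_G δ'` with `(B + 3) 3 R sqrt δ' ≤ ε/8`. `J` from `LPC` for
`(3 R, δ)`; `γ > 0` so small that the last term of `StCAv` is `≤ ε/8` for all `e'` (`R' = 3R`); `y₀` from `GamS` for `γ` (for the members of the two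
pairs which are `Cn`), `Y₁` of `GoodS`. For `Y ≥ max` from `LPC` put `y = Y`, `M = Y^R` (`≥` any given number). Then each `BFK` is
`≤ C/w + ε/8 + ε/8 + ε/8 + ε/8 ≤ ε`, and `AvK 1 w K M` is the mean over `e`, `e'` (`K > 0`).
(hT : StCT) (hAv : StCAv) (hG : GoodS) (hGm : GamS) -/
def StCFi : Prop := ContS

end Pool.Agent.F0f91f8.PC
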