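import Mathlib
import Pool.Agent.Work.MP_0f91f8_co.PC.StmtsC
import Pool.Agent.Work.MP_0f91f8_co.FC.I_Cp

/-!
# Block PC, module CT: item CAd (the parts in `(K, y]` form an admissible tuple)
-/

set_option autoImplicit false

namespace Pool.Agent.F0f91f8.PC

open Filter Topology ComplexConjugate MeasureTheory
open Pool.Agent.F0f91f8.HD Pool.Agent.F0f91f8.RC Pool.Agent.F0f91f8.KR Pool.Agent.F0f91f8.FC
open Pool.Agent.Work.MP_0f91f8_co.EF (GG ev)
open scoped BigOperators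

namespace ICAd

variable {K κ n y X E₀ R' v : ℕ}

theorem Lf_ne (hv : 1 ≤ v) (hκ : 0 < κ) (hn : 0 < n) (j : Fin 4) : Lf κ n v j ≠ 0 := by
  have hκn : 0 < κ * n := Nat.mul_pos hκ hn
  fin_cases j
  · show v ≠ 0
    omega
  · show v + κ * n ≠ 0
    omega
  · show v + 2 * (κ * n) ≠ 0
    omega
  · show (v + κ * n) ^ 2 + (κ * n) ^ 2 ≠ 0
    positivity

/-- a prime dividing a form and `n` divides `v` -/
theorem dvd_v {p : ℕ} (hp : p.Prime) (j : Fin 4) (h : p ∣ Lf κ n v j) (hn : p ∣ n) : p ∣ v := by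
  have : Fact p.Prime := ⟨hp⟩
  have h2 : (n : ZMod p) = 0 := (ZMod.natCast_eq_zero_iff n p).2 hn
  have h3 := XCp.cast_Lf p κ n v j h
  rw [h2] at h3
  have h4 : (v : ZMod p) = 0 := by
    fin_cases j <;> simpa using h3
  exact (ZMod.natCast_eq_zero_iff v p).1 h4

/-- a prime dividing two forms divides `n` -/
theorem dvd_n (hK : 10 ≤ K) (hκK : ∀ p : ℕ, p.Prime → p ∣ κ → p ≤ K) {p : ℕ} (hp : p.Prime)
    (hKp : K < p) (i j : Fin 4) (hij : i ≠ j) (h1 : p ∣ Lf κ n v i) (h2 : p ∣ Lf κ n v j) :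
    p ∣ n := by
  have : Fact p.Prime := ⟨hp⟩
  have g1 := XCp.cast_Lf p κ n v i h1
  have g2 := XCp.cast_Lf p κ n v j h2
  have h3 := XCp.two_sq (v : ZMod p) ((κ : ZMod p) * n) i j hij g1 g2
  have h4 : (2 : ZMod p) ≠ 0 := by
    intro h
    have h' : ((2 : ℕ) : ZMod p) = 0 := by exact_mod_cast h
    have := Nat.le_of_dvd (by norm_num) ((ZMod.natCast_eq_zero_iff 2 p).1 h')
    omega
  have h5 : ((κ : ZMod p) * n) = 0 := by
    rcases mul_eq_zero.1 h3 with h | h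
    · exact absurd h h4
    · exact pow_eq_zero_iff (two_ne_zero) |>.1 h
  rcases mul_eq_zero.1 h5 with h | h
  · have := hκK p hp ((ZMod.natCast_eq_zero_iff κ p).1 h)
    omega
  · exact (ZMod.natCast_eq_zero_iff n p).1 h

theorem Lf_mul (Q κ n v : ℕ) (j : Fin 4) :
    ∃ c : ℕ, (c = Q ∨ c = Q ^ 2) ∧ Lf (Q * κ) n (Q * v + 0) j = c * Lf κ n v j := by
  fin_cases j
  · exact ⟨Q, Or.inl rfl, by show Q * v + 0 = Q * v; ring⟩
  · exact ⟨Q, Or.inl rfl, by show Q * v + 0 + Q * κ * n = Q * (v + κ * n); ring⟩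
  · exact ⟨Q, Or.inl rfl, by
      show Q * v + 0 + 2 * (Q * κ * n) = Q * (v + 2 * (κ * n)); ring⟩
  · exact ⟨Q ^ 2, Or.inr rfl, by
      show (Q * v + 0 + Q * κ * n) ^ 2 + (Q * κ * n) ^ 2 =
        Q ^ 2 * ((v + κ * n) ^ 2 + (κ * n) ^ 2)
      ring⟩

end ICAd

theorem pr_CAd : StCAd := by
  classical
  intro K κ n y X E₀ R' v hK hKy hκ hκK hn hG
  obtain ⟨hv1, hvX, hcop, hsz⟩ := hG
  have hL0 : ∀ j, Lf κ n v j ≠ 0 := ICAd.Lf_ne hv1 hκ hn
  have hpos : ∀ j, 0 < sp K y (Lf κ n v j) := fun j => XCp.sp_pos _ _ _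
  have hnn : ∀ (j : Fin 4) (p : ℕ), p.Prime → K < p → p ∣ Lf κ n v j → ¬ p ∣ n :=
    fun j p hp hKp h hpn => hcop p hp hKp (ICAd.dvd_v hp j h hpn) hpn
  have hadm : AdmS K y n (fun j => sp K y (Lf κ n v j)) := by
    refine ⟨hpos, ?_, ?_, ?_⟩
    · intro i j hij
      by_contra hc
      obtain ⟨p, hp, h1, h2⟩ := Nat.Prime.not_coprime_iff_dvd.1 hc
      have hKp := (XCp.prime_sp hp h1).1
      have g1 := h1.trans (XCp.sp_dvd K y _ (hL0 i))
      have g2 := h2.trans (XCp.sp_dvd K y _ (hL0 j))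
      exact hnn i p hp hKp g1 (ICAd.dvd_n hK hκK hp hKp i j hij g1 g2)
    · intro j p hp h
      exact XCp.prime_sp hp h
    · intro j
      by_contra hc
      obtain ⟨p, hp, h1, h2⟩ := Nat.Prime.not_coprime_iff_dvd.1 hc
      exact hnn j p hp (XCp.prime_sp hp h1).1 (h1.trans (XCp.sp_dvd K y _ (hL0 j))) h2
  have hle : ∀ j, sp K y (Lf κ n v j) ≤ X := fun j =>
    (Nat.le_self_pow (by norm_num) _).trans (hsz j).1
  have hprod : (∏ j, sp K y (Lf κ n v j)) ^ 4 ≤ X := by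
    have h16 : ((∏ j, sp K y (Lf κ n v j)) ^ 4) ^ 4 ≤ X ^ 4 := by
      calc ((∏ j, sp K y (Lf κ n v j)) ^ 4) ^ 4 = ∏ j : Fin 4, sp K y (Lf κ n v j) ^ 16 := by
            rw [← pow_mul, Finset.prod_pow]
        _ ≤ ∏ _j : Fin 4, X := Finset.prod_le_prod' fun j _ => (hsz j).1
        _ = X ^ 4 := by simp
    exact (Nat.pow_le_pow_iff_left (by norm_num)).1 h16
  refine ⟨?_, ?_⟩
  · unfold SS
    rw [Finset.mem_filter]
    refine ⟨?_, hadm, hprod⟩
    rw [Fintype.mem_piFinset]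
    intro j
    exact Finset.mem_range.2 (Nat.lt_succ_of_le (hle j))
  · unfold Ns
    rw [Finset.mem_filter]
    refine ⟨Finset.mem_Icc.2 ⟨hv1, hvX⟩, ?_, ?_⟩
    · intro j
      obtain ⟨c, -, hc⟩ := ICAd.Lf_mul K.factorial κ n v j
      rw [hc]
      exact (XCp.sp_dvd K y _ (hL0 j)).trans (Dvd.intro_left c rfl)
    · intro p hp hdiv
      obtain ⟨hpi, hpp, hKp, hnd⟩ := Finset.mem_filter.1 hp
      have hpy : p ≤ y := (Finset.mem_Icc.1 hpi).2
      rw [Prime.dvd_finsetProd_iff hpp.prime] at hdiv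
      obtain ⟨j, -, hj⟩ := hdiv
      obtain ⟨c, hcQ, hc⟩ := ICAd.Lf_mul K.factorial κ n v j
      rw [hc] at hj
      have hpQ : ¬ p ∣ K.factorial := by
        intro h
        have := (hpp.dvd_factorial).1 h
        omega
      have hpc : ¬ p ∣ c := by
        rcases hcQ with rfl | rfl
        · exact hpQ
        · exact fun h => hpQ (hpp.dvd_of_dvd_pow h)
      have hj' : p ∣ Lf κ n v j := ((hpp.dvd_mul).1 hj).resolve_left hpc
      apply hnd
      refine Dvd.dvd.mul_right ?_ n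
      exact (XCp.dvd_sp (hL0 j) hpp hj' hKp hpy).trans
        (Finset.dvd_prod_of_mem (fun j => sp K y (Lf κ n v j)) (Finset.mem_univ j))

end Pool.Agent.F0f91f8.PC
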