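import Mathlib
import Pool.Agent.Work.MP_0f91f8_co.PC.StmtsC

/-!
# Block PC, item CAv: the average over the family
-/

set_option autoImplicit false

namespace Pool.Agent.F0f91f8.PC

open Filter Topology ComplexConjugate MeasureTheory
open Pool.Agent.F0f91f8.HD Pool.Agent.F0f91f8.RC Pool.Agent.F0f91f8.KR Pool.Agent.F0f91f8.FC
open Pool.Agent.Work.MP_0f91f8_co.EF (GG ev)
open scoped BigOperators

namespace ICAv

/-- an average of `b + c₁ + sqrt P` -/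
theorem avg_le {α : Type} (s : Finset α) (c c₁ : ℝ) (hc : c = (s.card : ℝ)) (hc0 : 0 < c)
    (F P b : α → ℝ) (hP : ∀ i ∈ s, 0 ≤ P i) (hF : ∀ i ∈ s, F i ≤ b i + c₁ + Real.sqrt (P i)) :
    (∑ i ∈ s, F i) / c ≤ (∑ i ∈ s, b i) / c + c₁ + Real.sqrt ((∑ i ∈ s, P i) / c) := by
  have h1 : ∑ i ∈ s, F i ≤ ∑ i ∈ s, b i + c * c₁ + ∑ i ∈ s, Real.sqrt (P i) := by
    refine (Finset.sum_le_sum hF).trans (le_of_eq ?_)
    rw [Finset.sum_add_distrib, Finset.sum_add_distrib, Finset.sum_const, nsmul_eq_mul, hc]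
  have h2 : (∑ i ∈ s, Real.sqrt (P i)) / c ≤ Real.sqrt ((∑ i ∈ s, P i) / c) := by
    refine Real.le_sqrt_of_sq_le ?_
    have h3 : (∑ i ∈ s, Real.sqrt (P i)) ^ 2 ≤ (s.card : ℝ) * ∑ i ∈ s, Real.sqrt (P i) ^ 2 :=
      sq_sum_le_card_mul_sum_sq
    have h4 : ∑ i ∈ s, Real.sqrt (P i) ^ 2 = ∑ i ∈ s, P i :=
      Finset.sum_congr rfl fun i hi => Real.sq_sqrt (hP i hi)
    rw [h4, ← hc] at h3
    rw [div_pow, div_le_div_iff₀ (by positivity) hc0]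
    calc (∑ i ∈ s, Real.sqrt (P i)) ^ 2 * c ≤ (c * ∑ i ∈ s, P i) * c :=
          mul_le_mul_of_nonneg_right h3 hc0.le
      _ = (∑ i ∈ s, P i) * c ^ 2 := by ring
  calc (∑ i ∈ s, F i) / c ≤ (∑ i ∈ s, b i + c * c₁ + ∑ i ∈ s, Real.sqrt (P i)) / c :=
        div_le_div_of_nonneg_right h1 hc0.le
    _ = (∑ i ∈ s, b i) / c + c₁ + (∑ i ∈ s, Real.sqrt (P i)) / c := by
        field_simp
    _ ≤ _ := by linarith

/-- the index set -/
def I4 (M N : ℕ) : Finset ((ℕ × ℕ) × (ℕ × ℕ)) :=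
  (Finset.Icc 1 M ×ˢ Finset.Icc 1 M) ×ˢ (Finset.Icc 1 N ×ˢ Finset.Icc 1 N)

theorem sum4 {R : Type} [AddCommMonoid R] (M N : ℕ) (F : ℕ → ℕ → ℕ → ℕ → R) :
    ∑ u ∈ Finset.Icc 1 M, ∑ u' ∈ Finset.Icc 1 M, ∑ v ∈ Finset.Icc 1 N, ∑ v' ∈ Finset.Icc 1 N,
      F u u' v v' = ∑ i ∈ I4 M N, F i.1.1 i.1.2 i.2.1 i.2.2 := by
  unfold I4
  simp only [Finset.sum_product]

theorem card4 (M N : ℕ) : ((I4 M N).card : ℝ) = (M : ℝ) ^ 2 * (N : ℝ) ^ 2 := by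
  unfold I4
  rw [Finset.card_product, Finset.card_product, Finset.card_product, Nat.card_Icc, Nat.card_Icc,
    Nat.add_sub_cancel, Nat.add_sub_cancel]
  push_cast
  ring

theorem BFK_eq (w K M : ℕ) (G : ℕ → ℕ → ℂ) : BFK 1 w K M G =
    (∑ i ∈ I4 M (DR 1 w K * M), G (w.factorial * (i.2.1 + i.2.2) + 1)
      (w.factorial * (i.1.1 + i.1.2) + 1)) / ((M : ℂ) ^ 2 * ((DR 1 w K * M : ℕ) : ℂ) ^ 2) := by
  unfold BFK BxR Bx
  rw [sum4 M (DR 1 w K * M) (fun u u' v v' => G (w.factorial * (v + v') + 1)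
    (w.factorial * (u + u') + 1))]

theorem BRK_eq (w K M : ℕ) (G : ℕ → ℕ → ℝ) : BRK 1 w K M G =
    (∑ i ∈ I4 M (DR 1 w K * M), G (w.factorial * (i.2.1 + i.2.2) + 1)
      (w.factorial * (i.1.1 + i.1.2) + 1)) / ((M : ℝ) ^ 2 * ((DR 1 w K * M : ℕ) : ℝ) ^ 2) := by
  unfold BRK BR
  rw [sum4 M (DR 1 w K * M) (fun u u' v v' => G (w.factorial * (v + v') + 1)
    (w.factorial * (u + u') + 1))]

/-- the average over `v`, `v'` first -/
theorem avg2 (M N : ℕ) (hM : 0 < M) (P : ℕ → ℕ → ℕ → ℕ → ℝ) (Bd : ℝ)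
    (h : ∀ u u', (∑ v ∈ Finset.Icc 1 N, ∑ v' ∈ Finset.Icc 1 N, P u u' v v') / (N : ℝ) ^ 2 ≤ Bd) :
    (∑ i ∈ I4 M N, P i.1.1 i.1.2 i.2.1 i.2.2) / ((M : ℝ) ^ 2 * (N : ℝ) ^ 2) ≤ Bd := by
  rw [← sum4 M N P]
  have hM' : (0 : ℝ) < M := by exact_mod_cast hM
  have e : (∑ u ∈ Finset.Icc 1 M, ∑ u' ∈ Finset.Icc 1 M, ∑ v ∈ Finset.Icc 1 N,
      ∑ v' ∈ Finset.Icc 1 N, P u u' v v') / ((M : ℝ) ^ 2 * (N : ℝ) ^ 2) =
      (∑ u ∈ Finset.Icc 1 M, ∑ u' ∈ Finset.Icc 1 M, (∑ v ∈ Finset.Icc 1 N,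
      ∑ v' ∈ Finset.Icc 1 N, P u u' v v') / (N : ℝ) ^ 2) / (M : ℝ) ^ 2 := by
    rw [mul_comm, ← div_div]
    congr 1
    rw [Finset.sum_div]
    refine Finset.sum_congr rfl fun u _ => ?_
    rw [Finset.sum_div]
  rw [e, div_le_iff₀ (by positivity)]
  calc ∑ u ∈ Finset.Icc 1 M, ∑ u' ∈ Finset.Icc 1 M, (∑ v ∈ Finset.Icc 1 N,
      ∑ v' ∈ Finset.Icc 1 N, P u u' v v') / (N : ℝ) ^ 2
      ≤ ∑ u ∈ Finset.Icc 1 M, ∑ u' ∈ Finset.Icc 1 M, Bd :=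
        Finset.sum_le_sum fun u _ => Finset.sum_le_sum fun u' _ => h u u'
    _ = Bd * (M : ℝ) ^ 2 := by
        rw [Finset.sum_const, Finset.sum_const, Nat.card_Icc]
        simp only [nsmul_eq_mul, Nat.add_sub_cancel]
        ring

theorem kp_pos (w K : ℕ) (e : Fin (w + 1) → Fin K) : 0 < kp w K e := by
  unfold kp
  refine Finset.prod_pos fun p _ => ?_
  split_ifs with h
  · exact pow_pos h.pos _
  · exact one_pos

theorem kk_pos (w K : ℕ) (e : Fin (K + 1) → Fin K) : 0 < kk w K e := by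
  unfold kk
  refine Finset.prod_pos fun p _ => ?_
  split_ifs with h
  · exact pow_pos h.1.pos _
  · exact one_pos

theorem kR_pos (w K : ℕ) (e : Fin (w + 1) → Fin K) : 0 < kR 1 w K e := by
  unfold kR
  exact Nat.mul_pos (pow_pos (by norm_num) _) (pow_pos (Nat.mul_pos (Nat.factorial_pos w)
    (kp_pos w K e)) _)

theorem kK_pos (w K : ℕ) (e : Fin (K + 1) → Fin K) : 0 < kK 1 w K e := by
  unfold kK
  exact pow_pos (kk_pos w K e) _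

theorem DR_pos (w K : ℕ) (hK : 0 < K) : 0 < DR 1 w K := by
  unfold DR
  exact Nat.mul_pos (pow_pos hK _) (Nat.mul_pos (pow_pos (by norm_num) _)
    (pow_pos (Nat.mul_pos (Nat.factorial_pos w) (pow_pos (Nat.factorial_pos w) _)) _))

theorem kR_primes (w K : ℕ) (e : Fin (w + 1) → Fin K) (p : ℕ) (hp : p.Prime)
    (h : p ∣ kR 1 w K e) : p ≤ w := by
  unfold kR at h
  rw [Nat.sub_self, pow_zero, one_mul, pow_one] at h
  rcases (Nat.Prime.dvd_mul hp).mp h with h | h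
  · exact (Nat.Prime.dvd_factorial hp).mp h
  · unfold kp at h
    obtain ⟨i, -, hi⟩ := (hp.prime.dvd_finsetProd_iff _).mp h
    split_ifs at hi with hpr
    · have h1 := hp.dvd_of_dvd_pow hi
      have h2 := Nat.le_of_dvd hpr.pos h1
      have h3 := i.2
      omega
    · exact absurd (Nat.dvd_one.mp hi) hp.one_lt.ne'

end ICAv

open ICAv

open Classical in
theorem pr_CAv (hU : StCU) (hB : StCB) (hV : StCV) (hPt : StCPt) (hFn : StCFn) : StCAv := by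
  obtain ⟨R₀, hR₀, hFn⟩ := hFn
  refine ⟨R₀, hR₀, ?_⟩
  intro X _ μ _ S A hA σ _ V E E' hE hE' B η hB0 hη hBT w K y E₀ R' J M q cl δ γ hw hwK hKy hM hδ hγ
    hq hcl hG e e' hyM
  have hK : 0 < K := by omega
  have hκ : 0 < kR 1 w K e := kR_pos w K e
  have hk : 0 < kK 1 w K e' := kK_pos w K e'
  have hD : 0 < DR 1 w K := DR_pos w K hK
  have hQ : 0 < w.factorial := Nat.factorial_pos w
  have hκK : ∀ p : ℕ, p.Prime → p ∣ kR 1 w K e → p ≤ K := fun p hp h =>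
    (kR_primes w K e p hp h).trans hwK
  obtain ⟨κ, hκd⟩ : ∃ κ, κ = kR 1 w K e := ⟨_, rfl⟩
  obtain ⟨k, hkd⟩ : ∃ k, k = kK 1 w K e' := ⟨_, rfl⟩
  obtain ⟨D, hDd⟩ : ∃ D, D = DR 1 w K := ⟨_, rfl⟩
  obtain ⟨Q, hQd⟩ : ∃ Q, Q = w.factorial := ⟨_, rfl⟩
  obtain ⟨h, hh⟩ : ∃ h, h = V.V (b1 σ E) := ⟨_, rfl⟩
  obtain ⟨g, hg⟩ : ∃ g, g = V.V (b1 σ E') := ⟨_, rfl⟩
  have hh1 : ‖h‖ ≤ 1 := by
    rw [hh]
    exact (hV X _ μ inferInstance S A hA σ inferInstance V E hE).2.1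
  have hg1 : ‖g‖ ≤ 1 := by
    rw [hg]
    exact (hV X _ μ inferInstance S A hA σ inferInstance V E' hE').2.1
  rw [BFK_eq, BRK_eq, ← hκd, ← hkd, ← hDd, ← hQd]
  rw [← hκd] at hκ hκK
  rw [← hkd] at hk
  rw [← hDd] at hD
  rw [← hQd] at hQ
  have hDM : 0 < D * M := Nat.mul_pos hD hM
  have hc0 : 0 < (M : ℝ) ^ 2 * ((D * M : ℕ) : ℝ) ^ 2 := by
    have h1 : (0 : ℝ) < M := by exact_mod_cast hM
    have h2 : (0 : ℝ) < ((D * M : ℕ) : ℝ) := by exact_mod_cast hDM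
    positivity
  obtain ⟨X₁, hX₁⟩ : ∃ X₁, X₁ = 3 * k * Q * D * M := ⟨_, rfl⟩
  have hyX : y ^ (8 * R₀) ≤ 3 * k * Q * D * M := by
    refine hyM.trans ?_
    exact Nat.le_mul_of_pos_left M (Nat.mul_pos (Nat.mul_pos (Nat.mul_pos (by norm_num) hk) hQ) hD)
  -- the functions
  obtain ⟨P, hP⟩ : ∃ P : ℕ → ℕ → ℝ, P = fun a n =>
      if Gm w K κ k a n y (3 * k * Q * D * M) E₀ R' (fun p => cl p = none) then
        Ps S A κ n h g (fun j => sp K y (Lf κ n (k * a) j)) (fun j => sm K (Lf κ n (k * a) j))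
          (fun j => rq y q cl (Lf κ n (k * a) j)) else 0 := ⟨_, rfl⟩
  obtain ⟨Bd, hBd⟩ : ∃ Bd : ℝ, Bd = 2000 * (k * Q : ℕ) * ((E₀ + 1 : ℕ) : ℝ) ^ 4 *
      ((R' + 1 : ℕ) : ℝ) ^ (4 * J) * γ ^ (1 / 4 : ℝ) := ⟨_, rfl⟩
  have hPs0 : ∀ (n : ℕ) (s e D : Fin 4 → ℕ), 0 ≤ Ps S A κ n h g s e D := by
    intro n s e D
    unfold Ps
    split_ifs
    · positivity
    · exact le_rfl
  have hP0 : ∀ a n, 0 ≤ P a n := by
    intro a n
    rw [hP]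
    simp only
    split_ifs
    · exact hPs0 _ _ _ _
    · exact le_rfl
  have hBd0 : 0 ≤ Bd := by
    rw [hBd]
    have : 0 ≤ γ ^ (1 / 4 : ℝ) := Real.rpow_nonneg hγ _
    positivity
  -- pointwise
  have hpt : ∀ a n : ℕ, 0 < a → 0 < n →
      ‖bt S A (tZ κ k a n) (U S (tX κ k a n) h) (U S (tY κ k a n) g)‖ ≤
      (if Gm w K κ k a n y (3 * k * Q * D * M) E₀ R' (fun p => cl p = none) then 0 else 1) +
        ((B + 3) * R' * Real.sqrt δ + η) + Real.sqrt (P a n) := by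
    intro a n ha hn
    by_cases hgm : Gm w K κ k a n y (3 * k * Q * D * M) E₀ R' (fun p => cl p = none)
    · rw [if_pos hgm, hP]
      simp only
      rw [if_pos hgm, hh, hg, zero_add]
      exact hPt X _ μ inferInstance S A hA σ inferInstance V E E' hE hE' B η hB0 hBT K y R' J κ k a n
        q cl δ hδ hq hcl hKy hκ hk ha hn (fun j => (hgm.1.2.2.2 j).2.2) hgm.2.2.2
    · rw [if_neg hgm]
      have h1 := (hB X _ μ inferInstance S A hA).1 (tZ κ k a n) (U S (tX κ k a n) h)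
        (U S (tY κ k a n) g)
      rw [LinearIsometry.norm_map, LinearIsometry.norm_map] at h1
      have h2 : ‖h‖ * ‖g‖ ≤ 1 := mul_le_one₀ hh1 (norm_nonneg _) hg1
      have h3 : 0 ≤ (B + 3) * R' * Real.sqrt δ := by positivity
      have h4 := Real.sqrt_nonneg (P a n)
      linarith
  -- the mean of `P`
  have hPm : (∑ i ∈ I4 M (D * M), P (Q * (i.2.1 + i.2.2) + 1) (Q * (i.1.1 + i.1.2) + 1)) /
      ((M : ℝ) ^ 2 * ((D * M : ℕ) : ℝ) ^ 2) ≤ Bd := by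
    refine avg2 M (D * M) hM (fun u u' v v' => P (Q * (v + v') + 1) (Q * (u + u') + 1)) Bd ?_
    intro u u'
    obtain ⟨n, hnn⟩ : ∃ n, n = Q * (u + u') + 1 := ⟨_, rfl⟩
    rw [← hnn]
    by_cases h2 : PC.hn K y n ≤ 2
    · have h3 := hFn X _ μ inferInstance S A hA σ inferInstance V E E' hE hE' K y n κ k Q D M E₀ R' J q
        cl γ (by omega) hKy (by omega) hκ hκK hk hQ hD hM hγ hyX hG
      rw [← hh, ← hg] at h3
      have h4 : (∑ v ∈ Finset.Icc 1 (D * M), ∑ v' ∈ Finset.Icc 1 (D * M), P (Q * (v + v') + 1) n) /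
          ((D * M : ℕ) : ℝ) ^ 2 ≤ 1000 * (k * Q : ℕ) * ((E₀ + 1 : ℕ) : ℝ) ^ 4 *
            ((R' + 1 : ℕ) : ℝ) ^ (4 * J) * PC.hn K y n * γ ^ (1 / 4 : ℝ) := by
        refine le_trans ?_ h3
        refine div_le_div_of_nonneg_right ?_ (by positivity)
        refine Finset.sum_le_sum fun v _ => Finset.sum_le_sum fun v' _ => ?_
        rw [hP]
        simp only
        by_cases hgm : Gm w K κ k (Q * (v + v') + 1) n y (3 * k * Q * D * M) E₀ R'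
            (fun p => cl p = none)
        · rw [if_pos hgm, if_pos hgm.1]
        · rw [if_neg hgm]
          split_ifs
          · exact hPs0 _ _ _ _
          · exact le_rfl
      refine h4.trans ?_
      rw [hBd]
      have h5 : 0 ≤ γ ^ (1 / 4 : ℝ) := Real.rpow_nonneg hγ _
      have h6 : 1000 * ((k * Q : ℕ) : ℝ) * ((E₀ + 1 : ℕ) : ℝ) ^ 4 *
            ((R' + 1 : ℕ) : ℝ) ^ (4 * J) * PC.hn K y n ≤ 1000 * ((k * Q : ℕ) : ℝ) *
            ((E₀ + 1 : ℕ) : ℝ) ^ 4 * ((R' + 1 : ℕ) : ℝ) ^ (4 * J) * 2 :=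
        mul_le_mul_of_nonneg_left h2 (by positivity)
      calc _ ≤ 1000 * ((k * Q : ℕ) : ℝ) *
            ((E₀ + 1 : ℕ) : ℝ) ^ 4 * ((R' + 1 : ℕ) : ℝ) ^ (4 * J) * 2 * γ ^ (1 / 4 : ℝ) :=
            mul_le_mul_of_nonneg_right h6 h5
        _ = _ := by ring
    · have h3 : ∀ a, P a n = 0 := by
        intro a
        rw [hP]
        simp only
        rw [if_neg]
        intro hgm
        exact h2 hgm.2.2.1
      simp only [h3, Finset.sum_const_zero, zero_div]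
      exact hBd0
  -- assembly
  rw [norm_div]
  have hden : ‖(M : ℂ) ^ 2 * ((D * M : ℕ) : ℂ) ^ 2‖ = (M : ℝ) ^ 2 * ((D * M : ℕ) : ℝ) ^ 2 := by
    rw [norm_mul, norm_pow, norm_pow, Complex.norm_natCast, Complex.norm_natCast]
  rw [hden, ← hh, ← hg]
  refine (div_le_div_of_nonneg_right (norm_sum_le _ _) hc0.le).trans ?_
  have hmain := avg_le (I4 M (D * M)) ((M : ℝ) ^ 2 * ((D * M : ℕ) : ℝ) ^ 2)
    ((B + 3) * R' * Real.sqrt δ + η) (card4 M (D * M)).symm hc0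
    (fun i => ‖bt S A (tZ κ k (Q * (i.2.1 + i.2.2) + 1) (Q * (i.1.1 + i.1.2) + 1))
      (U S (tX κ k (Q * (i.2.1 + i.2.2) + 1) (Q * (i.1.1 + i.1.2) + 1)) h)
      (U S (tY κ k (Q * (i.2.1 + i.2.2) + 1) (Q * (i.1.1 + i.1.2) + 1)) g)‖)
    (fun i => P (Q * (i.2.1 + i.2.2) + 1) (Q * (i.1.1 + i.1.2) + 1))
    (fun i => if Gm w K κ k (Q * (i.2.1 + i.2.2) + 1) (Q * (i.1.1 + i.1.2) + 1) y
      (3 * k * Q * D * M) E₀ R' (fun p => cl p = none) then 0 else 1)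
    (fun i _ => hP0 _ _) (fun i _ => hpt _ _ (Nat.succ_pos _) (Nat.succ_pos _))
  refine hmain.trans ?_
  have h7 := Real.sqrt_le_sqrt hPm
  rw [hBd] at h7
  linarith

end Pool.Agent.F0f91f8.PC
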