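import Mathlib
import Pool.Agent.Work.MP_0f91f8_co.PC.StmtsC

/-!
# Block PC, module CT, item CB: the form `bt`
-/

set_option autoImplicit false

namespace Pool.Agent.F0f91f8.PC

open Filter Topology ComplexConjugate MeasureTheory
open Pool.Agent.F0f91f8.HD Pool.Agent.F0f91f8.RC Pool.Agent.F0f91f8.KR Pool.Agent.F0f91f8.FC
open Pool.Agent.Work.MP_0f91f8_co.EF (GG ev)
open scoped BigOperators

namespace ICB

variable {X : Type} [MeasurableSpace X] {μ : Measure X}

theorem ind_meas (S : Sys μ) {A : Set X} (hA : MeasurableSet A) (z : ℕ) :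
    Measurable fun x => A.indicator (fun _ => (1 : ℂ)) (S.T z x) :=
  (measurable_const.indicator hA).comp (S.T z).measurable

theorem ind_le (A : Set X) (x : X) : ‖A.indicator (fun _ => (1 : ℂ)) x‖ ≤ 1 := by
  by_cases h : x ∈ A
  · rw [Set.indicator_of_mem h]; simp
  · rw [Set.indicator_of_notMem h]; simp

theorem exF (S : Sys μ) {A : Set X} (hA : MeasurableSet A) (z : ℕ) (H : Lp ℂ 2 μ) :
    ∃ F : Lp ℂ 2 μ, ‖F‖ ≤ ‖H‖ ∧ ∀ G : Lp ℂ 2 μ, bt S A z H G = inner ℂ F G := by
  obtain ⟨φ, hφ⟩ : ∃ φ : X → ℂ,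
      φ = fun x => conj (A.indicator (fun _ => (1 : ℂ)) (S.T z x) * H x) := ⟨_, rfl⟩
  have hφm : AEStronglyMeasurable φ μ := by
    rw [hφ]
    exact RCLike.continuous_conj.comp_aestronglyMeasurable
      ((ind_meas S hA z).aestronglyMeasurable.mul (Lp.aestronglyMeasurable H))
  have hle : ∀ x, ‖φ x‖ ≤ ‖H x‖ := by
    intro x
    rw [hφ]
    simp only [RCLike.norm_conj, norm_mul]
    calc _ ≤ 1 * ‖H x‖ := mul_le_mul_of_nonneg_right (ind_le A _) (norm_nonneg _)
      _ = _ := one_mul _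
  have hφL : MemLp φ 2 μ := (Lp.memLp H).mono hφm (Filter.Eventually.of_forall hle)
  refine ⟨hφL.toLp φ, ?_, fun G => ?_⟩
  · apply Lp.norm_le_norm_of_ae_le
    filter_upwards [hφL.coeFn_toLp] with x hx
    rw [hx]
    exact hle x
  · rw [L2.inner_def]
    unfold bt
    apply integral_congr_ae
    filter_upwards [hφL.coeFn_toLp] with x hx
    rw [hx, hφ, RCLike.inner_apply]
    simp only [RingHomCompTriple.comp_apply, RingHom.id_apply]
    ring

theorem sym (S : Sys μ) (A : Set X) (z : ℕ) (H G : Lp ℂ 2 μ) : bt S A z H G = bt S A z G H := by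
  unfold bt
  apply integral_congr_ae
  filter_upwards with x
  ring

theorem b1_ae [IsProbabilityMeasure μ] {A : Set X} (hA : MeasurableSet A) :
    (b1 μ A : X → ℂ) =ᵐ[μ] A.indicator fun _ => (1 : ℂ) := by
  have h : MemLp (A.indicator fun _ => (1 : ℂ)) 2 μ := (memLp_const (1 : ℂ)).indicator hA
  unfold b1 bl
  rw [dif_pos h]
  exact h.coeFn_toLp

end ICB

theorem pr_CB (hU : StCU) : StCB := by
  intro X _ μ _ S A hA
  obtain ⟨-, -, hU3⟩ := hU X _ μ inferInstance S
  refine ⟨fun z H G => ?_, fun z H G => ICB.sym S A z H G, fun z H H' G => ?_,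
    fun z c H G => ?_, fun z m H G hz hm => ?_, fun z H => ICB.exF S hA z H,
    fun x y z hx hy hz => ?_⟩
  · obtain ⟨F, hF1, hF2⟩ := ICB.exF S hA z H
    rw [hF2 G]
    exact (norm_inner_le_norm F G).trans (mul_le_mul_of_nonneg_right hF1 (norm_nonneg _))
  · obtain ⟨F, -, hF2⟩ := ICB.exF S hA z G
    rw [ICB.sym S A z (H + H') G, ICB.sym S A z H G, ICB.sym S A z H' G, hF2, hF2, hF2,
      inner_add_right]
  · obtain ⟨F, -, hF2⟩ := ICB.exF S hA z G
    rw [ICB.sym S A z (c • H) G, ICB.sym S A z H G, hF2, hF2, inner_smul_right]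
  · unfold bt
    have h1 : (fun x => A.indicator (fun _ => (1 : ℂ)) (S.T (z * m) x) * (U S m H : X → ℂ) x *
        (U S m G : X → ℂ) x) =ᵐ[μ] fun x =>
        (fun y => A.indicator (fun _ => (1 : ℂ)) (S.T z y) * (H : X → ℂ) y * (G : X → ℂ) y)
          (S.T m x) := by
      filter_upwards [hU3 m hm H, hU3 m hm G] with x h2 h3
      rw [h2, h3, S.mul z m hz hm]
    rw [integral_congr_ae h1]
    exact (S.mp m hm).integral_comp' (f := S.T m)
      (fun y => A.indicator (fun _ => (1 : ℂ)) (S.T z y) * (H : X → ℂ) y * (G : X → ℂ) y)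
  · have hb := ICB.b1_ae (μ := μ) hA
    have hbx : ∀ᵐ t ∂μ, (b1 μ A : X → ℂ) (S.T x t) = A.indicator (fun _ => (1 : ℂ)) (S.T x t) :=
      (S.mp x hx).quasiMeasurePreserving.ae hb
    have hby : ∀ᵐ t ∂μ, (b1 μ A : X → ℂ) (S.T y t) = A.indicator (fun _ => (1 : ℂ)) (S.T y t) :=
      (S.mp y hy).quasiMeasurePreserving.ae hb
    have hms : MeasurableSet {t | S.T x t ∈ A ∧ S.T y t ∈ A ∧ S.T z t ∈ A} :=
      ((S.T x).measurable hA).inter (((S.T y).measurable hA).inter ((S.T z).measurable hA))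
    have h1 : (fun t => A.indicator (fun _ => (1 : ℂ)) (S.T z t) * (U S x (b1 μ A) : X → ℂ) t *
        (U S y (b1 μ A) : X → ℂ) t) =ᵐ[μ]
        {t | S.T x t ∈ A ∧ S.T y t ∈ A ∧ S.T z t ∈ A}.indicator fun _ => (1 : ℂ) := by
      filter_upwards [hU3 x hx (b1 μ A), hU3 y hy (b1 μ A), hbx, hby] with t h2 h3 h4 h5
      rw [h2, h3, h4, h5]
      by_cases a1 : S.T x t ∈ A
      · by_cases a2 : S.T y t ∈ A
        · by_cases a3 : S.T z t ∈ A
          · rw [Set.indicator_of_mem a1, Set.indicator_of_mem a2, Set.indicator_of_mem a3,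
              Set.indicator_of_mem (show t ∈ {t | S.T x t ∈ A ∧ S.T y t ∈ A ∧ S.T z t ∈ A} from
                ⟨a1, a2, a3⟩)]
            ring
          · rw [Set.indicator_of_notMem a3, Set.indicator_of_notMem
              (show t ∉ {t | S.T x t ∈ A ∧ S.T y t ∈ A ∧ S.T z t ∈ A} from fun h => a3 h.2.2)]
            ring
        · rw [Set.indicator_of_notMem a2, Set.indicator_of_notMem
              (show t ∉ {t | S.T x t ∈ A ∧ S.T y t ∈ A ∧ S.T z t ∈ A} from fun h => a2 h.2.1)]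
          ring
      · rw [Set.indicator_of_notMem a1, Set.indicator_of_notMem
              (show t ∉ {t | S.T x t ∈ A ∧ S.T y t ∈ A ∧ S.T z t ∈ A} from fun h => a1 h.1)]
        ring
    unfold bt
    rw [integral_congr_ae h1, integral_indicator hms, setIntegral_const]
    simp

end Pool.Agent.F0f91f8.PC
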