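import Mathlib
import Pool.Agent.Work.MP_0f91f8_co.PC.StmtsC

set_option autoImplicit false

namespace Pool.Agent.F0f91f8.PC

open Filter Topology ComplexConjugate MeasureTheory
open scoped BigOperators

namespace ICBs

theorem quarter (Q : ℝ) (hQ : 0 ≤ Q) : Q ^ (1 / 4 : ℝ) = Real.sqrt (Real.sqrt Q) := by
  rw [Real.sqrt_eq_rpow, Real.sqrt_eq_rpow, ← Real.rpow_mul hQ]
  norm_num

/-- Cauchy-Schwarz with weights -/
theorem cs (T : Finset ℕ) (ω : ℕ → ℝ) (b : ℕ → ℕ → ℝ) (hω : ∀ s ∈ T, 0 ≤ ω s) :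
    ∑ s ∈ T, ∑ s' ∈ T, ω s * ω s' * b s s' ≤
      (∑ s ∈ T, ω s) * Real.sqrt (∑ s ∈ T, ∑ s' ∈ T, ω s * ω s' * b s s' ^ 2) := by
  have hS : 0 ≤ ∑ s ∈ T, ω s := Finset.sum_nonneg hω
  have h1 : (∑ p ∈ T ×ˢ T, (Real.sqrt (ω p.1 * ω p.2)) * (Real.sqrt (ω p.1 * ω p.2) * b p.1 p.2)) ^ 2 ≤
      (∑ p ∈ T ×ˢ T, (Real.sqrt (ω p.1 * ω p.2)) ^ 2) *
        ∑ p ∈ T ×ˢ T, (Real.sqrt (ω p.1 * ω p.2) * b p.1 p.2) ^ 2 :=
    Finset.sum_mul_sq_le_sq_mul_sq _ _ _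
  have hm : ∀ p ∈ T ×ˢ T, 0 ≤ ω p.1 * ω p.2 := by
    intro p hp
    rw [Finset.mem_product] at hp
    exact mul_nonneg (hω _ hp.1) (hω _ hp.2)
  have e1 : ∑ p ∈ T ×ˢ T, (Real.sqrt (ω p.1 * ω p.2)) * (Real.sqrt (ω p.1 * ω p.2) * b p.1 p.2) =
      ∑ s ∈ T, ∑ s' ∈ T, ω s * ω s' * b s s' := by
    rw [Finset.sum_product' T T (fun x y => ω x * ω y * b x y) |>.symm]
    refine Finset.sum_congr rfl fun p hp => ?_
    rw [← mul_assoc, Real.mul_self_sqrt (hm p hp)]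
  have e2 : ∑ p ∈ T ×ˢ T, (Real.sqrt (ω p.1 * ω p.2)) ^ 2 = (∑ s ∈ T, ω s) ^ 2 := by
    rw [sq (∑ s ∈ T, ω s), Finset.sum_mul_sum, ← Finset.sum_product']
    refine Finset.sum_congr rfl fun p hp => ?_
    rw [Real.sq_sqrt (hm p hp)]
  have e3 : ∑ p ∈ T ×ˢ T, (Real.sqrt (ω p.1 * ω p.2) * b p.1 p.2) ^ 2 =
      ∑ s ∈ T, ∑ s' ∈ T, ω s * ω s' * b s s' ^ 2 := by
    rw [Finset.sum_product' T T (fun x y => ω x * ω y * b x y ^ 2) |>.symm]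
    refine Finset.sum_congr rfl fun p hp => ?_
    rw [mul_pow, Real.sq_sqrt (hm p hp)]
  rw [e1, e2, e3] at h1
  refine (Real.le_sqrt_of_sq_le h1).trans ?_
  rw [Real.sqrt_mul (sq_nonneg _), Real.sqrt_sq hS]

end ICBs

theorem pr_CBs : StCBs := by
  intro H _ _ T ω u F c hω hc hu
  set a : ℕ → ℂ := fun s => inner ℂ F (u s) with ha
  set Q : ℝ := ∑ s ∈ T, ∑ s' ∈ T, ω s * ω s' * ‖inner ℂ (u s) (u s')‖ ^ 2 with hQdef
  have hQ : 0 ≤ Q := Finset.sum_nonneg fun s hs => Finset.sum_nonneg fun s' hs' =>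
    mul_nonneg (mul_nonneg (hω s hs) (hω s' hs')) (sq_nonneg _)
  have hS : 0 ≤ ∑ s ∈ T, ω s := Finset.sum_nonneg hω
  set G : H := ∑ s ∈ T, ((ω s : ℂ) * conj (a s)) • u s with hG
  have hab : ∀ s ∈ T, ‖a s‖ ≤ ‖F‖ * c := fun s hs =>
    (norm_inner_le_norm F (u s)).trans (mul_le_mul_of_nonneg_left (hu s hs) (norm_nonneg _))
  have h1 : (inner ℂ F G : ℂ) = ((∑ s ∈ T, ω s * ‖a s‖ ^ 2 : ℝ) : ℂ) := by
    rw [hG, inner_sum, Complex.ofReal_sum]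
    refine Finset.sum_congr rfl fun s _ => ?_
    rw [inner_smul_right]
    show (ω s : ℂ) * conj (a s) * a s = _
    rw [mul_assoc, mul_comm (conj (a s)) (a s), Complex.mul_conj, Complex.normSq_eq_norm_sq]
    push_cast
    ring
  have hL0 : 0 ≤ ∑ s ∈ T, ω s * ‖a s‖ ^ 2 :=
    Finset.sum_nonneg fun s hs => mul_nonneg (hω s hs) (sq_nonneg _)
  have h2 : ∑ s ∈ T, ω s * ‖a s‖ ^ 2 ≤ ‖F‖ * ‖G‖ := by
    have h := norm_inner_le_norm (𝕜 := ℂ) F G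
    rw [h1, Complex.norm_real, Real.norm_of_nonneg hL0] at h
    exact h
  have h3 : ‖G‖ ^ 2 ≤ (‖F‖ * c) ^ 2 * ((∑ s ∈ T, ω s) * Real.sqrt Q) := by
    have e1 : ‖G‖ ^ 2 = ‖(inner ℂ G G : ℂ)‖ := by
      rw [inner_self_eq_norm_sq_to_K]
      simp
    have e2 : ‖(inner ℂ G G : ℂ)‖ ≤ ∑ s ∈ T, ∑ s' ∈ T,
        ω s * ω s' * ((‖F‖ * c) ^ 2 * ‖(inner ℂ (u s) (u s') : ℂ)‖) := by
      have e3 : (inner ℂ G G : ℂ) = ∑ s ∈ T, ∑ s' ∈ T,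
          (conj ((ω s : ℂ) * conj (a s)) * (((ω s' : ℂ) * conj (a s')) * inner ℂ (u s) (u s'))) := by
        conv_lhs => rw [hG, sum_inner]
        refine Finset.sum_congr rfl fun s _ => ?_
        rw [inner_sum]
        refine Finset.sum_congr rfl fun s' _ => ?_
        rw [inner_smul_left, inner_smul_right]
      rw [e3]
      refine (norm_sum_le _ _).trans (Finset.sum_le_sum fun s hs => ?_)
      refine (norm_sum_le _ _).trans (Finset.sum_le_sum fun s' hs' => ?_)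
      rw [norm_mul, norm_mul, Complex.norm_conj, norm_mul, norm_mul, Complex.norm_conj,
        Complex.norm_conj, Complex.norm_real, Complex.norm_real, Real.norm_of_nonneg (hω s hs),
        Real.norm_of_nonneg (hω s' hs')]
      have h4 : ‖a s‖ * ‖a s'‖ ≤ (‖F‖ * c) ^ 2 := by
        rw [sq]
        exact mul_le_mul (hab s hs) (hab s' hs') (norm_nonneg _)
          (mul_nonneg (norm_nonneg _) hc)
      have h5 : 0 ≤ ω s * ω s' * ‖(inner ℂ (u s) (u s') : ℂ)‖ :=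
        mul_nonneg (mul_nonneg (hω s hs) (hω s' hs')) (norm_nonneg _)
      nlinarith [mul_le_mul_of_nonneg_left h4 h5]
    have e4 : ∑ s ∈ T, ∑ s' ∈ T, ω s * ω s' * ((‖F‖ * c) ^ 2 * ‖(inner ℂ (u s) (u s') : ℂ)‖) =
        (‖F‖ * c) ^ 2 * ∑ s ∈ T, ∑ s' ∈ T, ω s * ω s' * ‖(inner ℂ (u s) (u s') : ℂ)‖ := by
      rw [Finset.mul_sum]
      refine Finset.sum_congr rfl fun s _ => ?_
      rw [Finset.mul_sum]
      refine Finset.sum_congr rfl fun s' _ => ?_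
      ring
    rw [e1]
    refine e2.trans ?_
    rw [e4]
    exact mul_le_mul_of_nonneg_left (ICBs.cs T ω (fun s s' => ‖(inner ℂ (u s) (u s') : ℂ)‖) hω)
      (sq_nonneg _)
  have h6 : ‖G‖ ≤ ‖F‖ * c * Real.sqrt (∑ s ∈ T, ω s) * Real.sqrt (Real.sqrt Q) := by
    have h7 : ‖G‖ ^ 2 ≤ (‖F‖ * c * Real.sqrt (∑ s ∈ T, ω s) * Real.sqrt (Real.sqrt Q)) ^ 2 := by
      refine h3.trans (le_of_eq ?_)
      have k1 : Real.sqrt (∑ s ∈ T, ω s) ^ 2 = ∑ s ∈ T, ω s := Real.sq_sqrt hS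
      have k2 : Real.sqrt (Real.sqrt Q) ^ 2 = Real.sqrt Q := Real.sq_sqrt (Real.sqrt_nonneg _)
      calc (‖F‖ * c) ^ 2 * ((∑ s ∈ T, ω s) * Real.sqrt Q)
          = (‖F‖ * c) ^ 2 * (Real.sqrt (∑ s ∈ T, ω s) ^ 2 * Real.sqrt (Real.sqrt Q) ^ 2) := by
            rw [k1, k2]
        _ = (‖F‖ * c * Real.sqrt (∑ s ∈ T, ω s) * Real.sqrt (Real.sqrt Q)) ^ 2 := by ring
    exact le_of_sq_le_sq h7 (mul_nonneg (mul_nonneg (mul_nonneg (norm_nonneg _) hc)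
      (Real.sqrt_nonneg _)) (Real.sqrt_nonneg _))
  show ∑ s ∈ T, ω s * ‖a s‖ ^ 2 ≤ ‖F‖ ^ 2 * c * Real.sqrt (∑ s ∈ T, ω s) * Q ^ (1 / 4 : ℝ)
  rw [ICBs.quarter Q hQ]
  calc ∑ s ∈ T, ω s * ‖a s‖ ^ 2 ≤ ‖F‖ * ‖G‖ := h2
    _ ≤ ‖F‖ * (‖F‖ * c * Real.sqrt (∑ s ∈ T, ω s) * Real.sqrt (Real.sqrt Q)) :=
      mul_le_mul_of_nonneg_left h6 (norm_nonneg _)
    _ = ‖F‖ ^ 2 * c * Real.sqrt (∑ s ∈ T, ω s) * Real.sqrt (Real.sqrt Q) := by ring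

end Pool.Agent.F0f91f8.PC
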