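import Mathlib
import Pool.Agent.Work.MP_0f91f8_co.PC.StmtsC

/-!
# Block PC, item CDc: the decomposition of a positive integer into its three parts
-/

set_option autoImplicit false

namespace Pool.Agent.F0f91f8.PC

open Pool.Agent.F0f91f8.HD Pool.Agent.F0f91f8.RC Pool.Agent.F0f91f8.KR Pool.Agent.F0f91f8.FC

namespace ICDc

lemma split3 (K y N : ℕ) (hKy : K ≤ y) (hN : 0 < N) : N = sm K N * sp K y N * rp y N := by
  have h0 : N = ∏ p ∈ N.primeFactors, p ^ N.factorization p := by
    conv_lhs => rw [← Nat.prod_factorization_pow_eq_self hN.ne']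
    rfl
  have h1 := Finset.prod_filter_mul_prod_filter_not N.primeFactors (fun p => p ≤ y)
    (fun p => p ^ N.factorization p)
  have h2 := Finset.prod_filter_mul_prod_filter_not (N.primeFactors.filter (fun p => p ≤ y))
    (fun p => p ≤ K) (fun p => p ^ N.factorization p)
  have e1 : (N.primeFactors.filter (fun p => p ≤ y)).filter (fun p => p ≤ K) =
      N.primeFactors.filter (fun p => p ≤ K) := by
    ext p
    simp only [Finset.mem_filter]
    constructor
    · rintro ⟨⟨h, _⟩, h'⟩
      exact ⟨h, h'⟩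
    · rintro ⟨h, h'⟩
      exact ⟨⟨h, h'.trans hKy⟩, h'⟩
  have e2 : (N.primeFactors.filter (fun p => p ≤ y)).filter (fun p => ¬ p ≤ K) =
      N.primeFactors.filter (fun p => K < p ∧ p ≤ y) := by
    ext p
    simp only [Finset.mem_filter, not_le]
    constructor
    · rintro ⟨⟨h, h'⟩, h''⟩
      exact ⟨h, h'', h'⟩
    · rintro ⟨h, h', h''⟩
      exact ⟨⟨h, h''⟩, h'⟩
  have e3 : N.primeFactors.filter (fun p => ¬ p ≤ y) = N.primeFactors.filter (fun p => y < p) := by
    ext p
    simp only [Finset.mem_filter, not_le]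
  rw [e1, e2] at h2
  rw [e3, ← h2] at h1
  exact h0.trans h1.symm

lemma prodpos (N : ℕ) (P : ℕ → Prop) [DecidablePred P] :
    0 < ∏ p ∈ N.primeFactors.filter P, p ^ N.factorization p := by
  apply Finset.prod_pos
  intro p hp
  exact pow_pos (Nat.prime_of_mem_primeFactors (Finset.mem_filter.1 hp).1).pos _

end ICDc

theorem pr_CDc : StCDc := by
  intro K y N hKy hN
  refine ⟨ICDc.split3 K y N hKy hN, ICDc.prodpos N _, ICDc.prodpos N _, ICDc.prodpos N _,
    ICDc.prodpos N _, ?_⟩
  intro p hp hd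
  rw [sp, Prime.dvd_finsetProd_iff hp.prime] at hd
  obtain ⟨q, hq, hqd⟩ := hd
  rw [Finset.mem_filter] at hq
  have hqp : q.Prime := Nat.prime_of_mem_primeFactors hq.1
  have : p = q := (Nat.prime_dvd_prime_iff_eq hp hqp).1 (hp.dvd_of_dvd_pow hqd)
  rw [this]
  exact hq.2

end Pool.Agent.F0f91f8.PC
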