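import Mathlib
import Pool.Agent.Work.MP_0f91f8_co.PC.StmtsC

/-!
# Block PC, item CDm (helper24): domination
-/

set_option autoImplicit false

namespace Pool.Agent.F0f91f8.PC

open Filter Topology ComplexConjugate MeasureTheory
open Pool.Agent.F0f91f8.HD Pool.Agent.F0f91f8.RC Pool.Agent.F0f91f8.KR Pool.Agent.F0f91f8.FC
open scoped BigOperators

namespace ICDm

theorem adm (K κ : ℕ) (hκ : 0 < κ) (hκp : ∀ p : ℕ, p.Prime → p ∣ κ → p ≤ K) :
    Adm K (K.factorial * κ) :=
  ⟨Nat.mul_pos K.factorial_pos hκ, Dvd.intro _ rfl, fun p hp hd => by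
    rcases (Nat.Prime.dvd_mul hp).1 hd with h | h
    · exact (Nat.Prime.dvd_factorial hp).1 h
    · exact hκp p hp h⟩

end ICDm

theorem pr_CDm (hSB : FC.StSB) (hAd : StCAd) (hRq : StCRq) : DomQ := by
  classical
  obtain ⟨R₀, hR₀, hB⟩ := hSB
  refine ⟨R₀, hR₀, ?_⟩
  intro K κ n y X E₀ R' J q cl Vs hK hKy hκ hκp hn hX hV Ψ hΨ
  set sv : ℕ → Fin 4 → ℕ := fun v j => sp K y (Lf κ n v j) with hsv
  set G : (Fin 4 → Fin (E₀ + 1)) → (Fin 4 → Fin J → Fin (R' + 1)) → (Fin 4 → ℕ) → ℝ :=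
    fun e t s => Ψ s (fun j => (e j : ℕ)) (fun j => Dq q (t j)) with hG
  have hG0 : ∀ e t s, 0 ≤ G e t s := fun e t s => hΨ _ _ _
  have h1 : ∀ v ∈ Vs, Ψ (fun j => sp K y (Lf κ n v j)) (fun j => sm K (Lf κ n v j))
      (fun j => rq y q cl (Lf κ n v j)) ≤
      ∑ e : Fin 4 → Fin (E₀ + 1), ∑ t : Fin 4 → Fin J → Fin (R' + 1),
        ∑ s ∈ SS K y n X, if s = sv v then G e t s else 0 := by
    intro v hv
    obtain ⟨-, -, -, hv4⟩ := hV v hv
    have hAd' := (hAd K κ n y X E₀ R' v hK hKy hκ hκp hn (hV v hv)).1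
    choose t ht using fun j => hRq J y R' q cl (Lf κ n v j) (hv4 j).2.2
    have nn : ∀ e t s, 0 ≤ (if s = sv v then G e t s else 0) := by
      intro e t s
      split_ifs
      · exact hG0 e t s
      · exact le_rfl
    have e1 : Ψ (fun j => sp K y (Lf κ n v j)) (fun j => sm K (Lf κ n v j))
        (fun j => rq y q cl (Lf κ n v j)) =
        G (fun j => ⟨sm K (Lf κ n v j), Nat.lt_succ_of_le (hv4 j).2.1⟩) t (sv v) := by
      have e2 : (fun j => rq y q cl (Lf κ n v j)) = fun j => Dq q (t j) := funext ht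
      rw [e2]
    rw [e1]
    generalize (fun j => (⟨sm K (Lf κ n v j), Nat.lt_succ_of_le (hv4 j).2.1⟩ : Fin (E₀ + 1))) = e
    calc G e t (sv v) = (if sv v = sv v then G e t (sv v) else 0) := by rw [if_pos rfl]
      _ ≤ ∑ s ∈ SS K y n X, (if s = sv v then G e t s else 0) :=
        Finset.single_le_sum (f := fun s => if s = sv v then G e t s else 0)
          (fun s _ => nn e t s) hAd'
      _ ≤ ∑ t' : Fin 4 → Fin J → Fin (R' + 1), ∑ s ∈ SS K y n X,
          (if s = sv v then G e t' s else 0) :=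
        Finset.single_le_sum (f := fun t' => ∑ s ∈ SS K y n X, if s = sv v then G e t' s else 0)
          (fun t' _ => Finset.sum_nonneg fun s _ => nn e t' s) (Finset.mem_univ t)
      _ ≤ ∑ e' : Fin 4 → Fin (E₀ + 1), ∑ t' : Fin 4 → Fin J → Fin (R' + 1), ∑ s ∈ SS K y n X,
          (if s = sv v then G e' t' s else 0) :=
        Finset.single_le_sum (f := fun e' => ∑ t' : Fin 4 → Fin J → Fin (R' + 1),
            ∑ s ∈ SS K y n X, if s = sv v then G e' t' s else 0)
          (fun e' _ => Finset.sum_nonneg fun t' _ => Finset.sum_nonneg fun s _ => nn e' t' s)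
          (Finset.mem_univ e)
  refine (Finset.sum_le_sum h1).trans ?_
  rw [Finset.sum_comm, Finset.mul_sum]
  refine Finset.sum_le_sum fun e _ => ?_
  rw [Finset.sum_comm, Finset.mul_sum]
  refine Finset.sum_le_sum fun t _ => ?_
  rw [Finset.sum_comm, Finset.mul_sum]
  refine Finset.sum_le_sum fun s hs => ?_
  rw [← Finset.sum_filter, Finset.sum_const, nsmul_eq_mul]
  have hcard : ((Vs.filter fun v => s = sv v).card : ℝ) ≤ 6 * X * Wt K y n s := by
    have hs' : AdmS K y n s ∧ (∏ j, s j) ^ 4 ≤ X := by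
      unfold SS at hs
      exact (Finset.mem_filter.1 hs).2
    refine le_trans ?_ (hB K y (K.factorial * κ) n 0 X s hK (ICDm.adm K κ hκ hκp) hn (by omega) hX
      hs'.1 hs'.2)
    have hsub : (Vs.filter fun v => s = sv v) ⊆ Ns K y (K.factorial * κ) n 0 X s := by
      intro v hv
      obtain ⟨hv1, hv2⟩ := Finset.mem_filter.1 hv
      have h2 := (hAd K κ n y X E₀ R' v hK hKy hκ hκp hn (hV v hv1)).2
      rw [hv2]
      exact h2
    exact_mod_cast Finset.card_le_card hsub
  calc ((Vs.filter fun v => s = sv v).card : ℝ) * G e t s ≤ 6 * X * Wt K y n s * G e t s :=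
        mul_le_mul_of_nonneg_right hcard (hG0 e t s)
    _ = 6 * X * (Wt K y n s * G e t s) := by ring

end Pool.Agent.F0f91f8.PC
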