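import Mathlib
import Pool.Agent.Work.MP_0f91f8_co.PC.StmtsC

/-!
# Block PC, module CT, item CFi: the continuous part disappears
-/

set_option autoImplicit false

namespace Pool.Agent.F0f91f8.PC

open Filter Topology ComplexConjugate MeasureTheory
open Pool.Agent.F0f91f8.HD Pool.Agent.F0f91f8.RC Pool.Agent.F0f91f8.KR Pool.Agent.F0f91f8.FC
open Pool.Agent.Work.MP_0f91f8_co.EF (GG ev)
open scoped BigOperators

namespace ICFi

/-- the average over the family is bounded by the maximum of the averages for fixed `e`, `e'` -/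
lemma avg (w K M : ℕ) (hK : 0 < K) (Φ : ℕ → ℕ → ℕ → ℂ) (ε : ℝ)
    (h : ∀ (e : Fin (w + 1) → Fin K) (e' : Fin (K + 1) → Fin K),
      ‖BFK 1 w K M fun a n => Φ (tX (kR 1 w K e) (kK 1 w K e') a n)
        (tY (kR 1 w K e) (kK 1 w K e') a n) (tZ (kR 1 w K e) (kK 1 w K e') a n)‖ ≤ ε) :
    ‖AvK 1 w K M Φ‖ ≤ ε := by
  unfold AvK
  rw [norm_div]
  have hKp : (0 : ℝ) < K := by exact_mod_cast hK
  have hden : ‖((K : ℂ) ^ (w + 1) * (K : ℂ) ^ (K + 1))‖ = (K : ℝ) ^ (w + 1) * (K : ℝ) ^ (K + 1) := by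
    rw [norm_mul, norm_pow, norm_pow, Complex.norm_natCast]
  rw [hden, div_le_iff₀ (by positivity)]
  refine (norm_sum_le _ _).trans ?_
  refine (Finset.sum_le_sum fun e _ => (norm_sum_le _ _).trans
    (Finset.sum_le_sum fun e' _ => h e e')).trans ?_
  rw [Finset.sum_const, Finset.sum_const, Finset.card_univ, Finset.card_univ, Fintype.card_fun,
    Fintype.card_fun, Fintype.card_fin, Fintype.card_fin, Fintype.card_fin]
  simp only [nsmul_eq_mul, Nat.cast_pow]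
  apply le_of_eq
  ring

/-- the Gram matrix of one of the two sets is small -/
lemma gram (hGm : GamS) (σ : Measure GG) (hσ : IsFiniteMeasure σ) (E E' : Set GG)
    (h : Cn σ E ∨ Cn σ E') (K : ℕ) (hK : 10 ≤ K) (γ : ℝ) (hγ : 0 < γ) :
    ∃ y₀ : ℕ, ∀ y ≥ y₀,
      ((∀ T : Finset ℕ, (∀ s ∈ T, Sy K y s) → ∑ s ∈ T, ∑ s' ∈ T, w1 K y s * w1 K y s' *
          ‖∫ g in E, ev g s' * conj (ev g s) ∂σ‖ ^ 2 ≤ γ) ∨
        (∀ T : Finset ℕ, (∀ s ∈ T, Sy K y s) → ∑ s ∈ T, ∑ s' ∈ T, w1 K y s * w1 K y s' *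
          ‖∫ g in E', ev g s' * conj (ev g s) ∂σ‖ ^ 2 ≤ γ)) := by
  rcases h with h | h
  · obtain ⟨y₀, hy⟩ := hGm σ hσ E h K hK γ hγ
    exact ⟨y₀, fun y hy' => Or.inl (hy y hy')⟩
  · obtain ⟨y₀, hy⟩ := hGm σ hσ E' h K hK γ hγ
    exact ⟨y₀, fun y hy' => Or.inr (hy y hy')⟩

/-- the choice of `γ` -/
lemma gam (c ε : ℝ) (hc : 0 ≤ c) (hε : 0 < ε) :
    ∃ γ : ℝ, 0 < γ ∧ ∀ c' : ℝ, c' ≤ c → Real.sqrt (c' * γ ^ (1 / 4 : ℝ)) ≤ ε := by
  refine ⟨(ε ^ 2 / (c + 1)) ^ (4 : ℕ), by positivity, fun c' hc' => ?_⟩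
  have h1 : ((ε ^ 2 / (c + 1)) ^ (4 : ℕ)) ^ (1 / 4 : ℝ) = ε ^ 2 / (c + 1) := by
    rw [← Real.rpow_natCast, ← Real.rpow_mul (by positivity)]
    norm_num
  rw [h1]
  refine Real.sqrt_le_iff.2 ⟨hε.le, ?_⟩
  have h2 : c' * (ε ^ 2 / (c + 1)) ≤ c * (ε ^ 2 / (c + 1)) :=
    mul_le_mul_of_nonneg_right hc' (by positivity)
  refine h2.trans ?_
  rw [mul_div_assoc', div_le_iff₀ (by positivity)]
  nlinarith [sq_nonneg ε]

end ICFi

theorem pr_CFi (hT : StCT) (_hV : StCV) (hAv : StCAv) (hG : GoodS) (hGm : GamS) : ContS := by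
  obtain ⟨R₀, hR₀, hAv⟩ := hAv
  obtain ⟨C, hC, hG⟩ := hG
  intro X mX μ hμ S A hA hL σ hσ V E E' F F' hE hE' hF hF' hEE hFF ε hε
  have hε8 : 0 < ε / 8 := by positivity
  have hw1 : ∀ᶠ w : ℕ in atTop, C / (w : ℝ) ≤ ε / 8 := by
    have h0 : Tendsto (fun w : ℕ => C / (w : ℝ)) atTop (𝓝 0) := tendsto_const_div_atTop_nhds_zero_nat C
    exact (h0.eventually (gt_mem_nhds hε8)).mono fun w hw => le_of_lt hw
  filter_upwards [hw1, eventually_ge_atTop 10] with w hwC hw10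
  filter_upwards [eventually_ge_atTop w] with K hwK
  have hK10 : 10 ≤ K := hw10.trans hwK
  obtain ⟨R₁, hG⟩ := hG w K hw10 hwK (ε / 8) hε8
  set R := max R₁ (8 * R₀ + 1) with hR
  have hRR₀ : 8 * R₀ + 1 ≤ R := le_max_right _ _
  have hR0 : 0 < R := by omega
  obtain ⟨E₀, δG, hδG, Y₁, hG⟩ := hG R (le_max_left _ _)
  obtain ⟨B₁, hB₁, hT₁⟩ := hT X mX μ hμ S A hA (V.V (b1 σ E')) (ε / 8) hε8
  obtain ⟨B₂, hB₂, hT₂⟩ := hT X mX μ hμ S A hA (V.V (b1 σ F')) (ε / 8) hε8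
  set B := max B₁ B₂ with hB
  have hB0 : 0 ≤ B := hB₁.trans (le_max_left _ _)
  have hRpos : (0 : ℝ) < ((3 * R : ℕ) : ℝ) := by
    have : 0 < 3 * R := by omega
    exact_mod_cast this
  set δ' : ℝ := (ε / 8 / ((B + 3) * ((3 * R : ℕ) : ℝ))) ^ 2 with hδ'
  have hδ'0 : 0 < δ' := by positivity
  set δ := min δG δ' with hδ
  have hδ0 : 0 < δ := lt_min hδG hδ'0
  have hδs : (B + 3) * ((3 * R : ℕ) : ℝ) * Real.sqrt δ ≤ ε / 8 := by
    have h1 : Real.sqrt δ ≤ ε / 8 / ((B + 3) * ((3 * R : ℕ) : ℝ)) := by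
      refine (Real.sqrt_le_sqrt (min_le_right _ _)).trans ?_
      rw [hδ', Real.sqrt_sq (by positivity)]
    have h2 : 0 < (B + 3) * ((3 * R : ℕ) : ℝ) := by positivity
    calc (B + 3) * ((3 * R : ℕ) : ℝ) * Real.sqrt δ
        ≤ (B + 3) * ((3 * R : ℕ) : ℝ) * (ε / 8 / ((B + 3) * ((3 * R : ℕ) : ℝ))) :=
          mul_le_mul_of_nonneg_left h1 h2.le
      _ = ε / 8 := by field_simp
  obtain ⟨J, hL⟩ := hL (3 * R) δ hδ0
  -- the choice of `γ`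
  set N : ℕ := ∑ e' : Fin (K + 1) → Fin K, kK 1 w K e' with hN
  obtain ⟨γ, hγ, hγs⟩ := ICFi.gam (2000 * ((N * w.factorial : ℕ) : ℝ) * ((E₀ + 1 : ℕ) : ℝ) ^ 4 *
      ((3 * R + 1 : ℕ) : ℝ) ^ (4 * J)) (ε / 8) (by positivity) hε8
  obtain ⟨y₁, hy₁⟩ := ICFi.gram hGm σ hσ E E' hEE K hK10 γ hγ
  obtain ⟨y₂, hy₂⟩ := ICFi.gram hGm σ hσ F F' hFF K hK10 γ hγ
  rw [Filter.frequently_atTop]
  intro M₀
  obtain ⟨Y, hY, q, cl, hq, hcl, hsum⟩ := hL (M₀ + y₁ + y₂ + Y₁ + K + 1)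
  have hYM : Y ≤ Y ^ R := Nat.le_self_pow hR0.ne' Y
  have hY1 : 1 ≤ Y := by omega
  have key : ∀ P P' : Set GG, MeasurableSet P → MeasurableSet P' →
      (∀ z z' y : ℕ, 0 < z → 0 < z' → 0 < y → ∀ H : Lp ℂ 2 μ, ‖H‖ ≤ 1 →
        ‖bt S A z H (U S y (V.V (b1 σ P'))) - bt S A z' H (U S y (V.V (b1 σ P')))‖ ≤
          B * Real.sqrt (dd S A z z') + ε / 8) →
      ((∀ T : Finset ℕ, (∀ s ∈ T, Sy K Y s) → ∑ s ∈ T, ∑ s' ∈ T, w1 K Y s * w1 K Y s' *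
          ‖∫ g in P, ev g s' * conj (ev g s) ∂σ‖ ^ 2 ≤ γ) ∨
        (∀ T : Finset ℕ, (∀ s ∈ T, Sy K Y s) → ∑ s ∈ T, ∑ s' ∈ T, w1 K Y s * w1 K Y s' *
          ‖∫ g in P', ev g s' * conj (ev g s) ∂σ‖ ^ 2 ≤ γ)) →
      ‖AvK 1 w K (Y ^ R) fun x y z =>
        bt S A z (U S x (V.V (b1 σ P))) (U S y (V.V (b1 σ P')))‖ ≤ ε := by
    intro P P' hP hP' hTP hgr
    refine ICFi.avg w K (Y ^ R) (by omega) _ ε fun e e' => ?_
    have h1 := hAv X mX μ hμ S A hA σ hσ V P P' hP hP' B (ε / 8) hB0 hε8.le hTP w K Y E₀ (3 * R) J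
      (Y ^ R) q cl δ γ hw10 hwK (by omega) (by positivity) hδ0.le hγ.le hq hcl hgr e e'
      (Nat.pow_le_pow_right hY1 (by omega))
    have h2 := hG Y (by omega) (fun p => cl p = none) ((le_of_eq (Finset.sum_congr
      (Finset.ext fun p => by simp only [Finset.mem_filter]) fun _ _ => rfl)).trans
      (hsum.trans (min_le_left _ _))) e e'
    have h3 : Real.sqrt (2000 * ((kK 1 w K e' * w.factorial : ℕ) : ℝ) * ((E₀ + 1 : ℕ) : ℝ) ^ 4 *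
        ((3 * R + 1 : ℕ) : ℝ) ^ (4 * J) * γ ^ (1 / 4 : ℝ)) ≤ ε / 8 := by
      refine hγs _ ?_
      have h4 : kK 1 w K e' ≤ N := Finset.single_le_sum (f := fun e' => kK 1 w K e')
        (fun _ _ => Nat.zero_le _) (Finset.mem_univ e')
      have h5 : ((kK 1 w K e' * w.factorial : ℕ) : ℝ) ≤ ((N * w.factorial : ℕ) : ℝ) := by
        exact_mod_cast Nat.mul_le_mul_right _ h4
      gcongr
    linarith
  refine ⟨Y ^ R, by omega, key E E' hE hE' ?_ (hy₁ Y (by omega)),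
    key F F' hF hF' ?_ (hy₂ Y (by omega))⟩
  · intro z z' y hz hz' hy H hH
    refine (hT₁ z z' y hz hz' hy H hH).trans ?_
    have := mul_le_mul_of_nonneg_right (le_max_left B₁ B₂) (Real.sqrt_nonneg (dd S A z z'))
    linarith
  · intro z z' y hz hz' hy H hH
    refine (hT₂ z z' y hz hz' hy H hH).trans ?_
    have := mul_le_mul_of_nonneg_right (le_max_right B₁ B₂) (Real.sqrt_nonneg (dd S A z z'))
    linarith

end Pool.Agent.F0f91f8.PC
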