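import Mathlib
import Pool.Agent.Work.MP_0f91f8_co.PC.StmtsC

/-!
# Block PC, item CFn: fixed `n`
-/

set_option autoImplicit false

namespace Pool.Agent.F0f91f8.PC

open Filter Topology ComplexConjugate MeasureTheory
open Pool.Agent.F0f91f8.HD Pool.Agent.F0f91f8.RC Pool.Agent.F0f91f8.KR Pool.Agent.F0f91f8.FC
open Pool.Agent.Work.MP_0f91f8_co.EF (GG ev)
open scoped BigOperators

namespace ICFn

theorem Ps_nonneg {X : Type} [MeasurableSpace X] {μ : Measure X} (S : Sys μ) (A : Set X)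
    (κ n : ℕ) (h g : Lp ℂ 2 μ) (s e D : Fin 4 → ℕ) : 0 ≤ Ps S A κ n h g s e D := by
  unfold Ps
  split_ifs
  · positivity
  · exact le_rfl

theorem hn_nonneg (K y n : ℕ) (hK : 10 ≤ K) : 0 ≤ hn K y n := by
  unfold hn
  refine Finset.prod_nonneg fun p hp => ?_
  have h1 : K < p := (Finset.mem_filter.1 hp).2.1
  have h2 : (11 : ℝ) ≤ p := by
    have : 11 ≤ p := by omega
    exact_mod_cast this
  have h3 : (0 : ℝ) < p := by linarith
  rw [inv_nonneg, sub_nonneg, div_le_one h3]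
  linarith

/-- one row -/
theorem row (P : ℕ → Prop) [DecidablePred P] (F : ℕ → ℝ) (hF : ∀ v, 0 ≤ F v) (k Q X N v : ℕ)
    (hk : 0 < k) (hQ : 0 < Q) (hP : ∀ v, P v → 1 ≤ v ∧ v ≤ X) :
    ∑ v' ∈ Finset.Icc 1 N, (if P (k * (Q * (v + v') + 1)) then F (k * (Q * (v + v') + 1)) else 0) ≤
      ∑ u ∈ (Finset.Icc 1 X).filter P, F u := by
  rw [← Finset.sum_filter]
  have hinj : Set.InjOn (fun v' : ℕ => k * (Q * (v + v') + 1))
      ((Finset.Icc 1 N).filter fun v' => P (k * (Q * (v + v') + 1)) : Finset ℕ) := by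
    intro a _ b _ hab
    have h1 := Nat.eq_of_mul_eq_mul_left hk hab
    have h2 := Nat.eq_of_mul_eq_mul_left hQ (Nat.add_right_cancel h1)
    omega
  rw [← Finset.sum_image (f := F) hinj]
  refine Finset.sum_le_sum_of_subset_of_nonneg ?_ (fun u _ _ => hF u)
  intro u hu
  obtain ⟨v', hv', rfl⟩ := Finset.mem_image.1 hu
  have h1 := (Finset.mem_filter.1 hv').2
  exact Finset.mem_filter.2 ⟨Finset.mem_Icc.2 (hP _ h1), h1⟩

theorem sum_const_le {ι : Type} [Fintype ι] (f : ι → ℝ) (c : ℝ) (h : ∀ i, f i ≤ c) :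
    ∑ i, f i ≤ (Fintype.card ι : ℝ) * c := by
  have := Finset.sum_le_card_nsmul Finset.univ f c (fun i _ => h i)
  simpa [nsmul_eq_mul, Finset.card_univ] using this

end ICFn

open ICFn in
theorem pr_CFn (hDm : DomQ) (hFx : StCFx) : StCFn := by
  obtain ⟨R₀, hR₀, hD⟩ := hDm
  refine ⟨R₀, hR₀, ?_⟩
  classical
  intro X _ μ _ S A hA σ _ V E E' hE hE' K y n κ k Q D M E₀ R' J q cl γ hK hKy hn0 hκ hκp hk hQ
    hD0 hM hγ hy hΓ
  obtain ⟨X₁, hX₁⟩ : ∃ X₁, X₁ = 3 * k * Q * D * M := ⟨_, rfl⟩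
  rw [← hX₁] at hy ⊢
  obtain ⟨h, hh⟩ : ∃ h, h = V.V (b1 σ E) := ⟨_, rfl⟩
  obtain ⟨g, hg⟩ : ∃ g, g = V.V (b1 σ E') := ⟨_, rfl⟩
  rw [← hh, ← hg]
  obtain ⟨F, hF⟩ : ∃ F : ℕ → ℝ, F = fun v => Ps S A κ n h g (fun j => sp K y (Lf κ n v j))
    (fun j => sm K (Lf κ n v j)) (fun j => rq y q cl (Lf κ n v j)) := ⟨_, rfl⟩
  have hF0 : ∀ v, 0 ≤ F v := fun v => by
    rw [hF]
    exact Ps_nonneg _ _ _ _ _ _ _ _ _
  obtain ⟨N, hN⟩ : ∃ N, N = D * M := ⟨_, rfl⟩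
  rw [← hN]
  have hN0 : 0 < N := hN ▸ Nat.mul_pos hD0 hM
  have hNR : (0 : ℝ) < N := by exact_mod_cast hN0
  set c : ℝ := 54 * hn K y n * γ ^ (1 / 4 : ℝ) with hc
  obtain ⟨Z, hZ⟩ : ∃ Z : ℝ, Z = ∑ u ∈ (Finset.Icc 1 X₁).filter (fun v => Gv K κ n y X₁ E₀ R' v),
    F u := ⟨_, rfl⟩
  -- domination
  have h1 : Z ≤ 6 * X₁ * ((((E₀ + 1 : ℕ) : ℝ) ^ 4) * ((((R' + 1 : ℕ) : ℝ) ^ (4 * J)) * c)) := by
    have h2 := hD K κ n y X₁ E₀ R' J q cl
      ((Finset.Icc 1 X₁).filter (fun v => Gv K κ n y X₁ E₀ R' v)) hK hKy hκ hκp hn0 hy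
      (fun v hv => (Finset.mem_filter.1 hv).2) (fun s e D => Ps S A κ n h g s e D)
      (fun s e D => Ps_nonneg _ _ _ _ _ _ _ _ _)
    rw [hZ, hF]
    refine h2.trans ?_
    refine mul_le_mul_of_nonneg_left ?_ (by positivity)
    have hcardE : (Fintype.card (Fin 4 → Fin (E₀ + 1)) : ℝ) = ((E₀ + 1 : ℕ) : ℝ) ^ 4 := by
      rw [Fintype.card_fun, Fintype.card_fin, Fintype.card_fin]
      push_cast
      ring
    have hcardR : (Fintype.card (Fin 4 → Fin J → Fin (R' + 1)) : ℝ) =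
        ((R' + 1 : ℕ) : ℝ) ^ (4 * J) := by
      rw [Fintype.card_fun, Fintype.card_fun, Fintype.card_fin, Fintype.card_fin,
        Fintype.card_fin, ← pow_mul, Nat.mul_comm J 4]
      push_cast
      ring
    rw [← hcardE]
    refine sum_const_le _ _ fun e => ?_
    rw [← hcardR]
    refine sum_const_le _ _ fun t => ?_
    rw [hh, hg]
    exact hFx X inferInstance μ inferInstance S A hA σ inferInstance V E E' hE hE' K y n κ X₁
      _ _ γ hK hn0 hκ hγ hΓ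
  -- rows
  have h4 : ∑ v ∈ Finset.Icc 1 N, ∑ v' ∈ Finset.Icc 1 N,
      (if Gv K κ n y X₁ E₀ R' (k * (Q * (v + v') + 1)) then
        F (k * (Q * (v + v') + 1)) else 0) ≤ N * Z := by
    have h5 : ∀ v ∈ Finset.Icc 1 N, ∑ v' ∈ Finset.Icc 1 N,
        (if Gv K κ n y X₁ E₀ R' (k * (Q * (v + v') + 1)) then
          F (k * (Q * (v + v') + 1)) else 0) ≤ Z := fun v _ => by
      rw [hZ]
      exact row (fun v => Gv K κ n y X₁ E₀ R' v) F hF0 k Q X₁ N v hk hQ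
        (fun v hv => ⟨hv.1, hv.2.1⟩)
    have h6 := Finset.sum_le_card_nsmul _ _ _ h5
    simpa [nsmul_eq_mul] using h6
  have h7 : ∑ v ∈ Finset.Icc 1 N, ∑ v' ∈ Finset.Icc 1 N,
      (if Gv K κ n y X₁ E₀ R' (k * (Q * (v + v') + 1)) then
        F (k * (Q * (v + v') + 1)) else 0) ≤
      N * (6 * X₁ * ((((E₀ + 1 : ℕ) : ℝ) ^ 4) * ((((R' + 1 : ℕ) : ℝ) ^ (4 * J)) * c))) :=
    h4.trans (mul_le_mul_of_nonneg_left h1 hNR.le)
  have hX₁N : (X₁ : ℝ) = 3 * (k * Q : ℕ) * N := by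
    rw [hX₁, hN]
    push_cast
    ring
  rw [div_le_iff₀ (by positivity)]
  rw [hF] at h7
  refine h7.trans ?_
  rw [hX₁N, hc]
  have hT : 0 ≤ ((k * Q : ℕ) : ℝ) * (((E₀ + 1 : ℕ) : ℝ) ^ 4) * (((R' + 1 : ℕ) : ℝ) ^ (4 * J)) *
      (hn K y n * γ ^ (1 / 4 : ℝ)) * (N : ℝ) ^ 2 := by
    have := hn_nonneg K y n hK
    have := Real.rpow_nonneg hγ (1 / 4 : ℝ)
    positivity
  nlinarith [hT]

end Pool.Agent.F0f91f8.PC
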