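import Mathlib
import Pool.Agent.Work.MP_0f91f8_co.PC.StmtsC

/-!
# Block PC, item CFx: fixed `e`, `D`, all `s` (helper73)
-/

set_option autoImplicit false

namespace Pool.Agent.F0f91f8.PC

open Filter Topology ComplexConjugate MeasureTheory
open Pool.Agent.F0f91f8.HD Pool.Agent.F0f91f8.RC Pool.Agent.F0f91f8.KR Pool.Agent.F0f91f8.FC
open Pool.Agent.Work.MP_0f91f8_co.EF (GG ev)
open scoped BigOperators

namespace ICFx

lemma inv_nonneg_aux {K p : ℕ} (hK : 10 ≤ K) (hp : K < p) : 0 ≤ (1 - 5 / (p : ℝ))⁻¹ := by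
  apply inv_nonneg.2
  have h1 : (10 : ℝ) ≤ p := by
    have : 10 ≤ p := by omega
    exact_mod_cast this
  have h2 : 5 / (p : ℝ) ≤ 1 := by
    rw [div_le_one (by linarith)]
    linarith
  linarith

lemma w1_nonneg {K y s : ℕ} (hK : 10 ≤ K) (hs : Sy K y s) : 0 ≤ w1 K y s := by
  unfold w1
  refine mul_nonneg (mul_nonneg (by positivity) ?_) ?_
  · refine Finset.prod_nonneg fun p hp => inv_nonneg_aux hK ?_
    exact (hs.2 p (Nat.prime_of_mem_primeFactors hp) (Nat.dvd_of_mem_primeFactors hp)).1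
  · refine Finset.prod_nonneg fun p hp => ?_
    have h1 : (1 : ℝ) ≤ p := by
      have := (Finset.mem_filter.1 hp).2.1.one_lt.le
      exact_mod_cast this
    have h2 : 1 / (p : ℝ) ≤ 1 := by
      rw [div_le_one (by linarith)]
      exact h1
    linarith

lemma w3_nonneg {K y s : ℕ} (hK : 10 ≤ K) (hs : Sy K y s) : 0 ≤ w3 K y s := by
  unfold w3
  refine mul_nonneg (mul_nonneg (by positivity) ?_) ?_
  · refine Finset.prod_nonneg fun p hp => inv_nonneg_aux hK ?_
    exact (hs.2 p (Nat.prime_of_mem_primeFactors hp) (Nat.dvd_of_mem_primeFactors hp)).1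
  · refine Finset.prod_nonneg fun p hp => ?_
    have h1 : (1 : ℝ) ≤ p := by
      have := (Finset.mem_filter.1 hp).2.1.one_lt.le
      exact_mod_cast this
    have h3 : (rho p : ℝ) ≤ p := by
      have : rho p ≤ p := by
        unfold rho
        exact (Finset.card_filter_le _ _).trans (Finset.card_range p).le
      exact_mod_cast this
    have h2 : (rho p : ℝ) / (p : ℝ) ≤ 1 := by
      rw [div_le_one (by linarith)]
      exact h3
    linarith

lemma hn_nonneg {K y n : ℕ} (hK : 10 ≤ K) : 0 ≤ hn K y n := by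
  unfold hn
  exact Finset.prod_nonneg fun p hp => inv_nonneg_aux hK (Finset.mem_filter.1 hp).2.1

/-- four sums, the inner one is bounded -/
lemma four (T : Finset ℕ) (u₀ u₁ u₂ u₃ : ℕ → ℝ) (F : ℕ → ℕ → ℕ → ℕ → ℝ) (c : ℝ) (hc : 0 ≤ c)
    (h1 : ∀ s ∈ T, 0 ≤ u₁ s) (h2 : ∀ s ∈ T, 0 ≤ u₂ s) (h3 : ∀ s ∈ T, 0 ≤ u₃ s)
    (m1 : ∑ s ∈ T, u₁ s ≤ 3) (m2 : ∑ s ∈ T, u₂ s ≤ 3) (m3 : ∑ s ∈ T, u₃ s ≤ 3)
    (hF : ∀ x ∈ T, ∀ y ∈ T, ∀ z ∈ T, ∑ a ∈ T, u₀ a * F a x y z ≤ c) :
    ∑ x ∈ T, ∑ y ∈ T, ∑ z ∈ T, ∑ a ∈ T, u₀ a * u₁ x * u₂ y * u₃ z * F a x y z ≤ 27 * c := by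
  have e1 : ∀ x ∈ T, ∀ y ∈ T, ∑ z ∈ T, ∑ a ∈ T, u₀ a * u₁ x * u₂ y * u₃ z * F a x y z ≤
      u₁ x * u₂ y * (3 * c) := by
    intro x hx y hy
    calc _ = ∑ z ∈ T, u₁ x * u₂ y * (u₃ z * ∑ a ∈ T, u₀ a * F a x y z) := by
          refine Finset.sum_congr rfl fun z _ => ?_
          rw [Finset.mul_sum, Finset.mul_sum]
          exact Finset.sum_congr rfl fun a _ => by ring
      _ ≤ ∑ z ∈ T, u₁ x * u₂ y * (u₃ z * c) :=
          Finset.sum_le_sum fun z hz => mul_le_mul_of_nonneg_left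
            (mul_le_mul_of_nonneg_left (hF x hx y hy z hz) (h3 z hz))
            (mul_nonneg (h1 x hx) (h2 y hy))
      _ = u₁ x * u₂ y * ((∑ z ∈ T, u₃ z) * c) := by
          rw [Finset.sum_mul, Finset.mul_sum]
      _ ≤ _ := mul_le_mul_of_nonneg_left (mul_le_mul_of_nonneg_right m3 hc)
            (mul_nonneg (h1 x hx) (h2 y hy))
  calc _ ≤ ∑ x ∈ T, ∑ y ∈ T, u₁ x * u₂ y * (3 * c) :=
        Finset.sum_le_sum fun x hx => Finset.sum_le_sum fun y hy => e1 x hx y hy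
    _ = (∑ x ∈ T, u₁ x) * (∑ y ∈ T, u₂ y) * (3 * c) := by
        rw [Finset.sum_mul_sum, Finset.sum_mul]
        exact Finset.sum_congr rfl fun x _ => by rw [Finset.sum_mul]
    _ ≤ 3 * 3 * (3 * c) := by
        refine mul_le_mul_of_nonneg_right ?_ (by linarith)
        exact mul_le_mul m1 m2 (Finset.sum_nonneg h2) (by norm_num)
    _ = 27 * c := by ring

end ICFx

open ICFx in
theorem pr_CFx (hU : StCU) (hB : StCB) (hV : StCV) (hWp : WtP) (hMs : MasS) (hSl : SltS) : StCFx := by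
  classical
  intro X _ μ _ S A hA σ _ V E E' hE hE' K y n κ X₁ e D γ hK hn0 hκ hγ hGam
  obtain ⟨hUmul, hUcom, -⟩ := hU X inferInstance μ inferInstance S
  obtain ⟨-, hBsymm, -⟩ := hB X inferInstance μ inferInstance S A hA
  set h := V.V (b1 σ E) with hh
  set g := V.V (b1 σ E') with hg
  have hh1 : ‖h‖ ≤ 1 := (hV X inferInstance μ inferInstance S A hA σ inferInstance V E hE).2.1
  have hg1 : ‖g‖ ≤ 1 := (hV X inferInstance μ inferInstance S A hA σ inferInstance V E' hE').2.1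
  have hhn := hn_nonneg (K := K) (y := y) (n := n) hK
  have hγ4 : 0 ≤ γ ^ (1 / 4 : ℝ) := Real.rpow_nonneg hγ _
  have hPs0 : ∀ s, 0 ≤ Ps S A κ n h g s e D := by
    intro s
    unfold Ps
    split_ifs
    · positivity
    · exact le_rfl
  by_cases hpos : ∀ j, 0 < e j ∧ 0 < D j
  swap
  · have e0 : ∑ s ∈ SS K y n X₁, Wt K y n s * Ps S A κ n h g s e D = 0 := by
      refine Finset.sum_eq_zero fun s _ => ?_
      unfold Ps
      rw [if_neg, mul_zero]
      intro h1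
      exact hpos fun j => (h1 j).2
    rw [e0]
    positivity
  set T : Finset ℕ := (Finset.range (X₁ + 1)).filter fun s => Sy K y s with hT
  have hTS : ∀ s ∈ T, Sy K y s := fun s hs => (Finset.mem_filter.1 hs).2
  have hw1 : ∀ s ∈ T, 0 ≤ w1 K y s := fun s hs => w1_nonneg hK (hTS s hs)
  have hw3 : ∀ s ∈ T, 0 ≤ w3 K y s := fun s hs => w3_nonneg hK (hTS s hs)
  obtain ⟨hm1, hm3⟩ := hMs K y T hK hTS
  set F : ℕ → ℕ → ℕ → ℕ → ℝ := fun a b c d => Ps S A κ n h g ![a, b, c, d] e D with hF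
  -- from the sum over `SS` to the sum over `T ^ 4`
  have hS1 : ∀ s ∈ SS K y n X₁, AdmS K y n s ∧ ∀ j, s j ∈ T := by
    intro s hs
    obtain ⟨h1, h2, -⟩ := Finset.mem_filter.1 hs
    refine ⟨h2, fun j => Finset.mem_filter.2 ⟨Fintype.mem_piFinset.1 h1 j, h2.1 j, ?_⟩⟩
    intro p hp hps
    exact h2.2.2.1 j p hp hps
  have hS2 : ∑ s ∈ SS K y n X₁, Wt K y n s * Ps S A κ n h g s e D ≤
      hn K y n * ∑ t ∈ T ×ˢ (T ×ˢ (T ×ˢ T)),
        w1 K y t.1 * w1 K y t.2.1 * w1 K y t.2.2.1 * w3 K y t.2.2.2 * F t.1 t.2.1 t.2.2.1 t.2.2.2 := by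
    have e1 : ∀ s ∈ SS K y n X₁, Wt K y n s * Ps S A κ n h g s e D ≤
        hn K y n * (w1 K y (s 0) * w1 K y (s 1) * w1 K y (s 2) * w3 K y (s 3) *
          F (s 0) (s 1) (s 2) (s 3)) := by
      intro s hs
      have e2 : F (s 0) (s 1) (s 2) (s 3) = Ps S A κ n h g s e D := by
        simp only [hF]
        congr 1
        funext j
        fin_cases j <;> rfl
      rw [e2]
      have e3 := mul_le_mul_of_nonneg_right (hWp K y n s hK hn0 (hS1 s hs).1) (hPs0 s)
      linarith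
    refine (Finset.sum_le_sum e1).trans ?_
    rw [← Finset.mul_sum]
    refine mul_le_mul_of_nonneg_left ?_ hhn
    have hinj : Set.InjOn (fun s : Fin 4 → ℕ => (s 0, s 1, s 2, s 3)) (SS K y n X₁) := by
      intro s _ s' _ hss
      simp only [Prod.mk.injEq] at hss
      obtain ⟨h0, h1, h2, h3⟩ := hss
      funext j
      fin_cases j
      · exact h0
      · exact h1
      · exact h2
      · exact h3
    rw [← Finset.sum_image (s := SS K y n X₁)
      (g := fun s : Fin 4 → ℕ => (s 0, s 1, s 2, s 3))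
      (f := fun t : ℕ × ℕ × ℕ × ℕ => w1 K y t.1 * w1 K y t.2.1 * w1 K y t.2.2.1 *
        w3 K y t.2.2.2 * F t.1 t.2.1 t.2.2.1 t.2.2.2) hinj]
    refine Finset.sum_le_sum_of_subset_of_nonneg ?_ ?_
    · intro t ht
      obtain ⟨s, hs, rfl⟩ := Finset.mem_image.1 ht
      have h1 := (hS1 s hs).2
      simp only [Finset.mem_product]
      exact ⟨h1 0, h1 1, h1 2, h1 3⟩
    · intro t ht _
      simp only [Finset.mem_product] at ht
      obtain ⟨h1, h2, h3, h4⟩ := ht
      exact mul_nonneg (mul_nonneg (mul_nonneg (mul_nonneg (hw1 _ h1) (hw1 _ h2)) (hw1 _ h3))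
        (hw3 _ h4)) (hPs0 _)
  refine hS2.trans ?_
  have hFval : ∀ a ∈ T, ∀ b ∈ T, ∀ c ∈ T, ∀ d ∈ T, F a b c d =
      ‖bt S A (e 3 * d * D 3) (U S (2 * κ * n * (e 1 * b * D 1)) h)
        (U S (e 0 * a * D 0 * (e 2 * c * D 2)) g)‖ ^ 2 := by
    intro a ha b hb c hc d hd
    simp only [hF]
    unfold Ps
    rw [if_pos]
    · rfl
    · intro j
      fin_cases j
      · exact ⟨(hTS a ha).1, hpos 0⟩
      · exact ⟨(hTS b hb).1, hpos 1⟩
      · exact ⟨(hTS c hc).1, hpos 2⟩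
      · exact ⟨(hTS d hd).1, hpos 3⟩
  have hfin : ∑ t ∈ T ×ˢ (T ×ˢ (T ×ˢ T)),
      w1 K y t.1 * w1 K y t.2.1 * w1 K y t.2.2.1 * w3 K y t.2.2.2 * F t.1 t.2.1 t.2.2.1 t.2.2.2 ≤
      27 * (2 * γ ^ (1 / 4 : ℝ)) := by
    rw [Finset.sum_product]
    simp only [Finset.sum_product]
    have hΓ : ∀ E₀ : Set GG, (∀ T : Finset ℕ, (∀ s ∈ T, Sy K y s) →
        ∑ s ∈ T, ∑ s' ∈ T, w1 K y s * w1 K y s' *
          ‖∫ g in E₀, ev g s' * conj (ev g s) ∂σ‖ ^ 2 ≤ γ) →
        2 * (∑ s ∈ T, ∑ s' ∈ T, w1 K y s * w1 K y s' *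
          ‖∫ g in E₀, ev g s' * conj (ev g s) ∂σ‖ ^ 2) ^ (1 / 4 : ℝ) ≤ 2 * γ ^ (1 / 4 : ℝ) := by
      intro E₀ h0
      refine mul_le_mul_of_nonneg_left (Real.rpow_le_rpow ?_ (h0 T hTS) (by norm_num)) (by norm_num)
      exact Finset.sum_nonneg fun s hs => Finset.sum_nonneg fun s' hs' =>
        mul_nonneg (mul_nonneg (hw1 s hs) (hw1 s' hs')) (by positivity)
    rcases hGam with hG | hG
    · -- `E` has a small Gram matrix: slot `b`
      have key : ∀ a ∈ T, ∀ c ∈ T, ∀ d ∈ T,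
          ∑ b ∈ T, w1 K y b * (fun b a c d => F a b c d) b a c d ≤ 2 * γ ^ (1 / 4 : ℝ) := by
        intro a ha c hc d hd
        have hz : 0 < e 3 * d * D 3 :=
          Nat.mul_pos (Nat.mul_pos (hpos 3).1 (hTS d hd).1) (hpos 3).2
        have hc' : 0 < 2 * κ * n * (e 1 * D 1) := by
          have := (hpos 1).1
          have := (hpos 1).2
          positivity
        have hH : ‖U S (e 0 * a * D 0 * (e 2 * c * D 2)) g‖ ≤ 1 := by
          rw [LinearIsometry.norm_map]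
          exact hg1
        have h1 := hSl X inferInstance μ inferInstance S A hA σ inferInstance V E hE K y T hK hTS
          (e 3 * d * D 3) (2 * κ * n * (e 1 * D 1)) (U S (e 0 * a * D 0 * (e 2 * c * D 2)) g)
          hz hc' hH
        refine le_trans (le_of_eq ?_) (h1.trans (hΓ E hG))
        refine Finset.sum_congr rfl fun b hb => ?_
        have e1 : b * (2 * κ * n * (e 1 * D 1)) = 2 * κ * n * (e 1 * b * D 1) := by ring
        show w1 K y b * F a b c d = _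
        rw [hFval a ha b hb c hc d hd, hBsymm, e1]
      have h4 := four T (w1 K y) (w1 K y) (w1 K y) (w3 K y) (fun b a c d => F a b c d)
        (2 * γ ^ (1 / 4 : ℝ)) (by positivity) hw1 hw1 hw3 hm1 hm1 hm3 key
      refine le_trans (le_of_eq ?_) h4
      refine Finset.sum_congr rfl fun a _ => ?_
      rw [Finset.sum_comm]
      refine Finset.sum_congr rfl fun c _ => ?_
      rw [Finset.sum_comm]
      refine Finset.sum_congr rfl fun d _ => ?_
      exact Finset.sum_congr rfl fun b _ => by ring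
    · -- `E'` has a small Gram matrix: slot `a`
      have key : ∀ b ∈ T, ∀ c ∈ T, ∀ d ∈ T,
          ∑ a ∈ T, w1 K y a * F a b c d ≤ 2 * γ ^ (1 / 4 : ℝ) := by
        intro b hb c hc d hd
        have hz : 0 < e 3 * d * D 3 :=
          Nat.mul_pos (Nat.mul_pos (hpos 3).1 (hTS d hd).1) (hpos 3).2
        have hc' : 0 < e 0 * D 0 * (e 2 * c * D 2) := by
          have := (hpos 0).1
          have := (hpos 0).2
          have := (hpos 2).1
          have := (hpos 2).2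
          have := (hTS c hc).1
          positivity
        have hH : ‖U S (2 * κ * n * (e 1 * b * D 1)) h‖ ≤ 1 := by
          rw [LinearIsometry.norm_map]
          exact hh1
        have h1 := hSl X inferInstance μ inferInstance S A hA σ inferInstance V E' hE' K y T hK hTS
          (e 3 * d * D 3) (e 0 * D 0 * (e 2 * c * D 2)) (U S (2 * κ * n * (e 1 * b * D 1)) h)
          hz hc' hH
        refine le_trans (le_of_eq ?_) (h1.trans (hΓ E' hG))
        refine Finset.sum_congr rfl fun a ha => ?_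
        have e1 : a * (e 0 * D 0 * (e 2 * c * D 2)) = e 0 * a * D 0 * (e 2 * c * D 2) := by ring
        rw [hFval a ha b hb c hc d hd, e1]
      have h4 := four T (w1 K y) (w1 K y) (w1 K y) (w3 K y) F
        (2 * γ ^ (1 / 4 : ℝ)) (by positivity) hw1 hw1 hw3 hm1 hm1 hm3 key
      refine le_trans (le_of_eq ?_) h4
      rw [Finset.sum_comm]
      refine Finset.sum_congr rfl fun b _ => ?_
      rw [Finset.sum_comm]
      refine Finset.sum_congr rfl fun c _ => ?_
      rw [Finset.sum_comm]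
  calc _ ≤ hn K y n * (27 * (2 * γ ^ (1 / 4 : ℝ))) := mul_le_mul_of_nonneg_left hfin hhn
    _ = _ := by ring

end Pool.Agent.F0f91f8.PC
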