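import Mathlib
import Pool.Agent.Work.MP_0f91f8_co.PC.StmtsC
import Pool.Agent.Work.MP_0f91f8_co.EF.Ev

set_option autoImplicit false

namespace Pool.Agent.F0f91f8.PC

open Filter Topology ComplexConjugate MeasureTheory
open Pool.Agent.Work.MP_0f91f8_co.EF (GG ev)
open scoped BigOperators

namespace ICId

lemma ev_meas (s : ℕ) : Measurable fun g : GG => ev g s :=
  (Pool.Agent.Work.MP_0f91f8_co.EF.Ev_pf.2.1 s).measurable

lemma ev_le (g : GG) (n : ℕ) : ‖ev g n‖ ≤ 1 := by
  unfold ev
  split_ifs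
  · simp
  · exact (Circle.norm_coe _).le

lemma int_prod (σ : Measure GG) [IsFiniteMeasure σ] (E : Set GG) (f g : GG → ℂ) :
    ∫ p in E ×ˢ E, f p.1 * g p.2 ∂(σ.prod σ) = (∫ x in E, f x ∂σ) * ∫ x in E, g x ∂σ := by
  rw [← Measure.prod_restrict, integral_prod_mul]

lemma expand (T : Finset ℕ) (ω : ℕ → ℝ) (a b : ℕ → ℂ) :
    ((‖∑ s ∈ T, (ω s : ℂ) * (a s * conj (b s))‖ ^ 2 : ℝ) : ℂ) =
      ∑ s ∈ T, ∑ s' ∈ T, ((ω s * ω s' : ℝ) : ℂ) *
        ((a s * conj (a s')) * (b s' * conj (b s))) := by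
  rw [← Complex.normSq_eq_norm_sq, ← Complex.mul_conj, map_sum, Finset.sum_mul_sum]
  refine Finset.sum_congr rfl fun s _ => Finset.sum_congr rfl fun s' _ => ?_
  simp only [map_mul, Complex.conj_ofReal, Complex.conj_conj, Complex.ofReal_mul]
  ring

lemma integrable_term (σ : Measure GG) [IsFiniteMeasure σ] (E : Set GG) (c : ℂ) (s s' : ℕ) :
    Integrable (fun p : GG × GG => c * ((ev p.1 s * conj (ev p.1 s')) * (ev p.2 s' * conj (ev p.2 s))))
      ((σ.prod σ).restrict (E ×ˢ E)) := by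
  refine Integrable.of_bound (C := ‖c‖) ?_ (Eventually.of_forall fun p => ?_)
  · have h1 : Measurable fun p : GG × GG => ev p.1 s := (ev_meas s).comp measurable_fst
    have h2 : Measurable fun p : GG × GG => ev p.1 s' := (ev_meas s').comp measurable_fst
    have h3 : Measurable fun p : GG × GG => ev p.2 s := (ev_meas s).comp measurable_snd
    have h4 : Measurable fun p : GG × GG => ev p.2 s' := (ev_meas s').comp measurable_snd
    exact ((measurable_const.mul ((h1.mul (Complex.continuous_conj.measurable.comp h2)).mul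
      (h4.mul (Complex.continuous_conj.measurable.comp h3))))).aestronglyMeasurable
  · rw [norm_mul, norm_mul, norm_mul, norm_mul, RCLike.norm_conj, RCLike.norm_conj]
    have e1 := ev_le p.1 s
    have e2 := ev_le p.1 s'
    have e3 := ev_le p.2 s
    have e4 := ev_le p.2 s'
    have : (‖ev p.1 s‖ * ‖ev p.1 s'‖) * (‖ev p.2 s'‖ * ‖ev p.2 s‖) ≤ 1 :=
      mul_le_one₀ (mul_le_one₀ e1 (norm_nonneg _) e2) (by positivity)
        (mul_le_one₀ e4 (norm_nonneg _) e3)
    exact mul_le_of_le_one_right (norm_nonneg _) this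

end ICId

open ICId in
theorem pr_CId : StCId := by
  intro σ hσ E hE T ω
  have := hσ
  apply Complex.ofReal_injective
  have hR : ((∫ p in E ×ˢ E, ‖∑ s ∈ T, (ω s : ℂ) * (ev p.1 s * conj (ev p.2 s))‖ ^ 2
      ∂(σ.prod σ) : ℝ) : ℂ) =
      ∫ p in E ×ˢ E, ∑ s ∈ T, ∑ s' ∈ T, ((ω s * ω s' : ℝ) : ℂ) *
        ((ev p.1 s * conj (ev p.1 s')) * (ev p.2 s' * conj (ev p.2 s))) ∂(σ.prod σ) := by
    rw [← integral_complex_ofReal]
    refine integral_congr_ae (Eventually.of_forall fun p => ?_)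
    exact expand T ω (fun s => ev p.1 s) (fun s => ev p.2 s)
  rw [hR, integral_finsetSum]
  swap
  · intro s _
    exact integrable_finsetSum _ fun s' _ => integrable_term σ E _ s s'
  push_cast
  refine Finset.sum_congr rfl fun s _ => ?_
  rw [integral_finsetSum]
  swap
  · intro s' _
    exact_mod_cast integrable_term σ E (((ω s * ω s' : ℝ)) : ℂ) s s'
  refine Finset.sum_congr rfl fun s' _ => ?_
  rw [integral_const_mul]
  congr 1
  rw [int_prod σ E (fun g => ev g s * conj (ev g s')) (fun g => ev g s' * conj (ev g s))]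
  have hc : ∫ g in E, ev g s * conj (ev g s') ∂σ = conj (∫ g in E, ev g s' * conj (ev g s) ∂σ) := by
    rw [← integral_conj]
    refine integral_congr_ae (Eventually.of_forall fun g => ?_)
    simp [mul_comm]
  rw [hc]
  have := Complex.mul_conj (∫ g in E, ev g s' * conj (ev g s) ∂σ)
  rw [Complex.normSq_eq_norm_sq] at this
  rw [mul_comm, this]
  push_cast
  rfl

end Pool.Agent.F0f91f8.PC
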