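import Mathlib
import Pool.Agent.Work.MP_0f91f8_co.PC.StmtsC

/-!
# Block PC, item CMs: the masses of the weights `w1` and `w3` are at most `3`
-/

set_option autoImplicit false

namespace Pool.Agent.F0f91f8.PC

open Pool.Agent.F0f91f8.HD Pool.Agent.F0f91f8.RC Pool.Agent.F0f91f8.KR Pool.Agent.F0f91f8.FC
open scoped BigOperators

namespace ICMs

/-- the multiplicative weight `∏_{p ∣ s} c p / s` -/
noncomputable def fW (c : ℕ → ℝ) (s : ℕ) : ℝ := (∏ p ∈ s.primeFactors, c p) / (s : ℝ)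

lemma fW_one (c : ℕ → ℝ) : fW c 1 = 1 := by
  simp [fW]

lemma fW_mul (c : ℕ → ℝ) {m n : ℕ} (h : Nat.Coprime m n) : fW c (m * n) = fW c m * fW c n := by
  unfold fW
  rw [h.primeFactors_mul, Finset.prod_union h.disjoint_primeFactors, Nat.cast_mul]
  exact mul_div_mul_comm _ _ _ _

lemma fW_nonneg (c : ℕ → ℝ) (hc : ∀ p, 0 ≤ c p) (s : ℕ) : 0 ≤ fW c s :=
  div_nonneg (Finset.prod_nonneg fun p _ => hc p) (Nat.cast_nonneg s)

lemma fW_pow (c : ℕ → ℝ) {p : ℕ} (hp : p.Prime) (n : ℕ) :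
    fW c (p ^ (n + 1)) = c p * (1 / (p : ℝ)) * (1 / (p : ℝ)) ^ n := by
  unfold fW
  rw [Nat.primeFactors_prime_pow (Nat.succ_ne_zero n) hp, Finset.prod_singleton, Nat.cast_pow, pow_succ,
    one_div, inv_pow, div_eq_mul_inv, mul_inv]
  ring

lemma hasSum_tail (c : ℕ → ℝ) {p : ℕ} (hp : p.Prime) :
    HasSum (fun n : ℕ => fW c (p ^ (n + 1))) (c p / ((p : ℝ) - 1)) := by
  have hp1 : (1 : ℝ) < (p : ℝ) := by exact_mod_cast hp.one_lt
  have h0 : (0 : ℝ) ≤ 1 / (p : ℝ) := by positivity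
  have h1 : 1 / (p : ℝ) < 1 := by
    rw [div_lt_one (by linarith)]
    exact hp1
  have hg := (hasSum_geometric_of_lt_one h0 h1).mul_left (c p * (1 / (p : ℝ)))
  have he : c p * (1 / (p : ℝ)) * (1 - 1 / (p : ℝ))⁻¹ = c p / ((p : ℝ) - 1) := by
    have hpne : (p : ℝ) ≠ 0 := by linarith
    have hp1ne : (p : ℝ) - 1 ≠ 0 := by linarith
    have e1 : 1 - 1 / (p : ℝ) = ((p : ℝ) - 1) / p := by
      rw [sub_div, div_self hpne]
    rw [e1, inv_div]
    field_simp
  rw [he] at hg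
  have hfun : (fun n : ℕ => fW c (p ^ (n + 1))) =
      fun n : ℕ => c p * (1 / (p : ℝ)) * (1 / (p : ℝ)) ^ n := by
    funext n
    exact fW_pow c hp n
  rw [hfun]
  exact hg

lemma hasSum_pow (c : ℕ → ℝ) {p : ℕ} (hp : p.Prime) :
    HasSum (fun n : ℕ => fW c (p ^ n)) (c p / ((p : ℝ) - 1) + 1) := by
  have h := (hasSum_nat_add_iff (f := fun n : ℕ => fW c (p ^ n)) 1).mp (hasSum_tail c hp)
  simpa [fW_one] using h

/-- the sum of the weights over numbers composed of primes of `P` is at most the Euler product -/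
lemma sum_le_prod (c : ℕ → ℝ) (hc : ∀ p, 0 ≤ c p) (P : Finset ℕ) (hP : ∀ p ∈ P, p.Prime) (T : Finset ℕ)
    (hT : ∀ s ∈ T, ∀ p : ℕ, p.Prime → p ∣ s → p ∈ P) :
    ∑ s ∈ T, fW c s ≤ ∏ p ∈ P, (c p / ((p : ℝ) - 1) + 1) := by
  classical
  have hE := (EulerProduct.summable_and_hasSum_factoredNumbers_prod_filter_prime_tsum
    (f := fW c) (fW_one c) (fun h => fW_mul c h)
    (fun {p} hp => by
      have h := (hasSum_pow c hp).summable
      have he : (fun n : ℕ => ‖fW c (p ^ n)‖) = fun n : ℕ => fW c (p ^ n) := by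
        funext n
        rw [Real.norm_eq_abs, abs_of_nonneg (fW_nonneg c hc _)]
      rw [he]
      exact h) P).2
  have hfil : P.filter (fun p => p.Prime) = P := Finset.filter_true_of_mem hP
  rw [hfil] at hE
  have hprod : ∏ p ∈ P, ∑' n : ℕ, fW c (p ^ n) = ∏ p ∈ P, (c p / ((p : ℝ) - 1) + 1) :=
    Finset.prod_congr rfl fun p hp => (hasSum_pow c (hP p hp)).tsum_eq
  rw [hprod] at hE
  have hI : HasSum ((Nat.factoredNumbers P).indicator (fW c))
      (∏ p ∈ P, (c p / ((p : ℝ) - 1) + 1)) := by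
    rw [← hasSum_subtype_iff_indicator]
    exact hE
  have hle := sum_le_hasSum T (fun i _ => Set.indicator_nonneg (fun s _ => fW_nonneg c hc s) i) hI
  refine le_trans (le_of_eq ?_) hle
  refine Finset.sum_congr rfl fun s hs => ?_
  have hmem : s ∈ Nat.factoredNumbers P := Nat.mem_factoredNumbers'.mpr fun p hp hd => hT s hs p hp hd
  rw [Set.indicator_of_mem hmem]

/-- the tail of the squares of the odd numbers -/
lemma odd_tail (n : ℕ) :
    ∑ j ∈ Finset.range n, 1 / ((2 * (j : ℝ) + 11) ^ 2) ≤ 1 / 20 - 1 / (4 * (n : ℝ) + 20) := by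
  induction n with
  | zero => norm_num
  | succ n ih =>
    rw [Finset.sum_range_succ]
    have hn : (0 : ℝ) ≤ (n : ℝ) := Nat.cast_nonneg n
    have key : 1 / ((2 * (n : ℝ) + 11) ^ 2) ≤ 1 / (4 * (n : ℝ) + 20) - 1 / (4 * ((n : ℝ) + 1) + 20) := by
      have h1 : (0 : ℝ) < 4 * (n : ℝ) + 20 := by linarith
      have h2 : (0 : ℝ) < 4 * ((n : ℝ) + 1) + 20 := by linarith
      rw [div_sub_div _ _ (ne_of_gt h1) (ne_of_gt h2), div_le_div_iff₀ (by positivity) (by positivity)]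
      nlinarith
    push_cast
    linarith

/-- the squares of the primes in `(K, y]` -/
lemma prime_sq_sum (K y : ℕ) (hK : 10 ≤ K) : ∑ p ∈ PN K y 1, 1 / ((p : ℝ) ^ 2) ≤ 1 / 20 := by
  classical
  have hsub : PN K y 1 ⊆ (Finset.range (y + 1)).image fun j => 2 * j + 11 := by
    intro p hp
    unfold PN at hp
    rw [Finset.mem_filter, Finset.mem_Icc] at hp
    obtain ⟨⟨-, hpy⟩, hpp, hKp, -⟩ := hp
    have hodd : p % 2 = 1 := by
      rcases hpp.eq_two_or_odd with h | h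
      · omega
      · exact h
    rw [Finset.mem_image]
    refine ⟨(p - 11) / 2, ?_, ?_⟩
    · rw [Finset.mem_range]
      omega
    · omega
  have h1 : ∑ p ∈ PN K y 1, 1 / ((p : ℝ) ^ 2) ≤
      ∑ p ∈ ((Finset.range (y + 1)).image (fun j : ℕ => 2 * j + 11) : Finset ℕ), 1 / ((p : ℝ) ^ 2) :=
    Finset.sum_le_sum_of_subset_of_nonneg hsub fun p _ _ => by positivity
  have h2 : ∑ p ∈ ((Finset.range (y + 1)).image (fun j : ℕ => 2 * j + 11) : Finset ℕ), 1 / ((p : ℝ) ^ 2) =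
      ∑ j ∈ Finset.range (y + 1), 1 / ((2 * (j : ℝ) + 11) ^ 2) := by
    rw [Finset.sum_image]
    · refine Finset.sum_congr rfl fun j _ => ?_
      push_cast
      rfl
    · intro a _ b _ hab
      have hab' : 2 * a + 11 = 2 * b + 11 := hab
      omega
  have h3 := odd_tail (y + 1)
  have h4 : (0 : ℝ) ≤ 1 / (4 * ((y + 1 : ℕ) : ℝ) + 20) := by positivity
  linarith

/-- the general mass bound: if every local factor is at most `1 + 20/p²` the total is at most `3` -/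
lemma mass_le (K y : ℕ) (hK : 10 ≤ K) (c d : ℕ → ℝ) (hc : ∀ p, 0 ≤ c p)
    (hd : ∀ p ∈ PN K y 1, 0 ≤ d p)
    (hcd : ∀ p ∈ PN K y 1, (c p / ((p : ℝ) - 1) + 1) * d p ≤ 1 + 20 * (1 / ((p : ℝ) ^ 2)))
    (T : Finset ℕ) (hT : ∀ s ∈ T, Sy K y s) :
    ∑ s ∈ T, fW c s * ∏ p ∈ PN K y 1, d p ≤ 3 := by
  have hprime : ∀ p ∈ PN K y 1, p.Prime := by
    intro p hp
    unfold PN at hp
    exact (Finset.mem_filter.mp hp).2.1
  have hmem : ∀ s ∈ T, ∀ p : ℕ, p.Prime → p ∣ s → p ∈ PN K y 1 := by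
    intro s hs p hp hps
    obtain ⟨hK', hy'⟩ := (hT s hs).2 p hp hps
    unfold PN
    rw [Finset.mem_filter, Finset.mem_Icc]
    refine ⟨⟨hp.one_lt.le, hy'⟩, hp, hK', ?_⟩
    intro h1
    exact hp.one_lt.ne' (Nat.dvd_one.mp h1)
  have hD : 0 ≤ ∏ p ∈ PN K y 1, d p := Finset.prod_nonneg hd
  rw [← Finset.sum_mul]
  have h1 : (∑ s ∈ T, fW c s) * ∏ p ∈ PN K y 1, d p ≤
      (∏ p ∈ PN K y 1, (c p / ((p : ℝ) - 1) + 1)) * ∏ p ∈ PN K y 1, d p :=
    mul_le_mul_of_nonneg_right (sum_le_prod c hc (PN K y 1) hprime T hmem) hD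
  have h2 : (∏ p ∈ PN K y 1, (c p / ((p : ℝ) - 1) + 1)) * ∏ p ∈ PN K y 1, d p ≤
      ∏ p ∈ PN K y 1, Real.exp (20 * (1 / ((p : ℝ) ^ 2))) := by
    rw [← Finset.prod_mul_distrib]
    refine Finset.prod_le_prod (fun p hp => ?_) (fun p hp => ?_)
    · have hp1 : (1 : ℝ) < (p : ℝ) := by exact_mod_cast (hprime p hp).one_lt
      have h : 0 ≤ c p / ((p : ℝ) - 1) := div_nonneg (hc p) (by linarith)
      exact mul_nonneg (by linarith) (hd p hp)
    · refine (hcd p hp).trans ?_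
      have := Real.add_one_le_exp (20 * (1 / ((p : ℝ) ^ 2)))
      linarith
  have h3 : ∏ p ∈ PN K y 1, Real.exp (20 * (1 / ((p : ℝ) ^ 2))) ≤ Real.exp 1 := by
    rw [← Real.exp_sum, Real.exp_le_exp, ← Finset.mul_sum]
    have := prime_sq_sum K y hK
    linarith
  have h4 : Real.exp 1 ≤ 3 := by
    have := Real.exp_one_lt_d9
    linarith
  linarith

lemma local1 (x : ℝ) (hx : 11 ≤ x) :
    ((1 - 5 / x)⁻¹ / (x - 1) + 1) * (1 - 1 / x) ≤ 1 + 20 * (1 / x ^ 2) := by
  have hx0 : x ≠ 0 := by linarith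
  have hx1 : x - 1 ≠ 0 := by linarith
  have hx5 : x - 5 ≠ 0 := by linarith
  have e1 : (1 - 5 / x)⁻¹ = x / (x - 5) := by
    have : 1 - 5 / x = (x - 5) / x := by field_simp
    rw [this, inv_div]
  have e2 : ((1 - 5 / x)⁻¹ / (x - 1) + 1) * (1 - 1 / x) = 1 + 5 / (x * (x - 5)) := by
    rw [e1]
    field_simp
    ring
  rw [e2]
  have h5 : 5 / (x * (x - 5)) ≤ 20 * (1 / x ^ 2) := by
    rw [mul_one_div, div_le_div_iff₀ (by nlinarith) (by positivity)]
    nlinarith
  linarith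

lemma local2 (x : ℝ) (hx : 11 ≤ x) :
    (2 * (1 - 5 / x)⁻¹ / (x - 1) + 1) * (1 - 2 / x) ≤ 1 + 20 * (1 / x ^ 2) := by
  have hx0 : x ≠ 0 := by linarith
  have hx1 : x - 1 ≠ 0 := by linarith
  have hx5 : x - 5 ≠ 0 := by linarith
  have e1 : (1 - 5 / x)⁻¹ = x / (x - 5) := by
    have : 1 - 5 / x = (x - 5) / x := by field_simp
    rw [this, inv_div]
  have e2 : (2 * (1 - 5 / x)⁻¹ / (x - 1) + 1) * (1 - 2 / x) =
      1 + (8 * x - 10) / (x * (x - 5) * (x - 1)) := by
    rw [e1]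
    field_simp
    ring
  rw [e2]
  have h5 : (8 * x - 10) / (x * (x - 5) * (x - 1)) ≤ 20 * (1 / x ^ 2) := by
    have hpos : 0 < x * (x - 5) * (x - 1) :=
      mul_pos (mul_pos (by linarith) (by linarith)) (by linarith)
    rw [mul_one_div, div_le_div_iff₀ hpos (by positivity)]
    have h10 : 0 ≤ x - 11 := by linarith
    nlinarith [mul_nonneg h10 h10, mul_nonneg (mul_nonneg h10 h10) h10, mul_pos (show (0 : ℝ) < x by linarith) (show (0 : ℝ) < x by linarith)]
  linarith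

end ICMs

open ICMs in
theorem pr_CMs (hRh : FC.StRh) : MasS := by
  intro K y T hK hT
  have hprime : ∀ p ∈ PN K y 1, p.Prime ∧ (11 : ℝ) ≤ (p : ℝ) := by
    intro p hp
    unfold PN at hp
    rw [Finset.mem_filter, Finset.mem_Icc] at hp
    obtain ⟨-, hpp, hKp, -⟩ := hp
    refine ⟨hpp, ?_⟩
    have : 11 ≤ p := by omega
    exact_mod_cast this
  -- the factors are truncated at small primes (there the weights are never used)
  have hcut : ∀ s ∈ T, ∀ p ∈ s.primeFactors, (11 : ℝ) ≤ (p : ℝ) := by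
    intro s hs p hp
    have hpp := Nat.prime_of_mem_primeFactors hp
    have hd := Nat.dvd_of_mem_primeFactors hp
    have h := (hT s hs).2 p hpp hd
    have : 11 ≤ p := by omega
    exact_mod_cast this
  have hpos : ∀ p : ℕ, 0 ≤ max 0 (1 - 5 / (p : ℝ))⁻¹ := fun p => le_max_left _ _
  have hmax : ∀ p : ℕ, (11 : ℝ) ≤ (p : ℝ) → max 0 (1 - 5 / (p : ℝ))⁻¹ = (1 - 5 / (p : ℝ))⁻¹ := by
    intro p hp
    apply max_eq_right
    apply inv_nonneg.mpr
    have h0 : (0 : ℝ) < (p : ℝ) := by linarith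
    rw [sub_nonneg, div_le_one h0]
    linarith
  constructor
  · have h := mass_le K y hK (fun p => max 0 (1 - 5 / (p : ℝ))⁻¹) (fun p => 1 - 1 / (p : ℝ)) hpos
      (fun p hp => by
        have h11 := (hprime p hp).2
        have h0 : (0 : ℝ) < (p : ℝ) := by linarith
        rw [sub_nonneg, div_le_one h0]
        linarith)
      (fun p hp => by
        have h11 := (hprime p hp).2
        rw [hmax p h11]
        exact local1 (p : ℝ) h11) T hT
    refine le_trans (le_of_eq ?_) h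
    refine Finset.sum_congr rfl fun s hs => ?_
    unfold w1 fW
    have hpr : ∏ p ∈ s.primeFactors, (1 - 5 / (p : ℝ))⁻¹ =
        ∏ p ∈ s.primeFactors, max 0 (1 - 5 / (p : ℝ))⁻¹ :=
      Finset.prod_congr rfl fun p hp => (hmax p (hcut s hs p hp)).symm
    rw [hpr, one_div, div_eq_mul_inv]
    ring
  · have h := mass_le K y hK (fun p => (rho p : ℝ) * max 0 (1 - 5 / (p : ℝ))⁻¹)
      (fun p => 1 - (rho p : ℝ) / (p : ℝ))
      (fun p => mul_nonneg (Nat.cast_nonneg _) (hpos p))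
      (fun p hp => by
        have h11 := (hprime p hp).2
        have h0 : (0 : ℝ) < (p : ℝ) := by linarith
        have hr : (rho p : ℝ) ≤ 2 := by exact_mod_cast hRh p (hprime p hp).1
        rw [sub_nonneg, div_le_one h0]
        linarith)
      (fun p hp => by
        have h11 := (hprime p hp).2
        have hr : rho p ≤ 2 := hRh p (hprime p hp).1
        show ((rho p : ℝ) * max 0 (1 - 5 / (p : ℝ))⁻¹ / ((p : ℝ) - 1) + 1) * (1 - (rho p : ℝ) / (p : ℝ)) ≤
          1 + 20 * (1 / ((p : ℝ) ^ 2))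
        rw [hmax p h11]
        have hr3 : rho p = 0 ∨ rho p = 1 ∨ rho p = 2 := by omega
        rcases hr3 with h0 | h0 | h0
        · rw [h0]
          simp
        · rw [h0]
          have hl := local1 (p : ℝ) h11
          simpa using hl
        · rw [h0]
          have hl := local2 (p : ℝ) h11
          push_cast
          exact hl) T hT
    refine le_trans (le_of_eq ?_) h
    refine Finset.sum_congr rfl fun s hs => ?_
    unfold w3 fW rho4
    have hpr : ∏ p ∈ s.primeFactors, (1 - 5 / (p : ℝ))⁻¹ =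
        ∏ p ∈ s.primeFactors, max 0 (1 - 5 / (p : ℝ))⁻¹ :=
      Finset.prod_congr rfl fun p hp => (hmax p (hcut s hs p hp)).symm
    rw [hpr, Finset.prod_mul_distrib, div_eq_mul_inv, div_eq_mul_inv]
    push_cast
    ring

end Pool.Agent.F0f91f8.PC
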