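import Mathlib
import Pool.Agent.Work.MP_0f91f8_co.PC.StmtsC
import Pool.Agent.Work.MP_0f91f8_co.EF.Ev

/-!
# Item CPb of block PC: Euler product
-/

set_option autoImplicit false

namespace Pool.Agent.F0f91f8.PC

open Filter Topology ComplexConjugate MeasureTheory
open Pool.Agent.F0f91f8.FC
open Pool.Agent.Work.MP_0f91f8_co.EF (GG ev)
open scoped BigOperators

namespace ICPb

/-! ## One factor -/

/-- the local term -/
noncomputable def Fp (p : ℕ) (ψ : ℂ) (k : ℕ) : ℂ :=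
  ((1 - 1 / (p : ℝ) : ℝ) : ℂ) *
    (if k = 0 then 1 else (((1 - 5 / (p : ℝ))⁻¹ : ℝ) : ℂ) * (ψ / p) ^ k)

/-- partial sums of the geometric series -/
theorem geom_le (q : ℝ) (h0 : 0 ≤ q) (M : ℕ) :
    (1 - q) * ∑ k ∈ Finset.range M, q ^ k ≤ 1 := by
  have h2 : (1 - q) * ∑ k ∈ Finset.range M, q ^ k = 1 - q ^ M := mul_neg_geom_sum q M
  rw [h2]
  have : 0 ≤ q ^ M := pow_nonneg h0 M
  linarith

theorem norm_one_sub (ψ : ℂ) (hψ : ‖ψ‖ = 1) (q : ℝ) :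
    ‖1 - (q : ℂ) * (1 - ψ)‖ ≤ 1 - q * ‖1 - ψ‖ ^ 2 / 2 + 2 * q ^ 2 := by
  have h1 : ‖1 - ψ‖ ^ 2 = 2 - 2 * ψ.re := by
    have h2 : Complex.normSq ψ = 1 := by rw [Complex.normSq_eq_norm_sq, hψ]; norm_num
    rw [Complex.normSq_apply] at h2
    rw [← Complex.normSq_eq_norm_sq, Complex.normSq_apply]
    simp only [Complex.sub_re, Complex.one_re, Complex.sub_im, Complex.one_im]
    nlinarith
  have h3 : ‖1 - ψ‖ ≤ 2 := by
    calc ‖1 - ψ‖ ≤ ‖(1 : ℂ)‖ + ‖ψ‖ := norm_sub_le _ _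
      _ = 2 := by rw [hψ, norm_one]; norm_num
  have h4 : ‖1 - ψ‖ ^ 2 ≤ 4 := by
    have := norm_nonneg (1 - ψ)
    nlinarith
  have h5 : ‖1 - (q : ℂ) * (1 - ψ)‖ ^ 2 = 1 - q * ‖1 - ψ‖ ^ 2 + q ^ 2 * ‖1 - ψ‖ ^ 2 := by
    have h6 : ‖1 - ψ‖ ^ 2 = (1 - ψ.re) * (1 - ψ.re) + ψ.im * ψ.im := by
      rw [← Complex.normSq_eq_norm_sq, Complex.normSq_apply]
      simp
    have h7 : ‖1 - (q : ℂ) * (1 - ψ)‖ ^ 2 =
        (1 - q * (1 - ψ.re)) * (1 - q * (1 - ψ.re)) + (q * ψ.im) * (q * ψ.im) := by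
      rw [← Complex.normSq_eq_norm_sq, Complex.normSq_apply]
      simp
    rw [h7]
    have h8 : q * ‖1 - ψ‖ ^ 2 = 2 * q * (1 - ψ.re) := by rw [h1]; ring
    rw [h8, h6]
    ring
  have h9 : ‖1 - (q : ℂ) * (1 - ψ)‖ ^ 2 ≤ 1 - q * ‖1 - ψ‖ ^ 2 + 4 * q ^ 2 := by
    rw [h5]
    have : q ^ 2 * ‖1 - ψ‖ ^ 2 ≤ q ^ 2 * 4 := mul_le_mul_of_nonneg_left h4 (sq_nonneg q)
    linarith
  set B : ℝ := ‖1 - (q : ℂ) * (1 - ψ)‖ with hB
  have h10 : 0 ≤ (B - 1) ^ 2 := sq_nonneg _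
  nlinarith

/-- the bound for one factor -/
theorem factor (p : ℕ) (hp : 11 ≤ p) (ψ : ℂ) (hψ : ‖ψ‖ = 1) (N : ℕ) (hN : 1 ≤ N) :
    ‖∑ k ∈ Finset.range (N + 1), Fp p ψ k‖ ≤
      Real.exp (-(‖1 - ψ‖ ^ 2 / (2 * (p : ℝ))) + 14 * ((p : ℝ) ^ 2)⁻¹) := by
  obtain ⟨M, rfl⟩ : ∃ M, N = M + 1 := ⟨N - 1, by omega⟩
  have hpr : (11 : ℝ) ≤ (p : ℝ) := by exact_mod_cast hp
  have hp0 : (0 : ℝ) < (p : ℝ) := by linarith
  obtain ⟨q, hq⟩ : ∃ q : ℝ, q = 1 / (p : ℝ) := ⟨_, rfl⟩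
  have hq0 : 0 < q := by rw [hq]; positivity
  have hq1 : q ≤ 1 / 11 := by
    rw [hq]
    exact one_div_le_one_div_of_le (by norm_num) hpr
  obtain ⟨c, hc⟩ : ∃ c : ℝ, c = (1 - 5 / (p : ℝ))⁻¹ := ⟨_, rfl⟩
  have h5q : 5 / (p : ℝ) = 5 * q := by rw [hq]; ring
  have hc0 : 0 < 1 - 5 * q := by linarith
  have hcm : c * (1 - 5 * q) = 1 := by
    rw [hc, h5q]
    exact inv_mul_cancel₀ hc0.ne'
  have hc1 : c ≤ 11 / 6 := by
    have h1 : 6 / 11 ≤ 1 - 5 * q := by linarith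
    by_contra hcon
    push Not at hcon
    nlinarith
  have hcpos : 0 < c := by
    rw [hc, h5q]
    exact inv_pos.2 hc0
  have hcd : c - 1 ≤ 55 / 6 * q := by nlinarith
  have hcd0 : 0 ≤ c - 1 := by nlinarith
  -- the terms
  have hz : ψ / (p : ℂ) = (q : ℂ) * ψ := by
    rw [hq]
    push_cast
    ring
  have hF0 : Fp p ψ 0 = ((1 - q : ℝ) : ℂ) := by
    unfold Fp
    rw [if_pos rfl, mul_one, ← hq]
  have hFk : ∀ k, Fp p ψ (k + 1) = ((1 - q : ℝ) : ℂ) * ((c : ℂ) * ((q : ℂ) * ψ) ^ (k + 1)) := by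
    intro k
    unfold Fp
    rw [if_neg (Nat.succ_ne_zero k), ← hq, ← hc, hz]
  rw [Finset.sum_range_succ', Finset.sum_range_succ', hF0]
  have hdec : ∑ k ∈ Finset.range M, Fp p ψ (k + 1 + 1) + Fp p ψ (0 + 1) + ((1 - q : ℝ) : ℂ) =
      (1 - (q : ℂ) * (1 - ψ)) + (-((q : ℂ) ^ 2 * ψ)) +
        (((1 - q) * (c - 1) * q : ℝ) : ℂ) * ψ +
        ∑ k ∈ Finset.range M, Fp p ψ (k + 1 + 1) := by
    rw [hFk 0]
    push_cast
    ring
  rw [hdec]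
  have hE2 : ‖∑ k ∈ Finset.range M, Fp p ψ (k + 1 + 1)‖ ≤ 11 / 6 * q ^ 2 := by
    have h1 : ∀ k, ‖Fp p ψ (k + 1 + 1)‖ = c * q ^ 2 * ((1 - q) * q ^ k) := by
      intro k
      rw [hFk, norm_mul, norm_mul, norm_pow, norm_mul, hψ, Complex.norm_real, Complex.norm_real,
        Complex.norm_real, Real.norm_of_nonneg (by linarith : 0 ≤ 1 - q),
        Real.norm_of_nonneg hcpos.le, Real.norm_of_nonneg hq0.le]
      ring
    calc ‖∑ k ∈ Finset.range M, Fp p ψ (k + 1 + 1)‖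
        ≤ ∑ k ∈ Finset.range M, ‖Fp p ψ (k + 1 + 1)‖ := norm_sum_le _ _
      _ = c * q ^ 2 * ((1 - q) * ∑ k ∈ Finset.range M, q ^ k) := by
          rw [Finset.mul_sum, Finset.mul_sum]
          exact Finset.sum_congr rfl fun k _ => h1 k
      _ ≤ c * q ^ 2 * 1 := by
          refine mul_le_mul_of_nonneg_left (geom_le q hq0.le M) (by positivity)
      _ ≤ 11 / 6 * q ^ 2 := by
          rw [mul_one]
          exact mul_le_mul_of_nonneg_right hc1 (by positivity)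
  have hE1 : ‖(((1 - q) * (c - 1) * q : ℝ) : ℂ) * ψ‖ ≤ 55 / 6 * q ^ 2 := by
    rw [norm_mul, hψ, mul_one, Complex.norm_real, Real.norm_of_nonneg (by
      have : 0 ≤ 1 - q := by linarith
      positivity)]
    have h1 : (1 - q) * (c - 1) ≤ 1 * (55 / 6 * q) :=
      mul_le_mul (by linarith) hcd hcd0 (by norm_num)
    nlinarith
  have hE0 : ‖-((q : ℂ) ^ 2 * ψ)‖ = q ^ 2 := by
    rw [norm_neg, norm_mul, hψ, mul_one, norm_pow, Complex.norm_real,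
      Real.norm_of_nonneg hq0.le]
  have hmain := norm_one_sub ψ hψ q
  have hexp : -(‖1 - ψ‖ ^ 2 / (2 * (p : ℝ))) + 14 * ((p : ℝ) ^ 2)⁻¹ =
      -(q * ‖1 - ψ‖ ^ 2 / 2) + 14 * q ^ 2 := by
    rw [hq]
    field_simp
  rw [hexp]
  refine le_trans ?_ (Real.add_one_le_exp _)
  calc ‖(1 - (q : ℂ) * (1 - ψ)) + (-((q : ℂ) ^ 2 * ψ)) +
        (((1 - q) * (c - 1) * q : ℝ) : ℂ) * ψ +
        ∑ k ∈ Finset.range M, Fp p ψ (k + 1 + 1)‖
      ≤ ‖1 - (q : ℂ) * (1 - ψ)‖ + ‖-((q : ℂ) ^ 2 * ψ)‖ +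
        ‖(((1 - q) * (c - 1) * q : ℝ) : ℂ) * ψ‖ +
        ‖∑ k ∈ Finset.range M, Fp p ψ (k + 1 + 1)‖ := by
        refine (norm_add_le _ _).trans (add_le_add_left ?_ _)
        refine (norm_add_le _ _).trans (add_le_add_left ?_ _)
        exact norm_add_le _ _
    _ ≤ (1 - q * ‖1 - ψ‖ ^ 2 / 2 + 2 * q ^ 2) + q ^ 2 + 55 / 6 * q ^ 2 + 11 / 6 * q ^ 2 := by
        rw [hE0]
        linarith
    _ = -(q * ‖1 - ψ‖ ^ 2 / 2) + 14 * q ^ 2 + 1 := by ring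

/-! ## The numbers with prime factors in `P` -/

section
variable {P : Finset ℕ}

/-- the integer of a family of exponents -/
def pe (e : P → ℕ) : ℕ := ∏ p : P, (p : ℕ) ^ e p

theorem pe_ne (hP : ∀ p ∈ P, p.Prime) (e : P → ℕ) : pe e ≠ 0 := by
  unfold pe
  exact Finset.prod_ne_zero_iff.2 fun p _ => pow_ne_zero _ (hP p p.2).ne_zero

theorem pe_fact (hP : ∀ p ∈ P, p.Prime) (e : P → ℕ) (q : P) :
    (pe e).factorization q = e q := by
  unfold pe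
  rw [Nat.factorization_prod (fun (p : P) _ => pow_ne_zero _ (hP p p.2).ne_zero),
    Finsupp.finsetSum_apply,
    Finset.sum_eq_single q]
  · rw [(hP q q.2).factorization_pow, Finsupp.single_eq_same]
  · intro p _ hpq
    rw [(hP p p.2).factorization_pow, Finsupp.single_eq_of_ne]
    exact fun h => hpq (Subtype.ext h.symm)
  · intro h
    exact absurd (Finset.mem_univ q) h

theorem pe_inj (hP : ∀ p ∈ P, p.Prime) (e e' : P → ℕ) (h : pe e = pe e') : e = e' := by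
  funext q
  rw [← pe_fact hP e q, h, pe_fact hP e' q]

theorem mem_of_dvd (hP : ∀ p ∈ P, p.Prime) (e : P → ℕ) (p : ℕ) (hp : p.Prime) (h : p ∣ pe e) :
    p ∈ P := by
  unfold pe at h
  obtain ⟨q, _, hq⟩ := (hp.prime.dvd_finsetProd_iff _).1 h
  have h1 : p ∣ (q : ℕ) := hp.dvd_of_dvd_pow hq
  rw [(Nat.prime_dvd_prime_iff_eq hp (hP q q.2)).1 h1]
  exact q.2

theorem prod_pf (hP : ∀ p ∈ P, p.Prime) (e : P → ℕ) (h : ℕ → ℝ) :
    ∏ p ∈ (pe e).primeFactors, h p = ∏ p : P, if e p = 0 then 1 else h p := by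
  have h1 : (pe e).primeFactors = P.filter fun p => ¬ (pe e).factorization p = 0 := by
    ext p
    rw [Finset.mem_filter]
    constructor
    · intro hp
      have hpp := Nat.prime_of_mem_primeFactors hp
      have hd := Nat.dvd_of_mem_primeFactors hp
      refine ⟨mem_of_dvd hP e p hpp hd, fun h0 => ?_⟩
      have := hpp.factorization_pos_of_dvd (pe_ne hP e) hd
      omega
    · rintro ⟨_, h0⟩
      rw [← Nat.support_factorization, Finsupp.mem_support_iff]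
      exact h0
  rw [h1, Finset.prod_filter, ← Finset.prod_coe_sort P]
  refine Finset.prod_congr rfl fun p _ => ?_
  rw [pe_fact hP e p]
  by_cases h0 : e p = 0
  · rw [if_pos h0, if_neg (fun h => h h0)]
  · rw [if_neg h0, if_pos h0]

end

/-- `ev g` as a homomorphism -/
noncomputable def evh (g : GG) : ℕ →* ℂ where
  toFun := ev g
  map_one' := (Pool.Agent.Work.MP_0f91f8_co.EF.Ev_pf.1 g).one
  map_mul' := (Pool.Agent.Work.MP_0f91f8_co.EF.Ev_pf.1 g).mul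

theorem ev_pe {P : Finset ℕ} (g : GG) (e : P → ℕ) :
    ev g (pe e) = ∏ p : P, ev g (p : ℕ) ^ e p := by
  have h := map_prod (evh g) (fun p : P => (p : ℕ) ^ e p) Finset.univ
  have h2 : evh g (pe e) = ∏ p : P, evh g (p : ℕ) ^ e p := by
    unfold pe
    rw [h]
    exact Finset.prod_congr rfl fun p _ => map_pow _ _ _
  exact h2

theorem PN_prime {K y p : ℕ} (h : p ∈ PN K y 1) : p.Prime ∧ K < p ∧ p ≤ y := by
  unfold PN at h
  rw [Finset.mem_filter, Finset.mem_Icc] at h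
  exact ⟨h.2.1, h.2.2.1, h.1.2⟩

/-- a term of the sum -/
theorem term (K y : ℕ) (g g' : GG) (e : (PN K y 1 : Finset ℕ) → ℕ) :
    (w1 K y (pe e) : ℂ) * (ev g (pe e) * conj (ev g' (pe e))) =
      ∏ p : (PN K y 1 : Finset ℕ), Fp p (ev g (p : ℕ) * conj (ev g' (p : ℕ))) (e p) := by
  have hP : ∀ p ∈ PN K y 1, p.Prime := fun p hp => (PN_prime hp).1
  have h1 : w1 K y (pe e) = ∏ p : (PN K y 1 : Finset ℕ), ((1 / ((p : ℕ) : ℝ)) ^ e p *
      (if e p = 0 then 1 else (1 - 5 / ((p : ℕ) : ℝ))⁻¹) * (1 - 1 / ((p : ℕ) : ℝ))) := by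
    unfold w1
    rw [Finset.prod_mul_distrib, Finset.prod_mul_distrib, prod_pf hP e]
    congr 1
    · congr 1
      unfold pe
      push_cast
      rw [one_div, ← Finset.prod_inv_distrib]
      refine Finset.prod_congr rfl fun p _ => ?_
      rw [one_div, inv_pow]
    · exact (Finset.prod_coe_sort (PN K y 1) fun p : ℕ => (1 - 1 / (p : ℝ))).symm
  rw [h1, ev_pe, ev_pe, map_prod, Complex.ofReal_prod, ← Finset.prod_mul_distrib,
    ← Finset.prod_mul_distrib]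
  refine Finset.prod_congr rfl fun p _ => ?_
  rw [map_pow]
  unfold Fp
  by_cases h0 : e p = 0
  · rw [if_pos h0, if_pos h0, h0]
    push_cast
    ring
  · rw [if_neg h0, if_neg h0, div_pow (ev g (p : ℕ) * _), mul_pow (ev g (p : ℕ))]
    push_cast
    rw [one_div, inv_pow]
    ring

/-- the sum over the numbers is a product -/
theorem sum_eq (K y N : ℕ) (g g' : GG) :
    ∑ s ∈ SN (PN K y 1) N, (w1 K y s : ℂ) * (ev g s * conj (ev g' s)) =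
      ∏ p : (PN K y 1 : Finset ℕ), ∑ k ∈ Finset.range (N + 1),
        Fp p (ev g (p : ℕ) * conj (ev g' (p : ℕ))) k := by
  have hP : ∀ p ∈ PN K y 1, p.Prime := fun p hp => (PN_prime hp).1
  rw [Finset.prod_univ_sum]
  unfold SN
  rw [Finset.sum_image]
  · exact Finset.sum_congr rfl fun e _ => term K y g g' e
  · intro e _ e' _ h
    exact pe_inj hP e e' h

/-- the sum of the squares of the reciprocals -/
theorem sum_sq (K y : ℕ) (hK : 10 ≤ K) : ∑ p ∈ PN K y 1, ((p : ℝ) ^ 2)⁻¹ ≤ 1 / 10 := by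
  have h1 : ∑ p ∈ PN K y 1, ((p : ℝ) ^ 2)⁻¹ ≤ ∑ p ∈ Finset.Ioc 10 (y + 10), ((p : ℝ) ^ 2)⁻¹ := by
    refine Finset.sum_le_sum_of_subset_of_nonneg ?_ fun _ _ _ => by positivity
    intro p hp
    obtain ⟨_, h2, h3⟩ := PN_prime hp
    rw [Finset.mem_Ioc]
    omega
  have h2 := sum_Ioc_inv_sq_le_sub (α := ℝ) (k := 10) (n := y + 10) (by norm_num) (by omega)
  have h3 : (0 : ℝ) ≤ (((y + 10 : ℕ) : ℝ))⁻¹ := by positivity
  have h4 : (((10 : ℕ) : ℝ))⁻¹ = 1 / 10 := by norm_num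
  rw [h4] at h2
  linarith

end ICPb

open ICPb in
theorem pr_CPb : StCPb := by
  intro K y N g g' hK hN
  rw [sum_eq, norm_prod]
  have hev : ∀ (h : GG) (p : ℕ), 0 < p → ‖ev h p‖ = 1 := fun h p hp =>
    (Pool.Agent.Work.MP_0f91f8_co.EF.Ev_pf.1 h).norm p hp
  have h1 : ∏ p : (PN K y 1 : Finset ℕ), ‖∑ k ∈ Finset.range (N + 1),
        Fp p (ev g (p : ℕ) * conj (ev g' (p : ℕ))) k‖ ≤
      ∏ p : (PN K y 1 : Finset ℕ), Real.exp (-(‖1 - ev g (p : ℕ) * conj (ev g' (p : ℕ))‖ ^ 2 /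
        (2 * ((p : ℕ) : ℝ))) + 14 * (((p : ℕ) : ℝ) ^ 2)⁻¹) := by
    refine Finset.prod_le_prod (fun _ _ => norm_nonneg _) fun p _ => ?_
    obtain ⟨hp1, hp2, hp3⟩ := PN_prime p.2
    refine factor p (by omega) _ ?_ N hN
    rw [norm_mul, Complex.norm_conj, hev g p hp1.pos, hev g' p hp1.pos, one_mul]
  refine h1.trans ?_
  have h2 : ∏ p : (PN K y 1 : Finset ℕ), Real.exp (-(‖1 - ev g (p : ℕ) * conj (ev g' (p : ℕ))‖ ^ 2 /
        (2 * ((p : ℕ) : ℝ))) + 14 * (((p : ℕ) : ℝ) ^ 2)⁻¹) =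
      ∏ p ∈ PN K y 1, Real.exp (-(‖1 - ev g p * conj (ev g' p)‖ ^ 2 /
        (2 * (p : ℝ))) + 14 * ((p : ℝ) ^ 2)⁻¹) :=
    Finset.prod_coe_sort (PN K y 1) fun p : ℕ =>
      Real.exp (-(‖1 - ev g p * conj (ev g' p)‖ ^ 2 / (2 * (p : ℝ))) + 14 * ((p : ℝ) ^ 2)⁻¹)
  rw [h2, ← Real.exp_sum, Finset.sum_add_distrib, Finset.sum_neg_distrib, Real.exp_add,
    ← Finset.mul_sum, mul_comm]
  refine mul_le_mul_of_nonneg_right ?_ (Real.exp_pos _).le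
  have h3 := sum_sq K y hK
  have h4 : 14 * ∑ p ∈ PN K y 1, ((p : ℝ) ^ 2)⁻¹ ≤ 2 := by linarith
  calc Real.exp (14 * ∑ p ∈ PN K y 1, ((p : ℝ) ^ 2)⁻¹) ≤ Real.exp 2 := Real.exp_le_exp.2 h4
    _ = Real.exp 1 * Real.exp 1 := by rw [← Real.exp_add]; norm_num
    _ ≤ 100 := by
        have h5 := Real.exp_one_lt_d9
        have h6 := Real.exp_pos 1
        nlinarith

end Pool.Agent.F0f91f8.PC
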