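import Mathlib
import Pool.Agent.Work.MP_0f91f8_co.PC.StmtsC

/-!
# Block PC, item CPt: a good member of the family (helper64)
-/

set_option autoImplicit false

namespace Pool.Agent.F0f91f8.PC

open Filter Topology ComplexConjugate MeasureTheory
open Pool.Agent.F0f91f8.HD Pool.Agent.F0f91f8.RC Pool.Agent.F0f91f8.KR Pool.Agent.F0f91f8.FC
open Pool.Agent.Work.MP_0f91f8_co.EF (GG ev)
open scoped BigOperators

namespace ICPt

lemma rr_pos {J : ℕ} (q : Fin J → ℕ) (cl : ℕ → Option (Fin J)) (hq : ∀ i, 0 < q i) (p : ℕ) :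
    0 < rr q cl p := by
  unfold rr
  cases cl p with
  | none => exact Nat.one_pos
  | some i => exact hq i

lemma rq_pos {J : ℕ} (y : ℕ) (q : Fin J → ℕ) (cl : ℕ → Option (Fin J)) (hq : ∀ i, 0 < q i) (N : ℕ) :
    0 < rq y q cl N := by
  unfold rq
  exact Finset.prod_pos fun p _ => pow_pos (rr_pos q cl hq p) _

lemma Lf_pos (κ n a : ℕ) (hκ : 0 < κ) (hn : 0 < n) (ha : 0 < a) (j : Fin 4) : 0 < Lf κ n a j := by
  have h1 : 0 < κ * n := Nat.mul_pos hκ hn
  fin_cases j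
  · show 0 < a
    exact ha
  · show 0 < a + κ * n
    omega
  · show 0 < a + 2 * (κ * n)
    omega
  · show 0 < (a + κ * n) ^ 2 + (κ * n) ^ 2
    positivity

end ICPt

open ICPt in
theorem pr_CPt (hU : StCU) (hB : StCB) (hV : StCV) (hDc : StCDc) (hRp : RepQ) : StCPt := by
  intro X _ μ _ S A hA σ _ V E E' hE hE' B η hB0 hT K y R' J κ k a n q cl δ hδ hq hcl hKy hκ hk ha hn
    hnb hnone
  obtain ⟨hU1, hU2, -⟩ := hU X inferInstance μ inferInstance S
  obtain ⟨hB1, hB2, hB3, -, -, -, -⟩ := hB X inferInstance μ inferInstance S A hA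
  obtain ⟨-, hh1, -, -, -, -, -⟩ := hV X inferInstance μ inferInstance S A hA σ inferInstance V E hE
  obtain ⟨-, hg1, -, -, -, -, hdd⟩ := hV X inferInstance μ inferInstance S A hA σ inferInstance V E' hE'
  have hka : 0 < k * a := Nat.mul_pos hk ha
  have hLpos : ∀ j, 0 < Lf κ n (k * a) j := fun j => Lf_pos κ n (k * a) hκ hn hka j
  have hrep : ∀ (F : Set GG), MeasurableSet F → ∀ j : Fin 4,
      ‖U S (Lf κ n (k * a) j) (V.V (b1 σ F)) -
        U S (sm K (Lf κ n (k * a) j) * sp K y (Lf κ n (k * a) j) * rq y q cl (Lf κ n (k * a) j))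
          (V.V (b1 σ F))‖ ≤ R' * Real.sqrt δ := by
    intro F hF j
    exact hRp X inferInstance μ inferInstance S A hA σ inferInstance V F hF K y R' J q cl δ hδ hq hcl
      (Lf κ n (k * a) j) (hLpos j) hKy (fun p hp hy hd => hnone j p hp hy hd) (hnb j)
  have hpos' : ∀ j : Fin 4, 0 < sp K y (Lf κ n (k * a) j) ∧ 0 < sm K (Lf κ n (k * a) j) ∧
      0 < rq y q cl (Lf κ n (k * a) j) := by
    intro j
    obtain ⟨-, h1, h2, -, -⟩ := hDc K y (Lf κ n (k * a) j) hKy (hLpos j)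
    exact ⟨h2, h1, rq_pos y q cl hq _⟩
  generalize hL' : (fun j : Fin 4 =>
    sm K (Lf κ n (k * a) j) * sp K y (Lf κ n (k * a) j) * rq y q cl (Lf κ n (k * a) j)) = L'
  have hL'j : ∀ j, sm K (Lf κ n (k * a) j) * sp K y (Lf κ n (k * a) j) *
      rq y q cl (Lf κ n (k * a) j) = L' j := by
    intro j
    rw [← hL']
  have hL'pos : ∀ j, 0 < L' j := by
    intro j
    rw [← hL'j j]
    obtain ⟨h1, h2, h3⟩ := hpos' j
    exact Nat.mul_pos (Nat.mul_pos h2 h1) h3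
  have hrep' : ∀ (F : Set GG), MeasurableSet F → ∀ j : Fin 4,
      ‖U S (Lf κ n (k * a) j) (V.V (b1 σ F)) - U S (L' j) (V.V (b1 σ F))‖ ≤ R' * Real.sqrt δ := by
    intro F hF j
    rw [← hL'j j]
    exact hrep F hF j
  have hPs : Real.sqrt (Ps S A κ n (V.V (b1 σ E)) (V.V (b1 σ E')) (fun j => sp K y (Lf κ n (k * a) j))
      (fun j => sm K (Lf κ n (k * a) j)) (fun j => rq y q cl (Lf κ n (k * a) j))) =
      ‖bt S A (L' 3) (U S (2 * κ * n * L' 1) (V.V (b1 σ E))) (U S (L' 0 * L' 2) (V.V (b1 σ E')))‖ := by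
    unfold Ps
    rw [if_pos hpos']
    rw [Real.sqrt_sq (norm_nonneg _)]
    rw [hL'j 3, hL'j 1, hL'j 0, hL'j 2]
  rw [hPs]
  have hX : tX κ k a n = 2 * κ * n * Lf κ n (k * a) 1 := by
    show 2 * (κ * n) * (k * a + κ * n) = 2 * κ * n * (k * a + κ * n)
    ring
  have hY : tY κ k a n = Lf κ n (k * a) 0 * Lf κ n (k * a) 2 := rfl
  have hZ : tZ κ k a n = Lf κ n (k * a) 3 := rfl
  rw [hX, hY, hZ]
  have hc : 0 < 2 * κ * n := by positivity
  generalize hLg : Lf κ n (k * a) = L at *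
  generalize hhg : V.V (b1 σ E) = h at *
  have hrh : ∀ j, ‖U S (L j) h - U S (L' j) h‖ ≤ R' * Real.sqrt δ := by
    intro j
    rw [← hhg]
    exact hrep' E hE j
  generalize hgg : V.V (b1 σ E') = g at *
  have hrg : ∀ j, ‖U S (L j) g - U S (L' j) g‖ ≤ R' * Real.sqrt δ := by
    intro j
    rw [← hgg]
    exact hrep' E' hE' j
  have hdz : Real.sqrt (dd S A (L 3) (L' 3)) ≤ R' * Real.sqrt δ := by
    have h1 := hrep' Set.univ MeasurableSet.univ 3
    rw [V.one, hdd (L 3) (L' 3) (hLpos 3) (hL'pos 3)] at h1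
    exact h1
  have hsub1 : ∀ (z : ℕ) (H H' G : Lp ℂ 2 μ), bt S A z H G - bt S A z H' G = bt S A z (H - H') G := by
    intro z H H' G
    have h1 := hB3 z (H - H') H' G
    rw [sub_add_cancel] at h1
    rw [h1]
    ring
  have hsub2 : ∀ (z : ℕ) (H G G' : Lp ℂ 2 μ), bt S A z H G - bt S A z H G' = bt S A z H (G - G') := by
    intro z H G G'
    rw [hB2 z H G, hB2 z H G', hsub1, hB2]
  -- step 1
  have hy0 : 0 < L 0 * L 2 := Nat.mul_pos (hLpos 0) (hLpos 2)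
  have s1 : ‖bt S A (L 3) (U S (2 * κ * n * L 1) h) (U S (L 0 * L 2) g) -
      bt S A (L' 3) (U S (2 * κ * n * L 1) h) (U S (L 0 * L 2) g)‖ ≤ B * (R' * Real.sqrt δ) + η := by
    refine (hT (L 3) (L' 3) (L 0 * L 2) (hLpos 3) (hL'pos 3) hy0 (U S (2 * κ * n * L 1) h) ?_).trans ?_
    · rw [LinearIsometry.norm_map]
      exact hh1
    · have := mul_le_mul_of_nonneg_left hdz hB0
      linarith
  -- step 2
  have hUx : ‖U S (2 * κ * n * L 1) h - U S (2 * κ * n * L' 1) h‖ ≤ R' * Real.sqrt δ := by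
    rw [hU1 (2 * κ * n) (L 1) hc (hLpos 1), hU1 (2 * κ * n) (L' 1) hc (hL'pos 1), ← map_sub,
      LinearIsometry.norm_map]
    exact hrh 1
  have s2 : ‖bt S A (L' 3) (U S (2 * κ * n * L 1) h) (U S (L 0 * L 2) g) -
      bt S A (L' 3) (U S (2 * κ * n * L' 1) h) (U S (L 0 * L 2) g)‖ ≤ R' * Real.sqrt δ := by
    rw [hsub1]
    refine (hB1 _ _ _).trans ?_
    rw [LinearIsometry.norm_map]
    calc _ ≤ (R' * Real.sqrt δ) * 1 := mul_le_mul hUx hg1 (norm_nonneg _) (by positivity)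
      _ = _ := mul_one _
  -- step 3
  have hUy : ‖U S (L 0 * L 2) g - U S (L' 0 * L' 2) g‖ ≤ 2 * (R' * Real.sqrt δ) := by
    have e1 : U S (L 0 * L 2) g - U S (L' 0 * L' 2) g =
        U S (L 0) (U S (L 2) g - U S (L' 2) g) + U S (L' 2) (U S (L 0) g - U S (L' 0) g) := by
      rw [hU1 (L 0) (L 2) (hLpos 0) (hLpos 2), hU1 (L' 0) (L' 2) (hL'pos 0) (hL'pos 2), map_sub, map_sub,
        hU2 (L' 2) (L 0) (hL'pos 2) (hLpos 0), hU2 (L' 2) (L' 0) (hL'pos 2) (hL'pos 0)]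
      abel
    rw [e1]
    refine (norm_add_le _ _).trans ?_
    rw [LinearIsometry.norm_map, LinearIsometry.norm_map]
    have h0 := hrg 0
    have h2 := hrg 2
    linarith
  have s3 : ‖bt S A (L' 3) (U S (2 * κ * n * L' 1) h) (U S (L 0 * L 2) g) -
      bt S A (L' 3) (U S (2 * κ * n * L' 1) h) (U S (L' 0 * L' 2) g)‖ ≤ 2 * (R' * Real.sqrt δ) := by
    rw [hsub2]
    refine (hB1 _ _ _).trans ?_
    rw [LinearIsometry.norm_map]
    calc _ ≤ 1 * (2 * (R' * Real.sqrt δ)) := mul_le_mul hh1 hUy (norm_nonneg _) zero_le_one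
      _ = _ := one_mul _
  have tri : ∀ a b c d : ℂ, ‖a‖ ≤ ‖a - b‖ + ‖b - c‖ + ‖c - d‖ + ‖d‖ := by
    intro a b c d
    calc ‖a‖ = ‖(a - b) + (b - c) + (c - d) + d‖ := by congr 1; ring
      _ ≤ ‖(a - b) + (b - c) + (c - d)‖ + ‖d‖ := norm_add_le _ _
      _ ≤ ‖(a - b) + (b - c)‖ + ‖c - d‖ + ‖d‖ := by
          have := norm_add_le ((a - b) + (b - c)) (c - d)
          linarith
      _ ≤ _ := by
          have := norm_add_le (a - b) (b - c)
          linarith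
  refine (tri _ (bt S A (L' 3) (U S (2 * κ * n * L 1) h) (U S (L 0 * L 2) g))
    (bt S A (L' 3) (U S (2 * κ * n * L' 1) h) (U S (L 0 * L 2) g))
    (bt S A (L' 3) (U S (2 * κ * n * L' 1) h) (U S (L' 0 * L' 2) g))).trans ?_
  have e2 : (B + 3) * R' * Real.sqrt δ = B * (R' * Real.sqrt δ) + 3 * (R' * Real.sqrt δ) := by ring
  rw [e2]
  linarith

end Pool.Agent.F0f91f8.PC
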