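import Mathlib
import Pool.Agent.Work.MP_0f91f8_co.PC.StmtsC

/-!
# Block PC, item CRp: the statement `RepQ` (representatives)
-/

set_option autoImplicit false

namespace Pool.Agent.F0f91f8.PC

open Filter Topology ComplexConjugate MeasureTheory
open Pool.Agent.F0f91f8.HD Pool.Agent.F0f91f8.RC Pool.Agent.F0f91f8.KR Pool.Agent.F0f91f8.FC
open Pool.Agent.Work.MP_0f91f8_co.EF (GG ev)
open scoped BigOperators

namespace ICRp

section
variable {X : Type} [MeasurableSpace X] {μ : Measure X}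

/-- one step -/
theorem step (S : Sys μ)
    (h1 : ∀ m n : ℕ, 0 < m → 0 < n → ∀ H : Lp ℂ 2 μ, U S (m * n) H = U S m (U S n H))
    (h2 : ∀ m n : ℕ, 0 < m → 0 < n → ∀ H : Lp ℂ 2 μ, U S m (U S n H) = U S n (U S m H))
    (v : Lp ℂ 2 μ) {a b p r : ℕ} {α β : ℝ} (ha : 0 < a) (hb : 0 < b) (hp : 0 < p) (hr : 0 < r)
    (hα : ‖U S a v - U S b v‖ ≤ α) (hβ : ‖U S p v - U S r v‖ ≤ β) :
    ‖U S (a * p) v - U S (b * r) v‖ ≤ α + β := by
  have e1 : U S (a * p) v - U S (b * r) v =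
      U S p (U S a v - U S b v) + U S b (U S p v - U S r v) := by
    rw [h1 a p ha hp, h1 b r hb hr, h2 a p ha hp, map_sub, map_sub, h2 b p hb hp]
    abel
  rw [e1]
  refine (norm_add_le _ _).trans ?_
  rw [LinearIsometry.norm_map, LinearIsometry.norm_map]
  exact add_le_add hα hβ

theorem pow_step (S : Sys μ)
    (h1 : ∀ m n : ℕ, 0 < m → 0 < n → ∀ H : Lp ℂ 2 μ, U S (m * n) H = U S m (U S n H))
    (h2 : ∀ m n : ℕ, 0 < m → 0 < n → ∀ H : Lp ℂ 2 μ, U S m (U S n H) = U S n (U S m H))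
    (v : Lp ℂ 2 μ) {p r : ℕ} {β : ℝ} (hp : 0 < p) (hr : 0 < r)
    (hβ : ‖U S p v - U S r v‖ ≤ β) (e : ℕ) :
    ‖U S (p ^ e) v - U S (r ^ e) v‖ ≤ e * β := by
  induction e with
  | zero => simp
  | succ e ih =>
    rw [pow_succ, pow_succ]
    have h := step S h1 h2 v (pow_pos hp e) (pow_pos hr e) hp hr ih hβ
    push_cast
    linarith

theorem prod_step (S : Sys μ)
    (h1 : ∀ m n : ℕ, 0 < m → 0 < n → ∀ H : Lp ℂ 2 μ, U S (m * n) H = U S m (U S n H))
    (h2 : ∀ m n : ℕ, 0 < m → 0 < n → ∀ H : Lp ℂ 2 μ, U S m (U S n H) = U S n (U S m H))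
    (v : Lp ℂ 2 μ) {β : ℝ} (g e : ℕ → ℕ) (s : Finset ℕ) (hs : ∀ p ∈ s, 0 < p)
    (hg : ∀ p ∈ s, 0 < g p) (hβ : ∀ p ∈ s, ‖U S p v - U S (g p) v‖ ≤ β) :
    ‖U S (∏ p ∈ s, p ^ e p) v - U S (∏ p ∈ s, g p ^ e p) v‖ ≤ (∑ p ∈ s, e p : ℕ) * β := by
  classical
  induction s using Finset.induction_on with
  | empty => simp
  | insert p s hps ih =>
    have hs' : ∀ x ∈ s, 0 < x := fun x hx => hs x (Finset.mem_insert_of_mem hx)
    have hg' : ∀ x ∈ s, 0 < g x := fun x hx => hg x (Finset.mem_insert_of_mem hx)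
    have hβ' : ∀ x ∈ s, ‖U S x v - U S (g x) v‖ ≤ β :=
      fun x hx => hβ x (Finset.mem_insert_of_mem hx)
    have hp : 0 < p := hs p (Finset.mem_insert_self p s)
    have hgp : 0 < g p := hg p (Finset.mem_insert_self p s)
    have hb := hβ p (Finset.mem_insert_self p s)
    rw [Finset.prod_insert hps, Finset.prod_insert hps, Finset.sum_insert hps]
    have hA : 0 < ∏ x ∈ s, x ^ e x := Finset.prod_pos fun x hx => pow_pos (hs' x hx) _
    have hB : 0 < ∏ x ∈ s, g x ^ e x := Finset.prod_pos fun x hx => pow_pos (hg' x hx) _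
    have h := step S h1 h2 v (pow_pos hp (e p)) (pow_pos hgp (e p)) hA hB
      (pow_step S h1 h2 v hp hgp hb (e p)) (ih hs' hg' hβ')
    push_cast
    push_cast at h
    linarith

end

end ICRp

theorem pr_CRp (hU : StCU) (hV : StCV) (hDc : StCDc) : RepQ := by
  intro X mX μ hμ S A hA σ hσ V E hE K y R' J q cl δ hδ hq hd L hL hKy hcl hnb
  obtain ⟨h1, h2, -⟩ := hU X mX μ hμ S
  obtain ⟨-, -, -, -, -, h3, -⟩ := hV X mX μ hμ S A hA σ hσ V E hE
  obtain ⟨hN, hs, hp, hr, -⟩ := hDc K y L hKy hL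
  set v : Lp ℂ 2 μ := V.V (b1 σ E) with hv
  have hrr : ∀ p ∈ L.primeFactors.filter (fun p => y < p),
      0 < rr q cl p ∧ ‖U S p v - U S (rr q cl p) v‖ ≤ Real.sqrt δ := by
    intro p hp'
    rw [Finset.mem_filter] at hp'
    have hpp : p.Prime := Nat.prime_of_mem_primeFactors hp'.1
    have hpd : p ∣ L := Nat.dvd_of_mem_primeFactors hp'.1
    have hne := hcl p hpp hp'.2 hpd
    obtain ⟨i, hi⟩ := Option.ne_none_iff_exists'.mp hne
    have hrri : rr q cl p = q i := by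
      unfold rr
      rw [hi]
    rw [hrri]
    refine ⟨hq i, (h3 p (q i) hpp.pos (hq i)).trans ?_⟩
    exact Real.sqrt_le_sqrt (hd p i hpp hi)
  have hpos : ∀ p ∈ L.primeFactors.filter (fun p => y < p), 0 < p := by
    intro p hp'
    rw [Finset.mem_filter] at hp'
    exact (Nat.prime_of_mem_primeFactors hp'.1).pos
  have hrq : 0 < rq y q cl L := by
    unfold rq
    exact Finset.prod_pos fun p hp' => pow_pos (hrr p hp').1 _
  have key := ICRp.prod_step S h1 h2 v (β := Real.sqrt δ) (rr q cl) L.factorization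
    (L.primeFactors.filter (fun p => y < p)) hpos (fun p hp' => (hrr p hp').1)
    (fun p hp' => (hrr p hp').2)
  have key2 : ‖U S (rp y L) v - U S (rq y q cl L) v‖ ≤ (nb y L : ℝ) * Real.sqrt δ := key
  have e1 : U S L v = U S (sm K L * sp K y L) (U S (rp y L) v) := by
    rw [← h1 _ _ (Nat.mul_pos hs hp) hr, ← hN]
  rw [e1, h1 _ _ (Nat.mul_pos hs hp) hrq, ← map_sub, LinearIsometry.norm_map]
  refine key2.trans ?_
  exact mul_le_mul_of_nonneg_right (by exact_mod_cast hnb) (Real.sqrt_nonneg δ)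

end Pool.Agent.F0f91f8.PC
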