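import Mathlib
import Pool.Agent.Work.MP_0f91f8_co.PC.StmtsC

/-!
# Block PC, module CT, item CRq: the possible values of `rq`
-/

set_option autoImplicit false

namespace Pool.Agent.F0f91f8.PC

open scoped BigOperators

namespace ICRq

open Classical in
lemma rr_pow {J : ℕ} (q : Fin J → ℕ) (cl : ℕ → Option (Fin J)) (p v : ℕ) :
    rr q cl p ^ v = ∏ i, q i ^ (if cl p = some i then v else 0) := by
  unfold rr
  cases h : cl p with
  | none => simp
  | some j =>
    rw [Finset.prod_eq_single j]
    · simp
    · intro b _ hb
      have : ¬ (some j = some b) := fun e => hb (Option.some.inj e).symm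
      rw [if_neg this, pow_zero]
    · intro h'
      exact absurd (Finset.mem_univ j) h'

end ICRq

open ICRq in
theorem pr_CRq : StCRq := by
  classical
  intro J y R' q cl N hN
  set P := N.primeFactors.filter (fun p => y < p) with hP
  have hle : ∀ i : Fin J, ∑ p ∈ P, (if cl p = some i then N.factorization p else 0) < R' + 1 := by
    intro i
    refine Nat.lt_succ_of_le (le_trans (Finset.sum_le_sum fun p _ => ?_) hN)
    split_ifs
    · exact le_refl _
    · exact Nat.zero_le _
  refine ⟨fun i => ⟨∑ p ∈ P, (if cl p = some i then N.factorization p else 0), hle i⟩, ?_⟩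
  unfold rq Dq
  rw [← hP]
  rw [Finset.prod_congr rfl fun p _ => rr_pow q cl p (N.factorization p), Finset.prod_comm]
  refine Finset.prod_congr rfl fun i _ => ?_
  rw [Finset.prod_pow_eq_pow_sum]

end Pool.Agent.F0f91f8.PC
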