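import Mathlib
import Pool.Agent.Work.MP_0f91f8_co.PC.StmtsC

/-!
# Block PC, module CT, item CSl: slots
-/

set_option autoImplicit false

namespace Pool.Agent.F0f91f8.PC

open Filter Topology ComplexConjugate MeasureTheory
open Pool.Agent.F0f91f8.HD Pool.Agent.F0f91f8.RC Pool.Agent.F0f91f8.KR Pool.Agent.F0f91f8.FC
open Pool.Agent.Work.MP_0f91f8_co.EF (GG ev)
open scoped BigOperators

namespace ICSl

theorem w1_nonneg {K y s : ℕ} (hK : 10 ≤ K) (hs : Sy K y s) : 0 ≤ w1 K y s := by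
  unfold w1
  refine mul_nonneg (mul_nonneg (by positivity) (Finset.prod_nonneg fun p hp => ?_))
    (Finset.prod_nonneg fun p _ => ?_)
  · have h1 := Nat.prime_of_mem_primeFactors hp
    have h2 := (hs.2 p h1 (Nat.dvd_of_mem_primeFactors hp)).1
    have h3 : (10 : ℝ) < p := by exact_mod_cast lt_of_le_of_lt hK h2
    have h4 : (5 : ℝ) / p ≤ 1 := by
      rw [div_le_one (by linarith)]
      linarith
    exact inv_nonneg.2 (by linarith)
  · rcases Nat.eq_zero_or_pos p with h | h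
    · rw [h]
      simp
    · have h1 : (1 : ℝ) ≤ p := by exact_mod_cast h
      have h2 : (1 : ℝ) / p ≤ 1 := by
        rw [div_le_one (by linarith)]
        exact h1
      linarith

end ICSl

theorem pr_CSl (hU : StCU) (hB : StCB) (hV : StCV) (hBs : StCBs) (hM : MasS) : SltS := by
  intro X mX μ hμ S A hA σ hσ V E hE K y T hK hT z c H hz hc hH
  obtain ⟨hU1, hU2, -⟩ := hU X mX μ hμ S
  obtain ⟨-, -, -, -, -, hF, -⟩ := hB X mX μ hμ S A hA
  obtain ⟨-, hV2, -, -, hV5, -, -⟩ := hV X mX μ hμ S A hA σ hσ V E hE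
  obtain ⟨F, hF1, hF2⟩ := hF z H
  have hsp : ∀ s ∈ T, 0 < s := fun s hs => (hT s hs).1
  have hω : ∀ s ∈ T, 0 ≤ w1 K y s := fun s hs => ICSl.w1_nonneg hK (hT s hs)
  have hun : ∀ s ∈ T, ‖U S (s * c) (V.V (b1 σ E))‖ ≤ 1 := fun s _ => by
    rw [LinearIsometry.norm_map]
    exact hV2
  have hin : ∀ s ∈ T, ∀ s' ∈ T,
      inner ℂ (U S (s * c) (V.V (b1 σ E))) (U S (s' * c) (V.V (b1 σ E))) =
        ∫ g in E, ev g s' * conj (ev g s) ∂σ := by
    intro s hs s' hs'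
    rw [hU1 s c (hsp s hs) hc, hU1 s' c (hsp s' hs') hc, hU2 s c (hsp s hs) hc,
      hU2 s' c (hsp s' hs') hc, LinearIsometry.inner_map_map]
    exact hV5 s s' (hsp s hs) (hsp s' hs')
  have h1 := hBs (Lp ℂ 2 μ) inferInstance inferInstance T (w1 K y)
    (fun s => U S (s * c) (V.V (b1 σ E))) F 1 hω zero_le_one hun
  have h2 : ∑ s ∈ T, w1 K y s * ‖bt S A z H (U S (s * c) (V.V (b1 σ E)))‖ ^ 2 =
      ∑ s ∈ T, w1 K y s * ‖inner ℂ F (U S (s * c) (V.V (b1 σ E)))‖ ^ 2 :=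
    Finset.sum_congr rfl fun s _ => by rw [hF2]
  have h3 : ∑ s ∈ T, ∑ s' ∈ T, w1 K y s * w1 K y s' *
        ‖inner ℂ (U S (s * c) (V.V (b1 σ E))) (U S (s' * c) (V.V (b1 σ E)))‖ ^ 2 =
      ∑ s ∈ T, ∑ s' ∈ T, w1 K y s * w1 K y s' *
        ‖∫ g in E, ev g s' * conj (ev g s) ∂σ‖ ^ 2 :=
    Finset.sum_congr rfl fun s hs => Finset.sum_congr rfl fun s' hs' => by rw [hin s hs s' hs']
  rw [h2]
  refine h1.trans ?_
  rw [h3]
  have h4 : 0 ≤ (∑ s ∈ T, ∑ s' ∈ T, w1 K y s * w1 K y s' *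
      ‖∫ g in E, ev g s' * conj (ev g s) ∂σ‖ ^ 2) ^ (1 / 4 : ℝ) :=
    Real.rpow_nonneg (Finset.sum_nonneg fun s hs => Finset.sum_nonneg fun s' hs' =>
      mul_nonneg (mul_nonneg (hω s hs) (hω s' hs')) (by positivity)) _
  refine mul_le_mul_of_nonneg_right ?_ h4
  have h5 : Real.sqrt (∑ s ∈ T, w1 K y s) ≤ 2 := by
    rw [Real.sqrt_le_left (by norm_num)]
    have := (hM K y T hK hT).1
    linarith
  have h6 : ‖F‖ ^ 2 * 1 ≤ 1 := by
    have h7 : ‖F‖ ≤ 1 := hF1.trans hH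
    have h8 := norm_nonneg F
    nlinarith
  have h9 := Real.sqrt_nonneg (∑ s ∈ T, w1 K y s)
  have h10 : 0 ≤ ‖F‖ ^ 2 * 1 := by positivity
  nlinarith

end Pool.Agent.F0f91f8.PC
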