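import Mathlib
import Pool.Agent.Work.MP_0f91f8_co.PC.StmtsC

/-!
# Block PC, item CT: truncation
-/

set_option autoImplicit false

namespace Pool.Agent.F0f91f8.PC

open Filter Topology ComplexConjugate MeasureTheory
open Pool.Agent.F0f91f8.HD Pool.Agent.F0f91f8.RC Pool.Agent.F0f91f8.KR Pool.Agent.F0f91f8.FC
open Pool.Agent.Work.MP_0f91f8_co.EF (GG ev)
open scoped BigOperators ENNReal

namespace ICT

variable {X : Type} [MeasurableSpace X] {μ : Measure X}

/-- approximation by a bounded function -/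
theorem approx [IsProbabilityMeasure μ] (G : Lp ℂ 2 μ) {η : ℝ} (hη : 0 < η) :
    ∃ (G' : Lp ℂ 2 μ) (B : ℝ), 0 ≤ B ∧ (∀ᵐ x ∂μ, ‖(G' : X → ℂ) x‖ ≤ B) ∧ ‖G - G'‖ ≤ η := by
  have hm : MemLp (G : X → ℂ) 2 μ := Lp.memLp G
  obtain ⟨g, h1, h2⟩ := hm.exists_simpleFunc_eLpNorm_sub_lt (by norm_num)
    (ε := ENNReal.ofReal η) (by simpa using hη)
  obtain ⟨C, hC⟩ := g.exists_forall_norm_le
  refine ⟨h2.toLp g, |C|, abs_nonneg _, ?_, ?_⟩
  · filter_upwards [h2.coeFn_toLp] with x hx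
    rw [hx]
    exact (hC x).trans (le_abs_self _)
  · have e : G - h2.toLp g = (hm.sub h2).toLp ((G : X → ℂ) - ⇑g) := by
      rw [MemLp.toLp_sub hm h2, Lp.toLp_coeFn G hm]
    rw [e, Lp.norm_toLp]
    exact ENNReal.toReal_le_of_le_ofReal hη.le h1.le

/-- Cauchy-Schwarz on a set -/
theorem cs [IsProbabilityMeasure μ] (H : Lp ℂ 2 μ) (hH : ‖H‖ ≤ 1) (D : Set X) :
    ∫ x in D, ‖(H : X → ℂ) x‖ ∂μ ≤ Real.sqrt (μ.real D) := by
  have hm : MemLp (H : X → ℂ) 2 μ := Lp.memLp H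
  have h1 : ∫ x in D, ‖(H : X → ℂ) x‖ ∂μ = (eLpNorm (H : X → ℂ) 1 (μ.restrict D)).toReal := by
    rw [eLpNorm_one_eq_lintegral_enorm, integral_norm_eq_lintegral_enorm]
    exact (Lp.aestronglyMeasurable H).restrict
  have h2 : eLpNorm (H : X → ℂ) 1 (μ.restrict D) ≤
      eLpNorm (H : X → ℂ) 2 (μ.restrict D) * (μ.restrict D) Set.univ ^
        (1 / (1 : ℝ≥0∞).toReal - 1 / (2 : ℝ≥0∞).toReal) :=
    eLpNorm_le_eLpNorm_mul_rpow_measure_univ (by norm_num) (Lp.aestronglyMeasurable H).restrict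
  have h3 : eLpNorm (H : X → ℂ) 2 (μ.restrict D) ≤ 1 := by
    refine (eLpNorm_mono_measure _ Measure.restrict_le_self).trans ?_
    have : eLpNorm (H : X → ℂ) 2 μ = ENNReal.ofReal ‖H‖ := by
      rw [Lp.norm_def, ENNReal.ofReal_toReal (Lp.eLpNorm_ne_top H)]
    rw [this]
    simpa using ENNReal.ofReal_le_ofReal hH
  have h4 : (1 / (1 : ℝ≥0∞).toReal - 1 / (2 : ℝ≥0∞).toReal) = (1 / 2 : ℝ) := by norm_num
  rw [h4, Measure.restrict_apply_univ] at h2
  rw [h1, Real.sqrt_eq_rpow]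
  have h5 : eLpNorm (H : X → ℂ) 1 (μ.restrict D) ≤ (μ D) ^ (1 / 2 : ℝ) :=
    h2.trans (by simpa using mul_le_mul' h3 le_rfl)
  have h6 : (μ D) ^ (1 / 2 : ℝ) ≠ ∞ := ENNReal.rpow_ne_top_of_nonneg (by norm_num)
    (measure_ne_top μ D)
  refine (ENNReal.toReal_mono h6 h5).trans (le_of_eq ?_)
  rw [← ENNReal.toReal_rpow]
  rfl

theorem phi_meas (S : Sys μ) {A : Set X} (hA : MeasurableSet A) (z : ℕ) :
    Measurable fun x => A.indicator (fun _ => (1 : ℂ)) (S.T z x) :=
  (measurable_const.indicator hA).comp (S.T z).measurable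

theorem phi_int [IsProbabilityMeasure μ] (S : Sys μ) {A : Set X} (hA : MeasurableSet A) (z : ℕ)
    (H W : Lp ℂ 2 μ) :
    Integrable (fun x => A.indicator (fun _ => (1 : ℂ)) (S.T z x) * (H : X → ℂ) x *
      (W : X → ℂ) x) μ := by
  have h1 : Integrable (fun x => (H : X → ℂ) x * (W : X → ℂ) x) μ :=
    (Lp.memLp H).integrable_mul (Lp.memLp W)
  have h2 : Integrable (fun x => A.indicator (fun _ => (1 : ℂ)) (S.T z x) * ((H : X → ℂ) x *
      (W : X → ℂ) x)) μ := by
    refine h1.bdd_mul (c := 1) (phi_meas S hA z).aestronglyMeasurable ?_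
    filter_upwards with x
    by_cases hx : S.T z x ∈ A
    · simp [Set.indicator_of_mem hx]
    · simp [Set.indicator_of_notMem hx]
  refine h2.congr ?_
  filter_upwards with x
  ring

/-- the estimate for a bounded function -/
theorem bdd [IsProbabilityMeasure μ] (S : Sys μ) {A : Set X} (hA : MeasurableSet A) (z z' : ℕ)
    (H W : Lp ℂ 2 μ) (hH : ‖H‖ ≤ 1) {B : ℝ} (hB : 0 ≤ B)
    (hW : ∀ᵐ x ∂μ, ‖(W : X → ℂ) x‖ ≤ B) :
    ‖bt S A z H W - bt S A z' H W‖ ≤ B * Real.sqrt (dd S A z z') := by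
  set D : Set X := {x | ¬(S.T z x ∈ A ↔ S.T z' x ∈ A)} with hDdef
  have hz : MeasurableSet {x | S.T z x ∈ A} := (S.T z).measurable hA
  have hz' : MeasurableSet {x | S.T z' x ∈ A} := (S.T z').measurable hA
  have hD : MeasurableSet D := (hz.iff hz').compl
  unfold bt
  rw [← integral_sub (phi_int S hA z H W) (phi_int S hA z' H W)]
  have hint : Integrable (fun x => ‖(H : X → ℂ) x‖) μ :=
    ((Lp.memLp H).integrable (by norm_num)).norm
  have hbound : ∀ᵐ x ∂μ, ‖A.indicator (fun _ => (1 : ℂ)) (S.T z x) * (H : X → ℂ) x *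
      (W : X → ℂ) x - A.indicator (fun _ => (1 : ℂ)) (S.T z' x) * (H : X → ℂ) x *
      (W : X → ℂ) x‖ ≤ D.indicator (fun x => B * ‖(H : X → ℂ) x‖) x := by
    filter_upwards [hW] with x hx
    have hHW : ‖(H : X → ℂ) x * (W : X → ℂ) x‖ ≤ B * ‖(H : X → ℂ) x‖ := by
      rw [norm_mul, mul_comm]
      exact mul_le_mul_of_nonneg_right hx (norm_nonneg _)
    by_cases h1 : S.T z x ∈ A <;> by_cases h2 : S.T z' x ∈ A
    · have hxD : x ∉ D := fun h => h ⟨fun _ => h2, fun _ => h1⟩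
      simp [Set.indicator_of_mem h1, Set.indicator_of_mem h2, Set.indicator_of_notMem hxD]
    · have hxD : x ∈ D := fun h => h2 (h.1 h1)
      rw [Set.indicator_of_mem h1, Set.indicator_of_notMem h2, Set.indicator_of_mem hxD]
      simpa using hHW
    · have hxD : x ∈ D := fun h => h1 (h.2 h2)
      rw [Set.indicator_of_notMem h1, Set.indicator_of_mem h2, Set.indicator_of_mem hxD]
      simpa using hHW
    · have hxD : x ∉ D := fun h => h ⟨fun h' => absurd h' h1, fun h' => absurd h' h2⟩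
      simp [Set.indicator_of_notMem h1, Set.indicator_of_notMem h2, Set.indicator_of_notMem hxD]
  refine (norm_integral_le_of_norm_le ((hint.const_mul B).indicator hD) hbound).trans ?_
  rw [integral_indicator hD, integral_const_mul]
  exact mul_le_mul_of_nonneg_left (cs H hH D) hB

end ICT

open ICT in
theorem pr_CT (hU : StCU) (hB : StCB) : StCT := by
  intro X _ μ _ S A hA G η hη
  obtain ⟨G', B, hB0, hG'B, hGG'⟩ := approx G (half_pos hη)
  obtain ⟨b1, b2, b3, b4, -, -, -⟩ := hB X inferInstance μ inferInstance S A hA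
  obtain ⟨-, -, u3⟩ := hU X inferInstance μ inferInstance S
  refine ⟨B, hB0, ?_⟩
  intro z z' y hz hz' hy H hH
  have hWB : ∀ᵐ x ∂μ, ‖((U S y G' : Lp ℂ 2 μ) : X → ℂ) x‖ ≤ B := by
    have h1 := (S.mp y hy).quasiMeasurePreserving.ae hG'B
    filter_upwards [u3 y hy G', h1] with x hx1 hx2
    rw [hx1]
    exact hx2
  have hmain := bdd S hA z z' H (U S y G') hH hB0 hWB
  have hadd : ∀ z : ℕ, bt S A z H (U S y G) = bt S A z H (U S y G') +
      bt S A z H (U S y (G - G')) := by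
    intro z
    have e : U S y G = U S y G' + U S y (G - G') := by
      rw [← map_add]
      congr 1
      abel
    rw [e, b2 z H, b3, b2 z (U S y G'), b2 z (U S y (G - G'))]
  have hsmall : ∀ z : ℕ, ‖bt S A z H (U S y (G - G'))‖ ≤ η / 2 := by
    intro z
    refine (b1 z H _).trans ?_
    rw [LinearIsometry.norm_map]
    calc ‖H‖ * ‖G - G'‖ ≤ 1 * (η / 2) := mul_le_mul hH hGG' (norm_nonneg _) zero_le_one
      _ = η / 2 := one_mul _
  have e2 : bt S A z H (U S y G) - bt S A z' H (U S y G) =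
      (bt S A z H (U S y G') - bt S A z' H (U S y G')) +
        (bt S A z H (U S y (G - G')) - bt S A z' H (U S y (G - G'))) := by
    rw [hadd z, hadd z']
    ring
  rw [e2]
  calc _ ≤ ‖bt S A z H (U S y G') - bt S A z' H (U S y G')‖ +
        ‖bt S A z H (U S y (G - G')) - bt S A z' H (U S y (G - G'))‖ := norm_add_le _ _
    _ ≤ B * Real.sqrt (dd S A z z') + (η / 2 + η / 2) :=
        add_le_add hmain ((norm_sub_le _ _).trans (add_le_add (hsmall z) (hsmall z')))
    _ = B * Real.sqrt (dd S A z z') + η := by ring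

end Pool.Agent.F0f91f8.PC
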