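import Mathlib
import Pool.Agent.Work.MP_0f91f8_co.PC.StmtsC

/-!
# Block PC, module CT, item CU: the isometries `U`
-/

set_option autoImplicit false

namespace Pool.Agent.F0f91f8.PC

open Filter Topology ComplexConjugate MeasureTheory

namespace ICU

theorem U_coe {X : Type} [MeasurableSpace X] {μ : Measure X} (S : Sys μ) (n : ℕ) (hn : 0 < n)
    (H : Lp ℂ 2 μ) : (U S n H : X → ℂ) =ᵐ[μ] fun x => (H : X → ℂ) (S.T n x) := by
  have h : U S n H = Lp.compMeasurePreserving (S.T n) (S.mp n hn) H := by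
    unfold U
    rw [dif_pos hn]
    rfl
  rw [h]
  exact Lp.coeFn_compMeasurePreserving H (S.mp n hn)

theorem U_U_coe {X : Type} [MeasurableSpace X] {μ : Measure X} (S : Sys μ) (m n : ℕ) (hm : 0 < m)
    (hn : 0 < n) (H : Lp ℂ 2 μ) :
    (U S m (U S n H) : X → ℂ) =ᵐ[μ] fun x => (H : X → ℂ) (S.T (m * n) x) := by
  have h1 := U_coe S m hm (U S n H)
  have h2 := (S.mp m hm).quasiMeasurePreserving.ae_eq_comp (U_coe S n hn H)
  refine h1.trans (h2.trans ?_)
  refine Filter.Eventually.of_forall fun x => ?_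
  show (H : X → ℂ) (S.T n (S.T m x)) = (H : X → ℂ) (S.T (m * n) x)
  rw [← S.mul n m hn hm x, Nat.mul_comm]

end ICU

open ICU

theorem pr_CU : StCU := by
  intro X mX μ hμ S
  refine ⟨fun m n hm hn H => ?_, fun m n hm hn H => ?_, fun n hn H => U_coe S n hn H⟩
  · refine Lp.ext ?_
    exact (U_coe S (m * n) (Nat.mul_pos hm hn) H).trans (U_U_coe S m n hm hn H).symm
  · refine Lp.ext ?_
    refine (U_U_coe S m n hm hn H).trans ?_
    rw [Nat.mul_comm m n]
    exact (U_U_coe S n m hn hm H).symm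

end Pool.Agent.F0f91f8.PC
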