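import Mathlib
import Pool.Agent.Work.MP_0f91f8_co.PC.StmtsC
import Pool.Agent.Work.MP_0f91f8_co.EF.Ev

/-!
# Block PC, item CV: the spectral isometry
-/

set_option autoImplicit false

namespace Pool.Agent.F0f91f8.PC

open Filter Topology ComplexConjugate MeasureTheory
open Pool.Agent.F0f91f8.HD Pool.Agent.F0f91f8.RC Pool.Agent.F0f91f8.KR Pool.Agent.F0f91f8.FC
open Pool.Agent.Work.MP_0f91f8_co.EF (GG ev)
open scoped BigOperators

namespace ICV

section
variable {Y : Type} [MeasurableSpace Y] {ν : Measure Y}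

lemma bl_eq {φ : Y → ℂ} (h : MemLp φ 2 ν) : bl ν φ = h.toLp φ := by
  unfold bl
  rw [dif_pos h]

lemma bl_ae {φ : Y → ℂ} (h : MemLp φ 2 ν) : (bl ν φ : Y → ℂ) =ᵐ[ν] φ := by
  rw [bl_eq h]
  exact h.coeFn_toLp

lemma mem_ind [IsFiniteMeasure ν] {E : Set Y} (hE : MeasurableSet E) :
    MemLp (E.indicator fun _ => (1 : ℂ)) 2 ν :=
  (memLp_const (1 : ℂ)).indicator hE

lemma b1_ae [IsFiniteMeasure ν] {E : Set Y} (hE : MeasurableSet E) :
    (b1 ν E : Y → ℂ) =ᵐ[ν] E.indicator fun _ => (1 : ℂ) := bl_ae (mem_ind hE)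

lemma bl_inner {φ ψ : Y → ℂ} (hφ : MemLp φ 2 ν) (hψ : MemLp ψ 2 ν) :
    inner ℂ (bl ν φ) (bl ν ψ) = ∫ g, ψ g * conj (φ g) ∂ν := by
  rw [L2.inner_def]
  refine integral_congr_ae ?_
  filter_upwards [bl_ae hφ, bl_ae hψ] with g h1 h2
  rw [h1, h2, RCLike.inner_apply]

lemma b1_norm_sq [IsFiniteMeasure ν] {E : Set Y} (hE : MeasurableSet E) :
    ‖b1 ν E‖ ^ 2 = ν.real E := by
  have h1 : inner ℂ (b1 ν E) (b1 ν E) = ((ν.real E : ℝ) : ℂ) := by
    unfold b1
    rw [bl_inner (mem_ind hE) (mem_ind hE)]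
    have e : ∀ g : Y, (E.indicator (fun _ => (1 : ℂ)) g) * conj (E.indicator (fun _ => (1 : ℂ)) g) =
        E.indicator (fun _ => (1 : ℂ)) g := by
      intro g
      by_cases h : g ∈ E
      · rw [Set.indicator_of_mem h, map_one, one_mul]
      · rw [Set.indicator_of_notMem h, zero_mul]
    simp_rw [e]
    rw [integral_indicator hE, setIntegral_const]
    simp
  have h2 : ((‖b1 ν E‖ ^ 2 : ℝ) : ℂ) = ((ν.real E : ℝ) : ℂ) := by
    rw [← h1, inner_self_eq_norm_sq_to_K]
    push_cast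
    rfl
  exact_mod_cast h2

end

lemma ev_cm (g : GG) : Pool.Agent.Work.MP_0f91f8_co.COL.IsCM (ev g) :=
  Pool.Agent.Work.MP_0f91f8_co.EF.Ev_pf.1 g

lemma ev_cont (n : ℕ) : Continuous fun g : GG => ev g n :=
  Pool.Agent.Work.MP_0f91f8_co.EF.Ev_pf.2.1 n

lemma ev_le (g : GG) (n : ℕ) : ‖ev g n‖ ≤ 1 := by
  rcases Nat.eq_zero_or_pos n with h | h
  · subst h
    rw [(ev_cm g).zero, norm_zero]
    exact zero_le_one
  · exact ((ev_cm g).norm n h).le

/-- `ev n φ` is in `L²` -/
lemma mem_ev {σ : Measure GG} {φ : GG → ℂ} (h : MemLp φ 2 σ) (n : ℕ) :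
    MemLp (fun g => ev g n * φ g) 2 σ := by
  refine h.of_le ((ev_cont n).aestronglyMeasurable.mul h.1) (Eventually.of_forall fun g => ?_)
  rw [norm_mul]
  exact mul_le_of_le_one_left (norm_nonneg _) (ev_le g n)

end ICV

open ICV in
theorem pr_CV (hU : StCU) : StCV := by
  intro X _ μ _ S A hA σ _ V E hE
  have hUf := (hU X _ μ ‹_› S).2.2
  -- the mass of `σ`
  have hm : σ.real Set.univ = μ.real A := by
    rw [← b1_norm_sq (ν := σ) MeasurableSet.univ, ← b1_norm_sq (ν := μ) hA, ← V.one,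
      LinearIsometry.norm_map]
  have hm1 : σ.real Set.univ ≤ 1 := by
    rw [hm]
    exact measureReal_le_one
  have hsq : ‖V.V (b1 σ E)‖ ^ 2 = σ.real E := by
    rw [LinearIsometry.norm_map, b1_norm_sq hE]
  have hle : ‖V.V (b1 σ E)‖ ≤ 1 := by
    have h1 : σ.real E ≤ σ.real Set.univ := measureReal_mono (Set.subset_univ _)
    have h2 : ‖V.V (b1 σ E)‖ ^ 2 ≤ 1 := by
      rw [hsq]
      exact h1.trans hm1
    nlinarith [norm_nonneg (V.V (b1 σ E))]
  have hmul : ∀ E' : Set GG, MeasurableSet E' → ∀ n : ℕ, 0 < n →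
      U S n (V.V (b1 σ E')) = V.V (bl σ fun g => ev g n * E'.indicator (fun _ => 1) g) := by
    intro E' hE' n hn
    exact (V.mul n hn _ (mem_ind hE')).symm
  have hin : ∀ a b : ℕ, 0 < a → 0 < b →
      inner ℂ (U S a (V.V (b1 σ E))) (U S b (V.V (b1 σ E))) =
        ∫ g in E, ev g b * conj (ev g a) ∂σ := by
    intro a b ha hb
    rw [hmul E hE a ha, hmul E hE b hb, LinearIsometry.inner_map_map,
      bl_inner (mem_ev (mem_ind hE) a) (mem_ev (mem_ind hE) b), ← integral_indicator hE]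
    refine integral_congr_ae (Eventually.of_forall fun g => ?_)
    by_cases h : g ∈ E
    · simp only [Set.indicator_of_mem h, mul_one]
    · simp only [Set.indicator_of_notMem h, mul_zero, zero_mul]
  have hdd : ∀ a b : ℕ, 0 < a → 0 < b →
      ‖U S a (b1 μ A) - U S b (b1 μ A)‖ = Real.sqrt (dd S A a b) := by
    intro a b ha hb
    set D : Set X := {x | ¬(S.T a x ∈ A ↔ S.T b x ∈ A)} with hD
    have hDm : MeasurableSet D := by
      have h1 : MeasurableSet {x | S.T a x ∈ A} := (S.T a).measurable hA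
      have h2 : MeasurableSet {x | S.T b x ∈ A} := (S.T b).measurable hA
      exact (h1.iff h2).compl
    have hval : ∀ n : ℕ, 0 < n → (U S n (b1 μ A) : X → ℂ) =ᵐ[μ]
        fun x => A.indicator (fun _ => (1 : ℂ)) (S.T n x) := by
      intro n hn
      have h1 := hUf n hn (b1 μ A)
      have h2 := (S.mp n hn).quasiMeasurePreserving.ae_eq_comp (b1_ae (ν := μ) hA)
      exact h1.trans h2
    have hnorm : ‖U S a (b1 μ A) - U S b (b1 μ A)‖ = ‖b1 μ D‖ := by
      have hae : ∀ᵐ x ∂μ, ‖(U S a (b1 μ A) - U S b (b1 μ A) : Lp ℂ 2 μ) x‖ =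
          ‖(b1 μ D : X → ℂ) x‖ := by
        filter_upwards [Lp.coeFn_sub (U S a (b1 μ A)) (U S b (b1 μ A)), hval a ha, hval b hb,
          b1_ae (ν := μ) hDm] with x h1 h2 h3 h4
        rw [h1, Pi.sub_apply, h2, h3, h4]
        by_cases ha' : S.T a x ∈ A
        · by_cases hb' : S.T b x ∈ A
          · have h5 : x ∉ D := fun h => h ⟨fun _ => hb', fun _ => ha'⟩
            rw [Set.indicator_of_mem ha', Set.indicator_of_mem hb', Set.indicator_of_notMem h5,
              sub_self]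
          · have h5 : x ∈ D := fun h => hb' (h.1 ha')
            rw [Set.indicator_of_mem ha', Set.indicator_of_notMem hb', Set.indicator_of_mem h5,
              sub_zero]
        · by_cases hb' : S.T b x ∈ A
          · have h5 : x ∈ D := fun h => ha' (h.2 hb')
            rw [Set.indicator_of_notMem ha', Set.indicator_of_mem hb', Set.indicator_of_mem h5,
              zero_sub, norm_neg]
          · have h5 : x ∉ D := fun h => h ⟨fun h' => absurd h' ha', fun h' => absurd h' hb'⟩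
            rw [Set.indicator_of_notMem ha', Set.indicator_of_notMem hb',
              Set.indicator_of_notMem h5, sub_self]
      exact le_antisymm (Lp.norm_le_norm_of_ae_le (hae.mono fun x h => h.le))
        (Lp.norm_le_norm_of_ae_le (hae.mono fun x h => h.ge))
    rw [hnorm, show dd S A a b = μ.real D from rfl, ← b1_norm_sq hDm, Real.sqrt_sq (norm_nonneg _)]
  refine ⟨hm1, hle, hsq, hmul E hE, hin, ?_, hdd⟩
  intro a b ha hb
  have h1 : ∀ n : ℕ, 0 < n → U S n (b1 μ A) =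
      V.V (bl σ fun g => ev g n * Set.univ.indicator (fun _ => 1) g) := fun n hn =>
    (congrArg (U S n) V.one.symm).trans (hmul Set.univ MeasurableSet.univ n hn)
  rw [← hdd a b ha hb, h1 a ha, h1 b hb, hmul E hE a ha, hmul E hE b hb, ← map_sub, ← map_sub,
    LinearIsometry.norm_map, LinearIsometry.norm_map]
  refine Lp.norm_le_norm_of_ae_le ?_
  filter_upwards [Lp.coeFn_sub (bl σ fun g => ev g a * E.indicator (fun _ => 1) g)
      (bl σ fun g => ev g b * E.indicator (fun _ => 1) g),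
    Lp.coeFn_sub (bl σ fun g => ev g a * Set.univ.indicator (fun _ => 1) g)
      (bl σ fun g => ev g b * Set.univ.indicator (fun _ => 1) g),
    bl_ae (mem_ev (mem_ind (ν := σ) hE) a), bl_ae (mem_ev (mem_ind (ν := σ) hE) b),
    bl_ae (mem_ev (mem_ind (ν := σ) MeasurableSet.univ) a),
    bl_ae (mem_ev (mem_ind (ν := σ) MeasurableSet.univ) b)] with g h1 h2 h3 h4 h5 h6
  rw [h1, h2, Pi.sub_apply, Pi.sub_apply, h3, h4, h5, h6]
  by_cases h : g ∈ E
  · rw [Set.indicator_of_mem h, Set.indicator_of_mem (Set.mem_univ g)]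
  · rw [Set.indicator_of_notMem h, mul_zero, mul_zero, sub_zero, norm_zero]
    exact norm_nonneg _

end Pool.Agent.F0f91f8.PC
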