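import Pool.Agent.Work.MP_0f91f8_co.FC.AllS
import Pool.Agent.Work.MP_0f91f8_co.PC.I_CAd
import Pool.Agent.Work.MP_0f91f8_co.PC.I_CAv
import Pool.Agent.Work.MP_0f91f8_co.PC.I_CB
import Pool.Agent.Work.MP_0f91f8_co.PC.I_CBs
import Pool.Agent.Work.MP_0f91f8_co.PC.I_CDc
import Pool.Agent.Work.MP_0f91f8_co.PC.I_CDm
import Pool.Agent.Work.MP_0f91f8_co.PC.I_CFi
import Pool.Agent.Work.MP_0f91f8_co.PC.I_CFn
import Pool.Agent.Work.MP_0f91f8_co.PC.I_CFx
import Pool.Agent.Work.MP_0f91f8_co.PC.I_CGm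
import Pool.Agent.Work.MP_0f91f8_co.PC.I_CId
import Pool.Agent.Work.MP_0f91f8_co.PC.I_CMs
import Pool.Agent.Work.MP_0f91f8_co.PC.I_CPb
import Pool.Agent.Work.MP_0f91f8_co.PC.I_CPt
import Pool.Agent.Work.MP_0f91f8_co.PC.I_CRp
import Pool.Agent.Work.MP_0f91f8_co.PC.I_CRq
import Pool.Agent.Work.MP_0f91f8_co.PC.I_CSl
import Pool.Agent.Work.MP_0f91f8_co.PC.I_CT
import Pool.Agent.Work.MP_0f91f8_co.PC.I_CU
import Pool.Agent.Work.MP_0f91f8_co.PC.I_CV
import Pool.Agent.Work.MP_0f91f8_co.PC.I_CWp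

/-!
# Block PC, module CT: composition
-/

set_option autoImplicit false

namespace Pool.Agent.F0f91f8.PC

theorem all_CB : StCB := pr_CB pr_CU
theorem all_CT : StCT := pr_CT pr_CU all_CB
theorem all_CV : StCV := pr_CV pr_CU
theorem all_Mas : MasS := pr_CMs FC.pr_Rh
theorem all_Slt : SltS := pr_CSl pr_CU all_CB all_CV pr_CBs all_Mas
theorem all_Gam : GamS := pr_CGm pr_CId pr_CPb
theorem all_Wp : WtP := pr_CWp FC.pr_Rh
theorem all_RepQ : RepQ := pr_CRp pr_CU all_CV pr_CDc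
theorem all_DomQ : DomQ := pr_CDm FC.all_SB pr_CAd pr_CRq
theorem all_CFx : StCFx := pr_CFx pr_CU all_CB all_CV all_Wp all_Mas all_Slt
theorem all_CPt : StCPt := pr_CPt pr_CU all_CB all_CV pr_CDc all_RepQ
theorem all_CFn : StCFn := pr_CFn all_DomQ all_CFx
theorem all_CAv : StCAv := pr_CAv pr_CU all_CB all_CV all_CPt all_CFn

/-- module CT, from the rarity of the bad members -/
theorem ContS_of (hG : GoodS) : ContS := pr_CFi all_CT all_CV all_CAv hG all_Gam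

end Pool.Agent.F0f91f8.PC
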