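import Pool.Agent.Work.MP_0f91f8_co.PC.StmtsV

/-!
# Block PC, module V, item VDe: approximate spectral measures, complex functions
-/

set_option autoImplicit false

namespace Pool.Agent.F0f91f8.PC

open Filter Topology ComplexConjugate MeasureTheory
open Pool.Agent.F0f91f8.HD Pool.Agent.F0f91f8.RC Pool.Agent.F0f91f8.KR Pool.Agent.F0f91f8.FC
open Pool.Agent.Work.MP_0f91f8_co.EF (GG ev ct IsFo S_Ev S_Haar S_Fol S_Cnt S_Chr)
open scoped BigOperators

namespace XVDe

/-- the kernel sum -/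
noncomputable def Ps (c : ℕ → ℕ → ℂ) (F : Finset ℕ) (g : GG) : ℂ :=
  ∑ k ∈ F, ∑ l ∈ F, conj (ev g k) * ev g l * c k l

/-- the density -/
noncomputable def P (c : ℕ → ℕ → ℂ) (F : Finset ℕ) (g : GG) : ℝ := (Ps c F g).re / (F.card : ℝ)

theorem Ps_real {c : ℕ → ℕ → ℂ} (h : IsPC c) (F : Finset ℕ) (hF : ∀ a ∈ F, 0 < a)
    (g : GG) : 0 ≤ (Ps c F g).re ∧ Ps c F g = (((Ps c F g).re : ℝ) : ℂ) := by
  obtain ⟨s, hs, he⟩ := h.psd F hF (fun k => conj (ev g k))
  have h1 : Ps c F g = (s : ℂ) := by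
    rw [← he]
    unfold Ps
    refine Finset.sum_congr rfl fun k _ => Finset.sum_congr rfl fun l _ => ?_
    rw [Complex.conj_conj]
  rw [h1, Complex.ofReal_re]
  exact ⟨hs, rfl⟩

theorem P_nonneg {c : ℕ → ℕ → ℂ} (h : IsPC c) (F : Finset ℕ) (hF : ∀ a ∈ F, 0 < a)
    (g : GG) : 0 ≤ P c F g :=
  div_nonneg (Ps_real h F hF g).1 (Nat.cast_nonneg _)

theorem P_eq {c : ℕ → ℕ → ℂ} (h : IsPC c) (F : Finset ℕ) (hF : ∀ a ∈ F, 0 < a)
    (g : GG) : ((P c F g : ℝ) : ℂ) = Ps c F g / (F.card : ℂ) := by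
  unfold P
  rw [Complex.ofReal_div, ← (Ps_real h F hF g).2]
  simp

theorem Ps_cont (hEv : S_Ev) (c : ℕ → ℕ → ℂ) (F : Finset ℕ) : Continuous (Ps c F) := by
  unfold Ps
  refine continuous_finsetSum _ fun k _ => continuous_finsetSum _ fun l _ => ?_
  exact ((Complex.continuous_conj.comp (hEv.2.1 k)).mul (hEv.2.1 l)).mul continuous_const

theorem P_cont (hEv : S_Ev) (c : ℕ → ℕ → ℂ) (F : Finset ℕ) : Continuous (P c F) := by
  unfold P
  exact (Complex.continuous_re.comp (Ps_cont hEv c F)).div_const _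

theorem ev_int (hEv : S_Ev) (ν : Measure GG) [IsProbabilityMeasure ν] (a b : ℕ) (ha : 0 < a)
    (hb : 0 < b) : Integrable (fun g : GG => ev g a * conj (ev g b)) ν := by
  refine (integrable_const (1 : ℝ)).mono'
    ((hEv.2.1 a).mul (Complex.continuous_conj.comp (hEv.2.1 b))).aestronglyMeasurable
    (Eventually.of_forall fun g => ?_)
  rw [norm_mul, RCLike.norm_conj, (hEv.1 g).norm a ha, (hEv.1 g).norm b hb, one_mul]

/-- the integral against the density -/
theorem key (hEv : S_Ev) {c : ℕ → ℕ → ℂ} (h : IsPC c) (F : Finset ℕ)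
    (hF : ∀ a ∈ F, 0 < a) (ν : Measure GG) [IsProbabilityMeasure ν]
    (hν : ∀ a b : ℕ, 0 < a → 0 < b →
      ∫ g, ev g a * conj (ev g b) ∂ν = if a = b then 1 else 0) (a b : ℕ) (ha : 0 < a)
    (hb : 0 < b) :
    ∫ g, ((P c F g : ℝ) : ℂ) * (ev g a * conj (ev g b)) ∂ν =
      c a b * ((ct F a b : ℝ) : ℂ) := by
  have h1 : ∀ g : GG, ((P c F g : ℝ) : ℂ) * (ev g a * conj (ev g b)) =
      (F.card : ℂ)⁻¹ * ∑ k ∈ F, ∑ l ∈ F, c k l *
        (ev g (a * l) * conj (ev g (b * k))) := by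
    intro g
    rw [P_eq h F hF, Ps, div_eq_inv_mul, mul_assoc, Finset.sum_mul]
    congr 1
    refine Finset.sum_congr rfl fun k _ => ?_
    rw [Finset.sum_mul]
    refine Finset.sum_congr rfl fun l _ => ?_
    rw [(hEv.1 g).mul, (hEv.1 g).mul, map_mul]
    ring
  simp only [h1]
  rw [integral_const_mul]
  have h2 : ∫ g, ∑ k ∈ F, ∑ l ∈ F, c k l *
      (ev g (a * l) * conj (ev g (b * k))) ∂ν =
      ∑ k ∈ F, ∑ l ∈ F, c k l * (if a * l = b * k then 1 else 0) := by
    rw [integral_finset_sum _ fun k hk => integrable_finset_sum _ fun l hl =>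
      (ev_int hEv ν _ _ (Nat.mul_pos ha (hF l hl)) (Nat.mul_pos hb (hF k hk))).const_mul _]
    refine Finset.sum_congr rfl fun k hk => ?_
    rw [integral_finset_sum _ fun l hl =>
      (ev_int hEv ν _ _ (Nat.mul_pos ha (hF l hl)) (Nat.mul_pos hb (hF k hk))).const_mul _]
    refine Finset.sum_congr rfl fun l hl => ?_
    rw [integral_const_mul, hν _ _ (Nat.mul_pos ha (hF l hl)) (Nat.mul_pos hb (hF k hk))]
  rw [h2]
  have h3 : ∑ k ∈ F, ∑ l ∈ F, c k l * (if a * l = b * k then 1 else 0) =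
      c a b * (((F ×ˢ F).filter fun k : ℕ × ℕ => a * k.2 = b * k.1).card : ℂ) := by
    rw [← Finset.sum_product' F F (fun k l => c k l *
      (if a * l = b * k then (1 : ℂ) else 0)), Finset.card_filter]
    push_cast
    rw [Finset.mul_sum]
    refine Finset.sum_congr rfl fun p hp => ?_
    rw [Finset.mem_product] at hp
    by_cases he : a * p.2 = b * p.1
    · rw [if_pos he]
      have hk := hF p.1 hp.1
      have hl := hF p.2 hp.2
      have e1 : c p.1 p.2 = c a b := by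
        calc c p.1 p.2 = c (b * p.1) (b * p.2) := (h.hom b _ _ hb hk hl).symm
          _ = c (a * p.2) (b * p.2) := by rw [he]
          _ = c (p.2 * a) (p.2 * b) := by rw [mul_comm a, mul_comm b]
          _ = c a b := h.hom _ _ _ hl ha hb
      rw [e1]
    · rw [if_neg he, mul_zero, mul_zero]
  rw [h3]
  unfold ct
  push_cast
  ring

end XVDe

theorem pr_VDe (hEv : S_Ev) (hH : S_Haar) : StVDe := by
  intro c h F hne hF
  obtain ⟨ν, hprob, hν⟩ := hH
  have hPc := XVDe.P_cont hEv c F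
  have hPm : Measurable (fun g : GG => ENNReal.ofReal (XVDe.P c F g)) :=
    hPc.measurable.ennreal_ofReal
  have hPint : Integrable (XVDe.P c F) ν := by
    obtain ⟨C, hC⟩ := isCompact_univ.exists_bound_of_continuousOn hPc.continuousOn
    exact (integrable_const C).mono' hPc.aestronglyMeasurable
      (Eventually.of_forall fun g => hC g (Set.mem_univ g))
  refine ⟨ν.withDensity fun g => ENNReal.ofReal (XVDe.P c F g), ?_, fun a b ha hb => ?_⟩
  · exact isFiniteMeasure_withDensity_ofReal hPint.2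
  · rw [integral_withDensity_eq_integral_toReal_smul hPm
      (Eventually.of_forall fun g => ENNReal.ofReal_lt_top)]
    rw [← XVDe.key hEv h F hF ν hν a b ha hb]
    refine integral_congr_ae (Eventually.of_forall fun g => ?_)
    simp only
    rw [ENNReal.toReal_ofReal (XVDe.P_nonneg h F hF g), Complex.real_smul]

end Pool.Agent.F0f91f8.PC
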