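import Pool.Agent.Work.MP_0f91f8_co.PC.StmtsV

/-! Block PC, item VGi: families with the same Gram matrix. -/

set_option autoImplicit false

namespace Pool.Agent.F0f91f8.PC

open Filter Topology ComplexConjugate MeasureTheory
open scoped BigOperators

theorem pr_VGi : StVGi := by
  intro I L H _ _ _ _ _ _ φ u hg hd
  classical
  let e : (I →₀ ℂ) →ₗ[ℂ] L := Finsupp.linearCombination ℂ φ
  let f : (I →₀ ℂ) →ₗ[ℂ] H := Finsupp.linearCombination ℂ u
  have hdense : DenseRange e := by
    have h : Set.range e = ((Submodule.span ℂ (Set.range φ) : Submodule ℂ L) : Set L) := by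
      rw [← Finsupp.range_linearCombination]
      rfl
    unfold DenseRange
    rw [h]
    exact Submodule.dense_iff_topologicalClosure_eq_top.2 hd
  have hinner : ∀ c, inner ℂ (e c) (e c) = inner ℂ (f c) (f c) := by
    intro c
    simp only [e, f, Finsupp.linearCombination_apply, Finsupp.sum, sum_inner, inner_sum,
      inner_smul_left, inner_smul_right, hg]
  have hnorm : ∀ c, ‖f c‖ = ‖e c‖ := by
    intro c
    have h := congrArg Complex.re (hinner c)
    have h1 : (inner ℂ (e c) (e c)).re = ‖e c‖ ^ 2 := by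
      rw [← inner_self_eq_norm_sq (𝕜 := ℂ)]; rfl
    have h2 : (inner ℂ (f c) (f c)).re = ‖f c‖ ^ 2 := by
      rw [← inner_self_eq_norm_sq (𝕜 := ℂ)]; rfl
    rw [h1, h2] at h
    exact ((sq_eq_sq₀ (norm_nonneg _) (norm_nonneg _)).1 h).symm
  let V : L →L[ℂ] H := f.extendOfNorm e
  have hV : ∀ c, V (e c) = f c := fun c =>
    LinearMap.extendOfNorm_eq hdense ⟨1, fun x => by rw [hnorm, one_mul]⟩ c
  have hVn : ∀ x, ‖V x‖ = ‖x‖ := by
    intro x
    have hcl : IsClosed {x | ‖V x‖ = ‖x‖} := isClosed_eq (V.continuous.norm) continuous_norm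
    refine hdense.induction_on x hcl fun c => ?_
    rw [hV, hnorm]
  refine ⟨⟨V.toLinearMap, hVn⟩, fun i => ?_⟩
  have h := hV (Finsupp.single i 1)
  have he : e (Finsupp.single i 1) = φ i := by
    simp [e, Finsupp.linearCombination_single]
  have hf : f (Finsupp.single i 1) = u i := by
    simp [f, Finsupp.linearCombination_single]
  rw [he, hf] at h
  exact h

end Pool.Agent.F0f91f8.PC
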