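import Pool.Agent.Work.MP_0f91f8_co.PC.StmtsV

/-!
# [VJ]: the invariant part (block PC of MP_0f91f8_co)
-/

set_option autoImplicit false

namespace Pool.Agent.F0f91f8.PC

open Filter Topology ComplexConjugate MeasureTheory
open Pool.Agent.F0f91f8.HD Pool.Agent.F0f91f8.RC Pool.Agent.F0f91f8.KR Pool.Agent.F0f91f8.FC
open Pool.Agent.Work.MP_0f91f8_co.EF (GG ev ct IsFo S_Ev S_Haar S_Fol S_Cnt S_Chr)
open scoped BigOperators

namespace XVJ

section
variable {Y : Type} [MeasurableSpace Y]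

theorem bl_eq (ν : Measure Y) {φ : Y → ℂ} (h : MemLp φ 2 ν) : bl ν φ = h.toLp φ := by
  unfold bl
  rw [dif_pos h]

theorem bl_coe (ν : Measure Y) {φ : Y → ℂ} (h : MemLp φ 2 ν) : (bl ν φ : Y → ℂ) =ᵐ[ν] φ := by
  rw [bl_eq ν h]
  exact h.coeFn_toLp

theorem norm_sq_L2 (ν : Measure Y) (f : Lp ℂ 2 ν) : ‖f‖ ^ 2 = ∫ x, ‖f x‖ ^ 2 ∂ν := by
  have h1 : (inner ℂ f f : ℂ) = ∫ x, (inner ℂ (f x) (f x) : ℂ) ∂ν := L2.inner_def f f
  have h2 : ∀ x, (inner ℂ (f x) (f x) : ℂ) = ((‖f x‖ ^ 2 : ℝ) : ℂ) := fun x => by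
    rw [inner_self_eq_norm_sq_to_K]
    norm_cast
  rw [inner_self_eq_norm_sq_to_K] at h1
  simp only [h2] at h1
  rw [integral_complex_ofReal] at h1
  have h3 : ((‖f‖ ^ 2 : ℝ) : ℂ) = ((∫ x, ‖f x‖ ^ 2 ∂ν : ℝ) : ℂ) := by
    rw [← h1]
    push_cast
    rfl
  exact Complex.ofReal_injective h3

theorem norm_sub_sq (ν : Measure Y) (f g : Lp ℂ 2 ν) (φ ψ : Y → ℂ) (hf : (f : Y → ℂ) =ᵐ[ν] φ)
    (hg : (g : Y → ℂ) =ᵐ[ν] ψ) : ‖f - g‖ ^ 2 = ∫ x, ‖φ x - ψ x‖ ^ 2 ∂ν := by
  rw [norm_sq_L2]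
  refine integral_congr_ae ?_
  filter_upwards [Lp.coeFn_sub f g, hf, hg] with x h1 h2 h3
  rw [h1, Pi.sub_apply, h2, h3]

theorem mem_bdd (ν : Measure Y) [IsFiniteMeasure ν] {φ : Y → ℂ} (hm : Measurable φ) (C : ℝ)
    (hC : ∀ y, ‖φ y‖ ≤ C) : MemLp φ 2 ν :=
  MemLp.of_bound hm.aestronglyMeasurable C (Eventually.of_forall hC)

theorem mem_ind (ν : Measure Y) [IsFiniteMeasure ν] {E : Set Y} (hE : MeasurableSet E) :
    MemLp (E.indicator fun _ => (1 : ℂ)) 2 ν := by
  refine mem_bdd ν (measurable_const.indicator hE) 1 fun y => ?_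
  by_cases h : y ∈ E
  · rw [Set.indicator_of_mem h, norm_one]
  · rw [Set.indicator_of_notMem h, norm_zero]
    exact zero_le_one

theorem bl_sum (ν : Measure Y) (F : Finset ℕ) (φ : ℕ → Y → ℂ) (h : ∀ a ∈ F, MemLp (φ a) 2 ν) :
    MemLp (fun y => ∑ a ∈ F, φ a y) 2 ν ∧
      bl ν (fun y => ∑ a ∈ F, φ a y) = ∑ a ∈ F, bl ν (φ a) := by
  classical
  induction F using Finset.induction_on with
  | empty =>
    have h0 : MemLp (fun y : Y => ∑ a ∈ (∅ : Finset ℕ), φ a y) 2 ν := by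
      simp only [Finset.sum_empty]
      exact MemLp.zero
    refine ⟨h0, ?_⟩
    rw [bl_eq ν h0, Finset.sum_empty]
    apply Lp.ext
    filter_upwards [h0.coeFn_toLp, Lp.coeFn_zero ℂ 2 ν] with y h1 h2
    rw [h1, h2, Finset.sum_empty, Pi.zero_apply]
  | insert a F ha ih =>
    obtain ⟨h1, h2⟩ := ih fun b hb => h b (Finset.mem_insert_of_mem hb)
    have h3 := h a (Finset.mem_insert_self a F)
    have e : (fun y => ∑ b ∈ insert a F, φ b y) = (φ a) + fun y => ∑ b ∈ F, φ b y := by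
      funext y
      rw [Finset.sum_insert ha, Pi.add_apply]
    have h4 : MemLp ((φ a) + fun y => ∑ b ∈ F, φ b y) 2 ν := h3.add h1
    rw [e, Finset.sum_insert ha]
    refine ⟨h4, ?_⟩
    rw [bl_eq ν h4, MemLp.toLp_add h3 h1, ← bl_eq ν h3, ← bl_eq ν h1, h2]

theorem bl_smul (ν : Measure Y) (c : ℂ) {φ : Y → ℂ} (h : MemLp φ 2 ν) :
    MemLp (c • φ) 2 ν ∧ bl ν (c • φ) = c • bl ν φ := by
  refine ⟨h.const_smul c, ?_⟩
  rw [bl_eq ν (h.const_smul c), MemLp.toLp_const_smul c h, bl_eq ν h]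

end

/-- the mean of the characters -/
noncomputable def ps (F : Finset ℕ) (g : GG) : ℂ := ((F.card : ℂ))⁻¹ * ∑ a ∈ F, ev g a

theorem norm_ev_le (hEv : S_Ev) (g : GG) (n : ℕ) : ‖ev g n‖ ≤ 1 := by
  rcases Nat.eq_zero_or_pos n with h | h
  · rw [h, (hEv.1 g).zero, norm_zero]
    exact zero_le_one
  · rw [(hEv.1 g).norm n h]

theorem ps_le (hEv : S_Ev) (F : Finset ℕ) (hne : F.Nonempty) (g : GG) : ‖ps F g‖ ≤ 1 := by
  have hc : (0 : ℝ) < F.card := by exact_mod_cast hne.card_pos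
  have h2 : ‖∑ a ∈ F, ev g a‖ ≤ F.card := by
    refine (norm_sum_le _ _).trans ?_
    calc ∑ a ∈ F, ‖ev g a‖ ≤ ∑ _a ∈ F, (1 : ℝ) :=
          Finset.sum_le_sum fun a _ => norm_ev_le hEv g a
      _ = F.card := by simp
  unfold ps
  rw [norm_mul, norm_inv, Complex.norm_natCast, inv_mul_le_iff₀ hc, mul_one]
  exact h2

theorem ps_cont (hEv : S_Ev) (F : Finset ℕ) : Continuous (ps F) := by
  unfold ps
  exact continuous_const.mul (continuous_finsetSum _ fun a _ => hEv.2.1 a)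

theorem ps_meas (hEv : S_Ev) (F : Finset ℕ) : Measurable (ps F) := (ps_cont hEv F).measurable

section
variable {X : Type} [MeasurableSpace X] {μ : Measure X}

theorem V_ev (S : Sys μ) (G : Lp ℂ 2 μ) (σ : Measure GG) [IsFiniteMeasure σ]
    (V : SpV S G σ) (a : ℕ) (ha : 0 < a) : V.V (bl σ fun g => ev g a) = U S a G := by
  have h1 : MemLp ((Set.univ : Set GG).indicator fun _ => (1 : ℂ)) 2 σ :=
    mem_ind σ MeasurableSet.univ
  have h2 := V.mul a ha _ h1
  have h3 := V.one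
  unfold b1 at h3
  rw [h3] at h2
  rw [← h2]
  congr 2
  funext g
  rw [Set.indicator_of_mem (Set.mem_univ g), mul_one]

theorem mem_ev (hEv : S_Ev) (σ : Measure GG) [IsFiniteMeasure σ] (a : ℕ) :
    MemLp (fun g => ev g a) 2 σ :=
  mem_bdd σ (hEv.2.1 a).measurable 1 fun g => norm_ev_le hEv g a

theorem V_av (hEv : S_Ev) (S : Sys μ) (G : Lp ℂ 2 μ) (σ : Measure GG) [IsFiniteMeasure σ]
    (V : SpV S G σ) (F : Finset ℕ) (hF : ∀ a ∈ F, 0 < a) :
    V.V (bl σ (ps F)) = ((F.card : ℂ))⁻¹ • ∑ a ∈ F, U S a G := by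
  obtain ⟨h1, h2⟩ := bl_sum σ F (fun a g => ev g a) fun a _ => mem_ev hEv σ a
  obtain ⟨h3, h4⟩ := bl_smul σ ((F.card : ℂ))⁻¹ h1
  have e : ps F = ((F.card : ℂ))⁻¹ • fun g : GG => ∑ a ∈ F, ev g a := by
    funext g
    rfl
  rw [e, h4, h2, map_smul, map_sum]
  congr 1
  exact Finset.sum_congr rfl fun a ha => V_ev S G σ V a (hF a ha)

/-- the average of the functions `1_A ∘ T a` is the class of `av` -/
theorem av_coe [IsFiniteMeasure μ] (hUn : StVUn) (S : Sys μ) {A : Set X} (hA : MeasurableSet A)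
    (F : Finset ℕ) (hF : ∀ a ∈ F, 0 < a) :
    ((((F.card : ℂ))⁻¹ • ∑ a ∈ F, U S a (b1 μ A) : Lp ℂ 2 μ) : X → ℂ) =ᵐ[μ]
      fun x => ((av S A F x : ℝ) : ℂ) := by
  have hU := (hUn X _ μ S).2.2.2.2.2
  have e1 : ∑ a ∈ F, U S a (b1 μ A) = ∑ a ∈ F, b1 μ {x | S.T a x ∈ A} :=
    Finset.sum_congr rfl fun a ha => hU a A (hF a ha) hA inferInstance
  have hm : ∀ a, MeasurableSet {x | S.T a x ∈ A} := fun a => (S.T a).measurable hA
  obtain ⟨h1, h2⟩ := bl_sum μ F (fun a => ({x | S.T a x ∈ A} : Set X).indicator fun _ => (1 : ℂ))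
    fun a _ => mem_ind μ (hm a)
  obtain ⟨h3, h4⟩ := bl_smul μ ((F.card : ℂ))⁻¹ h1
  have e2 : (∑ a ∈ F, b1 μ {x | S.T a x ∈ A}) = ∑ a ∈ F,
      bl μ (({x | S.T a x ∈ A} : Set X).indicator fun _ => (1 : ℂ)) := rfl
  rw [e1, e2, ← h2, ← h4]
  filter_upwards [bl_coe μ h3] with x hx
  rw [hx, Pi.smul_apply]
  unfold av
  rw [Complex.ofReal_div, Complex.ofReal_sum, smul_eq_mul, inv_mul_eq_div, Complex.ofReal_natCast]
  congr 1
  refine Finset.sum_congr rfl fun a _ => ?_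
  by_cases h : S.T a x ∈ A
  · rw [Set.indicator_of_mem (show x ∈ {x | S.T a x ∈ A} from h), Set.indicator_of_mem h,
      Complex.ofReal_one]
  · rw [Set.indicator_of_notMem (show x ∉ {x | S.T a x ∈ A} from h), Set.indicator_of_notMem h,
      Complex.ofReal_zero]

end

/-- the characters converge -/
theorem lim_ps (hEv : S_Ev) (hChr : S_Chr) (σ : Measure GG) [IsFiniteMeasure σ]
    (F : ℕ → Finset ℕ) (hF : IsFo F) :
    Tendsto (fun j => ∫ g, ‖ps (F j) g - ({1} : Set GG).indicator (fun _ => (1 : ℂ)) g‖ ^ 2 ∂σ)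
      atTop (𝓝 0) := by
  have hm1 : MeasurableSet ({1} : Set GG) := isClosed_singleton.measurableSet
  have hlim : Tendsto
      (fun j => ∫ g, ‖ps (F j) g - ({1} : Set GG).indicator (fun _ => (1 : ℂ)) g‖ ^ 2 ∂σ)
      atTop (𝓝 (∫ _g, (0 : ℝ) ∂σ)) := by
    refine tendsto_integral_of_dominated_convergence (fun _ => (4 : ℝ)) ?_ ?_ ?_ ?_
    · intro j
      exact (((ps_meas hEv (F j)).sub (measurable_const.indicator hm1)).norm.pow_const
        2).aestronglyMeasurable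
    · exact integrable_const _
    · intro j
      refine Eventually.of_forall fun g => ?_
      have h1 := ps_le hEv (F j) (hF.ne j) g
      have h2 : ‖({1} : Set GG).indicator (fun _ => (1 : ℂ)) g‖ ≤ 1 := by
        by_cases h : g ∈ ({1} : Set GG)
        · rw [Set.indicator_of_mem h, norm_one]
        · rw [Set.indicator_of_notMem h, norm_zero]
          exact zero_le_one
      have h3 : ‖ps (F j) g - ({1} : Set GG).indicator (fun _ => (1 : ℂ)) g‖ ≤ 2 :=
        (norm_sub_le _ _).trans (by linarith)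
      rw [Real.norm_of_nonneg (by positivity)]
      have h4 := norm_nonneg (ps (F j) g - ({1} : Set GG).indicator (fun _ => (1 : ℂ)) g)
      nlinarith
    · refine Eventually.of_forall fun g => ?_
      by_cases h : g = 1
      · have e : ∀ j, ‖ps (F j) g - ({1} : Set GG).indicator (fun _ => (1 : ℂ)) g‖ ^ 2 = 0 := by
          intro j
          have hc : ((F j).card : ℂ) ≠ 0 := by
            exact_mod_cast (hF.ne j).card_pos.ne'
          have e1 : ∑ a ∈ F j, ev g a = (F j).card := by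
            rw [h, Finset.sum_congr rfl fun a ha => hEv.2.2.1 a (hF.pos j a ha)]
            rw [Finset.sum_const, nsmul_eq_mul, mul_one]
          unfold ps
          rw [e1, inv_mul_cancel₀ hc, Set.indicator_of_mem (by rw [h]; exact Set.mem_singleton 1),
            sub_self, norm_zero]
          norm_num
        simp only [e]
        exact tendsto_const_nhds
      · have h5 := hChr F hF g
        rw [Set.indicator_of_notMem (by rw [Set.mem_singleton_iff]; exact h)] at h5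
        refine h5.congr fun j => ?_
        rw [Set.indicator_of_notMem (by rw [Set.mem_singleton_iff]; exact h), sub_zero]
        unfold ps
        rw [norm_mul, norm_inv, Complex.norm_natCast, mul_pow, inv_pow, inv_mul_eq_div]
  rw [integral_zero] at hlim
  exact hlim

/-- the truncation is the nearest point of the interval -/
theorem clamp_le (z : ℂ) (t : ℝ) (h0 : 0 ≤ t) (h1 : t ≤ 1) :
    ‖z - ((max 0 (min 1 z.re) : ℝ) : ℂ)‖ ^ 2 ≤ ‖(t : ℂ) - z‖ ^ 2 := by
  rw [← Complex.normSq_eq_norm_sq, ← Complex.normSq_eq_norm_sq, Complex.normSq_apply,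
    Complex.normSq_apply]
  simp only [Complex.sub_re, Complex.sub_im, Complex.ofReal_re, Complex.ofReal_im]
  have h2 : (z.re - max 0 (min 1 z.re)) * (z.re - max 0 (min 1 z.re)) ≤
      (t - z.re) * (t - z.re) := by
    rcases le_total z.re 0 with h | h
    · rw [min_eq_right (by linarith), max_eq_left h]
      nlinarith
    · rcases le_total z.re 1 with h' | h'
      · rw [min_eq_right h', max_eq_right h]
        nlinarith [mul_self_nonneg (t - z.re)]
      · rw [min_eq_left h', max_eq_right zero_le_one]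
        nlinarith
  nlinarith

end XVJ

/-- [VJ] -/
theorem pr_VJ (hEv : S_Ev) (hFol : S_Fol) (hChr : S_Chr) (hUn : StVUn) : StVJ := by
  intro X _ μ _ S A hA σ _ V
  have hm1 : MeasurableSet ({1} : Set GG) := isClosed_singleton.measurableSet
  have hind : MemLp (({1} : Set GG).indicator fun _ => (1 : ℂ)) 2 σ := XVJ.mem_ind σ hm1
  obtain ⟨hU1, -, -, -, -, -⟩ := hUn X _ μ S
  obtain ⟨I, hI⟩ : ∃ I : Lp ℂ 2 μ, I = V.V (b1 σ {1}) := ⟨_, rfl⟩
  rw [← hI]
  have hIm : Measurable (I : X → ℂ) := (Lp.stronglyMeasurable I).measurable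
  obtain ⟨J, hJ⟩ : ∃ J : X → ℝ, J = fun x => max 0 (min 1 (I x).re) := ⟨_, rfl⟩
  have hJm : Measurable J := by
    rw [hJ]
    exact measurable_const.max (measurable_const.min (Complex.measurable_re.comp hIm))
  have hJ01 : ∀ x, 0 ≤ J x ∧ J x ≤ 1 := by
    intro x
    rw [hJ]
    exact ⟨le_max_left _ _, max_le zero_le_one (min_le_left _ _)⟩
  -- convergence along every Foelner sequence
  have key : ∀ F : ℕ → Finset ℕ, IsFo F →
      Tendsto (fun j => ∫ x, ‖((av S A (F j) x : ℝ) : ℂ) - I x‖ ^ 2 ∂μ) atTop (𝓝 0) := by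
    intro F hF
    refine (XVJ.lim_ps hEv hChr σ F hF).congr fun j => ?_
    have h1 : MemLp (XVJ.ps (F j)) 2 σ :=
      XVJ.mem_bdd σ (XVJ.ps_meas hEv (F j)) 1 fun g => XVJ.ps_le hEv (F j) (hF.ne j) g
    have h2 := XVJ.norm_sub_sq σ (bl σ (XVJ.ps (F j))) (b1 σ {1}) _ _ (XVJ.bl_coe σ h1)
      (XVJ.bl_coe σ hind)
    have h3 := XVJ.norm_sub_sq μ
      (((F j).card : ℂ)⁻¹ • ∑ a ∈ F j, U S a (b1 μ A) : Lp ℂ 2 μ) I _ _
      (XVJ.av_coe hUn S hA (F j) (hF.pos j)) (Filter.EventuallyEq.refl _ _)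
    rw [← h2, ← h3, ← XVJ.V_av hEv S (b1 μ A) σ V (F j) (hF.pos j), hI, ← map_sub,
      LinearIsometry.norm_map]
  have hbdI : ∀ F : Finset ℕ, F.Nonempty →
      ∀ x, 0 ≤ av S A F x ∧ av S A F x ≤ 1 := by
    intro F hF x
    have hc : (0 : ℝ) < F.card := by exact_mod_cast hF.card_pos
    have h0 : ∀ a, 0 ≤ A.indicator (fun _ => (1 : ℝ)) (S.T a x) ∧
        A.indicator (fun _ => (1 : ℝ)) (S.T a x) ≤ 1 := by
      intro a
      by_cases h : S.T a x ∈ A
      · rw [Set.indicator_of_mem h]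
        exact ⟨zero_le_one, le_refl 1⟩
      · rw [Set.indicator_of_notMem h]
        exact ⟨le_refl 0, zero_le_one⟩
    unfold av
    refine ⟨div_nonneg (Finset.sum_nonneg fun a _ => (h0 a).1) hc.le, ?_⟩
    rw [div_le_one hc]
    calc ∑ a ∈ F, A.indicator (fun _ => (1 : ℝ)) (S.T a x) ≤ ∑ _a ∈ F, (1 : ℝ) :=
          Finset.sum_le_sum fun a _ => (h0 a).2
      _ = F.card := by simp
  have havm : ∀ F : Finset ℕ, Measurable fun x => av S A F x := by
    intro F
    unfold av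
    refine Measurable.div_const (Finset.measurable_fun_sum _ fun a _ => ?_) _
    exact (measurable_const.indicator hA).comp (S.T a).measurable
  have hI2 : Integrable (fun x => ‖I x‖ ^ 2) μ := by
    have h := (Lp.memLp I).integrable_norm_pow (by norm_num)
    simpa using h
  have hint : ∀ F : Finset ℕ, F.Nonempty →
      Integrable (fun x => ‖((av S A F x : ℝ) : ℂ) - I x‖ ^ 2) μ := by
    intro F hF
    have h1 : MemLp (fun x => ((av S A F x : ℝ) : ℂ)) 2 μ := by
      refine XVJ.mem_bdd μ (Complex.measurable_ofReal.comp (havm F)) 1 fun x => ?_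
      rw [Complex.norm_real, Real.norm_of_nonneg (hbdI F hF x).1]
      exact (hbdI F hF x).2
    have h := (h1.sub (Lp.memLp I)).integrable_norm_pow (by norm_num)
    simpa using h
  have hIJ : ∀ x, ‖I x - ((J x : ℝ) : ℂ)‖ ^ 2 = ‖I x - ((max 0 (min 1 (I x).re) : ℝ) : ℂ)‖ ^ 2 := by
    intro x
    rw [hJ]
  have hint2 : Integrable (fun x => ‖I x - ((J x : ℝ) : ℂ)‖ ^ 2) μ := by
    have h1 : MemLp (fun x => ((J x : ℝ) : ℂ)) 2 μ := by
      refine XVJ.mem_bdd μ (Complex.measurable_ofReal.comp hJm) 1 fun x => ?_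
      rw [Complex.norm_real, Real.norm_of_nonneg (hJ01 x).1]
      exact (hJ01 x).2
    have h := ((Lp.memLp I).sub h1).integrable_norm_pow (by norm_num)
    simpa using h
  -- `I` is the class of `J`
  have hae : (I : X → ℂ) =ᵐ[μ] fun x => ((J x : ℝ) : ℂ) := by
    obtain ⟨F, hF⟩ := hFol
    have h1 : ∫ x, ‖I x - ((J x : ℝ) : ℂ)‖ ^ 2 ∂μ ≤ 0 := by
      refine ge_of_tendsto' (key F hF) fun j => ?_
      refine integral_mono hint2 (hint (F j) (hF.ne j)) fun x => ?_
      simp only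
      rw [hIJ x]
      exact XVJ.clamp_le (I x) (av S A (F j) x) (hbdI _ (hF.ne j) x).1 (hbdI _ (hF.ne j) x).2
    have h2 : ∫ x, ‖I x - ((J x : ℝ) : ℂ)‖ ^ 2 ∂μ = 0 :=
      le_antisymm h1 (integral_nonneg fun x => by positivity)
    have h3 := (integral_eq_zero_iff_of_nonneg (fun x => by positivity) hint2).1 h2
    filter_upwards [h3] with x hx
    have h4 : ‖I x - ((J x : ℝ) : ℂ)‖ ^ 2 = 0 := hx
    have h5 : ‖I x - ((J x : ℝ) : ℂ)‖ = 0 := by
      exact pow_eq_zero_iff (two_ne_zero) |>.1 h4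
    exact sub_eq_zero.1 (norm_eq_zero.1 h5)
  refine ⟨J, hJm, hJ01, hae, ?_, ?_⟩
  · intro n hn
    have h1 : U S n I = I := by
      have h2 := V.mul n hn _ hind
      have h3 : (fun g : GG => ev g n * ({1} : Set GG).indicator (fun _ => (1 : ℂ)) g) =
          ({1} : Set GG).indicator (fun _ => (1 : ℂ)) := by
        funext g
        by_cases h : g = 1
        · rw [h, hEv.2.2.1 n hn, one_mul]
        · rw [Set.indicator_of_notMem (by rw [Set.mem_singleton_iff]; exact h), mul_zero]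
      rw [h3] at h2
      rw [hI]
      exact h2.symm
    have h4 := hU1 n hn I
    rw [h1] at h4
    filter_upwards [h4] with x hx
    rw [hJ]
    simp only
    rw [← hx]
  · intro F hF
    have h1 := key F hF
    refine h1.congr fun j => ?_
    refine integral_congr_ae ?_
    filter_upwards [hae] with x hx
    rw [hx, ← Complex.ofReal_sub, Complex.norm_real, Real.norm_eq_abs, sq_abs]

end Pool.Agent.F0f91f8.PC
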