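import Pool.Agent.Work.MP_0f91f8_co.PC.Defs
import Pool.Agent.Work.MP_0f91f8_co.EF.Stmts

/-!
# Block PC, module V (systems, spectral isometry, invariant part, main term): statements with complete proofs (helper79)

Item `X`: statement `StX`, file `PC/I_X.lean`, theorem `pr_X`, namespace `Pool.Agent.F0f91f8.PC`. Earlier items may be
taken as hypotheses, as said in the docstring. `Pool.Agent.Work.MP_0f91f8_co.EF` is the namespace of `GG`, `ev`, `IsFo`,
`S_Ev`, `S_Haar`, `S_Fol`, `S_Cnt`, `S_Chr`; these are proved: `EF.Ev_pf`, `EF.Haar_pf`, .. (see `EF/All.lean`).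
-/

set_option autoImplicit false

namespace Pool.Agent.F0f91f8.PC

open Filter Topology ComplexConjugate MeasureTheory
open Pool.Agent.F0f91f8.HD Pool.Agent.F0f91f8.RC Pool.Agent.F0f91f8.KR Pool.Agent.F0f91f8.FC
open Pool.Agent.Work.MP_0f91f8_co.EF (GG ev ct IsFo S_Ev S_Haar S_Fol S_Cnt S_Chr)
open scoped BigOperators

/-! ## 1. General tools -/

/-- [VNf] (MEDIUM) nested dominated convergence (reverse Fatou). `h w K M y = F w K M y + C ≥ 0`, `≤ 2 C`, as `ENNReal`. One parameter: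
`limsup_n ∫ h_n ≤ ∫ limsup_n h_n` (`MeasureTheory.limsup_lintegral_le`, bounded by the integrable constant `2 C`; `Measurable.limsup`). Put
`h₂ w K y = limsup_M h w K M y`, `h₁ w y = limsup_K h₂ w K y`, `h₀ y = limsup_w h₁ w y`. By hypothesis `h₀ y ≤ C + ε'` for all `ε' > 0`, so
`h₀ ≤ C` almost everywhere and `∫ h₀ ≤ C ν(Y)`. So for `ε > 0`: `∀ᶠ w, ∫ h₁ w < C ν(Y) + ε` (`eventually_lt_of_limsup_lt`), for such a
`w`: `∀ᶠ K, ∫ h₂ w K < C ν(Y) + ε`, and then `∀ᶠ M, ∫ h w K M < C ν(Y) + ε`, that is `∫ F w K M < ε`. -/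
def StNf : Prop := ∀ (Y : Type) (_ : MeasurableSpace Y) (ν : Measure Y) (_ : IsFiniteMeasure ν)
  (F : ℕ → ℕ → ℕ → Y → ℝ) (C : ℝ), (∀ w K M, Measurable (F w K M)) →
  (∀ w K M y, |F w K M y| ≤ C) →
  (∀ᵐ y ∂ν, ∀ ε : ℝ, 0 < ε → Nest fun w K M => F w K M y ≤ ε) →
  ∀ ε : ℝ, 0 < ε → Nest fun w K M => ∫ y, F w K M y ∂ν ≤ ε

/-- [VGi] (EASY-MEDIUM) families with the same Gram matrix. For finitely supported coefficients `‖∑ c i • u i‖² = ∑∑ conj (c i) c j inner (u i) (u j)
= ‖∑ c i • φ i‖²`. So there is a well defined linear isometry on the span of the `φ i` with `φ i ↦ u i` (`Finsupp.linearCombination ℂ φ` and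
`Finsupp.linearCombination ℂ u` have the same norms, so the kernel of the first is contained in the kernel of the second; or `LinearMap.extendOfNorm`,
or `Submodule.liftQ`), and it extends to the closure, which is everything, by uniform continuity
(`ContinuousLinearMap.extend`, `LinearMap.extend`, `IsDenseInducing.extend`; the norm identity passes to the limit). -/
def StVGi : Prop := ∀ (I L H : Type) (_ : NormedAddCommGroup L) (_ : InnerProductSpace ℂ L)
  (_ : CompleteSpace L) (_ : NormedAddCommGroup H) (_ : InnerProductSpace ℂ H) (_ : CompleteSpace H)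
  (φ : I → L) (u : I → H), (∀ i j, inner ℂ (φ i) (φ j) = inner ℂ (u i) (u j)) →
  (Submodule.span ℂ (Set.range φ)).topologicalClosure = ⊤ →
  ∃ V : L →ₗᵢ[ℂ] H, ∀ i, V (φ i) = u i

/-- [VSW] (MEDIUM) the monomials span a dense subspace of `L²(σ)`. `GG = Nat.Primes → Circle` is compact, metrizable, `σ` a finite Borel
measure, so the continuous functions are dense in `L²` (`BoundedContinuousFunction.toLp_denseRange` or `ContinuousMap.toLp_denseRange`, regularity
of finite measures on metrizable spaces). The linear span of the functions `ev g a * conj (ev g b)`, `a, b > 0`, is a star subalgebra of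
`C(GG, ℂ)`: products and conjugates of such functions are such functions (`S_Ev`: `ev g` is completely multiplicative), `1` is the case `a = b = 1`. It
separates points (`ev g p` for a prime `p` is the coordinate `g p`). By Stone-Weierstrass
(`ContinuousMap.starSubalgebra_topologicalClosure_eq_top_of_separatesPoints`) it is dense in the sup norm, hence in `L²` (the map `toLp` is continuous).
(hEv : S_Ev) -/
def StVSW : Prop := ∀ (σ : Measure GG) (_ : IsFiniteMeasure σ),
  (Submodule.span ℂ (Set.range fun p : {p : ℕ × ℕ // 0 < p.1 ∧ 0 < p.2} =>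
    bl σ fun g => ev g p.1.1 * conj (ev g p.1.2))).topologicalClosure = ⊤

/-- complex homogeneous positive semidefinite functions of pairs of positive integers -/
structure IsPC (c : ℕ → ℕ → ℂ) : Prop where
  hom : ∀ k a b, 0 < k → 0 < a → 0 < b → c (k * a) (k * b) = c a b
  psd : ∀ F : Finset ℕ, (∀ a ∈ F, 0 < a) → ∀ d : ℕ → ℂ, ∃ s : ℝ, 0 ≤ s ∧
    ∑ a ∈ F, ∑ b ∈ F, d a * conj (d b) * c a b = (s : ℂ)

/-- [VDe] (EASY-MEDIUM, copy of `EF/DeF.lean`) approximate spectral measures, complex functions. `Φ g = (1/card F) ∑_{k, l ∈ F} conj (ev g k) ev g l c k l`, real and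
`≥ 0` by `psd` (`d k = conj (ev g k)`), continuous in `g`, bounded. `μ = ν.withDensity (ENNReal.ofReal (Φ g))`, `ν` from `S_Haar`.
`∫ ev g a conj (ev g b) dμ = (1/card F) ∑_{k, l} c k l ∫ ev g (a l) conj (ev g (b k)) dν = (1/card F) ∑_{k, l : a l = b k} c k l`, and `a l = b k` gives
`c k l = c (b k) (b l) = c (a l) (b l) = c a b`. `ct F a b` is the number of the pairs divided by `card F`. (hEv : S_Ev) (hH : S_Haar) -/
def StVDe : Prop := ∀ c : ℕ → ℕ → ℂ, IsPC c → ∀ F : Finset ℕ, F.Nonempty → (∀ a ∈ F, 0 < a) →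
  ∃ μ : Measure GG, IsFiniteMeasure μ ∧ ∀ a b : ℕ, 0 < a → 0 < b →
    ∫ g, ev g a * conj (ev g b) ∂μ = c a b * ((ct F a b : ℝ) : ℂ)

/-- [VLi] (EASY-MEDIUM, copy of `EF/LiF.lean`) spectral measure. `F` from `S_Fol`, `μ j` from `StVDe` for `F j`; the masses are `c 1 1 * ct (F j) 1 1 = c 1 1`
(`a = b = 1`), bounded, so (`isCompact_setOfPred_finiteMeasure_le_of_compactSpace` as in `LiF.lean`, if necessary after division by the mass; if `c 1 1 = 0` all `μ j` are zero)
`μ j` converges along an ultrafilter to a finite measure, and `S_Cnt` gives the equation. (hEv : S_Ev) (hF : S_Fol) (hC : S_Cnt) (hD : StVDe) -/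
def StVLi : Prop := ∀ c : ℕ → ℕ → ℂ, IsPC c → ∃ σ : Measure GG, IsFiniteMeasure σ ∧
  ∀ a b : ℕ, 0 < a → 0 < b → ∫ g, ev g a * conj (ev g b) ∂σ = c a b

/-! ## 2. Systems -/

/-- [VUn] (EASY) the unitary operators. `U n F = F ∘ T n` almost everywhere (`Lp.coeFn_compMeasurePreserving`). `T (m n) = T m ∘ T n = T n ∘ T m`, and composition of
almost everywhere equal functions with measure preserving maps. `T 1 = T (1 * 1) = T 1 ∘ T 1`, `T 1` injective, so `T 1 = id`. Surjective: `G ∘ (T n)⁻¹` is a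
preimage of `G` (`(T n).symm` is measure preserving: `MeasurePreserving.symm`). -/
def StVUn : Prop := ∀ (X : Type) (_ : MeasurableSpace X) (μ : Measure X) (S : Sys μ),
  (∀ n : ℕ, 0 < n → ∀ F : Lp ℂ 2 μ, (U S n F : X → ℂ) =ᵐ[μ] fun x => F (S.T n x)) ∧
  (∀ m n : ℕ, 0 < m → 0 < n → ∀ F : Lp ℂ 2 μ, U S (m * n) F = U S m (U S n F)) ∧
  (∀ F : Lp ℂ 2 μ, U S 1 F = F) ∧ (∀ x, S.T 1 x = x) ∧
  (∀ n : ℕ, 0 < n → Function.Surjective (U S n)) ∧
  ∀ (n : ℕ) (A : Set X), 0 < n → MeasurableSet A → ∀ (_ : IsFiniteMeasure μ),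
    U S n (b1 μ A) = b1 μ {x | S.T n x ∈ A}

/-- [VSp] (MEDIUM) the interface statement `SpecS`. `c a b = inner (U b F) (U a F)` is `IsPC` (`U (k a) F = U k (U a F)`, isometry;
`∑∑ d a conj (d b) c a b = ‖∑ d a • U a F‖²`). `σ` from `StVLi`. Index set: pairs `p = (a, b)` of positive integers; `φ p = bl σ (ev a * conj (ev b))`
and `u p` the vector with `U b (u p) = U a F` (surjectivity, `StVUn`). Gram: for `(a, b)`, `(a', b')`: apply the isometry `U (b b')`:
`inner (u (a',b')) (u (a,b)) = inner (U (b a') F) (U (b' a) F) = ∫ ev (b' a) conj (ev (b a')) dσ = ∫ (ev a conj (ev b)) conj (ev a' conj (ev b')) dσ =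
inner (φ (a',b')) (φ (a,b))` (`|ev| = 1`; the inner product of `L²(σ)` is `∫ conj (first) second`, `L2.inner_def`; `bl` of a bounded measurable
function is its class). `StVGi` with `StVSW`: `V`. `one`: `V (b1 univ) = V (φ (1,1)) = F`. `mul`: for fixed `n` both sides are continuous linear in
`φ ∈ L²(σ)` (multiplication by `ev n` is an isometry of `L²(σ)`; `bl` of the product is the product of the classes), and for `φ = φ (a,b)`:
`V (φ (n a, b)) = u (n a, b) = U n (u (a, b))` since `U b (U n (u (a,b))) = U n (U a F) = U (n a) F` and `U b` is injective. Density (`StVSW`).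
(hEv : S_Ev) (hGi : StVGi) (hSW : StVSW) (hLi : StVLi) (hUn : StVUn) -/
def StVSp : Prop := SpecS

/-- the average of the indicator functions `1_A ∘ T a` over a finite set -/
noncomputable def av {X : Type} [MeasurableSpace X] {μ : Measure X} (S : Sys μ) (A : Set X)
    (F : Finset ℕ) (x : X) : ℝ :=
  (∑ a ∈ F, A.indicator (fun _ => (1 : ℝ)) (S.T a x)) / (F.card : ℝ)

/-- [VJ] (MEDIUM) the invariant part. Let `I = V (b1 {1})`. `U n I = V (bl (ev n * 1_{1})) = V (b1 {1}) = I` (`ev 1 n = 1`). For a Foelner sequence `F`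
(`IsFo`) let `f_j = (1/|F j|) ∑_{a ∈ F j} U a (b1 μ A) = V (bl ((1/|F j|) ∑ ev a))` (`V.mul` with `φ = 1`, `V.one`). As `V` is an isometry,
`‖f_j - I‖² = ∫ |(1/|F j|) ∑ ev g a - 1_{1}(g)|² dσ(g) → 0` by `S_Chr` (at `g = 1` the integrand is `0`, elsewhere it tends to `0`, bounded by
`1`; dominated convergence). `f_j` is the class of `av S A (F j)` (`StVUn`), with values in `[0,1]`, so `I` is almost everywhere real with
values in `[0,1]` (`{G | G real, 0 ≤ G ≤ 1 a.e.}` is closed in `L²`: a subsequence converges almost everywhere, `TendstoInMeasure.exists_seq_tendsto_ae`). Let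
`J` be a measurable version, truncated to `[0,1]` everywhere. The last clause is `‖f_j - I‖² → 0` for every Foelner sequence; a Foelner sequence exists
(`S_Fol`). (hEv : S_Ev) (hFol : S_Fol) (hChr : S_Chr) (hUn : StVUn) -/
def StVJ : Prop := ∀ (X : Type) (_ : MeasurableSpace X) (μ : Measure X) (_ : IsProbabilityMeasure μ)
  (S : Sys μ) (A : Set X), MeasurableSet A → ∀ (σ : Measure GG) (_ : IsFiniteMeasure σ)
  (V : SpV S (b1 μ A) σ), ∃ J : X → ℝ, Measurable J ∧ (∀ x, 0 ≤ J x ∧ J x ≤ 1) ∧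
  ((V.V (b1 σ {1}) : X → ℂ) =ᵐ[μ] fun x => (J x : ℂ)) ∧
  (∀ n : ℕ, 0 < n → (fun x => J (S.T n x)) =ᵐ[μ] J) ∧
  ∀ F : ℕ → Finset ℕ, IsFo F →
    Tendsto (fun j => ∫ x, (av S A (F j) x - J x) ^ 2 ∂μ) atTop (𝓝 0)

/-- [VJ3] (MEDIUM) the spectral measure with respect to the invariant weight. `c a b = ∫ J 1_A(T a) 1_A(T b) dμ` (a real number): `hom` because `J ∘ T k = J` almost
everywhere and `T k` preserves `μ` (`T (k a) = T a ∘ T k`); `psd`: `∑∑ d a conj (d b) c a b = ∫ J |∑ d a 1_A(T a)|² ≥ 0`. `σ'` from `StVLi`. For a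
Foelner sequence `F` (`S_Fol`): `∫ |∑_{a ∈ F j} ev g a|²/|F j|² dσ' = (1/|F j|²) ∑∑ c a b = ∫ J (av (F j))² dμ`. The left side tends to `σ' {1}`
(`S_Chr`, dominated convergence), the right side to `∫ J³` (`|∫ J (f² - J²)| ≤ 2 ∫ |f - J| ≤ 2 (∫ (f - J)²)^(1/2)` for `0 ≤ f, J ≤ 1`), and
`∫ J³ ≥ (∫ J)³` (`t³ ≥ 3 c² t - 2 c³`, `c = ∫ J`), `∫ J = lim ∫ av (F j) = μ A`. (hEv : S_Ev) (hFol : S_Fol) (hChr : S_Chr) (hLi : StVLi) -/
def StVJ3 : Prop := ∀ (X : Type) (_ : MeasurableSpace X) (μ : Measure X) (_ : IsProbabilityMeasure μ)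
  (S : Sys μ) (A : Set X), MeasurableSet A → ∀ J : X → ℝ, Measurable J →
  (∀ x, 0 ≤ J x ∧ J x ≤ 1) → (∀ n : ℕ, 0 < n → (fun x => J (S.T n x)) =ᵐ[μ] J) →
  (∀ F : ℕ → Finset ℕ, IsFo F →
    Tendsto (fun j => ∫ x, (av S A (F j) x - J x) ^ 2 ∂μ) atTop (𝓝 0)) →
  ∃ σ' : Measure GG, IsFiniteMeasure σ' ∧
    (∀ a b : ℕ, 0 < a → 0 < b → ∫ g, ev g a * conj (ev g b) ∂σ' =
      ((∫ x, J x * A.indicator (fun _ => (1 : ℝ)) (S.T a x) *
        A.indicator (fun _ => (1 : ℝ)) (S.T b x) ∂μ : ℝ) : ℂ)) ∧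
    μ.real A ^ 3 ≤ σ'.real {1}

/-- [VMn] (MEDIUM) the interface statement `MainS`. `J` from `StVJ`, `σ'` from `StVJ3`. For members `x, y, z > 0`:
`bt S A z (U S x I) (U S y (b1 μ A)) = ∫ 1_A(T z) J(T x) 1_A(T y) = ∫ J 1_A(T z) 1_A(T y) = ∫ ev g y conj (ev g z) dσ'` (a real number, symmetric in `y`, `z`).
`AvK` is a finite average, so `Re AvK (bt ..) = ∫ Re AvK (ev g y conj (ev g z)) dσ'(g)`. Let
`F w K M g = 1_{1}(g) - Re AvK 1 w K M (fun x y z => ev g y * conj (ev g z))`, measurable, bounded by `2`. For `w, K, M ≥ 1` the family is not empty and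
`F w K M 1 = 0`. For every `g`: `Nest (F w K M g ≤ ε)` by `hPos` with `f1 = 1` (at positive integers; `CM`), `f2 = ev g`. `StNf`: `Nest (∫ F ≤ ε)`,
that is `Re AvK (bt ..) ≥ σ' {1} - ε ≥ μ(A)³ - ε`. For `w`, `K`, `M` with a zero value use that `Nest` only concerns large values. The members
are positive. `hPos` is `KR.all_Pos3E 1 one_pos` (`KT/PosE.lean`), take it as hypothesis
(hPos : ∀ f1 f2 : ℕ → ℂ, CM f1 → CM f2 → ∀ ε : ℝ, 0 < ε → Nest fun w K M => -ε ≤ (AvK 1 w K M fun x y z => f1 x * f2 y * conj (f1 z * f2 z)).re).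
(hEv : S_Ev) (hNf : StNf) (hUn : StVUn) (hJ : StVJ) (hJ3 : StVJ3) -/
def StVMn : Prop := MainS

/-! ## 3. Existence of the system -/

/-- [VRk] (EASY-MEDIUM) Riesz-Markov for compact spaces: `RealRMK.rieszMeasure`, `RealRMK.integral_rieszMeasure`
(`Mathlib.MeasureTheory.Integral.RieszMarkovKakutani.Real`); on a compact space continuous functions are compactly supported
(`CompactlySupportedContinuousMap.continuousMapEquiv`). The mass is `Λ 1 = 1`. -/
def StVRk : Prop := ∀ (X : Type) (_ : TopologicalSpace X) (_ : CompactSpace X) (_ : T2Space X)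
  (_ : MeasurableSpace X) (_ : BorelSpace X) (Λ : C(X, ℝ) → ℝ), (∀ f g, Λ (f + g) = Λ f + Λ g) →
  (∀ (c : ℝ) f, Λ (c • f) = c * Λ f) → (∀ f : C(X, ℝ), (∀ x, 0 ≤ f x) → 0 ≤ Λ f) → Λ 1 = 1 →
  ∃ μ : Measure X, IsProbabilityMeasure μ ∧ ∀ f : C(X, ℝ), ∫ x, f x ∂μ = Λ f

/-- [VSy] (MEDIUM) the interface statement `SysS`. `Q = {q : ℚ // 0 < q}` (a commutative group, countable), `X = Q → Bool` (compact, metrizable, Borel σ-algebra = product
σ-algebra, `Pi.borelSpace`). `T n x q = x (q * n)` for `n > 0` (`n` as an element of `Q`), `T 0 = id`; `T n` is a homeomorphism with inverse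
`x ↦ (q ↦ x (q / n))`, so a measurable equivalence, `T (m n) = T m ∘ T n`. Let `x₀ q = true` iff `q` is (the cast of) an integer `n ∈ A`. `Λ φ = m (n ↦ φ (T n x₀))` (`φ` is bounded on the compact
space; the value at `n = 0` is irrelevant) is linear, positive, `Λ 1 = 1`. `μ` from `StVRk`. `∫ φ ∘ T k dμ = m (n ↦ φ (T k (T n x₀))) = m (n ↦ φ (T (k n) x₀)) = ∫ φ dμ` by the
invariance of `m`, for all continuous `φ`, so `T k` preserves `μ` (finite Borel measures on a metrizable space with the same integrals of bounded continuous functions are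
equal: `MeasureTheory.ext_of_forall_integral_eq_of_IsFiniteMeasure`). `B = {x | x 1 = true}`, clopen. `T a (T n x₀) ∈ B` iff `x₀ (n a) = true` iff `a n ∈ A`. The
indicator function of `{x | T a x ∈ B ∧ T b x ∈ B ∧ T c x ∈ B}` is continuous (clopen set), its integral is the measure of the set and
`Λ` of it is `m (ind {n | a n ∈ A ∧ b n ∈ A ∧ c n ∈ A})`; the same for the other set. (hRk : StVRk) -/
def StVSy : Prop := SysS

end Pool.Agent.F0f91f8.PC
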