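import Mathlib
import Pool.Agent.Work.MP_0f91f8_co.PC.StmtsV
import Pool.Agent.Work.MP_0f91f8_co.EF.AtF

/-!
# Block PC, item VJ3: the spectral measure with respect to the invariant weight
-/

set_option autoImplicit false

namespace Pool.Agent.F0f91f8.PC

open Filter Topology ComplexConjugate MeasureTheory
open Pool.Agent.F0f91f8.HD Pool.Agent.F0f91f8.RC Pool.Agent.F0f91f8.KR Pool.Agent.F0f91f8.FC
open Pool.Agent.Work.MP_0f91f8_co.EF (GG ev ct IsFo S_Ev S_Haar S_Fol S_Cnt S_Chr IsSp)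
open scoped BigOperators

namespace XVJ3

variable {X : Type} [MeasurableSpace X] {μ : Measure X}

/-- the indicator function along `T a` -/
noncomputable def ii (S : Sys μ) (A : Set X) (a : ℕ) (x : X) : ℝ :=
  A.indicator (fun _ => (1 : ℝ)) (S.T a x)

/-- the pair function -/
noncomputable def pf (S : Sys μ) (A : Set X) (J : X → ℝ) (a b : ℕ) : ℝ :=
  ∫ x, J x * ii S A a x * ii S A b x ∂μ

theorem ii_meas (S : Sys μ) {A : Set X} (hA : MeasurableSet A) (a : ℕ) :
    Measurable (ii S A a) :=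
  (measurable_const.indicator hA).comp (S.T a).measurable

theorem ii_nonneg (S : Sys μ) (A : Set X) (a : ℕ) (x : X) : 0 ≤ ii S A a x :=
  Set.indicator_nonneg (fun _ _ => zero_le_one) _

theorem ii_le (S : Sys μ) (A : Set X) (a : ℕ) (x : X) : ii S A a x ≤ 1 := by
  unfold ii
  by_cases h : S.T a x ∈ A
  · rw [Set.indicator_of_mem h]
  · rw [Set.indicator_of_notMem h]
    exact zero_le_one

theorem ii_mul (S : Sys μ) (A : Set X) (k a : ℕ) (hk : 0 < k) (ha : 0 < a) (x : X) :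
    ii S A (k * a) x = ii S A a (S.T k x) := by
  unfold ii
  rw [Nat.mul_comm, S.mul a k ha hk]

theorem int_bdd [IsFiniteMeasure μ] {g : X → ℝ} (hg : Measurable g) (C : ℝ)
    (h : ∀ x, |g x| ≤ C) : Integrable g μ :=
  Integrable.of_bound hg.aestronglyMeasurable C (Eventually.of_forall fun x => h x)

section

variable [IsProbabilityMeasure μ] (S : Sys μ) {A : Set X} (hA : MeasurableSet A) {J : X → ℝ}
  (hJm : Measurable J) (hJ : ∀ x, 0 ≤ J x ∧ J x ≤ 1)

include hA hJm hJ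

theorem pf_int (a b : ℕ) : Integrable (fun x => J x * ii S A a x * ii S A b x) μ := by
  refine int_bdd ((hJm.mul (ii_meas S hA a)).mul (ii_meas S hA b)) 1 fun x => ?_
  have h1 := ii_nonneg S A a x
  have h2 := ii_le S A a x
  have h3 := ii_nonneg S A b x
  have h4 := ii_le S A b x
  have h5 := hJ x
  rw [abs_of_nonneg (mul_nonneg (mul_nonneg h5.1 h1) h3)]
  exact mul_le_one₀ (mul_le_one₀ h5.2 h1 h2) h3 h4

omit hA hJm hJ in
theorem pf_hom (hinv : ∀ n : ℕ, 0 < n → (fun x => J (S.T n x)) =ᵐ[μ] J) (k a b : ℕ)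
    (hk : 0 < k) (ha : 0 < a) (hb : 0 < b) : pf S A J (k * a) (k * b) = pf S A J a b := by
  unfold pf
  have h1 : ∫ x, J x * ii S A (k * a) x * ii S A (k * b) x ∂μ =
      ∫ x, (fun y => J y * ii S A a y * ii S A b y) (S.T k x) ∂μ := by
    refine integral_congr_ae ?_
    filter_upwards [hinv k hk] with x hx
    simp only [ii_mul S A k a hk ha, ii_mul S A k b hk hb]
    rw [hx]
  rw [h1]
  exact (S.mp k hk).integral_comp' (fun y => J y * ii S A a y * ii S A b y)

theorem pf_psd (F : Finset ℕ) (d : ℕ → ℂ) : ∃ s : ℝ, 0 ≤ s ∧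
    ∑ a ∈ F, ∑ b ∈ F, d a * conj (d b) * ((pf S A J a b : ℝ) : ℂ) = (s : ℂ) := by
  refine ⟨∫ x, J x * ‖∑ a ∈ F, d a * ((ii S A a x : ℝ) : ℂ)‖ ^ 2 ∂μ,
    integral_nonneg fun x => mul_nonneg (hJ x).1 (by positivity), ?_⟩
  rw [← integral_complex_ofReal]
  have h1 : ∀ x, ((J x * ‖∑ a ∈ F, d a * ((ii S A a x : ℝ) : ℂ)‖ ^ 2 : ℝ) : ℂ) =
      ∑ a ∈ F, ∑ b ∈ F, d a * conj (d b) * ((J x * ii S A a x * ii S A b x : ℝ) : ℂ) := by
    intro x
    rw [Complex.ofReal_mul, Complex.ofReal_pow, ← Complex.mul_conj', map_sum,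
      Finset.sum_mul_sum, Finset.mul_sum]
    refine Finset.sum_congr rfl fun a _ => ?_
    rw [Finset.mul_sum]
    refine Finset.sum_congr rfl fun b _ => ?_
    rw [map_mul, Complex.conj_ofReal]
    push_cast
    ring
  simp only [h1]
  have h2 : ∀ a b, Integrable (fun x => d a * conj (d b) *
      ((J x * ii S A a x * ii S A b x : ℝ) : ℂ)) μ := fun a b =>
    (pf_int S hA hJm hJ a b).ofReal.const_mul _
  rw [integral_finsetSum _ fun a _ => integrable_finsetSum _ fun b _ => h2 a b]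
  refine Finset.sum_congr rfl fun a _ => ?_
  rw [integral_finsetSum _ fun b _ => h2 a b]
  refine Finset.sum_congr rfl fun b _ => ?_
  rw [integral_const_mul, integral_complex_ofReal]
  rfl

omit [IsProbabilityMeasure μ] hJm hJ in
theorem av_meas (F : Finset ℕ) : Measurable (av S A F) := by
  unfold av
  exact (Finset.measurable_sum _ fun a _ => ii_meas S hA a).div_const _

omit [IsProbabilityMeasure μ] hA hJm hJ in
theorem av_01 (F : Finset ℕ) (x : X) : 0 ≤ av S A F x ∧ av S A F x ≤ 1 := by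
  unfold av
  constructor
  · exact div_nonneg (Finset.sum_nonneg fun a _ => ii_nonneg S A a x) (Nat.cast_nonneg _)
  · refine div_le_one_of_le₀ ?_ (Nat.cast_nonneg _)
    calc ∑ a ∈ F, A.indicator (fun _ => (1 : ℝ)) (S.T a x) ≤ ∑ _a ∈ F, (1 : ℝ) :=
          Finset.sum_le_sum fun a _ => ii_le S A a x
      _ = F.card := by simp

/-- the second moment of the average -/
theorem av_sq (F : Finset ℕ) :
    (∑ a ∈ F, ∑ b ∈ F, pf S A J a b) / (F.card : ℝ) ^ 2 = ∫ x, J x * av S A F x ^ 2 ∂μ := by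
  have h1 : ∀ x, J x * av S A F x ^ 2 =
      (∑ a ∈ F, ∑ b ∈ F, J x * ii S A a x * ii S A b x) / (F.card : ℝ) ^ 2 := by
    intro x
    unfold av
    rw [div_pow, mul_div_assoc', sq (∑ a ∈ F, _), Finset.sum_mul_sum, Finset.mul_sum]
    congr 1
    refine Finset.sum_congr rfl fun a _ => ?_
    rw [Finset.mul_sum]
    refine Finset.sum_congr rfl fun b _ => ?_
    unfold ii
    ring
  simp only [h1]
  rw [integral_div]
  congr 1
  rw [integral_finsetSum _ fun a _ => integrable_finsetSum _ fun b _ =>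
    pf_int S hA hJm hJ a b]
  refine Finset.sum_congr rfl fun a _ => ?_
  rw [integral_finsetSum _ fun b _ => pf_int S hA hJm hJ a b]
  rfl

omit hJm hJ in
/-- the mean of the average -/
theorem av_mean (F : Finset ℕ) (hF : F.Nonempty) (hpos : ∀ a ∈ F, 0 < a) :
    ∫ x, av S A F x ∂μ = μ.real A := by
  have hc : (F.card : ℝ) ≠ 0 := by
    have := hF.card_pos
    positivity
  unfold av
  rw [integral_div]
  have h2 : ∀ a, Integrable (ii S A a) μ := fun a =>
    int_bdd (ii_meas S hA a) 1 fun x => by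
      rw [abs_of_nonneg (ii_nonneg S A a x)]
      exact ii_le S A a x
  have h3 : ∫ x, ∑ a ∈ F, A.indicator (fun _ => (1 : ℝ)) (S.T a x) ∂μ =
      ∑ a ∈ F, μ.real A := by
    refine (integral_finsetSum F fun a _ => h2 a).trans ?_
    refine Finset.sum_congr rfl fun a ha => ?_
    refine ((S.mp a (hpos a ha)).integral_comp' (fun y => A.indicator (fun _ => (1 : ℝ)) y)).trans ?_
    rw [integral_indicator_const _ hA, smul_eq_mul, mul_one]
  rw [h3, Finset.sum_const, nsmul_eq_mul]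
  field_simp

end

theorem sq_int [IsProbabilityMeasure μ] {g : X → ℝ} (hg : Measurable g) (C : ℝ)
    (h : ∀ x, |g x| ≤ C) : (∫ x, g x ∂μ) ^ 2 ≤ ∫ x, g x ^ 2 ∂μ := by
  set m := ∫ x, g x ∂μ with hm
  have hi : Integrable g μ := int_bdd hg C h
  have hi2 : Integrable (fun x => g x ^ 2) μ := int_bdd (hg.pow_const 2) (C ^ 2) fun x => by
    rw [abs_pow]
    exact pow_le_pow_left₀ (abs_nonneg _) (h x) 2
  have h0 : 0 ≤ ∫ x, (g x - m) ^ 2 ∂μ := integral_nonneg fun x => sq_nonneg _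
  have h1 : ∫ x, (g x - m) ^ 2 ∂μ = ∫ x, g x ^ 2 ∂μ - 2 * m * m + m ^ 2 := by
    have e : ∀ x, (g x - m) ^ 2 = (g x ^ 2 - 2 * m * g x) + m ^ 2 := fun x => by ring
    simp only [e]
    have i1 : ∫ x, (g x ^ 2 - 2 * m * g x) ∂μ = ∫ x, g x ^ 2 ∂μ - 2 * m * m := by
      rw [integral_sub hi2 (hi.const_mul (2 * m)), integral_const_mul, ← hm]
    have i2 : Integrable (fun x => g x ^ 2 - 2 * m * g x) μ := hi2.sub (hi.const_mul (2 * m))
    rw [integral_add i2 (integrable_const (m ^ 2)), i1]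
    simp
  nlinarith [h0, h1]

theorem cube (t c : ℝ) (ht : 0 ≤ t) (hc : 0 ≤ c) : 3 * c ^ 2 * t - 2 * c ^ 3 ≤ t ^ 3 := by
  nlinarith [mul_nonneg (sq_nonneg (t - c)) (by linarith : 0 ≤ t + 2 * c)]

theorem ptw (j f δ : ℝ) (hj : 0 ≤ j ∧ j ≤ 1) (hf : 0 ≤ f ∧ f ≤ 1) (hδ : 0 < δ) :
    j ^ 3 - δ - (f - j) ^ 2 / δ ≤ j * f ^ 2 := by
  have h1 : 2 * |f - j| ≤ δ + (f - j) ^ 2 / δ := by
    have h2 : 0 ≤ (δ - |f - j|) ^ 2 / δ := by positivity
    have h3 : (δ - |f - j|) ^ 2 / δ = δ - 2 * |f - j| + (f - j) ^ 2 / δ := by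
      have : (δ - |f - j|) ^ 2 = δ ^ 2 - 2 * |f - j| * δ + (f - j) ^ 2 := by
        rw [← sq_abs (f - j)]
        ring
      rw [this]
      field_simp
    linarith
  have h4 : j ^ 3 - j * f ^ 2 ≤ 2 * |f - j| := by
    have h5 : j ^ 3 - j * f ^ 2 = (j * (f + j)) * (j - f) := by ring
    rw [h5]
    have h6 : 0 ≤ j * (f + j) := mul_nonneg hj.1 (by linarith [hf.1, hj.1])
    have h7 : j * (f + j) ≤ 2 := by nlinarith [hj.1, hj.2, hf.1, hf.2]
    calc (j * (f + j)) * (j - f) ≤ (j * (f + j)) * |f - j| := by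
          refine mul_le_mul_of_nonneg_left ?_ h6
          rw [abs_sub_comm]
          exact le_abs_self _
      _ ≤ 2 * |f - j| := mul_le_mul_of_nonneg_right h7 (abs_nonneg _)
  linarith

end XVJ3

open XVJ3 Pool.Agent.Work.MP_0f91f8_co.EF.XAtF in
theorem pr_VJ3 (hEv : S_Ev) (hFol : S_Fol) (hChr : S_Chr) (hLi : StVLi) : StVJ3 := by
  intro X _ μ _ S A hA J hJm hJ hinv hFo
  have hPC : IsPC (fun a b => ((pf S A J a b : ℝ) : ℂ)) :=
    ⟨fun k a b hk ha hb => by rw [pf_hom S hinv k a b hk ha hb],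
      fun F _ d => pf_psd S hA hJm hJ F d⟩
  obtain ⟨σ', hσ', hsp⟩ := hLi _ hPC
  refine ⟨σ', hσ', hsp, ?_⟩
  obtain ⟨F, hF⟩ := hFol
  have hSp : IsSp (pf S A J) σ' := ⟨hσ', hsp⟩
  -- the limit of the means
  have hm : MeasurableSet ({1} : Set GG) := isClosed_singleton.measurableSet
  have hlim : Tendsto (fun j => ∫ g, hh (F j) g ∂σ') atTop (𝓝 (σ'.real {1})) := by
    have h1 : Tendsto (fun j => ∫ g, hh (F j) g ∂σ') atTop
        (𝓝 (∫ g, Set.indicator {1} (fun _ => (1 : ℝ)) g ∂σ')) := by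
      refine tendsto_integral_of_dominated_convergence (fun _ => (1 : ℝ)) ?_ ?_ ?_ ?_
      · intro j
        exact (hh_cont hEv (F j)).aestronglyMeasurable
      · exact integrable_const _
      · intro j
        exact Eventually.of_forall fun g => hh_le hEv (F j) (hF.ne j) g
      · exact Eventually.of_forall fun g => hChr F hF g
    rwa [integral_indicator_const _ hm, smul_eq_mul, mul_one] at h1
  have heq : ∀ j, ∫ g, hh (F j) g ∂σ' = ∫ x, J x * av S A (F j) x ^ 2 ∂μ := fun j => by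
    rw [integral_hh hEv (pf S A J) σ' hSp (F j) (hF.pos j), av_sq S hA hJm hJ (F j)]
  have hD := hFo F hF
  -- the mean of `J`
  have hJi : Integrable J μ := int_bdd hJm 1 fun x => by
    rw [abs_of_nonneg (hJ x).1]
    exact (hJ x).2
  have hfi : ∀ j, Integrable (av S A (F j)) μ := fun j =>
    int_bdd (av_meas S hA (F j)) 1 fun x => by
      rw [abs_of_nonneg (av_01 S (F j) x).1]
      exact (av_01 S (F j) x).2
  have hdm : ∀ j, Measurable fun x => av S A (F j) x - J x := fun j =>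
    (av_meas S hA (F j)).sub hJm
  have hdb : ∀ j x, |av S A (F j) x - J x| ≤ 1 := fun j x => by
    have h1 := av_01 S (A := A) (F j) x
    have h2 := hJ x
    rw [abs_le]
    constructor <;> linarith [h1.1, h1.2, h2.1, h2.2]
  have hmean : ∫ x, J x ∂μ = μ.real A := by
    have h1 : ∀ j, (μ.real A - ∫ x, J x ∂μ) ^ 2 ≤ ∫ x, (av S A (F j) x - J x) ^ 2 ∂μ := by
      intro j
      have h2 := sq_int (μ := μ) (hdm j) 1 (hdb j)
      rwa [integral_sub (hfi j) hJi, av_mean S hA (F j) (hF.ne j) (hF.pos j)] at h2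
    have h3 : (μ.real A - ∫ x, J x ∂μ) ^ 2 ≤ 0 := ge_of_tendsto' hD h1
    have h4 : μ.real A - ∫ x, J x ∂μ = 0 := by
      have := le_antisymm h3 (sq_nonneg _)
      exact pow_eq_zero_iff (two_ne_zero) |>.1 this
    linarith
  -- the third moment of `J`
  have hJ3i : Integrable (fun x => J x ^ 3) μ := int_bdd (hJm.pow_const 3) 1 fun x => by
    rw [abs_of_nonneg (pow_nonneg (hJ x).1 3)]
    exact pow_le_one₀ (hJ x).1 (hJ x).2
  have hcube : μ.real A ^ 3 ≤ ∫ x, J x ^ 3 ∂μ := by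
    have h1 : ∫ x, (3 * μ.real A ^ 2 * J x - 2 * μ.real A ^ 3) ∂μ ≤ ∫ x, J x ^ 3 ∂μ :=
      integral_mono ((hJi.const_mul _).sub (integrable_const _)) hJ3i fun x =>
        cube (J x) (μ.real A) (hJ x).1 measureReal_nonneg
    rw [integral_sub (hJi.const_mul _) (integrable_const _), integral_const_mul, hmean] at h1
    simp only [integral_const, probReal_univ, one_smul] at h1
    nlinarith [h1]
  -- conclusion
  refine le_of_forall_pos_le_add fun δ hδ => ?_
  have hlow : ∀ j, μ.real A ^ 3 - δ - (∫ x, (av S A (F j) x - J x) ^ 2 ∂μ) / δ ≤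
      ∫ g, hh (F j) g ∂σ' := by
    intro j
    rw [heq j]
    have hd2 : Integrable (fun x => (av S A (F j) x - J x) ^ 2) μ :=
      int_bdd ((hdm j).pow_const 2) 1 fun x => by
        rw [abs_pow]
        exact pow_le_one₀ (abs_nonneg _) (hdb j x)
    have hJf : Integrable (fun x => J x * av S A (F j) x ^ 2) μ :=
      int_bdd (hJm.mul ((av_meas S hA (F j)).pow_const 2)) 1 fun x => by
        have h1 := av_01 S (A := A) (F j) x
        rw [abs_of_nonneg (mul_nonneg (hJ x).1 (by positivity))]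
        exact mul_le_one₀ (hJ x).2 (by positivity) (pow_le_one₀ h1.1 h1.2)
    have h1 : ∫ x, (J x ^ 3 - δ - (av S A (F j) x - J x) ^ 2 / δ) ∂μ ≤
        ∫ x, J x * av S A (F j) x ^ 2 ∂μ :=
      integral_mono ((hJ3i.sub (integrable_const _)).sub (hd2.div_const _)) hJf fun x =>
        ptw (J x) (av S A (F j) x) δ (hJ x) (av_01 S (F j) x) hδ
    have i1 : Integrable (fun x => J x ^ 3 - δ) μ := hJ3i.sub (integrable_const δ)
    have i2 : ∫ x, (J x ^ 3 - δ) ∂μ = ∫ x, J x ^ 3 ∂μ - δ := by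
      rw [integral_sub hJ3i (integrable_const δ)]
      simp
    rw [integral_sub i1 (hd2.div_const δ), i2, integral_div] at h1
    linarith
  have hl2 : Tendsto (fun j => μ.real A ^ 3 - δ - (∫ x, (av S A (F j) x - J x) ^ 2 ∂μ) / δ)
      atTop (𝓝 (μ.real A ^ 3 - δ - 0 / δ)) :=
    tendsto_const_nhds.sub (hD.div_const δ)
  have h5 := le_of_tendsto_of_tendsto' hl2 hlim hlow
  rw [zero_div, sub_zero] at h5
  linarith

end Pool.Agent.F0f91f8.PC
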