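import Pool.Agent.Work.MP_0f91f8_co.PC.StmtsV

/-!
# Block PC, module V, item VLi: spectral measures of homogeneous positive semidefinite functions
-/

set_option autoImplicit false

namespace Pool.Agent.F0f91f8.PC

open Filter Topology ComplexConjugate MeasureTheory
open Pool.Agent.Work.MP_0f91f8_co.EF (GG ev ct IsFo S_Ev S_Haar S_Fol S_Cnt S_Chr)
open scoped BigOperators

namespace XVLi

/-- The bounded continuous function `ev g a * conj (ev g b)`. -/
noncomputable def bf (h1 : S_Ev) (a b : ℕ) : BoundedContinuousFunction GG ℂ :=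
  BoundedContinuousFunction.mkOfCompact
    ⟨fun g => ev g a * conj (ev g b),
      (h1.2.1 a).mul (Complex.continuous_conj.comp (h1.2.1 b))⟩

/-- Extraction of a weak limit along an ultrafilter. -/
theorem lim (M : ℕ → FiniteMeasure GG) (C : NNReal) (hM : ∀ j, (M j).mass ≤ C) :
    ∃ (U : Ultrafilter ℕ) (ν : FiniteMeasure GG), (U : Filter ℕ) ≤ atTop ∧
      Tendsto M U (𝓝 ν) := by
  let U : Ultrafilter ℕ := Ultrafilter.of atTop
  have hU : (U : Filter ℕ) ≤ atTop := Ultrafilter.of_le _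
  have hcpt := isCompact_setOfPred_finiteMeasure_le_of_compactSpace GG C
  have hle : ((U.map M : Ultrafilter (FiniteMeasure GG)) : Filter (FiniteMeasure GG)) ≤
      𝓟 {μ : FiniteMeasure GG | μ.mass ≤ C} := by
    rw [le_principal_iff, Ultrafilter.coe_map, mem_map]
    exact Filter.Eventually.of_forall hM
  obtain ⟨ν, -, hν⟩ := hcpt.ultrafilter_le_nhds (U.map M) hle
  exact ⟨U, ν, hU, hν⟩

theorem ct_nonneg (F : Finset ℕ) (a b : ℕ) : 0 ≤ ct F a b :=
  div_nonneg (Nat.cast_nonneg _) (Nat.cast_nonneg _)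

theorem ev_one (g : GG) : ev g 1 = 1 := by
  simp [ev]

end XVLi

theorem pr_VLi (hEv : S_Ev) (hF : S_Fol) (hC : S_Cnt) (hD : StVDe) : StVLi := by
  intro c hc
  obtain ⟨F, hFo⟩ := hF
  choose μ hμ1 hμ2 using fun j => hD c hc (F j) (hFo.ne j) (hFo.pos j)
  obtain ⟨B, hB⟩ := (hC F hFo 1 1 one_pos one_pos).bddAbove_range
  have hmass : ∀ j, (μ j).real Set.univ ≤ ‖c 1 1‖ * B := by
    intro j
    have h := hμ2 j 1 1 one_pos one_pos
    have h1 : (fun g : GG => ev g 1 * conj (ev g 1)) = fun _ => (1 : ℂ) := by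
      funext g
      rw [XVLi.ev_one]
      simp
    rw [h1, integral_const] at h
    have h2 : (μ j).real Set.univ = ‖c 1 1 * ((ct (F j) 1 1 : ℝ) : ℂ)‖ := by
      rw [← h, norm_smul, norm_one, mul_one, Real.norm_of_nonneg measureReal_nonneg]
    rw [h2, norm_mul, Complex.norm_real, Real.norm_of_nonneg (XVLi.ct_nonneg _ _ _)]
    exact mul_le_mul_of_nonneg_left (hB ⟨j, rfl⟩) (norm_nonneg _)
  let M : ℕ → FiniteMeasure GG := fun j => ⟨μ j, hμ1 j⟩
  have hM : ∀ j, (M j).mass ≤ Real.toNNReal (‖c 1 1‖ * B) := by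
    intro j
    rw [← NNReal.coe_le_coe]
    refine le_trans ?_ (Real.le_coe_toNNReal _)
    exact hmass j
  obtain ⟨U, ν, hU, hlim⟩ := XVLi.lim M _ hM
  refine ⟨(ν : Measure GG), inferInstance, ?_⟩
  intro a b ha hb
  have ht : Tendsto (fun j => ∫ g, XVLi.bf hEv a b g ∂(μ j)) U
      (𝓝 (∫ g, XVLi.bf hEv a b g ∂(ν : Measure GG))) :=
    (FiniteMeasure.tendsto_iff_forall_integral_rclike_tendsto ℂ).1 hlim (XVLi.bf hEv a b)
  have h5 : (fun j => ∫ g, XVLi.bf hEv a b g ∂(μ j)) =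
      fun j => c a b * ((ct (F j) a b : ℝ) : ℂ) := by
    funext j
    exact hμ2 j a b ha hb
  rw [h5] at ht
  have ht2 : Tendsto (fun j => c a b * ((ct (F j) a b : ℝ) : ℂ)) U (𝓝 (c a b)) := by
    have h6 : Tendsto (fun j => ((ct (F j) a b : ℝ) : ℂ)) U (𝓝 ((1 : ℝ) : ℂ)) :=
      (Complex.continuous_ofReal.tendsto _).comp ((hC F hFo a b ha hb).mono_left hU)
    have h7 := h6.const_mul (c a b)
    rw [Complex.ofReal_one, mul_one] at h7
    exact h7
  exact tendsto_nhds_unique ht ht2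

end Pool.Agent.F0f91f8.PC
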