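import Pool.Agent.Work.MP_0f91f8_co.PC.StmtsV

/-!
# MP_0f91f8_co, theorem PC, item VRk: Riesz representation on compact spaces
-/

set_option autoImplicit false

namespace Pool.Agent.F0f91f8.PC

open MeasureTheory

namespace XVRk

open scoped CompactlySupported

theorem main (X : Type) [TopologicalSpace X] [CompactSpace X] [T2Space X] [MeasurableSpace X]
    [BorelSpace X] (Λ : C(X, ℝ) → ℝ) (hadd : ∀ f g, Λ (f + g) = Λ f + Λ g)
    (hsm : ∀ (c : ℝ) f, Λ (c • f) = c * Λ f) (hpos : ∀ f : C(X, ℝ), (∀ x, 0 ≤ f x) → 0 ≤ Λ f)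
    (h1 : Λ 1 = 1) :
    ∃ μ : Measure X, IsProbabilityMeasure μ ∧ ∀ f : C(X, ℝ), ∫ x, f x ∂μ = Λ f := by
  let L : C_c(X, ℝ) →ₗ[ℝ] ℝ :=
    { toFun := fun f => Λ f.toContinuousMap
      map_add' := fun f g => hadd f.toContinuousMap g.toContinuousMap
      map_smul' := fun c f => hsm c f.toContinuousMap }
  let P : C_c(X, ℝ) →ₚ[ℝ] ℝ := PositiveLinearMap.mk₀ L (fun f hf => hpos f.toContinuousMap hf)
  have hint : ∀ f : C(X, ℝ), ∫ x, f x ∂(RealRMK.rieszMeasure P) = Λ f := by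
    intro f
    let g : C_c(X, ℝ) := ⟨f, HasCompactSupport.of_compactSpace f⟩
    exact RealRMK.integral_rieszMeasure P g
  refine ⟨RealRMK.rieszMeasure P, ⟨?_⟩, hint⟩
  have h2 := hint 1
  rw [h1] at h2
  have h3 : ∫ x : X, (1 : C(X, ℝ)) x ∂(RealRMK.rieszMeasure P) =
      (RealRMK.rieszMeasure P).real Set.univ := by
    simp
  rw [h3, measureReal_def] at h2
  have h4 : RealRMK.rieszMeasure P Set.univ ≠ ⊤ := measure_ne_top _ _
  rw [← ENNReal.ofReal_toReal h4, h2, ENNReal.ofReal_one]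

end XVRk

theorem pr_VRk : StVRk := by
  intro X _ _ _ _ _ Λ hadd hsm hpos h1
  exact XVRk.main X Λ hadd hsm hpos h1

end Pool.Agent.F0f91f8.PC
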