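import Mathlib
import Pool.Agent.Work.MP_0f91f8_co.PC.StmtsV

/-!
# Block PC (MP_0f91f8_co), item VSW (helper92): the monomials span a dense subspace
-/

set_option autoImplicit false

namespace Pool.Agent.F0f91f8.PC

open Filter Topology ComplexConjugate MeasureTheory
open Pool.Agent.Work.MP_0f91f8_co.EF (GG ev S_Ev)
open Pool.Agent.Work.MP_0f91f8_co.COL (IsCM)

namespace XVSW

/-- index type of the monomials -/
abbrev Ix : Type := {p : ℕ × ℕ // 0 < p.1 ∧ 0 < p.2}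

/-- the monomial as a continuous function -/
noncomputable def mono (hEv : S_Ev) (p : Ix) : C(GG, ℂ) :=
  ⟨fun g => ev g p.1.1 * conj (ev g p.1.2),
    (hEv.2.1 p.1.1).mul (Complex.continuous_conj.comp (hEv.2.1 p.1.2))⟩

theorem mono_apply (hEv : S_Ev) (p : Ix) (g : GG) :
    mono hEv p g = ev g p.1.1 * conj (ev g p.1.2) := rfl

theorem mono_mul (hEv : S_Ev) (p q : Ix) :
    mono hEv p * mono hEv q = mono hEv ⟨(p.1.1 * q.1.1, p.1.2 * q.1.2),
      Nat.mul_pos p.2.1 q.2.1, Nat.mul_pos p.2.2 q.2.2⟩ := by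
  ext g
  rw [ContinuousMap.mul_apply, mono_apply, mono_apply, mono_apply]
  have h := (hEv.1 g).mul
  simp only
  rw [h, h, map_mul]
  ring

theorem mono_star (hEv : S_Ev) (p : Ix) :
    star (mono hEv p) = mono hEv ⟨(p.1.2, p.1.1), p.2.2, p.2.1⟩ := by
  ext g
  rw [ContinuousMap.star_apply, mono_apply, mono_apply, star_mul']
  change conj (ev g p.1.1) * conj (conj (ev g p.1.2)) = ev g p.1.2 * conj (ev g p.1.1)
  rw [Complex.conj_conj]
  ring

theorem mono_one (hEv : S_Ev) : mono hEv ⟨(1, 1), Nat.one_pos, Nat.one_pos⟩ = 1 := by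
  ext g
  rw [mono_apply, ContinuousMap.one_apply]
  have h : ev g 1 = 1 := (hEv.1 g).one
  simp only
  rw [h, map_one, mul_one]

/-- the span of the monomials -/
noncomputable def Sp (hEv : S_Ev) : Submodule ℂ C(GG, ℂ) :=
  Submodule.span ℂ (Set.range (mono hEv))

theorem Sp_mul (hEv : S_Ev) {a b : C(GG, ℂ)} (ha : a ∈ Sp hEv) (hb : b ∈ Sp hEv) :
    a * b ∈ Sp hEv := by
  have h1 : a * b ∈ Sp hEv * Sp hEv := Submodule.mul_mem_mul ha hb
  have h2 : Sp hEv * Sp hEv ≤ Sp hEv := by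
    unfold Sp
    rw [Submodule.span_mul_span]
    refine Submodule.span_mono ?_
    rintro _ ⟨_, ⟨p, rfl⟩, _, ⟨q, rfl⟩, rfl⟩
    exact ⟨_, (mono_mul hEv p q).symm⟩
  exact h2 h1

theorem Sp_star (hEv : S_Ev) {a : C(GG, ℂ)} (ha : a ∈ Sp hEv) : star a ∈ Sp hEv := by
  unfold Sp at ha ⊢
  induction ha using Submodule.span_induction with
  | mem x hx =>
    obtain ⟨p, rfl⟩ := hx
    rw [mono_star]
    exact Submodule.subset_span ⟨_, rfl⟩
  | zero =>
    rw [star_zero]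
    exact Submodule.zero_mem _
  | add x y _ _ hx hy =>
    rw [star_add]
    exact Submodule.add_mem _ hx hy
  | smul c x _ hx =>
    rw [star_smul]
    exact Submodule.smul_mem _ _ hx

/-- the star subalgebra of the monomials -/
noncomputable def SA (hEv : S_Ev) : StarSubalgebra ℂ C(GG, ℂ) where
  carrier := (Sp hEv : Set C(GG, ℂ))
  mul_mem' := fun ha hb => Sp_mul hEv ha hb
  one_mem' := by
    rw [← mono_one hEv]
    exact Submodule.subset_span ⟨_, rfl⟩
  add_mem' := fun ha hb => (Sp hEv).add_mem ha hb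
  zero_mem' := (Sp hEv).zero_mem
  algebraMap_mem' := by
    intro r
    rw [Algebra.algebraMap_eq_smul_one]
    refine (Sp hEv).smul_mem r ?_
    rw [← mono_one hEv]
    exact Submodule.subset_span ⟨_, rfl⟩
  star_mem' := fun ha => Sp_star hEv ha

theorem SA_sep (hEv : S_Ev) : (SA hEv).SeparatesPoints := by
  intro g h hgh
  have h1 : g * h⁻¹ ≠ 1 := by
    intro e
    exact hgh (mul_inv_eq_one.mp e)
  obtain ⟨p, hp, hp1⟩ := hEv.2.2.2.1 (g * h⁻¹) h1
  refine ⟨mono hEv ⟨(p, 1), hp.pos, Nat.one_pos⟩, ⟨mono hEv ⟨(p, 1), hp.pos, Nat.one_pos⟩,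
    Submodule.subset_span ⟨_, rfl⟩, rfl⟩, ?_⟩
  rw [mono_apply, mono_apply]
  have e1 : ev g 1 = 1 := (hEv.1 g).one
  have e2 : ev h 1 = 1 := (hEv.1 h).one
  simp only
  rw [e1, e2, map_one, mul_one, mul_one]
  intro e
  apply hp1
  have e3 : ev g p = ev (g * h⁻¹) p * ev h p := by
    rw [← hEv.2.2.2.2.1, inv_mul_cancel_right]
  have e4 : ev h p ≠ 0 := by
    intro e5
    have := (hEv.1 h).norm p hp.pos
    rw [e5, norm_zero] at this
    exact zero_ne_one this
  rw [e] at e3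
  have e5 : 1 * ev h p = ev (g * h⁻¹) p * ev h p := by rw [one_mul]; exact e3
  exact (mul_right_cancel₀ e4 e5).symm

theorem Sp_dense (hEv : S_Ev) : Dense (Sp hEv : Set C(GG, ℂ)) := by
  have h := ContinuousMap.starSubalgebra_topologicalClosure_eq_top_of_separatesPoints (SA hEv)
    (SA_sep hEv)
  rw [dense_iff_closure_eq]
  have h2 : ((SA hEv).topologicalClosure : Set C(GG, ℂ)) = closure (SA hEv : Set C(GG, ℂ)) :=
    StarSubalgebra.topologicalClosure_coe _
  have h3 : (SA hEv : Set C(GG, ℂ)) = (Sp hEv : Set C(GG, ℂ)) := rfl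
  rw [← h3, ← h2, h]
  rfl

theorem toLp_mono (hEv : S_Ev) (σ : Measure GG) [IsFiniteMeasure σ] (p : Ix) :
    ContinuousMap.toLp 2 σ ℂ (mono hEv p) = bl σ fun g => ev g p.1.1 * conj (ev g p.1.2) := by
  have h1 : (ContinuousMap.toLp 2 σ ℂ (mono hEv p) : GG → ℂ) =ᵐ[σ] mono hEv p :=
    ContinuousMap.coeFn_toLp σ (mono hEv p)
  have hm : MemLp (fun g => ev g p.1.1 * conj (ev g p.1.2)) 2 σ := by
    have h2 : MemLp (ContinuousMap.toLp 2 σ ℂ (mono hEv p) : GG → ℂ) 2 σ := Lp.memLp _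
    exact (memLp_congr_ae h1).mp h2
  unfold bl
  rw [dif_pos hm]
  refine Lp.ext (h1.trans ?_)
  exact (MemLp.coeFn_toLp hm).symm

end XVSW

open XVSW in
theorem pr_VSW (hEv : S_Ev) : StVSW := by
  intro σ hσ
  rw [← Submodule.dense_iff_topologicalClosure_eq_top]
  have h1 : DenseRange (ContinuousMap.toLp 2 σ ℂ : C(GG, ℂ) →L[ℂ] Lp ℂ 2 σ) :=
    ContinuousMap.toLp_denseRange ℂ σ ℂ (by simp)
  have h2 : Dense ((ContinuousMap.toLp 2 σ ℂ : C(GG, ℂ) →L[ℂ] Lp ℂ 2 σ) ''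
      (Sp hEv : Set C(GG, ℂ))) :=
    h1.dense_image (ContinuousMap.toLp 2 σ ℂ : C(GG, ℂ) →L[ℂ] Lp ℂ 2 σ).continuous (Sp_dense hEv)
  refine h2.mono ?_
  rintro _ ⟨f, hf, rfl⟩
  have hf' : f ∈ Submodule.span ℂ (Set.range (mono hEv)) := hf
  induction hf' using Submodule.span_induction with
  | mem x hx =>
    obtain ⟨p, rfl⟩ := hx
    rw [toLp_mono]
    exact Submodule.subset_span ⟨p, rfl⟩
  | zero =>
    rw [map_zero]
    exact Submodule.zero_mem _
  | add x y hx' hy' hx hy =>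
    rw [map_add]
    exact Submodule.add_mem _ (hx hx') (hy hy')
  | smul c x hx' hx =>
    rw [map_smul]
    exact Submodule.smul_mem _ _ (hx hx')

end Pool.Agent.F0f91f8.PC
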