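import Mathlib
import Pool.Agent.Work.MP_0f91f8_co.PC.StmtsV

/-!
# Block PC, module V, item VSp: every vector has a spectral isometry
-/

set_option autoImplicit false

namespace Pool.Agent.F0f91f8.PC

open Filter Topology ComplexConjugate MeasureTheory
open Pool.Agent.F0f91f8.HD Pool.Agent.F0f91f8.RC Pool.Agent.F0f91f8.KR Pool.Agent.F0f91f8.FC
open Pool.Agent.Work.MP_0f91f8_co.EF (GG ev ct IsFo S_Ev S_Haar S_Fol S_Cnt S_Chr)
open scoped BigOperators

namespace XVSp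

section
variable {Y : Type} [MeasurableSpace Y] {ν : Measure Y}

lemma bl_eq {φ : Y → ℂ} (h : MemLp φ 2 ν) : bl ν φ = h.toLp φ := by
  unfold bl
  rw [dif_pos h]

lemma bl_ae {φ : Y → ℂ} (h : MemLp φ 2 ν) : (bl ν φ : Y → ℂ) =ᵐ[ν] φ := by
  rw [bl_eq h]
  exact h.coeFn_toLp

lemma bl_congr {φ ψ : Y → ℂ} (h : MemLp φ 2 ν) (e : φ =ᵐ[ν] ψ) : bl ν φ = bl ν ψ := by
  have h' : MemLp ψ 2 ν := h.ae_eq e
  rw [bl_eq h, bl_eq h']
  exact MemLp.toLp_congr h h' e

lemma bl_inner {φ ψ : Y → ℂ} (hφ : MemLp φ 2 ν) (hψ : MemLp ψ 2 ν) :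
    inner ℂ (bl ν φ) (bl ν ψ) = ∫ g, ψ g * conj (φ g) ∂ν := by
  rw [L2.inner_def]
  refine integral_congr_ae ?_
  filter_upwards [bl_ae hφ, bl_ae hψ] with g h1 h2
  rw [h1, h2, RCLike.inner_apply]

end

variable (hEv : S_Ev)
include hEv

lemma ev_le (g : GG) (n : ℕ) : ‖ev g n‖ ≤ 1 := by
  rcases Nat.eq_zero_or_pos n with h | h
  · subst h
    rw [(hEv.1 g).zero, norm_zero]
    exact zero_le_one
  · exact ((hEv.1 g).norm n h).le

lemma ev_cc (g : GG) {n : ℕ} (hn : 0 < n) : ev g n * conj (ev g n) = 1 := by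
  rw [Complex.mul_conj, Complex.normSq_eq_norm_sq, (hEv.1 g).norm n hn]
  norm_num

/-- the monomials are in `L²` -/
lemma mem_mono (σ : Measure GG) [IsFiniteMeasure σ] (a b : ℕ) :
    MemLp (fun g => ev g a * conj (ev g b)) 2 σ := by
  refine MemLp.of_bound ?_ 1 (Eventually.of_forall fun g => ?_)
  · exact ((hEv.2.1 a).mul (Complex.continuous_conj.comp (hEv.2.1 b))).aestronglyMeasurable
  · rw [norm_mul, RCLike.norm_conj]
    exact mul_le_one₀ (ev_le hEv g a) (norm_nonneg _) (ev_le hEv g b)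

/-- `ev n φ` is in `L²` -/
lemma mem_ev {σ : Measure GG} {φ : GG → ℂ} (h : MemLp φ 2 σ) (n : ℕ) :
    MemLp (fun g => ev g n * φ g) 2 σ := by
  refine h.of_le ((hEv.2.1 n).aestronglyMeasurable.mul h.1) (Eventually.of_forall fun g => ?_)
  rw [norm_mul]
  exact mul_le_of_le_one_left (norm_nonneg _) (ev_le hEv g n)

/-- multiplication by `ev n` is a continuous linear map of `L²(σ)` -/
lemma exists_mul (σ : Measure GG) (n : ℕ) : ∃ M : Lp ℂ 2 σ →L[ℂ] Lp ℂ 2 σ,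
    ∀ φ : GG → ℂ, MemLp φ 2 σ → M (bl σ φ) = bl σ fun g => ev g n * φ g := by
  have hmem : ∀ F : Lp ℂ 2 σ, MemLp (fun g => ev g n * F g) 2 σ := fun F =>
    mem_ev hEv (Lp.memLp F) n
  let L : Lp ℂ 2 σ →ₗ[ℂ] Lp ℂ 2 σ :=
    { toFun := fun F => (hmem F).toLp _
      map_add' := by
        intro F G
        apply Lp.ext
        filter_upwards [(hmem (F + G)).coeFn_toLp, (hmem F).coeFn_toLp, (hmem G).coeFn_toLp,
          Lp.coeFn_add F G, Lp.coeFn_add ((hmem F).toLp _) ((hmem G).toLp _)] with g h1 h2 h3 h4 h5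
        rw [h1, h5, Pi.add_apply, h2, h3, h4, Pi.add_apply, mul_add]
      map_smul' := by
        intro c F
        apply Lp.ext
        filter_upwards [(hmem (c • F)).coeFn_toLp, (hmem F).coeFn_toLp,
          Lp.coeFn_smul c F, Lp.coeFn_smul c ((hmem F).toLp _)] with g h1 h2 h4 h5
        rw [h1, RingHom.id_apply, h5, Pi.smul_apply, h2, h4, Pi.smul_apply, smul_eq_mul,
          smul_eq_mul]
        ring }
  have hL : ∀ F, ‖L F‖ ≤ 1 * ‖F‖ := by
    intro F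
    rw [one_mul]
    refine Lp.norm_le_norm_of_ae_le ?_
    filter_upwards [(hmem F).coeFn_toLp] with g h1
    show ‖((hmem F).toLp _ : GG → ℂ) g‖ ≤ _
    rw [h1, norm_mul]
    exact mul_le_of_le_one_left (norm_nonneg _) (ev_le hEv g n)
  refine ⟨L.mkContinuous 1 hL, fun φ hφ => ?_⟩
  show (hmem (bl σ φ)).toLp _ = _
  rw [← bl_eq (hmem (bl σ φ))]
  refine bl_congr (hmem _) ?_
  filter_upwards [bl_ae hφ] with g h
  rw [h]

omit hEv in
/-- the correlation function of a vector is positive semidefinite -/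
lemma isPC {X : Type} [MeasurableSpace X] {μ : Measure X} (S : Sys μ)
    (hm : ∀ m n : ℕ, 0 < m → 0 < n → ∀ F : Lp ℂ 2 μ, U S (m * n) F = U S m (U S n F))
    (F : Lp ℂ 2 μ) : IsPC fun a b => inner ℂ (U S b F) (U S a F) := by
  refine ⟨fun k a b hk ha hb => ?_, fun A _ d => ?_⟩
  · show inner ℂ (U S (k * b) F) (U S (k * a) F) = inner ℂ (U S b F) (U S a F)
    rw [hm k b hk hb, hm k a hk ha, LinearIsometry.inner_map_map]
  · refine ⟨‖∑ a ∈ A, d a • U S a F‖ ^ 2, sq_nonneg _, ?_⟩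
    have h : inner ℂ (∑ b ∈ A, d b • U S b F) (∑ a ∈ A, d a • U S a F) =
        ((‖∑ a ∈ A, d a • U S a F‖ ^ 2 : ℝ) : ℂ) := by
      rw [inner_self_eq_norm_sq_to_K]
      push_cast
      rfl
    rw [← h, inner_sum]
    refine Finset.sum_congr rfl fun a _ => ?_
    rw [sum_inner]
    refine Finset.sum_congr rfl fun b _ => ?_
    rw [inner_smul_left, inner_smul_right]
    ring

end XVSp

open XVSp in
theorem pr_VSp (hEv : S_Ev) (hGi : StVGi) (hSW : StVSW) (hLi : StVLi) (hUn : StVUn) : StVSp := by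
  intro X mX μ hμ S F
  obtain ⟨-, hm, h1, -, hsurj, -⟩ := hUn X mX μ S
  have hcomm : ∀ m n : ℕ, 0 < m → 0 < n → ∀ G : Lp ℂ 2 μ, U S m (U S n G) = U S n (U S m G) := by
    intro m n hm' hn' G
    rw [← hm m n hm' hn', Nat.mul_comm, hm n m hn' hm']
  obtain ⟨σ, hσ, hint⟩ := hLi _ (isPC S hm F)
  refine ⟨σ, hσ, ?_⟩
  -- the family `u`
  have hex : ∀ p : {p : ℕ × ℕ // 0 < p.1 ∧ 0 < p.2}, ∃ G : Lp ℂ 2 μ,
      U S p.1.2 G = U S p.1.1 F := fun p => hsurj p.1.2 p.2.2 _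
  choose u hu using hex
  let φ : {p : ℕ × ℕ // 0 < p.1 ∧ 0 < p.2} → Lp ℂ 2 σ := fun p =>
    bl σ fun g => ev g p.1.1 * conj (ev g p.1.2)
  have hmemφ : ∀ a b : ℕ, MemLp (fun g => ev g a * conj (ev g b)) 2 σ := fun a b =>
    mem_mono hEv σ a b
  have hgram : ∀ p q, inner ℂ (φ p) (φ q) = inner ℂ (u p) (u q) := by
    rintro ⟨⟨a, b⟩, ha, hb⟩ ⟨⟨a', b'⟩, ha', hb'⟩
    simp only at ha hb ha' hb'
    have e1 : inner ℂ (u ⟨(a, b), ha, hb⟩) (u ⟨(a', b'), ha', hb'⟩) =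
        inner ℂ (U S (b' * a) F) (U S (b * a') F) := by
      have e2 : U S (b * b') (u ⟨(a, b), ha, hb⟩) = U S (b' * a) F := by
        rw [hm b b' hb hb', hcomm b b' hb hb', hu ⟨(a, b), ha, hb⟩, ← hm b' a hb' ha]
      have e3 : U S (b * b') (u ⟨(a', b'), ha', hb'⟩) = U S (b * a') F := by
        rw [hm b b' hb hb', hu ⟨(a', b'), ha', hb'⟩, ← hm b a' hb ha']
      rw [← e2, ← e3, LinearIsometry.inner_map_map]
    rw [e1]
    have e4 := hint (b * a') (b' * a) (Nat.mul_pos hb ha') (Nat.mul_pos hb' ha)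
    rw [← e4]
    show inner ℂ (bl σ fun g => ev g a * conj (ev g b)) (bl σ fun g => ev g a' * conj (ev g b')) = _
    rw [bl_inner (hmemφ a b) (hmemφ a' b')]
    refine integral_congr_ae (Eventually.of_forall fun g => ?_)
    simp only
    rw [(hEv.1 g).mul, (hEv.1 g).mul, map_mul, map_mul, Complex.conj_conj]
    ring
  obtain ⟨V, hV⟩ := hGi {p : ℕ × ℕ // 0 < p.1 ∧ 0 < p.2} (Lp ℂ 2 σ) (Lp ℂ 2 μ) inferInstance
    inferInstance inferInstance inferInstance inferInstance inferInstance φ u hgram (hSW σ hσ)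
  have hdense : Dense (Submodule.span ℂ (Set.range φ) : Set (Lp ℂ 2 σ)) :=
    Submodule.dense_iff_topologicalClosure_eq_top.2 (hSW σ hσ)
  refine ⟨⟨V, ?_, ?_⟩⟩
  · have e : b1 σ Set.univ = φ ⟨(1, 1), one_pos, one_pos⟩ := by
      show b1 σ Set.univ = bl σ fun g => ev g 1 * conj (ev g 1)
      unfold b1
      congr 1
      funext g
      rw [ev_cc hEv g one_pos, Set.indicator_univ]
    rw [e, hV]
    have := hu ⟨(1, 1), one_pos, one_pos⟩
    simp only [h1] at this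
    exact this
  · intro n hn ψ hψ
    obtain ⟨M, hM⟩ := exists_mul hEv σ n
    rw [← hM ψ hψ]
    have key : V.toContinuousLinearMap.comp M =
        (U S n).toContinuousLinearMap.comp V.toContinuousLinearMap := by
      refine ContinuousLinearMap.ext_on hdense ?_
      rintro _ ⟨⟨⟨a, b⟩, ha, hb⟩, rfl⟩
      simp only at ha hb
      show V (M (φ ⟨(a, b), ha, hb⟩)) = U S n (V (φ ⟨(a, b), ha, hb⟩))
      have e1 : M (φ ⟨(a, b), ha, hb⟩) = φ ⟨(n * a, b), Nat.mul_pos hn ha, hb⟩ := by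
        show M (bl σ fun g => ev g a * conj (ev g b)) = bl σ fun g => ev g (n * a) * conj (ev g b)
        rw [hM _ (hmemφ a b)]
        congr 1
        funext g
        rw [(hEv.1 g).mul]
        ring
      rw [e1, hV, hV]
      apply (U S b).injective
      rw [hcomm b n hb hn, hu ⟨(a, b), ha, hb⟩, hu ⟨(n * a, b), Nat.mul_pos hn ha, hb⟩,
        hm n a hn ha]
    exact DFunLike.congr_fun key (bl σ ψ)

end Pool.Agent.F0f91f8.PC
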