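import Pool.Agent.Work.MP_0f91f8_co.PC.StmtsV

/-!
# Item VSy of block PC: every mean and every set come from a system
-/

set_option autoImplicit false

namespace Pool.Agent.F0f91f8.PC

open Filter Topology ComplexConjugate MeasureTheory
open Pool.Agent.F0f91f8.HD Pool.Agent.F0f91f8.RC Pool.Agent.F0f91f8.KR Pool.Agent.F0f91f8.FC
open Pool.Agent.Work.MP_0f91f8_co.EF (GG ev ct IsFo S_Ev S_Haar S_Fol S_Cnt S_Chr)
open scoped BigOperators

namespace XVSy

/-- `n` as a non-zero rational number -/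
noncomputable def qn (n : ℕ) : ℚ := if n = 0 then 1 else (n : ℚ)

theorem qn_ne (n : ℕ) : qn n ≠ 0 := by
  unfold qn
  split_ifs with h
  · norm_num
  · exact_mod_cast h

theorem qn_pos {n : ℕ} (h : 0 < n) : qn n = (n : ℚ) := by
  unfold qn
  rw [if_neg (by omega)]

/-- the shift by `n` -/
noncomputable def TT (n : ℕ) : (ℚ → Bool) ≃ᵐ (ℚ → Bool) where
  toFun x q := x (q * qn n)
  invFun x q := x (q / qn n)
  left_inv x := by
    funext q
    show x (q / qn n * qn n) = x q
    rw [div_mul_cancel₀ _ (qn_ne n)]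
  right_inv x := by
    funext q
    show x (q * qn n / qn n) = x q
    rw [mul_div_cancel_right₀ _ (qn_ne n)]
  measurable_toFun := measurable_pi_lambda _ fun q => measurable_pi_apply _
  measurable_invFun := measurable_pi_lambda _ fun q => measurable_pi_apply _

theorem TT_apply (n : ℕ) (x : ℚ → Bool) (q : ℚ) : TT n x q = x (q * qn n) := rfl

theorem TT_cont (n : ℕ) : Continuous (TT n : (ℚ → Bool) → (ℚ → Bool)) :=
  continuous_pi fun q => continuous_apply (q * qn n)

theorem TT_mul (a b : ℕ) (ha : 0 < a) (hb : 0 < b) (x : ℚ → Bool) :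
    TT (a * b) x = TT a (TT b x) := by
  funext q
  rw [TT_apply, TT_apply, TT_apply, qn_pos ha, qn_pos hb, qn_pos (Nat.mul_pos ha hb)]
  push_cast
  rw [mul_assoc]

open Classical in
/-- the point of the set `A` -/
noncomputable def x0 (A : Set ℕ) : ℚ → Bool := fun q => decide (∃ n ∈ A, (n : ℚ) = q)

theorem x0_mul (A : Set ℕ) {a n : ℕ} (ha : 0 < a) (hn : 0 < n) :
    TT n (x0 A) (1 * qn a) = true ↔ a * n ∈ A := by
  rw [TT_apply, qn_pos ha, qn_pos hn]
  unfold x0
  simp only [decide_eq_true_eq]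
  constructor
  · rintro ⟨k, hk, h⟩
    have h1 : (k : ℚ) = ((a * n : ℕ) : ℚ) := by
      rw [h]
      push_cast
      ring
    have h2 : k = a * n := by exact_mod_cast h1
    rwa [← h2]
  · intro h
    refine ⟨a * n, h, ?_⟩
    push_cast
    ring

/-- clopen sets -/
theorem clopen (P : Bool → Bool → Bool → Prop) (a b c : ℚ) :
    IsClopen {x : ℚ → Bool | P (x a) (x b) (x c)} := by
  have h : Continuous fun x : ℚ → Bool => (x a, x b, x c) :=
    (continuous_apply a).prodMk ((continuous_apply b).prodMk (continuous_apply c))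
  exact (isClopen_discrete {p : Bool × Bool × Bool | P p.1 p.2.1 p.2.2}).preimage h

/-- the indicator function of a clopen set -/
noncomputable def ic (E : Set (ℚ → Bool)) (hE : IsClopen E) : C(ℚ → Bool, ℝ) where
  toFun := E.indicator fun _ => (1 : ℝ)
  continuous_toFun := by
    refine Continuous.indicator ?_ continuous_const
    intro a ha
    rw [hE.frontier_eq] at ha
    exact absurd ha (Set.notMem_empty a)

section
variable {m : (ℕ → ℝ) → ℝ}

theorem bdR (f : C(ℚ → Bool, ℝ)) (x : ℕ → ℚ → Bool) : BdR fun n => f (x n) :=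
  ⟨‖f‖, fun n => f.norm_coe_le_norm (x n)⟩

theorem m_congr (hm : IsMean m) {f g : ℕ → ℝ} (hf : BdR f) (hg : BdR g)
    (h : ∀ n, 0 < n → f n = g n) : m f = m g := by
  obtain ⟨h1, h2, h3, -, -⟩ := hm
  have key : ∀ f g : ℕ → ℝ, BdR f → BdR g → (∀ n, 0 < n → f n = g n) → m g ≤ m f := by
    intro f g hf hg h
    have hg' : BdR fun n => (-1 : ℝ) * g n := by
      obtain ⟨C, hC⟩ := hg
      refine ⟨C, fun n => ?_⟩
      rw [abs_mul, abs_neg, abs_one, one_mul]
      exact hC n
    have h4 := h1 f (fun n => (-1 : ℝ) * g n) hf hg'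
    have h5 := h2 (-1) g hg
    have hfg : BdR fun n => f n + (-1 : ℝ) * g n := by
      obtain ⟨C, hC⟩ := hf
      obtain ⟨D, hD⟩ := hg'
      exact ⟨C + D, fun n => le_trans (abs_add_le _ _) (add_le_add (hC n) (hD n))⟩
    have h6 := h3 (fun n => f n + (-1 : ℝ) * g n) hfg (by
      intro n hn
      show 0 ≤ f n + (-1 : ℝ) * g n
      rw [h n hn]
      linarith)
    rw [h4, h5] at h6
    linarith
  exact le_antisymm (key g f hg hf fun n hn => (h n hn).symm) (key f g hf hg h)

theorem bd_ind (E : Set ℕ) : BdR (ind E) := by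
  refine ⟨1, fun n => ?_⟩
  unfold ind
  by_cases h : n ∈ E
  · rw [Set.indicator_of_mem h]
    simp
  · rw [Set.indicator_of_notMem h]
    simp

end

end XVSy

theorem pr_VSy (hRk : StVRk) : StVSy := by
  intro m hm A
  obtain ⟨h1, h2, h3, h4, h5⟩ := id hm
  obtain ⟨μ, hμ, hint⟩ := hRk (ℚ → Bool) inferInstance inferInstance inferInstance inferInstance
    inferInstance (fun φ => m fun n => φ (XVSy.TT n (XVSy.x0 A)))
    (fun f g => h1 _ _ (XVSy.bdR f _) (XVSy.bdR g _))
    (fun c f => h2 c _ (XVSy.bdR f _))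
    (fun f hf => h3 _ (XVSy.bdR f _) fun n _ => hf _)
    h4
  have hμf : IsFiniteMeasure μ := inferInstance
  have hmp : ∀ k, 0 < k → MeasurePreserving (XVSy.TT k) μ μ := by
    intro k hk
    refine ⟨(XVSy.TT k).measurable, ?_⟩
    have hfm : IsFiniteMeasure (μ.map (XVSy.TT k)) := inferInstance
    refine ext_of_forall_integral_eq_of_IsFiniteMeasure fun f => ?_
    rw [integral_map (XVSy.TT k).measurable.aemeasurable
      f.continuous.measurable.aestronglyMeasurable]
    have e1 := hint ⟨fun x => f (XVSy.TT k x), f.continuous.comp (XVSy.TT_cont k)⟩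
    have e2 := hint ⟨fun x => f x, f.continuous⟩
    have e3 : m (fun n => f (XVSy.TT k (XVSy.TT n (XVSy.x0 A)))) =
        m fun n => f (XVSy.TT n (XVSy.x0 A)) := by
      rw [← h5 k hk (fun n => f (XVSy.TT n (XVSy.x0 A)))
        ⟨‖f‖, fun n => f.norm_coe_le_norm _⟩]
      refine XVSy.m_congr hm ⟨‖f‖, fun n => f.norm_coe_le_norm _⟩
        ⟨‖f‖, fun n => f.norm_coe_le_norm _⟩ fun n hn => ?_
      rw [XVSy.TT_mul k n hk hn]
    exact e1.trans (e3.trans e2.symm)
  have hE : ∀ (P : Bool → Bool → Bool → Prop) (a b c : ℕ), 0 < a → 0 < b → 0 < c →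
      ∀ E : Set ℕ, (∀ n, 0 < n → (n ∈ E ↔ P (XVSy.TT n (XVSy.x0 A) (1 * XVSy.qn a))
        (XVSy.TT n (XVSy.x0 A) (1 * XVSy.qn b)) (XVSy.TT n (XVSy.x0 A) (1 * XVSy.qn c)))) →
      μ.real {x | P (x (1 * XVSy.qn a)) (x (1 * XVSy.qn b)) (x (1 * XVSy.qn c))} = m (ind E) := by
    intro P a b c ha hb hc E hEn
    have hcl := XVSy.clopen P (1 * XVSy.qn a) (1 * XVSy.qn b) (1 * XVSy.qn c)
    have e1 := hint (XVSy.ic _ hcl)
    have e2 : ∫ x, (XVSy.ic _ hcl) x ∂μ =
        μ.real {x | P (x (1 * XVSy.qn a)) (x (1 * XVSy.qn b)) (x (1 * XVSy.qn c))} := by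
      show ∫ x, Set.indicator {x | P (x (1 * XVSy.qn a)) (x (1 * XVSy.qn b)) (x (1 * XVSy.qn c))}
        (fun _ => (1 : ℝ)) x ∂μ = _
      rw [integral_indicator_const _ hcl.isClosed.measurableSet]
      simp
    rw [← e2, e1]
    refine XVSy.m_congr hm (XVSy.bdR _ _) (XVSy.bd_ind E) fun n hn => ?_
    show Set.indicator {x : ℚ → Bool | P (x (1 * XVSy.qn a)) (x (1 * XVSy.qn b))
      (x (1 * XVSy.qn c))} (fun _ => (1 : ℝ)) (XVSy.TT n (XVSy.x0 A)) = ind E n
    unfold ind
    by_cases hnE : n ∈ E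
    · rw [Set.indicator_of_mem hnE, Set.indicator_of_mem]
      exact (hEn n hn).1 hnE
    · rw [Set.indicator_of_notMem hnE, Set.indicator_of_notMem]
      exact fun h => hnE ((hEn n hn).2 h)
  refine ⟨ℚ → Bool, inferInstance, μ, hμ, ⟨XVSy.TT, hmp, XVSy.TT_mul⟩, {x | x 1 = true}, ?_, ?_, ?_⟩
  · exact (XVSy.clopen (fun u _ _ => u = true) 1 1 1).isClosed.measurableSet
  · intro a b c ha hb hc
    refine hE (fun u v w => u = true ∧ v = true ∧ w = true) a b c ha hb hc _ fun n hn => ?_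
    rw [XVSy.x0_mul A ha hn, XVSy.x0_mul A hb hn, XVSy.x0_mul A hc hn]
    rfl
  · intro p q hp hq
    refine hE (fun u v _ => ¬(u = true ↔ v = true)) p q p hp hq hp _ fun n hn => ?_
    rw [XVSy.x0_mul A hp hn, XVSy.x0_mul A hq hn]
    rfl

end Pool.Agent.F0f91f8.PC
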