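import Pool.Agent.Work.MP_0f91f8_co.PC.StmtsV

/-!
# Block PC, item VUn: the unitary operators of a system
-/

set_option autoImplicit false

namespace Pool.Agent.F0f91f8.PC

open Filter Topology ComplexConjugate MeasureTheory
open Pool.Agent.F0f91f8.HD Pool.Agent.F0f91f8.RC Pool.Agent.F0f91f8.KR Pool.Agent.F0f91f8.FC
open Pool.Agent.Work.MP_0f91f8_co.EF (GG ev ct IsFo S_Ev S_Haar S_Fol S_Cnt S_Chr)
open scoped BigOperators

namespace XVUn

variable {X : Type} [MeasurableSpace X] {μ : Measure X}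

theorem coe (S : Sys μ) (n : ℕ) (hn : 0 < n) (F : Lp ℂ 2 μ) :
    (U S n F : X → ℂ) =ᵐ[μ] fun x => F (S.T n x) := by
  have e : U S n = Lp.compMeasurePreservingₗᵢ ℂ (S.T n) (S.mp n hn) := dif_pos hn
  rw [e]
  exact Lp.coeFn_compMeasurePreserving F (S.mp n hn)

theorem T_one (S : Sys μ) (x : X) : S.T 1 x = x := by
  have h := S.mul 1 1 one_pos one_pos x
  rw [mul_one] at h
  exact ((S.T 1).injective h).symm

theorem mul (S : Sys μ) (m n : ℕ) (hm : 0 < m) (hn : 0 < n) (F : Lp ℂ 2 μ) :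
    U S (m * n) F = U S m (U S n F) := by
  apply Lp.ext
  refine (coe S (m * n) (Nat.mul_pos hm hn) F).trans ?_
  refine EventuallyEq.trans ?_ (coe S m hm (U S n F)).symm
  have h := (S.mp m hm).quasiMeasurePreserving.ae_eq_comp (coe S n hn F)
  refine EventuallyEq.trans ?_ h.symm
  refine Eventually.of_forall fun x => ?_
  show F (S.T (m * n) x) = F (S.T n (S.T m x))
  rw [mul_comm m n, S.mul n m hn hm]

theorem one (S : Sys μ) (F : Lp ℂ 2 μ) : U S 1 F = F := by
  apply Lp.ext
  refine (coe S 1 one_pos F).trans ?_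
  refine Eventually.of_forall fun x => ?_
  show F (S.T 1 x) = F x
  rw [T_one]

theorem surj (S : Sys μ) (n : ℕ) (hn : 0 < n) : Function.Surjective (U S n) := by
  intro G
  refine ⟨Lp.compMeasurePreserving (S.T n).symm ((S.mp n hn).symm (S.T n)) G, ?_⟩
  apply Lp.ext
  refine (coe S n hn _).trans ?_
  have h1 := Lp.coeFn_compMeasurePreserving G ((S.mp n hn).symm (S.T n))
  have h := (S.mp n hn).quasiMeasurePreserving.ae_eq_comp h1
  refine h.trans ?_
  refine Eventually.of_forall fun x => ?_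
  show G ((S.T n).symm (S.T n x)) = G x
  rw [MeasurableEquiv.symm_apply_apply]

theorem coe_b1 [IsFiniteMeasure μ] (A : Set X) (hA : MeasurableSet A) :
    (b1 μ A : X → ℂ) =ᵐ[μ] A.indicator fun _ => (1 : ℂ) := by
  have hm : MemLp (A.indicator fun _ => (1 : ℂ)) 2 μ := (memLp_const (1 : ℂ)).indicator hA
  have e : b1 μ A = hm.toLp _ := dif_pos hm
  rw [e]
  exact hm.coeFn_toLp

theorem ind (S : Sys μ) [IsFiniteMeasure μ] (n : ℕ) (A : Set X) (hn : 0 < n)
    (hA : MeasurableSet A) : U S n (b1 μ A) = b1 μ {x | S.T n x ∈ A} := by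
  apply Lp.ext
  refine (coe S n hn _).trans ?_
  have h := (S.mp n hn).quasiMeasurePreserving.ae_eq_comp (coe_b1 (μ := μ) A hA)
  refine h.trans ?_
  have hA' : MeasurableSet {x | S.T n x ∈ A} := (S.T n).measurable hA
  refine EventuallyEq.trans ?_ (coe_b1 (μ := μ) _ hA').symm
  exact Eventually.of_forall fun x => rfl

end XVUn

theorem pr_VUn : StVUn := by
  intro X _ μ S
  exact ⟨fun n hn F => XVUn.coe S n hn F, fun m n hm hn F => XVUn.mul S m n hm hn F,
    fun F => XVUn.one S F, fun x => XVUn.T_one S x, fun n hn => XVUn.surj S n hn,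
    fun n A hn hA _ => XVUn.ind S n A hn hA⟩

end Pool.Agent.F0f91f8.PC
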