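import Pool.Agent.Work.MP_0f91f8_co.PC.I_Nf
import Pool.Agent.Work.MP_0f91f8_co.PC.I_VGi
import Pool.Agent.Work.MP_0f91f8_co.PC.I_VSW
import Pool.Agent.Work.MP_0f91f8_co.PC.I_VDe
import Pool.Agent.Work.MP_0f91f8_co.PC.I_VLi
import Pool.Agent.Work.MP_0f91f8_co.PC.I_VUn
import Pool.Agent.Work.MP_0f91f8_co.PC.I_VSp
import Pool.Agent.Work.MP_0f91f8_co.PC.I_VJ
import Pool.Agent.Work.MP_0f91f8_co.PC.I_VJ3
import Pool.Agent.Work.MP_0f91f8_co.PC.I_VMn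
import Pool.Agent.Work.MP_0f91f8_co.PC.I_VRk
import Pool.Agent.Work.MP_0f91f8_co.PC.I_VSy
import Pool.Agent.Work.MP_0f91f8_co.EF.Ev
import Pool.Agent.Work.MP_0f91f8_co.EF.Haar
import Pool.Agent.Work.MP_0f91f8_co.EF.Fol
import Pool.Agent.Work.MP_0f91f8_co.EF.Cnt
import Pool.Agent.Work.MP_0f91f8_co.EF.Chr
import Pool.Agent.Work.MP_0f91f8_co.KT.PosE

/-!
# Block PC, module V: composition, no hypotheses (helper79)
-/

set_option autoImplicit false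

namespace Pool.Agent.F0f91f8.PC

open Pool.Agent.Work.MP_0f91f8_co.EF

/-- nested dominated convergence -/
theorem all_Nf : StNf := pr_Nf

theorem all_VUn : StVUn := pr_VUn

theorem all_VLi : StVLi := pr_VLi Ev_pf Fol_pf Cnt_pf (pr_VDe Ev_pf (Haar_pf Ev_pf))

/-- spectral isometries -/
theorem all_SpecS : SpecS := pr_VSp Ev_pf pr_VGi (pr_VSW Ev_pf) all_VLi all_VUn

theorem all_VJ : StVJ := pr_VJ Ev_pf Fol_pf (Chr_pf Ev_pf) all_VUn

theorem all_VJ3 : StVJ3 := pr_VJ3 Ev_pf Fol_pf (Chr_pf Ev_pf) all_VLi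

/-- the main term -/
theorem all_MainS : MainS :=
  pr_VMn (fun f1 f2 h1 h2 ε hε => Pool.Agent.F0f91f8.KT.all_Pos3E 1 one_pos f1 f2 h1 h2 ε hε)
    Ev_pf all_Nf all_VUn all_VJ all_VJ3

/-- existence of systems -/
theorem all_SysS : SysS := pr_VSy pr_VRk

end Pool.Agent.F0f91f8.PC
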