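import Pool.Agent.Work.MP_0f91f8_co.PC.StmtsB
import Pool.Agent.Work.MP_0f91f8_co.EF.Ev

/-!
# Block PC, item BAp: the aperiodic averages, in the mean (helper91)
-/

set_option autoImplicit false

namespace Pool.Agent.F0f91f8.PC

open Filter Topology ComplexConjugate MeasureTheory
open Pool.Agent.F0f91f8.HD Pool.Agent.F0f91f8.RC Pool.Agent.F0f91f8.KR Pool.Agent.F0f91f8.FC
open Pool.Agent.Work.MP_0f91f8_co.EF (GG ev Ev_pf)
open scoped BigOperators

namespace IBAp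

theorem cm (g : GG) : CM (ev g) := ⟨(Ev_pf.1 g).zero, (Ev_pf.1 g).mul, (Ev_pf.1 g).norm⟩

theorem ev_le (g : GG) (n : ℕ) : ‖ev g n‖ ≤ 1 := by
  rcases Nat.eq_zero_or_pos n with h | h
  · rw [h, (cm g).1, norm_zero]
    exact zero_le_one
  · exact ((cm g).2.2 n h).le

theorem bd (Q D a₀ M : ℕ) (G : ℕ → ℕ → ℂ) (hG : ∀ a n, ‖G a n‖ ≤ 1) : ‖BxR Q D a₀ M G‖ ≤ 1 := by
  unfold BxR Bx
  rw [norm_div]
  have h0 : ‖((M : ℂ) ^ 2 * ((D * M : ℕ) : ℂ) ^ 2)‖ = (M : ℝ) ^ 2 * ((D * M : ℕ) : ℝ) ^ 2 := by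
    rw [norm_mul, norm_pow, norm_pow, Complex.norm_natCast, Complex.norm_natCast]
  rw [h0]
  refine div_le_one_of_le₀ ?_ (by positivity)
  have h1 : ‖∑ u ∈ Finset.Icc 1 M, ∑ u' ∈ Finset.Icc 1 M, ∑ v ∈ Finset.Icc 1 (D * M),
      ∑ v' ∈ Finset.Icc 1 (D * M), (fun a n => G a (Q * n + 1)) (Q * (v + v') + a₀) (u + u')‖ ≤
      ∑ u ∈ Finset.Icc 1 M, ∑ u' ∈ Finset.Icc 1 M, ∑ v ∈ Finset.Icc 1 (D * M),
        ∑ v' ∈ Finset.Icc 1 (D * M), (1 : ℝ) :=
    norm_sum_le_of_le _ fun u _ => norm_sum_le_of_le _ fun u' _ => norm_sum_le_of_le _ fun v _ =>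
      norm_sum_le_of_le _ fun v' _ => hG _ _
  refine h1.trans (le_of_eq ?_)
  simp only [Finset.sum_const, Nat.card_Icc, nsmul_eq_mul, add_tsub_cancel_right, mul_one]
  push_cast
  ring

theorem cont (Q D a₀ M : ℕ) (c : ℕ → ℕ → ℂ) (t : ℕ → ℕ → ℕ) :
    Continuous fun g : GG => BxR Q D a₀ M fun a n => c a n * ev g (t a n) := by
  unfold BxR Bx
  refine Continuous.div_const ?_ _
  refine continuous_finsetSum _ fun u _ => ?_
  refine continuous_finsetSum _ fun u' _ => ?_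
  refine continuous_finsetSum _ fun v _ => ?_
  refine continuous_finsetSum _ fun v' _ => ?_
  exact continuous_const.mul (Ev_pf.2.1 _)

end IBAp

/-- Item BAp. -/
theorem pr_BAp (hA : Aper3) (hP : PretStmt) : StBAp := by
  intro σ _ χ χ' hn κ k Q D hκ hk hQ hD
  have hor : Aper (ev χ) ∨ Aper (ev χ') := by
    rcases hn with h | h
    · left
      by_contra h'
      exact h (hP _ (IBAp.cm χ) h')
    · right
      by_contra h'
      exact h (hP _ (IBAp.cm χ') h')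
  have key := tendsto_integral_of_dominated_convergence (μ := σ)
    (F := fun (M : ℕ) (g : GG) => ‖BxR Q D 1 M fun a n =>
      ev χ (tX κ k a n) * ev χ' (tY κ k a n) * ev g (tZ κ k a n)‖ ^ 2)
    (f := fun _ : GG => (0 : ℝ)) (fun _ => (1 : ℝ)) ?_ (integrable_const 1) ?_ ?_
  · rw [integral_zero] at key
    exact key
  · intro M
    exact ((IBAp.cont Q D 1 M (fun a n => ev χ (tX κ k a n) * ev χ' (tY κ k a n))
      (fun a n => tZ κ k a n)).norm.pow 2).aestronglyMeasurable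
  · intro M
    refine Eventually.of_forall fun g => ?_
    have h1 : ‖BxR Q D 1 M fun a n =>
        ev χ (tX κ k a n) * ev χ' (tY κ k a n) * ev g (tZ κ k a n)‖ ≤ 1 := by
      refine IBAp.bd Q D 1 M _ fun a n => ?_
      rw [norm_mul, norm_mul]
      have e1 := IBAp.ev_le χ (tX κ k a n)
      have e2 := IBAp.ev_le χ' (tY κ k a n)
      have e3 := IBAp.ev_le g (tZ κ k a n)
      have e4 : ‖ev χ (tX κ k a n)‖ * ‖ev χ' (tY κ k a n)‖ ≤ 1 :=
        mul_le_one₀ e1 (norm_nonneg _) e2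
      exact mul_le_one₀ e4 (norm_nonneg _) e3
    rw [Real.norm_of_nonneg (by positivity)]
    exact pow_le_one₀ (norm_nonneg _) h1
  · refine Eventually.of_forall fun g => ?_
    have h1 := hA (ev χ) (ev χ') (ev g) (IBAp.cm χ) (IBAp.cm χ') (IBAp.cm g) hor κ k Q D 1 hκ hk hQ hD
    have h2 := h1.norm.pow 2
    rw [norm_zero, zero_pow two_ne_zero] at h2
    exact h2

end Pool.Agent.F0f91f8.PC
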