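import Pool.Agent.Work.MP_0f91f8_co.PC.StmtsB
import Pool.Agent.Work.MP_0f91f8_co.EF.Ev

/-!
# Block PC, item BAs: the trilinear form and two means (helper4)
-/

set_option autoImplicit false

namespace Pool.Agent.F0f91f8.PC

open Filter Topology ComplexConjugate MeasureTheory
open Pool.Agent.F0f91f8.HD Pool.Agent.F0f91f8.RC Pool.Agent.F0f91f8.KR Pool.Agent.F0f91f8.FC
open Pool.Agent.Work.MP_0f91f8_co.EF (GG ev)
open scoped BigOperators

namespace IBAs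

lemma evn (g : GG) {n : ℕ} (hn : 0 < n) : ‖ev g n‖ = 1 := by
  rw [Pool.Agent.Work.MP_0f91f8_co.EF.XEv.ev_pos g hn.ne', Circle.norm_coe]

lemma evc (n : ℕ) : Continuous fun g : GG => ev g n :=
  (Pool.Agent.Work.MP_0f91f8_co.EF.Ev_pf).2.1 n

/-- the abstract decomposition -/
lemma core {L ι : Type} [NormedAddCommGroup L] [NormedSpace ℂ L] (I : Finset ι) (hI : I.Nonempty)
    (b : ι → L → L → ℂ) (hb : ∀ i H G, ‖b i H G‖ ≤ ‖H‖ * ‖G‖) (hs : ∀ i H G, b i H G = b i G H)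
    (ha : ∀ i H H' G, b i (H + H') G = b i H G + b i H' G)
    (F G : ι → L) (hG : ∀ i ∈ I, ‖G i‖ ≤ 1) (Fm Gm : L) (hFm : ‖Fm‖ ≤ 1)
    (w : ι → ℂ) (hw : ∀ i ∈ I, ‖w i‖ ≤ 1) :
    ‖(∑ i ∈ I, w i * b i (F i) (G i)) / (I.card : ℂ)‖ ≤
      (∑ i ∈ I, ‖F i - Fm‖) / (I.card : ℝ) + (∑ i ∈ I, ‖G i - Gm‖) / (I.card : ℝ) +
        ‖(∑ i ∈ I, w i * b i Fm Gm) / (I.card : ℂ)‖ := by
  have hN : (0 : ℝ) < (I.card : ℝ) := by exact_mod_cast hI.card_pos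
  have e : ∀ i, w i * b i (F i) (G i) = w i * b i (F i - Fm) (G i) + w i * b i (G i - Gm) Fm +
      w i * b i Fm Gm := by
    intro i
    have h1 : b i (F i) (G i) = b i (F i - Fm) (G i) + b i Fm (G i) := by
      rw [← ha, sub_add_cancel]
    have h2 : b i Fm (G i) = b i (G i - Gm) Fm + b i Fm Gm := by
      rw [hs i Fm (G i), hs i Fm Gm, ← ha, sub_add_cancel]
    rw [h1, h2]; ring
  have e2 : (∑ i ∈ I, w i * b i (F i) (G i)) / (I.card : ℂ) =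
      (∑ i ∈ I, w i * b i (F i - Fm) (G i)) / (I.card : ℂ) +
      (∑ i ∈ I, w i * b i (G i - Gm) Fm) / (I.card : ℂ) +
      (∑ i ∈ I, w i * b i Fm Gm) / (I.card : ℂ) := by
    rw [Finset.sum_congr rfl fun i _ => e i, Finset.sum_add_distrib, Finset.sum_add_distrib]
    ring
  have hdiv : ∀ z : ℂ, ‖z / (I.card : ℂ)‖ = ‖z‖ / (I.card : ℝ) := by
    intro z; rw [norm_div, Complex.norm_natCast]
  have b1 : ‖(∑ i ∈ I, w i * b i (F i - Fm) (G i)) / (I.card : ℂ)‖ ≤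
      (∑ i ∈ I, ‖F i - Fm‖) / (I.card : ℝ) := by
    rw [hdiv]
    refine div_le_div_of_nonneg_right ((norm_sum_le _ _).trans (Finset.sum_le_sum fun i hi => ?_))
      hN.le
    rw [norm_mul]
    calc ‖w i‖ * ‖b i (F i - Fm) (G i)‖ ≤ 1 * (‖F i - Fm‖ * ‖G i‖) :=
          mul_le_mul (hw i hi) (hb _ _ _) (norm_nonneg _) zero_le_one
      _ ≤ 1 * (‖F i - Fm‖ * 1) := by
          gcongr; exact hG i hi
      _ = _ := by ring
  have b2 : ‖(∑ i ∈ I, w i * b i (G i - Gm) Fm) / (I.card : ℂ)‖ ≤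
      (∑ i ∈ I, ‖G i - Gm‖) / (I.card : ℝ) := by
    rw [hdiv]
    refine div_le_div_of_nonneg_right ((norm_sum_le _ _).trans (Finset.sum_le_sum fun i hi => ?_))
      hN.le
    rw [norm_mul]
    calc ‖w i‖ * ‖b i (G i - Gm) Fm‖ ≤ 1 * (‖G i - Gm‖ * ‖Fm‖) :=
          mul_le_mul (hw i hi) (hb _ _ _) (norm_nonneg _) zero_le_one
      _ ≤ 1 * (‖G i - Gm‖ * 1) := by
          gcongr
      _ = _ := by ring
  rw [e2]
  refine (norm_add_le _ _).trans (add_le_add ((norm_add_le _ _).trans (add_le_add b1 b2)) le_rfl)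

lemma norm_mean {L ι : Type} [NormedAddCommGroup L] [NormedSpace ℂ L] (I : Finset ι)
    (hI : I.Nonempty) (F : ι → L) (hF : ∀ i ∈ I, ‖F i‖ ≤ 1) :
    ‖(I.card : ℂ)⁻¹ • ∑ i ∈ I, F i‖ ≤ 1 := by
  have hN : (0 : ℝ) < (I.card : ℝ) := by exact_mod_cast hI.card_pos
  rw [norm_smul, norm_inv, Complex.norm_natCast]
  have h : ‖∑ i ∈ I, F i‖ ≤ (I.card : ℝ) := by
    refine (norm_sum_le _ _).trans ((Finset.sum_le_sum hF).trans ?_)
    simp
  calc (I.card : ℝ)⁻¹ * ‖∑ i ∈ I, F i‖ ≤ (I.card : ℝ)⁻¹ * (I.card : ℝ) := by gcongr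
    _ = 1 := inv_mul_cancel₀ hN.ne'

/-- the mean of the deviations -/
lemma dev (hVr : StBVr) (hV : StCV) (hSp : StBSp) (X : Type) (mX : MeasurableSpace X)
    (μ : Measure X) (hμ : IsProbabilityMeasure μ) (S : Sys μ) (A : Set X) (hA : MeasurableSet A)
    (σ : Measure GG) (hσ : IsFiniteMeasure σ) (V : SpV S (b1 μ A) σ) (E : Set GG) (hE : MeasurableSet E) (χ : GG)
    (ι : Type) (I : Finset ι) (hI : I.Nonempty) (x : ι → ℕ) (hx : ∀ i ∈ I, 0 < x i) :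
    (∑ i ∈ I, ‖conj (ev χ (x i)) • U S (x i) (V.V (b1 σ E)) -
      (I.card : ℂ)⁻¹ • ∑ j ∈ I, conj (ev χ (x j)) • U S (x j) (V.V (b1 σ E))‖) / (I.card : ℝ) ≤
    Real.sqrt (∫ g in E, (1 - ‖(∑ i ∈ I, ev g (x i) * conj (ev χ (x i))) / (I.card : ℂ)‖ ^ 2) ∂σ) := by
  have hN : (0 : ℝ) < (I.card : ℝ) := by exact_mod_cast hI.card_pos
  refine (hVr (Lp ℂ 2 μ) _ _ ι I hI (fun i => conj (ev χ (x i)) • U S (x i) (V.V (b1 σ E)))).trans
    (Real.sqrt_le_sqrt (le_of_eq ?_))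
  have h1 : ∀ i ∈ I, ‖conj (ev χ (x i)) • U S (x i) (V.V (b1 σ E))‖ ^ 2 = σ.real E := by
    intro i hi
    rw [norm_smul, RCLike.norm_conj, evn χ (hx i hi), one_mul, LinearIsometry.norm_map]
    exact (hV X mX μ hμ S A hA σ hσ V E hE).2.2.1
  rw [Finset.sum_congr rfl h1, Finset.sum_const, nsmul_eq_mul, mul_div_cancel_left₀ _ hN.ne']
  have h2 : (I.card : ℂ)⁻¹ • ∑ j ∈ I, conj (ev χ (x j)) • U S (x j) (V.V (b1 σ E)) =
      ∑ j ∈ I, ((I.card : ℂ)⁻¹ * conj (ev χ (x j))) • U S (x j) (V.V (b1 σ E)) := by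
    rw [Finset.smul_sum]
    exact Finset.sum_congr rfl fun j _ => by rw [smul_smul]
  have h2' : ‖(I.card : ℂ)⁻¹ • ∑ j ∈ I, (fun i => conj (ev χ (x i)) • U S (x i) (V.V (b1 σ E))) j‖ ^ 2 =
      ∫ g in E, ‖(∑ i ∈ I, ev g (x i) * conj (ev χ (x i))) / (I.card : ℂ)‖ ^ 2 ∂σ := by
    show ‖(I.card : ℂ)⁻¹ • ∑ j ∈ I, conj (ev χ (x j)) • U S (x j) (V.V (b1 σ E))‖ ^ 2 = _
    rw [h2, hSp X mX μ hμ S (b1 μ A) σ hσ V E hE ι I _ x hx]
    refine integral_congr_ae (Filter.Eventually.of_forall fun g => ?_)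
    show ‖_‖ ^ 2 = ‖_‖ ^ 2
    congr 2
    rw [Finset.sum_div]
    exact Finset.sum_congr rfl fun i _ => by rw [div_eq_mul_inv]; ring
  rw [h2']
  have hc : Continuous fun g : GG => ‖(∑ i ∈ I, ev g (x i) * conj (ev χ (x i))) / (I.card : ℂ)‖ ^ 2 :=
    (((continuous_finsetSum _ fun i _ => (evc (x i)).mul continuous_const).div_const _).norm).pow 2
  have hint : Integrable (fun g : GG =>
      ‖(∑ i ∈ I, ev g (x i) * conj (ev χ (x i))) / (I.card : ℂ)‖ ^ 2) (σ.restrict E) := by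
    refine Integrable.of_bound hc.aestronglyMeasurable 1 (Filter.Eventually.of_forall fun g => ?_)
    rw [Real.norm_eq_abs, abs_of_nonneg (by positivity)]
    have h3 : ‖(∑ i ∈ I, ev g (x i) * conj (ev χ (x i))) / (I.card : ℂ)‖ ≤ 1 := by
      have := norm_mean I hI (fun i => ev g (x i) * conj (ev χ (x i))) (fun i hi => by
        rw [norm_mul, RCLike.norm_conj, evn g (hx i hi), evn χ (hx i hi), one_mul])
      rwa [smul_eq_mul, inv_mul_eq_div] at this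
    exact pow_le_one₀ (norm_nonneg _) h3
  rw [integral_sub (integrable_const _) hint, integral_const, smul_eq_mul, mul_one,
    measureReal_restrict_apply_univ]

end IBAs

open IBAs in
theorem pr_BAs (hU : StCU) (hB : StCB) (hV : StCV) (hVr : StBVr) (hSp : StBSp) (hTf : StBTf) :
    StBAs := by
  intro X mX μ hμ S A hA σ hσ V E E' hE hE' η hη
  obtain ⟨B, hB0, hB1⟩ := hTf X mX μ hμ S A hA (V.V (b1 σ E)) η hη
  refine ⟨B, hB0, ?_⟩
  intro χ χ' ι I hI x y z hpos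
  have hN : (0 : ℝ) < (I.card : ℝ) := by exact_mod_cast hI.card_pos
  obtain ⟨c1, c2, c3, c4, -, -, -⟩ := hB X mX μ hμ S A hA
  have hH : ‖V.V (b1 σ E)‖ ≤ 1 := (hV X mX μ hμ S A hA σ hσ V E hE).2.1
  have hG : ‖V.V (b1 σ E')‖ ≤ 1 := (hV X mX μ hμ S A hA σ hσ V E' hE').2.1
  set H := V.V (b1 σ E) with hHd
  set G := V.V (b1 σ E') with hGd
  set Fi : ι → Lp ℂ 2 μ := fun i => conj (ev χ (x i)) • U S (x i) H with hFi
  set Gi : ι → Lp ℂ 2 μ := fun i => conj (ev χ' (y i)) • U S (y i) G with hGi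
  set Fm := (I.card : ℂ)⁻¹ • ∑ j ∈ I, Fi j with hFm
  set Gm := (I.card : ℂ)⁻¹ • ∑ j ∈ I, Gi j with hGm
  have nF : ∀ i ∈ I, ‖Fi i‖ ≤ 1 := by
    intro i hi
    show ‖conj (ev χ (x i)) • U S (x i) H‖ ≤ 1
    rw [norm_smul, RCLike.norm_conj, evn χ (hpos i hi).1, one_mul, LinearIsometry.norm_map]
    exact hH
  have nG : ∀ i ∈ I, ‖Gi i‖ ≤ 1 := by
    intro i hi
    show ‖conj (ev χ' (y i)) • U S (y i) G‖ ≤ 1
    rw [norm_smul, RCLike.norm_conj, evn χ' (hpos i hi).2.1, one_mul, LinearIsometry.norm_map]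
    exact hG
  have nFm : ‖Fm‖ ≤ 1 := norm_mean I hI Fi nF
  have nGm : ‖Gm‖ ≤ 1 := norm_mean I hI Gi nG
  have hw : ∀ i ∈ I, ‖ev χ (x i) * ev χ' (y i)‖ ≤ 1 := by
    intro i hi
    rw [norm_mul, evn χ (hpos i hi).1, evn χ' (hpos i hi).2.1, one_mul]
  have hcc : ∀ (g : GG) (n : ℕ), 0 < n → ev g n * conj (ev g n) = 1 := by
    intro g n hn
    rw [Complex.mul_conj, Complex.normSq_eq_norm_sq, evn g hn]; norm_num
  have e1 : ∀ i ∈ I, bt S A (z i) (U S (x i) H) (U S (y i) G) =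
      (ev χ (x i) * ev χ' (y i)) * bt S A (z i) (Fi i) (Gi i) := by
    intro i hi
    show _ = (ev χ (x i) * ev χ' (y i)) *
      bt S A (z i) (conj (ev χ (x i)) • U S (x i) H) (conj (ev χ' (y i)) • U S (y i) G)
    rw [c4, c2 (z i) (U S (x i) H) (conj (ev χ' (y i)) • U S (y i) G), c4,
      c2 (z i) (U S (y i) G) (U S (x i) H)]
    have h1 := hcc χ (x i) (hpos i hi).1
    have h2 := hcc χ' (y i) (hpos i hi).2.1
    linear_combination (-(ev χ' (y i) * conj (ev χ' (y i)) * bt S A (z i) (U S (x i) H) (U S (y i) G))) * h1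
      - bt S A (z i) (U S (x i) H) (U S (y i) G) * h2
  rw [Finset.sum_congr rfl e1]
  refine (core I hI (fun i => bt S A (z i)) (fun i => c1 (z i)) (fun i => c2 (z i))
    (fun i => c3 (z i)) Fi Gi nG Fm Gm nFm _ hw).trans ?_
  have d1 := dev hVr hV hSp X mX μ hμ S A hA σ hσ V E hE χ ι I hI x (fun i hi => (hpos i hi).1)
  have d2 := dev hVr hV hSp X mX μ hμ S A hA σ hσ V E' hE' χ' ι I hI y (fun i hi => (hpos i hi).2.1)
  have d3 : ‖(∑ i ∈ I, ev χ (x i) * ev χ' (y i) * bt S A (z i) Fm Gm) / (I.card : ℂ)‖ ≤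
      B * Real.sqrt (∫ g, ‖(∑ i ∈ I, ev χ (x i) * ev χ' (y i) * ev g (z i)) / (I.card : ℂ)‖ ^ 2 ∂σ) +
      η := by
    have t1 := hB1 ι I hI (fun i => conj (ev χ (x i))) (fun i => ev χ (x i) * ev χ' (y i)) x z
      (fun i hi => ⟨by rw [RCLike.norm_conj, evn χ (hpos i hi).1], hw i hi, (hpos i hi).1,
        (hpos i hi).2.2⟩) Gm
    have t2 : ‖(I.card : ℂ)⁻¹ • ∑ i ∈ I, (ev χ (x i) * ev χ' (y i)) • U S (z i) (b1 μ A)‖ =
        Real.sqrt (∫ g, ‖(∑ i ∈ I, ev χ (x i) * ev χ' (y i) * ev g (z i)) / (I.card : ℂ)‖ ^ 2 ∂σ) := by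
      have t3 : (I.card : ℂ)⁻¹ • ∑ i ∈ I, (ev χ (x i) * ev χ' (y i)) • U S (z i) (b1 μ A) =
          ∑ i ∈ I, ((I.card : ℂ)⁻¹ * (ev χ (x i) * ev χ' (y i))) •
            U S (z i) (V.V (b1 σ Set.univ)) := by
        rw [Finset.smul_sum, V.one]
        exact Finset.sum_congr rfl fun j _ => by rw [smul_smul]
      have t4 := hSp X mX μ hμ S (b1 μ A) σ hσ V Set.univ MeasurableSet.univ ι I
        (fun i => (I.card : ℂ)⁻¹ * (ev χ (x i) * ev χ' (y i))) z (fun i hi => (hpos i hi).2.2)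
      rw [t3, ← Real.sqrt_sq (norm_nonneg _), t4, Measure.restrict_univ]
      congr 1
      refine integral_congr_ae (Filter.Eventually.of_forall fun g => ?_)
      show ‖_‖ ^ 2 = ‖_‖ ^ 2
      congr 2
      rw [Finset.sum_div]
      exact Finset.sum_congr rfl fun i _ => by rw [div_eq_mul_inv]; ring
    rw [t2] at t1
    refine t1.trans ?_
    have hs : 0 ≤ B * Real.sqrt (∫ g, ‖(∑ i ∈ I, ev χ (x i) * ev χ' (y i) * ev g (z i)) /
        (I.card : ℂ)‖ ^ 2 ∂σ) + η := by positivity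
    calc _ ≤ (B * Real.sqrt (∫ g, ‖(∑ i ∈ I, ev χ (x i) * ev χ' (y i) * ev g (z i)) /
        (I.card : ℂ)‖ ^ 2 ∂σ) + η) * 1 := mul_le_mul_of_nonneg_left nGm hs
      _ = _ := mul_one _
  linarith [d1, d2, d3]

end Pool.Agent.F0f91f8.PC
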