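import Pool.Agent.Work.MP_0f91f8_co.PC.StmtsB

/-!
# Block PC, item BCl: countably many classes and the continuous part
-/

set_option autoImplicit false

namespace Pool.Agent.F0f91f8.PC

open Filter Topology ComplexConjugate MeasureTheory
open Pool.Agent.F0f91f8.HD Pool.Agent.F0f91f8.RC Pool.Agent.F0f91f8.KR Pool.Agent.F0f91f8.FC
open Pool.Agent.Work.MP_0f91f8_co.EF (GG ev)
open scoped BigOperators

open Classical in
/-- [BCl] -/
theorem pr_BCl (hEq : StBEq) (hMe : StBMe) : StBCl := by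
  intro σ hσ
  obtain ⟨e1, e2, e3⟩ := hEq
  obtain ⟨m1, m2⟩ := hMe
  let s : Setoid GG := ⟨Rl, ⟨e1, fun h => e2 _ _ h, fun h h' => e3 _ _ _ h h'⟩⟩
  have hmk : ∀ x : GG, Rl x (Quotient.mk s x).out := fun x =>
    e2 _ _ (Quotient.exact (Quotient.out_eq (Quotient.mk s x)))
  have hdisj : ∀ q q' : Quotient s, q ≠ q' → Disjoint (cls q.out) (cls q'.out) := by
    intro q q' hne
    rw [Set.disjoint_left]
    intro x hx hx'
    apply hne
    have h1 : Rl q.out q'.out := e3 _ _ _ (e2 _ _ hx) hx'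
    have h2 : Quotient.mk s q.out = Quotient.mk s q'.out := Quotient.sound h1
    rwa [Quotient.out_eq, Quotient.out_eq] at h2
  have hcount : Set.Countable {q : Quotient s | 0 < σ (cls q.out)} :=
    Measure.countable_meas_pos_of_disjoint_iUnion (fun q => m2 q.out)
      (fun q q' hne => hdisj q q' hne)
  have hct := hcount.to_subtype
  obtain ⟨i, hi⟩ := exists_injective_nat {q : Quotient s | 0 < σ (cls q.out)}
  let C : ℕ → Set GG := fun j => if h : ∃ q, i q = j then cls h.choose.1.out else ∅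
  let χ : ℕ → GG := fun j => if h : ∃ q, i q = j then h.choose.1.out else 1
  have hC1 : ∀ (j : ℕ) (h : ∃ q, i q = j), C j = cls h.choose.1.out := fun j h => dif_pos h
  have hC0 : ∀ (j : ℕ), (¬ ∃ q, i q = j) → C j = ∅ := fun j h => dif_neg h
  have hχ1 : ∀ (j : ℕ) (h : ∃ q, i q = j), χ j = h.choose.1.out := fun j h => dif_pos h
  have hCi : ∀ q, C (i q) = cls q.1.out := by
    intro q
    have h : ∃ q', i q' = i q := ⟨q, rfl⟩
    rw [hC1 _ h, hi h.choose_spec]
  have hCm : ∀ j, MeasurableSet (C j) := by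
    intro j
    by_cases h : ∃ q, i q = j
    · rw [hC1 j h]
      exact m2 _
    · rw [hC0 j h]
      exact MeasurableSet.empty
  have hEm : MeasurableSet (⋃ j, C j)ᶜ := (MeasurableSet.iUnion hCm).compl
  refine ⟨C, χ, fun j => ⟨hCm j, ?_⟩, ?_, hEm, ?_⟩
  · by_cases h : ∃ q, i q = j
    · right
      rw [hC1 j h, hχ1 j h]
    · left
      exact hC0 j h
  · intro j j' hne
    by_cases h : ∃ q, i q = j
    · by_cases h' : ∃ q, i q = j'
      · rw [hC1 j h, hC1 j' h']
        refine hdisj _ _ fun he => hne ?_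
        rw [← h.choose_spec, ← h'.choose_spec]
        exact congrArg i (Subtype.ext he)
      · rw [hC0 j' h']
        exact Set.disjoint_empty _
    · rw [hC0 j h]
      exact Set.empty_disjoint _
  · have hS : MeasurableSet {p : GG × GG | p.1 ∈ (⋃ j, C j)ᶜ ∧ p.2 ∈ (⋃ j, C j)ᶜ ∧
        Rl p.1 p.2} :=
      (measurable_fst hEm).inter ((measurable_snd hEm).inter m1)
    rw [Measure.measure_prod_null hS]
    refine Eventually.of_forall fun x => ?_
    show σ (Prod.mk x ⁻¹' {p : GG × GG | p.1 ∈ (⋃ j, C j)ᶜ ∧ p.2 ∈ (⋃ j, C j)ᶜ ∧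
        Rl p.1 p.2}) = 0
    by_cases hx : x ∈ (⋃ j, C j)ᶜ
    · have hz : σ (cls (Quotient.mk s x).out) = 0 := by
        by_contra hcon
        have hpos : 0 < σ (cls (Quotient.mk s x).out) := pos_iff_ne_zero.2 hcon
        apply hx
        refine Set.mem_iUnion.2 ⟨i ⟨Quotient.mk s x, hpos⟩, ?_⟩
        rw [hCi]
        exact hmk x
      refine measure_mono_null ?_ hz
      rintro y ⟨-, -, hy⟩
      exact e3 _ _ _ (e2 _ _ hy) (hmk x)
    · have he : Prod.mk x ⁻¹' {p : GG × GG | p.1 ∈ (⋃ j, C j)ᶜ ∧ p.2 ∈ (⋃ j, C j)ᶜ ∧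
          Rl p.1 p.2} = ∅ := by
        refine Set.eq_empty_of_forall_notMem fun y hy => hx hy.1
      rw [he, measure_empty]

end Pool.Agent.F0f91f8.PC
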