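import Pool.Agent.Work.MP_0f91f8_co.PC.StmtsB
import Pool.Agent.Work.MP_0f91f8_co.EF.Ev

/-!
# Block PC, module B, item BCx: concentration on a part of a class
-/

set_option autoImplicit false

namespace Pool.Agent.F0f91f8.PC

open Filter Topology ComplexConjugate MeasureTheory
open Pool.Agent.F0f91f8.HD Pool.Agent.F0f91f8.RC Pool.Agent.F0f91f8.KR Pool.Agent.F0f91f8.FC
open Pool.Agent.Work.MP_0f91f8_co.EF (GG ev)
open scoped BigOperators

namespace IBCx

open Pool.Agent.Work.MP_0f91f8_co.EF (Ev_pf)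

lemma ev_le (g : GG) (n : ℕ) : ‖ev g n‖ ≤ 1 := by
  rcases Nat.eq_zero_or_pos n with h | h
  · subst h
    rw [(Ev_pf.1 g).zero, norm_zero]
    exact zero_le_one
  · exact le_of_eq ((Ev_pf.1 g).norm n h)

/-- averages of functions bounded by one are bounded by one -/
lemma Bx_le (Q D a₀ M : ℕ) (G : ℕ → ℕ → ℂ) (h : ∀ a n, ‖G a n‖ ≤ 1) : ‖Bx Q D a₀ M G‖ ≤ 1 := by
  unfold Bx
  rw [norm_div]
  have hden : ‖(M : ℂ) ^ 2 * ((D * M : ℕ) : ℂ) ^ 2‖ = (M : ℝ) ^ 2 * ((D * M : ℕ) : ℝ) ^ 2 := by
    rw [norm_mul, norm_pow, norm_pow, Complex.norm_natCast, Complex.norm_natCast]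
  rw [hden]
  refine div_le_one_of_le₀ ?_ (by positivity)
  calc ‖∑ u ∈ Finset.Icc 1 M, ∑ u' ∈ Finset.Icc 1 M, ∑ v ∈ Finset.Icc 1 (D * M),
        ∑ v' ∈ Finset.Icc 1 (D * M), G (Q * (v + v') + a₀) (u + u')‖
      ≤ ∑ u ∈ Finset.Icc 1 M, ∑ u' ∈ Finset.Icc 1 M, ∑ v ∈ Finset.Icc 1 (D * M),
        ∑ v' ∈ Finset.Icc 1 (D * M), (1 : ℝ) := by
        refine (norm_sum_le _ _).trans (Finset.sum_le_sum fun u _ => ?_)
        refine (norm_sum_le _ _).trans (Finset.sum_le_sum fun u' _ => ?_)
        refine (norm_sum_le _ _).trans (Finset.sum_le_sum fun v _ => ?_)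
        exact (norm_sum_le _ _).trans (Finset.sum_le_sum fun v' _ => h _ _)
    _ = (M : ℝ) ^ 2 * ((D * M : ℕ) : ℝ) ^ 2 := by
        simp only [Finset.sum_const, Nat.card_Icc, Nat.add_sub_cancel, nsmul_eq_mul, mul_one]
        ring

/-- the two cases -/
def TT (b : Bool) (κ k a n : ℕ) : ℕ := if b then tX κ k a n else tY κ k a n

/-- the function of `g` -/
noncomputable def qq (χ : GG) (b : Bool) (w K M : ℕ) (e : Fin (w + 1) → Fin K)
    (e' : Fin (K + 1) → Fin K) (g : GG) : ℝ :=
  1 - ‖BFK 1 w K M fun a n => ev g (TT b (kR 1 w K e) (kK 1 w K e') a n) *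
    conj (ev χ (TT b (kR 1 w K e) (kK 1 w K e') a n))‖ ^ 2

lemma qq_nonneg (χ : GG) (b : Bool) (w K M : ℕ) (e : Fin (w + 1) → Fin K)
    (e' : Fin (K + 1) → Fin K) (g : GG) : 0 ≤ qq χ b w K M e e' g := by
  unfold qq
  have h : ‖BFK 1 w K M fun a n => ev g (TT b (kR 1 w K e) (kK 1 w K e') a n) *
      conj (ev χ (TT b (kR 1 w K e) (kK 1 w K e') a n))‖ ≤ 1 := by
    unfold BFK BxR
    refine Bx_le _ _ _ _ _ fun a n => ?_
    rw [norm_mul, RCLike.norm_conj]
    exact mul_le_one₀ (ev_le _ _) (norm_nonneg _) (ev_le _ _)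
  have h2 := pow_le_one₀ (n := 2) (norm_nonneg _) h
  linarith

lemma qq_le (χ : GG) (b : Bool) (w K M : ℕ) (e : Fin (w + 1) → Fin K)
    (e' : Fin (K + 1) → Fin K) (g : GG) : qq χ b w K M e e' g ≤ 1 := by
  unfold qq
  linarith [sq_nonneg ‖BFK 1 w K M fun a n => ev g (TT b (kR 1 w K e) (kK 1 w K e') a n) *
    conj (ev χ (TT b (kR 1 w K e) (kK 1 w K e') a n))‖]

lemma qq_cont (χ : GG) (b : Bool) (w K M : ℕ) (e : Fin (w + 1) → Fin K)
    (e' : Fin (K + 1) → Fin K) : Continuous (qq χ b w K M e e') := by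
  unfold qq BFK BxR Bx
  refine continuous_const.sub ((Continuous.norm ?_).pow 2)
  refine Continuous.div_const ?_ _
  refine continuous_finsetSum _ fun u _ => continuous_finsetSum _ fun u' _ =>
    continuous_finsetSum _ fun v _ => continuous_finsetSum _ fun v' _ => ?_
  exact (Ev_pf.2.1 _).mul continuous_const

/-- the index set -/
abbrev Ix (w K : ℕ) : Type := Option (Bool × (Fin (w + 1) → Fin K) × (Fin (K + 1) → Fin K))

/-- the family with the extra member `0` -/
noncomputable def ff (χ : GG) (E : Set GG) (w K M : ℕ) (i : Ix w K) (g : GG) : ℝ :=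
  match i with
  | none => 0
  | some (b, e, e') => E.indicator (qq χ b w K M e e') g

lemma ff_nonneg (χ : GG) (E : Set GG) (w K M : ℕ) (i : Ix w K) (g : GG) :
    0 ≤ ff χ E w K M i g := by
  rcases i with _ | ⟨b, e, e'⟩
  · exact le_refl _
  · exact Set.indicator_nonneg (fun g _ => qq_nonneg χ b w K M e e' g) g

lemma ff_le (χ : GG) (E : Set GG) (w K M : ℕ) (i : Ix w K) (g : GG) :
    ff χ E w K M i g ≤ 1 := by
  rcases i with _ | ⟨b, e, e'⟩
  · exact zero_le_one
  · exact Set.indicator_apply_le' (fun _ => qq_le χ b w K M e e' g) (fun _ => zero_le_one)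

lemma ff_meas (χ : GG) {E : Set GG} (hE : MeasurableSet E) (w K M : ℕ) (i : Ix w K) :
    Measurable (ff χ E w K M i) := by
  rcases i with _ | ⟨b, e, e'⟩
  · exact measurable_const
  · exact (qq_cont χ b w K M e e').measurable.indicator hE

/-- the supremum -/
noncomputable def FF' (χ : GG) (E : Set GG) (w K M : ℕ) : GG → ℝ :=
  (Finset.univ : Finset (Ix w K)).sup' ⟨none, Finset.mem_univ _⟩ (ff χ E w K M)

lemma FF_apply (χ : GG) (E : Set GG) (w K M : ℕ) (g : GG) : FF' χ E w K M g =
    (Finset.univ : Finset (Ix w K)).sup' ⟨none, Finset.mem_univ _⟩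
      (fun i => ff χ E w K M i g) := by
  unfold FF'
  rw [Finset.sup'_apply]

lemma ff_le_FF (χ : GG) (E : Set GG) (w K M : ℕ) (i : Ix w K) (g : GG) :
    ff χ E w K M i g ≤ FF' χ E w K M g := by
  rw [FF_apply]
  exact Finset.le_sup' (fun i => ff χ E w K M i g) (Finset.mem_univ i)

lemma FF_le (χ : GG) (E : Set GG) (w K M : ℕ) (g : GG) {c : ℝ}
    (h : ∀ i, ff χ E w K M i g ≤ c) : FF' χ E w K M g ≤ c := by
  rw [FF_apply]
  exact Finset.sup'_le _ _ fun i _ => h i

end IBCx

open IBCx in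
theorem pr_BCx (hX : StDX) (hGa : StBGa) (hNf : StNf) : StBCx := by
  intro σ hσ χ E hE hEχ ε hε
  have hmeas : ∀ w K M, Measurable (FF' χ E w K M) := fun w K M =>
    Finset.measurable_sup' _ fun i _ => ff_meas χ hE w K M i
  have h0 : ∀ w K M g, 0 ≤ FF' χ E w K M g := fun w K M g =>
    (ff_nonneg χ E w K M none g).trans (ff_le_FF χ E w K M none g)
  have h1 : ∀ w K M g, FF' χ E w K M g ≤ 1 := fun w K M g =>
    FF_le χ E w K M g fun i => ff_le χ E w K M i g
  have hint : ∀ w K M, Integrable (FF' χ E w K M) σ := fun w K M =>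
    Integrable.of_bound (hmeas w K M).aestronglyMeasurable 1 (Eventually.of_forall fun g => by
      rw [Real.norm_eq_abs, abs_of_nonneg (h0 w K M g)]
      exact h1 w K M g)
  have hN := hNf GG inferInstance σ hσ (FF' χ E) 1 hmeas (fun w K M g => by
    rw [abs_of_nonneg (h0 w K M g)]
    exact h1 w K M g) (Eventually.of_forall fun g => by
      intro δ hδ
      by_cases hg : g ∈ E
      · have h2 := hX (fun n => ev g n * conj (ev χ n)) (hGa g χ (hEχ hg)) δ hδ
        unfold Nest at h2 ⊢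
        filter_upwards [h2] with w hw
        filter_upwards [hw] with K hK
        filter_upwards [hK] with M hM
        refine FF_le χ E w K M g fun i => ?_
        rcases i with _ | ⟨b, e, e'⟩
        · exact hδ.le
        · show E.indicator (qq χ b w K M e e') g ≤ δ
          rw [Set.indicator_of_mem hg]
          cases b
          · exact (hM e e').2
          · exact (hM e e').1
      · unfold Nest
        refine Eventually.of_forall fun w => Eventually.of_forall fun K =>
          Eventually.of_forall fun M => ?_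
        refine FF_le χ E w K M g fun i => ?_
        rcases i with _ | ⟨b, e, e'⟩
        · exact hδ.le
        · show E.indicator (qq χ b w K M e e') g ≤ δ
          rw [Set.indicator_of_notMem hg]
          exact hδ.le) ε hε
  unfold Nest at hN ⊢
  filter_upwards [hN] with w hw
  filter_upwards [hw] with K hK
  filter_upwards [hK] with M hM
  intro e e'
  have key : ∀ b : Bool, ∫ g in E, qq χ b w K M e e' g ∂σ ≤ ε := by
    intro b
    refine le_trans ?_ hM
    rw [← integral_indicator hE]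
    refine integral_mono_of_nonneg
      (Eventually.of_forall fun g => ff_nonneg χ E w K M (some (b, e, e')) g) (hint w K M)
      (Eventually.of_forall fun g => ff_le_FF χ E w K M (some (b, e, e')) g)
  exact ⟨key true, key false⟩

end Pool.Agent.F0f91f8.PC
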