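import Pool.Agent.Work.MP_0f91f8_co.PC.StmtsB

/-!
Item BEq of block PC: `Rl` is an equivalence relation.
-/

set_option autoImplicit false

namespace Pool.Agent.F0f91f8.PC

open Filter Topology ComplexConjugate MeasureTheory
open Pool.Agent.Work.MP_0f91f8_co.EF (GG ev)

namespace IBEq

theorem mc (b : Circle) : (b : ℂ) * conj (b : ℂ) = 1 := by
  rw [Complex.mul_conj, Circle.normSq_coe, Complex.ofReal_one]

theorem symm_norm (a b : ℂ) : ‖1 - b * conj a‖ = ‖1 - a * conj b‖ := by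
  rw [← Complex.norm_conj (1 - b * conj a)]
  congr 1
  rw [map_sub, map_one, map_mul, Complex.conj_conj, mul_comm]

theorem tri (a b c : Circle) : ‖1 - (a : ℂ) * conj (c : ℂ)‖ ^ 2 ≤
    2 * ‖1 - (a : ℂ) * conj (b : ℂ)‖ ^ 2 + 2 * ‖1 - (b : ℂ) * conj (c : ℂ)‖ ^ 2 := by
  have h1 : 1 - (a : ℂ) * conj (c : ℂ) = (1 - (a : ℂ) * conj (b : ℂ)) +
      ((a : ℂ) * conj (b : ℂ)) * (1 - (b : ℂ) * conj (c : ℂ)) := by
    have h2 := mc b
    linear_combination ((a : ℂ) * conj (c : ℂ)) * h2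
  have h3 : ‖(a : ℂ) * conj (b : ℂ)‖ = 1 := by
    rw [norm_mul, Complex.norm_conj, Circle.norm_coe, Circle.norm_coe, one_mul]
  have h4 : ‖1 - (a : ℂ) * conj (c : ℂ)‖ ≤
      ‖1 - (a : ℂ) * conj (b : ℂ)‖ + ‖1 - (b : ℂ) * conj (c : ℂ)‖ := by
    calc ‖1 - (a : ℂ) * conj (c : ℂ)‖ ≤ ‖1 - (a : ℂ) * conj (b : ℂ)‖ +
          ‖((a : ℂ) * conj (b : ℂ)) * (1 - (b : ℂ) * conj (c : ℂ))‖ := by
          rw [h1]; exact norm_add_le _ _
      _ = _ := by rw [norm_mul, h3, one_mul]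
  have h5 := norm_nonneg (1 - (a : ℂ) * conj (c : ℂ))
  nlinarith [sq_nonneg (‖1 - (a : ℂ) * conj (b : ℂ)‖ - ‖1 - (b : ℂ) * conj (c : ℂ)‖),
    norm_nonneg (1 - (a : ℂ) * conj (b : ℂ)), norm_nonneg (1 - (b : ℂ) * conj (c : ℂ))]

end IBEq

theorem pr_BEq : StBEq := by
  refine ⟨fun g => ?_, fun g g' h => ?_, fun g g' g'' h h' => ?_⟩
  · show Summable fun p : Nat.Primes => ‖1 - (g p : ℂ) * conj (g p : ℂ)‖ ^ 2 / ((p : ℕ) : ℝ)
    simp only [IBEq.mc, sub_self, norm_zero]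
    simp
  · show Summable fun p : Nat.Primes => ‖1 - (g' p : ℂ) * conj (g p : ℂ)‖ ^ 2 / ((p : ℕ) : ℝ)
    have h1 : Summable fun p : Nat.Primes =>
      ‖1 - (g p : ℂ) * conj (g' p : ℂ)‖ ^ 2 / ((p : ℕ) : ℝ) := h
    simpa only [IBEq.symm_norm] using h1
  · have h1 : Summable fun p : Nat.Primes =>
      ‖1 - (g p : ℂ) * conj (g' p : ℂ)‖ ^ 2 / ((p : ℕ) : ℝ) := h
    have h2 : Summable fun p : Nat.Primes =>
      ‖1 - (g' p : ℂ) * conj (g'' p : ℂ)‖ ^ 2 / ((p : ℕ) : ℝ) := h'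
    refine Summable.of_nonneg_of_le (fun p => by positivity) (fun p => ?_)
      ((h1.mul_left 2).add (h2.mul_left 2))
    have h3 := IBEq.tri (g p) (g' p) (g'' p)
    have h4 : (0 : ℝ) ≤ ((p : ℕ) : ℝ) := Nat.cast_nonneg _
    calc ‖1 - (g p : ℂ) * conj (g'' p : ℂ)‖ ^ 2 / ((p : ℕ) : ℝ)
        ≤ (2 * ‖1 - (g p : ℂ) * conj (g' p : ℂ)‖ ^ 2 +
          2 * ‖1 - (g' p : ℂ) * conj (g'' p : ℂ)‖ ^ 2) / ((p : ℕ) : ℝ) :=
          div_le_div_of_nonneg_right h3 h4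
      _ = _ := by ring

end Pool.Agent.F0f91f8.PC
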