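import Pool.Agent.Work.MP_0f91f8_co.PC.StmtsB
import Pool.Agent.Work.MP_0f91f8_co.EF.Ev

/-!
# Block PC, module B, item BGa: the quotient of two related functions is at finite distance from one
-/

set_option autoImplicit false

namespace Pool.Agent.F0f91f8.PC

open Filter Topology ComplexConjugate MeasureTheory
open Pool.Agent.F0f91f8.HD Pool.Agent.F0f91f8.RC Pool.Agent.F0f91f8.KR Pool.Agent.F0f91f8.FC
open Pool.Agent.Work.MP_0f91f8_co.EF (GG ev)
open scoped BigOperators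

namespace IBGa

lemma ev_prime (g : GG) (p : Nat.Primes) : ev g p = (g p : ℂ) := by
  rw [Pool.Agent.Work.MP_0f91f8_co.EF.XEv.ev_pos g p.2.ne_zero,
    Pool.Agent.Work.MP_0f91f8_co.EF.XEv.pr_prime g p p.2]
  rfl

end IBGa

theorem pr_BGa : StBGa := by
  intro g χ hR
  obtain ⟨hcm, -⟩ := Pool.Agent.Work.MP_0f91f8_co.EF.Ev_pf
  have hg := hcm g
  have hx := hcm χ
  refine ⟨⟨?_, ?_, ?_⟩, ?_⟩
  · show ev g 0 * conj (ev χ 0) = 0
    rw [hg.zero, zero_mul]
  · intro m n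
    show ev g (m * n) * conj (ev χ (m * n)) = ev g m * conj (ev χ m) * (ev g n * conj (ev χ n))
    rw [hg.mul, hx.mul, map_mul]
    ring
  · intro n hn
    show ‖ev g n * conj (ev χ n)‖ = 1
    rw [norm_mul, RCLike.norm_conj, hg.norm n hn, hx.norm n hn, one_mul]
  · refine hR.congr fun p => ?_
    show _ = ‖1 - ev g (p : ℕ) * conj (ev χ (p : ℕ))‖ ^ 2 / ((p : ℕ) : ℝ)
    rw [IBGa.ev_prime, IBGa.ev_prime]

end Pool.Agent.F0f91f8.PC
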