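import Pool.Agent.Work.MP_0f91f8_co.PC.StmtsB

/-!
# Item BIf of block PC: the finite index set of the averages `BFK 1 w K M` (helper2)
-/

set_option autoImplicit false

namespace Pool.Agent.F0f91f8.PC

open Filter Topology ComplexConjugate MeasureTheory
open Pool.Agent.F0f91f8.HD Pool.Agent.F0f91f8.RC Pool.Agent.F0f91f8.KR Pool.Agent.F0f91f8.FC
open Pool.Agent.Work.MP_0f91f8_co.EF (GG ev)
open scoped BigOperators

namespace IBIf

theorem DR_pos (w K : ℕ) (hK : 0 < K) : 0 < DR 1 w K := by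
  unfold DR
  have h := Nat.factorial_pos w
  positivity

theorem kp_pos (w K : ℕ) (e : Fin (w + 1) → Fin K) : 0 < kp w K e := by
  unfold kp
  apply Finset.prod_pos
  intro p _
  split_ifs with h
  · exact pow_pos h.pos _
  · exact Nat.one_pos

theorem kk_pos (w K : ℕ) (e : Fin (K + 1) → Fin K) : 0 < kk w K e := by
  unfold kk
  apply Finset.prod_pos
  intro p _
  split_ifs with h
  · exact pow_pos h.1.pos _
  · exact Nat.one_pos

theorem kR_pos (w K : ℕ) (e : Fin (w + 1) → Fin K) : 0 < kR 1 w K e := by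
  unfold kR
  have h := Nat.factorial_pos w
  have h2 := kp_pos w K e
  positivity

theorem kK_pos (w K : ℕ) (e : Fin (K + 1) → Fin K) : 0 < kK 1 w K e := by
  unfold kK
  exact pow_pos (kk_pos w K e) _

theorem tX_pos {κ k a n : ℕ} (h1 : 0 < κ) (h2 : 0 < k) (h3 : 0 < a) (h4 : 0 < n) :
    0 < tX κ k a n := by
  unfold tX
  positivity

theorem tY_pos {κ k a n : ℕ} (h1 : 0 < κ) (h2 : 0 < k) (h3 : 0 < a) (h4 : 0 < n) :
    0 < tY κ k a n := by
  unfold tY
  positivity

theorem tZ_pos {κ k a n : ℕ} (h1 : 0 < κ) (h2 : 0 < k) (h3 : 0 < a) (h4 : 0 < n) :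
    0 < tZ κ k a n := by
  unfold tZ
  positivity

end IBIf

open IBIf

theorem pr_BIf : StBIf := by
  intro w K M hK hM
  have hD := DR_pos w K hK
  have hDM : 0 < DR 1 w K * M := Nat.mul_pos hD hM
  refine ⟨?_, ?_, ?_⟩
  · refine ⟨(1, 1, 1, 1), ?_⟩
    simp only [IF, Finset.mem_product, Finset.mem_Icc]
    refine ⟨⟨le_refl 1, hM⟩, ⟨le_refl 1, hM⟩, ⟨le_refl 1, hDM⟩, ⟨le_refl 1, hDM⟩⟩
  · intro G
    unfold BFK BxR Bx IF
    rw [Finset.sum_product]
    simp only [Finset.sum_product, aI, nI]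
    congr 1
    simp only [Finset.card_product, Nat.card_Icc, Nat.add_sub_cancel]
    push_cast
    ring
  · intro e e' i hi
    have ha : 0 < aI w i := Nat.succ_pos _
    have hn : 0 < nI w i := Nat.succ_pos _
    exact ⟨tX_pos (kR_pos w K e) (kK_pos w K e') ha hn, tY_pos (kR_pos w K e) (kK_pos w K e') ha hn,
      tZ_pos (kR_pos w K e) (kK_pos w K e') ha hn⟩

end Pool.Agent.F0f91f8.PC
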