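import Pool.Agent.Work.MP_0f91f8_co.PC.StmtsB

/-!
# [0f91f8 PC BMe]: measurability of the relation and of the classes
-/

set_option autoImplicit false

namespace Pool.Agent.F0f91f8.PC

open Filter Topology ComplexConjugate MeasureTheory
open Pool.Agent.Work.MP_0f91f8_co.EF (GG ev)
open scoped BigOperators

namespace IBMe

/-- the terms -/
noncomputable def tm (P : GG × GG) (p : Nat.Primes) : ℝ :=
  ‖1 - (P.1 p : ℂ) * conj (P.2 p : ℂ)‖ ^ 2 / ((p : ℕ) : ℝ)

lemma tm_nonneg (P : GG × GG) (p : Nat.Primes) : 0 ≤ tm P p := by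
  unfold tm
  positivity

lemma tm_cont (p : Nat.Primes) : Continuous fun P : GG × GG => tm P p := by
  unfold tm
  have h1 : Continuous fun P : GG × GG => (P.1 p : ℂ) :=
    continuous_subtype_val.comp ((continuous_apply p).comp continuous_fst)
  have h2 : Continuous fun P : GG × GG => (P.2 p : ℂ) :=
    continuous_subtype_val.comp ((continuous_apply p).comp continuous_snd)
  have h3 : Continuous fun P : GG × GG => 1 - (P.1 p : ℂ) * conj (P.2 p : ℂ) :=
    continuous_const.sub (h1.mul (Complex.continuous_conj.comp h2))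
  exact (h3.norm.pow 2).div_const _

lemma rl_iff (P : GG × GG) :
    Rl P.1 P.2 ↔ ∃ C : ℕ, ∀ s : Finset Nat.Primes, ∑ p ∈ s, tm P p ≤ (C : ℝ) := by
  constructor
  · intro h
    obtain ⟨C, hC⟩ := exists_nat_ge (∑' p : Nat.Primes, tm P p)
    refine ⟨C, fun s => le_trans ?_ hC⟩
    exact Summable.sum_le_tsum s (fun p _ => tm_nonneg P p) h
  · rintro ⟨C, hC⟩
    exact summable_of_sum_le (fun p => tm_nonneg P p) hC

lemma meas_rl : MeasurableSet {p : GG × GG | Rl p.1 p.2} := by
  have h1 : {p : GG × GG | Rl p.1 p.2} =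
      ⋃ C : ℕ, ⋂ s : Finset Nat.Primes, {P : GG × GG | ∑ p ∈ s, tm P p ≤ (C : ℝ)} := by
    ext P
    simp only [Set.mem_ofPred_eq, Set.mem_iUnion, Set.mem_iInter]
    exact rl_iff P
  rw [h1]
  refine MeasurableSet.iUnion fun C => ?_
  apply IsClosed.measurableSet
  refine isClosed_iInter fun s => ?_
  exact isClosed_le (continuous_finsetSum s fun p _ => tm_cont p) continuous_const

end IBMe

theorem pr_BMe : StBMe := by
  refine ⟨IBMe.meas_rl, fun χ => ?_⟩
  have h1 : Measurable fun g : GG => ((g, χ) : GG × GG) := measurable_prodMk_right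
  exact h1 IBMe.meas_rl

end Pool.Agent.F0f91f8.PC
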