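import Pool.Agent.Work.MP_0f91f8_co.PC.StmtsB

/-!
# Item BNp: pairs of classes, one of them not pretentious (helper27)
-/

set_option autoImplicit false

namespace Pool.Agent.F0f91f8.PC

open Filter Topology ComplexConjugate MeasureTheory
open Pool.Agent.F0f91f8.HD Pool.Agent.F0f91f8.RC Pool.Agent.F0f91f8.KR Pool.Agent.F0f91f8.FC
open Pool.Agent.Work.MP_0f91f8_co.EF (GG ev)
open scoped BigOperators

namespace IBNp

theorem kp_pos (w K : ℕ) (e : Fin (w + 1) → Fin K) : 0 < kp w K e := by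
  unfold kp
  refine Finset.prod_pos fun p _ => ?_
  split_ifs with h
  · exact pow_pos h.pos _
  · exact one_pos

theorem kk_pos (w K : ℕ) (e : Fin (K + 1) → Fin K) : 0 < kk w K e := by
  unfold kk
  refine Finset.prod_pos fun p _ => ?_
  split_ifs with h
  · exact pow_pos h.1.pos _
  · exact one_pos

theorem kR_pos (E w K : ℕ) (e : Fin (w + 1) → Fin K) : 0 < kR E w K e := by
  unfold kR
  have h1 := kp_pos w K e
  have h2 := w.factorial_pos
  positivity

theorem kK_pos (E w K : ℕ) (e' : Fin (K + 1) → Fin K) : 0 < kK E w K e' := by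
  unfold kK
  have h1 := kk_pos w K e'
  positivity

theorem DR_pos (E w K : ℕ) (hK : 0 < K) : 0 < DR E w K := by
  unfold DR
  have h2 := w.factorial_pos
  positivity

end IBNp

open IBNp in
theorem pr_BNp (hMe : StBMe) (hIf : StBIf) (hAs : StBAs) (hAp : StBAp) (hCx : StBCx) : StBNp := by
  intro X _ μ _ S A hA σ _ V χ χ' hPr ε hε
  have hE : MeasurableSet (cls χ \ {1}) := (hMe.2 χ).diff (measurableSet_singleton 1)
  have hE' : MeasurableSet (cls χ') := hMe.2 χ'
  obtain ⟨B, hB0, hB⟩ := hAs X inferInstance μ inferInstance S A hA σ inferInstance V _ _ hE hE' (ε / 4) (by positivity)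
  have hC1 := hCx σ inferInstance χ _ hE Set.diff_subset (ε ^ 2 / 16) (by positivity)
  have hC2 := hCx σ inferInstance χ' _ hE' subset_rfl (ε ^ 2 / 16) (by positivity)
  unfold Nest at hC1 hC2 ⊢
  filter_upwards [hC1, hC2] with w h1 h2
  filter_upwards [h1, h2, eventually_gt_atTop 0] with K h1 h2 hK
  have h3 : ∀ᶠ M in atTop, ∀ (e : Fin (w + 1) → Fin K) (e' : Fin (K + 1) → Fin K),
      ∫ g, ‖BxR w.factorial (DR 1 w K) 1 M fun a n =>
        ev χ (tX (kR 1 w K e) (kK 1 w K e') a n) * ev χ' (tY (kR 1 w K e) (kK 1 w K e') a n) *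
          ev g (tZ (kR 1 w K e) (kK 1 w K e') a n)‖ ^ 2 ∂σ ≤ (ε / (4 * (B + 1))) ^ 2 := by
    refine eventually_all.2 fun e => eventually_all.2 fun e' => ?_
    have h := hAp σ inferInstance χ χ' hPr (kR 1 w K e) (kK 1 w K e') w.factorial (DR 1 w K) (kR_pos _ _ _ _)
      (kK_pos _ _ _ _) w.factorial_pos (DR_pos _ _ _ hK)
    exact h.eventually_le_const (by positivity)
  filter_upwards [h1, h2, h3, eventually_gt_atTop 0] with M h1 h2 h3 hM
  obtain ⟨hne, hav, hpos⟩ := hIf w K M hK hM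
  have key : ∀ (e : Fin (w + 1) → Fin K) (e' : Fin (K + 1) → Fin K),
      ‖BFK 1 w K M fun a n => bt S A (tZ (kR 1 w K e) (kK 1 w K e') a n)
        (U S (tX (kR 1 w K e) (kK 1 w K e') a n) (V.V (b1 σ (cls χ \ {1}))))
        (U S (tY (kR 1 w K e) (kK 1 w K e') a n) (V.V (b1 σ (cls χ'))))‖ ≤ ε := by
    intro e e'
    rw [hav]
    refine (hB χ χ' _ (IF w K M) hne (fun i => tX (kR 1 w K e) (kK 1 w K e') (aI w i) (nI w i))
      (fun i => tY (kR 1 w K e) (kK 1 w K e') (aI w i) (nI w i))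
      (fun i => tZ (kR 1 w K e) (kK 1 w K e') (aI w i) (nI w i)) (hpos e e')).trans ?_
    have g1 := (h1 e e').1
    have g2 := (h2 e e').2
    have g3 : ∫ g, ‖BFK 1 w K M fun a n =>
        ev χ (tX (kR 1 w K e) (kK 1 w K e') a n) * ev χ' (tY (kR 1 w K e) (kK 1 w K e') a n) *
          ev g (tZ (kR 1 w K e) (kK 1 w K e') a n)‖ ^ 2 ∂σ ≤ (ε / (4 * (B + 1))) ^ 2 := h3 e e'
    simp only [hav] at g1 g2 g3
    have r1 := Real.sqrt_le_sqrt g1
    have r2 := Real.sqrt_le_sqrt g2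
    have r3 := Real.sqrt_le_sqrt g3
    rw [show ε ^ 2 / 16 = (ε / 4) ^ 2 by ring, Real.sqrt_sq (by positivity)] at r1 r2
    rw [Real.sqrt_sq (by positivity)] at r3
    have r4 : B * (ε / (4 * (B + 1))) ≤ ε / 4 := by
      rw [mul_div_assoc', div_le_div_iff₀ (by positivity) (by positivity)]
      nlinarith
    have r5 := mul_le_mul_of_nonneg_left r3 hB0
    linarith
  have e1 : AvK 1 w K M (fun x y z => bt S A z (U S x (V.V (b1 σ (cls χ \ {1}))))
      (U S y (V.V (b1 σ (cls χ'))))) =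
      (∑ e : Fin (w + 1) → Fin K, ∑ e' : Fin (K + 1) → Fin K,
      BFK 1 w K M fun a n => bt S A (tZ (kR 1 w K e) (kK 1 w K e') a n)
        (U S (tX (kR 1 w K e) (kK 1 w K e') a n) (V.V (b1 σ (cls χ \ {1}))))
        (U S (tY (kR 1 w K e) (kK 1 w K e') a n) (V.V (b1 σ (cls χ'))))) /
        ((K : ℂ) ^ (w + 1) * (K : ℂ) ^ (K + 1)) := rfl
  rw [e1, norm_div]
  have hK' : (0 : ℝ) < K := by exact_mod_cast hK
  have e2 : ‖((K : ℂ) ^ (w + 1) * (K : ℂ) ^ (K + 1))‖ = (K : ℝ) ^ (w + 1) * (K : ℝ) ^ (K + 1) := by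
    rw [norm_mul, norm_pow, norm_pow, Complex.norm_natCast]
  rw [e2, div_le_iff₀ (by positivity)]
  refine (norm_sum_le _ _).trans ?_
  have e3 : ∀ e : Fin (w + 1) → Fin K, ‖∑ e' : Fin (K + 1) → Fin K,
      BFK 1 w K M fun a n => bt S A (tZ (kR 1 w K e) (kK 1 w K e') a n)
        (U S (tX (kR 1 w K e) (kK 1 w K e') a n) (V.V (b1 σ (cls χ \ {1}))))
        (U S (tY (kR 1 w K e) (kK 1 w K e') a n) (V.V (b1 σ (cls χ'))))‖ ≤
      (K : ℝ) ^ (K + 1) * ε := by
    intro e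
    refine (norm_sum_le _ _).trans ((Finset.sum_le_card_nsmul _ _ _ fun e' _ => key e e').trans ?_)
    simp
  refine (Finset.sum_le_card_nsmul _ _ _ fun e _ => e3 e).trans ?_
  simp only [Finset.card_univ, Fintype.card_pi, Fintype.card_fin, Finset.prod_const, nsmul_eq_mul]
  push_cast
  nlinarith

end Pool.Agent.F0f91f8.PC
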