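import Pool.Agent.Work.MP_0f91f8_co.PC.StmtsB
import Pool.Agent.Work.MP_0f91f8_co.PC.I_CT
import Pool.Agent.Work.MP_0f91f8_co.PC.I_CB

/-!
# Block PC, module B, item BTf: the trilinear form at a mean
-/

set_option autoImplicit false

namespace Pool.Agent.F0f91f8.PC

open Filter Topology ComplexConjugate MeasureTheory
open Pool.Agent.F0f91f8.HD Pool.Agent.F0f91f8.RC Pool.Agent.F0f91f8.KR Pool.Agent.F0f91f8.FC
open Pool.Agent.Work.MP_0f91f8_co.EF (GG ev)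
open scoped BigOperators

namespace IBTf

variable {X : Type} [MeasurableSpace X] {μ : Measure X}

/-- a mean with bounded weights -/
theorem mean_le {ι : Type} (I : Finset ι) (hI : I.Nonempty) (c v : ι → ℂ) {K : ℝ}
    (hc : ∀ i ∈ I, ‖c i‖ ≤ 1) (hv : ∀ i ∈ I, ‖v i‖ ≤ K) :
    ‖(I.card : ℂ)⁻¹ * ∑ i ∈ I, c i * v i‖ ≤ K := by
  have hn : 0 < (I.card : ℝ) := by exact_mod_cast hI.card_pos
  have h1 : ‖∑ i ∈ I, c i * v i‖ ≤ I.card * K := by
    refine (norm_sum_le_of_le I (f := fun i => c i * v i) (n := fun _ => K) ?_).trans (le_of_eq ?_)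
    · intro i hi
      rw [norm_mul]
      calc ‖c i‖ * ‖v i‖ ≤ 1 * ‖v i‖ := mul_le_mul_of_nonneg_right (hc i hi) (norm_nonneg _)
        _ = ‖v i‖ := one_mul _
        _ ≤ K := hv i hi
    · rw [Finset.sum_const, nsmul_eq_mul]
  rw [norm_mul, norm_inv, Complex.norm_natCast]
  calc (I.card : ℝ)⁻¹ * ‖∑ i ∈ I, c i * v i‖ ≤ (I.card : ℝ)⁻¹ * (I.card * K) :=
        mul_le_mul_of_nonneg_left h1 (inv_nonneg.2 hn.le)
    _ = K := by rw [← mul_assoc, inv_mul_cancel₀ hn.ne', one_mul]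

/-- the product of a bounded function and `G` -/
theorem exF (hU : StCU) [IsProbabilityMeasure μ] (S : Sys μ) {A : Set X} (hA : MeasurableSet A)
    (W G : Lp ℂ 2 μ) {B : ℝ} (hW : ∀ᵐ x ∂μ, ‖(W : X → ℂ) x‖ ≤ B) :
    ∃ F : Lp ℂ 2 μ, ‖F‖ ≤ B * ‖G‖ ∧ ∀ z : ℕ, 0 < z →
      bt S A z W G = inner ℂ F (U S z (b1 μ A)) := by
  obtain ⟨φ, hφ⟩ : ∃ φ : X → ℂ, φ = fun x => conj ((W : X → ℂ) x * (G : X → ℂ) x) := ⟨_, rfl⟩
  have hφm : AEStronglyMeasurable φ μ := by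
    rw [hφ]
    exact RCLike.continuous_conj.comp_aestronglyMeasurable
      ((Lp.aestronglyMeasurable W).mul (Lp.aestronglyMeasurable G))
  have hle : ∀ᵐ x ∂μ, ‖φ x‖ ≤ B * ‖(G : X → ℂ) x‖ := by
    filter_upwards [hW] with x hx
    rw [hφ]
    simp only [RCLike.norm_conj, norm_mul]
    exact mul_le_mul_of_nonneg_right hx (norm_nonneg _)
  have hφL : MemLp φ 2 μ := (Lp.memLp G).of_le_mul hφm hle
  refine ⟨hφL.toLp φ, ?_, fun z hz => ?_⟩
  · apply Lp.norm_le_mul_norm_of_ae_le_mul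
    filter_upwards [hφL.coeFn_toLp, hle] with x hx h2
    rw [hx]
    exact h2
  · rw [L2.inner_def]
    unfold bt
    apply integral_congr_ae
    have hb := ICB.b1_ae (μ := μ) hA
    have hbz : ∀ᵐ t ∂μ, (b1 μ A : X → ℂ) (S.T z t) = A.indicator (fun _ => (1 : ℂ)) (S.T z t) :=
      (S.mp z hz).quasiMeasurePreserving.ae hb
    obtain ⟨-, -, hU3⟩ := hU X inferInstance μ inferInstance S
    filter_upwards [hφL.coeFn_toLp, hbz, hU3 z hz (b1 μ A)] with x hx h2 h3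
    rw [hx, h3, h2, hφ, RCLike.inner_apply]
    simp only [map_mul, RingHomCompTriple.comp_apply, RingHom.id_apply]
    ring

end IBTf

open IBTf in
theorem pr_BTf (hU : StCU) (hB : StCB) : StBTf := by
  intro X _ μ _ S A hA H η hη
  obtain ⟨H', B, hB0, hH'B, hHH'⟩ := ICT.approx H hη
  obtain ⟨b1', b2, b3, b4, -, -, -⟩ := hB X inferInstance μ inferInstance S A hA
  obtain ⟨-, -, u3⟩ := hU X inferInstance μ inferInstance S
  refine ⟨B, hB0, ?_⟩
  intro ι I hI c d x z hcd G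
  set Φ : Lp ℂ 2 μ := (I.card : ℂ)⁻¹ • ∑ i ∈ I, d i • U S (z i) (b1 μ A) with hΦ
  let L : Lp ℂ 2 μ →ₗ[ℂ] ℂ :=
    { toFun := fun W => (∑ i ∈ I, d i * bt S A (z i) W G) / (I.card : ℂ)
      map_add' := by
        intro W W'
        rw [← add_div, ← Finset.sum_add_distrib]
        congr 1
        refine Finset.sum_congr rfl fun i _ => ?_
        rw [b3, mul_add]
      map_smul' := by
        intro a W
        rw [RingHom.id_apply, smul_eq_mul, ← mul_div_assoc, Finset.mul_sum]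
        congr 1
        refine Finset.sum_congr rfl fun i _ => ?_
        rw [b4]
        ring }
  have hL : ∀ W, L W = (I.card : ℂ)⁻¹ * ∑ i ∈ I, d i * bt S A (z i) W G := by
    intro W
    show (∑ i ∈ I, d i * bt S A (z i) W G) / (I.card : ℂ) = _
    rw [div_eq_mul_inv, mul_comm]
  have hL1 : ∀ W : Lp ℂ 2 μ, ‖L W‖ ≤ ‖W‖ * ‖G‖ := by
    intro W
    rw [hL]
    exact mean_le I hI d _ (fun i hi => (hcd i hi).2.1) fun i _ => b1' (z i) W G
  have hL2 : ∀ W : Lp ℂ 2 μ, (∀ᵐ x ∂μ, ‖(W : X → ℂ) x‖ ≤ B) → ‖L W‖ ≤ B * ‖Φ‖ * ‖G‖ := by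
    intro W hW
    obtain ⟨F, hF1, hF2⟩ := exF hU S hA W G hW
    have h1 : L W = inner ℂ F Φ := by
      rw [hL, hΦ, inner_smul_right, inner_sum]
      congr 1
      refine Finset.sum_congr rfl fun i hi => ?_
      rw [inner_smul_right, hF2 (z i) (hcd i hi).2.2.2]
    rw [h1]
    calc ‖inner ℂ F Φ‖ ≤ ‖F‖ * ‖Φ‖ := norm_inner_le_norm F Φ
      _ ≤ B * ‖G‖ * ‖Φ‖ := mul_le_mul_of_nonneg_right hF1 (norm_nonneg _)
      _ = B * ‖Φ‖ * ‖G‖ := by ring
  have hterm : ∀ j ∈ I, ‖L (U S (x j) H)‖ ≤ (B * ‖Φ‖ + η) * ‖G‖ := by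
    intro j hj
    have hx0 : 0 < x j := (hcd j hj).2.2.1
    have e : U S (x j) H = U S (x j) H' + U S (x j) (H - H') := by
      rw [← map_add]
      congr 1
      abel
    have h1 := (S.mp (x j) hx0).quasiMeasurePreserving.ae hH'B
    have hWB : ∀ᵐ t ∂μ, ‖((U S (x j) H' : Lp ℂ 2 μ) : X → ℂ) t‖ ≤ B := by
      filter_upwards [u3 (x j) hx0 H', h1] with t ht1 ht2
      rw [ht1]
      exact ht2
    rw [e, map_add]
    calc ‖L (U S (x j) H') + L (U S (x j) (H - H'))‖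
        ≤ ‖L (U S (x j) H')‖ + ‖L (U S (x j) (H - H'))‖ := norm_add_le _ _
      _ ≤ B * ‖Φ‖ * ‖G‖ + η * ‖G‖ := by
          refine add_le_add (hL2 _ hWB) ((hL1 _).trans ?_)
          rw [LinearIsometry.norm_map]
          exact mul_le_mul_of_nonneg_right hHH' (norm_nonneg _)
      _ = (B * ‖Φ‖ + η) * ‖G‖ := by ring
  have hfin : (∑ i ∈ I, d i * bt S A (z i) ((I.card : ℂ)⁻¹ • ∑ j ∈ I, c j • U S (x j) H) G) /
      (I.card : ℂ) = (I.card : ℂ)⁻¹ * ∑ j ∈ I, c j * L (U S (x j) H) := by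
    have h1 : (∑ i ∈ I, d i * bt S A (z i) ((I.card : ℂ)⁻¹ • ∑ j ∈ I, c j • U S (x j) H) G) /
      (I.card : ℂ) = L ((I.card : ℂ)⁻¹ • ∑ j ∈ I, c j • U S (x j) H) := rfl
    rw [h1, map_smul, map_sum, smul_eq_mul]
    congr 1
    refine Finset.sum_congr rfl fun j _ => ?_
    rw [map_smul, smul_eq_mul]
  rw [hfin]
  exact mean_le I hI c _ (fun i hi => (hcd i hi).1) hterm

end Pool.Agent.F0f91f8.PC
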