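import Pool.Agent.Work.MP_0f91f8_co.PC.StmtsB

/-!
# Block PC, module B, item BVr: variance
-/

set_option autoImplicit false

namespace Pool.Agent.F0f91f8.PC

open scoped BigOperators

namespace IBVr

variable {H : Type} [NormedAddCommGroup H] [InnerProductSpace ℂ H] {ι : Type}

/-- the variance identity -/
theorem var_eq (I : Finset ι) (hI : I.Nonempty) (F : ι → H) :
    ∑ i ∈ I, ‖F i - (I.card : ℂ)⁻¹ • ∑ j ∈ I, F j‖ ^ 2 =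
      (∑ i ∈ I, ‖F i‖ ^ 2) - (I.card : ℝ) * ‖(I.card : ℂ)⁻¹ • ∑ j ∈ I, F j‖ ^ 2 := by
  have hc : (0 : ℝ) < I.card := by exact_mod_cast hI.card_pos
  have hcC : (I.card : ℂ) ≠ 0 := by exact_mod_cast hc.ne'
  set m : H := (I.card : ℂ)⁻¹ • ∑ j ∈ I, F j with hm
  have hs : ∑ j ∈ I, F j = (I.card : ℂ) • m := by
    rw [hm, smul_smul, mul_inv_cancel₀ hcC, one_smul]
  have h1 : ∀ i, ‖F i - m‖ ^ 2 = ‖F i‖ ^ 2 - 2 * RCLike.re (inner ℂ (F i) m) + ‖m‖ ^ 2 :=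
    fun i => norm_sub_sq (𝕜 := ℂ) (F i) m
  have h2 : ∑ i ∈ I, RCLike.re (inner ℂ (F i) m) = (I.card : ℝ) * ‖m‖ ^ 2 := by
    rw [← map_sum, ← sum_inner, hs, inner_smul_left]
    have h3 : inner ℂ m m = ((‖m‖ ^ 2 : ℝ) : ℂ) := by
      rw [inner_self_eq_norm_sq_to_K]
      push_cast
      rfl
    rw [h3, Complex.conj_natCast]
    have h4 : (I.card : ℂ) * ((‖m‖ ^ 2 : ℝ) : ℂ) = (((I.card : ℝ) * ‖m‖ ^ 2 : ℝ) : ℂ) := by
      push_cast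
      rfl
    rw [h4]
    exact Complex.ofReal_re _
  simp only [h1]
  rw [Finset.sum_add_distrib, Finset.sum_sub_distrib, ← Finset.mul_sum, h2, Finset.sum_const,
    nsmul_eq_mul]
  ring

end IBVr

theorem pr_BVr : StBVr := by
  intro H _ _ ι I hI F
  have hc : (0 : ℝ) < I.card := by exact_mod_cast hI.card_pos
  apply Real.le_sqrt_of_sq_le
  have h1 := IBVr.var_eq I hI F
  have h2 := sq_sum_le_card_mul_sum_sq (s := I)
    (f := fun i => ‖F i - (I.card : ℂ)⁻¹ • ∑ j ∈ I, F j‖)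
  rw [div_pow, div_le_iff₀ (by positivity)]
  calc (∑ i ∈ I, ‖F i - (I.card : ℂ)⁻¹ • ∑ j ∈ I, F j‖) ^ 2
      ≤ (I.card : ℝ) * ∑ i ∈ I, ‖F i - (I.card : ℂ)⁻¹ • ∑ j ∈ I, F j‖ ^ 2 := h2
    _ = ((∑ i ∈ I, ‖F i‖ ^ 2) / (I.card : ℝ) - ‖(I.card : ℂ)⁻¹ • ∑ j ∈ I, F j‖ ^ 2) *
        (I.card : ℝ) ^ 2 := by
      rw [h1]
      field_simp

end Pool.Agent.F0f91f8.PC
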