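import Pool.Agent.Work.MP_0f91f8_co.HD.C_All
import Pool.Agent.Work.MP_0f91f8_co.KT.PosE
import Pool.Agent.Work.MP_0f91f8_co.PC.AllC
import Pool.Agent.Work.MP_0f91f8_co.PC.AllV
import Pool.Agent.Work.MP_0f91f8_co.PC.I_BEq
import Pool.Agent.Work.MP_0f91f8_co.PC.I_BMe
import Pool.Agent.Work.MP_0f91f8_co.PC.I_BCl
import Pool.Agent.Work.MP_0f91f8_co.PC.I_BGa
import Pool.Agent.Work.MP_0f91f8_co.PC.I_BIf
import Pool.Agent.Work.MP_0f91f8_co.PC.I_BVr
import Pool.Agent.Work.MP_0f91f8_co.PC.I_BSp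
import Pool.Agent.Work.MP_0f91f8_co.PC.I_BTf
import Pool.Agent.Work.MP_0f91f8_co.PC.I_BAs
import Pool.Agent.Work.MP_0f91f8_co.PC.I_BAp
import Pool.Agent.Work.MP_0f91f8_co.PC.I_BCx
import Pool.Agent.Work.MP_0f91f8_co.PC.I_BNp

/-!
# Block PC, module B: composition, no hypotheses (helper75)
-/

set_option autoImplicit false

namespace Pool.Agent.F0f91f8.PC

/-- the classes are measurable -/
theorem all_Clm : StClm := pr_BMe.2

/-- a finite measure is carried, off the diagonal, by countably many classes -/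
theorem all_ClsS : ClsS := pr_BCl pr_BEq pr_BMe

theorem all_BTf : StBTf := pr_BTf pr_CU all_CB

theorem all_BAs : StBAs := pr_BAs pr_CU all_CB all_CV pr_BVr pr_BSp all_BTf

theorem all_BAp : StBAp := pr_BAp Pool.Agent.F0f91f8.KT.all_Aper3 Pool.Agent.F0f91f8.HD.pretStmt

theorem all_BCx : StBCx := pr_BCx pr_DX pr_BGa all_Nf

/-- pairs of classes, one of them not pretentious -/
theorem all_NPc : StNPc := pr_BNp pr_BMe pr_BIf all_BAs all_BAp all_BCx

end Pool.Agent.F0f91f8.PC
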