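import Pool.Agent.Work.MP_0f91f8_co.PC.AllP
import Pool.Agent.Work.MP_0f91f8_co.PC.AllB

/-!
# Block PC: the interface statement `ClpS`, no hypotheses (helper43)
-/

set_option autoImplicit false

namespace Pool.Agent.F0f91f8.PC

/-- pairs of classes -/
theorem all_ClpS : ClpS := clpS_of all_NPc all_Clm

end Pool.Agent.F0f91f8.PC
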