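import Pool.Agent.Work.MP_0f91f8_co.PC.StmtsDm
import Pool.Agent.Work.MP_0f91f8_co.FC.I_Tl

/-!
# Block PC, item DTt: the parts in `(K, y]` are small (first moment of the logarithm)
-/

set_option autoImplicit false

namespace Pool.Agent.F0f91f8.PC

open Filter Topology ComplexConjugate
open Pool.Agent.F0f91f8.FC
open scoped BigOperators

namespace XDTt

/-- the number of members with `p ^ k ∣ L_j` -/
theorem cnt {K κ n X p k : ℕ} (hK : 10 ≤ K) (hκ : ∀ q : ℕ, q.Prime → q ∣ κ → q ≤ K) (hp : p.Prime)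
    (hKp : K < p) (hk : 1 ≤ k) (j : Fin 4) (S : Finset ℕ)
    (hS : ∀ v ∈ S, v ≤ X ∧ NoC K v n ∧ p ^ k ∣ Lf κ n v j) : S.card ≤ 2 * (X / p ^ k + 1) := by
  have hQ : ¬ p ∣ 1 := fun h => hp.one_lt.ne' (Nat.dvd_one.1 h)
  have hκ' : ¬ p ∣ κ := fun h => by
    have := hκ p hp h
    omega
  have hp2 : p ≠ 2 := by omega
  by_cases hn : p ∣ n
  · have hemp : S = ∅ := by
      rw [Finset.eq_empty_iff_forall_notMem]
      intro v hv
      obtain ⟨-, h1, h2⟩ := hS v hv
      have h3 : p ∣ Lf κ n v j := (dvd_pow_self p (by omega)).trans h2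
      have h4 : p ∣ κ * n := hn.mul_left κ
      have h5 : p ∣ v := by
        fin_cases j
        · exact h3
        · exact (Nat.dvd_add_left h4).1 h3
        · exact (Nat.dvd_add_left (h4.mul_left 2)).1 h3
        · have h6 : p ∣ (v + κ * n) ^ 2 :=
            (Nat.dvd_add_left (dvd_pow h4 two_ne_zero)).1 h3
          exact (Nat.dvd_add_left h4).1 (hp.dvd_of_dvd_pow h6)
      exact h1 p hp hKp h5 hn
    rw [hemp, Finset.card_empty]
    exact Nat.zero_le _
  · have hN : ¬ p ∣ κ * n := fun h => (hp.dvd_mul.1 h).elim hκ' hn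
    have hcls : ∃ r₁ r₂ : ℕ, ∀ v ∈ S, v % p ^ k = r₁ ∨ v % p ^ k = r₂ := by
      fin_cases j
      · exact XTl.lin (Q := 1) (e := 0) hp hQ S fun v hv => by
          have : p ^ k ∣ v := (hS v hv).2.2
          rw [one_mul, add_zero]
          exact this
      · exact XTl.lin (Q := 1) (e := κ * n) hp hQ S fun v hv => by
          have := (hS v hv).2.2
          rw [one_mul]
          exact this
      · exact XTl.lin (Q := 1) (e := 2 * (κ * n)) hp hQ S fun v hv => by
          have := (hS v hv).2.2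
          rw [one_mul]
          exact this
      · exact XTl.quad (Q := 1) (e := κ * n) (N := κ * n) hp hp2 hQ hN hk S fun v hv => by
          have := (hS v hv).2.2
          rw [one_mul]
          exact this
    obtain ⟨r₁, r₂, h⟩ := hcls
    exact XTl.two X (p ^ k) r₁ r₂ S fun v hv => ⟨(hS v hv).1, h v hv⟩

/-- the sum of the exponents of `p` -/
theorem expo {K κ n X p : ℕ} (hK : 10 ≤ K) (hκ : ∀ q : ℕ, q.Prime → q ∣ κ → q ≤ K) (hp : p.Prime)
    (hKp : K < p) (j : Fin 4) (Λ : ℕ) (S : Finset ℕ)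
    (hS : ∀ v ∈ S, v ≤ X ∧ NoC K v n ∧ 0 < Lf κ n v j ∧ (Lf κ n v j).factorization p ≤ Λ) :
    ((∑ v ∈ S, (Lf κ n v j).factorization p : ℕ) : ℝ) ≤ 4 * X / p + 2 * Λ := by
  classical
  have h1 : ∑ v ∈ S, (Lf κ n v j).factorization p ≤
      ∑ k ∈ Finset.range Λ, 2 * (X / p ^ (k + 1) + 1) := by
    calc ∑ v ∈ S, (Lf κ n v j).factorization p
        ≤ ∑ v ∈ S, ((Finset.range Λ).filter fun k => p ^ (k + 1) ∣ Lf κ n v j).card := by
          refine Finset.sum_le_sum fun v hv => ?_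
          obtain ⟨-, -, h3, h4⟩ := hS v hv
          conv_lhs => rw [← Finset.card_range ((Lf κ n v j).factorization p)]
          refine Finset.card_le_card fun k hk => ?_
          rw [Finset.mem_range] at hk
          rw [Finset.mem_filter, Finset.mem_range]
          exact ⟨by omega, (hp.pow_dvd_iff_le_factorization (by omega)).2 (by omega)⟩
      _ = ∑ k ∈ Finset.range Λ, (S.filter fun v => p ^ (k + 1) ∣ Lf κ n v j).card := by
          simp only [Finset.card_filter]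
          exact Finset.sum_comm
      _ ≤ ∑ k ∈ Finset.range Λ, 2 * (X / p ^ (k + 1) + 1) := by
          refine Finset.sum_le_sum fun k _ => ?_
          refine cnt (n := n) hK hκ hp hKp (by omega) j _ fun v hv => ?_
          rw [Finset.mem_filter] at hv
          exact ⟨(hS v hv.1).1, (hS v hv.1).2.1, hv.2⟩
  have h2 : ((∑ v ∈ S, (Lf κ n v j).factorization p : ℕ) : ℝ) ≤
      ((∑ k ∈ Finset.range Λ, 2 * (X / p ^ (k + 1) + 1) : ℕ) : ℝ) := by exact_mod_cast h1
  refine h2.trans ?_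
  have hp0 : (0 : ℝ) < p := by exact_mod_cast hp.pos
  have hp2 : (2 : ℝ) ≤ p := by exact_mod_cast hp.two_le
  have h3 : ((∑ k ∈ Finset.range Λ, 2 * (X / p ^ (k + 1) + 1) : ℕ) : ℝ) ≤
      ∑ k ∈ Finset.range Λ, (2 * X * (1 / (p : ℝ)) ^ (k + 1) + 2) := by
    push_cast
    refine Finset.sum_le_sum fun k _ => ?_
    have h4 : ((X / p ^ (k + 1) : ℕ) : ℝ) ≤ (X : ℝ) / (p : ℝ) ^ (k + 1) := by
      have := Nat.cast_div_le (m := X) (n := p ^ (k + 1)) (α := ℝ)
      push_cast at this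
      exact this
    have h5 : (X : ℝ) * (1 / (p : ℝ)) ^ (k + 1) = (X : ℝ) / (p : ℝ) ^ (k + 1) := by
      rw [one_div, inv_pow, div_eq_mul_inv]
    nlinarith
  refine h3.trans ?_
  rw [Finset.sum_add_distrib, ← Finset.mul_sum, Finset.sum_const, Finset.card_range, nsmul_eq_mul]
  have hx1 : (1 : ℝ) / p ≤ 1 / 2 := one_div_le_one_div_of_le (by norm_num) hp2
  have h6 := XTl.geo (1 / (p : ℝ)) (by positivity) hx1 Λ
  have h7 : (0 : ℝ) ≤ (1 / (p : ℝ)) ^ (Λ + 1) := by positivity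
  have hX0 : (0 : ℝ) ≤ X := Nat.cast_nonneg X
  have h8 : 2 * (X : ℝ) * ∑ k ∈ Finset.range Λ, (1 / (p : ℝ)) ^ (k + 1) ≤
      2 * X * (2 * (1 / (p : ℝ))) := by
    refine mul_le_mul_of_nonneg_left ?_ (by positivity)
    linarith
  have h9 : 2 * (X : ℝ) * (2 * (1 / (p : ℝ))) = 4 * X / p := by ring
  rw [h9] at h8
  linarith

/-- the bound for the values of the forms -/
theorem Lf_le {κ n N₀ X v : ℕ} (hn : n ≤ N₀ * X) (hv : v ≤ X) (hX : 1 ≤ X) (j : Fin 4) :
    Lf κ n v j ≤ (10 * (1 + κ * N₀) ^ 2) * X ^ 2 := by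
  set T := (1 + κ * N₀) * X with hT
  have hk : κ * n ≤ κ * N₀ * X := by
    calc κ * n ≤ κ * (N₀ * X) := Nat.mul_le_mul_left _ hn
      _ = κ * N₀ * X := by ring
  have hT' : T = X + κ * N₀ * X := by rw [hT]; ring
  have h1 : v + κ * n ≤ T := by omega
  have hT1 : 1 ≤ T := by omega
  have hTT : T ≤ T ^ 2 := by nlinarith
  have e : (10 * (1 + κ * N₀) ^ 2) * X ^ 2 = 10 * T ^ 2 := by rw [hT]; ring
  rw [e]
  fin_cases j
  · show v ≤ 10 * T ^ 2
    omega
  · show v + κ * n ≤ 10 * T ^ 2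
    omega
  · show v + 2 * (κ * n) ≤ 10 * T ^ 2
    omega
  · show (v + κ * n) ^ 2 + (κ * n) ^ 2 ≤ 10 * T ^ 2
    have h3 : (v + κ * n) ^ 2 ≤ T ^ 2 := Nat.pow_le_pow_left h1 2
    have h4 : (κ * n) ^ 2 ≤ T ^ 2 := Nat.pow_le_pow_left (by omega) 2
    omega

end XDTt

open XDTt in
theorem pr_DTt (hCh : FC.StCh) : StDTt := by
  classical
  obtain ⟨C₁, hC₁, hch⟩ := hCh
  refine ⟨16 * (4 * C₁ + 1), by positivity, fun K κ N₀ hK _ hκ => ?_⟩
  set B : ℕ := 10 * (1 + κ * N₀) ^ 2 with hB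
  obtain ⟨X₀, hX₀⟩ := XTl.logsq B
  refine ⟨X₀, fun X hX R y n hR hy hyR hn hnX j => ?_⟩
  set Λ : ℕ := Nat.log 2 (B * X ^ 2) with hΛ
  have hK2 : (2 * Λ) ^ 2 ≤ X := hX₀ X hX
  have hyX : y ^ 2 ≤ X := (Nat.pow_le_pow_right (by omega) hR).trans hyR
  have hX4 : 4 ≤ X := by
    have : 2 ^ 2 ≤ y ^ 2 := Nat.pow_le_pow_left hy 2
    omega
  have hKy : 2 * Λ * y ≤ X := by
    have h1 : (2 * Λ * y) ^ 2 ≤ X ^ 2 := by
      calc (2 * Λ * y) ^ 2 = (2 * Λ) ^ 2 * y ^ 2 := by ring
        _ ≤ X * X := Nat.mul_le_mul hK2 hyX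
        _ = X ^ 2 := by ring
    exact (Nat.pow_le_pow_iff_left two_ne_zero).1 h1
  set S := (Finset.Icc 1 X).filter fun v => NoC K v n ∧ X < sp K y (Lf κ n v j) ^ 16 with hS
  set P := (Finset.Icc 1 y).filter (fun p => p.Prime ∧ K < p) with hP
  have hpos : ∀ v ∈ S, 0 < Lf κ n v j := fun v hv => by
    rw [hS, Finset.mem_filter, Finset.mem_Icc] at hv
    exact XTl.Lf_pos (by omega) j
  have hXr : (4 : ℝ) ≤ X := by exact_mod_cast hX4
  have hlogX : 0 < Real.log X := Real.log_pos (by linarith)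
  have hyr : (2 : ℝ) ≤ y := by exact_mod_cast hy
  have hlogy : 0 < Real.log y := Real.log_pos (by linarith)
  -- Markov
  have h1 : (S.card : ℝ) * Real.log X ≤ 16 * ∑ v ∈ S, Real.log (sp K y (Lf κ n v j)) := by
    rw [Finset.mul_sum, ← nsmul_eq_mul, ← Finset.sum_const]
    refine Finset.sum_le_sum fun v hv => ?_
    rw [hS, Finset.mem_filter] at hv
    have h2 : (X : ℝ) ≤ (sp K y (Lf κ n v j) : ℝ) ^ 16 := by
      exact_mod_cast hv.2.2.le
    have h3 := Real.log_le_log (by linarith) h2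
    rw [Real.log_pow] at h3
    exact_mod_cast h3
  -- the first moment
  have h2 : ∑ v ∈ S, Real.log (sp K y (Lf κ n v j)) ≤
      ∑ p ∈ P, Real.log p * (4 * X / p + 2 * Λ) := by
    calc ∑ v ∈ S, Real.log (sp K y (Lf κ n v j))
        = ∑ v ∈ S, ∑ p ∈ P, ((Lf κ n v j).factorization p : ℝ) * Real.log p :=
          Finset.sum_congr rfl fun v _ => XTl.log_sp K y _
      _ = ∑ p ∈ P, ∑ v ∈ S, ((Lf κ n v j).factorization p : ℝ) * Real.log p := Finset.sum_comm
      _ ≤ ∑ p ∈ P, Real.log p * (4 * X / p + 2 * Λ) := by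
          refine Finset.sum_le_sum fun p hp => ?_
          rw [hP, Finset.mem_filter, Finset.mem_Icc] at hp
          rw [← Finset.sum_mul, mul_comm]
          refine mul_le_mul_of_nonneg_left ?_ (Real.log_natCast_nonneg p)
          have h3 := expo (X := X) hK hκ hp.2.1 hp.2.2 j Λ S (n := n) (fun v hv => ?_)
          · push_cast at h3
            exact h3
          · have hv' := hv
            rw [hS, Finset.mem_filter, Finset.mem_Icc] at hv'
            exact ⟨hv'.1.2, hv'.2.1, hpos v hv, XTl.fac_le hp.2.1 (hpos v hv)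
              (Lf_le hnX hv'.1.2 (by omega) j)⟩
  have h3 : ∑ p ∈ P, Real.log p * (4 * X / p + 2 * Λ) ≤ (4 * C₁ + 1) * X * Real.log y := by
    have e1 : ∑ p ∈ P, Real.log p * (4 * X / p + 2 * Λ) =
        4 * X * ∑ p ∈ P, Real.log p / p + 2 * Λ * ∑ p ∈ P, Real.log p := by
      rw [Finset.mul_sum, Finset.mul_sum, ← Finset.sum_add_distrib]
      refine Finset.sum_congr rfl fun p _ => ?_
      ring
    have e2 : ∑ p ∈ P, Real.log p / p ≤ C₁ * Real.log y := by
      refine le_trans ?_ (hch y hy)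
      refine Finset.sum_le_sum_of_subset_of_nonneg ?_ ?_
      · intro p hp
        rw [hP, Finset.mem_filter] at hp
        exact Finset.mem_filter.2 ⟨hp.1, hp.2.1⟩
      · intro p _ _
        exact div_nonneg (Real.log_natCast_nonneg p) (Nat.cast_nonneg p)
    have e3 : ∑ p ∈ P, Real.log p ≤ y * Real.log y := by
      calc ∑ p ∈ P, Real.log p ≤ ∑ _p ∈ P, Real.log y := by
            refine Finset.sum_le_sum fun p hp => ?_
            rw [hP, Finset.mem_filter, Finset.mem_Icc] at hp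
            exact Real.log_le_log (by exact_mod_cast hp.2.1.pos) (by exact_mod_cast hp.1.2)
        _ = P.card * Real.log y := by rw [Finset.sum_const, nsmul_eq_mul]
        _ ≤ y * Real.log y := by
            refine mul_le_mul_of_nonneg_right ?_ hlogy.le
            have : P.card ≤ y := by
              calc P.card ≤ (Finset.Icc 1 y).card := Finset.card_filter_le _ _
                _ = y := by simp
            exact_mod_cast this
    have e4 : (2 * Λ * y : ℝ) ≤ X := by exact_mod_cast hKy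
    have hX0 : (0 : ℝ) ≤ X := by linarith
    have hK0 : (0 : ℝ) ≤ Λ := Nat.cast_nonneg Λ
    rw [e1]
    have e5 : 4 * (X : ℝ) * ∑ p ∈ P, Real.log p / p ≤ 4 * X * (C₁ * Real.log y) :=
      mul_le_mul_of_nonneg_left e2 (by positivity)
    have e6 : 2 * (Λ : ℝ) * ∑ p ∈ P, Real.log p ≤ 2 * Λ * (y * Real.log y) :=
      mul_le_mul_of_nonneg_left e3 (by positivity)
    have e7 : 2 * (Λ : ℝ) * (y * Real.log y) ≤ X * Real.log y := by
      calc 2 * (Λ : ℝ) * (y * Real.log y) = (2 * Λ * y) * Real.log y := by ring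
        _ ≤ X * Real.log y := mul_le_mul_of_nonneg_right e4 hlogy.le
    linarith
  have h4 : (R : ℝ) * Real.log y ≤ Real.log X := by
    have h5 : ((y : ℝ)) ^ R ≤ X := by exact_mod_cast hyR
    have h6 := Real.log_le_log (by positivity) h5
    rwa [Real.log_pow] at h6
  have hR0 : (0 : ℝ) < R := by
    have : 0 < R := by omega
    exact_mod_cast this
  have h5 : (S.card : ℝ) * Real.log X ≤ 16 * ((4 * C₁ + 1) * X * Real.log y) :=
    h1.trans (mul_le_mul_of_nonneg_left (h2.trans h3) (by norm_num))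
  have h6 : (S.card : ℝ) * R * Real.log X ≤ 16 * (4 * C₁ + 1) * X * Real.log X := by
    calc (S.card : ℝ) * R * Real.log X = R * ((S.card : ℝ) * Real.log X) := by ring
      _ ≤ R * (16 * ((4 * C₁ + 1) * X * Real.log y)) := mul_le_mul_of_nonneg_left h5 hR0.le
      _ = 16 * (4 * C₁ + 1) * X * (R * Real.log y) := by ring
      _ ≤ 16 * (4 * C₁ + 1) * X * Real.log X := mul_le_mul_of_nonneg_left h4 (by positivity)
  have h7 : (S.card : ℝ) * R ≤ 16 * (4 * C₁ + 1) * X := le_of_mul_le_mul_right h6 hlogX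
  rw [div_mul_eq_mul_div, le_div_iff₀ hR0]
  exact h7

end Pool.Agent.F0f91f8.PC
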