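import Pool.Agent.Work.MP_0f91f8_co.PC.StmtsG

/-!
# Block PC, item GAv: from counts over all `V ≤ X` to averages over the family.
-/

set_option autoImplicit false

namespace Pool.Agent.F0f91f8.PC

open Filter Topology ComplexConjugate
open Pool.Agent.F0f91f8.HD Pool.Agent.F0f91f8.RC Pool.Agent.F0f91f8.KR Pool.Agent.F0f91f8.FC
open scoped BigOperators

namespace IGAv

/-- the sum over `v'` for fixed `v` -/
theorem inner (Q D M k v : ℕ) (G : ℕ → ℝ) (hQ : 0 < Q) (hk : 0 < k) (hM : 0 < M) (hD : 0 < D)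
    (hG : ∀ V, 0 ≤ G V) (hv : v ∈ Finset.Icc 1 (D * M)) :
    ∑ v' ∈ Finset.Icc 1 (D * M), G (k * (Q * (v + v') + 1)) ≤
      ∑ V ∈ Finset.Icc 1 (3 * k * Q * D * M), G V := by
  have hinj : Set.InjOn (fun v' => k * (Q * (v + v') + 1))
      (Finset.Icc 1 (D * M) : Finset ℕ) := by
    intro x _ y _ hxy
    have h1 : Q * (v + x) + 1 = Q * (v + y) + 1 := Nat.eq_of_mul_eq_mul_left hk hxy
    have h2 : v + x = v + y := Nat.eq_of_mul_eq_mul_left hQ (by omega)
    omega
  rw [← Finset.sum_image (f := G) hinj]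
  apply Finset.sum_le_sum_of_subset_of_nonneg
  · intro V hV
    rw [Finset.mem_image] at hV
    obtain ⟨v', hv', rfl⟩ := hV
    rw [Finset.mem_Icc] at hv hv' ⊢
    constructor
    · exact Nat.mul_pos hk (Nat.succ_pos _)
    · have h1 : Q * (v + v') ≤ Q * (D * M + D * M) := Nat.mul_le_mul_left _ (by omega)
      have h2 : 1 ≤ Q * (D * M) := Nat.mul_pos hQ (Nat.mul_pos hD hM)
      calc k * (Q * (v + v') + 1) ≤ k * (3 * (Q * (D * M))) := by
            apply Nat.mul_le_mul_left
            nlinarith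
        _ = 3 * k * Q * D * M := by ring
  · intro V _ _
    exact hG V

end IGAv

theorem pr_GAv : StGAv := by
  intro w K M k F c hK hM hk hc hF h
  have hQ : 0 < w.factorial := w.factorial_pos
  have hD : 0 < DR 1 w K := by
    unfold DR
    have hK' : 0 < K := hK
    positivity
  have hM' : 0 < M := hM
  unfold BRK BR
  generalize w.factorial = Q at *
  generalize DR 1 w K = D at *
  have hMr : (0 : ℝ) < (M : ℝ) := by exact_mod_cast hM'
  have hDM : (0 : ℝ) < ((D * M : ℕ) : ℝ) := by exact_mod_cast Nat.mul_pos hD hM'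
  rw [div_le_iff₀ (by positivity)]
  calc ∑ u ∈ Finset.Icc 1 M, ∑ u' ∈ Finset.Icc 1 M, ∑ v ∈ Finset.Icc 1 (D * M),
        ∑ v' ∈ Finset.Icc 1 (D * M), F (k * (Q * (v + v') + 1)) (Q * (u + u') + 1)
      ≤ ∑ _u ∈ Finset.Icc 1 M, ∑ _u' ∈ Finset.Icc 1 M, ∑ _v ∈ Finset.Icc 1 (D * M),
        c * ((3 * k * Q * D * M : ℕ) : ℝ) := by
        apply Finset.sum_le_sum
        intro u hu
        apply Finset.sum_le_sum
        intro u' hu'
        apply Finset.sum_le_sum
        intro v hv
        rw [Finset.mem_Icc] at hu hu'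
        have hn : Q * (u + u') + 1 ≤ 3 * Q * M := by
          have h1 : Q * (u + u') ≤ Q * (M + M) := Nat.mul_le_mul_left _ (by omega)
          have h2 : 1 ≤ Q * M := Nat.mul_pos hQ hM'
          nlinarith
        exact (IGAv.inner Q D M k v (fun V => F V (Q * (u + u') + 1)) hQ hk hM' hD
          (fun V => hF V _) hv).trans (h _ (Nat.succ_pos _) hn)
    _ = 3 * k * Q * c * ((M : ℝ) ^ 2 * ((D * M : ℕ) : ℝ) ^ 2) := by
        simp only [Finset.sum_const, Nat.card_Icc, Nat.add_sub_cancel, nsmul_eq_mul]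
        push_cast
        ring

end Pool.Agent.F0f91f8.PC
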