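import Pool.Agent.Work.MP_0f91f8_co.PC.StmtsG
import Pool.Agent.Work.MP_0f91f8_co.HD.I_DBx

/-!
# Block PC, module G, item GFi: bad members are rare (helper83)
-/

set_option autoImplicit false

namespace Pool.Agent.F0f91f8.PC

open Filter Topology ComplexConjugate
open Pool.Agent.F0f91f8.HD Pool.Agent.F0f91f8.RC Pool.Agent.F0f91f8.KR Pool.Agent.F0f91f8.FC
open scoped BigOperators

namespace IGFi

theorem br_mono (Q D a₀ M : ℕ) (F G : ℕ → ℕ → ℝ)
    (h : ∀ u ∈ Finset.Icc 1 M, ∀ u' ∈ Finset.Icc 1 M, ∀ v ∈ Finset.Icc 1 (D * M),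
      ∀ v' ∈ Finset.Icc 1 (D * M),
      F (Q * (v + v') + a₀) (u + u') ≤ G (Q * (v + v') + a₀) (u + u')) :
    BR Q D a₀ M F ≤ BR Q D a₀ M G := by
  unfold BR
  apply div_le_div_of_nonneg_right _ (by positivity)
  exact Finset.sum_le_sum fun u hu => Finset.sum_le_sum fun u' hu' =>
    Finset.sum_le_sum fun v hv => Finset.sum_le_sum fun v' hv' => h u hu u' hu' v hv v' hv'

theorem brk_add (w K M : ℕ) (F G : ℕ → ℕ → ℝ) :
    BRK 1 w K M (fun a n => F a n + G a n) = BRK 1 w K M F + BRK 1 w K M G := by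
  unfold BRK
  exact (pr_DBx w.factorial (DR 1 w K) 1 M).2.2.2.2.1 (fun a s => F a (w.factorial * s + 1))
    (fun a s => G a (w.factorial * s + 1))

theorem brk_zero (w K M : ℕ) : BRK 1 w K M (fun _ _ => 0) = 0 := by
  unfold BRK BR
  simp

theorem brk_sum {ι : Type} (w K M : ℕ) (s : Finset ι) (F : ι → ℕ → ℕ → ℝ) :
    BRK 1 w K M (fun a n => ∑ i ∈ s, F i a n) = ∑ i ∈ s, BRK 1 w K M (F i) := by
  classical
  induction s using Finset.induction_on with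
  | empty => simpa using brk_zero w K M
  | insert i s hi ih =>
    rw [Finset.sum_insert hi, ← ih, ← brk_add]
    congr 1
    funext a n
    rw [Finset.sum_insert hi]

open Classical in
/-- the exceptional primes -/
noncomputable def PP (Y R : ℕ) (cl0 : ℕ → Prop) : Finset ℕ :=
  (Finset.Icc 1 (Y ^ (3 * R))).filter fun p => p.Prime ∧ Y < p ∧ cl0 p

open Classical in
theorem point (hSm : StGSm) (w K κ k a n Y X E₀ R T : ℕ) (cl0 : ℕ → Prop) (hw : 10 ≤ w)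
    (hwK : w ≤ K) (hP : Par w K κ k) (ha : 0 < a) (hn0 : 0 < n)
    (hka : (k * a) % w.factorial = 1 % w.factorial) (hE : T ^ K + K.factorial ^ 2 ≤ E₀)
    (hV1 : 1 ≤ k * a) (hVX : k * a ≤ X)
    (hL : ∀ j, 0 < Lf κ n (k * a) j ∧ Lf κ n (k * a) j ≤ Y ^ (3 * R) ∧
      nb Y (Lf κ n (k * a) j) ≤ 3 * R) :
    (if Gm w K κ k a n Y X E₀ (3 * R) cl0 then (0 : ℝ) else 1) ≤
      ((((iGc K a n + iPq w n) + (if hn K Y n ≤ 2 then 0 else 1)) +
        ∑ j : Fin 4, (if NoC K (k * a) n ∧ X < sp K Y (Lf κ n (k * a) j) ^ 16 then (1 : ℝ) else 0)) +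
        (if T ^ K < sm K (k * a) then 1 else 0)) +
        ∑ j : Fin 4, ∑ p ∈ PP Y R cl0, (if p ∣ Lf κ n (k * a) j then (1 : ℝ) else 0) := by
  have h1 : 0 ≤ iGc K a n := by unfold iGc; split_ifs <;> norm_num
  have h2 : 0 ≤ iPq w n := by unfold iPq; split_ifs <;> norm_num
  have h3 : (0 : ℝ) ≤ (if hn K Y n ≤ 2 then 0 else 1) := by split_ifs <;> norm_num
  have h4' : ∀ j : Fin 4, (0 : ℝ) ≤
      (if NoC K (k * a) n ∧ X < sp K Y (Lf κ n (k * a) j) ^ 16 then (1 : ℝ) else 0) := by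
    intro j; split_ifs <;> norm_num
  have h4 : (0 : ℝ) ≤ ∑ j : Fin 4,
      (if NoC K (k * a) n ∧ X < sp K Y (Lf κ n (k * a) j) ^ 16 then (1 : ℝ) else 0) :=
    Finset.sum_nonneg fun j _ => h4' j
  have h5 : (0 : ℝ) ≤ (if T ^ K < sm K (k * a) then 1 else 0) := by split_ifs <;> norm_num
  have h6'' : ∀ (j : Fin 4) (p : ℕ), (0 : ℝ) ≤ (if p ∣ Lf κ n (k * a) j then (1 : ℝ) else 0) := by
    intro j p; split_ifs <;> norm_num
  have h6' : ∀ j : Fin 4, (0 : ℝ) ≤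
      ∑ p ∈ PP Y R cl0, (if p ∣ Lf κ n (k * a) j then (1 : ℝ) else 0) :=
    fun j => Finset.sum_nonneg fun p _ => h6'' j p
  have h6 : (0 : ℝ) ≤ ∑ j : Fin 4, ∑ p ∈ PP Y R cl0,
      (if p ∣ Lf κ n (k * a) j then (1 : ℝ) else 0) :=
    Finset.sum_nonneg fun j _ => h6' j
  by_cases hG : Gm w K κ k a n Y X E₀ (3 * R) cl0
  · rw [if_pos hG]; linarith
  rw [if_neg hG]
  by_contra hlt
  push Not at hlt
  apply hG
  -- all indicators vanish
  have g1 : iGc K a n < 1 := by linarith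
  have g2 : iPq w n < 1 := by linarith
  have g3 : (if hn K Y n ≤ 2 then (0 : ℝ) else 1) < 1 := by linarith
  have g4 : ∑ j : Fin 4,
      (if NoC K (k * a) n ∧ X < sp K Y (Lf κ n (k * a) j) ^ 16 then (1 : ℝ) else 0) < 1 := by
    linarith
  have g5 : (if T ^ K < sm K (k * a) then (1 : ℝ) else 0) < 1 := by linarith
  have g6 : ∑ j : Fin 4, ∑ p ∈ PP Y R cl0,
      (if p ∣ Lf κ n (k * a) j then (1 : ℝ) else 0) < 1 := by linarith
  have k1 : ¬ ∃ p : ℕ, p.Prime ∧ K < p ∧ p ∣ a ∧ p ∣ n := by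
    intro hh
    unfold iGc at g1
    rw [if_pos hh] at g1
    exact lt_irrefl _ g1
  have k2 : ¬ ∃ p : ℕ, p.Prime ∧ w < p ∧ p ^ 2 ∣ n := by
    intro hh
    unfold iPq at g2
    rw [if_pos hh] at g2
    exact lt_irrefl _ g2
  have k3 : hn K Y n ≤ 2 := by
    by_contra hh
    rw [if_neg hh] at g3
    exact lt_irrefl _ g3
  have hno : NoC K (k * a) n := by
    intro p hp hKp hpk hpn
    rcases (Nat.Prime.dvd_mul hp).1 hpk with h | h
    · exact absurd (hP.kp p hp h) (by omega)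
    · exact k1 ⟨p, hp, hKp, h, hpn⟩
  have k4 : ∀ j : Fin 4, sp K Y (Lf κ n (k * a) j) ^ 16 ≤ X := by
    intro j
    by_contra hh
    push Not at hh
    have h7 := Finset.single_le_sum (f := fun j : Fin 4 =>
      (if NoC K (k * a) n ∧ X < sp K Y (Lf κ n (k * a) j) ^ 16 then (1 : ℝ) else 0))
      (fun j _ => h4' j) (Finset.mem_univ j)
    rw [if_pos ⟨hno, hh⟩] at h7
    linarith
  have k5 : sm K (k * a) ≤ T ^ K := by
    by_contra hh
    push Not at hh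
    rw [if_pos hh] at g5
    exact lt_irrefl _ g5
  have hsq : ∀ p : ℕ, p.Prime → w < p → ¬ p ^ 2 ∣ n := fun p hp hwp hd => k2 ⟨p, hp, hwp, hd⟩
  have k5' : ∀ j : Fin 4, sm K (Lf κ n (k * a) j) ≤ E₀ := by
    intro j
    by_cases hj : j = 0
    · subst hj
      have e0 : Lf κ n (k * a) 0 = k * a := rfl
      rw [e0]
      exact k5.trans (by omega)
    · exact (hSm w K κ k (by omega) hwK hP a n ha hn0 hka hsq j hj).trans (by omega)
  refine ⟨⟨hV1, hVX, hno, fun j => ⟨k4 j, k5' j, (hL j).2.2⟩⟩, hsq, k3, ?_⟩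
  intro j p hp hYp hpL hcl
  have hple : p ≤ Y ^ (3 * R) := (Nat.le_of_dvd (hL j).1 hpL).trans (hL j).2.1
  have hpm : p ∈ PP Y R cl0 := by
    unfold PP
    rw [Finset.mem_filter, Finset.mem_Icc]
    exact ⟨⟨hp.one_lt.le, hple⟩, hp, hYp, hcl⟩
  have h8 := Finset.single_le_sum (f := fun p : ℕ =>
    (if p ∣ Lf κ n (k * a) j then (1 : ℝ) else 0)) (fun p _ => h6'' j p) hpm
  have h9 := Finset.single_le_sum (f := fun j : Fin 4 => ∑ p ∈ PP Y R cl0,
    (if p ∣ Lf κ n (k * a) j then (1 : ℝ) else 0)) (fun j _ => h6' j) (Finset.mem_univ j)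
  rw [if_pos hpL] at h8
  linarith

end IGFi

open IGFi in
open Classical in
theorem pr_GFi (hGc : StRGc) (hPq : StRPq) (hPr : StKPr) (hAv : StGAv) (hTl : StGTl) (hSa : StGSa)
    (hSm : StGSm) (hHn : StGHn) (hSz : StGSz) (hPp : StGPp) : StGFi := by
  obtain ⟨C₁, hC₁, hTl'⟩ := hTl
  refine ⟨31, by norm_num, ?_⟩
  intro w K hw hwK δ₁ hδ₁
  have hK0 : 0 < K := by omega
  obtain ⟨M₁, hM₁⟩ := hTl' w K hw hwK
  obtain ⟨C₂, hC₂, hPp'⟩ := hPp w K hw hwK
  set Q := w.factorial with hQ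
  have hQ0 : 0 < Q := Nat.factorial_pos w
  have hQw : ∀ p : ℕ, p.Prime → p ∣ Q → p ≤ w := fun p hp hd => (hp.dvd_factorial).1 hd
  have hQK : ∀ p : ℕ, p.Prime → p ∣ Q → p ≤ K := fun p hp hd => (hQw p hp hd).trans hwK
  have hD0 : 0 < DR 1 w K := by
    unfold DR
    positivity
  set k₀ : ℕ := ∑ e' : Fin (K + 1) → Fin K, kK 1 w K e' with hk₀
  have hkk : ∀ e' : Fin (K + 1) → Fin K, kK 1 w K e' ≤ k₀ := fun e' =>
    Finset.single_le_sum (f := fun e' : Fin (K + 1) → Fin K => kK 1 w K e')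
      (fun _ _ => Nat.zero_le _) (Finset.mem_univ e')
  have hη : 0 < δ₁ / 8 := by positivity
  obtain ⟨R₁, hR₁⟩ := exists_nat_ge (96 * k₀ * Q * C₁ / δ₁)
  obtain ⟨T, hT⟩ := exists_nat_ge (24 * k₀ * Q * K / δ₁)
  refine ⟨R₁ + 2, ?_⟩
  intro R hR
  refine ⟨(T + 1) ^ K + K.factorial ^ 2, δ₁ / (32 * C₂), by positivity, ?_⟩
  obtain ⟨Y₁, hY₁⟩ := hSz w K R hw hwK (by omega)
  obtain ⟨M₂, hM₂⟩ := hGc K Q (DR 1 w K) (by omega) hQ0 hD0 hQK (δ₁ / 8) hη
  obtain ⟨M₃, hM₃⟩ := hPq w Q (by omega) hQ0 hQw (δ₁ / 8) hη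
  obtain ⟨Z, hZ⟩ := exists_nat_ge (160 / δ₁)
  refine ⟨Y₁ + M₁ + M₂ + M₃ + Z + K + 2, ?_⟩
  intro Y hY cl0 hcl e e'
  set M := Y ^ R with hM
  have hY2 : 2 ≤ Y := by omega
  have hYM : Y ≤ M := by
    rw [hM]
    exact Nat.le_self_pow (by omega) Y
  have hM1 : 1 ≤ M := by omega
  set κ := kR 1 w K e with hκ
  set k := kK 1 w K e' with hk
  obtain ⟨hPar, -, -, -, -, -, hcong, -⟩ := hPr 1 w K e e' le_rfl (by omega) hwK
  have hkle : (k : ℝ) ≤ k₀ := by exact_mod_cast hkk e'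
  -- the pointwise bound
  have hpt : BRK 1 w K M (fun a n => if Gm w K κ k a n Y (3 * k * w.factorial * DR 1 w K * M)
      ((T + 1) ^ K + K.factorial ^ 2) (3 * R) cl0 then 0 else 1) ≤
      BRK 1 w K M (fun a n => ((((iGc K a n + iPq w n) + (if hn K Y n ≤ 2 then 0 else 1)) +
        ∑ j : Fin 4, (if NoC K (k * a) n ∧ 3 * k * w.factorial * DR 1 w K * M <
          sp K Y (Lf κ n (k * a) j) ^ 16 then (1 : ℝ) else 0)) +
        (if (T + 1) ^ K < sm K (k * a) then 1 else 0)) +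
        ∑ j : Fin 4, ∑ p ∈ PP Y R cl0, (if p ∣ Lf κ n (k * a) j then (1 : ℝ) else 0)) := by
    unfold BRK
    apply br_mono
    intro u hu u' hu' v hv v' hv'
    obtain ⟨hV1, hVX, hL⟩ := hY₁ Y (by omega) e e' u hu u' hu' v hv v' hv'
    exact point hSm w K κ k (w.factorial * (v + v') + 1) (w.factorial * (u + u') + 1) Y
      (3 * k * w.factorial * DR 1 w K * M) ((T + 1) ^ K + K.factorial ^ 2) R (T + 1) cl0 hw hwK
      hPar (by omega) (by omega) (hcong (v + v')) le_rfl hV1 hVX hL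
  refine hpt.trans ?_
  rw [brk_add, brk_add, brk_add, brk_add, brk_add, brk_sum, brk_sum]
  have b1 : BRK 1 w K M (fun a n => iGc K a n) ≤ 10 / K + δ₁ / 8 :=
    hM₂ M (by omega) 1 hQ0
  have b2 : BRK 1 w K M (fun _ n => iPq w n) ≤ 1 / w + δ₁ / 8 :=
    hM₃ M (by omega) (DR 1 w K) 1 hD0
  have hYr : (0 : ℝ) < Y := by
    have : 0 < Y := by omega
    exact_mod_cast this
  have b3 : BRK 1 w K M (fun _ n => if hn K Y n ≤ 2 then 0 else 1) ≤ 20 / K + δ₁ / 8 := by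
    refine (hHn w K M Y hw hwK hM1).trans ?_
    have hMY : (Y : ℝ) ^ 2 ≤ M := by
      have : Y ^ 2 ≤ M := by
        rw [hM]
        exact Nat.pow_le_pow_right (by omega) (by omega)
      exact_mod_cast this
    have h1 : 20 * (Y : ℝ) / M ≤ δ₁ / 8 := by
      have hZY : (Z : ℝ) ≤ Y := by
        have : Z ≤ Y := by omega
        exact_mod_cast this
      have h2 : 160 ≤ δ₁ * Y := by
        have := hZ.trans hZY
        rw [div_le_iff₀ hδ₁] at this
        linarith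
      rw [div_le_iff₀ (by positivity)]
      nlinarith
    linarith
  have b4 : ∀ j : Fin 4, BRK 1 w K M (fun a n => if NoC K (k * a) n ∧
      3 * k * w.factorial * DR 1 w K * M < sp K Y (Lf κ n (k * a) j) ^ 16 then (1 : ℝ) else 0) ≤
      δ₁ / 32 := by
    intro j
    refine (hM₁ M (by omega) R Y (by omega) hY2 le_rfl e e' j).trans ?_
    have hR0 : (0 : ℝ) < R := by
      have : 0 < R := by omega
      exact_mod_cast this
    have hRR : (R₁ : ℝ) ≤ R := by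
      have : R₁ ≤ R := by omega
      exact_mod_cast this
    have h1 : 96 * k₀ * Q * C₁ ≤ δ₁ * R := by
      have := hR₁.trans hRR
      rw [div_le_iff₀ hδ₁] at this
      linarith
    have h2 : 3 * (k : ℝ) * Q * (C₁ / R) ≤ 3 * (k₀ : ℝ) * Q * (C₁ / R) := by gcongr
    refine h2.trans ?_
    rw [← mul_div_assoc, div_le_iff₀ hR0]
    linarith
  have b5 : BRK 1 w K M (fun a _ => if (T + 1) ^ K < sm K (k * a) then 1 else 0) ≤ δ₁ / 8 := by
    have h1 := hAv w K M k (fun V _ => if (T + 1) ^ K < sm K V then (1 : ℝ) else 0)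
      ((K : ℝ) / ((T + 1 : ℕ) : ℝ)) (by omega) hM1 hPar.k0 (by positivity)
      (fun V n => by positivity) (fun n _ _ => by
        rw [Finset.sum_ite, Finset.sum_const_zero, add_zero, Finset.sum_const, nsmul_eq_mul, mul_one]
        refine (hSa K (T + 1) _ (by omega)).trans (le_of_eq ?_)
        ring)
    refine h1.trans ?_
    have hT0 : (0 : ℝ) < ((T + 1 : ℕ) : ℝ) := by positivity
    have h3 : 24 * k₀ * Q * K ≤ δ₁ * ((T + 1 : ℕ) : ℝ) := by
      rw [div_le_iff₀ hδ₁] at hT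
      push_cast
      nlinarith
    have h2 : 3 * (k : ℝ) * Q * ((K : ℝ) / ((T + 1 : ℕ) : ℝ)) ≤
        3 * (k₀ : ℝ) * Q * ((K : ℝ) / ((T + 1 : ℕ) : ℝ)) := by gcongr
    refine h2.trans ?_
    rw [← mul_div_assoc, div_le_iff₀ hT0]
    linarith
  have b6 : ∀ j : Fin 4, BRK 1 w K M (fun a n => ∑ p ∈ PP Y R cl0,
      (if p ∣ Lf κ n (k * a) j then (1 : ℝ) else 0)) ≤ δ₁ / 32 := by
    intro j
    rw [brk_sum]
    have h1 : ∑ p ∈ PP Y R cl0, BRK 1 w K M (fun a n =>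
        (if p ∣ Lf κ n (k * a) j then (1 : ℝ) else 0)) ≤ ∑ p ∈ PP Y R cl0, C₂ / (p : ℝ) := by
      refine Finset.sum_le_sum fun p hp => ?_
      unfold PP at hp
      rw [Finset.mem_filter] at hp
      have hp2 := hp.2.2.1
      exact hPp' M hM1 e e' j p hp.2.1 (by omega)
    refine h1.trans ?_
    have h2 : ∑ p ∈ PP Y R cl0, C₂ / (p : ℝ) = C₂ * ∑ p ∈ PP Y R cl0, 1 / (p : ℝ) := by
      rw [Finset.mul_sum]
      exact Finset.sum_congr rfl fun p _ => by ring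
    rw [h2]
    have h3 : ∑ p ∈ PP Y R cl0, 1 / (p : ℝ) ≤ δ₁ / (32 * C₂) := by
      refine le_trans (le_of_eq ?_) hcl
      unfold PP
      rfl
    calc C₂ * ∑ p ∈ PP Y R cl0, 1 / (p : ℝ) ≤ C₂ * (δ₁ / (32 * C₂)) := by gcongr
      _ = δ₁ / 32 := by field_simp
  have b4s := Finset.sum_le_sum fun (j : Fin 4) (_ : j ∈ Finset.univ) => b4 j
  have b6s := Finset.sum_le_sum fun (j : Fin 4) (_ : j ∈ Finset.univ) => b6 j
  have hc4 : ∑ _j : Fin 4, δ₁ / 32 = δ₁ / 8 := by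
    rw [Finset.sum_const, Finset.card_univ, Fintype.card_fin, nsmul_eq_mul]
    push_cast
    ring
  rw [hc4] at b4s b6s
  have hwr : (0 : ℝ) < w := by
    have : 0 < w := by omega
    exact_mod_cast this
  have hKw : 1 / (K : ℝ) ≤ 1 / w := by
    apply one_div_le_one_div_of_le hwr
    exact_mod_cast hwK
  have h30 : 10 / (K : ℝ) + 1 / w + 20 / K ≤ 31 / w := by
    have e1 : 10 / (K : ℝ) = 10 * (1 / K) := by ring
    have e2 : 20 / (K : ℝ) = 20 * (1 / K) := by ring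
    have e3 : 31 / (w : ℝ) = 31 * (1 / w) := by ring
    rw [e1, e2, e3]
    linarith
  linarith

end Pool.Agent.F0f91f8.PC
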