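import Pool.Agent.Work.MP_0f91f8_co.PC.StmtsG
import Pool.Agent.Work.MP_0f91f8_co.RC.I_RPq

/-!
# Block PC, item GHn: the factor of `n` (helper73)
-/

set_option autoImplicit false

namespace Pool.Agent.F0f91f8.PC

open Filter Topology ComplexConjugate
open Pool.Agent.F0f91f8.HD Pool.Agent.F0f91f8.RC Pool.Agent.F0f91f8.KR Pool.Agent.F0f91f8.FC
open scoped BigOperators

namespace IGHn

lemma inv_le {x : ℝ} (h0 : 0 ≤ x) (h1 : x ≤ 1 / 2) : (1 - x)⁻¹ ≤ Real.exp (2 * x) := by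
  have h2 : 0 < 1 - x := by linarith
  rw [inv_le_iff_one_le_mul₀ h2]
  have h3 := Real.add_one_le_exp (2 * x)
  have h4 : 1 ≤ (2 * x + 1) * (1 - x) := by nlinarith
  exact h4.trans (mul_le_mul_of_nonneg_right h3 h2.le)

lemma exp_half : Real.exp (1 / 2) ≤ 2 := by
  have h1 : Real.exp (1 / 2) ^ 2 = Real.exp 1 := by
    rw [← Real.exp_nat_mul]
    congr 1
    norm_num
  have h2 := Real.exp_one_lt_d9
  nlinarith [Real.exp_pos (1 / 2)]

lemma hn_le {K y n : ℕ} (hK : 10 ≤ K) : hn K y n ≤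
    Real.exp (10 * ∑ p ∈ n.primeFactors.filter (fun p => K < p ∧ p ≤ y), 1 / (p : ℝ)) := by
  unfold hn
  rw [Finset.mul_sum, Real.exp_sum]
  refine Finset.prod_le_prod (fun p hp => ?_) fun p hp => ?_
  all_goals
    have h1 : (10 : ℝ) ≤ p := by
      have h2 := (Finset.mem_filter.1 hp).2.1
      have : 10 ≤ p := by omega
      exact_mod_cast this
    have h3 : 5 / (p : ℝ) ≤ 1 / 2 := by
      rw [div_le_div_iff₀ (by linarith) (by norm_num)]
      linarith
    have h4 : 0 ≤ 5 / (p : ℝ) := by positivity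
  · exact inv_nonneg.2 (by linarith)
  · have h5 := inv_le h4 h3
    rwa [show 2 * (5 / (p : ℝ)) = 10 * (1 / (p : ℝ)) by ring] at h5

open Classical in
lemma ind_le {K y n : ℕ} (hK : 10 ≤ K) (hn0 : 0 < n) : (if hn K y n ≤ 2 then (0 : ℝ) else 1) ≤
    20 * ∑ p ∈ (Finset.Ioc K y).filter Nat.Prime, if p ∣ n then 1 / (p : ℝ) else 0 := by
  split_ifs with h
  · refine mul_nonneg (by norm_num) (Finset.sum_nonneg fun p _ => ?_)
    split_ifs <;> positivity
  · have h1 : ∑ p ∈ (Finset.Ioc K y).filter Nat.Prime, (if p ∣ n then 1 / (p : ℝ) else 0) =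
        ∑ p ∈ n.primeFactors.filter (fun p => K < p ∧ p ≤ y), 1 / (p : ℝ) := by
      rw [← Finset.sum_filter]
      refine Finset.sum_congr ?_ fun _ _ => rfl
      ext p
      simp only [Finset.mem_filter, Finset.mem_Ioc, Nat.mem_primeFactors]
      constructor
      · rintro ⟨⟨⟨h1, h2⟩, h3⟩, h4⟩
        exact ⟨⟨h3, h4, hn0.ne'⟩, h1, h2⟩
      · rintro ⟨⟨h1, h2, -⟩, h3, h4⟩
        exact ⟨⟨⟨h3, h4⟩, h1⟩, h2⟩
    rw [h1]
    by_contra h2
    push Not at h2 h
    have h3 := hn_le (y := y) (n := n) hK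
    have h4 : Real.exp (10 * ∑ p ∈ n.primeFactors.filter (fun p => K < p ∧ p ≤ y), 1 / (p : ℝ)) ≤
        Real.exp (1 / 2) := Real.exp_le_exp.2 (by linarith)
    have h5 := exp_half
    linarith

lemma dbl (w K M y : ℕ) (hw : 10 ≤ w) (hK : w ≤ K) :
    ∑ u ∈ Finset.Icc 1 M, ∑ u' ∈ Finset.Icc 1 M,
      (if hn K y (w.factorial * (u + u') + 1) ≤ 2 then (0 : ℝ) else 1) ≤
      (M : ℝ) * (20 * ((M : ℝ) * (1 / (K : ℝ)) + (y : ℝ))) := by
  classical
  rw [Finset.sum_comm]
  have key : ∀ u' ∈ Finset.Icc 1 M, ∑ u ∈ Finset.Icc 1 M,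
      (if hn K y (w.factorial * (u + u') + 1) ≤ 2 then (0 : ℝ) else 1) ≤
      20 * ((M : ℝ) * (1 / (K : ℝ)) + (y : ℝ)) := by
    intro u' _
    calc ∑ u ∈ Finset.Icc 1 M, (if hn K y (w.factorial * (u + u') + 1) ≤ 2 then (0 : ℝ) else 1)
        ≤ ∑ u ∈ Finset.Icc 1 M, 20 * ∑ p ∈ (Finset.Ioc K y).filter Nat.Prime,
          (if p ∣ w.factorial * (u + u') + 1 then 1 / (p : ℝ) else 0) := by
          refine Finset.sum_le_sum fun u _ => ?_
          convert ind_le (K := K) (y := y) (n := w.factorial * (u + u') + 1) (by omega)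
            (Nat.succ_pos _)
      _ = 20 * ∑ p ∈ (Finset.Ioc K y).filter Nat.Prime, ∑ u ∈ Finset.Icc 1 M,
          (if p ∣ w.factorial * (u + u') + 1 then 1 / (p : ℝ) else 0) := by
          rw [← Finset.mul_sum, Finset.sum_comm]
      _ ≤ 20 * ∑ p ∈ (Finset.Ioc K y).filter Nat.Prime, ((M : ℝ) * ((p : ℝ) ^ 2)⁻¹ + 1) := by
          refine mul_le_mul_of_nonneg_left (Finset.sum_le_sum fun p hp => ?_) (by norm_num)
          rw [Finset.mem_filter, Finset.mem_Ioc] at hp
          have hp1 : (1 : ℝ) ≤ p := by exact_mod_cast hp.2.one_lt.le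
          rw [← Finset.sum_filter, Finset.sum_const, nsmul_eq_mul]
          have hcop : Nat.Coprime p w.factorial := by
            rw [Nat.Prime.coprime_iff_not_dvd hp.2]
            intro hd
            have := (hp.2.dvd_factorial).1 hd
            omega
          have h1 := IRPq.cntQ p w.factorial u' M hp.2.pos hcop
          calc _ ≤ ((M : ℝ) / p + 1) * (1 / (p : ℝ)) :=
                mul_le_mul_of_nonneg_right h1 (by positivity)
            _ = (M : ℝ) * ((p : ℝ) ^ 2)⁻¹ + 1 / (p : ℝ) := by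
                field_simp
            _ ≤ _ := by
                have : 1 / (p : ℝ) ≤ 1 := by
                  rw [div_le_one (by linarith)]
                  exact hp1
                linarith
      _ ≤ 20 * ∑ p ∈ Finset.Ioc K y, ((M : ℝ) * ((p : ℝ) ^ 2)⁻¹ + 1) := by
          refine mul_le_mul_of_nonneg_left ?_ (by norm_num)
          apply Finset.sum_le_sum_of_subset_of_nonneg (Finset.filter_subset _ _)
          intro p _ _
          positivity
      _ = 20 * ((M : ℝ) * ∑ p ∈ Finset.Ioc K y, ((p : ℝ) ^ 2)⁻¹ + ((y - K : ℕ) : ℝ)) := by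
          rw [Finset.sum_add_distrib, ← Finset.mul_sum, Finset.sum_const, nsmul_eq_mul, mul_one,
            Nat.card_Ioc]
      _ ≤ 20 * ((M : ℝ) * (1 / (K : ℝ)) + (y : ℝ)) := by
          have h2 : ((y - K : ℕ) : ℝ) ≤ (y : ℝ) := by
            exact_mod_cast Nat.sub_le _ _
          have h3 := mul_le_mul_of_nonneg_left (IRPq.sum_inv K y (by omega))
            (Nat.cast_nonneg (α := ℝ) M)
          linarith
  refine (Finset.sum_le_sum key).trans (le_of_eq ?_)
  rw [Finset.sum_const, nsmul_eq_mul, Nat.card_Icc, Nat.add_sub_cancel]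

end IGHn

open IGHn in
theorem pr_GHn : StGHn := by
  classical
  intro w K M y hw hK hM
  have hMr : (0 : ℝ) < M := by exact_mod_cast hM
  have hKr : (0 : ℝ) < K := by
    have : 0 < K := by omega
    exact_mod_cast this
  have h4 := dbl w K M y hw hK
  unfold BRK BR
  simp only [Finset.sum_const, Nat.card_Icc, Nat.add_sub_cancel, nsmul_eq_mul, ← Finset.mul_sum]
  rcases Nat.eq_zero_or_pos (DR 1 w K) with hD | hD
  · rw [hD]
    simp only [zero_mul, Nat.cast_zero, zero_mul, zero_div]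
    positivity
  · have hDr : (0 : ℝ) < (DR 1 w K : ℕ) := by exact_mod_cast hD
    have h5 : (((DR 1 w K * M : ℕ) : ℝ) * (((DR 1 w K * M : ℕ) : ℝ) *
        ∑ u ∈ Finset.Icc 1 M, ∑ u' ∈ Finset.Icc 1 M,
          (if hn K y (w.factorial * (u + u') + 1) ≤ 2 then (0 : ℝ) else 1))) /
        ((M : ℝ) ^ 2 * ((DR 1 w K * M : ℕ) : ℝ) ^ 2) =
        (∑ u ∈ Finset.Icc 1 M, ∑ u' ∈ Finset.Icc 1 M,
          (if hn K y (w.factorial * (u + u') + 1) ≤ 2 then (0 : ℝ) else 1)) / (M : ℝ) ^ 2 := by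
      push_cast
      field_simp
    have h7 : (∑ u ∈ Finset.Icc 1 M, ∑ u' ∈ Finset.Icc 1 M,
          (if hn K y (w.factorial * (u + u') + 1) ≤ 2 then (0 : ℝ) else 1)) / (M : ℝ) ^ 2 ≤
        20 / (K : ℝ) + 20 * y / M := by
      rw [div_le_iff₀ (by positivity)]
      refine h4.trans (le_of_eq ?_)
      field_simp
    refine le_trans (le_of_eq ?_) h7
    rw [← h5]

end Pool.Agent.F0f91f8.PC
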