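import Pool.Agent.Work.MP_0f91f8_co.PC.StmtsG
import Pool.Agent.Work.MP_0f91f8_co.HD.I_DGc

/-!
# Block PC, module G, item GPl: probability that a prime divides a linear form of the members
-/

set_option autoImplicit false

namespace Pool.Agent.F0f91f8.PC

open Filter Topology ComplexConjugate
open Pool.Agent.F0f91f8.HD Pool.Agent.F0f91f8.RC Pool.Agent.F0f91f8.KR Pool.Agent.F0f91f8.FC
open scoped BigOperators

namespace IGPl

/-- the first three forms are linear -/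
theorem lin (j : Fin 4) (hj : j ≠ 3) :
    ∃ c : ℕ, c ≤ 2 ∧ ∀ κ n V : ℕ, Lf κ n V j = V + c * (κ * n) := by
  fin_cases j
  · exact ⟨0, by omega, fun κ n V => by simp [Lf]⟩
  · exact ⟨1, by omega, fun κ n V => by simp [Lf]⟩
  · exact ⟨2, by omega, fun κ n V => by simp [Lf]⟩
  · exact absurd rfl hj

/-- the count for fixed `u, u', v` -/
theorem inner (p Q D k κ M c : ℕ) (hp : p.Prime) (hpQ : ¬ p ∣ Q) (hpk : ¬ p ∣ k) (hQ : 0 < Q)
    (hD : 0 < D) (hM : 1 ≤ M) (hc : c ≤ 2) (u u' v : ℕ)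
    (hu : u ∈ Finset.Icc 1 M) (hu' : u' ∈ Finset.Icc 1 M) (hv : v ∈ Finset.Icc 1 (D * M)) :
    ∑ v' ∈ Finset.Icc 1 (D * M), (if p ∣ k * (Q * (v + v') + 1) + c * (κ * (Q * (u + u') + 1))
      then (1 : ℝ) else 0) ≤ ((D + (3 * k * Q * D + 6 * κ * Q) : ℕ) : ℝ) * M / p := by
  have hp0 : (0 : ℝ) < p := by exact_mod_cast hp.pos
  rw [Finset.mem_Icc] at hu hu' hv
  rw [Finset.sum_boole]
  set S := (Finset.Icc 1 (D * M)).filter
    (fun v' => p ∣ k * (Q * (v + v') + 1) + c * (κ * (Q * (u + u') + 1))) with hS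
  rcases S.eq_empty_or_nonempty with h0 | ⟨x, hx⟩
  · rw [h0, Finset.card_empty, Nat.cast_zero]
    positivity
  · have hx2 := (Finset.mem_filter.1 hx).2
    have hx1 := Finset.mem_Icc.1 (Finset.mem_filter.1 hx).1
    have h1 : Q * (v + x) + 1 ≤ 3 * Q * D * M := by
      have h2 : Q * (v + x) ≤ Q * (2 * (D * M)) := Nat.mul_le_mul_left Q (by omega)
      have h3 : 1 ≤ Q * (D * M) := Nat.mul_pos hQ (Nat.mul_pos hD hM)
      have h4 : 3 * Q * D * M = Q * (2 * (D * M)) + Q * (D * M) := by ring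
      omega
    have h5 : Q * (u + u') + 1 ≤ 3 * Q * M := by
      have h2 : Q * (u + u') ≤ Q * (2 * M) := Nat.mul_le_mul_left Q (by omega)
      have h3 : 1 ≤ Q * M := Nat.mul_pos hQ hM
      have h4 : 3 * Q * M = Q * (2 * M) + Q * M := by ring
      omega
    have hpos : 0 < Q * (v + x) + 1 := Nat.succ_pos _
    have hk0 : 0 < k := Nat.pos_of_ne_zero (fun h => hpk (h ▸ dvd_zero p))
    have h6 : p ≤ (3 * k * Q * D + 6 * κ * Q) * M := by
      have h7 : p ≤ k * (Q * (v + x) + 1) + c * (κ * (Q * (u + u') + 1)) :=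
        Nat.le_of_dvd (Nat.add_pos_left (Nat.mul_pos hk0 hpos) _) hx2
      have h8 : k * (Q * (v + x) + 1) ≤ k * (3 * Q * D * M) := Nat.mul_le_mul_left k h1
      have h9 : c * (κ * (Q * (u + u') + 1)) ≤ 2 * (κ * (3 * Q * M)) :=
        Nat.mul_le_mul hc (Nat.mul_le_mul_left κ h5)
      have h10 : (3 * k * Q * D + 6 * κ * Q) * M = k * (3 * Q * D * M) + 2 * (κ * (3 * Q * M)) := by
        ring
      omega
    have h11 : (S.card : ℝ) ≤ ((D * M : ℕ) : ℝ) / p + 1 := by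
      refine IDGc.cnt p (D * M) S (Finset.filter_subset _ _) ?_
      intro y hy z hz
      have hy' := (Finset.mem_filter.1 hy).2
      have hz' := (Finset.mem_filter.1 hz).2
      have e1 := (Nat.modEq_zero_iff_dvd.2 hy').trans (Nat.modEq_zero_iff_dvd.2 hz').symm
      have e2 := Nat.ModEq.add_right_cancel' _ e1
      have e3 := Nat.ModEq.cancel_left_of_coprime ((Nat.Prime.coprime_iff_not_dvd hp).2 hpk) e2
      have e4 := Nat.ModEq.add_right_cancel' 1 e3
      have e5 := Nat.ModEq.cancel_left_of_coprime ((Nat.Prime.coprime_iff_not_dvd hp).2 hpQ) e4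
      exact Nat.ModEq.add_left_cancel' v e5
    have h12 : (1 : ℝ) ≤ (((3 * k * Q * D + 6 * κ * Q) * M : ℕ) : ℝ) / p := by
      rw [le_div_iff₀ hp0, one_mul]
      exact_mod_cast h6
    refine (h11.trans (add_le_add le_rfl h12)).trans (le_of_eq ?_)
    rw [← add_div]
    congr 1
    push_cast
    ring

end IGPl

open Classical in
theorem pr_GPl : StGPl := by
  intro w K κ k hw hK hP
  set Q := w.factorial with hQ
  set D := DR 1 w K with hD
  have hQ0 : 0 < Q := Nat.factorial_pos w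
  have hK0 : 0 < K := by omega
  have hD0 : 0 < D := by
    rw [hD]
    unfold DR
    have h1 : 0 < w.factorial := Nat.factorial_pos w
    positivity
  have hD1 : (1 : ℝ) ≤ D := by exact_mod_cast hD0
  refine ⟨((D + (3 * k * Q * D + 6 * κ * Q) : ℕ) : ℝ), by exact_mod_cast (by omega), ?_⟩
  intro M hM j hj p hp hKp
  have hM0 : (0 : ℝ) < M := by exact_mod_cast hM
  have hp0 : (0 : ℝ) < p := by exact_mod_cast hp.pos
  have hpQ : ¬ p ∣ Q := by
    intro h
    have := (Nat.Prime.dvd_factorial hp).1 h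
    omega
  have hpk : ¬ p ∣ k := by
    intro h
    have := hP.kp p hp h
    omega
  obtain ⟨c, hc, hL⟩ := IGPl.lin j hj
  unfold BRK BR
  rw [← hD]
  have hden : 0 < (M : ℝ) ^ 2 * ((D * M : ℕ) : ℝ) ^ 2 := by
    have : (0 : ℝ) < ((D * M : ℕ) : ℝ) := by exact_mod_cast Nat.mul_pos hD0 hM
    positivity
  rw [div_le_iff₀ hden]
  simp only [hL]
  rw [← hQ]
  refine (Finset.sum_le_sum fun u hu => Finset.sum_le_sum fun u' hu' => Finset.sum_le_sum
    fun v hv => IGPl.inner p Q D k κ M c hp hpQ hpk hQ0 hD0 hM hc u u' v hu hu' hv).trans ?_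
  simp only [Finset.sum_const, Nat.card_Icc, Nat.add_sub_cancel, nsmul_eq_mul]
  set B : ℝ := ((D + (3 * k * Q * D + 6 * κ * Q) : ℕ) : ℝ) with hB
  have hB0 : 0 ≤ B := Nat.cast_nonneg _
  have e1 : (M : ℝ) * (M * (((D * M : ℕ) : ℝ) * (B * M / p))) =
      B / p * ((M : ℝ) ^ 2 * ((D * M : ℕ) : ℝ) * M) := by
    ring
  rw [e1]
  refine mul_le_mul_of_nonneg_left ?_ (by positivity)
  have e2 : (M : ℝ) ≤ ((D * M : ℕ) : ℝ) := by
    push_cast
    nlinarith
  calc (M : ℝ) ^ 2 * ((D * M : ℕ) : ℝ) * M ≤ (M : ℝ) ^ 2 * ((D * M : ℕ) : ℝ) * ((D * M : ℕ) : ℝ) :=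
        mul_le_mul_of_nonneg_left e2 (by positivity)
    _ = (M : ℝ) ^ 2 * ((D * M : ℕ) : ℝ) ^ 2 := by ring

end Pool.Agent.F0f91f8.PC
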