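import Pool.Agent.Work.MP_0f91f8_co.FC.DefsS

/-!
# Block PC, domination (module CT, part (2a)): definitions and interface (helper48)

The variable is `v = k a`, the forms are `Lf κ n v j`. `sp 0 K N`, `sp K y N`, `rp y N` are the parts of `N` composed of the
primes `≤ K`, in `(K, y]`, `> y`.
-/

set_option autoImplicit false

namespace Pool.Agent.F0f91f8.PC

open Filter Topology ComplexConjugate
open Pool.Agent.F0f91f8.FC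
open scoped BigOperators

/-- the numbers composed of primes in `(K, y]`, exponents `≤ A` -/
def Nm (K y A : ℕ) : Finset ℕ := ((∏ p ∈ PN K y 1, p) ^ A).divisors

/-- the weight of one part -/
noncomputable def wt0 (K y s : ℕ) : ℝ :=
  1 / (s : ℝ) * (∏ p ∈ s.primeFactors, (1 - 5 / (p : ℝ))⁻¹) * ∏ p ∈ PN K y 1, (1 - 1 / (p : ℝ))

/-- the weight for the quadratic form -/
noncomputable def wt3 (K y s : ℕ) : ℝ :=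
  (rho4 s : ℝ) / (s : ℝ) * (∏ p ∈ s.primeFactors, (1 - 5 / (p : ℝ))⁻¹) *
    ∏ p ∈ PN K y 1, (1 - (rho p : ℝ) / (p : ℝ))

/-- `v` and `n` have no common prime `> K` -/
def NoC (K v n : ℕ) : Prop := ∀ p : ℕ, p.Prime → K < p → p ∣ v → ¬ p ∣ n

open Classical in
/-- the good `v`, for a fixed `n` -/
noncomputable def GdS {J : ℕ} (cl : ℕ → Option (Fin J)) (K y κ n X E₀ T₀ : ℕ) : Finset ℕ :=
  (Finset.Icc 1 X).filter fun v => NoC K v n ∧ ∀ j : Fin 4,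
    sp K y (Lf κ n v j) ^ 16 ≤ X ∧ sp 0 K (Lf κ n v j) ≤ E₀ ∧
      ∀ i, hv cl (rp y (Lf κ n v j)) i ≤ T₀

/-- DOMINATION. `f j + 1` is the `K`-smooth part of `L_j`, `t j i` the number of primes `> y` of the class `i`, `s j` the part in
`(K, y]`. -/
def DmS : Prop := ∃ R₀ : ℕ, 0 < R₀ ∧ ∀ (J K y κ n X E₀ T₀ : ℕ) (cl : ℕ → Option (Fin J)) (σ : Fin 4),
  100 ≤ K → 0 < κ → (∀ p : ℕ, p.Prime → p ∣ κ → p ≤ K) → 0 < n → 2 ≤ y → y ^ (8 * R₀) ≤ X →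
  ∑ p ∈ n.primeFactors.filter (fun p => K < p), 1 / (p : ℝ) ≤ 1 / 20 → σ ≠ 3 →
  ∀ (Ψ : (Fin 4 → ℕ) → (Fin 4 → Fin J → ℕ) → (Fin 4 → ℕ) → ℝ) (θ : ℝ),
  (∀ f t s, 0 ≤ Ψ f t s) →
  (∀ (f : Fin 4 → ℕ) (t : Fin 4 → Fin J → ℕ) (s : Fin 4 → ℕ), (∀ j, f j < E₀) →
    (∀ j i, t j i ≤ T₀) → (∀ j, s j ∈ Nm K y X) →
    ∑ s' ∈ Nm K y X, wt0 K y s' * Ψ f t (Function.update s σ s') ≤ θ) →
  ∑ v ∈ GdS cl K y κ n X E₀ T₀,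
      Ψ (fun j => sp 0 K (Lf κ n v j) - 1) (fun j => hv cl (rp y (Lf κ n v j)))
        (fun j => sp K y (Lf κ n v j)) ≤
    96 * (E₀ : ℝ) ^ 4 * ((T₀ + 1 : ℕ) : ℝ) ^ (4 * J) * X * θ

/-- masses -/
def MaS : Prop := ∀ K y A : ℕ, 100 ≤ K →
  (∀ s ∈ Nm K y A, 0 ≤ wt0 K y s ∧ 0 ≤ wt3 K y s) ∧
  ∑ s ∈ Nm K y A, wt0 K y s ≤ 2 ∧ ∑ s ∈ Nm K y A, wt3 K y s ≤ 2

/-- the Euler product: correlation of the weight with a completely multiplicative function -/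
def EuS : Prop := ∀ K y A : ℕ, 100 ≤ K → 1 ≤ A → ∀ ψ : ℕ → ℂ, ψ 1 = 1 →
  (∀ a b : ℕ, 0 < a → 0 < b → ψ (a * b) = ψ a * ψ b) → (∀ p : ℕ, p.Prime → ‖ψ p‖ = 1) →
  ‖∑ s ∈ Nm K y A, (wt0 K y s : ℂ) * ψ s‖ ≤
    2 * Real.exp (-∑ p ∈ PN K y 1, (1 - (ψ p).re) / (p : ℝ))

open Classical in
/-- the parts in `(K, y]` are small -/
def TlP : Prop := ∃ C : ℝ, 0 < C ∧ ∀ K κ N₀ : ℕ, 10 ≤ K → 0 < κ →
  (∀ p : ℕ, p.Prime → p ∣ κ → p ≤ K) → ∃ X₀ : ℕ, ∀ X ≥ X₀, ∀ R y n : ℕ, 2 ≤ R → 2 ≤ y →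
  y ^ R ≤ X → 0 < n → n ≤ N₀ * X → ∀ j : Fin 4,
  (((Finset.Icc 1 X).filter fun v => NoC K v n ∧ X < sp K y (Lf κ n v j) ^ 16).card : ℝ) ≤ C / R * X

/-- sizes: number and size of the primes `> y` -/
def TpP : Prop := ∀ κ N₀ R : ℕ, 0 < κ → 1 ≤ R → ∃ Y₀ : ℕ, ∀ y ≥ Y₀, ∀ X n v : ℕ,
  y ^ R ≤ X → X < (y + 1) ^ R → 0 < n → n ≤ N₀ * X → v ∈ Finset.Icc 1 X → ∀ j : Fin 4,
  0 < Lf κ n v j ∧ Lf κ n v j ≤ y ^ (3 * R) ∧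
  ∀ (J : ℕ) (cl : ℕ → Option (Fin J)), ∑ i, hv cl (rp y (Lf κ n v j)) i ≤ 3 * R

end Pool.Agent.F0f91f8.PC
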