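import Pool.Agent.Work.MP_0f91f8_co.PC.DefsC
import Pool.Agent.Work.MP_0f91f8_co.PC.DefsDm
import Pool.Agent.Work.MP_0f91f8_co.K.StmtsD

/-!
# Block PC, module G (bad members are rare, `GoodS`): statements with complete proofs (helper83)

Item `X`: statement `StX`, file `PC/I_X.lean`, theorem `pr_X`, namespace `Pool.Agent.F0f91f8.PC`. Earlier items may be taken as
hypotheses; `StR..` are the landed items of `RC/StmtsD1.lean` (namespace `HD`), `StKPr` is landed (`K/I_KPr.lean`), `TlP` is the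
interface statement of `DefsDm.lean` (item `DTt`).

Notation: `Q = w!`, `D = DR 1 w K`, `κ = kR 1 w K e`, `k = kK 1 w K e'`, `n = Q (u + u') + 1`, `a = Q (v + v') + 1` with
`u, u' ≤ M`, `v, v' ≤ D M`; `X = 3 k Q D M`. `Lf κ n V = (V, V + κ n, V + 2 κ n, (V + κ n)² + (κ n)²)`, used with `V = k a`.
By `StKPr` (`E = 1`): `Par w K κ k`, `D > 0`, all prime factors of `κ`, `Q` are `≤ w`, those of `k` are in `(w, K]`, `k a ≡ 1` mod `Q`.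
-/

set_option autoImplicit false

namespace Pool.Agent.F0f91f8.PC

open Filter Topology ComplexConjugate
open Pool.Agent.F0f91f8.HD Pool.Agent.F0f91f8.RC Pool.Agent.F0f91f8.KR Pool.Agent.F0f91f8.FC
open scoped BigOperators

/-- [GAv] (EASY) from counts over all `V ≤ X` to averages over the family. For fixed `u, u', v'` the map
`v ↦ V = k (Q (v + v') + 1)` is injective from `[1, D M]` into `[1, 3 k Q D M]` (`Q (v + v') + 1 ≤ 2 Q D M + 1 ≤ 3 Q D M`), so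
`∑_v F (k a) n ≤ ∑_{V ≤ X} F V n ≤ c X`. Add over `v'`, `u`, `u'` (`D M · M²` triples) and divide by `M² (D M)²`
(`n = Q (u + u') + 1` satisfies the conditions of the hypothesis). -/
def StGAv : Prop := ∀ (w K M k : ℕ) (F : ℕ → ℕ → ℝ) (c : ℝ), 1 ≤ K → 1 ≤ M → 0 < k → 0 ≤ c →
  (∀ V n, 0 ≤ F V n) →
  (∀ n : ℕ, 0 < n → n ≤ 3 * w.factorial * M →
    ∑ V ∈ Finset.Icc 1 (3 * k * w.factorial * DR 1 w K * M), F V n ≤
      c * ((3 * k * w.factorial * DR 1 w K * M : ℕ) : ℝ)) →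
  BRK 1 w K M (fun a n => F (k * a) n) ≤ 3 * k * w.factorial * c

open Classical in
/-- [GTl] (EASY-MEDIUM) the parts in `(K, y]` are small, for most members. `C` from `TlP`. For every `e` (finitely many) `TlP` with
`κ = kR 1 w K e`, `N₀ = 1` gives `X₀`; let `M₀` be the maximum (or the sum) of these `X₀` and of `1`. As `X = 3 k Q D M ≥ M ≥ X₀`,
`y^R ≤ M ≤ X`, and `n ≤ 3 Q M ≤ X`: the number of `V ≤ X` with `NoC K V n` and `X < sp^16` is at most `(C/R) X`; then `StGAv` with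
`c = C/R`. (hTl : TlP) (hAv : StGAv) (hPr : StKPr) -/
def StGTl : Prop := ∃ C : ℝ, 0 < C ∧ ∀ w K : ℕ, 10 ≤ w → w ≤ K → ∃ M₀ : ℕ, ∀ M ≥ M₀,
  ∀ R y : ℕ, 2 ≤ R → 2 ≤ y → y ^ R ≤ M →
  ∀ (e : Fin (w + 1) → Fin K) (e' : Fin (K + 1) → Fin K) (j : Fin 4),
  BRK 1 w K M (fun a n => if NoC K (kK 1 w K e' * a) n ∧
      3 * kK 1 w K e' * w.factorial * DR 1 w K * M <
        sp K y (Lf (kR 1 w K e) n (kK 1 w K e' * a) j) ^ 16 then 1 else 0) ≤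
    3 * kK 1 w K e' * w.factorial * (C / R)

/-- [GSa] (EASY-MEDIUM) the `K`-smooth part of most integers is bounded. `sm K V = ∏_{p ≤ K, p | V} p^(v_p V)`. If all the factors
`p^(v_p V)` were `≤ T` then `sm K V ≤ T^K` (at most `K` primes `≤ K`; `T ≥ 1`). So if `T^K < sm K V` there is a prime `p ≤ K` with
`T < p^(v_p V)`, and then `V` is divisible by `p^i`, `i` the least exponent with `T < p^i`. For every `p` the number of `V ≤ X` divisible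
by `p^i` is `≤ X/p^i ≤ X/T`; at most `K` primes. -/
def StGSa : Prop := ∀ K T X : ℕ, 1 ≤ T →
  (((Finset.Icc 1 X).filter fun V => T ^ K < sm K V).card : ℝ) ≤ K * X / T

/-- [GSm] (EASY-MEDIUM) the `K`-smooth parts of the forms `L_1, L_2, L_3` at the members. `V = k a`. A prime `p ≤ w` does not divide `L_j`
(`StRMd`; `Lf κ n V 3 = tZ κ k a n` by definition). A prime `w < p ≤ K` satisfies `p² ∣ k ∣ V`, `p ∤ 2 κ` (`Par`), `p² ∤ n`. If `p ∤ n` then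
`p ∤ L_j` (`L_1 ≡ κ n`, `L_2 ≡ 2 κ n`, `L_3 ≡ 2 κ² n²` mod `p`). If `p ∣ n`, then `p² ∤ L_1, L_2` (`L_1 ≡ κ n`, `L_2 ≡ 2 κ n` mod `p²`), and with
`n = p n'`, `p ∤ n'`: `L_3 = p² ((V/p + κ n')² + (κ n')²)`, the last factor is `≡ 2 κ² n'²` mod `p`, so `p³ ∤ L_3`. In all cases
`v_p(L_j) ≤ 2`, so `sm K L_j ≤ ∏_{p ≤ K} p² ≤ (K!)²` (`p ↦ p`, product over a subset of `[1, K]`). (hMd : StRMd) -/
def StGSm : Prop := ∀ w K κ k : ℕ, 2 ≤ w → w ≤ K → Par w K κ k → ∀ a n : ℕ, 0 < a → 0 < n →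
  (k * a) % w.factorial = 1 % w.factorial → (∀ p : ℕ, p.Prime → w < p → ¬ p ^ 2 ∣ n) →
  ∀ j : Fin 4, j ≠ 0 → sm K (Lf κ n (k * a) j) ≤ K.factorial ^ 2

open Classical in
/-- [GHn] (EASY-MEDIUM) the factor of `n`. With `S = ∑ 1/p` over the primes `p ∣ n`, `K < p ≤ y`: since `(1 - x)⁻¹ ≤ exp (2 x)` for
`0 ≤ x ≤ 1/2` (`1 - x ≥ exp (-2 x)`), `hn K y n ≤ exp (10 S)`, so `hn > 2` implies `S ≥ 1/20` (`exp (1/2) ≤ 2`). By Markov the average is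
at most `20 ∑_{K < p ≤ y} (1/p) P(p ∣ n)`. `p ∤ Q` as `p > K ≥ w`: for fixed `u'` at most `M/p + 1` of the `u ≤ M` satisfy
`p ∣ Q u + (Q u' + 1)`, so `P(p ∣ n) ≤ 1/p + 1/M`. Finally `∑_{p > K} 1/p² ≤ 1/K` (`∑ 1/(m (m-1))`) and
`∑_{p ≤ y} 1/(p M) ≤ y/M`. -/
def StGHn : Prop := ∀ w K M y : ℕ, 10 ≤ w → w ≤ K → 1 ≤ M →
  BRK 1 w K M (fun _ n => if hn K y n ≤ 2 then 0 else 1) ≤ 20 / (K : ℝ) + 20 * y / M

/-- [GSz] (EASY-MEDIUM) sizes, and the number of primes `> Y`. `M = Y^R`. All `e`, `e'` (finitely many): let `B` be an upper bound for all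
`3 k Q D + 6 κ Q`. `V = k (Q (v + v') + 1) ≤ 3 k Q D M`, `n ≤ 3 Q M`, so `V + 2 κ n ≤ B M`, and all `L_j ≤ 2 B² M² ≤ Y^(3 R)` as soon as
`2 B² ≤ Y ≤ M = Y^R`. If `Y ≥ 2` and `N ≤ Y^(3R)`, `N > 0` then `Y^(nb Y N) ≤ ∏_{p > Y} p^(v_p N) ≤ N ≤ Y^(3 R)`, so `nb Y N ≤ 3 R`.
(hPr : StKPr) -/
def StGSz : Prop := ∀ w K R : ℕ, 10 ≤ w → w ≤ K → 1 ≤ R → ∃ Y₁ : ℕ, ∀ Y ≥ Y₁,
  ∀ (e : Fin (w + 1) → Fin K) (e' : Fin (K + 1) → Fin K),
  ∀ u ∈ Finset.Icc 1 (Y ^ R), ∀ u' ∈ Finset.Icc 1 (Y ^ R),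
  ∀ v ∈ Finset.Icc 1 (DR 1 w K * Y ^ R), ∀ v' ∈ Finset.Icc 1 (DR 1 w K * Y ^ R),
  let V := kK 1 w K e' * (w.factorial * (v + v') + 1)
  let n := w.factorial * (u + u') + 1
  1 ≤ V ∧ V ≤ 3 * kK 1 w K e' * w.factorial * DR 1 w K * Y ^ R ∧
    ∀ j, 0 < Lf (kR 1 w K e) n V j ∧ Lf (kR 1 w K e) n V j ≤ Y ^ (3 * R) ∧
      nb Y (Lf (kR 1 w K e) n V j) ≤ 3 * R

open Classical in
/-- [GPl] (EASY-MEDIUM) probability that a prime divides a linear form of the members. For fixed `u, u', v'` the form `L_j` (`j = 0, 1, 2`) is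
`α v + β` with `α = k Q`, `p ∤ α` and `α v + β ≤ B M` for `v ≤ D M`, `B = 3 k Q D + 6 κ Q`. So the number of `v ≤ D M` with `p ∣ L_j` is at most
`D M/p + 1`, and if there is one then `p ≤ B M`, `1 ≤ B M/p`. So it is `≤ (D + B) M/p` in all cases; divide by `D M`, `D ≥ 1`. -/
def StGPl : Prop := ∀ w K κ k : ℕ, 10 ≤ w → w ≤ K → Par w K κ k → ∃ C : ℝ, 0 < C ∧ ∀ M : ℕ, 1 ≤ M →
  ∀ j : Fin 4, j ≠ 3 → ∀ p : ℕ, p.Prime → K < p →
  BRK 1 w K M (fun a n => if p ∣ Lf κ n (k * a) j then 1 else 0) ≤ C / p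

open Classical in
/-- [GPp] (EASY) all four forms, uniformly. For `j ≠ 3` `StGPl` with `κ = kR 1 w K e`, `k = kK 1 w K e'` (`StKPr`), for `j = 3`
`Lf κ n (k a) 3 = tZ κ k a n` and `StRZp` (`Q = w!`, `D = DR 1 w K`, `a₀ = 1 ≤ Q`). There are finitely many `e`, `e'`: add the constants.
(hPl : StGPl) (hZp : StRZp) (hPr : StKPr) -/
def StGPp : Prop := ∀ w K : ℕ, 10 ≤ w → w ≤ K → ∃ C : ℝ, 0 < C ∧ ∀ M : ℕ, 1 ≤ M →
  ∀ (e : Fin (w + 1) → Fin K) (e' : Fin (K + 1) → Fin K) (j : Fin 4), ∀ p : ℕ, p.Prime → K < p →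
  BRK 1 w K M (fun a n => if p ∣ Lf (kR 1 w K e) n (kK 1 w K e' * a) j then 1 else 0) ≤ C / p

/-- [GFi] (MEDIUM) `GoodS`, `C = 31`. `k ≤ k₀ := ∑_{e'} kK 1 w K e'`. `R₁ ≥ 2` with `4 · 3 k₀ Q C_1/R₁ ≤ δ₁/8` (`C_1` of `StGTl`); given `R ≥ R₁`: `T` with
`3 k₀ Q K/T ≤ δ₁/8`, `E₀ = T^K + (K!)²`, `δ = δ₁/(32 C_2)` (`C_2` of `StGPp`), `η = δ₁/8` in `StRGc` (`a₀ = 1`), `StRPq`; `Y₁` large (`StGSz`, `Y^R ≥ M₀`,
`20 Y/Y^R ≤ 20/Y ≤ δ₁/8`, `Y ≥ K`). If a member is not `Gm` then (with `StGSz` for the sizes and for `nb`) one of the following holds: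
`iGc K a n = 1` (a prime `p > K` dividing `k a` divides `a`); `iPq w n = 1`; `hn K Y n > 2`; `NoC` and `X < sp^16` for some `j`;
`T^K < sm K (k a)` (for `j ≠ 0` `StGSm` if `iPq = 0`); a prime `p > Y` with `cl0 p` divides some `L_j`, `p ≤ L_j ≤ Y^(3 R)`. So the indicator is at
most the sum of the indicators, the last one at most `∑_j ∑_{p ≤ Y^(3R), p > Y, cl0 p} 1[p ∣ L_j]`. Averages:
`10/K + η`, `1/w + η`, `20/K + δ₁/8`, `4 · 3 k₀ Q C_1/R`, `3 k₀ Q K/T` (`StGAv`, `StGSa`), `4 C_2 δ`.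
(hGc : StRGc) (hPq : StRPq) (hPr : StKPr) (hAv hTl hSa hSm hHn hSz hPp) -/
def StGFi : Prop := GoodS

end Pool.Agent.F0f91f8.PC
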