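import Mathlib
import Pool.Agent.Work.MP_0f91f8_co.PC.StmtsG

/-!
# Block PC (MP_0f91f8_co), item GSa (helper92): the smooth part of most integers is bounded
-/

set_option autoImplicit false

namespace Pool.Agent.F0f91f8.PC

open Filter Topology ComplexConjugate
open Pool.Agent.F0f91f8.HD Pool.Agent.F0f91f8.RC Pool.Agent.F0f91f8.KR Pool.Agent.F0f91f8.FC
open scoped BigOperators

namespace IGSa

/-- the least exponent with `T < p ^ i` -/
noncomputable def ex (T p : ℕ) : ℕ := sInf {i | T < p ^ i}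

theorem ex_spec (T p : ℕ) (hp : p.Prime) : T < p ^ ex T p := by
  have h : ({i | T < p ^ i} : Set ℕ).Nonempty := ⟨T, Nat.lt_pow_self hp.one_lt⟩
  exact Nat.sInf_mem h

theorem ex_le (T p i : ℕ) (h : T < p ^ i) : ex T p ≤ i := Nat.sInf_le h

theorem exists_prime (K T V : ℕ) (hT : 1 ≤ T) (h : T ^ K < sm K V) :
    ∃ p ∈ (Finset.Icc 1 K).filter Nat.Prime, p ^ ex T p ∣ V := by
  by_contra hc
  push Not at hc
  have h1 : ∀ p ∈ V.primeFactors.filter (fun p => p ≤ K), p ^ V.factorization p ≤ T := by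
    intro p hp
    rw [Finset.mem_filter, Nat.mem_primeFactors] at hp
    by_contra h2
    push Not at h2
    refine hc p (Finset.mem_filter.2 ⟨Finset.mem_Icc.2 ⟨hp.1.1.pos, hp.2⟩, hp.1.1⟩) ?_
    exact (pow_dvd_pow p (ex_le T p _ h2)).trans (Nat.ordProj_dvd V p)
  have h2 : sm K V ≤ T ^ (V.primeFactors.filter (fun p => p ≤ K)).card := by
    unfold sm
    exact Finset.prod_le_pow_card _ _ _ h1
  have h3 : (V.primeFactors.filter (fun p => p ≤ K)).card ≤ K := by
    have h4 : V.primeFactors.filter (fun p => p ≤ K) ⊆ Finset.Icc 1 K := by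
      intro p hp
      rw [Finset.mem_filter, Nat.mem_primeFactors] at hp
      exact Finset.mem_Icc.2 ⟨hp.1.1.pos, hp.2⟩
    have h5 := Finset.card_le_card h4
    rwa [Nat.card_Icc, Nat.add_sub_cancel] at h5
  exact absurd h (not_lt.2 (h2.trans (Nat.pow_le_pow_right hT h3)))

theorem card_mult (X m T : ℕ) (hT : 1 ≤ T) (hm : T < m) :
    (((Finset.Icc 1 X).filter fun V => m ∣ V).card : ℝ) ≤ (X : ℝ) / T := by
  have h1 : ((Finset.Icc 1 X).filter fun V => m ∣ V).card = X / m := by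
    have h := Nat.Ioc_filter_dvd_card_eq_div X m
    rw [← h]
    congr 1
  rw [h1]
  have hT0 : (0 : ℝ) < T := by exact_mod_cast hT
  have hm0 : (T : ℝ) ≤ m := by exact_mod_cast hm.le
  calc ((X / m : ℕ) : ℝ) ≤ (X : ℝ) / m := Nat.cast_div_le
    _ ≤ (X : ℝ) / T := div_le_div_of_nonneg_left (Nat.cast_nonneg _) hT0 hm0

end IGSa

open IGSa in
theorem pr_GSa : StGSa := by
  classical
  intro K T X hT
  have hT0 : (0 : ℝ) < T := by exact_mod_cast hT
  have h1 : ((Finset.Icc 1 X).filter fun V => T ^ K < sm K V) ⊆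
      ((Finset.Icc 1 K).filter Nat.Prime).biUnion fun p =>
        (Finset.Icc 1 X).filter fun V => p ^ ex T p ∣ V := by
    intro V hV
    rw [Finset.mem_filter] at hV
    obtain ⟨p, hp, hd⟩ := exists_prime K T V hT hV.2
    exact Finset.mem_biUnion.2 ⟨p, hp, Finset.mem_filter.2 ⟨hV.1, hd⟩⟩
  have h2 := (Finset.card_le_card h1).trans Finset.card_biUnion_le
  have h3 : (((Finset.Icc 1 X).filter fun V => T ^ K < sm K V).card : ℝ) ≤
      ∑ p ∈ (Finset.Icc 1 K).filter Nat.Prime,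
        (((Finset.Icc 1 X).filter fun V => p ^ ex T p ∣ V).card : ℝ) := by
    exact_mod_cast h2
  refine h3.trans ?_
  have h4 : ∀ p ∈ (Finset.Icc 1 K).filter Nat.Prime,
      (((Finset.Icc 1 X).filter fun V => p ^ ex T p ∣ V).card : ℝ) ≤ (X : ℝ) / T := by
    intro p hp
    exact card_mult X (p ^ ex T p) T hT (ex_spec T p (Finset.mem_filter.1 hp).2)
  refine (Finset.sum_le_sum h4).trans ?_
  rw [Finset.sum_const, nsmul_eq_mul]
  have h5 : (((Finset.Icc 1 K).filter Nat.Prime).card : ℝ) ≤ K := by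
    have h6 := Finset.card_filter_le (Finset.Icc 1 K) Nat.Prime
    rw [Nat.card_Icc, Nat.add_sub_cancel] at h6
    exact_mod_cast h6
  calc (((Finset.Icc 1 K).filter Nat.Prime).card : ℝ) * ((X : ℝ) / T) ≤ K * ((X : ℝ) / T) :=
        mul_le_mul_of_nonneg_right h5 (by positivity)
    _ = K * X / T := by ring

end Pool.Agent.F0f91f8.PC
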