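import Pool.Agent.Work.MP_0f91f8_co.PC.StmtsG
import Pool.Agent.Work.MP_0f91f8_co.HD.I_DSp

/-!
# Item GSm of block PC: the smooth parts of three forms at the members
-/

set_option autoImplicit false

namespace Pool.Agent.F0f91f8.PC

open Filter Topology ComplexConjugate
open Pool.Agent.F0f91f8.HD Pool.Agent.F0f91f8.RC Pool.Agent.F0f91f8.KR Pool.Agent.F0f91f8.FC
open scoped BigOperators

namespace IGSm

theorem prod_Icc_id (K : ℕ) : ∏ p ∈ Finset.Icc 1 K, p = K.factorial := by
  induction K with
  | zero => rfl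
  | succ K ih =>
    rw [Finset.prod_Icc_succ_top (by omega), ih, Nat.factorial_succ, mul_comm]

/-- exponents at most two at the primes `≤ K` -/
theorem sm_le (K N : ℕ) (h : ∀ p : ℕ, p.Prime → p ∣ N → p ≤ K → N.factorization p ≤ 2) :
    sm K N ≤ K.factorial ^ 2 := by
  unfold sm
  have h1 : ∏ p ∈ N.primeFactors.filter (fun p => p ≤ K), p ^ N.factorization p ≤
      ∏ p ∈ N.primeFactors.filter (fun p => p ≤ K), p ^ 2 := by
    refine Finset.prod_le_prod' fun p hp => ?_
    rw [Finset.mem_filter] at hp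
    have hpp := Nat.prime_of_mem_primeFactors hp.1
    exact Nat.pow_le_pow_right hpp.pos (h p hpp (Nat.dvd_of_mem_primeFactors hp.1) hp.2)
  have h2 : ∏ p ∈ N.primeFactors.filter (fun p => p ≤ K), p ^ 2 ≤
      ∏ p ∈ Finset.Icc 1 K, p ^ 2 := by
    refine Finset.prod_le_prod_of_subset_of_one_le' ?_ ?_
    · intro p hp
      rw [Finset.mem_filter] at hp
      have hpp := Nat.prime_of_mem_primeFactors hp.1
      rw [Finset.mem_Icc]
      exact ⟨hpp.pos, hp.2⟩
    · intro p hp _
      rw [Finset.mem_Icc] at hp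
      exact Nat.one_le_pow _ _ hp.1
  refine h1.trans (h2.trans (le_of_eq ?_))
  rw [Finset.prod_pow, prod_Icc_id]

end IGSm

theorem pr_GSm (hMd : StRMd) : StGSm := by
  intro w K κ k hw hK hPar a n ha hn hm hpn j hj
  obtain ⟨-, -, -, hsm⟩ := hMd w K κ k hPar a n hm
  refine IGSm.sm_le K _ fun p hp hpd hpK => ?_
  have hwp : w < p := by
    by_contra hcon
    push Not at hcon
    obtain ⟨-, -, h1, h2, h3⟩ := hsm p hp hcon
    fin_cases j
    · exact hj rfl
    · exact h1 hpd
    · exact h2 hpd
    · exact h3 hpd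
  have hκ : ¬ p ∣ κ := fun hd => by
    have := hPar.κp p hp hd
    omega
  have hv := XDSp.vals hp (by omega) (hPar.ks p hp hwp hpK) hκ hn (hpn p hp hwp) (a := a)
  have hn1 : n.factorization p ≤ 1 := by
    by_contra hcon
    push Not at hcon
    exact hpn p hp hwp ((hp.pow_dvd_iff_le_factorization hn.ne').2 hcon)
  fin_cases j
  · exact absurd rfl hj
  · have h1 : (k * a + κ * n).factorization p ≤ 2 := by omega
    exact h1
  · have h1 : (k * a + 2 * (κ * n)).factorization p ≤ 2 := by omega
    exact h1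
  · have h1 : (tZ κ k a n).factorization p ≤ 2 := by omega
    exact h1

end Pool.Agent.F0f91f8.PC
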