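import Pool.Agent.Work.MP_0f91f8_co.PC.StmtsG

/-!
# Block PC, item GSz: sizes, and the number of primes `> Y`
-/

set_option autoImplicit false

namespace Pool.Agent.F0f91f8.PC

open Filter Topology ComplexConjugate
open Pool.Agent.F0f91f8.HD Pool.Agent.F0f91f8.RC Pool.Agent.F0f91f8.KR Pool.Agent.F0f91f8.FC
open scoped BigOperators

namespace IGSz

theorem pow_nb (y N : ℕ) (hN : N ≠ 0) : (y + 1) ^ nb y N ≤ N := by
  unfold nb
  rw [← Finset.prod_pow_eq_pow_sum]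
  have hprod : ∏ p ∈ N.primeFactors, p ^ N.factorization p = N := by
    have h := Nat.prod_factorization_pow_eq_self hN
    rw [Finsupp.prod, Nat.support_factorization] at h
    exact h
  calc ∏ p ∈ N.primeFactors.filter (fun p => y < p), (y + 1) ^ N.factorization p
      ≤ ∏ p ∈ N.primeFactors.filter (fun p => y < p), p ^ N.factorization p :=
        Finset.prod_le_prod' fun p hp => Nat.pow_le_pow_left (Finset.mem_filter.1 hp).2 _
    _ ≤ ∏ p ∈ N.primeFactors, p ^ N.factorization p :=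
        Finset.prod_le_prod_of_subset_of_one_le' (Finset.filter_subset _ _)
          (fun p hp _ => Nat.one_le_pow _ _ (Nat.pos_of_mem_primeFactors hp))
    _ = N := hprod

theorem nb_le {y N k : ℕ} (hy : 1 ≤ y) (hN : 0 < N) (h : N ≤ y ^ k) : nb y N ≤ k := by
  have h1 : (y + 1) ^ nb y N ≤ (y + 1) ^ k :=
    (pow_nb y N hN.ne').trans (h.trans (Nat.pow_le_pow_left (Nat.le_succ y) k))
  exact (Nat.pow_le_pow_iff_right (by omega)).1 h1

theorem Lf_pos' {κ n a : ℕ} (ha : 0 < a) (j : Fin 4) : 0 < Lf κ n a j := by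
  fin_cases j
  · exact ha
  · show 0 < a + κ * n
    omega
  · show 0 < a + 2 * (κ * n)
    omega
  · show 0 < (a + κ * n) ^ 2 + (κ * n) ^ 2
    positivity

theorem Lf_le {κ n V T : ℕ} (hT : V + 2 * (κ * n) ≤ T) (hT1 : 1 ≤ T) (j : Fin 4) :
    Lf κ n V j ≤ 2 * T ^ 2 := by
  have hTT : T ≤ T ^ 2 := by nlinarith
  have h1 : (V + κ * n) ^ 2 ≤ T ^ 2 := Nat.pow_le_pow_left (by omega) 2
  have h2 : (κ * n) ^ 2 ≤ T ^ 2 := Nat.pow_le_pow_left (by omega) 2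
  fin_cases j
  · show V ≤ 2 * T ^ 2
    omega
  · show V + κ * n ≤ 2 * T ^ 2
    omega
  · show V + 2 * (κ * n) ≤ 2 * T ^ 2
    omega
  · show (V + κ * n) ^ 2 + (κ * n) ^ 2 ≤ 2 * T ^ 2
    omega

end IGSz

theorem pr_GSz (hPr : StKPr) : StGSz := by
  intro w K R hw hK hR
  classical
  obtain ⟨b, hb⟩ : ∃ b : (Fin (w + 1) → Fin K) → (Fin (K + 1) → Fin K) → ℕ, b = fun e e' =>
    3 * kK 1 w K e' * w.factorial * DR 1 w K + 6 * kR 1 w K e * w.factorial := ⟨_, rfl⟩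
  obtain ⟨B, hB⟩ : ∃ B : ℕ, B = ∑ e : Fin (w + 1) → Fin K, ∑ e' : Fin (K + 1) → Fin K, b e e' :=
    ⟨_, rfl⟩
  refine ⟨2 * B ^ 2 + 2, ?_⟩
  intro Y hY e e' u hu u' hu' v hv v' hv'
  rw [Finset.mem_Icc] at hu hu' hv hv'
  obtain ⟨hPar, hD, -, -, -⟩ := hPr 1 w K e e' le_rfl (by omega) hK
  have hk := hPar.k0
  have hQ : 0 < w.factorial := Nat.factorial_pos w
  have hbB : b e e' ≤ B := by
    rw [hB]
    calc b e e' ≤ ∑ e' : Fin (K + 1) → Fin K, b e e' :=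
          Finset.single_le_sum (f := fun e' => b e e') (fun _ _ => Nat.zero_le _) (Finset.mem_univ e')
      _ ≤ _ := Finset.single_le_sum (f := fun e => ∑ e' : Fin (K + 1) → Fin K, b e e')
          (fun _ _ => Nat.zero_le _) (Finset.mem_univ e)
  have hbv : b e e' = 3 * kK 1 w K e' * w.factorial * DR 1 w K + 6 * kR 1 w K e * w.factorial := by
    rw [hb]
  obtain ⟨k, hkk⟩ : ∃ k : ℕ, k = kK 1 w K e' := ⟨_, rfl⟩
  obtain ⟨κ, hκ⟩ : ∃ κ : ℕ, κ = kR 1 w K e := ⟨_, rfl⟩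
  obtain ⟨D, hDD⟩ : ∃ D : ℕ, D = DR 1 w K := ⟨_, rfl⟩
  obtain ⟨Q, hQQ⟩ : ∃ Q : ℕ, Q = w.factorial := ⟨_, rfl⟩
  obtain ⟨M, hM⟩ : ∃ M : ℕ, M = Y ^ R := ⟨_, rfl⟩
  rw [← hkk, ← hκ, ← hDD, ← hQQ] at hbv
  rw [← hkk] at hk
  rw [← hDD] at hD
  rw [← hQQ] at hQ
  rw [← hM] at hu hu'
  rw [← hM, ← hDD] at hv hv'
  show 1 ≤ kK 1 w K e' * (w.factorial * (v + v') + 1) ∧
    kK 1 w K e' * (w.factorial * (v + v') + 1) ≤ 3 * kK 1 w K e' * w.factorial * DR 1 w K * Y ^ R ∧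
    ∀ j, 0 < Lf (kR 1 w K e) (w.factorial * (u + u') + 1) (kK 1 w K e' * (w.factorial * (v + v') + 1)) j ∧
      Lf (kR 1 w K e) (w.factorial * (u + u') + 1) (kK 1 w K e' * (w.factorial * (v + v') + 1)) j ≤
        Y ^ (3 * R) ∧
      nb Y (Lf (kR 1 w K e) (w.factorial * (u + u') + 1)
        (kK 1 w K e' * (w.factorial * (v + v') + 1)) j) ≤ 3 * R
  rw [← hkk, ← hκ, ← hDD, ← hQQ, ← hM]
  have hY2 : 2 ≤ Y := by omega
  have hM1 : 1 ≤ M := by
    rw [hM]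
    exact Nat.one_le_pow _ _ (by omega)
  have hYM : Y ≤ M := by
    rw [hM]
    exact Nat.le_self_pow (by omega) Y
  have hV1 : 1 ≤ k * (Q * (v + v') + 1) := Nat.mul_pos hk (Nat.succ_pos _)
  have hQD : Q * (v + v') + 1 ≤ 3 * Q * D * M := by
    have e1 : Q * (v + v') ≤ Q * (2 * (D * M)) := Nat.mul_le_mul_left _ (by omega)
    have e2 : 1 ≤ Q * (D * M) := Nat.mul_pos hQ (Nat.mul_pos hD hM1)
    calc Q * (v + v') + 1 ≤ Q * (2 * (D * M)) + Q * (D * M) := Nat.add_le_add e1 e2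
      _ = 3 * Q * D * M := by ring
  have hV2 : k * (Q * (v + v') + 1) ≤ 3 * k * Q * D * M := by
    calc k * (Q * (v + v') + 1) ≤ k * (3 * Q * D * M) := Nat.mul_le_mul_left _ hQD
      _ = 3 * k * Q * D * M := by ring
  have hn : Q * (u + u') + 1 ≤ 3 * Q * M := by
    have e1 : Q * (u + u') ≤ Q * (2 * M) := Nat.mul_le_mul_left _ (by omega)
    have e2 : 1 ≤ Q * M := Nat.mul_pos hQ hM1
    calc Q * (u + u') + 1 ≤ Q * (2 * M) + Q * M := Nat.add_le_add e1 e2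
      _ = 3 * Q * M := by ring
  have hT : k * (Q * (v + v') + 1) + 2 * (κ * (Q * (u + u') + 1)) ≤ B * M := by
    calc k * (Q * (v + v') + 1) + 2 * (κ * (Q * (u + u') + 1))
        ≤ 3 * k * Q * D * M + 2 * (κ * (3 * Q * M)) :=
          Nat.add_le_add hV2 (Nat.mul_le_mul_left _ (Nat.mul_le_mul_left _ hn))
      _ = b e e' * M := by
          rw [hbv]
          ring
      _ ≤ B * M := Nat.mul_le_mul_right _ hbB
  have hBM : 1 ≤ B * M := by omega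
  refine ⟨hV1, hV2, fun j => ?_⟩
  have hpos := IGSz.Lf_pos' (κ := κ) (n := Q * (u + u') + 1) hV1 j
  have hle : Lf κ (Q * (u + u') + 1) (k * (Q * (v + v') + 1)) j ≤ Y ^ (3 * R) := by
    calc Lf κ (Q * (u + u') + 1) (k * (Q * (v + v') + 1)) j ≤ 2 * (B * M) ^ 2 :=
          IGSz.Lf_le hT hBM j
      _ = (2 * B ^ 2) * M ^ 2 := by ring
      _ ≤ M * M ^ 2 := Nat.mul_le_mul_right _ (by omega)
      _ = Y ^ (3 * R) := by
          rw [hM]
          ring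
  exact ⟨hpos, hle, IGSz.nb_le (by omega) hpos hle⟩

end Pool.Agent.F0f91f8.PC
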