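import Pool.Agent.Work.MP_0f91f8_co.PC.StmtsG

/-!
# Item GTl of block PC, module G: the parts in `(K, y]` are small, for most members (helper61)
-/

set_option autoImplicit false

namespace Pool.Agent.F0f91f8.PC

open Filter Topology ComplexConjugate
open Pool.Agent.F0f91f8.HD Pool.Agent.F0f91f8.RC Pool.Agent.F0f91f8.KR Pool.Agent.F0f91f8.FC
open scoped BigOperators

namespace IGTl

open Classical in
/-- the core: one family -/
lemma core (hAv : StGAv) (w K M k κ R y X₀ : ℕ) (C : ℝ) (j : Fin 4) (hC : 0 < C) (hK : 1 ≤ K) (hk : 0 < k)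
    (hD : 0 < DR 1 w K) (hQ : 1 ≤ w.factorial)
    (hX : ∀ X ≥ X₀, ∀ R y n : ℕ, 2 ≤ R → 2 ≤ y →
      y ^ R ≤ X → 0 < n → n ≤ 1 * X → ∀ j : Fin 4,
      (((Finset.Icc 1 X).filter fun v => NoC K v n ∧ X < sp K y (Lf κ n v j) ^ 16).card : ℝ) ≤ C / R * X)
    (hM : X₀ + 1 ≤ M) (hR : 2 ≤ R) (hy : 2 ≤ y) (hyR : y ^ R ≤ M) :
    BRK 1 w K M (fun a n => if NoC K (k * a) n ∧
      3 * k * w.factorial * DR 1 w K * M < sp K y (Lf κ n (k * a) j) ^ 16 then 1 else 0) ≤
    3 * k * w.factorial * (C / R) := by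
  have h1 : 1 ≤ k * DR 1 w K := Nat.mul_pos hk hD
  have hMX : M ≤ 3 * k * w.factorial * DR 1 w K * M := by
    have : 1 ≤ 3 * k * w.factorial * DR 1 w K := Nat.mul_pos (Nat.mul_pos (Nat.mul_pos (by norm_num) hk) hQ) hD
    exact Nat.le_mul_of_pos_left _ this
  have h2 : 3 * w.factorial * M ≤ 3 * k * w.factorial * DR 1 w K * M := by
    have : 3 * k * w.factorial * DR 1 w K * M = (k * DR 1 w K) * (3 * w.factorial * M) := by ring
    rw [this]
    exact Nat.le_mul_of_pos_left _ h1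
  refine hAv w K M k (fun V n => if NoC K V n ∧
      3 * k * w.factorial * DR 1 w K * M < sp K y (Lf κ n V j) ^ 16 then 1 else 0) (C / R) hK (by omega) hk
      (by positivity) ?_ ?_
  · intro V n
    split_ifs <;> norm_num
  · intro n hn hn2
    have := hX (3 * k * w.factorial * DR 1 w K * M) (by omega) R y n hR hy (le_trans hyR hMX) hn (by omega) j
    rw [Finset.sum_ite, Finset.sum_const_zero, add_zero, Finset.sum_const, nsmul_eq_mul, mul_one]
    exact this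

end IGTl

open Classical in
theorem pr_GTl (hTl : TlP) (hAv : StGAv) (hPr : StKPr) : StGTl := by
  obtain ⟨C, hC, hT⟩ := hTl
  refine ⟨C, hC, ?_⟩
  intro w K hw hwK
  have hex : ∀ e : Fin (w + 1) → Fin K, ∃ X₀ : ℕ, ∀ X ≥ X₀, ∀ R y n : ℕ, 2 ≤ R → 2 ≤ y →
      y ^ R ≤ X → 0 < n → n ≤ 1 * X → ∀ j : Fin 4,
      (((Finset.Icc 1 X).filter fun v => NoC K v n ∧
        X < sp K y (Lf (kR 1 w K e) n v j) ^ 16).card : ℝ) ≤ C / R * X := by
    intro e
    have e' : Fin (K + 1) → Fin K := fun _ => ⟨0, by omega⟩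
    obtain ⟨hpar, -, -, hQ, -, hp, -⟩ := hPr 1 w K e e' le_rfl (by omega) hwK
    refine hT K (kR 1 w K e) 1 (by omega) hpar.κ0 ?_
    intro p hpp hpd
    exact hp p hpp (Dvd.dvd.mul_right hpd _)
  choose X₀ hX₀ using hex
  refine ⟨(∑ e, X₀ e) + 1, ?_⟩
  intro M hM R y hR hy hyR e e' j
  obtain ⟨hpar, hD, -, hQ, -, hp, -⟩ := hPr 1 w K e e' le_rfl (by omega) hwK
  refine IGTl.core hAv w K M (kK 1 w K e') (kR 1 w K e) R y (X₀ e) C j hC (by omega) ?_ hD hQ (hX₀ e) ?_ hR hy hyR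
  · exact hpar.k0
  · have := Finset.single_le_sum (f := X₀) (fun i _ => Nat.zero_le _) (Finset.mem_univ e)
    omega

end Pool.Agent.F0f91f8.PC
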