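import Pool.Agent.Work.MP_0f91f8_co.K.AllD
import Pool.Agent.Work.MP_0f91f8_co.FC.I_Ch
import Pool.Agent.Work.MP_0f91f8_co.PC.I_DTt
import Pool.Agent.Work.MP_0f91f8_co.PC.I_GAv
import Pool.Agent.Work.MP_0f91f8_co.PC.I_GTl
import Pool.Agent.Work.MP_0f91f8_co.PC.I_GSa
import Pool.Agent.Work.MP_0f91f8_co.PC.I_GSm
import Pool.Agent.Work.MP_0f91f8_co.PC.I_GHn
import Pool.Agent.Work.MP_0f91f8_co.PC.I_GSz
import Pool.Agent.Work.MP_0f91f8_co.PC.I_GPl
import Pool.Agent.Work.MP_0f91f8_co.PC.I_GPp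
import Pool.Agent.Work.MP_0f91f8_co.PC.I_GFi

/-!
# Block PC, module G: `GoodS`, without hypotheses (helper83)

Items: GAv, GTl, GSa, GSm, GHn, GSz, GPl, GPp, GFi; `TlP` from DTt.
-/

set_option autoImplicit false

namespace Pool.Agent.F0f91f8.PC

open Filter Topology ComplexConjugate
open Pool.Agent.F0f91f8.HD Pool.Agent.F0f91f8.RC Pool.Agent.F0f91f8.KR Pool.Agent.F0f91f8.FC
open scoped BigOperators

theorem all_GTl : StGTl := pr_GTl (pr_DTt FC.pr_Ch) pr_GAv all_KPr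

theorem all_GPp : StGPp := pr_GPp pr_GPl all_RZp all_KPr

/-- `GoodS`: bad members are rare -/
theorem all_Good : GoodS :=
  pr_GFi pr_RGc pr_RPq all_KPr pr_GAv all_GTl pr_GSa (pr_GSm pr_RMd) pr_GHn (pr_GSz all_KPr) all_GPp

end Pool.Agent.F0f91f8.PC
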