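import Pool.Agent.Work.MP_0f91f8_co.PC.StmtsV

/-!
# Block PC, module V, item Nf: nested dominated convergence
-/

set_option autoImplicit false

namespace Pool.Agent.F0f91f8.PC

open Filter Topology ComplexConjugate MeasureTheory
open Pool.Agent.F0f91f8.HD Pool.Agent.F0f91f8.RC Pool.Agent.F0f91f8.KR Pool.Agent.F0f91f8.FC
open scoped BigOperators ENNReal

namespace XNf

/-- one step: if the integral of the upper limit is `< B` then the integrals are eventually `< B` -/
theorem step {Y : Type} [MeasurableSpace Y] {ν : Measure Y} [IsFiniteMeasure ν]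
    {f : ℕ → Y → ℝ≥0∞} {C : ℝ≥0∞} (hC : C ≠ ∞) (hm : ∀ n, Measurable (f n))
    (hb : ∀ n y, f n y ≤ C) {B : ℝ≥0∞} (h : ∫⁻ y, limsup (fun n => f n y) atTop ∂ν < B) :
    ∀ᶠ n in atTop, ∫⁻ y, f n y ∂ν < B := by
  have h1 := limsup_lintegral_le (μ := ν) (fun _ => C) hm
    (fun n => Eventually.of_forall fun y => hb n y)
    (by rw [lintegral_const]; exact ENNReal.mul_ne_top hC (measure_ne_top ν _))
  exact eventually_lt_of_limsup_lt (h1.trans_lt h)

theorem limsup_bd {u : ℕ → ℝ≥0∞} {c : ℝ≥0∞} (h : ∀ᶠ n in atTop, u n ≤ c) :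
    limsup u atTop ≤ c := limsup_le_of_le (h := h)

theorem main {Y : Type} [MeasurableSpace Y] (ν : Measure Y) [IsFiniteMeasure ν]
    (F : ℕ → ℕ → ℕ → Y → ℝ) (C : ℝ) (hC : 0 ≤ C) (hm : ∀ w K M, Measurable (F w K M))
    (hb : ∀ w K M y, |F w K M y| ≤ C)
    (hN : ∀ᵐ y ∂ν, ∀ ε : ℝ, 0 < ε → Nest fun w K M => F w K M y ≤ ε) (ε : ℝ) (hε : 0 < ε) :
    Nest fun w K M => ∫ y, F w K M y ∂ν ≤ ε := by
  set h : ℕ → ℕ → ℕ → Y → ℝ≥0∞ := fun w K M y => ENNReal.ofReal (F w K M y + C) with hh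
  set h2 : ℕ → ℕ → Y → ℝ≥0∞ := fun w K y => limsup (fun M => h w K M y) atTop with hh2
  set h1 : ℕ → Y → ℝ≥0∞ := fun w y => limsup (fun K => h2 w K y) atTop with hh1
  set h0 : Y → ℝ≥0∞ := fun y => limsup (fun w => h1 w y) atTop with hh0
  have mh : ∀ w K M, Measurable (h w K M) := fun w K M => ((hm w K M).add_const C).ennreal_ofReal
  have mh2 : ∀ w K, Measurable (h2 w K) := fun w K => Measurable.limsup fun M => mh w K M
  have mh1 : ∀ w, Measurable (h1 w) := fun w => Measurable.limsup fun K => mh2 w K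
  have bh : ∀ w K M y, h w K M y ≤ ENNReal.ofReal (2 * C) := fun w K M y =>
    ENNReal.ofReal_le_ofReal (by have := (abs_le.1 (hb w K M y)).2; linarith)
  have bh2 : ∀ w K y, h2 w K y ≤ ENNReal.ofReal (2 * C) := fun w K y =>
    limsup_bd (Eventually.of_forall fun M => bh w K M y)
  have bh1 : ∀ w y, h1 w y ≤ ENNReal.ofReal (2 * C) := fun w y =>
    limsup_bd (Eventually.of_forall fun K => bh2 w K y)
  have bh0 : ∀ᵐ y ∂ν, h0 y ≤ ENNReal.ofReal C := by
    filter_upwards [hN] with y hy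
    have key : ∀ δ : ℝ, 0 < δ → h0 y ≤ ENNReal.ofReal (C + δ) := by
      intro δ hδ
      refine limsup_bd ((hy δ hδ).mono fun w hw => ?_)
      refine limsup_bd (hw.mono fun K hK => ?_)
      refine limsup_bd (hK.mono fun M hM => ?_)
      exact ENNReal.ofReal_le_ofReal (by linarith)
    refine ENNReal.le_of_forall_pos_le_add fun δ hδ _ => ?_
    have h3 := key (δ : ℝ) (by exact_mod_cast hδ)
    rw [ENNReal.ofReal_add hC (NNReal.coe_nonneg δ), ENNReal.ofReal_coe_nnreal] at h3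
    exact h3
  set B : ℝ≥0∞ := ENNReal.ofReal C * ν Set.univ + ENNReal.ofReal ε with hB
  have hfin : ENNReal.ofReal C * ν Set.univ ≠ ∞ :=
    ENNReal.mul_ne_top ENNReal.ofReal_ne_top (measure_ne_top ν _)
  have hBfin : B ≠ ∞ := ENNReal.add_ne_top.2 ⟨hfin, ENNReal.ofReal_ne_top⟩
  have hBr : B.toReal = C * (ν Set.univ).toReal + ε := by
    rw [hB, ENNReal.toReal_add hfin ENNReal.ofReal_ne_top, ENNReal.toReal_mul,
      ENNReal.toReal_ofReal hC, ENNReal.toReal_ofReal hε.le]
  have s0 : ∫⁻ y, limsup (fun w => h1 w y) atTop ∂ν < B := by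
    have e1 : ∫⁻ y, limsup (fun w => h1 w y) atTop ∂ν ≤ ENNReal.ofReal C * ν Set.univ := by
      have := lintegral_mono_ae (μ := ν) bh0
      rwa [lintegral_const] at this
    exact e1.trans_lt (ENNReal.lt_add_right hfin (ENNReal.ofReal_pos.2 hε).ne')
  have s1 := step (ν := ν) ENNReal.ofReal_ne_top mh1 bh1 s0
  refine s1.mono fun w hw => ?_
  have s2 := step (ν := ν) ENNReal.ofReal_ne_top (mh2 w) (bh2 w) hw
  refine s2.mono fun K hK => ?_
  have s3 := step (ν := ν) ENNReal.ofReal_ne_top (mh w K) (bh w K) hK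
  refine s3.mono fun M hM => ?_
  have hint : Integrable (F w K M) ν :=
    Integrable.of_bound (hm w K M).aestronglyMeasurable C
      (Eventually.of_forall fun y => by rw [Real.norm_eq_abs]; exact hb w K M y)
  have e1 : ∫ y, (F w K M y + C) ∂ν = (∫⁻ y, h w K M y ∂ν).toReal :=
    integral_eq_lintegral_of_nonneg_ae
      (Eventually.of_forall fun y => by
        have := (abs_le.1 (hb w K M y)).1
        show (0 : ℝ) ≤ F w K M y + C
        linarith)
      ((hm w K M).add_const C).aestronglyMeasurable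
  have e2 : ∫ y, (F w K M y + C) ∂ν = ∫ y, F w K M y ∂ν + C * (ν Set.univ).toReal := by
    rw [integral_add hint (integrable_const C), integral_const, smul_eq_mul, mul_comm]
    rfl
  have e3 : (∫⁻ y, h w K M y ∂ν).toReal < B.toReal :=
    (ENNReal.toReal_lt_toReal (hM.trans_le le_top).ne hBfin).2 hM
  rw [← e1, e2, hBr] at e3
  linarith

end XNf

theorem pr_Nf : StNf := by
  intro Y _ ν _ F C hm hb hN ε hε
  exact XNf.main ν F (max C 0) (le_max_right _ _) hm
    (fun w K M y => (hb w K M y).trans (le_max_left _ _)) hN ε hε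

end Pool.Agent.F0f91f8.PC
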