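import Pool.Agent.Work.MP_0f91f8_co.PC.StmtsP

/-!
# Block PC, item PAl: the algebra of the trilinear form
-/

set_option autoImplicit false

namespace Pool.Agent.F0f91f8.PC

open Filter Topology ComplexConjugate MeasureTheory
open Pool.Agent.F0f91f8.HD Pool.Agent.F0f91f8.RC Pool.Agent.F0f91f8.KR Pool.Agent.F0f91f8.FC
open Pool.Agent.Work.MP_0f91f8_co.EF (GG ev S_Ev)
open scoped BigOperators

namespace IPAl

theorem ev_le (hEv : S_Ev) (g : GG) (n : ℕ) : ‖ev g n‖ ≤ 1 := by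
  rcases Nat.eq_zero_or_pos n with h | h
  · subst h
    rw [(hEv.1 g).zero, norm_zero]
    exact zero_le_one
  · exact ((hEv.1 g).norm n h).le

theorem ev_cc (hEv : S_Ev) (g : GG) {n : ℕ} (hn : 0 < n) : ev g n * conj (ev g n) = 1 := by
  rw [Complex.mul_conj, Complex.normSq_eq_norm_sq, (hEv.1 g).norm n hn]
  norm_num

theorem mem2 (hEv : S_Ev) {σ : Measure GG} {φ : GG → ℂ} (h : MemLp φ 2 σ) (x z : ℕ) :
    MemLp (fun g => ev g x * conj (ev g z) * φ g) 2 σ := by
  refine h.of_le (AEStronglyMeasurable.mul ?_ h.1) (Eventually.of_forall fun g => ?_)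
  · exact ((hEv.2.1 x).mul
      (Complex.continuous_conj.comp (hEv.2.1 z))).aestronglyMeasurable
  · rw [norm_mul, norm_mul, RCLike.norm_conj]
    exact mul_le_of_le_one_left (norm_nonneg _)
      (mul_le_one₀ (ev_le hEv g x) (norm_nonneg _) (ev_le hEv g z))

variable {X : Type} [MeasurableSpace X] {μ : Measure X}

theorem shift (hEv : S_Ev) (S : Sys μ) {F : Lp ℂ 2 μ} {σ : Measure GG} (V : SpV S F σ)
    {φ : GG → ℂ} (h : MemLp φ 2 σ) {x z : ℕ} (hx : 0 < x) (hz : 0 < z) :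
    U S x (V.V (bl σ φ)) =
      U S z (V.V (bl σ fun g => ev g x * conj (ev g z) * φ g)) := by
  rw [← V.mul x hx φ h, ← V.mul z hz _ (mem2 hEv h x z)]
  have e : (fun g : GG => ev g x * φ g) =
      fun g => ev g z * (ev g x * conj (ev g z) * φ g) := by
    funext g
    calc ev g x * φ g = (ev g z * conj (ev g z)) * (ev g x * φ g) := by
          rw [ev_cc hEv g hz, one_mul]
      _ = ev g z * (ev g x * conj (ev g z) * φ g) := by ring
  rw [e]

theorem btU (hUn : StVUn) (S : Sys μ) (A : Set X) {z : ℕ} (hz : 0 < z) (H G : Lp ℂ 2 μ) :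
    bt S A z (U S z H) (U S z G) = bz μ A H G := by
  unfold bt bz
  have h1 : (∫ x, A.indicator (fun _ => (1 : ℂ)) (S.T z x) * (U S z H) x * (U S z G) x ∂μ) =
      ∫ x, (fun y : X => A.indicator (fun _ => (1 : ℂ)) y * H y * G y) (S.T z x) ∂μ := by
    refine integral_congr_ae ?_
    filter_upwards [(hUn X _ μ S).1 z hz H, (hUn X _ μ S).1 z hz G] with x h1 h2
    rw [h1, h2]
  rw [h1]
  exact (S.mp z hz).integral_comp (S.T z).measurableEmbedding
    (fun y : X => A.indicator (fun _ => (1 : ℂ)) y * H y * G y)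

end IPAl

theorem pr_PAl (hEv : S_Ev) (hUn : StVUn) : StPAl := by
  intro X _ μ _ S A _ F σ _ V φ ψ hφ hψ x y z hx hy hz
  rw [IPAl.shift hEv S V hφ hx hz, IPAl.shift hEv S V hψ hy hz]
  exact IPAl.btU hUn S A hz _ _

end Pool.Agent.F0f91f8.PC
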