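import Pool.Agent.Work.MP_0f91f8_co.PC.StmtsP

/-!
# Block PC, item PBl: classes of bounded measurable functions
-/

set_option autoImplicit false

namespace Pool.Agent.F0f91f8.PC

open Filter Topology ComplexConjugate MeasureTheory
open scoped BigOperators

namespace IPBl

variable {Y : Type} [MeasurableSpace Y] {ν : Measure Y}

theorem bl_eq {φ : Y → ℂ} (h : MemLp φ 2 ν) : bl ν φ = h.toLp φ := dif_pos h

theorem nsq {φ : Y → ℂ} (h : MemLp φ 2 ν) : ‖bl ν φ‖ ^ 2 = ∫ y, ‖φ y‖ ^ 2 ∂ν := by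
  rw [bl_eq h]
  have e1 : ((‖h.toLp φ‖ ^ 2 : ℝ) : ℂ) = inner ℂ (h.toLp φ) (h.toLp φ) := by
    rw [inner_self_eq_norm_sq_to_K]; push_cast; rfl
  have e2 : inner ℂ (h.toLp φ) (h.toLp φ) = ((∫ y, ‖φ y‖ ^ 2 ∂ν : ℝ) : ℂ) := by
    rw [L2.inner_def, ← integral_complex_ofReal]
    apply integral_congr_ae
    filter_upwards [h.coeFn_toLp] with y hy
    rw [hy, inner_self_eq_norm_sq_to_K]; push_cast; rfl
  exact_mod_cast e1.trans e2

end IPBl

open IPBl in
theorem pr_PBl : StPBl := by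
  intro Y _ ν _ φ ψ C hφ hψ hφC hψC
  have h1 : MemLp φ 2 ν := MemLp.of_bound hφ.aestronglyMeasurable C (Eventually.of_forall hφC)
  have h2 : MemLp ψ 2 ν := MemLp.of_bound hψ.aestronglyMeasurable C (Eventually.of_forall hψC)
  refine ⟨h1, ?_, ?_, ?_, nsq h1⟩
  · rw [bl_eq h1, bl_eq h2]
    exact (bl_eq (h1.add h2)).trans (MemLp.toLp_add h1 h2)
  · rw [bl_eq h1, bl_eq h2]
    exact (bl_eq (h1.sub h2)).trans (MemLp.toLp_sub h1 h2)
  · intro c
    rw [bl_eq h1]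
    exact (bl_eq (h1.const_smul c)).trans (MemLp.toLp_const_smul c h1)

end Pool.Agent.F0f91f8.PC
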