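import Pool.Agent.Work.MP_0f91f8_co.PC.StmtsP

/-!
# Block PC, item PBz: the bilinear form `bz` on `L²` (helper82)
-/

set_option autoImplicit false

namespace Pool.Agent.F0f91f8.PC

open MeasureTheory ComplexConjugate
open Pool.Agent.F0f91f8.HD Pool.Agent.F0f91f8.RC Pool.Agent.F0f91f8.KR Pool.Agent.F0f91f8.FC

namespace IPBz

variable {X : Type} [MeasurableSpace X] {μ : Measure X}

/-- the product `H G` of two classes of `L²` is integrable -/
theorem integrable_HG (H G : Lp ℂ 2 μ) : Integrable (fun x => H x * G x) μ :=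
  MemLp.integrable_mul (p := 2) (q := 2) (Lp.memLp H) (Lp.memLp G)

/-- `1_A H G` as an indicator -/
theorem ind_eq (A : Set X) (H G : Lp ℂ 2 μ) :
    (fun x => A.indicator (fun _ => (1 : ℂ)) x * H x * G x) =
      A.indicator fun x => H x * G x := by
  funext x
  by_cases hx : x ∈ A
  · simp [Set.indicator_of_mem hx]
  · simp [Set.indicator_of_notMem hx]

/-- `1_A H G` is integrable -/
theorem integrable_ind {A : Set X} (hA : MeasurableSet A) (H G : Lp ℂ 2 μ) :
    Integrable (fun x => A.indicator (fun _ => (1 : ℂ)) x * H x * G x) μ := by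
  rw [ind_eq]
  exact (integrable_HG H G).indicator hA

/-- `1_A conj H` lies in `L²` -/
theorem memLp_k {A : Set X} (hA : MeasurableSet A) (H : Lp ℂ 2 μ) :
    MemLp (A.indicator fun x => conj (H x)) 2 μ :=
  (Lp.memLp H).star.indicator hA

theorem norm_bz {A : Set X} (hA : MeasurableSet A) (H G : Lp ℂ 2 μ) :
    ‖bz μ A H G‖ ≤ ‖H‖ * ‖G‖ := by
  have hk := memLp_k hA H
  have h1 : bz μ A H G = inner ℂ hk.toLp G := by
    rw [L2.inner_def, bz]
    refine integral_congr_ae ?_
    filter_upwards [hk.coeFn_toLp] with x hx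
    rw [hx, RCLike.inner_apply]
    by_cases h : x ∈ A
    · simp [Set.indicator_of_mem h, mul_comm]
    · simp [Set.indicator_of_notMem h]
  have h2 : ‖hk.toLp‖ ≤ ‖H‖ := by
    refine Lp.norm_le_norm_of_ae_le ?_
    filter_upwards [hk.coeFn_toLp] with x hx
    rw [hx]
    by_cases h : x ∈ A
    · simp [Set.indicator_of_mem h]
    · simp [Set.indicator_of_notMem h]
  rw [h1]
  exact (norm_inner_le_norm _ _).trans (mul_le_mul_of_nonneg_right h2 (norm_nonneg _))

end IPBz

open IPBz in
theorem pr_PBz : StPBz := by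
  intro X _ μ _ A hA
  refine ⟨fun H H' G => ?_, fun c H G => ?_, fun H G => ?_, fun H G => norm_bz hA H G⟩
  · rw [bz, bz, bz, ← integral_add (integrable_ind hA H G) (integrable_ind hA H' G)]
    refine integral_congr_ae ?_
    filter_upwards [Lp.coeFn_add H H'] with x hx
    rw [hx, Pi.add_apply]
    ring
  · rw [bz, bz, ← integral_const_mul]
    refine integral_congr_ae ?_
    filter_upwards [Lp.coeFn_smul c H] with x hx
    rw [hx, Pi.smul_apply, smul_eq_mul]
    ring
  · rw [bz, bz]
    refine integral_congr_ae (Filter.Eventually.of_forall fun x => ?_)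
    ring

end Pool.Agent.F0f91f8.PC
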