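import Pool.Agent.Work.MP_0f91f8_co.PC.StmtsP

/-!
# Block PC, item PCl: the interface statement ClpS (helper43)
-/

set_option autoImplicit false

namespace Pool.Agent.F0f91f8.PC

open Filter Topology ComplexConjugate MeasureTheory
open Pool.Agent.F0f91f8.HD Pool.Agent.F0f91f8.RC Pool.Agent.F0f91f8.KR Pool.Agent.F0f91f8.FC
open Pool.Agent.Work.MP_0f91f8_co.EF (GG ev S_Ev)
open scoped BigOperators

/-- Item PCl. -/
theorem pr_PCl (hNPc : StNPc) (hClm : StClm) (hRl : StPRl) (hFi : StPFi) : StPCl := by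
  intro X _ μ _ S A hA σ _ V χ χ' ε hε
  by_cases h : ¬ Pret (ev χ) ∨ ¬ Pret (ev χ')
  · exact hNPc X _ μ inferInstance S A hA σ inferInstance V χ χ' h ε hε
  · push Not at h
    have hm1 : MeasurableSet (cls χ \ {1}) := (hClm χ).diff (measurableSet_singleton 1)
    refine hFi X _ μ inferInstance S A hA (b1 μ A) σ inferInstance V
      ((cls χ \ {1}).indicator fun _ => (1 : ℂ)) ((cls χ').indicator fun _ => (1 : ℂ))
      (measurable_const.indicator hm1) (measurable_const.indicator (hClm χ'))
      (fun g => ?_) (fun g => ?_) (fun g hg => ?_) (fun g hg => ?_) ε hε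
    · refine (norm_indicator_le_norm_self _ _).trans ?_
      simp
    · refine (norm_indicator_le_norm_self _ _).trans ?_
      simp
    · have h1 : g ∈ cls χ \ {1} := Set.mem_of_indicator_ne_zero hg
      exact ⟨hRl g χ h1.1 h.1, h1.2⟩
    · have h1 : g ∈ cls χ' := Set.mem_of_indicator_ne_zero hg
      exact hRl g χ' h1 h.2

end Pool.Agent.F0f91f8.PC
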