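import Pool.Agent.Work.MP_0f91f8_co.PC.StmtsP

/-!
# Block PC, item PFi: both functions live on pretentious characters (helper43)
-/

set_option autoImplicit false

namespace Pool.Agent.F0f91f8.PC

open Filter Topology ComplexConjugate MeasureTheory
open Pool.Agent.F0f91f8.HD Pool.Agent.F0f91f8.RC Pool.Agent.F0f91f8.KR Pool.Agent.F0f91f8.FC
open Pool.Agent.Work.MP_0f91f8_co.EF (GG ev S_Ev)
open scoped BigOperators

namespace IPFi

theorem cm (hEv : S_Ev) (g : GG) : CM (ev g) :=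
  ⟨(hEv.1 g).zero, (hEv.1 g).mul, (hEv.1 g).norm⟩

theorem ev_le (hEv : S_Ev) (g : GG) (n : ℕ) : ‖ev g n‖ ≤ 1 := by
  rcases Nat.eq_zero_or_pos n with h | h
  · rw [h, (cm hEv g).1]; simp
  · exact ((cm hEv g).2.2 n h).le

theorem ev_meas (hEv : S_Ev) (n : ℕ) : Measurable fun g : GG => ev g n :=
  (hEv.2.1 n).measurable

/-- the products `ev x conj (ev z)` -/
noncomputable def uu (x z : ℕ) (g : GG) : ℂ := ev g x * conj (ev g z)

theorem uu_meas (hEv : S_Ev) (x z : ℕ) : Measurable (uu x z) :=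
  (ev_meas hEv x).mul (Complex.continuous_conj.measurable.comp (ev_meas hEv z))

theorem uu_le (hEv : S_Ev) (x z : ℕ) (g : GG) : ‖uu x z g‖ ≤ 1 := by
  unfold uu
  rw [norm_mul, Complex.norm_conj]
  exact mul_le_one₀ (ev_le hEv g x) (norm_nonneg _) (ev_le hEv g z)

theorem mul_le' {a b : ℂ} (ha : ‖a‖ ≤ 1) (hb : ‖b‖ ≤ 1) : ‖a * b‖ ≤ 1 := by
  rw [norm_mul]; exact mul_le_one₀ ha (norm_nonneg _) hb

theorem bl_zero (hBl : StPBl) (σ : Measure GG) [IsFiniteMeasure σ] :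
    bl σ (fun _ : GG => (0 : ℂ)) = 0 := by
  have h := (hBl GG _ σ inferInstance (fun _ => 0) (fun _ => 0) 0 measurable_const
    measurable_const (fun _ => by simp) (fun _ => by simp)).2.2.2.1 0
  simpa using h

theorem bl_sum (hBl : StPBl) (σ : Measure GG) [IsFiniteMeasure σ] {ι : Type} (s : Finset ι)
    (f : ι → GG → ℂ) (hf : ∀ i, Measurable (f i)) (h1 : ∀ i g, ‖f i g‖ ≤ 1) :
    bl σ (fun g => ∑ i ∈ s, f i g) = ∑ i ∈ s, bl σ (f i) := by
  classical
  induction s using Finset.induction_on with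
  | empty => simpa using bl_zero hBl σ
  | insert a s ha ih =>
    rw [Finset.sum_insert ha, ← ih]
    have h2 := (hBl GG _ σ inferInstance (f a) (fun g => ∑ i ∈ s, f i g) (s.card + 1) (hf a)
      (Finset.measurable_fun_sum s fun i _ => hf i)
      (fun g => (h1 a g).trans (by
        have : (0 : ℝ) ≤ s.card := Nat.cast_nonneg _
        linarith))
      (fun g => by
        refine (norm_sum_le _ _).trans ?_
        refine (Finset.sum_le_sum fun i _ => h1 i g).trans ?_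
        simp)).2.1
    rw [← h2]
    congr 1
    funext g
    rw [Finset.sum_insert ha]

theorem bz_sum (hBz : StPBz) {X : Type} [MeasurableSpace X] (μ : Measure X)
    [IsProbabilityMeasure μ] (A : Set X) (hA : MeasurableSet A) {ι : Type} (s : Finset ι)
    (f : ι → Lp ℂ 2 μ) (G : Lp ℂ 2 μ) :
    bz μ A (∑ i ∈ s, f i) G = ∑ i ∈ s, bz μ A (f i) G := by
  classical
  obtain ⟨hadd, hsm, -, -⟩ := hBz X _ μ inferInstance A hA
  induction s using Finset.induction_on with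
  | empty =>
    have := hsm 0 0 G
    simpa using this
  | insert a s ha ih =>
    rw [Finset.sum_insert ha, Finset.sum_insert ha, hadd, ih]

/-- `‖V (bl u)‖² = ∫ ‖u‖²` -/
theorem nsq (hBl : StPBl) {X : Type} [MeasurableSpace X] {μ : Measure X} (S : Sys μ)
    (F : Lp ℂ 2 μ) (σ : Measure GG) [IsFiniteMeasure σ] (V : SpV S F σ) (u : GG → ℂ)
    (hu : Measurable u) (C : ℝ) (h1 : ∀ g, ‖u g‖ ≤ C) :
    ‖V.V (bl σ u)‖ ^ 2 = ∫ g, ‖u g‖ ^ 2 ∂σ := by
  rw [V.V.norm_map]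
  exact (hBl GG _ σ inferInstance u u C hu hu h1 h1).2.2.2.2

theorem integrable_bdd {σ : Measure GG} [IsFiniteMeasure σ] {u : GG → ℝ} (hu : Measurable u)
    (C : ℝ) (h1 : ∀ g, |u g| ≤ C) : Integrable u σ :=
  Integrable.of_bound hu.aestronglyMeasurable C (Eventually.of_forall fun g => by
    rw [Real.norm_eq_abs]; exact h1 g)

theorem amgm {t δ : ℝ} (hδ : 0 < δ) (ht : 0 ≤ t) : t ≤ δ + t ^ 2 / δ := by
  rcases le_or_gt t δ with h | h
  · have : 0 ≤ t ^ 2 / δ := by positivity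
    linarith
  · have h2 : t ≤ t ^ 2 / δ := by
      rw [le_div_iff₀ hδ]
      nlinarith
    linarith

theorem sq_le_two {t : ℝ} (h0 : 0 ≤ t) (h2 : t ≤ 2) : t ^ 2 ≤ 2 * t := by nlinarith

theorem sq_le_one' {t : ℝ} (h0 : 0 ≤ t) (h1 : t ≤ 1) : t ^ 2 ≤ t := by nlinarith

/-! ## The differences -/

noncomputable def D1 (w K : ℕ) (e : Fin (w + 1) → Fin K) (e' : Fin (K + 1) → Fin K) (a n : ℕ)
    (g : GG) : ℝ :=
  ‖uu (tX (kR 1 w K e) (kK 1 w K e') a n) (tZ (kR 1 w K e) (kK 1 w K e') a n) g -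
    ev g (kp w K e) * uu (tX w.factorial (kK 1 w K e') a n) (tZ w.factorial (kK 1 w K e') a n) g‖

noncomputable def D2 (w K : ℕ) (e : Fin (w + 1) → Fin K) (e' : Fin (K + 1) → Fin K) (a n : ℕ)
    (g : GG) : ℝ :=
  ‖uu (tY (kR 1 w K e) (kK 1 w K e') a n) (tZ (kR 1 w K e) (kK 1 w K e') a n) g -
    uu (tY w.factorial (kK 1 w K e') a n) (tZ w.factorial (kK 1 w K e') a n) g‖

theorem D1_meas (hEv : S_Ev) (w K : ℕ) (e : Fin (w + 1) → Fin K) (e' : Fin (K + 1) → Fin K)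
    (a n : ℕ) : Measurable (D1 w K e e' a n) :=
  ((uu_meas hEv _ _).sub ((ev_meas hEv _).mul (uu_meas hEv _ _))).norm

theorem D2_meas (hEv : S_Ev) (w K : ℕ) (e : Fin (w + 1) → Fin K) (e' : Fin (K + 1) → Fin K)
    (a n : ℕ) : Measurable (D2 w K e e' a n) :=
  ((uu_meas hEv _ _).sub (uu_meas hEv _ _)).norm

theorem D1_nn (w K : ℕ) (e : Fin (w + 1) → Fin K) (e' : Fin (K + 1) → Fin K)
    (a n : ℕ) (g : GG) : 0 ≤ D1 w K e e' a n g := norm_nonneg _

theorem D2_nn (w K : ℕ) (e : Fin (w + 1) → Fin K) (e' : Fin (K + 1) → Fin K)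
    (a n : ℕ) (g : GG) : 0 ≤ D2 w K e e' a n g := norm_nonneg _

theorem D1_le (hEv : S_Ev) (w K : ℕ) (e : Fin (w + 1) → Fin K) (e' : Fin (K + 1) → Fin K)
    (a n : ℕ) (g : GG) : D1 w K e e' a n g ≤ 2 := by
  refine (norm_sub_le _ _).trans ?_
  have h1 := uu_le hEv (tX (kR 1 w K e) (kK 1 w K e') a n) (tZ (kR 1 w K e) (kK 1 w K e') a n) g
  have h2 := mul_le' (ev_le hEv g (kp w K e)) (uu_le hEv (tX w.factorial (kK 1 w K e') a n)
    (tZ w.factorial (kK 1 w K e') a n) g)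
  linarith

theorem D2_le (hEv : S_Ev) (w K : ℕ) (e : Fin (w + 1) → Fin K) (e' : Fin (K + 1) → Fin K)
    (a n : ℕ) (g : GG) : D2 w K e e' a n g ≤ 2 := by
  refine (norm_sub_le _ _).trans ?_
  have h1 := uu_le hEv (tY (kR 1 w K e) (kK 1 w K e') a n) (tZ (kR 1 w K e) (kK 1 w K e') a n) g
  have h2 := uu_le hEv (tY w.factorial (kK 1 w K e') a n) (tZ w.factorial (kK 1 w K e') a n) g
  linarith

theorem avR_meas (w K M : ℕ)
    (F : (Fin (w + 1) → Fin K) → (Fin (K + 1) → Fin K) → ℕ → ℕ → GG → ℝ)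
    (hF : ∀ e e' a n, Measurable (F e e' a n)) :
    Measurable fun g => avR w K M fun e e' a n => F e e' a n g := by
  unfold avR BR
  refine Measurable.div_const ?_ _
  refine Finset.measurable_fun_sum _ fun e _ => Finset.measurable_fun_sum _ fun e' _ => ?_
  refine Measurable.div_const ?_ _
  refine Finset.measurable_fun_sum _ fun u _ => Finset.measurable_fun_sum _ fun u' _ => ?_
  refine Finset.measurable_fun_sum _ fun v _ => Finset.measurable_fun_sum _ fun v' _ => ?_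
  exact hF _ _ _ _

noncomputable def FF (w K M : ℕ)
    (D : (Fin (w + 1) → Fin K) → (Fin (K + 1) → Fin K) → ℕ → ℕ → GG → ℝ) (φ : GG → ℂ)
    (g : GG) : ℝ := (avR w K M fun e e' a n => D e e' a n g) * ‖φ g‖

noncomputable def F3 (w K : ℕ) (φ : GG → ℂ) (g : GG) : ℝ :=
  ‖(∑ e : Fin (w + 1) → Fin K, ev g (kp w K e)) / (K : ℂ) ^ (w + 1)‖ * ‖φ g‖

theorem avg_ev_le (hEv : S_Ev) (w K : ℕ) (g : GG) :
    ‖(∑ e : Fin (w + 1) → Fin K, ev g (kp w K e)) / (K : ℂ) ^ (w + 1)‖ ≤ 1 := by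
  rw [norm_div, norm_pow, Complex.norm_natCast]
  refine div_le_one_of_le₀ ?_ (by positivity)
  refine (norm_sum_le _ _).trans ?_
  refine (Finset.sum_le_sum fun e _ => ev_le hEv g _).trans ?_
  simp

/-- square of a difference, averaged -/
theorem avsq (hAv : StPAv) (hBl : StPBl) {X : Type} [MeasurableSpace X] {μ : Measure X}
    (S : Sys μ) (F : Lp ℂ 2 μ) (σ : Measure GG) [IsFiniteMeasure σ] (V : SpV S F σ)
    (φ : GG → ℂ) (hφm : Measurable φ) (hφ1 : ∀ g, ‖φ g‖ ≤ 1) (w K M : ℕ)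
    (u u' : (Fin (w + 1) → Fin K) → (Fin (K + 1) → Fin K) → ℕ → ℕ → GG → ℂ)
    (hu : ∀ e e' a n, Measurable (u e e' a n)) (hu' : ∀ e e' a n, Measurable (u' e e' a n))
    (h1 : ∀ e e' a n g, ‖u e e' a n g‖ ≤ 1) (h1' : ∀ e e' a n g, ‖u' e e' a n g‖ ≤ 1) :
    (avR w K M fun e e' a n => ‖V.V (bl σ fun g => u e e' a n g * φ g) -
      V.V (bl σ fun g => u' e e' a n g * φ g)‖ ^ 2) ≤
      2 * ∫ g, FF w K M (fun e e' a n g => ‖u e e' a n g - u' e e' a n g‖) φ g ∂σ := by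
  obtain ⟨-, -, hmono, -, hc, -, -, hint, -⟩ := hAv w K M
  have hDm : ∀ e e' a n, Measurable fun g : GG => 2 * (‖u e e' a n g - u' e e' a n g‖ * ‖φ g‖) :=
    fun e e' a n => (((hu e e' a n).sub (hu' e e' a n)).norm.mul hφm.norm).const_mul 2
  have hD2 : ∀ e e' a n (g : GG), ‖u e e' a n g - u' e e' a n g‖ ≤ 2 := fun e e' a n g =>
    (norm_sub_le _ _).trans (by linarith [h1 e e' a n g, h1' e e' a n g])
  have hI : ∀ e e' a n, Integrable
      (fun g : GG => 2 * (‖u e e' a n g - u' e e' a n g‖ * ‖φ g‖)) σ := fun e e' a n =>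
    integrable_bdd (hDm e e' a n) 4 fun g => by
      have h2 := hD2 e e' a n g
      have h3 := hφ1 g
      have h4 : 0 ≤ ‖u e e' a n g - u' e e' a n g‖ := norm_nonneg _
      have h5 : 0 ≤ ‖φ g‖ := norm_nonneg _
      rw [abs_of_nonneg (by positivity)]
      nlinarith
  have hkey : ∀ e e' a n, ‖V.V (bl σ fun g => u e e' a n g * φ g) -
      V.V (bl σ fun g => u' e e' a n g * φ g)‖ ^ 2 ≤
      ∫ g, 2 * (‖u e e' a n g - u' e e' a n g‖ * ‖φ g‖) ∂σ := by
    intro e e' a n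
    have h2 := (hBl GG _ σ inferInstance (fun g => u e e' a n g * φ g)
      (fun g => u' e e' a n g * φ g) 1 ((hu e e' a n).mul hφm) ((hu' e e' a n).mul hφm)
      (fun g => mul_le' (h1 e e' a n g) (hφ1 g))
      (fun g => mul_le' (h1' e e' a n g) (hφ1 g))).2.2.1
    rw [← map_sub, ← h2]
    have h3 : Measurable fun g : GG => u e e' a n g * φ g - u' e e' a n g * φ g :=
      ((hu e e' a n).mul hφm).sub ((hu' e e' a n).mul hφm)
    have h4 : ∀ g : GG, ‖u e e' a n g * φ g - u' e e' a n g * φ g‖ =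
        ‖u e e' a n g - u' e e' a n g‖ * ‖φ g‖ := fun g => by
      rw [← sub_mul, norm_mul]
    have h6 : ∀ g : GG, ‖u e e' a n g * φ g - u' e e' a n g * φ g‖ ≤ 2 := fun g => by
      rw [h4]
      have h2 := hD2 e e' a n g
      have h3 := hφ1 g
      have h5 : 0 ≤ ‖φ g‖ := norm_nonneg _
      nlinarith
    rw [nsq hBl S F σ V _ h3 2 h6]
    refine integral_mono (integrable_bdd (h3.norm.pow_const 2) 4 fun g => ?_) (hI e e' a n)
      fun g => ?_
    · have := h6 g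
      have h7 : 0 ≤ ‖u e e' a n g * φ g - u' e e' a n g * φ g‖ := norm_nonneg _
      rw [abs_of_nonneg (by positivity)]
      nlinarith
    · show ‖u e e' a n g * φ g - u' e e' a n g * φ g‖ ^ 2 ≤
        2 * (‖u e e' a n g - u' e e' a n g‖ * ‖φ g‖)
      rw [← h4]
      exact sq_le_two (norm_nonneg _) (h6 g)
  refine (hmono _ _ fun e e' a n _ _ => hkey e e' a n).trans ?_
  rw [hint GG _ σ _ hI, ← integral_const_mul]
  refine le_of_eq (integral_congr_ae (Eventually.of_forall fun g => ?_))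
  show (avR w K M fun e e' a n => 2 * (‖u e e' a n g - u' e e' a n g‖ * ‖φ g‖)) =
    2 * FF w K M (fun e e' a n g => ‖u e e' a n g - u' e e' a n g‖) φ g
  unfold FF
  have h8 := hc (2 * ‖φ g‖) fun e e' a n => ‖u e e' a n g - u' e e' a n g‖
  rw [show (fun e e' a n => 2 * (‖u e e' a n g - u' e e' a n g‖ * ‖φ g‖)) =
    fun e e' a n => 2 * ‖φ g‖ * ‖u e e' a n g - u' e e' a n g‖ from by
      funext e e' a n; ring, h8]
  ring

/-- the average over `e` of the main terms -/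
theorem mainE (hEv : S_Ev) (hBz : StPBz) (hBl : StPBl) {X : Type} [MeasurableSpace X]
    {μ : Measure X} [IsProbabilityMeasure μ] (A : Set X) (hA : MeasurableSet A)
    (S : Sys μ) (F : Lp ℂ 2 μ) (σ : Measure GG) [IsFiniteMeasure σ] (V : SpV S F σ)
    (φ : GG → ℂ) (hφm : Measurable φ) (hφ1 : ∀ g, ‖φ g‖ ≤ 1) (w K : ℕ) (u : GG → ℂ)
    (hu : Measurable u) (h1 : ∀ g, ‖u g‖ ≤ 1) (G : Lp ℂ 2 μ) (L δ : ℝ) (hδ : 0 < δ)
    (hG : ‖G‖ ≤ L) :
    ‖(∑ e : Fin (w + 1) → Fin K,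
      bz μ A (V.V (bl σ fun g => ev g (kp w K e) * u g * φ g)) G) / (K : ℂ) ^ (w + 1)‖ ≤
      (δ + (∫ g, F3 w K φ g ∂σ) / δ) * L := by
  obtain ⟨-, hsm, -, hnorm⟩ := hBz X _ μ inferInstance A hA
  have hm : ∀ e : Fin (w + 1) → Fin K, Measurable fun g : GG => ev g (kp w K e) * u g * φ g :=
    fun e => ((ev_meas hEv _).mul hu).mul hφm
  have hle : ∀ (e : Fin (w + 1) → Fin K) (g : GG), ‖ev g (kp w K e) * u g * φ g‖ ≤ 1 :=
    fun e g => mul_le' (mul_le' (ev_le hEv g _) (h1 g)) (hφ1 g)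
  rw [← bz_sum hBz μ A hA, ← map_sum, ← bl_sum hBl σ Finset.univ _ hm hle, div_eq_inv_mul,
    ← hsm, ← map_smul]
  have hm2 : Measurable fun g : GG =>
      ∑ e : Fin (w + 1) → Fin K, ev g (kp w K e) * u g * φ g :=
    Finset.measurable_fun_sum _ fun e _ => hm e
  have hle2 : ∀ g : GG, ‖∑ e : Fin (w + 1) → Fin K, ev g (kp w K e) * u g * φ g‖ ≤
      (Finset.univ : Finset (Fin (w + 1) → Fin K)).card := fun g => by
    refine (norm_sum_le _ _).trans ?_
    refine (Finset.sum_le_sum fun e _ => hle e g).trans ?_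
    simp
  have h2 := (hBl GG _ σ inferInstance _ _ _ hm2 hm2 hle2 hle2).2.2.2.1 ((K : ℂ) ^ (w + 1))⁻¹
  rw [← h2]
  refine (hnorm _ _).trans ?_
  have h3 : ∀ g : GG, ((K : ℂ) ^ (w + 1))⁻¹ *
      ∑ e : Fin (w + 1) → Fin K, ev g (kp w K e) * u g * φ g =
      (∑ e : Fin (w + 1) → Fin K, ev g (kp w K e)) / (K : ℂ) ^ (w + 1) * u g * φ g := fun g => by
    rw [← Finset.sum_mul, ← Finset.sum_mul]; ring
  have h4 : ∀ g : GG, ‖((K : ℂ) ^ (w + 1))⁻¹ *
      ∑ e : Fin (w + 1) → Fin K, ev g (kp w K e) * u g * φ g‖ ≤ F3 w K φ g := fun g => by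
    rw [h3, norm_mul, norm_mul]
    unfold F3
    exact mul_le_mul_of_nonneg_right (mul_le_of_le_one_right (norm_nonneg _) (h1 g))
      (norm_nonneg _)
  have h5 : ∀ g : GG, F3 w K φ g ≤ 1 := fun g =>
    mul_le_one₀ (avg_ev_le hEv w K g) (norm_nonneg _) (hφ1 g)
  have h6 : Measurable fun g : GG => ((K : ℂ) ^ (w + 1))⁻¹ *
      ∑ e : Fin (w + 1) → Fin K, ev g (kp w K e) * u g * φ g := hm2.const_mul _
  have h7 : Measurable (F3 w K φ) :=
    ((Finset.measurable_fun_sum _ fun e _ => ev_meas hEv _).div_const _).norm.mul hφm.norm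
  have h8 : ‖V.V (bl σ fun g => ((K : ℂ) ^ (w + 1))⁻¹ *
      ∑ e : Fin (w + 1) → Fin K, ev g (kp w K e) * u g * φ g)‖ ^ 2 ≤ ∫ g, F3 w K φ g ∂σ := by
    rw [nsq hBl S F σ V _ h6 1 fun g => (h4 g).trans (h5 g)]
    refine integral_mono (integrable_bdd (h6.norm.pow_const 2) 1 fun g => ?_)
      (integrable_bdd h7 1 fun g => ?_) fun g => ?_
    · have h9 := (h4 g).trans (h5 g)
      rw [abs_of_nonneg (by positivity)]
      exact pow_le_one₀ (norm_nonneg _) h9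
    · rw [abs_of_nonneg (by unfold F3; positivity)]
      exact h5 g
    · exact (sq_le_one' (norm_nonneg _) ((h4 g).trans (h5 g))).trans (h4 g)
  have h9 := amgm hδ (norm_nonneg (V.V (bl σ fun g => ((K : ℂ) ^ (w + 1))⁻¹ *
      ∑ e : Fin (w + 1) → Fin K, ev g (kp w K e) * u g * φ g)))
  have h10 : ‖V.V (bl σ fun g => ((K : ℂ) ^ (w + 1))⁻¹ *
      ∑ e : Fin (w + 1) → Fin K, ev g (kp w K e) * u g * φ g)‖ ≤
      δ + (∫ g, F3 w K φ g ∂σ) / δ := h9.trans (by gcongr)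
  exact mul_le_mul h10 hG (norm_nonneg _) ((norm_nonneg _).trans h10)

theorem kp_pos (w K : ℕ) (e : Fin (w + 1) → Fin K) : 0 < kp w K e := by
  unfold kp
  refine Finset.prod_pos fun p _ => ?_
  split_ifs with h
  · exact pow_pos h.pos _
  · exact one_pos

theorem kk_pos (w K : ℕ) (e : Fin (K + 1) → Fin K) : 0 < kk w K e := by
  unfold kk
  refine Finset.prod_pos fun p _ => ?_
  split_ifs with h
  · exact pow_pos h.1.pos _
  · exact one_pos

theorem kR_pos (w K : ℕ) (e : Fin (w + 1) → Fin K) : 0 < kR 1 w K e := by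
  unfold kR
  have := kp_pos w K e
  have := Nat.factorial_pos w
  positivity

theorem kK_pos (w K : ℕ) (e : Fin (K + 1) → Fin K) : 0 < kK 1 w K e := by
  unfold kK
  exact pow_pos (kk_pos w K e) _

/-- the estimate for fixed parameters -/
theorem core (hEv : S_Ev) (hAv : StPAv) (hBz : StPBz) (hBl : StPBl) (hAl : StPAl) {X : Type}
    [MeasurableSpace X] {μ : Measure X} [IsProbabilityMeasure μ] (A : Set X)
    (hA : MeasurableSet A) (S : Sys μ) (F : Lp ℂ 2 μ) (σ : Measure GG) [IsFiniteMeasure σ]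
    (V : SpV S F σ) (φ ψ : GG → ℂ) (hφm : Measurable φ) (hψm : Measurable ψ)
    (hφ1 : ∀ g, ‖φ g‖ ≤ 1) (hψ1 : ∀ g, ‖ψ g‖ ≤ 1) (w K M : ℕ) (L δ : ℝ) (hδ : 0 < δ)
    (hL0 : 0 ≤ L) (hL : ∀ u : GG → ℂ, Measurable u → (∀ g, ‖u g‖ ≤ 1) → ‖V.V (bl σ u)‖ ≤ L) :
    ‖AvK 1 w K M fun x y z => bt S A z (U S x (V.V (bl σ φ))) (U S y (V.V (bl σ ψ)))‖ ≤
      L * (2 * δ + (2 * (∫ g, FF w K M (D1 w K) φ g ∂σ) +
        2 * (∫ g, FF w K M (D2 w K) ψ g ∂σ)) / δ) +
      (δ + (∫ g, F3 w K φ g ∂σ) / δ) * L := by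
  obtain ⟨hAK, hdiff, hmono, hadd, hc, hcst, -, -, hes⟩ := hAv w K M
  obtain ⟨hbadd, hbsm, hbsymm, hbnorm⟩ := hBz X _ μ inferInstance A hA
  set k : (Fin (K + 1) → Fin K) → ℕ := fun e' => kK 1 w K e' with hk
  let H : (Fin (w + 1) → Fin K) → (Fin (K + 1) → Fin K) → ℕ → ℕ → Lp ℂ 2 μ := fun e e' a n =>
    V.V (bl σ fun g => uu (tX (kR 1 w K e) (k e') a n) (tZ (kR 1 w K e) (k e') a n) g * φ g)
  let G : (Fin (w + 1) → Fin K) → (Fin (K + 1) → Fin K) → ℕ → ℕ → Lp ℂ 2 μ := fun e e' a n =>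
    V.V (bl σ fun g => uu (tY (kR 1 w K e) (k e') a n) (tZ (kR 1 w K e) (k e') a n) g * ψ g)
  let H' : (Fin (w + 1) → Fin K) → (Fin (K + 1) → Fin K) → ℕ → ℕ → Lp ℂ 2 μ := fun e e' a n =>
    V.V (bl σ fun g => ev g (kp w K e) *
      uu (tX w.factorial (k e') a n) (tZ w.factorial (k e') a n) g * φ g)
  let G' : (Fin (K + 1) → Fin K) → ℕ → ℕ → Lp ℂ 2 μ := fun e' a n =>
    V.V (bl σ fun g => uu (tY w.factorial (k e') a n) (tZ w.factorial (k e') a n) g * ψ g)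
  have hφI : MemLp φ 2 σ := (hBl GG _ σ inferInstance φ φ 1 hφm hφm hφ1 hφ1).1
  have hψI : MemLp ψ 2 σ := (hBl GG _ σ inferInstance ψ ψ 1 hψm hψm hψ1 hψ1).1
  have hH' : ∀ e e' a n, ‖H' e e' a n‖ ≤ L := fun e e' a n =>
    hL _ (((ev_meas hEv _).mul (uu_meas hEv _ _)).mul hφm)
      fun g => mul_le' (mul_le' (ev_le hEv g _) (uu_le hEv _ _ g)) (hφ1 g)
  have hG : ∀ e e' a n, ‖G e e' a n‖ ≤ L := fun e e' a n =>
    hL _ ((uu_meas hEv _ _).mul hψm) fun g => mul_le' (uu_le hEv _ _ g) (hψ1 g)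
  have hG' : ∀ e' a n, ‖G' e' a n‖ ≤ L := fun e' a n =>
    hL _ ((uu_meas hEv _ _).mul hψm) fun g => mul_le' (uu_le hEv _ _ g) (hψ1 g)
  -- the difference of two products
  have hbd : ∀ (P P' Q Q' : Lp ℂ 2 μ), ‖P'‖ ≤ L → ‖Q‖ ≤ L →
      ‖bz μ A P Q - bz μ A P' Q'‖ ≤ L * (‖P - P'‖ + ‖Q - Q'‖) := by
    intro P P' Q Q' h1 h2
    have e1 : bz μ A P Q = bz μ A (P - P') Q + bz μ A P' Q := by
      rw [← hbadd, sub_add_cancel]
    have e2 : bz μ A P' Q = bz μ A P' (Q - Q') + bz μ A P' Q' := by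
      rw [hbsymm P' Q, hbsymm P' (Q - Q'), hbsymm P' Q', ← hbadd, sub_add_cancel]
    have e3 : bz μ A P Q - bz μ A P' Q' = bz μ A (P - P') Q + bz μ A P' (Q - Q') := by
      rw [e1, e2]; ring
    rw [e3]
    refine (norm_add_le _ _).trans ?_
    have h3 := hbnorm (P - P') Q
    have h4 := hbnorm P' (Q - Q')
    have h5 : ‖P - P'‖ * ‖Q‖ ≤ ‖P - P'‖ * L := mul_le_mul_of_nonneg_left h2 (norm_nonneg _)
    have h6 : ‖P'‖ * ‖Q - Q'‖ ≤ L * ‖Q - Q'‖ := mul_le_mul_of_nonneg_right h1 (norm_nonneg _)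
    nlinarith
  -- first part
  have hA1 : ‖avC w K M (fun e e' a n => bz μ A (H e e' a n) (G e e' a n)) -
      avC w K M (fun e e' a n => bz μ A (H' e e' a n) (G' e' a n))‖ ≤
      L * (2 * δ + (2 * (∫ g, FF w K M (D1 w K) φ g ∂σ) +
        2 * (∫ g, FF w K M (D2 w K) ψ g ∂σ)) / δ) := by
    refine (hdiff _ _).trans ?_
    have h1 : (avR w K M fun e e' a n => ‖bz μ A (H e e' a n) (G e e' a n) -
        bz μ A (H' e e' a n) (G' e' a n)‖) ≤
        avR w K M fun e e' a n => L * (2 * δ) + (L / δ * ‖H e e' a n - H' e e' a n‖ ^ 2 +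
          L / δ * ‖G e e' a n - G' e' a n‖ ^ 2) := by
      refine hmono _ _ fun e e' a n _ _ => ?_
      refine (hbd _ _ _ _ (hH' e e' a n) (hG e e' a n)).trans ?_
      have h2 := amgm hδ (norm_nonneg (H e e' a n - H' e e' a n))
      have h3 := amgm hδ (norm_nonneg (G e e' a n - G' e' a n))
      have h4 : L * (‖H e e' a n - H' e e' a n‖ + ‖G e e' a n - G' e' a n‖) ≤
          L * ((δ + ‖H e e' a n - H' e e' a n‖ ^ 2 / δ) +
            (δ + ‖G e e' a n - G' e' a n‖ ^ 2 / δ)) :=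
        mul_le_mul_of_nonneg_left (add_le_add h2 h3) hL0
      refine h4.trans (le_of_eq ?_)
      ring
    refine h1.trans ?_
    rw [hadd, hadd, hc (L / δ) fun e e' a n => ‖H e e' a n - H' e e' a n‖ ^ 2,
      hc (L / δ) fun e e' a n => ‖G e e' a n - G' e' a n‖ ^ 2]
    have h5 := hcst (L * (2 * δ)) (by positivity)
    have h6 := avsq hAv hBl S F σ V φ hφm hφ1 w K M
      (fun e e' a n g => uu (tX (kR 1 w K e) (k e') a n) (tZ (kR 1 w K e) (k e') a n) g)
      (fun e e' a n g => ev g (kp w K e) *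
        uu (tX w.factorial (k e') a n) (tZ w.factorial (k e') a n) g)
      (fun e e' a n => uu_meas hEv _ _) (fun e e' a n => (ev_meas hEv _).mul (uu_meas hEv _ _))
      (fun e e' a n g => uu_le hEv _ _ g)
      (fun e e' a n g => mul_le' (ev_le hEv g _) (uu_le hEv _ _ g))
    have h7 := avsq hAv hBl S F σ V ψ hψm hψ1 w K M
      (fun e e' a n g => uu (tY (kR 1 w K e) (k e') a n) (tZ (kR 1 w K e) (k e') a n) g)
      (fun e e' a n g => uu (tY w.factorial (k e') a n) (tZ w.factorial (k e') a n) g)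
      (fun e e' a n => uu_meas hEv _ _) (fun e e' a n => uu_meas hEv _ _)
      (fun e e' a n g => uu_le hEv _ _ g) (fun e e' a n g => uu_le hEv _ _ g)
    have h8 : L / δ * (avR w K M fun e e' a n => ‖H e e' a n - H' e e' a n‖ ^ 2) ≤
        L / δ * (2 * ∫ g, FF w K M (D1 w K) φ g ∂σ) :=
      mul_le_mul_of_nonneg_left h6 (by positivity)
    have h9 : L / δ * (avR w K M fun e e' a n => ‖G e e' a n - G' e' a n‖ ^ 2) ≤
        L / δ * (2 * ∫ g, FF w K M (D2 w K) ψ g ∂σ) :=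
      mul_le_mul_of_nonneg_left h7 (by positivity)
    have h10 : L * (2 * δ + (2 * (∫ g, FF w K M (D1 w K) φ g ∂σ) +
        2 * (∫ g, FF w K M (D2 w K) ψ g ∂σ)) / δ) =
        L * (2 * δ) + (L / δ * (2 * ∫ g, FF w K M (D1 w K) φ g ∂σ) +
          L / δ * (2 * ∫ g, FF w K M (D2 w K) ψ g ∂σ)) := by ring
    rw [h10]
    exact add_le_add h5 (add_le_add h8 h9)
  -- second part
  have hA2 : ‖avC w K M (fun e e' a n => bz μ A (H' e e' a n) (G' e' a n))‖ ≤
      (δ + (∫ g, F3 w K φ g ∂σ) / δ) * L := by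
    refine hes _ _ ?_ fun e' a n _ _ => ?_
    · have : 0 ≤ ∫ g, F3 w K φ g ∂σ := integral_nonneg fun g => by
        show 0 ≤ F3 w K φ g
        unfold F3; positivity
      positivity
    · exact mainE hEv hBz hBl A hA S F σ V φ hφm hφ1 w K
        (uu (tX w.factorial (k e') a n) (tZ w.factorial (k e') a n)) (uu_meas hEv _ _)
        (uu_le hEv _ _) (G' e' a n) L δ hδ (hG' e' a n)
  -- the algebra
  have hA3 : ‖avC w K M (fun e e' a n => bt S A (tZ (kR 1 w K e) (k e') a n)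
        (U S (tX (kR 1 w K e) (k e') a n) (V.V (bl σ φ)))
        (U S (tY (kR 1 w K e) (k e') a n) (V.V (bl σ ψ)))) -
      avC w K M (fun e e' a n => bz μ A (H e e' a n) (G e e' a n))‖ ≤ 0 := by
    refine (hdiff _ _).trans ((hmono _ (fun _ _ _ _ => (0 : ℝ)) fun e e' a n ha hn => ?_).trans
      (hcst 0 le_rfl))
    have hκ : 0 < kR 1 w K e := kR_pos w K e
    have hk0 : 0 < k e' := kK_pos w K e'
    have hx : 0 < tX (kR 1 w K e) (k e') a n := by unfold tX; positivity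
    have hy : 0 < tY (kR 1 w K e) (k e') a n := by unfold tY; positivity
    have hz : 0 < tZ (kR 1 w K e) (k e') a n := by unfold tZ; positivity
    have h1 := hAl X _ μ inferInstance S A hA F σ inferInstance V φ ψ hφI hψI _ _ _ hx hy hz
    rw [h1]
    show ‖bz μ A (H e e' a n) (G e e' a n) - bz μ A (H e e' a n) (G e e' a n)‖ ≤ 0
    rw [sub_self, norm_zero]
  rw [hAK]
  have h20 := norm_sub_norm_le
    (avC w K M (fun e e' a n => bt S A (tZ (kR 1 w K e) (k e') a n)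
        (U S (tX (kR 1 w K e) (k e') a n) (V.V (bl σ φ)))
        (U S (tY (kR 1 w K e) (k e') a n) (V.V (bl σ ψ)))))
    (avC w K M (fun e e' a n => bz μ A (H e e' a n) (G e e' a n)))
  have h21 := norm_sub_norm_le
    (avC w K M (fun e e' a n => bz μ A (H e e' a n) (G e e' a n)))
    (avC w K M (fun e e' a n => bz μ A (H' e e' a n) (G' e' a n)))
  show ‖avC w K M (fun e e' a n => bt S A (tZ (kR 1 w K e) (k e') a n)
        (U S (tX (kR 1 w K e) (k e') a n) (V.V (bl σ φ)))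
        (U S (tY (kR 1 w K e) (k e') a n) (V.V (bl σ ψ))))‖ ≤ _
  linarith

/-- nested limits: conjunction -/
theorem nest_and {P Q : ℕ → ℕ → ℕ → Prop} (h1 : Nest P) (h2 : Nest Q) :
    Nest fun w K M => P w K M ∧ Q w K M := by
  unfold Nest at *
  filter_upwards [h1, h2] with w a1 a2
  filter_upwards [a1, a2] with K b1 b2
  filter_upwards [b1, b2] with M c1 c2
  exact ⟨c1, c2⟩

theorem nest_mono {P Q : ℕ → ℕ → ℕ → Prop} (h1 : Nest P) (h : ∀ w K M, P w K M → Q w K M) :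
    Nest Q := by
  unfold Nest at *
  filter_upwards [h1] with w a1
  filter_upwards [a1] with K b1
  filter_upwards [b1] with M c1
  exact h w K M c1

theorem nest_all {P : ℕ → ℕ → ℕ → Prop} (h : ∀ w K M, P w K M) : Nest P :=
  Eventually.of_forall fun w => Eventually.of_forall fun K => Eventually.of_forall fun M =>
    h w K M

theorem avR_nn (hAv : StPAv) (w K M : ℕ)
    (F : (Fin (w + 1) → Fin K) → (Fin (K + 1) → Fin K) → ℕ → ℕ → ℝ)
    (h : ∀ e e' a n, 0 ≤ F e e' a n) : 0 ≤ avR w K M F := by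
  obtain ⟨-, -, hmono, -, hc, -⟩ := hAv w K M
  have h1 := hc 0 F
  rw [zero_mul] at h1
  rw [← h1]
  exact hmono _ _ fun e e' a n _ _ => by rw [zero_mul]; exact h e e' a n

theorem avR_two (hAv : StPAv) (w K M : ℕ)
    (F : (Fin (w + 1) → Fin K) → (Fin (K + 1) → Fin K) → ℕ → ℕ → ℝ)
    (h : ∀ e e' a n, F e e' a n ≤ 2) : avR w K M F ≤ 2 := by
  obtain ⟨-, -, hmono, -, -, hcst, -⟩ := hAv w K M
  exact (hmono F (fun _ _ _ _ => 2) fun e e' a n _ _ => h e e' a n).trans (hcst 2 (by norm_num))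

/-- the integrals of `FF` are small -/
theorem nestFF (hAv : StPAv) (hNf : StNf) (σ : Measure GG) [IsFiniteMeasure σ]
    (D : ∀ w K : ℕ, (Fin (w + 1) → Fin K) → (Fin (K + 1) → Fin K) → ℕ → ℕ → GG → ℝ)
    (hDm : ∀ w K e e' a n, Measurable (D w K e e' a n)) (hD0 : ∀ w K e e' a n g, 0 ≤ D w K e e' a n g)
    (hD2 : ∀ w K e e' a n g, D w K e e' a n g ≤ 2) (φ : GG → ℂ) (hφm : Measurable φ)
    (hφ1 : ∀ g, ‖φ g‖ ≤ 1)
    (hD : ∀ g, φ g ≠ 0 → ∀ ε : ℝ, 0 < ε → Nest fun w K M =>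
      ∀ (e : Fin (w + 1) → Fin K) (e' : Fin (K + 1) → Fin K),
      (BR w.factorial (DR 1 w K) 1 M fun a s => D w K e e' a (w.factorial * s + 1) g) ≤ ε)
    (ε : ℝ) (hε : 0 < ε) : Nest fun w K M => ∫ g, FF w K M (D w K) φ g ∂σ ≤ ε := by
  refine hNf GG _ σ inferInstance (fun w K M g => FF w K M (D w K) φ g) 2 (fun w K M => ?_)
    (fun w K M g => ?_) (Eventually.of_forall fun g => ?_) ε hε
  · exact (avR_meas w K M _ (hDm w K)).mul hφm.norm
  · have h1 := avR_nn hAv w K M (fun e e' a n => D w K e e' a n g)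
      fun e e' a n => hD0 w K e e' a n g
    have h2 := avR_two hAv w K M (fun e e' a n => D w K e e' a n g)
      fun e e' a n => hD2 w K e e' a n g
    show |(avR w K M fun e e' a n => D w K e e' a n g) * ‖φ g‖| ≤ 2
    have h3 := norm_nonneg (φ g)
    have h4 := hφ1 g
    rw [abs_of_nonneg (by positivity)]
    nlinarith
  · intro ε hε
    by_cases h0 : φ g = 0
    · refine nest_all fun w K M => ?_
      show (avR w K M fun e e' a n => D w K e e' a n g) * ‖φ g‖ ≤ ε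
      rw [h0, norm_zero, mul_zero]
      exact hε.le
    · refine nest_mono (hD g h0 ε hε) fun w K M hb => ?_
      obtain ⟨-, -, -, -, -, -, hle, -⟩ := hAv w K M
      have h1 := hle (fun e e' a n => D w K e e' a n g) ε hε.le hb
      have h2 := avR_nn hAv w K M (fun e e' a n => D w K e e' a n g)
        fun e e' a n => hD0 w K e e' a n g
      show (avR w K M fun e e' a n => D w K e e' a n g) * ‖φ g‖ ≤ ε
      have h3 := norm_nonneg (φ g)
      have h4 := hφ1 g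
      nlinarith

end IPFi

open IPFi in
/-- Item PFi. -/
theorem pr_PFi (hEv : S_Ev) (hNf : StNf) (hAv : StPAv) (hBz : StPBz) (hBl : StPBl) (hAl : StPAl)
    (hPt : StPPt) (hKp : StPKp) : StPFi := by
  intro X _ μ _ S A hA F σ _ V φ ψ hφm hψm hφ1 hψ1 hφP hψP ε hε
  set L : ℝ := Real.sqrt (σ.real Set.univ) + 1 with hLdef
  have hL1 : 1 ≤ L := by
    have := Real.sqrt_nonneg (σ.real Set.univ)
    linarith
  have hL : ∀ u : GG → ℂ, Measurable u → (∀ g, ‖u g‖ ≤ 1) → ‖V.V (bl σ u)‖ ≤ L := by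
    intro u hu h1
    have h2 := nsq hBl S F σ V u hu 1 h1
    have h3 : ∫ g, ‖u g‖ ^ 2 ∂σ ≤ ∫ _g, (1 : ℝ) ∂σ := by
      refine integral_mono (integrable_bdd (hu.norm.pow_const 2) 1 fun g => ?_)
        (integrable_const _) fun g => ?_
      · rw [abs_of_nonneg (by positivity)]
        exact pow_le_one₀ (norm_nonneg _) (h1 g)
      · exact pow_le_one₀ (norm_nonneg _) (h1 g)
    rw [integral_const, smul_eq_mul, mul_one] at h3
    have h4 : ‖V.V (bl σ u)‖ ≤ Real.sqrt (σ.real Set.univ) := by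
      apply Real.le_sqrt_of_sq_le
      rw [h2]; exact h3
    linarith
  set δ : ℝ := ε / (8 * L) with hδdef
  have hδ : 0 < δ := by positivity
  have hδ2 : 0 < δ ^ 2 := by positivity
  have N1 : Nest fun w K M => ∫ g, FF w K M (D1 w K) φ g ∂σ ≤ δ ^ 2 := by
    refine nestFF hAv hNf σ D1 (fun w K => D1_meas hEv w K) (fun w K => D1_nn w K)
      (fun w K => D1_le hEv w K) φ hφm hφ1 (fun g hg ε hε => ?_) _ hδ2
    exact nest_mono (hPt (ev g) (cm hEv g) (hφP g hg).1 ε hε) fun w K M h e e' => (h e e').1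
  have N2 : Nest fun w K M => ∫ g, FF w K M (D2 w K) ψ g ∂σ ≤ δ ^ 2 := by
    refine nestFF hAv hNf σ D2 (fun w K => D2_meas hEv w K) (fun w K => D2_nn w K)
      (fun w K => D2_le hEv w K) ψ hψm hψ1 (fun g hg ε hε => ?_) _ hδ2
    exact nest_mono (hPt (ev g) (cm hEv g) (hψP g hg) ε hε) fun w K M h e e' => (h e e').2
  have N3 : Nest fun w K _ => ∫ g, F3 w K φ g ∂σ ≤ δ ^ 2 := by
    refine hNf GG _ σ inferInstance (fun w K _ g => F3 w K φ g) 1 (fun w K M => ?_)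
      (fun w K M g => ?_) (Eventually.of_forall fun g => ?_) _ hδ2
    · exact ((Finset.measurable_fun_sum _ fun e _ => ev_meas hEv _).div_const _).norm.mul hφm.norm
    · rw [abs_of_nonneg (by unfold F3; positivity)]
      exact mul_le_one₀ (avg_ev_le hEv w K g) (norm_nonneg _) (hφ1 g)
    · intro ε hε
      by_cases h0 : φ g = 0
      · refine nest_all fun w K M => ?_
        show F3 w K φ g ≤ ε
        unfold F3
        rw [h0, norm_zero, mul_zero]
        exact hε.le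
      · obtain ⟨p, hp, hp1⟩ := hEv.2.2.2.1 g (hφP g h0).2
        refine nest_mono (hKp (ev g) (cm hEv g) ⟨p, hp, hp1⟩ ε hε) fun w K M hb => ?_
        show F3 w K φ g ≤ ε
        unfold F3
        exact (mul_le_of_le_one_right (norm_nonneg _) (hφ1 g)).trans hb
  refine nest_mono (nest_and N1 (nest_and N2 N3)) fun w K M h => ?_
  obtain ⟨h1, h2, h3⟩ := h
  refine (core hEv hAv hBz hBl hAl A hA S F σ V φ ψ hφm hψm hφ1 hψ1 w K M L δ hδ
    (by linarith) hL).trans ?_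
  have h4 : (2 * (∫ g, FF w K M (D1 w K) φ g ∂σ) +
        2 * (∫ g, FF w K M (D2 w K) ψ g ∂σ)) / δ ≤ 4 * δ := by
    rw [div_le_iff₀ hδ]
    nlinarith
  have h5 : (∫ g, F3 w K φ g ∂σ) / δ ≤ δ := by
    rw [div_le_iff₀ hδ]
    nlinarith
  have h6 : L * (2 * δ + 4 * δ) + (δ + δ) * L = ε := by
    rw [hδdef]
    field_simp
    ring
  rw [← h6]
  have hL0 : 0 ≤ L := by linarith
  gcongr

end Pool.Agent.F0f91f8.PC
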