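import Pool.Agent.Work.MP_0f91f8_co.PC.StmtsP
import Pool.Agent.Work.MP_0f91f8_co.HD.I_DKp

/-!
# Block PC, item PKp: averages over the exponents
-/

set_option autoImplicit false

namespace Pool.Agent.F0f91f8.PC

open Filter Topology ComplexConjugate MeasureTheory
open Pool.Agent.F0f91f8.HD Pool.Agent.F0f91f8.RC Pool.Agent.F0f91f8.KR Pool.Agent.F0f91f8.FC
open Pool.Agent.Work.MP_0f91f8_co.EF (GG ev S_Ev)
open scoped BigOperators

theorem pr_PKp : StPKp := by
  intro f hf hp ε hε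
  obtain ⟨p, hp, hfp⟩ := hp
  have h0 : 0 < ‖1 - f p‖ := by
    rw [norm_pos_iff, sub_ne_zero]
    exact fun h => hfp h.symm
  show ∀ᶠ w in atTop, ∀ᶠ K in atTop, ∀ᶠ M in atTop, _
  filter_upwards [eventually_ge_atTop p] with w hw
  have hK := tendsto_natCast_atTop_atTop (R := ℝ) |>.eventually_ge_atTop (2 / (ε * ‖1 - f p‖))
  filter_upwards [hK, eventually_ge_atTop 1] with K hK1 hK2
  refine Eventually.of_forall fun M => ?_
  have h1 := (pr_DKp f hf w K p hK2 hp hfp).1 hw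
  refine h1.trans ?_
  have hKr : (0 : ℝ) < K := by exact_mod_cast hK2
  rw [div_le_iff₀ (by positivity)] at hK1 ⊢
  linarith [mul_comm (K : ℝ) (ε * ‖1 - f p‖), mul_assoc ε (K : ℝ) ‖1 - f p‖,
    mul_left_comm (K : ℝ) ε ‖1 - f p‖]

end Pool.Agent.F0f91f8.PC
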