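import Pool.Agent.Work.MP_0f91f8_co.PC.StmtsP

/-!
# Block PC, module CP, item PPt: pretentious functions on the family, pointwise
-/

set_option autoImplicit false

namespace Pool.Agent.F0f91f8.PC

open Filter Topology ComplexConjugate
open Pool.Agent.F0f91f8.HD Pool.Agent.F0f91f8.RC Pool.Agent.F0f91f8.KR Pool.Agent.F0f91f8.FC
open Pool.Agent.F0f91f8.KR.IKTr Pool.Agent.F0f91f8.KR.IKFi Pool.Agent.F0f91f8.RC.IRFi
open Pool.Agent.F0f91f8.HD.DFi
open Pool.Agent.F0f91f8.KT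
open scoped BigOperators

namespace IPPt

/-- the exponents zero -/
def e0 (w K : ℕ) (hK : 0 < K) : Fin (w + 1) → Fin K := fun _ => ⟨0, hK⟩

theorem kp0 (w K : ℕ) (hK : 0 < K) : kp w K (e0 w K hK) = 1 := by
  unfold kp e0
  refine Finset.prod_eq_one fun p _ => ?_
  split_ifs
  · simp
  · rfl

theorem kR0 (w K : ℕ) (hK : 0 < K) : kR 1 w K (e0 w K hK) = w.factorial := by
  unfold kR
  rw [kp0]
  simp

theorem kR1 (w K : ℕ) (e : Fin (w + 1) → Fin K) : kR 1 w K e = w.factorial * kp w K e := by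
  unfold kR
  simp

theorem kp_pos (w K : ℕ) (e : Fin (w + 1) → Fin K) : 0 < kp w K e := by
  unfold kp
  refine Finset.prod_pos fun p _ => ?_
  split_ifs with h
  · exact Nat.pow_pos h.pos
  · exact one_pos

theorem tri {A B c D E : ℂ} {x y : ℝ} (h1 : ‖A - c * D * E‖ ≤ x) (h2 : ‖B - D * E‖ ≤ y)
    (hc : ‖c‖ ≤ 1) : ‖A - c * B‖ ≤ x + y := by
  have h3 : A - c * B = (A - c * D * E) - c * (B - D * E) := by ring
  rw [h3]
  refine (norm_sub_le _ _).trans ?_
  rw [norm_mul]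
  have h4 : ‖c‖ * ‖B - D * E‖ ≤ ‖B - D * E‖ := mul_le_of_le_one_left (norm_nonneg _) hc
  linarith

theorem tri2 {A B E : ℂ} {x y : ℝ} (h1 : ‖A - E‖ ≤ x) (h2 : ‖B - E‖ ≤ y) : ‖A - B‖ ≤ x + y := by
  have h3 : A - B = (A - E) - (B - E) := by ring
  rw [h3]
  exact (norm_sub_le _ _).trans (add_le_add h1 h2)

/-- the correlation of `x` and `z` -/
theorem ptZ {f g : ℕ → ℂ} {t : ℝ} {q : ℕ} (hd : Dec f g t q) {w K κ k : ℕ} (hw : 2 ≤ w)
    (hwK : w ≤ K) (hq : q ∣ w.factorial) (hPar : Par w K κ k) (M a n : ℕ)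
    (hc : (k * a) % w.factorial = 1 % w.factorial) (ha : 0 < a) (hn : 0 < n) :
    ‖f (tX κ k a n) * conj (f (tZ κ k a n)) -
        f (2 * κ) * ((conj (cQ g K M) * cL g K M) *
          (f n * conj (((k * a : ℕ) : ℂ) ^ (t * Complex.I)) * conj (gP g w K n)))‖ ≤
      PosD.HZ g t w K κ k M a n := by
  have p1 := all_RPZ f g t q hd w K κ k hw hwK hq hPar M a n hc ha hn
  rw [← Complex.norm_conj] at p1
  refine le_trans (le_of_eq ?_) p1
  congr 1
  simp only [map_sub, map_mul, Complex.conj_conj]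
  ring

end IPPt

open IPPt in
theorem pr_PPt : StPPt := by
  intro f hf hp ε hε
  obtain ⟨g, t, q, hd⟩ := pr_DDe f hf hp
  obtain ⟨C, hC, herr⟩ := PosD.err
  obtain ⟨-, -, -, hert, -, -, -⟩ := pr_DTl g hd.hg
  obtain ⟨δ, hδ⟩ : ∃ δ : ℝ, δ = ε / 8 := ⟨_, rfl⟩
  have hδ0 : 0 < δ := by rw [hδ]; positivity
  have hε8 : ε = 8 * δ := by rw [hδ]; ring
  show ∀ᶠ w in atTop, ∀ᶠ K in atTop, ∀ᶠ M in atTop, _
  filter_upwards [ev_inv C _ hδ0, eventually_ge_atTop q, eventually_ge_atTop 2]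
    with w hw1 hqw hw
  have hqd : q ∣ w.factorial := Nat.dvd_factorial hd.hq hqw
  filter_upwards [ev_of hert C _ hδ0, ev_inv (C * (1 + |t|)) _ hδ0, eventually_ge_atTop w]
    with K h1 h2 hwK
  have hK : 0 < K := by omega
  have b0 := eT_le g w K t C C δ le_rfl h1 h2 hw1
  obtain ⟨M0, hM0⟩ := herr g hd.hg t w K hw hwK δ hδ0
  filter_upwards [eventually_ge_atTop M0] with M hM e e'
  obtain ⟨hZe, hYe⟩ := hM0 M hM e e'
  obtain ⟨hZ0, hY0⟩ := hM0 M hM (e0 w K hK) e'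
  rw [kR0] at hZ0 hY0
  obtain ⟨hPar, -, -, -, -, -, hcong, -⟩ := all_KPr 1 w K e e' le_rfl hw hwK
  obtain ⟨hPar0, -, -, -, -, -, -, -⟩ := all_KPr 1 w K (e0 w K hK) e' le_rfl hw hwK
  rw [kR0] at hPar0
  obtain ⟨-, -, -, -, haddR, -, -⟩ := pr_DBx w.factorial (DR 1 w K) 1 M
  have hkp1 : ‖f (kp w K e)‖ ≤ 1 := (hf.2.2 _ (kp_pos w K e)).le
  have h2κ : f (2 * kR 1 w K e) = f (kp w K e) * f (2 * w.factorial) := by
    rw [kR1, ← hf.2.1]
    congr 1
    ring
  constructor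
  · refine (IDXm.BR_mono w.factorial (DR 1 w K) 1 M _
      (fun a s => PosD.HZ g t w K (kR 1 w K e) (kK 1 w K e') M a (w.factorial * s + 1) +
        PosD.HZ g t w K w.factorial (kK 1 w K e') M a (w.factorial * s + 1))
      (fun b s hb hs => ?_)).trans ?_
    · have p1 := ptZ hd hw hwK hqd hPar M (w.factorial * b + 1) (w.factorial * s + 1) (hcong b)
        (Nat.succ_pos _) (Nat.succ_pos _)
      have p2 := ptZ hd hw hwK hqd hPar0 M (w.factorial * b + 1) (w.factorial * s + 1) (hcong b)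
        (Nat.succ_pos _) (Nat.succ_pos _)
      rw [h2κ] at p1
      exact tri p1 p2 hkp1
    · rw [haddR]
      linarith
  · refine (IDXm.BR_mono w.factorial (DR 1 w K) 1 M _
      (fun a s => PosD.HY g t w K (kR 1 w K e) (kK 1 w K e') M a (w.factorial * s + 1) +
        PosD.HY g t w K w.factorial (kK 1 w K e') M a (w.factorial * s + 1))
      (fun b s hb hs => ?_)).trans ?_
    · have p1 := (all_RPY f g t q hd w K _ _ hw hwK hqd hPar M (w.factorial * b + 1)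
        (w.factorial * s + 1) (hcong b) (Nat.succ_pos _) (Nat.succ_pos _)).1
      have p2 := (all_RPY f g t q hd w K _ _ hw hwK hqd hPar0 M (w.factorial * b + 1)
        (w.factorial * s + 1) (hcong b) (Nat.succ_pos _) (Nat.succ_pos _)).1
      exact tri2 p1 p2
    · rw [haddR]
      linarith

end Pool.Agent.F0f91f8.PC
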