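import Pool.Agent.Work.MP_0f91f8_co.PC.StmtsP
import Pool.Agent.Work.MP_0f91f8_co.EF.Ev

/-!
# Block PC, module CP, item PRl: a function at finite distance of a pretentious one is pretentious
-/

set_option autoImplicit false

namespace Pool.Agent.F0f91f8.PC

open Filter Topology ComplexConjugate MeasureTheory
open Pool.Agent.F0f91f8.HD Pool.Agent.F0f91f8.RC Pool.Agent.F0f91f8.KR Pool.Agent.F0f91f8.FC
open Pool.Agent.Work.MP_0f91f8_co.EF (GG ev S_Ev)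
open scoped BigOperators

namespace IPRl

lemma ev_prime (g : GG) (p : Nat.Primes) : ev g p = (g p : ℂ) := by
  rw [Pool.Agent.Work.MP_0f91f8_co.EF.XEv.ev_pos g p.2.ne_zero,
    Pool.Agent.Work.MP_0f91f8_co.EF.XEv.pr_prime g p p.2]
  rfl

lemma dist_eq (g χ : GG) (p : Nat.Primes) :
    ‖ev g p - ev χ p‖ = ‖1 - (g p : ℂ) * conj (χ p : ℂ)‖ := by
  rw [ev_prime, ev_prime]
  have h1 : (χ p : ℂ) * conj (χ p : ℂ) = 1 := by
    rw [Complex.mul_conj, Complex.normSq_eq_norm_sq, Circle.norm_coe]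
    norm_num
  have h2 : ‖conj (χ p : ℂ)‖ = 1 := by rw [RCLike.norm_conj, Circle.norm_coe]
  calc ‖(g p : ℂ) - (χ p : ℂ)‖ = ‖(g p : ℂ) - (χ p : ℂ)‖ * ‖conj (χ p : ℂ)‖ := by
        rw [h2, mul_one]
    _ = ‖((g p : ℂ) - (χ p : ℂ)) * conj (χ p : ℂ)‖ := (norm_mul _ _).symm
    _ = ‖(g p : ℂ) * conj (χ p : ℂ) - 1‖ := by rw [sub_mul, h1]
    _ = ‖1 - (g p : ℂ) * conj (χ p : ℂ)‖ := norm_sub_rev _ _

end IPRl

theorem pr_PRl : StPRl := by
  intro g χ hR hP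
  obtain ⟨q, hq, ψ, t, hs⟩ := hP
  refine ⟨q, hq, ψ, t, ?_⟩
  have h1 : Summable fun p : Nat.Primes => ‖ev g p - ev χ p‖ ^ 2 / ((p : ℕ) : ℝ) := by
    refine hR.congr ?_
    intro p
    rw [IPRl.dist_eq]
  refine Summable.of_nonneg_of_le (fun p => by positivity) (fun p => ?_)
    ((h1.mul_left 2).add (hs.mul_left 2))
  have hp : (0 : ℝ) < ((p : ℕ) : ℝ) := by exact_mod_cast p.2.pos
  rw [← mul_div_assoc, ← mul_div_assoc, ← add_div]
  refine div_le_div_of_nonneg_right ?_ hp.le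
  set a := ev g p - ev χ p with ha
  set b := ev χ p - ψ ((p : ℕ) : ZMod q) * ((p : ℕ) : ℂ) ^ (t * Complex.I) with hb
  have h2 : ev g p - ψ ((p : ℕ) : ZMod q) * ((p : ℕ) : ℂ) ^ (t * Complex.I) = a + b := by
    rw [ha, hb]
    ring
  rw [h2]
  have h3 := norm_add_le a b
  have h4 := norm_nonneg (a + b)
  nlinarith [sq_nonneg (‖a‖ - ‖b‖), norm_nonneg a, norm_nonneg b]

end Pool.Agent.F0f91f8.PC
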