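import Pool.Agent.Work.MP_0f91f8_co.PC.I_PAv
import Pool.Agent.Work.MP_0f91f8_co.PC.I_PBz
import Pool.Agent.Work.MP_0f91f8_co.PC.I_PBl
import Pool.Agent.Work.MP_0f91f8_co.PC.I_PAl
import Pool.Agent.Work.MP_0f91f8_co.PC.I_PPt
import Pool.Agent.Work.MP_0f91f8_co.PC.I_PKp
import Pool.Agent.Work.MP_0f91f8_co.PC.I_PRl
import Pool.Agent.Work.MP_0f91f8_co.PC.I_PFi
import Pool.Agent.Work.MP_0f91f8_co.PC.I_PCl
import Pool.Agent.Work.MP_0f91f8_co.PC.I_Nf
import Pool.Agent.Work.MP_0f91f8_co.PC.I_VUn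
import Pool.Agent.Work.MP_0f91f8_co.EF.Ev

/-!
# Block PC, module P: composition, no hypotheses (helper43)
-/

set_option autoImplicit false

namespace Pool.Agent.F0f91f8.PC

open Pool.Agent.Work.MP_0f91f8_co.EF

/-- both functions live on pretentious characters -/
theorem all_PFi : StPFi :=
  pr_PFi Ev_pf pr_Nf pr_PAv pr_PBz pr_PBl (pr_PAl Ev_pf pr_VUn) pr_PPt pr_PKp

/-- `ClpS` from the module of helper75 -/
theorem clpS_of (hNPc : StNPc) (hClm : StClm) : ClpS := pr_PCl hNPc hClm pr_PRl all_PFi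

end Pool.Agent.F0f91f8.PC
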