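import Pool.Agent.Work.MP_0f91f8_co.PC.StmtsC
import Pool.Agent.Work.MP_0f91f8_co.K.StmtsW

/-!
# Block PC, assembly: statements with complete proofs (helper40)

Item `X`: statement `StX`, file `PC/I_X.lean`, theorem `pr_X`, namespace `Pool.Agent.F0f91f8.PC`. `KR.StAvL`, `KR.StAvP` are
proved on main (`K/I_AvL.lean`, `K/I_AvP.lean`).
-/

set_option autoImplicit false

namespace Pool.Agent.F0f91f8.PC

open Filter Topology ComplexConjugate MeasureTheory
open Pool.Agent.F0f91f8.HD Pool.Agent.F0f91f8.RC Pool.Agent.F0f91f8.KR Pool.Agent.F0f91f8.FC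
open Pool.Agent.Work.MP_0f91f8_co.EF (GG ev)
open scoped BigOperators

/-- the average of the trilinear form of two spectral projections -/
noncomputable def Lm {X : Type} [MeasurableSpace X] {μ : Measure X} (S : Sys μ) (A : Set X)
    {σ : Measure GG} (V : SpV S (b1 μ A) σ) (w K M : ℕ) (E F : Set GG) : ℂ :=
  AvK 1 w K M fun x y z => bt S A z (U S x (V.V (b1 σ E))) (U S y (V.V (b1 σ F)))

/-- [DA] (EASY-MEDIUM) `Lm` is additive in disjoint sets and bounded. `b1 σ (E ∪ E') = b1 σ E + b1 σ E'` for disjoint measurable sets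
(`Set.indicator_union_of_disjoint`, `MemLp.toLp_add`; `bl` is `toLp` as bounded measurable functions are in `L²`), `V.V` and `U S x` are
linear, `bt` is biadditive (`StCB`, symmetry), `AvK` is additive (`StAvL`). Bound: `‖bt‖ ≤ ‖V (b1 E)‖ ‖V (b1 F)‖ ≤ sqrt (σ E) sqrt (σ F)`
(`StCB`, `StCV`, `U` isometry), and the norm of a mean is at most the bound (`StAvP`). `b1 σ ∅ = 0`.
(hAL : StAvL) (hAP : StAvP) (hU : StCU) (hB : StCB) (hV : StCV) -/
def StDA : Prop := ∀ (X : Type) (_ : MeasurableSpace X) (μ : Measure X) (_ : IsProbabilityMeasure μ)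
  (S : Sys μ) (A : Set X), MeasurableSet A → ∀ (σ : Measure GG) (_ : IsFiniteMeasure σ)
  (V : SpV S (b1 μ A) σ) (w K M : ℕ), 0 < K → 0 < M → ∀ E E' F : Set GG,
  MeasurableSet E → MeasurableSet E' → MeasurableSet F →
  (Disjoint E E' → Lm S A V w K M (E ∪ E') F = Lm S A V w K M E F + Lm S A V w K M E' F) ∧
  (Disjoint E E' → Lm S A V w K M F (E ∪ E') = Lm S A V w K M F E + Lm S A V w K M F E') ∧
  ‖Lm S A V w K M E F‖ ≤ Real.sqrt (σ.real E) * Real.sqrt (σ.real F) ∧
  Lm S A V w K M ∅ F = 0 ∧ Lm S A V w K M F ∅ = 0 ∧ σ.real E ≤ 1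

/-- [DB] (MEDIUM) the decomposition. `G = (⋃ C)ᶜ`, `D = ⋃_{j<N} C j`, `R = ⋃_{j≥N} C j`, `univ = G ⊔ D ⊔ R`, all minus `1` in the first slot. With
`L = Lm`: `L(univ, univ) = L({1}, univ) + L(G∖1, univ) + L(D∖1, univ) + L(R∖1, univ)`, `L(D∖1, univ) = L(D∖1, G) + L(D∖1, D) + L(D∖1, R)`, and
`L(D∖1, D) = ∑_{j<N} ∑_{k<N} L(C j∖1, C k)` (induction on the number of sets). The terms with `R` are `≤ sqrt (σ R)`.
(hDA : StDA) -/
def StDB : Prop := ∀ (X : Type) (_ : MeasurableSpace X) (μ : Measure X) (_ : IsProbabilityMeasure μ)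
  (S : Sys μ) (A : Set X), MeasurableSet A → ∀ (σ : Measure GG) (_ : IsFiniteMeasure σ)
  (V : SpV S (b1 μ A) σ) (C : ℕ → Set GG), (∀ j, MeasurableSet (C j)) →
  (∀ i j, i ≠ j → Disjoint (C i) (C j)) → ∀ w K M N : ℕ, 0 < K → 0 < M →
  ‖Lm S A V w K M Set.univ Set.univ - Lm S A V w K M {1} Set.univ‖ ≤
    ‖Lm S A V w K M ((⋃ j, C j)ᶜ \ {1}) Set.univ‖ +
    ‖Lm S A V w K M ((⋃ j ∈ Finset.range N, C j) \ {1}) ((⋃ j, C j)ᶜ)‖ +
    (∑ j ∈ Finset.range N, ∑ k ∈ Finset.range N, ‖Lm S A V w K M (C j \ {1}) (C k)‖) +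
    2 * Real.sqrt (σ.real (⋃ j ∈ Set.Ici N, C j))

/-- [FXa] (MEDIUM) `FinX`. `σ`, `V` from `SpecS` for `F = b1 μ A`, `C`, `χ` from `ClsS`. `N` with `2 sqrt (σ (⋃_{j≥N} C j)) ≤ ε/8` (the sets decrease to
`∅`, finite measure). `MainS` with `ε/8` (`b1 μ A = V (b1 univ)`), `ClpS` with `ε/(8 (N+1)²)` for all pairs `χ j`, `χ k`, `j, k < N` (`StNst`; if `C j` or `C k`
is empty the term is `0`), `ContS` with `ε/8` for `(E, E', F, F') = (G∖1, univ, D∖1, G)`, `G = (⋃ C)ᶜ` (`Cn σ G` from `ClsS`, so `Cn σ (G∖1)`: subsets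
have it too). All hold for some `w, K, M` with `K, M > 0` (`∃ᶠ` and `∀ᶠ`). By `StDB` the real part of `Lm univ univ` is at least
`μ(A)³ - ε/8 - 4 ε/8 > μ(A)³ - ε`. `Lm univ univ` is the mean of the numbers `μ.real {t | T x t ∈ A ∧ ..}` over the triples of the family (`StCB`
last part, `V (b1 univ) = b1 μ A`); if all of them with `x² + y² = z²` were `< c = μ(A)³ - ε` the mean would be `≤ c` (in `AvK` all triples
are `tX, tY, tZ`, `tXYZ`, positive): use `Φ' x y z = if x² + y² = z² then Φ x y z else 0` (the same mean, unfold `AvK`, `BxR`, `Bx`).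
(hSp : SpecS) (hCl : ClsS) (hCo : ContS) (hCp : ClpS) (hMn : MainS) (hAL : StAvL) (hAP : StAvP) (hNs : StNst) (hU hB hV) (hDA : StDA) (hDB : StDB) -/
def StFXa : Prop := FinX

/-- [DM] (EASY-MEDIUM) `FinPM`. The system of `SysS` for `m`, `A`; `LPC (dd S B)` from `LPC` of the hypothesis (the primes and the `q i` are
positive, so the numbers agree); `μ.real B = m (ind A)` (`a = b = c = 1`: `{x | T 1 x ∈ B}` has the measure of `B`, `T 1` preserves the
measure; `1 * n = n`). `FinX` gives the triple. (hSy : SysS) (hX : FinX) -/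
def StDM : Prop := FinPM

/-- [DC] (EASY-MEDIUM) `FinPC`. Mean `m` from `FC.MeanS`. The sets `A i = {n | c n = i}`, `i < r`, have indicators with sum `1`, so some
`m (ind (A i)) > 0`; `A := A i`, `ε = m (ind A)^3/2`. `LPC`: for `R`, `δ` take `J`, and `Y`, `D` from the hypothesis; number the elements of `D` by
`Fin J` (`D.equivFin`, `card ≤ J`); `q i` = a prime `p` with `cl p` the `i`-th element if there is one, else `1`; `cl' p` = the index of `cl p` if
`cl p ∈ D`, else `none`. For a prime `p` with `cl' p = some i` the prime `q i` has `cl (q i) = cl p`, so `c (p n) = c (q n)` for all `n` (`n = 0`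
trivial) and the set of `LPC` is empty, mean `0`. The sum is the same. `FinPM`: the set `{n | x n ∈ A ∧ ..}` has positive mean, so it contains an
`n > 0` (the mean of a function vanishing at all `n > 0` is `0`); `(x n, y n, z n)` is the triple. (hMe : FC.MeanS) (hM : FinPM) -/
def StDC : Prop := FinPC

end Pool.Agent.F0f91f8.PC
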