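import Mathlib
import Pool.Agent.Work.MP_0f91f8_co.PC.StmtsA

/-!
# Block PC, item DA: `Lm` is additive and bounded
-/

set_option autoImplicit false

namespace Pool.Agent.F0f91f8.PC

open Filter Topology ComplexConjugate MeasureTheory
open Pool.Agent.F0f91f8.HD Pool.Agent.F0f91f8.RC Pool.Agent.F0f91f8.KR Pool.Agent.F0f91f8.FC
open Pool.Agent.Work.MP_0f91f8_co.EF (GG ev)
open scoped BigOperators

namespace IDA

theorem mem {Y : Type} [MeasurableSpace Y] (ν : Measure Y) [IsFiniteMeasure ν] {E : Set Y}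
    (hE : MeasurableSet E) : MemLp (E.indicator fun _ => (1 : ℂ)) 2 ν :=
  memLp_indicator_const 2 hE 1 (Or.inr (measure_ne_top _ _))

theorem b1_eq {Y : Type} [MeasurableSpace Y] (ν : Measure Y) [IsFiniteMeasure ν] {E : Set Y}
    (hE : MeasurableSet E) : b1 ν E = (mem ν hE).toLp _ := by
  unfold b1 bl
  exact dif_pos (mem ν hE)

theorem b1_union {Y : Type} [MeasurableSpace Y] (ν : Measure Y) [IsFiniteMeasure ν] {E E' : Set Y}
    (hE : MeasurableSet E) (hE' : MeasurableSet E') (h : Disjoint E E') :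
    b1 ν (E ∪ E') = b1 ν E + b1 ν E' := by
  rw [b1_eq ν hE, b1_eq ν hE', b1_eq ν (hE.union hE'), ← MemLp.toLp_add]
  refine MemLp.toLp_congr _ _ ?_
  rw [Set.indicator_union_of_disjoint h]
  exact Filter.EventuallyEq.rfl

end IDA

theorem pr_DA (hAL : KR.StAvL) (hAP : KR.StAvP) (hB : StCB) (hV : StCV) : StDA := by
  intro X _ μ _ S A hA σ _ V w K M hK hM E E' F hE hE' hF
  obtain ⟨hb1, hb2, hb3, -, -, -, -⟩ := hB X _ μ inferInstance S A hA
  have bound : ∀ P Q : Set GG, MeasurableSet P → MeasurableSet Q →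
      ‖Lm S A V w K M P Q‖ ≤ Real.sqrt (σ.real P) * Real.sqrt (σ.real Q) := by
    intro P Q hP hQ
    have nrm : ∀ P : Set GG, MeasurableSet P → ‖V.V (b1 σ P)‖ = Real.sqrt (σ.real P) := by
      intro P hP
      have h := (hV X _ μ inferInstance S A hA σ inferInstance V P hP).2.2.1
      rw [← h, Real.sqrt_sq (norm_nonneg _)]
    have h1 : ∀ x y z : ℕ, ‖bt S A z (U S x (V.V (b1 σ P))) (U S y (V.V (b1 σ Q)))‖ ≤
        Real.sqrt (σ.real P) * Real.sqrt (σ.real Q) := by
      intro x y z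
      refine (hb1 _ _ _).trans (le_of_eq ?_)
      rw [(U S x).norm_map, (U S y).norm_map, nrm P hP, nrm Q hQ]
    unfold Lm
    have h2 := (hAP 1 w K M hK hM).2.1
      (fun x y z => bt S A z (U S x (V.V (b1 σ P))) (U S y (V.V (b1 σ Q))))
      (fun _ _ _ => Real.sqrt (σ.real P) * Real.sqrt (σ.real Q)) (fun x y z _ _ _ => h1 x y z)
    refine h2.trans (le_of_eq ?_)
    have h3 := (hAL 1 w K M).2.1 (fun _ _ _ => (1 : ℂ))
      ((Real.sqrt (σ.real P) * Real.sqrt (σ.real Q) : ℝ) : ℂ)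
    rw [(hAP 1 w K M hK hM).2.2] at h3
    simp only [mul_one] at h3
    rw [h3, Complex.ofReal_re]
  refine ⟨?_, ?_, bound E F hE hF, ?_, ?_, ?_⟩
  · intro hd
    unfold Lm
    rw [← (hAL 1 w K M).1]
    congr 1
    funext x y z
    rw [IDA.b1_union σ hE hE' hd, map_add, map_add, hb3]
  · intro hd
    unfold Lm
    rw [← (hAL 1 w K M).1]
    congr 1
    funext x y z
    rw [IDA.b1_union σ hE hE' hd, map_add, map_add, hb2, hb3, hb2 z _ (U S x _),
      hb2 z _ (U S x _)]
  · have h := bound ∅ F MeasurableSet.empty hF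
    rw [measureReal_empty, Real.sqrt_zero, zero_mul] at h
    exact norm_le_zero_iff.mp h
  · have h := bound F ∅ hF MeasurableSet.empty
    rw [measureReal_empty, Real.sqrt_zero, mul_zero] at h
    exact norm_le_zero_iff.mp h
  · exact (measureReal_mono (Set.subset_univ E)).trans
      (hV X _ μ inferInstance S A hA σ inferInstance V E hE).1

end Pool.Agent.F0f91f8.PC
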