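import Mathlib
import Pool.Agent.Work.MP_0f91f8_co.PC.StmtsA

/-!
# Block PC, item DB: the decomposition
-/

set_option autoImplicit false

namespace Pool.Agent.F0f91f8.PC

open Filter Topology ComplexConjugate MeasureTheory
open Pool.Agent.F0f91f8.HD Pool.Agent.F0f91f8.RC Pool.Agent.F0f91f8.KR Pool.Agent.F0f91f8.FC
open Pool.Agent.Work.MP_0f91f8_co.EF (GG ev)
open scoped BigOperators

namespace IDB

section
variable {Y : Type} [MeasurableSpace Y]

theorem range_succ_union (C : ℕ → Set Y) (n : ℕ) :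
    (⋃ j ∈ Finset.range (n + 1), C j) = (⋃ j ∈ Finset.range n, C j) ∪ C n := by
  ext x
  simp only [Set.mem_iUnion, Finset.mem_range, Set.mem_union, exists_prop]
  constructor
  · rintro ⟨j, hj, hx⟩
    rcases Nat.lt_succ_iff_lt_or_eq.mp hj with h | h
    · exact Or.inl ⟨j, h, hx⟩
    · exact Or.inr (h ▸ hx)
  · rintro (⟨j, hj, hx⟩ | hx)
    · exact ⟨j, by omega, hx⟩
    · exact ⟨n, by omega, hx⟩

theorem meas_range (C : ℕ → Set Y) (hC : ∀ j, MeasurableSet (C j)) (n : ℕ) :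
    MeasurableSet (⋃ j ∈ Finset.range n, C j) :=
  Finset.measurableSet_biUnion _ fun j _ => hC j

theorem disj_range (C : ℕ → Set Y) (hd : ∀ i j, i ≠ j → Disjoint (C i) (C j)) (n m : ℕ)
    (hm : n ≤ m) : Disjoint (⋃ j ∈ Finset.range n, C j) (C m) := by
  rw [Set.disjoint_left]
  intro x hx hx'
  simp only [Set.mem_iUnion, Finset.mem_range, exists_prop] at hx
  obtain ⟨j, hj, hx⟩ := hx
  exact Set.disjoint_left.mp (hd j m (by omega)) hx hx'

theorem sum_first (L : Set Y → Set Y → ℂ)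
    (hadd : ∀ E E' F : Set Y, MeasurableSet E → MeasurableSet E' → MeasurableSet F →
      Disjoint E E' → L (E ∪ E') F = L E F + L E' F)
    (h0 : ∀ F : Set Y, MeasurableSet F → L ∅ F = 0) (o : Set Y) (ho : MeasurableSet o)
    (C : ℕ → Set Y) (hC : ∀ j, MeasurableSet (C j))
    (hd : ∀ i j, i ≠ j → Disjoint (C i) (C j)) (F : Set Y) (hF : MeasurableSet F) (n : ℕ) :
    ‖L ((⋃ j ∈ Finset.range n, C j) \ o) F‖ ≤ ∑ j ∈ Finset.range n, ‖L (C j \ o) F‖ := by
  induction n with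
  | zero =>
    have h : ((⋃ j ∈ Finset.range 0, C j) \ o : Set Y) = ∅ := by simp
    rw [h, h0 F hF]
    simp
  | succ n ih =>
    rw [range_succ_union, Set.union_sdiff_distrib, Finset.sum_range_succ,
      hadd _ _ _ ((meas_range C hC n).diff ho) ((hC n).diff ho) hF
        ((disj_range C hd n n le_rfl).mono Set.sdiff_subset Set.sdiff_subset)]
    exact (norm_add_le _ _).trans (add_le_add ih le_rfl)

theorem sum_second (L : Set Y → Set Y → ℂ)
    (hadd : ∀ E E' F : Set Y, MeasurableSet E → MeasurableSet E' → MeasurableSet F →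
      Disjoint E E' → L F (E ∪ E') = L F E + L F E')
    (h0 : ∀ F : Set Y, MeasurableSet F → L F ∅ = 0)
    (C : ℕ → Set Y) (hC : ∀ j, MeasurableSet (C j))
    (hd : ∀ i j, i ≠ j → Disjoint (C i) (C j)) (F : Set Y) (hF : MeasurableSet F) (n : ℕ) :
    ‖L F (⋃ j ∈ Finset.range n, C j)‖ ≤ ∑ j ∈ Finset.range n, ‖L F (C j)‖ := by
  induction n with
  | zero =>
    have h : (⋃ j ∈ Finset.range 0, C j : Set Y) = ∅ := by simp
    rw [h, h0 F hF]
    simp
  | succ n ih =>
    rw [range_succ_union, Finset.sum_range_succ,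
      hadd _ _ _ (meas_range C hC n) (hC n) hF (disj_range C hd n n le_rfl)]
    exact (norm_add_le _ _).trans (add_le_add ih le_rfl)

theorem core (σ : Measure Y) [IsFiniteMeasure σ] (L : Set Y → Set Y → ℂ)
    (hL : ∀ E E' F : Set Y, MeasurableSet E → MeasurableSet E' → MeasurableSet F →
      (Disjoint E E' → L (E ∪ E') F = L E F + L E' F) ∧
      (Disjoint E E' → L F (E ∪ E') = L F E + L F E') ∧
      ‖L E F‖ ≤ Real.sqrt (σ.real E) * Real.sqrt (σ.real F) ∧
      L ∅ F = 0 ∧ L F ∅ = 0 ∧ σ.real E ≤ 1)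
    (o : Set Y) (ho : MeasurableSet o) (C : ℕ → Set Y) (hC : ∀ j, MeasurableSet (C j))
    (hd : ∀ i j, i ≠ j → Disjoint (C i) (C j)) (N : ℕ) :
    ‖L Set.univ Set.univ - L o Set.univ‖ ≤
      ‖L ((⋃ j, C j)ᶜ \ o) Set.univ‖ +
      ‖L ((⋃ j ∈ Finset.range N, C j) \ o) ((⋃ j, C j)ᶜ)‖ +
      (∑ j ∈ Finset.range N, ∑ k ∈ Finset.range N, ‖L (C j \ o) (C k)‖) +
      2 * Real.sqrt (σ.real (⋃ j ∈ Set.Ici N, C j)) := by
  have hadd1 : ∀ E E' F : Set Y, MeasurableSet E → MeasurableSet E' → MeasurableSet F →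
      Disjoint E E' → L (E ∪ E') F = L E F + L E' F := fun E E' F h h' h'' => (hL E E' F h h' h'').1
  have hadd2 : ∀ E E' F : Set Y, MeasurableSet E → MeasurableSet E' → MeasurableSet F →
      Disjoint E E' → L F (E ∪ E') = L F E + L F E' :=
    fun E E' F h h' h'' => (hL E E' F h h' h'').2.1
  have hbd : ∀ E F : Set Y, MeasurableSet E → MeasurableSet F →
      ‖L E F‖ ≤ Real.sqrt (σ.real E) * Real.sqrt (σ.real F) :=
    fun E F h h' => (hL E E F h h h').2.2.1
  have h01 : ∀ F : Set Y, MeasurableSet F → L ∅ F = 0 := fun F h => (hL F F F h h h).2.2.2.1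
  have h02 : ∀ F : Set Y, MeasurableSet F → L F ∅ = 0 := fun F h => (hL F F F h h h).2.2.2.2.1
  have hone : ∀ F : Set Y, MeasurableSet F → σ.real F ≤ 1 := fun F h => (hL F F F h h h).2.2.2.2.2
  have hsq : ∀ F : Set Y, MeasurableSet F → Real.sqrt (σ.real F) ≤ 1 := by
    intro F h
    rw [← Real.sqrt_one]
    exact Real.sqrt_le_sqrt (hone F h)
  set G : Set Y := (⋃ j, C j)ᶜ with hG
  set D : Set Y := ⋃ j ∈ Finset.range N, C j with hD
  set R : Set Y := ⋃ j ∈ Set.Ici N, C j with hR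
  have mG : MeasurableSet G := (MeasurableSet.iUnion hC).compl
  have mD : MeasurableSet D := meas_range C hC N
  have mR : MeasurableSet R := MeasurableSet.biUnion (Set.to_countable _) fun j _ => hC j
  have mu : MeasurableSet (Set.univ : Set Y) := MeasurableSet.univ
  have hDR : Disjoint D R := by
    rw [Set.disjoint_left]
    intro x hx hx'
    rw [hD] at hx
    rw [hR] at hx'
    simp only [Set.mem_iUnion, Finset.mem_range, exists_prop, Set.mem_Ici] at hx hx'
    obtain ⟨j, hj, hx⟩ := hx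
    obtain ⟨k, hk, hx'⟩ := hx'
    exact Set.disjoint_left.mp (hd j k (by omega)) hx hx'
  have hDU : D ∪ R = Gᶜ := by
    rw [hG, compl_compl]
    ext x
    rw [hD, hR]
    simp only [Set.mem_union, Set.mem_iUnion, Finset.mem_range, exists_prop, Set.mem_Ici]
    constructor
    · rintro (⟨j, -, hx⟩ | ⟨j, -, hx⟩)
      · exact ⟨j, hx⟩
      · exact ⟨j, hx⟩
    · rintro ⟨j, hx⟩
      rcases lt_or_ge j N with h | h
      · exact Or.inl ⟨j, h, hx⟩
      · exact Or.inr ⟨j, h, hx⟩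
  have hGDR : Disjoint G (D ∪ R) := by
    rw [hDU]
    exact disjoint_compl_right
  have huniv : (Set.univ : Set Y) = G ∪ (D ∪ R) := by
    rw [hDU, Set.union_compl_self]
  -- first slot
  have e1 : L Set.univ Set.univ = L o Set.univ + L (oᶜ) Set.univ := by
    rw [← hadd1 o oᶜ Set.univ ho ho.compl mu disjoint_compl_right, Set.union_compl_self]
  have hoc : (oᶜ : Set Y) = (G \ o) ∪ ((D \ o) ∪ (R \ o)) := by
    rw [← Set.union_sdiff_distrib, ← Set.union_sdiff_distrib, ← huniv, Set.compl_eq_univ_sdiff]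
  have e2 : L (oᶜ) Set.univ = L (G \ o) Set.univ + (L (D \ o) Set.univ + L (R \ o) Set.univ) := by
    rw [hoc, hadd1 _ _ _ (mG.diff ho) ((mD.diff ho).union (mR.diff ho)) mu,
      hadd1 _ _ _ (mD.diff ho) (mR.diff ho) mu (hDR.mono Set.sdiff_subset Set.sdiff_subset)]
    rw [← Set.union_sdiff_distrib]
    exact hGDR.mono Set.sdiff_subset Set.sdiff_subset
  have e3 : L (D \ o) Set.univ = L (D \ o) G + (L (D \ o) D + L (D \ o) R) := by
    conv_lhs => rw [huniv]
    rw [hadd2 _ _ _ mG (mD.union mR) (mD.diff ho) hGDR,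
      hadd2 _ _ _ mD mR (mD.diff ho) hDR]
  have b1 : ‖L (R \ o) Set.univ‖ ≤ Real.sqrt (σ.real R) := by
    refine (hbd _ _ (mR.diff ho) mu).trans ?_
    have h1 : Real.sqrt (σ.real (R \ o)) ≤ Real.sqrt (σ.real R) :=
      Real.sqrt_le_sqrt (measureReal_mono Set.sdiff_subset (measure_ne_top σ R))
    calc Real.sqrt (σ.real (R \ o)) * Real.sqrt (σ.real Set.univ)
        ≤ Real.sqrt (σ.real R) * 1 :=
          mul_le_mul h1 (hsq _ mu) (Real.sqrt_nonneg _) (Real.sqrt_nonneg _)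
      _ = Real.sqrt (σ.real R) := mul_one _
  have b2 : ‖L (D \ o) R‖ ≤ Real.sqrt (σ.real R) := by
    refine (hbd _ _ (mD.diff ho) mR).trans ?_
    calc Real.sqrt (σ.real (D \ o)) * Real.sqrt (σ.real R)
        ≤ 1 * Real.sqrt (σ.real R) :=
          mul_le_mul_of_nonneg_right (hsq _ (mD.diff ho)) (Real.sqrt_nonneg _)
      _ = Real.sqrt (σ.real R) := one_mul _
  have b3 : ‖L (D \ o) D‖ ≤
      ∑ j ∈ Finset.range N, ∑ k ∈ Finset.range N, ‖L (C j \ o) (C k)‖ := by
    refine (sum_first L hadd1 h01 o ho C hC hd D mD N).trans ?_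
    apply Finset.sum_le_sum
    intro j _
    exact sum_second L hadd2 h02 C hC hd (C j \ o) ((hC j).diff ho) N
  have e4 : L Set.univ Set.univ - L o Set.univ =
      L (G \ o) Set.univ + L (D \ o) G + L (D \ o) D + (L (D \ o) R + L (R \ o) Set.univ) := by
    rw [e1, e2, e3]
    ring
  rw [e4]
  have n1 := norm_add_le (L (G \ o) Set.univ + L (D \ o) G + L (D \ o) D)
    (L (D \ o) R + L (R \ o) Set.univ)
  have n2 := norm_add_le (L (G \ o) Set.univ + L (D \ o) G) (L (D \ o) D)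
  have n3 := norm_add_le (L (G \ o) Set.univ) (L (D \ o) G)
  have n4 := norm_add_le (L (D \ o) R) (L (R \ o) Set.univ)
  linarith

end

end IDB

theorem pr_DB (hDA : StDA) : StDB := by
  intro X mX μ hμ S A hA σ hσ V C hC hd w K M N hK hM
  have h1 : MeasurableSet ({1} : Set GG) := measurableSet_singleton 1
  exact IDB.core σ (Lm S A V w K M) (fun E E' F hE hE' hF =>
    hDA X mX μ hμ S A hA σ hσ V w K M hK hM E E' F hE hE' hF) {1} h1 C hC hd N

end Pool.Agent.F0f91f8.PC
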