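import Pool.Agent.Work.MP_0f91f8_co.PC.StmtsA
import Pool.Agent.Work.MP_0f91f8_co.PC.StmtsG
import Pool.Agent.Work.MP_0f91f8_co.PC.StmtsV

/-!
# Block PC, UNIFORM AND SIMULTANEOUS FORM: the length `R` of the windows `(Y, Y^R]` depends only on `ε`, and one triple serves
finitely many sets (helper40). Statements with complete proofs; mostly small changes of landed files.

Item `X`: statement `StX`, file `PC/I_X.lean`, theorem `pr_X`, namespace `Pool.Agent.F0f91f8.PC`.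
-/

set_option autoImplicit false

namespace Pool.Agent.F0f91f8.PC

open Filter Topology ComplexConjugate MeasureTheory
open Pool.Agent.F0f91f8.HD Pool.Agent.F0f91f8.RC Pool.Agent.F0f91f8.KR Pool.Agent.F0f91f8.FC
open Pool.Agent.Work.MP_0f91f8_co.EF (GG ev)
open scoped BigOperators

/-- locally totally bounded along the primes of the windows `(Y, Y^R]`, for arbitrarily large `Y` -/
def LPR (R : ℕ) (d : ℕ → ℕ → ℝ) : Prop :=
  ∀ δ : ℝ, 0 < δ → ∃ J : ℕ, ∀ Y₀ : ℕ, ∃ Y ≥ Y₀, ∃ (q : Fin J → ℕ) (cl : ℕ → Option (Fin J)),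
    (∀ i, 0 < q i) ∧ (∀ (p : ℕ) (i : Fin J), p.Prime → cl p = some i → d p (q i) ≤ δ) ∧
    ∑ p ∈ (Finset.Icc 1 (Y ^ R)).filter (fun p => p.Prime ∧ Y < p ∧ cl p = none), 1 / (p : ℝ) ≤ δ

open Classical in
/-- BAD MEMBERS ARE RARE, `R₁` depends only on `δ₁` -/
def GoodR : Prop := ∃ C : ℝ, 0 < C ∧ ∀ δ₁ : ℝ, 0 < δ₁ → ∃ R₁ : ℕ, ∀ w K : ℕ, 10 ≤ w → w ≤ K → ∀ R ≥ R₁,
  ∃ (E₀ : ℕ) (δ : ℝ), 0 < δ ∧ ∃ Y₁ : ℕ, ∀ Y ≥ Y₁, ∀ cl0 : ℕ → Prop,
  ∑ p ∈ (Finset.Icc 1 (Y ^ (3 * R))).filter (fun p => p.Prime ∧ Y < p ∧ cl0 p), 1 / (p : ℝ) ≤ δ →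
  ∀ (e : Fin (w + 1) → Fin K) (e' : Fin (K + 1) → Fin K),
  BRK 1 w K (Y ^ R) (fun a n =>
    if Gm w K (kR 1 w K e) (kK 1 w K e') a n Y
      (3 * kK 1 w K e' * w.factorial * DR 1 w K * Y ^ R) E₀ (3 * R) cl0 then 0 else 1) ≤ C / w + δ₁

/-- THE CONTINUOUS PART DISAPPEARS, finitely many sets at the same scales, `R` depends only on `ε` -/
def ContR : Prop := ∀ ε : ℝ, 0 < ε → ∃ R : ℕ, ∀ (X : Type) (_ : MeasurableSpace X) (μ : Measure X)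
  (_ : IsProbabilityMeasure μ) (S : Sys μ) (d : ℕ → ℕ → ℝ), LPR R d →
  ∀ (ι : Type) (_ : Fintype ι) (A : ι → Set X), (∀ i, MeasurableSet (A i)) →
  (∀ i (p q : ℕ), dd S (A i) p q ≤ d p q) →
  ∀ (σ : ι → Measure GG) (_ : ∀ i, IsFiniteMeasure (σ i)) (V : ∀ i, SpV S (b1 μ (A i)) (σ i))
  (E E' : ι → Set GG), (∀ i, MeasurableSet (E i)) → (∀ i, MeasurableSet (E' i)) →
  (∀ i, Cn (σ i) (E i) ∨ Cn (σ i) (E' i)) →
  ∀ᶠ w in atTop, ∀ᶠ K in atTop, ∃ᶠ M in atTop, ∀ i, ‖Lm S (A i) (V i) w K M (E i) (E' i)‖ ≤ ε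

/-- systems for finitely many sets -/
def SysR : Prop := ∀ m : (ℕ → ℝ) → ℝ, IsMean m → ∀ (r : ℕ) (A : Fin r → Set ℕ),
  ∃ (X : Type) (_ : MeasurableSpace X) (μ : Measure X) (_ : IsProbabilityMeasure μ) (S : Sys μ)
    (B : Fin r → Set X), (∀ i, MeasurableSet (B i)) ∧
    (∀ i (a b c : ℕ), 0 < a → 0 < b → 0 < c →
      μ.real {x | S.T a x ∈ B i ∧ S.T b x ∈ B i ∧ S.T c x ∈ B i} =
        m (ind {n | a * n ∈ A i ∧ b * n ∈ A i ∧ c * n ∈ A i})) ∧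
    ∀ i (p q : ℕ), 0 < p → 0 < q → dd S (B i) p q = m (ind {n | ¬(p * n ∈ A i ↔ q * n ∈ A i)})

/-- ergodic form -/
def FinXR : Prop := ∀ (r : ℕ) (ε : ℝ), 0 < ε → ∃ R : ℕ, ∀ (X : Type) (_ : MeasurableSpace X)
  (μ : Measure X) (_ : IsProbabilityMeasure μ) (S : Sys μ) (A : Fin r → Set X),
  (∀ i, MeasurableSet (A i)) → LPR R (fun p q => ∑ i, dd S (A i) p q) →
  ∃ x y z : ℕ, 0 < x ∧ 0 < y ∧ 0 < z ∧ x ^ 2 + y ^ 2 = z ^ 2 ∧
    ∑ i, μ.real (A i) ^ 3 - ε ≤ ∑ i, μ.real {t | S.T x t ∈ A i ∧ S.T y t ∈ A i ∧ S.T z t ∈ A i}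

open Classical in
/-- FINAL FORM, for finitely additive dilation invariant probability measures on the positive integers -/
def FinR : Prop := ∀ (r : ℕ) (ε : ℝ), 0 < ε → ∃ R : ℕ, ∀ m : Set ℕ+ → ℝ, (∀ A, 0 ≤ m A) →
  m Set.univ = 1 → (∀ A B : Set ℕ+, Disjoint A B → m (A ∪ B) = m A + m B) →
  (∀ (k : ℕ+) (A : Set ℕ+), m {n | k * n ∈ A} = m A) → ∀ A : Fin r → Set ℕ+,
  (∀ δ : ℝ, 0 < δ → ∃ J : ℕ, ∀ Y₀ : ℕ+, ∃ Y ≥ Y₀, ∃ D : Finset ℕ+, D.card ≤ J ∧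
    ∑ p ∈ (Finset.Ioc Y (Y ^ R)).filter (fun p : ℕ+ => (p : ℕ).Prime ∧
      ∀ q ∈ D, ∃ i, δ < m {n | ¬(p * n ∈ A i ↔ q * n ∈ A i)}), 1 / ((p : ℕ) : ℝ) ≤ δ) →
  ∃ x y z : ℕ+, x ^ 2 + y ^ 2 = z ^ 2 ∧
    ∑ i, m (A i) ^ 3 - ε ≤ ∑ i, m {n | x * n ∈ A i ∧ y * n ∈ A i ∧ z * n ∈ A i}

/-! ## Items -/

open Classical in
/-- [Ra] (MEDIUM) the parts in `(K, y]` are small, absolute constant. Fix `e, e', j`, `κ = kR 1 w K e`, `k = kK 1 w K e'`, `Q = w!`, `D = DR 1 w K`. Fix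
`u, u', v'` too (`n = Q (u + u') + 1`); `V = k (Q (v + v') + 1)` is `α v + β`, `α = k Q`. Let `q = p^b`, `p > K` prime, `b ≥ 1`, so `p ∤ α`, `p ∤ 2 κ`. Number of `v ≤ D M` with
`q ∣ L_j` and `NoC K V n`: for `j = 0, 1, 2` `L_j = α v + β'`: at most `D M/q + 1`. For `j = 3`: if `p ∣ n` then `p ∣ L_3` gives `p ∣ V`, against `NoC`; so `p ∤ κ n = c`, and
`(V + c)² ≡ -c²` mod `p^b` has at most two solutions `V + c` mod `p^b` (`(t - t')(t + t') ≡ 0`, `p` cannot divide both as `p ∤ 2 t`): at most `2 (D M/q + 1)`.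
So `P(q ∣ L_j, NoC) ≤ 2/q + 2/(D M) ≤ 4/q` if `q ≤ M`. (a) Let `T = ∑ log p` over all `p^b ∣ L_j`, `K < p ≤ y`, `b ≥ 1`, `p^b ≤ M` (`0` if not `NoC`): its average is
`≤ ∑_{p ≤ y} log p ∑_{b ≥ 1} 4/p^b ≤ 8 ∑ log p/p ≤ 8 C₀ log y` (`FC.StCh`). (b) The probability that `p^b ∣ L_j` for some `p ≤ y` and the least `b` with `p^b > √M` (i.e.
`M < p^(2b)`): then `p^b ≤ √M y ≤ M` (`b = 1` or `p^(b-1) ≤ √M`; `y² ≤ M`), so it is `≤ ∑_{p ≤ y} 4/√M ≤ 4 y/√M ≤ 4 M^(1/4)/M^(1/2) = 4 M^(-1/4)` (`y⁴ ≤ M`). If neither this nor the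
negation of `NoC` happens, every `p^(v_p)`, `p ≤ y`, is `≤ √M ≤ M`, so `log sp K y L_j = T`; and `X < sp^16` gives `T > log X/16 ≥ log M/16` (`X ≥ M`).
Markov: `≤ 16 · 8 C₀ log y/log M ≤ 128 C₀/R` (`R log y ≤ log M`). And `M^(-1/4) ≤ C'/log M ≤ C'/(R log 2)`, e.g. `log M ≤ 4 M^(1/4)`. (hCh : FC.StCh) (hPr : StKPr) -/
def StRa : Prop := ∃ C : ℝ, 0 < C ∧ ∀ w K : ℕ, 10 ≤ w → w ≤ K → ∀ M R y : ℕ, 1 ≤ M → 4 ≤ R → 2 ≤ y →
  y ^ R ≤ M → ∀ (e : Fin (w + 1) → Fin K) (e' : Fin (K + 1) → Fin K) (j : Fin 4),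
  BRK 1 w K M (fun a n => if NoC K (kK 1 w K e' * a) n ∧
      3 * kK 1 w K e' * w.factorial * DR 1 w K * M <
        sp K y (Lf (kR 1 w K e) n (kK 1 w K e' * a) j) ^ 16 then 1 else 0) ≤ C / R

/-- [Rb] (EASY, copy of `I_GFi.lean`) `GoodR`: in `pr_GFi` only the bound `b4` uses `StGTl`; with `StRa` it is `C₁/R ≤ δ₁/32` for `R ≥ R₁ := 32 C₁/δ₁ + 4`, and `R₁` is
chosen before `w`, `K`. (hGc : StRGc) (hPq : StRPq) (hPr : StKPr) (hAv : StGAv) (hRa : StRa) (hSa : StGSa) (hSm : StGSm) (hHn : StGHn) (hSz : StGSz) (hPp : StGPp) -/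
def StRb : Prop := GoodR

/-- [Rc] (EASY-MEDIUM, copy of `I_CFi.lean`) `ContR`. As in `pr_CFi`, with `Rg = max R₁ (8 R₀ + 1)` chosen from `ε/8` before everything else (`GoodR`), the `R` of the statement is `3 Rg`.
For every `i` the constant `B i` of `StCT` for `G = V(1_(E' i))`; `B` their sum (or maximum) plus `0`; `y₀` the sum of the `y₀ i` of `GamS`. `dd S (A i) p (q i') ≤ d p (q i') ≤ δ`.
(hT : StCT) (hAv : StCAv) (hG : GoodR) (hGm : GamS) -/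
def StRc : Prop := ContR

/-- [Rd] (MEDIUM, copy of `I_FXa.lean`) `FinXR`. `R` from `ContR` for `ε' = ε/(8 (r + 1))`. For every `i < r` choose `σ i`, `V i`, `C i`, `χ i`, `N i` as in `pr_FXa` with `ε/(r + 1)` instead of
`ε`; `ContR` with `ι = Fin r × Fin 2` (or twice the union of two families), all conditions for the same `w`, `K`, `M` (`StNst` for finitely many). So
`∑_i Re Lm(i) > ∑_i μ(A i)³ - ε` for the averages of the numbers `μ.real {..}_i`, hence for one triple. (If the sum over the empty `Fin 0`: any triple, `3, 4, 5`.) The contradiction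
at the end is applied to `Φ x y z = ∑_i ..` on Pythagorean triples. (hSp : SpecS) (hCl : ClsS) (hCo : ContR) (hCp : ClpS) (hMn : MainS) (hAL : KR.StAvL) (hAP : KR.StAvP)
(hNs : KR.StNst) (hB : StCB) (hDA : StDA) (hDB : StDB) -/
def StRd : Prop := FinXR

/-- [Re] (EASY-MEDIUM, copy of `I_VSy.lean`) `SysR`: `X = (Fin r × ℚ → Bool)` (or the space of `I_VSy.lean` to the power `Fin r`), `x₀ (i, q) = true` iff `q` is an integer in `A i`,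
`B i = {x | x (i, 1) = true}`. (hRk : StVRk) -/
def StRe : Prop := SysR

/-- [Rf] (MEDIUM) the integral of a finitely additive measure. `M := m` on subsets of `ℕ+`; for `f : ℕ → ℝ` and `N ≥ 1` put `f_N = ⌊N f⌋/N` (on `ℕ+`), and for a function `s : ℕ+ → ℝ` with finitely
many values `I₀ s = ∑_{c ∈ range s} c m{s = c}`. `I₀` is linear and monotone on functions with finitely many values (common refinement: `I₀ s = ∑_j c_j m(P_j)` for every finite partition on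
which `s` is constant), so `|I₀ s - I₀ s'| ≤ sup |s - s'|`. For bounded `f` the numbers `I₀ f_N` are a Cauchy sequence (`|f_N - f| ≤ 1/N`); `m' f` is the limit (`0` or
anything if `f` is not bounded, e.g. `limUnder`). Additivity: `|(f + g)_N - f_N - g_N| ≤ 3/N`; homogeneity: `|(c f)_N - c f_N| ≤ (1 + |c|)/N`; positivity: `f_N ≥ 0`; `m' 1 = 1`;
invariance: `(f ∘ k)_N = f_N ∘ k` and `m{f_N ∘ k = c} = m{f_N = c}`; `ind A` has `(ind A)_N = ind A`. (A shorter way: any known extension theorem.) -/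
def StRf : Prop := ∀ m : Set ℕ+ → ℝ, (∀ A, 0 ≤ m A) → m Set.univ = 1 →
  (∀ A B : Set ℕ+, Disjoint A B → m (A ∪ B) = m A + m B) →
  (∀ (k : ℕ+) (A : Set ℕ+), m {n | k * n ∈ A} = m A) →
  ∃ m' : (ℕ → ℝ) → ℝ, IsMean m' ∧ ∀ A : Set ℕ, m' (ind A) = m {n : ℕ+ | (n : ℕ) ∈ A}

/-- [Rg] (EASY-MEDIUM) `FinR`. `R` from `FinXR`. `m'` from `StRf`, the sets `A' i = {n | ∃ h : 0 < n, ⟨n, h⟩ ∈ A i}`, the system from `SysR`. `LPR R (∑ dd)`: for `δ` use the hypothesis with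
`δ' = δ/(r + 1)`: `J`, then `Y`, `D`; number the elements of `D` by `Fin J` (`q` = the elements of `D`, then `1`; if `J = 0` then `D` is empty), `cl p` = the index of an element `q` of `D` with `m{..} ≤ δ'` for all
`i` if there is one, else `none`; for a prime `p` the numbers `dd` are the means `m' (ind ..) = m {..}` (sets of positive integers), the sum over `i` is `≤ r δ' ≤ δ`, and the exceptional
sum is the same (the primes `p` of `ℕ` with `Y < p ≤ Y^R` and those of `ℕ+`, `≤ δ' ≤ δ`; for `Y₀` in `ℕ` use `Y₀ + 1`). `μ.real (B i) = m (A i)` as in `pr_DM`. (hX : FinXR) (hSy : SysR) (hf : StRf) -/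
def StRg : Prop := FinR

end Pool.Agent.F0f91f8.PC
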