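import Mathlib
import Pool.Agent.Work.MP_0f91f8_co.PC.StmtsR
import Pool.Agent.Work.MP_0f91f8_co.FC.I_Tl

/-!
# Block PC, item Ra: the parts in `(K, y]` are small for most members, absolute constant (helper6)
-/

set_option autoImplicit false

namespace Pool.Agent.F0f91f8.PC

open Filter Topology ComplexConjugate
open Pool.Agent.F0f91f8.HD Pool.Agent.F0f91f8.RC Pool.Agent.F0f91f8.KR Pool.Agent.F0f91f8.FC
open scoped BigOperators

namespace IRa

/-- the number of members with `p ^ k ∣ L_j` -/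
theorem cnt {K κ n N p k α β : ℕ} (hK : 10 ≤ K) (hκ : ∀ q : ℕ, q.Prime → q ∣ κ → q ≤ K)
    (hα : ∀ q : ℕ, q.Prime → q ∣ α → q ≤ K) (hp : p.Prime)
    (hKp : K < p) (hk : 1 ≤ k) (j : Fin 4) (S : Finset ℕ)
    (hS : ∀ v ∈ S, v ≤ N ∧ NoC K (α * v + β) n ∧ p ^ k ∣ Lf κ n (α * v + β) j) :
    S.card ≤ 2 * (N / p ^ k + 1) := by
  have hQ : ¬ p ∣ α := fun h => by
    have := hα p hp h
    omega
  have hκ' : ¬ p ∣ κ := fun h => by
    have := hκ p hp h
    omega
  have hp2 : p ≠ 2 := by omega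
  by_cases hn : p ∣ n
  · have hemp : S = ∅ := by
      rw [Finset.eq_empty_iff_forall_notMem]
      intro v hv
      obtain ⟨-, h1, h2⟩ := hS v hv
      have h3 : p ∣ Lf κ n (α * v + β) j := (dvd_pow_self p (by omega)).trans h2
      have h4 : p ∣ κ * n := hn.mul_left κ
      have h5 : p ∣ α * v + β := by
        fin_cases j
        · exact h3
        · exact (Nat.dvd_add_left h4).1 h3
        · exact (Nat.dvd_add_left (h4.mul_left 2)).1 h3
        · have h6 : p ∣ (α * v + β + κ * n) ^ 2 :=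
            (Nat.dvd_add_left (dvd_pow h4 two_ne_zero)).1 h3
          exact (Nat.dvd_add_left h4).1 (hp.dvd_of_dvd_pow h6)
      exact h1 p hp hKp h5 hn
    rw [hemp, Finset.card_empty]
    exact Nat.zero_le _
  · have hN : ¬ p ∣ κ * n := fun h => (hp.dvd_mul.1 h).elim hκ' hn
    have hcls : ∃ r₁ r₂ : ℕ, ∀ v ∈ S, v % p ^ k = r₁ ∨ v % p ^ k = r₂ := by
      fin_cases j
      · exact XTl.lin (Q := α) (e := β) hp hQ S fun v hv => by
          have : p ^ k ∣ α * v + β := (hS v hv).2.2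
          exact this
      · exact XTl.lin (Q := α) (e := β + κ * n) hp hQ S fun v hv => by
          have : p ^ k ∣ α * v + β + κ * n := (hS v hv).2.2
          rw [← add_assoc]
          exact this
      · exact XTl.lin (Q := α) (e := β + 2 * (κ * n)) hp hQ S fun v hv => by
          have : p ^ k ∣ α * v + β + 2 * (κ * n) := (hS v hv).2.2
          rw [← add_assoc]
          exact this
      · exact XTl.quad (Q := α) (e := β + κ * n) (N := κ * n) hp hp2 hQ hN hk S fun v hv => by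
          have : p ^ k ∣ (α * v + β + κ * n) ^ 2 + (κ * n) ^ 2 := (hS v hv).2.2
          rw [← add_assoc]
          exact this
    obtain ⟨r₁, r₂, h⟩ := hcls
    exact XTl.two N (p ^ k) r₁ r₂ S fun v hv => ⟨(hS v hv).1, h v hv⟩

/-- the sum of the exponents of `p`, all powers `p ^ (k + 1)`, `k < Λ`, at most `N` -/
theorem expo {K κ n N p α β : ℕ} (hK : 10 ≤ K) (hκ : ∀ q : ℕ, q.Prime → q ∣ κ → q ≤ K)
    (hα : ∀ q : ℕ, q.Prime → q ∣ α → q ≤ K) (hp : p.Prime)
    (hKp : K < p) (j : Fin 4) (Λ : ℕ) (hΛ : p ^ Λ ≤ N) (S : Finset ℕ)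
    (hS : ∀ v ∈ S, v ≤ N ∧ NoC K (α * v + β) n ∧ 0 < Lf κ n (α * v + β) j ∧
      (Lf κ n (α * v + β) j).factorization p ≤ Λ) :
    ((∑ v ∈ S, (Lf κ n (α * v + β) j).factorization p : ℕ) : ℝ) ≤ 8 * N / p := by
  classical
  have h1 : ∑ v ∈ S, (Lf κ n (α * v + β) j).factorization p ≤
      ∑ k ∈ Finset.range Λ, 2 * (N / p ^ (k + 1) + 1) := by
    calc ∑ v ∈ S, (Lf κ n (α * v + β) j).factorization p
        ≤ ∑ v ∈ S, ((Finset.range Λ).filter fun k => p ^ (k + 1) ∣ Lf κ n (α * v + β) j).card := by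
          refine Finset.sum_le_sum fun v hv => ?_
          obtain ⟨-, -, h3, h4⟩ := hS v hv
          conv_lhs => rw [← Finset.card_range ((Lf κ n (α * v + β) j).factorization p)]
          refine Finset.card_le_card fun k hk => ?_
          rw [Finset.mem_range] at hk
          rw [Finset.mem_filter, Finset.mem_range]
          exact ⟨by omega, (hp.pow_dvd_iff_le_factorization (by omega)).2 (by omega)⟩
      _ = ∑ k ∈ Finset.range Λ, (S.filter fun v => p ^ (k + 1) ∣ Lf κ n (α * v + β) j).card := by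
          simp only [Finset.card_filter]
          exact Finset.sum_comm
      _ ≤ ∑ k ∈ Finset.range Λ, 2 * (N / p ^ (k + 1) + 1) := by
          refine Finset.sum_le_sum fun k _ => ?_
          refine cnt (n := n) (α := α) (β := β) hK hκ hα hp hKp (by omega) j _ fun v hv => ?_
          rw [Finset.mem_filter] at hv
          exact ⟨(hS v hv.1).1, (hS v hv.1).2.1, hv.2⟩
  have h2 : ((∑ v ∈ S, (Lf κ n (α * v + β) j).factorization p : ℕ) : ℝ) ≤
      ((∑ k ∈ Finset.range Λ, 2 * (N / p ^ (k + 1) + 1) : ℕ) : ℝ) := by exact_mod_cast h1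
  refine h2.trans ?_
  have hp0 : (0 : ℝ) < p := by exact_mod_cast hp.pos
  have hp2 : (2 : ℝ) ≤ p := by exact_mod_cast hp.two_le
  have h3 : ((∑ k ∈ Finset.range Λ, 2 * (N / p ^ (k + 1) + 1) : ℕ) : ℝ) ≤
      ∑ k ∈ Finset.range Λ, (4 * N * (1 / (p : ℝ)) ^ (k + 1)) := by
    push_cast
    refine Finset.sum_le_sum fun k hk => ?_
    have hk' : k + 1 ≤ Λ := by
      have := Finset.mem_range.1 hk
      omega
    have h4 : ((N / p ^ (k + 1) : ℕ) : ℝ) ≤ (N : ℝ) / (p : ℝ) ^ (k + 1) := by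
      have := Nat.cast_div_le (m := N) (n := p ^ (k + 1)) (α := ℝ)
      push_cast at this
      exact this
    have h5 : (N : ℝ) * (1 / (p : ℝ)) ^ (k + 1) = (N : ℝ) / (p : ℝ) ^ (k + 1) := by
      rw [one_div, inv_pow, div_eq_mul_inv]
    have h6 : (1 : ℝ) ≤ (N : ℝ) / (p : ℝ) ^ (k + 1) := by
      rw [le_div_iff₀ (by positivity), one_mul]
      have : p ^ (k + 1) ≤ N := (Nat.pow_le_pow_right hp.pos hk').trans hΛ
      exact_mod_cast this
    linarith
  refine h3.trans ?_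
  rw [← Finset.mul_sum]
  have hx1 : (1 : ℝ) / p ≤ 1 / 2 := one_div_le_one_div_of_le (by norm_num) hp2
  have h6 := XTl.geo (1 / (p : ℝ)) (by positivity) hx1 Λ
  have h7 : (0 : ℝ) ≤ (1 / (p : ℝ)) ^ (Λ + 1) := by positivity
  have h8 : 4 * (N : ℝ) * ∑ k ∈ Finset.range Λ, (1 / (p : ℝ)) ^ (k + 1) ≤
      4 * N * (2 * (1 / (p : ℝ))) := by
    refine mul_le_mul_of_nonneg_left ?_ (by positivity)
    linarith
  refine h8.trans (le_of_eq ?_)
  ring

theorem sq_le_pow (R : ℕ) (hR : 4 ≤ R) : R ^ 2 ≤ 2 ^ R := by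
  induction R, hR using Nat.le_induction with
  | base => norm_num
  | succ n hn ih =>
      rw [pow_succ 2 n]
      nlinarith

open Classical in
theorem main {C₁ : ℝ} (hC₁ : 0 < C₁)
    (hch : ∀ y : ℕ, 2 ≤ y → ∑ p ∈ (Finset.Icc 1 y).filter Nat.Prime, Real.log p / p ≤
      C₁ * Real.log y)
    {K κ n N α β R y X : ℕ} (hK : 10 ≤ K) (hκ : ∀ q : ℕ, q.Prime → q ∣ κ → q ≤ K)
    (hα : ∀ q : ℕ, q.Prime → q ∣ α → q ≤ K) (hβ : 0 < β) (hR : 4 ≤ R) (hy : 2 ≤ y)
    (hyR : y ^ R ≤ N) (hNX : N ≤ X) (j : Fin 4) :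
    (((Finset.Icc 1 N).filter fun v => NoC K (α * v + β) n ∧
      X < sp K y (Lf κ n (α * v + β) j) ^ 16).card : ℝ) * R ≤ (128 * C₁ + 8) * N := by
  set s : ℕ := Nat.sqrt N with hs
  have hy4 : y ^ 4 ≤ N := (Nat.pow_le_pow_right (by omega) hR).trans hyR
  have hys : y ^ 2 ≤ s := by
    rw [hs, Nat.le_sqrt']
    calc (y ^ 2) ^ 2 = y ^ 4 := by ring
      _ ≤ N := hy4
  have hs4 : 4 ≤ s := by
    have : 2 ^ 2 ≤ y ^ 2 := Nat.pow_le_pow_left hy 2
    omega
  have hsN : s ^ 2 ≤ N := Nat.sqrt_le' N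
  have hsN1 : s ≤ N := by nlinarith
  have hNs : N < (s + 1) * (s + 1) := Nat.lt_succ_sqrt N
  set S := (Finset.Icc 1 N).filter fun v => NoC K (α * v + β) n ∧
      X < sp K y (Lf κ n (α * v + β) j) ^ 16 with hS
  set P := (Finset.Icc 1 y).filter (fun p => p.Prime ∧ K < p) with hP
  have hPc : P.card ≤ y := by
    calc P.card ≤ (Finset.Icc 1 y).card := Finset.card_filter_le _ _
      _ = y := by simp
  have hpos : ∀ v, 0 < Lf κ n (α * v + β) j := fun v => XTl.Lf_pos (by omega) j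
  set S₂ := S.filter (fun v => ∃ p ∈ P, p ^ (Nat.log p s + 1) ∣ Lf κ n (α * v + β) j) with hS₂
  set S₁ := S.filter (fun v => ¬ ∃ p ∈ P, p ^ (Nat.log p s + 1) ∣ Lf κ n (α * v + β) j) with hS₁
  have hcard : S.card = S₂.card + S₁.card :=
    (Finset.card_filter_add_card_filter_not _).symm
  -- the second part
  have b1 : S₂.card ≤ y * (2 * (s + 1)) := by
    have hsub : S₂ ⊆ P.biUnion (fun p => S.filter fun v =>
        p ^ (Nat.log p s + 1) ∣ Lf κ n (α * v + β) j) := by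
      intro v hv
      rw [hS₂, Finset.mem_filter] at hv
      obtain ⟨hv1, p, hp, hpd⟩ := hv
      exact Finset.mem_biUnion.2 ⟨p, hp, Finset.mem_filter.2 ⟨hv1, hpd⟩⟩
    refine (Finset.card_le_card hsub).trans (Finset.card_biUnion_le.trans ?_)
    have h1 : ∀ p ∈ P, (S.filter fun v =>
        p ^ (Nat.log p s + 1) ∣ Lf κ n (α * v + β) j).card ≤ 2 * (s + 1) := by
      intro p hp
      rw [hP, Finset.mem_filter, Finset.mem_Icc] at hp
      have h2 := cnt (n := n) (κ := κ) (N := N) (k := Nat.log p s + 1) (α := α) (β := β) hK hκ hα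
        hp.2.1 hp.2.2 (by omega) j
        (S.filter fun v => p ^ (Nat.log p s + 1) ∣ Lf κ n (α * v + β) j) (fun v hv => by
          rw [Finset.mem_filter] at hv
          have hv' := hv.1
          rw [hS, Finset.mem_filter, Finset.mem_Icc] at hv'
          exact ⟨hv'.1.2, hv'.2.1, hv.2⟩)
      have h3 : s + 1 ≤ p ^ (Nat.log p s + 1) := Nat.lt_pow_succ_log_self hp.2.1.one_lt s
      have h4 : N / p ^ (Nat.log p s + 1) ≤ N / (s + 1) := Nat.div_le_div_left h3 (by omega)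
      have h5 : N / (s + 1) < s + 1 := Nat.div_lt_of_lt_mul hNs
      omega
    refine (Finset.sum_le_sum h1).trans ?_
    rw [Finset.sum_const, smul_eq_mul]
    exact Nat.mul_le_mul_right _ hPc
  have b2 : (y * R) ^ 2 ≤ 4 * N := by
    obtain ⟨t, rfl⟩ : ∃ t, R = t + 2 := ⟨R - 2, by omega⟩
    have h1 : (t + 2) ^ 2 ≤ 4 * 2 ^ t := by
      have := sq_le_pow (t + 2) hR
      calc (t + 2) ^ 2 ≤ 2 ^ (t + 2) := this
        _ = 4 * 2 ^ t := by ring
    have h2 : 2 ^ t ≤ y ^ t := Nat.pow_le_pow_left hy t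
    calc (y * (t + 2)) ^ 2 = y ^ 2 * (t + 2) ^ 2 := by ring
      _ ≤ y ^ 2 * (4 * 2 ^ t) := Nat.mul_le_mul_left _ h1
      _ ≤ y ^ 2 * (4 * y ^ t) := Nat.mul_le_mul_left _ (Nat.mul_le_mul_left _ h2)
      _ = 4 * y ^ (t + 2) := by ring
      _ ≤ 4 * N := Nat.mul_le_mul_left _ hyR
  have b3 : S₂.card * R ≤ 8 * N := by
    have h1 : S₂.card * R ≤ 4 * (y * R) * s := by
      calc S₂.card * R ≤ y * (2 * (s + 1)) * R := Nat.mul_le_mul_right _ b1
        _ ≤ y * (4 * s) * R := Nat.mul_le_mul_right _ (Nat.mul_le_mul_left _ (by omega))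
        _ = 4 * (y * R) * s := by ring
    have h2 : (S₂.card * R) ^ 2 ≤ (8 * N) ^ 2 := by
      calc (S₂.card * R) ^ 2 ≤ (4 * (y * R) * s) ^ 2 := Nat.pow_le_pow_left h1 2
        _ = 16 * ((y * R) ^ 2 * s ^ 2) := by ring
        _ ≤ 16 * (4 * N * N) := Nat.mul_le_mul_left _ (Nat.mul_le_mul b2 hsN)
        _ = (8 * N) ^ 2 := by ring
    exact (Nat.pow_le_pow_iff_left two_ne_zero).1 h2
  -- the first part
  have hN4 : 4 ≤ N := by omega
  have hNr : (4 : ℝ) ≤ N := by exact_mod_cast hN4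
  have hlogN : 0 < Real.log N := Real.log_pos (by linarith)
  have hyr : (2 : ℝ) ≤ y := by exact_mod_cast hy
  have hlogy : 0 < Real.log y := Real.log_pos (by linarith)
  have h1 : (S₁.card : ℝ) * Real.log N ≤
      16 * ∑ v ∈ S₁, Real.log (sp K y (Lf κ n (α * v + β) j)) := by
    rw [Finset.mul_sum, ← nsmul_eq_mul, ← Finset.sum_const]
    refine Finset.sum_le_sum fun v hv => ?_
    rw [hS₁, Finset.mem_filter] at hv
    have hv' := hv.1
    rw [hS, Finset.mem_filter] at hv'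
    have h2 : (N : ℝ) ≤ (sp K y (Lf κ n (α * v + β) j) : ℝ) ^ 16 := by
      have := hNX.trans hv'.2.2.le
      exact_mod_cast this
    have h3 := Real.log_le_log (by linarith) h2
    rw [Real.log_pow] at h3
    exact_mod_cast h3
  have h2 : ∑ v ∈ S₁, Real.log (sp K y (Lf κ n (α * v + β) j)) ≤
      ∑ p ∈ P, Real.log p * (8 * N / p) := by
    calc ∑ v ∈ S₁, Real.log (sp K y (Lf κ n (α * v + β) j))
        = ∑ v ∈ S₁, ∑ p ∈ P, ((Lf κ n (α * v + β) j).factorization p : ℝ) * Real.log p :=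
          Finset.sum_congr rfl fun v _ => XTl.log_sp K y _
      _ = ∑ p ∈ P, ∑ v ∈ S₁, ((Lf κ n (α * v + β) j).factorization p : ℝ) * Real.log p :=
          Finset.sum_comm
      _ ≤ ∑ p ∈ P, Real.log p * (8 * N / p) := by
          refine Finset.sum_le_sum fun p hp => ?_
          have hp' := hp
          rw [hP, Finset.mem_filter, Finset.mem_Icc] at hp'
          rw [← Finset.sum_mul, mul_comm]
          refine mul_le_mul_of_nonneg_left ?_ (Real.log_natCast_nonneg p)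
          have h3 := expo (N := N) (α := α) (β := β) hK hκ hα hp'.2.1 hp'.2.2 j (Nat.log p s)
            ((Nat.pow_log_le_self p (by omega)).trans hsN1) S₁ (n := n) (fun v hv => ?_)
          · push_cast at h3
            exact h3
          · rw [hS₁, Finset.mem_filter] at hv
            obtain ⟨hv1, hv2⟩ := hv
            rw [hS, Finset.mem_filter, Finset.mem_Icc] at hv1
            refine ⟨hv1.1.2, hv1.2.1, hpos v, ?_⟩
            by_contra hcon
            refine hv2 ⟨p, hp, (hp'.2.1.pow_dvd_iff_le_factorization (hpos v).ne').2 (by omega)⟩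
  have h3 : ∑ p ∈ P, Real.log p * (8 * N / p) ≤ 8 * N * (C₁ * Real.log y) := by
    have e1 : ∑ p ∈ P, Real.log p * (8 * N / p) = 8 * N * ∑ p ∈ P, Real.log p / p := by
      rw [Finset.mul_sum]
      refine Finset.sum_congr rfl fun p _ => ?_
      ring
    have e2 : ∑ p ∈ P, Real.log p / p ≤ C₁ * Real.log y := by
      refine le_trans ?_ (hch y hy)
      refine Finset.sum_le_sum_of_subset_of_nonneg ?_ ?_
      · intro p hp
        rw [hP, Finset.mem_filter] at hp
        exact Finset.mem_filter.2 ⟨hp.1, hp.2.1⟩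
      · intro p _ _
        exact div_nonneg (Real.log_natCast_nonneg p) (Nat.cast_nonneg p)
    rw [e1]
    exact mul_le_mul_of_nonneg_left e2 (by positivity)
  have h4 : (R : ℝ) * Real.log y ≤ Real.log N := by
    have h5 : ((y : ℝ)) ^ R ≤ N := by exact_mod_cast hyR
    have h6 := Real.log_le_log (by positivity) h5
    rwa [Real.log_pow] at h6
  have hR0 : (0 : ℝ) < R := by
    have : 0 < R := by omega
    exact_mod_cast this
  have h5 : (S₁.card : ℝ) * Real.log N ≤ 16 * (8 * N * (C₁ * Real.log y)) :=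
    h1.trans (mul_le_mul_of_nonneg_left (h2.trans h3) (by norm_num))
  have h6 : (S₁.card : ℝ) * R * Real.log N ≤ 128 * C₁ * N * Real.log N := by
    calc (S₁.card : ℝ) * R * Real.log N = R * ((S₁.card : ℝ) * Real.log N) := by ring
      _ ≤ R * (16 * (8 * N * (C₁ * Real.log y))) := mul_le_mul_of_nonneg_left h5 hR0.le
      _ = 128 * C₁ * N * (R * Real.log y) := by ring
      _ ≤ 128 * C₁ * N * Real.log N := mul_le_mul_of_nonneg_left h4 (by positivity)
  have h7 : (S₁.card : ℝ) * R ≤ 128 * C₁ * N := le_of_mul_le_mul_right h6 hlogN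
  have h8 : (S₂.card : ℝ) * R ≤ 8 * N := by exact_mod_cast b3
  have h9 : (S.card : ℝ) = S₂.card + S₁.card := by exact_mod_cast hcard
  rw [h9]
  linarith

end IRa

open Classical in
theorem pr_Ra (hCh : FC.StCh) (hPr : StKPr) : StRa := by
  obtain ⟨C₁, hC₁, hch⟩ := hCh
  refine ⟨128 * C₁ + 8, by positivity, ?_⟩
  intro w K hw hwK M R y hM hR hy hyR e e' j
  obtain ⟨hpar, hD, -, hQ, hall, hκQ, -⟩ := hPr 1 w K e e' le_rfl (by omega) hwK
  set Q := w.factorial with hQd
  set D := DR 1 w K with hDd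
  set κ := kR 1 w K e with hκd
  set k := kK 1 w K e' with hkd
  have hk0 : 0 < k := hpar.k0
  have hR0 : (0 : ℝ) < R := by
    have : 0 < R := by omega
    exact_mod_cast this
  have hM0 : (0 : ℝ) < M := by exact_mod_cast hM
  have hN0 : 0 < D * M := Nat.mul_pos hD hM
  have hκ' : ∀ q : ℕ, q.Prime → q ∣ κ → q ≤ K := fun q hq hd => hκQ q hq (hd.mul_right _)
  have hα' : ∀ q : ℕ, q.Prime → q ∣ k * Q → q ≤ K := fun q hq hd => by
    refine hall q hq ?_
    rw [mul_assoc]
    exact hd.mul_left _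
  have hMN : M ≤ D * M := Nat.le_mul_of_pos_left _ hD
  have hNX : D * M ≤ 3 * k * Q * D * M := by
    have h1 : 1 ≤ 3 * k * Q := Nat.mul_pos (Nat.mul_pos (by norm_num) hk0) hQ
    calc D * M = 1 * (D * M) := (one_mul _).symm
      _ ≤ 3 * k * Q * (D * M) := Nat.mul_le_mul_right _ h1
      _ = 3 * k * Q * D * M := by ring
  have inner : ∀ u u' v : ℕ, ∑ v' ∈ Finset.Icc 1 (D * M),
      (if NoC K (k * (Q * (v + v') + 1)) (Q * (u + u') + 1) ∧
        3 * k * Q * D * M < sp K y (Lf κ (Q * (u + u') + 1) (k * (Q * (v + v') + 1)) j) ^ 16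
        then (1 : ℝ) else 0) ≤ (128 * C₁ + 8) / R * ((D * M : ℕ) : ℝ) := by
    intro u u' v
    have h1 := IRa.main hC₁ hch (K := K) (κ := κ) (n := Q * (u + u') + 1) (N := D * M)
      (α := k * Q) (β := k * (Q * v + 1)) (R := R) (y := y) (X := 3 * k * Q * D * M)
      (by omega) hκ' hα' (Nat.mul_pos hk0 (Nat.succ_pos _)) hR hy (hyR.trans hMN) hNX j
    have h2 : ∀ v' : ℕ, k * Q * v' + k * (Q * v + 1) = k * (Q * (v + v') + 1) := fun v' => by ring
    simp only [h2] at h1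
    rw [Finset.sum_boole, div_mul_eq_mul_div, le_div_iff₀ hR0]
    exact h1
  unfold BRK BR
  rw [← hDd]
  have hden : 0 < (M : ℝ) ^ 2 * ((D * M : ℕ) : ℝ) ^ 2 := by
    have : (0 : ℝ) < ((D * M : ℕ) : ℝ) := by exact_mod_cast hN0
    positivity
  rw [div_le_iff₀ hden]
  refine (Finset.sum_le_sum fun u _ => Finset.sum_le_sum fun u' _ => Finset.sum_le_sum
    fun v _ => inner u u' v).trans ?_
  simp only [Finset.sum_const, Nat.card_Icc, Nat.add_sub_cancel, nsmul_eq_mul]
  refine le_of_eq ?_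
  ring

end Pool.Agent.F0f91f8.PC
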