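import Pool.Agent.Work.MP_0f91f8_co.PC.StmtsR
import Pool.Agent.Work.MP_0f91f8_co.PC.I_GFi

/-!
# Block PC, uniform form, item Rb: bad members are rare, `R₁` depends only on `δ₁` (helper61)
-/

set_option autoImplicit false

namespace Pool.Agent.F0f91f8.PC

open Filter Topology ComplexConjugate
open Pool.Agent.F0f91f8.HD Pool.Agent.F0f91f8.RC Pool.Agent.F0f91f8.KR Pool.Agent.F0f91f8.FC
open scoped BigOperators

open IGFi in
open Classical in
theorem pr_Rb (hGc : StRGc) (hPq : StRPq) (hPr : StKPr) (hAv : StGAv) (hRa : StRa) (hSa : StGSa)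
    (hSm : StGSm) (hHn : StGHn) (hSz : StGSz) (hPp : StGPp) : StRb := by
  obtain ⟨C₁, hC₁, hRa'⟩ := hRa
  refine ⟨31, by norm_num, ?_⟩
  intro δ₁ hδ₁
  obtain ⟨R₁, hR₁⟩ := exists_nat_ge (32 * C₁ / δ₁)
  refine ⟨R₁ + 4, ?_⟩
  intro w K hw hwK R hR
  have hK0 : 0 < K := by omega
  obtain ⟨C₂, hC₂, hPp'⟩ := hPp w K hw hwK
  set Q := w.factorial with hQ
  have hQ0 : 0 < Q := Nat.factorial_pos w
  have hQw : ∀ p : ℕ, p.Prime → p ∣ Q → p ≤ w := fun p hp hd => (hp.dvd_factorial).1 hd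
  have hQK : ∀ p : ℕ, p.Prime → p ∣ Q → p ≤ K := fun p hp hd => (hQw p hp hd).trans hwK
  have hD0 : 0 < DR 1 w K := by
    unfold DR
    positivity
  set k₀ : ℕ := ∑ e' : Fin (K + 1) → Fin K, kK 1 w K e' with hk₀
  have hkk : ∀ e' : Fin (K + 1) → Fin K, kK 1 w K e' ≤ k₀ := fun e' =>
    Finset.single_le_sum (f := fun e' : Fin (K + 1) → Fin K => kK 1 w K e')
      (fun _ _ => Nat.zero_le _) (Finset.mem_univ e')
  have hη : 0 < δ₁ / 8 := by positivity
  obtain ⟨T, hT⟩ := exists_nat_ge (24 * k₀ * Q * K / δ₁)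
  refine ⟨(T + 1) ^ K + K.factorial ^ 2, δ₁ / (32 * C₂), by positivity, ?_⟩
  obtain ⟨Y₁, hY₁⟩ := hSz w K R hw hwK (by omega)
  obtain ⟨M₂, hM₂⟩ := hGc K Q (DR 1 w K) (by omega) hQ0 hD0 hQK (δ₁ / 8) hη
  obtain ⟨M₃, hM₃⟩ := hPq w Q (by omega) hQ0 hQw (δ₁ / 8) hη
  obtain ⟨Z, hZ⟩ := exists_nat_ge (160 / δ₁)
  refine ⟨Y₁ + M₂ + M₃ + Z + K + 2, ?_⟩
  intro Y hY cl0 hcl e e'
  set M := Y ^ R with hM
  have hY2 : 2 ≤ Y := by omega
  have hYM : Y ≤ M := by
    rw [hM]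
    exact Nat.le_self_pow (by omega) Y
  have hM1 : 1 ≤ M := by omega
  set κ := kR 1 w K e with hκ
  set k := kK 1 w K e' with hk
  obtain ⟨hPar, -, -, -, -, -, hcong, -⟩ := hPr 1 w K e e' le_rfl (by omega) hwK
  have hkle : (k : ℝ) ≤ k₀ := by exact_mod_cast hkk e'
  -- the pointwise bound
  have hpt : BRK 1 w K M (fun a n => if Gm w K κ k a n Y (3 * k * w.factorial * DR 1 w K * M)
      ((T + 1) ^ K + K.factorial ^ 2) (3 * R) cl0 then 0 else 1) ≤
      BRK 1 w K M (fun a n => ((((iGc K a n + iPq w n) + (if hn K Y n ≤ 2 then 0 else 1)) +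
        ∑ j : Fin 4, (if NoC K (k * a) n ∧ 3 * k * w.factorial * DR 1 w K * M <
          sp K Y (Lf κ n (k * a) j) ^ 16 then (1 : ℝ) else 0)) +
        (if (T + 1) ^ K < sm K (k * a) then 1 else 0)) +
        ∑ j : Fin 4, ∑ p ∈ PP Y R cl0, (if p ∣ Lf κ n (k * a) j then (1 : ℝ) else 0)) := by
    unfold BRK
    apply br_mono
    intro u hu u' hu' v hv v' hv'
    obtain ⟨hV1, hVX, hL⟩ := hY₁ Y (by omega) e e' u hu u' hu' v hv v' hv'
    exact point hSm w K κ k (w.factorial * (v + v') + 1) (w.factorial * (u + u') + 1) Y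
      (3 * k * w.factorial * DR 1 w K * M) ((T + 1) ^ K + K.factorial ^ 2) R (T + 1) cl0 hw hwK
      hPar (by omega) (by omega) (hcong (v + v')) le_rfl hV1 hVX hL
  refine hpt.trans ?_
  rw [brk_add, brk_add, brk_add, brk_add, brk_add, brk_sum, brk_sum]
  have b1 : BRK 1 w K M (fun a n => iGc K a n) ≤ 10 / K + δ₁ / 8 :=
    hM₂ M (by omega) 1 hQ0
  have b2 : BRK 1 w K M (fun _ n => iPq w n) ≤ 1 / w + δ₁ / 8 :=
    hM₃ M (by omega) (DR 1 w K) 1 hD0
  have hYr : (0 : ℝ) < Y := by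
    have : 0 < Y := by omega
    exact_mod_cast this
  have b3 : BRK 1 w K M (fun _ n => if hn K Y n ≤ 2 then 0 else 1) ≤ 20 / K + δ₁ / 8 := by
    refine (hHn w K M Y hw hwK hM1).trans ?_
    have hMY : (Y : ℝ) ^ 2 ≤ M := by
      have : Y ^ 2 ≤ M := by
        rw [hM]
        exact Nat.pow_le_pow_right (by omega) (by omega)
      exact_mod_cast this
    have h1 : 20 * (Y : ℝ) / M ≤ δ₁ / 8 := by
      have hZY : (Z : ℝ) ≤ Y := by
        have : Z ≤ Y := by omega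
        exact_mod_cast this
      have h2 : 160 ≤ δ₁ * Y := by
        have := hZ.trans hZY
        rw [div_le_iff₀ hδ₁] at this
        linarith
      rw [div_le_iff₀ (by positivity)]
      nlinarith
    linarith
  have b4 : ∀ j : Fin 4, BRK 1 w K M (fun a n => if NoC K (k * a) n ∧
      3 * k * w.factorial * DR 1 w K * M < sp K Y (Lf κ n (k * a) j) ^ 16 then (1 : ℝ) else 0) ≤
      δ₁ / 32 := by
    intro j
    refine (hRa' w K hw hwK M R Y hM1 (by omega) hY2 le_rfl e e' j).trans ?_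
    have hR0 : (0 : ℝ) < R := by
      have : 0 < R := by omega
      exact_mod_cast this
    have hRR : (R₁ : ℝ) ≤ R := by
      have : R₁ ≤ R := by omega
      exact_mod_cast this
    have h1 : 32 * C₁ ≤ δ₁ * R := by
      have := hR₁.trans hRR
      rw [div_le_iff₀ hδ₁] at this
      linarith
    rw [div_le_iff₀ hR0]
    linarith
  have b5 : BRK 1 w K M (fun a _ => if (T + 1) ^ K < sm K (k * a) then 1 else 0) ≤ δ₁ / 8 := by
    have h1 := hAv w K M k (fun V _ => if (T + 1) ^ K < sm K V then (1 : ℝ) else 0)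
      ((K : ℝ) / ((T + 1 : ℕ) : ℝ)) (by omega) hM1 hPar.k0 (by positivity)
      (fun V n => by positivity) (fun n _ _ => by
        rw [Finset.sum_ite, Finset.sum_const_zero, add_zero, Finset.sum_const, nsmul_eq_mul, mul_one]
        refine (hSa K (T + 1) _ (by omega)).trans (le_of_eq ?_)
        ring)
    refine h1.trans ?_
    have hT0 : (0 : ℝ) < ((T + 1 : ℕ) : ℝ) := by positivity
    have h3 : 24 * k₀ * Q * K ≤ δ₁ * ((T + 1 : ℕ) : ℝ) := by
      rw [div_le_iff₀ hδ₁] at hT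
      push_cast
      nlinarith
    have h2 : 3 * (k : ℝ) * Q * ((K : ℝ) / ((T + 1 : ℕ) : ℝ)) ≤
        3 * (k₀ : ℝ) * Q * ((K : ℝ) / ((T + 1 : ℕ) : ℝ)) := by gcongr
    refine h2.trans ?_
    rw [← mul_div_assoc, div_le_iff₀ hT0]
    linarith
  have b6 : ∀ j : Fin 4, BRK 1 w K M (fun a n => ∑ p ∈ PP Y R cl0,
      (if p ∣ Lf κ n (k * a) j then (1 : ℝ) else 0)) ≤ δ₁ / 32 := by
    intro j
    rw [brk_sum]
    have h1 : ∑ p ∈ PP Y R cl0, BRK 1 w K M (fun a n =>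
        (if p ∣ Lf κ n (k * a) j then (1 : ℝ) else 0)) ≤ ∑ p ∈ PP Y R cl0, C₂ / (p : ℝ) := by
      refine Finset.sum_le_sum fun p hp => ?_
      unfold PP at hp
      rw [Finset.mem_filter] at hp
      have hp2 := hp.2.2.1
      exact hPp' M hM1 e e' j p hp.2.1 (by omega)
    refine h1.trans ?_
    have h2 : ∑ p ∈ PP Y R cl0, C₂ / (p : ℝ) = C₂ * ∑ p ∈ PP Y R cl0, 1 / (p : ℝ) := by
      rw [Finset.mul_sum]
      exact Finset.sum_congr rfl fun p _ => by ring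
    rw [h2]
    have h3 : ∑ p ∈ PP Y R cl0, 1 / (p : ℝ) ≤ δ₁ / (32 * C₂) := by
      refine le_trans (le_of_eq ?_) hcl
      unfold PP
      rfl
    calc C₂ * ∑ p ∈ PP Y R cl0, 1 / (p : ℝ) ≤ C₂ * (δ₁ / (32 * C₂)) := by gcongr
      _ = δ₁ / 32 := by field_simp
  have b4s := Finset.sum_le_sum fun (j : Fin 4) (_ : j ∈ Finset.univ) => b4 j
  have b6s := Finset.sum_le_sum fun (j : Fin 4) (_ : j ∈ Finset.univ) => b6 j
  have hc4 : ∑ _j : Fin 4, δ₁ / 32 = δ₁ / 8 := by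
    rw [Finset.sum_const, Finset.card_univ, Fintype.card_fin, nsmul_eq_mul]
    push_cast
    ring
  rw [hc4] at b4s b6s
  have hwr : (0 : ℝ) < w := by
    have : 0 < w := by omega
    exact_mod_cast this
  have hKw : 1 / (K : ℝ) ≤ 1 / w := by
    apply one_div_le_one_div_of_le hwr
    exact_mod_cast hwK
  have h30 : 10 / (K : ℝ) + 1 / w + 20 / K ≤ 31 / w := by
    have e1 : 10 / (K : ℝ) = 10 * (1 / K) := by ring
    have e2 : 20 / (K : ℝ) = 20 * (1 / K) := by ring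
    have e3 : 31 / (w : ℝ) = 31 * (1 / w) := by ring
    rw [e1, e2, e3]
    linarith
  linarith

end Pool.Agent.F0f91f8.PC
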