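import Mathlib
import Pool.Agent.Work.MP_0f91f8_co.PC.StmtsR

/-!
# Block PC, uniform form, item Rc: the continuous part disappears, finitely many sets
-/

set_option autoImplicit false

namespace Pool.Agent.F0f91f8.PC

open Filter Topology ComplexConjugate MeasureTheory
open Pool.Agent.F0f91f8.HD Pool.Agent.F0f91f8.RC Pool.Agent.F0f91f8.KR Pool.Agent.F0f91f8.FC
open Pool.Agent.Work.MP_0f91f8_co.EF (GG ev)
open scoped BigOperators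

namespace IRc

/-- the average over the family is bounded by the maximum of the averages for fixed `e`, `e'` -/
lemma avg (w K M : ℕ) (hK : 0 < K) (Φ : ℕ → ℕ → ℕ → ℂ) (ε : ℝ)
    (h : ∀ (e : Fin (w + 1) → Fin K) (e' : Fin (K + 1) → Fin K),
      ‖BFK 1 w K M fun a n => Φ (tX (kR 1 w K e) (kK 1 w K e') a n)
        (tY (kR 1 w K e) (kK 1 w K e') a n) (tZ (kR 1 w K e) (kK 1 w K e') a n)‖ ≤ ε) :
    ‖AvK 1 w K M Φ‖ ≤ ε := by
  unfold AvK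
  rw [norm_div]
  have hKp : (0 : ℝ) < K := by exact_mod_cast hK
  have hden : ‖((K : ℂ) ^ (w + 1) * (K : ℂ) ^ (K + 1))‖ = (K : ℝ) ^ (w + 1) * (K : ℝ) ^ (K + 1) := by
    rw [norm_mul, norm_pow, norm_pow, Complex.norm_natCast]
  rw [hden, div_le_iff₀ (by positivity)]
  refine (norm_sum_le _ _).trans ?_
  refine (Finset.sum_le_sum fun e _ => (norm_sum_le _ _).trans
    (Finset.sum_le_sum fun e' _ => h e e')).trans ?_
  rw [Finset.sum_const, Finset.sum_const, Finset.card_univ, Finset.card_univ, Fintype.card_fun,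
    Fintype.card_fun, Fintype.card_fin, Fintype.card_fin, Fintype.card_fin]
  simp only [nsmul_eq_mul, Nat.cast_pow]
  apply le_of_eq
  ring

/-- the Gram matrix of one of the two sets is small -/
lemma gram (hGm : GamS) (σ : Measure GG) (hσ : IsFiniteMeasure σ) (E E' : Set GG)
    (h : Cn σ E ∨ Cn σ E') (K : ℕ) (hK : 10 ≤ K) (γ : ℝ) (hγ : 0 < γ) :
    ∃ y₀ : ℕ, ∀ y ≥ y₀,
      ((∀ T : Finset ℕ, (∀ s ∈ T, Sy K y s) → ∑ s ∈ T, ∑ s' ∈ T, w1 K y s * w1 K y s' *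
          ‖∫ g in E, ev g s' * conj (ev g s) ∂σ‖ ^ 2 ≤ γ) ∨
        (∀ T : Finset ℕ, (∀ s ∈ T, Sy K y s) → ∑ s ∈ T, ∑ s' ∈ T, w1 K y s * w1 K y s' *
          ‖∫ g in E', ev g s' * conj (ev g s) ∂σ‖ ^ 2 ≤ γ)) := by
  rcases h with h | h
  · obtain ⟨y₀, hy⟩ := hGm σ hσ E h K hK γ hγ
    exact ⟨y₀, fun y hy' => Or.inl (hy y hy')⟩
  · obtain ⟨y₀, hy⟩ := hGm σ hσ E' h K hK γ hγ
    exact ⟨y₀, fun y hy' => Or.inr (hy y hy')⟩

/-- the choice of `γ` -/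
lemma gam (c ε : ℝ) (hc : 0 ≤ c) (hε : 0 < ε) :
    ∃ γ : ℝ, 0 < γ ∧ ∀ c' : ℝ, c' ≤ c → Real.sqrt (c' * γ ^ (1 / 4 : ℝ)) ≤ ε := by
  refine ⟨(ε ^ 2 / (c + 1)) ^ (4 : ℕ), by positivity, fun c' hc' => ?_⟩
  have h1 : ((ε ^ 2 / (c + 1)) ^ (4 : ℕ)) ^ (1 / 4 : ℝ) = ε ^ 2 / (c + 1) := by
    rw [← Real.rpow_natCast, ← Real.rpow_mul (by positivity)]
    norm_num
  rw [h1]
  refine Real.sqrt_le_iff.2 ⟨hε.le, ?_⟩
  have h2 : c' * (ε ^ 2 / (c + 1)) ≤ c * (ε ^ 2 / (c + 1)) :=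
    mul_le_mul_of_nonneg_right hc' (by positivity)
  refine h2.trans ?_
  rw [mul_div_assoc', div_le_iff₀ (by positivity)]
  nlinarith [sq_nonneg ε]

end IRc

theorem pr_Rc (hT : StCT) (hAv : StCAv) (hG : GoodR) (hGm : GamS) : ContR := by
  obtain ⟨R₀, hR₀, hAv⟩ := hAv
  obtain ⟨C, hC, hG⟩ := hG
  intro ε hε
  have hε8 : 0 < ε / 8 := by positivity
  obtain ⟨R₁, hG⟩ := hG (ε / 8) hε8
  obtain ⟨R, hR⟩ : ∃ R : ℕ, R = max R₁ (8 * R₀ + 1) := ⟨_, rfl⟩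
  have hRR₁ : R₁ ≤ R := by rw [hR]; exact le_max_left _ _
  have hRR₀ : 8 * R₀ + 1 ≤ R := by rw [hR]; exact le_max_right _ _
  have hR0 : 0 < R := by omega
  refine ⟨3 * R, ?_⟩
  intro X mX μ hμ S d hL ι hι A hA hd σ hσ V E E' hE hE' hEE
  have hw1 : ∀ᶠ w : ℕ in atTop, C / (w : ℝ) ≤ ε / 8 := by
    have h0 : Tendsto (fun w : ℕ => C / (w : ℝ)) atTop (𝓝 0) := tendsto_const_div_atTop_nhds_zero_nat C
    exact (h0.eventually (gt_mem_nhds hε8)).mono fun w hw => le_of_lt hw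
  filter_upwards [hw1, eventually_ge_atTop 10] with w hwC hw10
  filter_upwards [eventually_ge_atTop w] with K hwK
  have hK10 : 10 ≤ K := hw10.trans hwK
  obtain ⟨E₀, δG, hδG, Y₁, hG⟩ := hG w K hw10 hwK R hRR₁
  have hT' := fun i => hT X mX μ hμ S (A i) (hA i) ((V i).V (b1 (σ i) (E' i))) (ε / 8) hε8
  choose Bi hBi hTi using hT'
  obtain ⟨B, hB⟩ : ∃ B : ℝ, B = ∑ i, Bi i := ⟨_, rfl⟩
  have hBle : ∀ i, Bi i ≤ B := by
    intro i
    rw [hB]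
    exact Finset.single_le_sum (f := Bi) (fun j _ => hBi j) (Finset.mem_univ i)
  have hB0 : 0 ≤ B := by
    rw [hB]
    exact Finset.sum_nonneg fun j _ => hBi j
  have hRpos : (0 : ℝ) < ((3 * R : ℕ) : ℝ) := by
    have : 0 < 3 * R := by omega
    exact_mod_cast this
  obtain ⟨δ', hδ'⟩ : ∃ δ' : ℝ, δ' = (ε / 8 / ((B + 3) * ((3 * R : ℕ) : ℝ))) ^ 2 := ⟨_, rfl⟩
  have hδ'0 : 0 < δ' := by rw [hδ']; positivity
  obtain ⟨δ, hδ⟩ : ∃ δ : ℝ, δ = min δG δ' := ⟨_, rfl⟩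
  have hδ0 : 0 < δ := by rw [hδ]; exact lt_min hδG hδ'0
  have hδG' : δ ≤ δG := by rw [hδ]; exact min_le_left _ _
  have hδs : (B + 3) * ((3 * R : ℕ) : ℝ) * Real.sqrt δ ≤ ε / 8 := by
    have h1 : Real.sqrt δ ≤ ε / 8 / ((B + 3) * ((3 * R : ℕ) : ℝ)) := by
      rw [hδ]
      refine (Real.sqrt_le_sqrt (min_le_right _ _)).trans ?_
      rw [hδ', Real.sqrt_sq (by positivity)]
    have h2 : 0 < (B + 3) * ((3 * R : ℕ) : ℝ) := by positivity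
    calc (B + 3) * ((3 * R : ℕ) : ℝ) * Real.sqrt δ
        ≤ (B + 3) * ((3 * R : ℕ) : ℝ) * (ε / 8 / ((B + 3) * ((3 * R : ℕ) : ℝ))) :=
          mul_le_mul_of_nonneg_left h1 h2.le
      _ = ε / 8 := by field_simp
  obtain ⟨J, hL⟩ := hL δ hδ0
  -- the choice of `γ`
  obtain ⟨N, hN⟩ : ∃ N : ℕ, N = ∑ e' : Fin (K + 1) → Fin K, kK 1 w K e' := ⟨_, rfl⟩
  obtain ⟨γ, hγ, hγs⟩ := IRc.gam (2000 * ((N * w.factorial : ℕ) : ℝ) * ((E₀ + 1 : ℕ) : ℝ) ^ 4 *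
      ((3 * R + 1 : ℕ) : ℝ) ^ (4 * J)) (ε / 8) (by positivity) hε8
  have hgr := fun i => IRc.gram hGm (σ i) (hσ i) (E i) (E' i) (hEE i) K hK10 γ hγ
  choose yi hyi using hgr
  obtain ⟨y₁, hy₁⟩ : ∃ y₁ : ℕ, y₁ = ∑ i, yi i := ⟨_, rfl⟩
  have hyle : ∀ i, yi i ≤ y₁ := by
    intro i
    rw [hy₁]
    exact Finset.single_le_sum (f := yi) (fun j _ => Nat.zero_le _) (Finset.mem_univ i)
  rw [Filter.frequently_atTop]
  intro M₀
  obtain ⟨Y, hY, q, cl, hq, hcl, hsum⟩ := hL (M₀ + y₁ + Y₁ + K + 1)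
  have hYM : Y ≤ Y ^ R := Nat.le_self_pow hR0.ne' Y
  have hY1 : 1 ≤ Y := by omega
  refine ⟨Y ^ R, by omega, fun i => ?_⟩
  unfold Lm
  refine IRc.avg w K (Y ^ R) (by omega) _ ε fun e e' => ?_
  have hTP : ∀ z z' y : ℕ, 0 < z → 0 < z' → 0 < y → ∀ H : Lp ℂ 2 μ, ‖H‖ ≤ 1 →
      ‖bt S (A i) z H (U S y ((V i).V (b1 (σ i) (E' i)))) -
          bt S (A i) z' H (U S y ((V i).V (b1 (σ i) (E' i))))‖ ≤
        B * Real.sqrt (dd S (A i) z z') + ε / 8 := by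
    intro z z' y hz hz' hy H hH
    refine (hTi i z z' y hz hz' hy H hH).trans ?_
    have := mul_le_mul_of_nonneg_right (hBle i) (Real.sqrt_nonneg (dd S (A i) z z'))
    linarith
  have h1 := hAv X mX μ hμ S (A i) (hA i) (σ i) (hσ i) (V i) (E i) (E' i) (hE i) (hE' i) B (ε / 8)
    hB0 hε8.le hTP w K Y E₀ (3 * R) J (Y ^ R) q cl δ γ hw10 hwK (by omega) (by positivity) hδ0.le
    hγ.le hq (fun p i' hp hpc => (hd i p (q i')).trans (hcl p i' hp hpc))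
    (hyi i Y (by have := hyle i; omega)) e e' (Nat.pow_le_pow_right hY1 (by omega))
  have h2 := hG Y (by omega) (fun p => cl p = none) ((le_of_eq (Finset.sum_congr
    (Finset.ext fun p => by simp only [Finset.mem_filter]) fun _ _ => rfl)).trans
    (hsum.trans hδG')) e e'
  have h3 : Real.sqrt (2000 * ((kK 1 w K e' * w.factorial : ℕ) : ℝ) * ((E₀ + 1 : ℕ) : ℝ) ^ 4 *
      ((3 * R + 1 : ℕ) : ℝ) ^ (4 * J) * γ ^ (1 / 4 : ℝ)) ≤ ε / 8 := by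
    refine hγs _ ?_
    have h4 : kK 1 w K e' ≤ N := by
      rw [hN]
      exact Finset.single_le_sum (f := fun e' => kK 1 w K e')
        (fun _ _ => Nat.zero_le _) (Finset.mem_univ e')
    have h5 : ((kK 1 w K e' * w.factorial : ℕ) : ℝ) ≤ ((N * w.factorial : ℕ) : ℝ) := by
      exact_mod_cast Nat.mul_le_mul_right _ h4
    gcongr
  linarith

end Pool.Agent.F0f91f8.PC
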