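import Pool.Agent.Work.MP_0f91f8_co.PC.StmtsR
import Pool.Agent.Work.MP_0f91f8_co.PC.I_VSy

/-!
# Item Re of block PC: every mean and finitely many sets come from a system
-/

set_option autoImplicit false

namespace Pool.Agent.F0f91f8.PC

open Filter Topology ComplexConjugate MeasureTheory
open Pool.Agent.F0f91f8.HD Pool.Agent.F0f91f8.RC Pool.Agent.F0f91f8.KR Pool.Agent.F0f91f8.FC
open Pool.Agent.Work.MP_0f91f8_co.EF (GG ev)
open scoped BigOperators

namespace IRe

open XVSy (qn qn_ne qn_pos m_congr bd_ind)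

variable {r : ℕ}

/-- the shift by `n`, in every coordinate -/
noncomputable def TR (r n : ℕ) : (Fin r → ℚ → Bool) ≃ᵐ (Fin r → ℚ → Bool) where
  toFun x i q := x i (q * qn n)
  invFun x i q := x i (q / qn n)
  left_inv x := by
    funext i q
    show x i (q / qn n * qn n) = x i q
    rw [div_mul_cancel₀ _ (qn_ne n)]
  right_inv x := by
    funext i q
    show x i (q * qn n / qn n) = x i q
    rw [mul_div_cancel_right₀ _ (qn_ne n)]
  measurable_toFun := measurable_pi_lambda _ fun i => measurable_pi_lambda _ fun q =>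
    (measurable_pi_apply (q * qn n)).comp (measurable_pi_apply i)
  measurable_invFun := measurable_pi_lambda _ fun i => measurable_pi_lambda _ fun q =>
    (measurable_pi_apply (q / qn n)).comp (measurable_pi_apply i)

theorem TR_apply (n : ℕ) (x : Fin r → ℚ → Bool) (i : Fin r) (q : ℚ) :
    TR r n x i q = x i (q * qn n) := rfl

theorem TR_cont (n : ℕ) : Continuous (TR r n : (Fin r → ℚ → Bool) → (Fin r → ℚ → Bool)) :=
  continuous_pi fun i => continuous_pi fun q =>
    (continuous_apply (q * qn n)).comp (continuous_apply i)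

theorem TR_mul (a b : ℕ) (ha : 0 < a) (hb : 0 < b) (x : Fin r → ℚ → Bool) :
    TR r (a * b) x = TR r a (TR r b x) := by
  funext i q
  rw [TR_apply, TR_apply, TR_apply, qn_pos ha, qn_pos hb, qn_pos (Nat.mul_pos ha hb)]
  push_cast
  rw [mul_assoc]

/-- the point of the sets `A i` -/
noncomputable def xR (A : Fin r → Set ℕ) : Fin r → ℚ → Bool := fun i => XVSy.x0 (A i)

theorem xR_mul (A : Fin r → Set ℕ) (i : Fin r) {a n : ℕ} (ha : 0 < a) (hn : 0 < n) :
    TR r n (xR A) i (1 * qn a) = true ↔ a * n ∈ A i :=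
  XVSy.x0_mul (A i) ha hn

/-- clopen sets -/
theorem clopen (i : Fin r) (P : Bool → Bool → Bool → Prop) (a b c : ℚ) :
    IsClopen {x : Fin r → ℚ → Bool | P (x i a) (x i b) (x i c)} := by
  have h0 : ∀ q : ℚ, Continuous fun x : Fin r → ℚ → Bool => x i q :=
    fun q => (continuous_apply q).comp (continuous_apply i)
  have h : Continuous fun x : Fin r → ℚ → Bool => (x i a, x i b, x i c) :=
    (h0 a).prodMk ((h0 b).prodMk (h0 c))
  exact (isClopen_discrete {p : Bool × Bool × Bool | P p.1 p.2.1 p.2.2}).preimage h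

/-- the indicator function of a clopen set -/
noncomputable def ic (E : Set (Fin r → ℚ → Bool)) (hE : IsClopen E) :
    C(Fin r → ℚ → Bool, ℝ) where
  toFun := E.indicator fun _ => (1 : ℝ)
  continuous_toFun := by
    refine Continuous.indicator ?_ continuous_const
    intro a ha
    rw [hE.frontier_eq] at ha
    exact absurd ha (Set.notMem_empty a)

theorem bdR (f : C(Fin r → ℚ → Bool, ℝ)) (x : ℕ → Fin r → ℚ → Bool) : BdR fun n => f (x n) :=
  ⟨‖f‖, fun n => f.norm_coe_le_norm (x n)⟩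

end IRe

theorem pr_Re (hRk : StVRk) : SysR := by
  intro m hm r A
  obtain ⟨h1, h2, h3, h4, h5⟩ := id hm
  obtain ⟨μ, hμ, hint⟩ := hRk (Fin r → ℚ → Bool) inferInstance inferInstance inferInstance
    inferInstance inferInstance (fun φ => m fun n => φ (IRe.TR r n (IRe.xR A)))
    (fun f g => h1 _ _ (IRe.bdR f _) (IRe.bdR g _))
    (fun c f => h2 c _ (IRe.bdR f _))
    (fun f hf => h3 _ (IRe.bdR f _) fun n _ => hf _)
    h4
  have hμf : IsFiniteMeasure μ := inferInstance
  have hmp : ∀ k, 0 < k → MeasurePreserving (IRe.TR r k) μ μ := by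
    intro k hk
    refine ⟨(IRe.TR r k).measurable, ?_⟩
    have hfm : IsFiniteMeasure (μ.map (IRe.TR r k)) := inferInstance
    refine ext_of_forall_integral_eq_of_IsFiniteMeasure fun f => ?_
    rw [integral_map (IRe.TR r k).measurable.aemeasurable
      f.continuous.measurable.aestronglyMeasurable]
    have e1 := hint ⟨fun x => f (IRe.TR r k x), f.continuous.comp (IRe.TR_cont k)⟩
    have e2 := hint ⟨fun x => f x, f.continuous⟩
    have e3 : m (fun n => f (IRe.TR r k (IRe.TR r n (IRe.xR A)))) =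
        m fun n => f (IRe.TR r n (IRe.xR A)) := by
      rw [← h5 k hk (fun n => f (IRe.TR r n (IRe.xR A)))
        ⟨‖f‖, fun n => f.norm_coe_le_norm _⟩]
      refine XVSy.m_congr hm ⟨‖f‖, fun n => f.norm_coe_le_norm _⟩
        ⟨‖f‖, fun n => f.norm_coe_le_norm _⟩ fun n hn => ?_
      rw [IRe.TR_mul k n hk hn]
    exact e1.trans (e3.trans e2.symm)
  have hE : ∀ (i : Fin r) (P : Bool → Bool → Bool → Prop) (a b c : ℕ), 0 < a → 0 < b → 0 < c →
      ∀ E : Set ℕ, (∀ n, 0 < n → (n ∈ E ↔ P (IRe.TR r n (IRe.xR A) i (1 * XVSy.qn a))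
        (IRe.TR r n (IRe.xR A) i (1 * XVSy.qn b)) (IRe.TR r n (IRe.xR A) i (1 * XVSy.qn c)))) →
      μ.real {x | P (x i (1 * XVSy.qn a)) (x i (1 * XVSy.qn b)) (x i (1 * XVSy.qn c))} =
        m (ind E) := by
    intro i P a b c ha hb hc E hEn
    have hcl := IRe.clopen i P (1 * XVSy.qn a) (1 * XVSy.qn b) (1 * XVSy.qn c)
    have e1 := hint (IRe.ic _ hcl)
    have e2 : ∫ x, (IRe.ic _ hcl) x ∂μ =
        μ.real {x | P (x i (1 * XVSy.qn a)) (x i (1 * XVSy.qn b)) (x i (1 * XVSy.qn c))} := by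
      show ∫ x, Set.indicator {x : Fin r → ℚ → Bool | P (x i (1 * XVSy.qn a))
        (x i (1 * XVSy.qn b)) (x i (1 * XVSy.qn c))} (fun _ => (1 : ℝ)) x ∂μ = _
      rw [integral_indicator_const _ hcl.isClosed.measurableSet]
      simp
    rw [← e2, e1]
    refine XVSy.m_congr hm (IRe.bdR _ _) (XVSy.bd_ind E) fun n hn => ?_
    show Set.indicator {x : Fin r → ℚ → Bool | P (x i (1 * XVSy.qn a)) (x i (1 * XVSy.qn b))
      (x i (1 * XVSy.qn c))} (fun _ => (1 : ℝ)) (IRe.TR r n (IRe.xR A)) = ind E n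
    unfold ind
    by_cases hnE : n ∈ E
    · rw [Set.indicator_of_mem hnE, Set.indicator_of_mem]
      exact (hEn n hn).1 hnE
    · rw [Set.indicator_of_notMem hnE, Set.indicator_of_notMem]
      exact fun h => hnE ((hEn n hn).2 h)
  refine ⟨Fin r → ℚ → Bool, inferInstance, μ, hμ, ⟨IRe.TR r, hmp, IRe.TR_mul⟩,
    fun i => {x | x i 1 = true}, ?_, ?_, ?_⟩
  · exact fun i => (IRe.clopen i (fun u _ _ => u = true) 1 1 1).isClosed.measurableSet
  · intro i a b c ha hb hc
    refine hE i (fun u v w => u = true ∧ v = true ∧ w = true) a b c ha hb hc _ fun n hn => ?_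
    rw [IRe.xR_mul A i ha hn, IRe.xR_mul A i hb hn, IRe.xR_mul A i hc hn]
    rfl
  · intro i p q hp hq
    refine hE i (fun u v _ => ¬(u = true ↔ v = true)) p q p hp hq hp _ fun n hn => ?_
    rw [IRe.xR_mul A i hp hn, IRe.xR_mul A i hq hn]
    rfl

end Pool.Agent.F0f91f8.PC
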