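import Mathlib
import Pool.Agent.Work.MP_0f91f8_co.PC.StmtsR

/-!
# Block PC, item Rf: the integral of a finitely additive measure
-/

set_option autoImplicit false

namespace Pool.Agent.F0f91f8.PC

open Pool.Agent.F0f91f8.FC

namespace IRf

open scoped BigOperators

variable {m : Set ℕ+ → ℝ}

theorem empty (hadd : ∀ A B : Set ℕ+, Disjoint A B → m (A ∪ B) = m A + m B) : m ∅ = 0 := by
  have h := hadd ∅ ∅ disjoint_bot_left
  rw [Set.union_empty] at h
  linarith

theorem pre_sum {β : Type} [DecidableEq β]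
    (hadd : ∀ A B : Set ℕ+, Disjoint A B → m (A ∪ B) = m A + m B)
    (f : ℕ+ → β) (S : Finset β) : m {x | f x ∈ S} = ∑ s ∈ S, m {x | f x = s} := by
  induction S using Finset.induction_on with
  | empty =>
    rw [Finset.sum_empty]
    have : {x : ℕ+ | f x ∈ (∅ : Finset β)} = ∅ := by
      ext x
      simp
    rw [this]
    exact empty hadd
  | insert b S hb ih =>
    rw [Finset.sum_insert hb, ← ih, ← hadd]
    · congr 1
      ext x
      simp [Finset.mem_insert]
    · rw [Set.disjoint_left]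
      intro x hx hx'
      have h1 : f x = b := hx
      have h2 : f x ∈ S := hx'
      rw [h1] at h2
      exact hb h2

/-- the integral of an integer valued function -/
noncomputable def J (m : Set ℕ+ → ℝ) (g : ℕ+ → ℤ) : ℝ :=
  ∑ᶠ j : ℤ, (j : ℝ) * m {n | g n = j}

theorem J_eq {β : Type} [DecidableEq β]
    (hadd : ∀ A B : Set ℕ+, Disjoint A B → m (A ∪ B) = m A + m B)
    (φ : ℕ+ → β) (S : Finset β) (hS : ∀ n, φ n ∈ S) (w : β → ℤ) :
    J m (fun n => w (φ n)) = ∑ b ∈ S, (w b : ℝ) * m {n | φ n = b} := by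
  have h1 : J m (fun n => w (φ n)) = ∑ j ∈ S.image w, (j : ℝ) * m {n | w (φ n) = j} := by
    refine finsum_eq_sum_of_support_subset _ ?_
    intro j hj
    by_contra hcon
    apply hj
    have e : {n | w (φ n) = j} = (∅ : Set ℕ+) := by
      ext n
      simp only [Set.mem_ofPred_eq, Set.mem_empty_iff_false, iff_false]
      intro h
      exact hcon (Finset.mem_coe.2 (Finset.mem_image.2 ⟨φ n, hS n, h⟩))
    show (j : ℝ) * m {n | w (φ n) = j} = 0
    rw [e, empty hadd, mul_zero]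
  rw [h1]
  have h2 : ∀ j ∈ S.image w, (j : ℝ) * m {n | w (φ n) = j} =
      ∑ b ∈ S.filter (fun b => w b = j), (w b : ℝ) * m {n | φ n = b} := by
    intro j _
    have e : {n | w (φ n) = j} = {n | φ n ∈ S.filter (fun b => w b = j)} := by
      ext n
      simp [hS n]
    rw [e, pre_sum hadd, Finset.mul_sum]
    refine Finset.sum_congr rfl fun b hb => ?_
    rw [(Finset.mem_filter.1 hb).2]
  rw [Finset.sum_congr rfl h2]
  exact Finset.sum_fiberwise_of_maps_to (fun b hb => Finset.mem_image_of_mem w hb) _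

/-- bounded -/
def Bz (g : ℕ+ → ℤ) : Prop := ∃ L : ℤ, ∀ n, |g n| ≤ L

theorem J_add (hadd : ∀ A B : Set ℕ+, Disjoint A B → m (A ∪ B) = m A + m B)
    {g g' : ℕ+ → ℤ} (hg : Bz g) (hg' : Bz g') :
    J m (fun n => g n + g' n) = J m g + J m g' := by
  obtain ⟨L, hL⟩ := hg
  obtain ⟨L', hL'⟩ := hg'
  let φ : ℕ+ → ℤ × ℤ := fun n => (g n, g' n)
  let S : Finset (ℤ × ℤ) := Finset.Icc (-L) L ×ˢ Finset.Icc (-L') L'
  have hS : ∀ n, φ n ∈ S := fun n =>
    Finset.mem_product.2 ⟨Finset.mem_Icc.2 (abs_le.1 (hL n)), Finset.mem_Icc.2 (abs_le.1 (hL' n))⟩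
  have e1 : J m (fun n => g n + g' n) = _ := J_eq hadd φ S hS (fun b => b.1 + b.2)
  have e2 : J m g = _ := J_eq hadd φ S hS (fun b => b.1)
  have e3 : J m g' = _ := J_eq hadd φ S hS (fun b => b.2)
  rw [e1, e2, e3, ← Finset.sum_add_distrib]
  refine Finset.sum_congr rfl fun b _ => ?_
  push_cast
  ring

theorem J_mul (hadd : ∀ A B : Set ℕ+, Disjoint A B → m (A ∪ B) = m A + m B)
    {g : ℕ+ → ℤ} (hg : Bz g) (c : ℤ) : J m (fun n => c * g n) = c * J m g := by
  obtain ⟨L, hL⟩ := hg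
  have hS : ∀ n, g n ∈ Finset.Icc (-L) L := fun n => Finset.mem_Icc.2 (abs_le.1 (hL n))
  have e1 : J m (fun n => c * g n) = _ := J_eq hadd g _ hS (fun b => c * b)
  have e2 : J m g = _ := J_eq hadd g _ hS (fun b => b)
  rw [e1, e2, Finset.mul_sum]
  refine Finset.sum_congr rfl fun b _ => ?_
  push_cast
  ring

theorem J_const (hadd : ∀ A B : Set ℕ+, Disjoint A B → m (A ∪ B) = m A + m B)
    (h1 : m Set.univ = 1) (c : ℤ) : J m (fun _ => c) = c := by
  have e1 : J m (fun _ => c) = _ :=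
    J_eq hadd (fun _ => ()) {()} (fun _ => Finset.mem_singleton_self _) (fun _ => c)
  rw [e1, Finset.sum_singleton]
  have : {n : ℕ+ | () = ()} = Set.univ := by ext n; simp
  rw [this, h1, mul_one]

theorem J_nonneg (hadd : ∀ A B : Set ℕ+, Disjoint A B → m (A ∪ B) = m A + m B)
    (h0 : ∀ A, 0 ≤ m A) {g : ℕ+ → ℤ} (hg : ∀ n, 0 ≤ g n) : 0 ≤ J m g := by
  refine finsum_nonneg fun j => ?_
  by_cases hj : 0 ≤ j
  · exact mul_nonneg (by exact_mod_cast hj) (h0 _)
  · have e : {n | g n = j} = (∅ : Set ℕ+) := by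
      ext n
      simp only [Set.mem_ofPred_eq, Set.mem_empty_iff_false, iff_false]
      intro h
      exact hj (h ▸ hg n)
    rw [e, empty hadd, mul_zero]

theorem Bz.add {g g' : ℕ+ → ℤ} (hg : Bz g) (hg' : Bz g') : Bz fun n => g n + g' n := by
  obtain ⟨L, hL⟩ := hg
  obtain ⟨L', hL'⟩ := hg'
  exact ⟨L + L', fun n => (abs_add_le _ _).trans (add_le_add (hL n) (hL' n))⟩

theorem Bz.mul {g : ℕ+ → ℤ} (hg : Bz g) (c : ℤ) : Bz fun n => c * g n := by
  obtain ⟨L, hL⟩ := hg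
  exact ⟨|c| * L, fun n => by
    rw [abs_mul]
    exact mul_le_mul_of_nonneg_left (hL n) (abs_nonneg c)⟩

theorem Bz.const (c : ℤ) : Bz fun _ => c := ⟨|c|, fun _ => le_refl _⟩

theorem J_mono (hadd : ∀ A B : Set ℕ+, Disjoint A B → m (A ∪ B) = m A + m B)
    (h0 : ∀ A, 0 ≤ m A) {g g' : ℕ+ → ℤ} (hg : Bz g) (hg' : Bz g') (h : ∀ n, g n ≤ g' n) :
    J m g ≤ J m g' := by
  have e := J_add hadd hg (hg'.add (hg.mul (-1)))
  have e2 : (fun n => g n + (g' n + -1 * g n)) = g' := by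
    funext n
    ring
  rw [e2] at e
  have := J_nonneg hadd h0 (g := fun n => g' n + -1 * g n) (fun n => by linarith [h n])
  linarith

/-- the approximations -/
noncomputable def a (m : Set ℕ+ → ℝ) (f : ℕ → ℝ) (N : ℕ) : ℝ :=
  J m (fun n : ℕ+ => ⌊((N : ℝ) + 1) * f n⌋) / ((N : ℝ) + 1)

theorem bz_floor {f : ℕ → ℝ} (hf : BdR f) (N : ℕ) : Bz fun n : ℕ+ => ⌊((N : ℝ) + 1) * f n⌋ := by
  obtain ⟨C, hC⟩ := hf
  have hN : (0 : ℝ) < (N : ℝ) + 1 := by positivity
  refine ⟨⌈((N : ℝ) + 1) * C⌉ + 1, fun n => ?_⟩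
  have h1 := abs_le.1 (hC n)
  have h2 : ((N : ℝ) + 1) * f n ≤ ((N : ℝ) + 1) * C := mul_le_mul_of_nonneg_left h1.2 hN.le
  have h3 : ((N : ℝ) + 1) * (-C) ≤ ((N : ℝ) + 1) * f n := mul_le_mul_of_nonneg_left h1.1 hN.le
  have h4 := Int.le_ceil (((N : ℝ) + 1) * C)
  have h5 := Int.floor_le (((N : ℝ) + 1) * f n)
  have h6 := Int.lt_floor_add_one (((N : ℝ) + 1) * f n)
  rw [abs_le]
  constructor
  · have : (-(⌈((N : ℝ) + 1) * C⌉ + 1 : ℤ) : ℝ) ≤ (⌊((N : ℝ) + 1) * f n⌋ : ℝ) := by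
      push_cast
      linarith
    exact_mod_cast this
  · have : (⌊((N : ℝ) + 1) * f n⌋ : ℝ) ≤ ((⌈((N : ℝ) + 1) * C⌉ + 1 : ℤ) : ℝ) := by
      push_cast
      linarith
    exact_mod_cast this

theorem a_le (hadd : ∀ A B : Set ℕ+, Disjoint A B → m (A ∪ B) = m A + m B)
    (h0 : ∀ A, 0 ≤ m A) (h1 : m Set.univ = 1) {f : ℕ → ℝ} (hf : BdR f) (N M : ℕ) :
    a m f N ≤ a m f M + 1 / ((M : ℝ) + 1) := by
  have hN : (0 : ℝ) < (N : ℝ) + 1 := by positivity
  have hM : (0 : ℝ) < (M : ℝ) + 1 := by positivity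
  have bN := bz_floor hf N
  have bM := bz_floor hf M
  have e1 := J_mul hadd bN ((M : ℤ) + 1)
  have e2 := J_mul hadd bM ((N : ℤ) + 1)
  have e3 := J_add hadd (bM.mul ((N : ℤ) + 1)) (Bz.const ((N : ℤ) + 1))
  have e4 := J_const hadd h1 ((N : ℤ) + 1)
  have hmono := J_mono hadd h0 (bN.mul ((M : ℤ) + 1))
    ((bM.mul ((N : ℤ) + 1)).add (Bz.const ((N : ℤ) + 1))) (fun n => by
      have h5 := Int.floor_le (((N : ℝ) + 1) * f n)
      have h6 := Int.lt_floor_add_one (((M : ℝ) + 1) * f n)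
      have h7 : ((M : ℝ) + 1) * (⌊((N : ℝ) + 1) * f n⌋ : ℝ) ≤
          ((N : ℝ) + 1) * (⌊((M : ℝ) + 1) * f n⌋ : ℝ) + ((N : ℝ) + 1) := by
        calc ((M : ℝ) + 1) * (⌊((N : ℝ) + 1) * f n⌋ : ℝ)
            ≤ ((M : ℝ) + 1) * (((N : ℝ) + 1) * f n) := mul_le_mul_of_nonneg_left h5 hM.le
          _ = ((N : ℝ) + 1) * (((M : ℝ) + 1) * f n) := by ring
          _ ≤ ((N : ℝ) + 1) * ((⌊((M : ℝ) + 1) * f n⌋ : ℝ) + 1) :=
            mul_le_mul_of_nonneg_left h6.le hN.le
          _ = _ := by ring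
      exact_mod_cast h7)
  rw [e1, e3, e2, e4] at hmono
  push_cast at hmono
  unfold a
  rw [← add_div, div_le_div_iff₀ hN hM]
  linarith

/-- the mean -/
noncomputable def I (m : Set ℕ+ → ℝ) (f : ℕ → ℝ) : ℝ := ⨆ N : ℕ, a m f N

theorem I_le (hadd : ∀ A B : Set ℕ+, Disjoint A B → m (A ∪ B) = m A + m B)
    (h0 : ∀ A, 0 ≤ m A) (h1 : m Set.univ = 1) {f : ℕ → ℝ} (hf : BdR f) (M : ℕ) :
    I m f ≤ a m f M + 1 / ((M : ℝ) + 1) := ciSup_le fun N => a_le hadd h0 h1 hf N M

theorem le_I (hadd : ∀ A B : Set ℕ+, Disjoint A B → m (A ∪ B) = m A + m B)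
    (h0 : ∀ A, 0 ≤ m A) (h1 : m Set.univ = 1) {f : ℕ → ℝ} (hf : BdR f) (M : ℕ) :
    a m f M ≤ I m f :=
  le_ciSup (f := fun N => a m f N) ⟨_, by rintro _ ⟨N, rfl⟩; exact a_le hadd h0 h1 hf N 0⟩ M

theorem eq_of {x y c : ℝ} (h : ∀ K : ℕ, |x - y| ≤ c / ((K : ℝ) + 1)) : x = y := by
  by_contra hne
  have hpos : 0 < |x - y| := abs_pos.2 (sub_ne_zero.2 hne)
  obtain ⟨K, hK⟩ := exists_nat_gt (c / |x - y|)
  have h1 := h K
  rw [div_lt_iff₀ hpos] at hK
  rw [le_div_iff₀ (by positivity)] at h1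
  nlinarith

theorem BdR_add {f g : ℕ → ℝ} (hf : BdR f) (hg : BdR g) : BdR fun n => f n + g n := by
  obtain ⟨C, hC⟩ := hf
  obtain ⟨D, hD⟩ := hg
  exact ⟨C + D, fun n => (abs_add_le _ _).trans (add_le_add (hC n) (hD n))⟩

theorem BdR_mul {f : ℕ → ℝ} (hf : BdR f) (c : ℝ) : BdR fun n => c * f n := by
  obtain ⟨C, hC⟩ := hf
  exact ⟨|c| * C, fun n => by
    rw [abs_mul]
    exact mul_le_mul_of_nonneg_left (hC n) (abs_nonneg c)⟩

theorem I_add (hadd : ∀ A B : Set ℕ+, Disjoint A B → m (A ∪ B) = m A + m B)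
    (h0 : ∀ A, 0 ≤ m A) (h1 : m Set.univ = 1) {f g : ℕ → ℝ} (hf : BdR f) (hg : BdR g) :
    I m (fun n => f n + g n) = I m f + I m g := by
  refine eq_of (c := 3) fun K => ?_
  have hK : (0 : ℝ) < (K : ℝ) + 1 := by positivity
  have hfg := BdR_add hf hg
  have bf := bz_floor hf K
  have bg := bz_floor hg K
  have bfg := bz_floor hfg K
  have m1 := J_mono hadd h0 (bf.add bg) bfg (fun n => by
    show ⌊((K : ℝ) + 1) * f n⌋ + ⌊((K : ℝ) + 1) * g n⌋ ≤ ⌊((K : ℝ) + 1) * (f n + g n)⌋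
    rw [mul_add]
    exact Int.le_floor_add _ _)
  have m2 := J_mono hadd h0 bfg ((bf.add bg).add (Bz.const 1)) (fun n => by
    show ⌊((K : ℝ) + 1) * (f n + g n)⌋ ≤ ⌊((K : ℝ) + 1) * f n⌋ + ⌊((K : ℝ) + 1) * g n⌋ + 1
    have := Int.le_floor_add_floor (((K : ℝ) + 1) * f n) (((K : ℝ) + 1) * g n)
    rw [mul_add]
    linarith)
  rw [J_add hadd bf bg] at m1
  rw [J_add hadd (bf.add bg) (Bz.const 1), J_add hadd bf bg, J_const hadd h1] at m2
  push_cast at m2
  have i1 := I_le hadd h0 h1 hf K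
  have i2 := le_I hadd h0 h1 hf K
  have i3 := I_le hadd h0 h1 hg K
  have i4 := le_I hadd h0 h1 hg K
  have i5 := I_le hadd h0 h1 hfg K
  have i6 := le_I hadd h0 h1 hfg K
  have n1 : a m f K + a m g K ≤ a m (fun n => f n + g n) K := by
    unfold a
    rw [← add_div]
    exact div_le_div_of_nonneg_right m1 hK.le
  have n2 : a m (fun n => f n + g n) K ≤ a m f K + a m g K + 1 / ((K : ℝ) + 1) := by
    unfold a
    rw [← add_div, ← add_div]
    exact div_le_div_of_nonneg_right m2 hK.le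
  have e3 : (3 : ℝ) / ((K : ℝ) + 1) = 1 / ((K : ℝ) + 1) + 1 / ((K : ℝ) + 1) + 1 / ((K : ℝ) + 1) := by
    ring
  have hp : 0 ≤ 1 / ((K : ℝ) + 1) := by positivity
  rw [e3, abs_le]
  constructor <;> linarith

theorem I_nonneg (hadd : ∀ A B : Set ℕ+, Disjoint A B → m (A ∪ B) = m A + m B)
    (h0 : ∀ A, 0 ≤ m A) (h1 : m Set.univ = 1) {f : ℕ → ℝ} (hf : BdR f)
    (h : ∀ n, 0 < n → 0 ≤ f n) : 0 ≤ I m f := by
  refine le_trans ?_ (le_I hadd h0 h1 hf 0)
  refine div_nonneg (J_nonneg hadd h0 fun n => ?_) (by positivity)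
  exact Int.floor_nonneg.2 (mul_nonneg (by positivity) (h n n.pos))

theorem I_one (hadd : ∀ A B : Set ℕ+, Disjoint A B → m (A ∪ B) = m A + m B)
    (h1 : m Set.univ = 1) : I m (fun _ => 1) = 1 := by
  have : ∀ N : ℕ, a m (fun _ => 1) N = 1 := by
    intro N
    have hN : (0 : ℝ) < (N : ℝ) + 1 := by positivity
    unfold a
    have e : (fun _ : ℕ+ => ⌊((N : ℝ) + 1) * 1⌋) = fun _ => ((N : ℤ) + 1) := by
      funext n
      rw [mul_one, Int.floor_eq_iff]
      push_cast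
      constructor <;> linarith
    rw [e, J_const hadd h1]
    push_cast
    exact div_self hN.ne'
  unfold I
  simp only [this]
  exact ciSup_const

theorem I_smul (hadd : ∀ A B : Set ℕ+, Disjoint A B → m (A ∪ B) = m A + m B)
    (h0 : ∀ A, 0 ≤ m A) (h1 : m Set.univ = 1) {f : ℕ → ℝ} (hf : BdR f) (c : ℝ) :
    I m (fun n => c * f n) = c * I m f := by
  obtain ⟨C, hC⟩ := id hf
  have hC0 : 0 ≤ C := (abs_nonneg _).trans (hC 0)
  have hz : I m (fun _ => 0) = 0 := by
    have hb : BdR fun _ => (0 : ℝ) := ⟨0, fun _ => by simp⟩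
    have := I_add hadd h0 h1 hb hb
    simp only [add_zero] at this
    linarith
  let A : ℝ →+ ℝ :=
    { toFun := fun c => I m fun n => c * f n
      map_zero' := by
        show I m (fun n => 0 * f n) = 0
        simp only [zero_mul]
        exact hz
      map_add' := by
        intro c d
        show I m (fun n => (c + d) * f n) = I m (fun n => c * f n) + I m fun n => d * f n
        rw [← I_add hadd h0 h1 (BdR_mul hf c) (BdR_mul hf d)]
        congr 1
        funext n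
        ring }
  have hb1 : BdR fun _ => (1 : ℝ) := ⟨1, fun _ => by simp⟩
  have hmono : ∀ {f g : ℕ → ℝ}, BdR f → BdR g → (∀ n, f n ≤ g n) → I m f ≤ I m g := by
    intro f g hf hg h
    have e := I_add hadd h0 h1 hf (BdR_add hg (BdR_mul hf (-1)))
    have e2 : (fun n => f n + (g n + -1 * f n)) = g := by
      funext n
      ring
    rw [e2] at e
    have := I_nonneg hadd h0 h1 (BdR_add hg (BdR_mul hf (-1))) (fun n _ => by linarith [h n])
    linarith
  -- bounds for constants through integers: `|I g| ≤ B + ..` by comparison with the approximations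
  have hbound : ∀ {g : ℕ → ℝ} {B : ℝ}, (∀ n, |g n| ≤ B) → |I m g| ≤ B := by
    intro g B hB
    have hg : BdR g := ⟨B, hB⟩
    have hKK : ∀ K : ℕ, |I m g| ≤ B + 2 / ((K : ℝ) + 1) := by
      intro K
      have hK : (0 : ℝ) < (K : ℝ) + 1 := by positivity
      have b := bz_floor hg K
      have u1 := J_mono hadd h0 b (Bz.const ⌊((K : ℝ) + 1) * B⌋) (fun n =>
        Int.floor_le_floor (mul_le_mul_of_nonneg_left (abs_le.1 (hB n)).2 hK.le))
      have u2 := J_mono hadd h0 (Bz.const ⌊((K : ℝ) + 1) * (-B)⌋) b (fun n =>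
        Int.floor_le_floor (mul_le_mul_of_nonneg_left (abs_le.1 (hB n)).1 hK.le))
      rw [J_const hadd h1] at u1 u2
      have f1 := Int.floor_le (((K : ℝ) + 1) * B)
      have f2 := Int.lt_floor_add_one (((K : ℝ) + 1) * (-B))
      have v1 : a m g K ≤ B := by
        unfold a
        rw [div_le_iff₀ hK]
        linarith
      have v2 : -B - 1 / ((K : ℝ) + 1) ≤ a m g K := by
        unfold a
        rw [le_div_iff₀ hK, sub_mul, one_div, inv_mul_cancel₀ hK.ne']
        linarith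
      have i1 := I_le hadd h0 h1 hg K
      have i2 := le_I hadd h0 h1 hg K
      have hp : 0 ≤ 1 / ((K : ℝ) + 1) := by positivity
      have e2 : (2 : ℝ) / ((K : ℝ) + 1) = 1 / ((K : ℝ) + 1) + 1 / ((K : ℝ) + 1) := by ring
      rw [e2, abs_le]
      constructor <;> linarith
    by_contra hcon
    push Not at hcon
    obtain ⟨K, hK⟩ := exists_nat_gt (2 / (|I m g| - B))
    have hp : 0 < |I m g| - B := by linarith
    have h2 := hKK K
    rw [div_lt_iff₀ hp] at hK
    have h3 : 2 / ((K : ℝ) + 1) < |I m g| - B := by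
      rw [div_lt_iff₀ (by positivity)]
      nlinarith
    linarith
  have hcont : Continuous A := by
    refine AddMonoidHomClass.continuous_of_bound A C fun x => ?_
    have : |I m fun n => x * f n| ≤ C * |x| := hbound fun n => by
      rw [abs_mul, mul_comm]
      exact mul_le_mul_of_nonneg_right (hC n) (abs_nonneg x)
    exact this
  have key := map_real_smul A hcont c 1
  have e1 : A (c • (1 : ℝ)) = I m fun n => c * f n := by
    show I m (fun n => (c • (1 : ℝ)) * f n) = _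
    rw [smul_eq_mul, mul_one]
  have e2 : A 1 = I m f := by
    show I m (fun n => 1 * f n) = _
    simp only [one_mul]
  rw [e1, e2, smul_eq_mul] at key
  exact key

end IRf

open IRf in
theorem pr_Rf : StRf := by
  intro m h0 h1 hadd hinv
  refine ⟨I m, ⟨?_, ?_, ?_, ?_, ?_⟩, ?_⟩
  · intro f g hf hg
    exact I_add hadd h0 h1 hf hg
  · intro c f hf
    exact I_smul hadd h0 h1 hf c
  · intro f hf h
    exact I_nonneg hadd h0 h1 hf h
  · exact I_one hadd h1
  · intro k hk f _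
    unfold IRf.I
    congr 1
    funext N
    unfold IRf.a IRf.J
    congr 1
    refine finsum_congr fun j => ?_
    congr 1
    rw [← hinv ⟨k, hk⟩ {n : ℕ+ | ⌊((N : ℝ) + 1) * f n⌋ = j}]
    congr 1
  · intro A
    have : ∀ N : ℕ, IRf.a m (ind A) N = m {n : ℕ+ | (n : ℕ) ∈ A} := by
      intro N
      classical
      have hN : (0 : ℝ) < (N : ℝ) + 1 := by positivity
      unfold IRf.a
      have e : (fun n : ℕ+ => ⌊((N : ℝ) + 1) * ind A n⌋) =
          fun n : ℕ+ => (fun b : Bool => if b then ((N : ℤ) + 1) else 0) (decide ((n : ℕ) ∈ A)) := by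
        funext n
        by_cases hn : (n : ℕ) ∈ A
        · simp only [hn, decide_true, if_true]
          rw [show ind A n = 1 from by unfold ind; simp [hn], mul_one, Int.floor_eq_iff]
          push_cast
          constructor <;> linarith
        · simp only [hn, decide_false]
          rw [show ind A n = 0 from by unfold ind; simp [hn], mul_zero, Int.floor_zero]
          simp
      rw [e, J_eq hadd (fun n : ℕ+ => decide ((n : ℕ) ∈ A)) Finset.univ
        (fun n => Finset.mem_univ _) (fun b : Bool => if b then ((N : ℤ) + 1) else 0)]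
      rw [Fintype.sum_bool]
      simp only [if_true, decide_eq_true_eq, Bool.false_eq_true, if_false, Int.cast_zero,
        zero_mul, add_zero]
      push_cast
      field_simp
    unfold IRf.I
    simp only [this]
    exact ciSup_const

end Pool.Agent.F0f91f8.PC
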