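import Mathlib
import Pool.Agent.Work.MP_0f91f8_co.PC.StmtsR

/-!
# Block PC, item Rg: the final form for finitely additive dilation invariant measures
-/

set_option autoImplicit false

namespace Pool.Agent.F0f91f8.PC

open Filter Topology ComplexConjugate MeasureTheory
open Pool.Agent.F0f91f8.HD Pool.Agent.F0f91f8.RC Pool.Agent.F0f91f8.KR Pool.Agent.F0f91f8.FC
open scoped BigOperators

namespace IRg

theorem real_one {X : Type} [MeasurableSpace X] {μ : Measure X} (S : Sys μ) {B : Set X}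
    (hB : MeasurableSet B) : μ.real {x | S.T 1 x ∈ B ∧ S.T 1 x ∈ B ∧ S.T 1 x ∈ B} = μ.real B := by
  have e : {x | S.T 1 x ∈ B ∧ S.T 1 x ∈ B ∧ S.T 1 x ∈ B} = (S.T 1) ⁻¹' B := by
    ext x
    simp only [Set.mem_ofPred_eq, Set.mem_preimage, and_self]
  rw [e]
  unfold Measure.real
  rw [(S.mp 1 Nat.one_pos).measure_preimage hB.nullMeasurableSet]

/-- the set of the natural numbers in `A` -/
def up (A : Set ℕ+) : Set ℕ := {n | ∃ h : 0 < n, (⟨n, h⟩ : ℕ+) ∈ A}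

theorem mem_up (A : Set ℕ+) (n : ℕ+) : (n : ℕ) ∈ up A ↔ n ∈ A := by
  constructor
  · rintro ⟨h, hn⟩
    exact hn
  · intro hn
    exact ⟨n.pos, hn⟩

theorem mul_mem_up (A : Set ℕ+) (p n : ℕ+) : (p : ℕ) * (n : ℕ) ∈ up A ↔ p * n ∈ A := by
  rw [← PNat.mul_coe, mem_up]

end IRg

open IRg in
theorem pr_Rg (hX : FinXR) (hSy : SysR) (hf : StRf) : FinR := by
  classical
  intro r ε hε
  obtain ⟨R, hR⟩ := hX r ε hε
  refine ⟨R, fun m h0 h1 hadd hinv A hA => ?_⟩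
  obtain ⟨m', hm', hmA⟩ := hf m h0 h1 hadd hinv
  obtain ⟨X, mX, μ, pμ, S, B, hB, h3, hd⟩ := hSy m' hm' r fun i => up (A i)
  have hdd : ∀ i (p q : ℕ+), dd S (B i) p q = m {n | ¬(p * n ∈ A i ↔ q * n ∈ A i)} := by
    intro i p q
    rw [hd i p q p.pos q.pos, hmA]
    congr 1
    ext n
    show ¬((p : ℕ) * (n : ℕ) ∈ up (A i) ↔ (q : ℕ) * (n : ℕ) ∈ up (A i)) ↔
      ¬(p * n ∈ A i ↔ q * n ∈ A i)
    rw [mul_mem_up, mul_mem_up]
  have hL : LPR R (fun p q => ∑ i, dd S (B i) p q) := by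
    intro δ hδ
    have hr : (0 : ℝ) < (r : ℝ) + 1 := by positivity
    have hδ' : 0 < δ / ((r : ℝ) + 1) := div_pos hδ hr
    have hle : δ / ((r : ℝ) + 1) ≤ δ := div_le_self hδ.le (by linarith [Nat.cast_nonneg (α := ℝ) r])
    obtain ⟨J, hJ⟩ := hA _ hδ'
    refine ⟨J, fun Y₀ => ?_⟩
    obtain ⟨Y, hY, D, hD, hs⟩ := hJ ⟨Y₀ + 1, Nat.succ_pos _⟩
    have hYc : Y₀ + 1 ≤ (Y : ℕ) := by
      have : ((⟨Y₀ + 1, Nat.succ_pos _⟩ : ℕ+) : ℕ) ≤ (Y : ℕ) := PNat.coe_le_coe _ _ |>.2 hY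
      exact this
    let q : Fin J → ℕ+ := fun j => if h : (j : ℕ) < D.card then (D.equivFin.symm ⟨j, h⟩ : ℕ+) else 1
    have hq : ∀ d ∈ D, ∃ j, q j = d := by
      intro d hd'
      have hlt := (D.equivFin ⟨d, hd'⟩).2
      refine ⟨⟨(D.equivFin ⟨d, hd'⟩ : ℕ), lt_of_lt_of_le hlt hD⟩, ?_⟩
      show (if h : ((D.equivFin ⟨d, hd'⟩ : Fin D.card) : ℕ) < D.card then
        (D.equivFin.symm ⟨((D.equivFin ⟨d, hd'⟩ : Fin D.card) : ℕ), h⟩ : ℕ+) else 1) = d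
      rw [dif_pos hlt]
      show ((D.equivFin.symm (D.equivFin ⟨d, hd'⟩) : D) : ℕ+) = d
      rw [Equiv.symm_apply_apply]
    have hcl : ∃ cl : ℕ → Option (Fin J),
        (∀ p j, cl p = some j → ∀ i, dd S (B i) p (q j) ≤ δ / ((r : ℝ) + 1)) ∧
        ∀ p, cl p = none → ¬ ∃ j : Fin J, ∀ i, dd S (B i) p (q j) ≤ δ / ((r : ℝ) + 1) := by
      refine ⟨fun p => if h : ∃ j : Fin J, ∀ i, dd S (B i) p (q j) ≤ δ / ((r : ℝ) + 1) then
        some h.choose else none, fun p j hpj => ?_, fun p hp h => ?_⟩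
      · by_cases h : ∃ j : Fin J, ∀ i, dd S (B i) p (q j) ≤ δ / ((r : ℝ) + 1)
        · simp only [dif_pos h] at hpj
          have hj : h.choose = j := Option.some.inj hpj
          have hc := h.choose_spec
          rw [hj] at hc
          exact hc
        · simp only [dif_neg h] at hpj
          exact absurd hpj (by simp)
      · simp only [dif_pos h] at hp
        exact absurd hp (by simp)
    obtain ⟨cl, hc1, hc2⟩ := hcl
    refine ⟨Y, by omega, fun j => (q j : ℕ), cl, fun j => (q j).pos, ?_, ?_⟩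
    · intro p j _ hpj
      have hc := hc1 p j hpj
      calc ∑ i, dd S (B i) p (q j) ≤ ∑ _i : Fin r, δ / ((r : ℝ) + 1) :=
            Finset.sum_le_sum fun i _ => hc i
        _ = (r : ℝ) * (δ / ((r : ℝ) + 1)) := by
            rw [Finset.sum_const, Finset.card_univ, Fintype.card_fin, nsmul_eq_mul]
        _ ≤ ((r : ℝ) + 1) * (δ / ((r : ℝ) + 1)) := by
            apply mul_le_mul_of_nonneg_right (by linarith) hδ'.le
        _ = δ := by field_simp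
    · refine le_trans ?_ (hs.trans hle)
      rw [← Finset.sum_image (f := fun p : ℕ => 1 / (p : ℝ)) (g := fun p : ℕ+ => (p : ℕ))
        (fun a _ b _ h => PNat.coe_injective h)]
      refine Finset.sum_le_sum_of_subset_of_nonneg ?_ fun p _ _ => by positivity
      intro p hp
      rw [Finset.mem_filter, Finset.mem_Icc] at hp
      obtain ⟨⟨hp1, hp2⟩, hp3, hp4, hp5⟩ := hp
      obtain ⟨P, rfl⟩ : ∃ P : ℕ+, (P : ℕ) = p := ⟨⟨p, hp3.pos⟩, rfl⟩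
      refine Finset.mem_image.2 ⟨P, ?_, rfl⟩
      refine Finset.mem_filter.2 ⟨Finset.mem_Ioc.2 ⟨hp4, ?_⟩, hp3, ?_⟩
      · show (P : ℕ) ≤ ((Y ^ R : ℕ+) : ℕ)
        rw [PNat.pow_coe]
        exact hp2
      · intro d hd'
        by_contra hcon
        have hcon' : ∀ i, m {n | ¬(P * n ∈ A i ↔ d * n ∈ A i)} ≤
            δ / ((r : ℝ) + 1) := fun i => not_lt.1 fun h => hcon ⟨i, h⟩
        have hex : ∃ j : Fin J, ∀ i, dd S (B i) P (q j) ≤ δ / ((r : ℝ) + 1) := by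
          obtain ⟨j, hj⟩ := hq d hd'
          refine ⟨j, fun i => ?_⟩
          rw [hj]
          exact (le_of_eq (hdd i P d)).trans (hcon' i)
        exact hc2 P hp5 hex
  have hreal : ∀ i, μ.real (B i) = m (A i) := by
    intro i
    rw [← real_one S (hB i), h3 i 1 1 1 Nat.one_pos Nat.one_pos Nat.one_pos, hmA]
    congr 1
    ext n
    show (1 * (n : ℕ) ∈ up (A i) ∧ 1 * (n : ℕ) ∈ up (A i) ∧ 1 * (n : ℕ) ∈ up (A i)) ↔ n ∈ A i
    rw [one_mul, mem_up]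
    tauto
  obtain ⟨x, y, z, hx, hy, hz, hxyz, hle⟩ := hR X mX μ pμ S B hB hL
  obtain ⟨x, rfl⟩ : ∃ x' : ℕ+, (x' : ℕ) = x := ⟨⟨x, hx⟩, rfl⟩
  obtain ⟨y, rfl⟩ : ∃ y' : ℕ+, (y' : ℕ) = y := ⟨⟨y, hy⟩, rfl⟩
  obtain ⟨z, rfl⟩ : ∃ z' : ℕ+, (z' : ℕ) = z := ⟨⟨z, hz⟩, rfl⟩
  refine ⟨x, y, z, ?_, ?_⟩
  · apply PNat.coe_injective
    exact hxyz
  · have e : ∀ i, μ.real {t | S.T x t ∈ B i ∧ S.T y t ∈ B i ∧ S.T z t ∈ B i} =
        m {n | x * n ∈ A i ∧ y * n ∈ A i ∧ z * n ∈ A i} := by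
      intro i
      rw [h3 i x y z hx hy hz, hmA]
      congr 1
      ext n
      show ((x : ℕ) * (n : ℕ) ∈ up (A i) ∧ (y : ℕ) * (n : ℕ) ∈ up (A i) ∧
        (z : ℕ) * (n : ℕ) ∈ up (A i)) ↔ (x * n ∈ A i ∧ y * n ∈ A i ∧ z * n ∈ A i)
      rw [mul_mem_up, mul_mem_up, mul_mem_up]
    simp only [hreal, e] at hle
    exact hle

end Pool.Agent.F0f91f8.PC
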