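import Pool.Agent.Work.MP_0f91f8_co.PC.AllC
import Pool.Agent.Work.MP_0f91f8_co.PC.AllG
import Pool.Agent.Work.MP_0f91f8_co.PC.AllV
import Pool.Agent.Work.MP_0f91f8_co.PC.AllP
import Pool.Agent.Work.MP_0f91f8_co.PC.AllB
import Pool.Agent.Work.MP_0f91f8_co.PC.I_DA
import Pool.Agent.Work.MP_0f91f8_co.PC.I_DB
import Pool.Agent.Work.MP_0f91f8_co.PC.I_Ra
import Pool.Agent.Work.MP_0f91f8_co.PC.I_Rb
import Pool.Agent.Work.MP_0f91f8_co.PC.I_Rc
import Pool.Agent.Work.MP_0f91f8_co.PC.I_Rd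
import Pool.Agent.Work.MP_0f91f8_co.PC.I_Re
import Pool.Agent.Work.MP_0f91f8_co.PC.I_Rf
import Pool.Agent.Work.MP_0f91f8_co.PC.I_Rg
import Pool.Agent.Work.MP_0f91f8_co.K.I_AvL
import Pool.Agent.Work.MP_0f91f8_co.K.I_AvP
import Pool.Agent.Work.MP_0f91f8_co.K.I_Nst

/-!
# Block PC: composition, no hypotheses (helper40)

`all_FinR` is the final form of THEOREM PC.
-/

set_option autoImplicit false

namespace Pool.Agent.F0f91f8.PC

open Pool.Agent.F0f91f8.HD Pool.Agent.F0f91f8.RC Pool.Agent.F0f91f8.KR Pool.Agent.F0f91f8.FC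

/-- pairs of classes -/
theorem all_ClpS : ClpS := clpS_of all_NPc all_Clm

theorem all_GoodR : GoodR :=
  pr_Rb pr_RGc pr_RPq all_KPr pr_GAv (pr_Ra FC.pr_Ch all_KPr) pr_GSa (pr_GSm pr_RMd) pr_GHn
    (pr_GSz all_KPr) all_GPp

theorem all_ContR : ContR := pr_Rc all_CT all_CAv all_GoodR all_Gam

theorem all_DA : StDA := pr_DA KR.pr_AvL KR.pr_AvP all_CB all_CV

/-- ergodic form -/
theorem all_FinXR : FinXR :=
  pr_Rd all_SpecS all_ClsS all_ContR all_ClpS all_MainS KR.pr_AvL KR.pr_AvP KR.pr_Nst all_CB all_DA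
    (pr_DB all_DA)

/-- THEOREM PC -/
theorem all_FinR : FinR := pr_Rg all_FinXR (pr_Re pr_VRk) pr_Rf

end Pool.Agent.F0f91f8.PC
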