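import Pool.Agent.Work.MP_0f91f8_co.FC.DefsS
import Pool.Agent.Work.MP_0f91f8_co.EF.Defs
import Pool.Agent.Work.MP_0f91f8_co.K.DefsD

/-!
# Sets compact along the primes: definitions and interface statements (block PC, MP_0f91f8_co)

THEOREM PC. `m` a dilation invariant mean, `A` a set of integers whose prime dilates are locally totally
bounded at arbitrarily large scales (`LPC`). Then for every `ε > 0` there is a Pythagorean triple with
`m (A/x ∩ A/y ∩ A/z) ≥ m(A)³ - ε`.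

Family: `AvK 1 w K M` of block K (`x = tX κ k a n`, `y = tY κ k a n`, `z = tZ κ k a n`, `κ = kR 1 w K e`,
`k = kK 1 w K e'`, `a ≡ n ≡ 1` modulo `w!`).

Modules: SYS `SysS`; SP `SpecS`, `ClsS`; CT `ContS`; CP `ClpS`; MN `MainS`; assembly `FinX`, `FinPM`, `FinPC`.
-/

set_option autoImplicit false

namespace Pool.Agent.F0f91f8.PC

open Filter Topology ComplexConjugate MeasureTheory
open Pool.Agent.F0f91f8.HD Pool.Agent.F0f91f8.RC Pool.Agent.F0f91f8.KR Pool.Agent.F0f91f8.FC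
open Pool.Agent.Work.MP_0f91f8_co.EF (GG ev)
open scoped BigOperators

/-! ## Systems -/

/-- an invertible measure preserving action of the multiplicative semigroup of positive integers
(`T 0` is irrelevant) -/
structure Sys {X : Type} [MeasurableSpace X] (μ : Measure X) where
  T : ℕ → X ≃ᵐ X
  mp : ∀ n, 0 < n → MeasurePreserving (T n) μ μ
  mul : ∀ m n, 0 < m → 0 < n → ∀ x, T (m * n) x = T m (T n x)

open Classical in
/-- the class of a function in `L²` (`0` if the function is not in `L²`) -/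
noncomputable def bl {Y : Type} [MeasurableSpace Y] (ν : Measure Y) (φ : Y → ℂ) : Lp ℂ 2 ν :=
  if h : MemLp φ 2 ν then h.toLp φ else 0

/-- the class of the indicator function of a set -/
noncomputable def b1 {Y : Type} [MeasurableSpace Y] (ν : Measure Y) (E : Set Y) : Lp ℂ 2 ν :=
  bl ν (E.indicator fun _ => (1 : ℂ))

section
variable {X : Type} [MeasurableSpace X] {μ : Measure X}

/-- `(U n F)(x) = F (T n x)` -/
noncomputable def U (S : Sys μ) (n : ℕ) : Lp ℂ 2 μ →ₗᵢ[ℂ] Lp ℂ 2 μ :=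
  if h : 0 < n then Lp.compMeasurePreservingₗᵢ ℂ (S.T n) (S.mp n h) else LinearIsometry.id

/-- `β_z(H, G) = ∫ 1_A(T z x) H(x) G(x) dμ` -/
noncomputable def bt (S : Sys μ) (A : Set X) (z : ℕ) (H G : Lp ℂ 2 μ) : ℂ :=
  ∫ x, A.indicator (fun _ => (1 : ℂ)) (S.T z x) * H x * G x ∂μ

/-- spectral isometry of the vector `F`, `σ` is its spectral measure -/
structure SpV (S : Sys μ) (F : Lp ℂ 2 μ) (σ : Measure GG) where
  V : Lp ℂ 2 σ →ₗᵢ[ℂ] Lp ℂ 2 μ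
  one : V (b1 σ Set.univ) = F
  mul : ∀ n, 0 < n → ∀ φ : GG → ℂ, MemLp φ 2 σ →
    V (bl σ fun g => ev g n * φ g) = U S n (V (bl σ φ))

/-- the distance of `A/p` and `A/q` -/
noncomputable def dd (S : Sys μ) (A : Set X) (p q : ℕ) : ℝ :=
  μ.real {x | ¬(S.T p x ∈ A ↔ S.T q x ∈ A)}

end

/-! ## Compactness along the primes -/

/-- locally totally bounded along the primes, at arbitrarily large scales `Y` -/
def LPC (d : ℕ → ℕ → ℝ) : Prop :=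
  ∀ (R : ℕ) (δ : ℝ), 0 < δ → ∃ J : ℕ, ∀ Y₀ : ℕ, ∃ Y ≥ Y₀, ∃ (q : Fin J → ℕ) (cl : ℕ → Option (Fin J)),
    (∀ i, 0 < q i) ∧ (∀ (p : ℕ) (i : Fin J), p.Prime → cl p = some i → d p (q i) ≤ δ) ∧
    ∑ p ∈ (Finset.Icc 1 (Y ^ R)).filter (fun p => p.Prime ∧ Y < p ∧ cl p = none), 1 / (p : ℝ) ≤ δ

/-! ## Classes of completely multiplicative functions -/

/-- finite distance -/
def Rl (g g' : GG) : Prop :=
  Summable fun p : Nat.Primes => ‖1 - (g p : ℂ) * conj (g' p : ℂ)‖ ^ 2 / ((p : ℕ) : ℝ)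

/-- the class of `χ` -/
def cls (χ : GG) : Set GG := {g | Rl g χ}

/-- sets without related pairs, up to measure zero -/
def Cn (σ : Measure GG) (E : Set GG) : Prop :=
  MeasurableSet E ∧ (σ.prod σ) {p : GG × GG | p.1 ∈ E ∧ p.2 ∈ E ∧ Rl p.1 p.2} = 0

/-! ## Module SYS -/

/-- every mean and every set come from a system -/
def SysS : Prop := ∀ m : (ℕ → ℝ) → ℝ, IsMean m → ∀ A : Set ℕ,
  ∃ (X : Type) (_ : MeasurableSpace X) (μ : Measure X) (_ : IsProbabilityMeasure μ) (S : Sys μ)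
    (B : Set X), MeasurableSet B ∧
    (∀ a b c : ℕ, 0 < a → 0 < b → 0 < c →
      μ.real {x | S.T a x ∈ B ∧ S.T b x ∈ B ∧ S.T c x ∈ B} =
        m (ind {n | a * n ∈ A ∧ b * n ∈ A ∧ c * n ∈ A})) ∧
    ∀ p q : ℕ, 0 < p → 0 < q → dd S B p q = m (ind {n | ¬(p * n ∈ A ↔ q * n ∈ A)})

/-! ## Module SP -/

/-- every vector has a spectral isometry -/
def SpecS : Prop := ∀ (X : Type) (_ : MeasurableSpace X) (μ : Measure X) (_ : IsProbabilityMeasure μ)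
  (S : Sys μ) (F : Lp ℂ 2 μ), ∃ σ : Measure GG, IsFiniteMeasure σ ∧ Nonempty (SpV S F σ)

/-- countably many classes and the continuous part -/
def ClsS : Prop := ∀ (σ : Measure GG) (_ : IsFiniteMeasure σ), ∃ (C : ℕ → Set GG) (χ : ℕ → GG),
  (∀ j, MeasurableSet (C j) ∧ (C j = ∅ ∨ C j = cls (χ j))) ∧ (∀ i j, i ≠ j → Disjoint (C i) (C j)) ∧
  Cn σ (⋃ j, C j)ᶜ

/-! ## Module CT -/

/-- the continuous part disappears -/
def ContS : Prop := ∀ (X : Type) (_ : MeasurableSpace X) (μ : Measure X) (_ : IsProbabilityMeasure μ)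
  (S : Sys μ) (A : Set X), MeasurableSet A → LPC (dd S A) → ∀ (σ : Measure GG) (_ : IsFiniteMeasure σ)
  (V : SpV S (b1 μ A) σ) (E E' F F' : Set GG), MeasurableSet E → MeasurableSet E' →
  MeasurableSet F → MeasurableSet F' → (Cn σ E ∨ Cn σ E') → (Cn σ F ∨ Cn σ F') →
  ∀ ε : ℝ, 0 < ε → ∀ᶠ w in atTop, ∀ᶠ K in atTop, ∃ᶠ M in atTop,
    ‖AvK 1 w K M fun x y z => bt S A z (U S x (V.V (b1 σ E))) (U S y (V.V (b1 σ E')))‖ ≤ ε ∧
    ‖AvK 1 w K M fun x y z => bt S A z (U S x (V.V (b1 σ F))) (U S y (V.V (b1 σ F')))‖ ≤ ε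

/-! ## Module CP -/

/-- pairs of classes -/
def ClpS : Prop := ∀ (X : Type) (_ : MeasurableSpace X) (μ : Measure X) (_ : IsProbabilityMeasure μ)
  (S : Sys μ) (A : Set X), MeasurableSet A → ∀ (σ : Measure GG) (_ : IsFiniteMeasure σ)
  (V : SpV S (b1 μ A) σ) (χ χ' : GG) (ε : ℝ), 0 < ε → Nest fun w K M =>
    ‖AvK 1 w K M fun x y z => bt S A z (U S x (V.V (b1 σ (cls χ \ {1})))) (U S y (V.V (b1 σ (cls χ'))))‖
      ≤ ε

/-! ## Module MN -/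

/-- the main term -/
def MainS : Prop := ∀ (X : Type) (_ : MeasurableSpace X) (μ : Measure X) (_ : IsProbabilityMeasure μ)
  (S : Sys μ) (A : Set X), MeasurableSet A → ∀ (σ : Measure GG) (_ : IsFiniteMeasure σ)
  (V : SpV S (b1 μ A) σ) (ε : ℝ), 0 < ε → Nest fun w K M =>
    μ.real A ^ 3 - ε ≤
      (AvK 1 w K M fun x y z => bt S A z (U S x (V.V (b1 σ {1}))) (U S y (b1 μ A))).re

/-! ## The final forms -/

/-- ergodic form -/
def FinX : Prop := ∀ (X : Type) (_ : MeasurableSpace X) (μ : Measure X) (_ : IsProbabilityMeasure μ)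
  (S : Sys μ) (A : Set X), MeasurableSet A → LPC (dd S A) → ∀ ε : ℝ, 0 < ε →
  ∃ x y z : ℕ, 0 < x ∧ 0 < y ∧ 0 < z ∧ x ^ 2 + y ^ 2 = z ^ 2 ∧
    μ.real A ^ 3 - ε ≤ μ.real {t | S.T x t ∈ A ∧ S.T y t ∈ A ∧ S.T z t ∈ A}

/-- for means -/
def FinPM : Prop := ∀ m : (ℕ → ℝ) → ℝ, IsMean m → ∀ A : Set ℕ,
  LPC (fun p q => m (ind {n | ¬(p * n ∈ A ↔ q * n ∈ A)})) → ∀ ε : ℝ, 0 < ε →
  ∃ x y z : ℕ, 0 < x ∧ 0 < y ∧ 0 < z ∧ x ^ 2 + y ^ 2 = z ^ 2 ∧
    m (ind A) ^ 3 - ε ≤ m (ind {n | x * n ∈ A ∧ y * n ∈ A ∧ z * n ∈ A})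

/-- colourings with infinitely many classes of primes, boundedly many in `(Y, Y^R]` -/
def FinPC : Prop := ∀ cl : ℕ → ℕ,
  (∀ (R : ℕ) (δ : ℝ), 0 < δ → ∃ J : ℕ, ∀ Y₀ : ℕ, ∃ Y ≥ Y₀, ∃ D : Finset ℕ, D.card ≤ J ∧
    ∑ p ∈ (Finset.Icc 1 (Y ^ R)).filter (fun p => p.Prime ∧ Y < p ∧ cl p ∉ D), 1 / (p : ℝ) ≤ δ) →
  ∀ (r : ℕ) (c : ℕ → Fin r),
  (∀ p q : ℕ, p.Prime → q.Prime → cl p = cl q → ∀ n, 0 < n → c (p * n) = c (q * n)) →
  ∃ x y z : ℕ, 0 < x ∧ 0 < y ∧ 0 < z ∧ x ^ 2 + y ^ 2 = z ^ 2 ∧ c x = c y ∧ c y = c z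

end Pool.Agent.F0f91f8.PC
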