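import Pool.Agent.Work.MP_0f91f8_co.PC.Defs

/-!
# Block PC, module CT (the continuous part disappears): definitions and interface statements

`Lf κ n v` are the four forms `v, v + κ n, v + 2 κ n, (v + κ n)² + (κ n)²`, `v = k a`; so
`tX κ k a n = 2 κ n L₁`, `tY κ k a n = L₀ L₂`, `tZ κ k a n = L₃`. A form is `sm K L · sp K y L · rp y L`, the
parts in `[1, K]`, `(K, y]`, `(y, ∞)`. In the part `rp y L` the primes are replaced by the representatives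
`q (cl p)`: `rq y q cl L`. `y = Y` a scale of `LPC`, `M = Y^R`.
-/

set_option autoImplicit false

namespace Pool.Agent.F0f91f8.PC

open Filter Topology ComplexConjugate MeasureTheory
open Pool.Agent.F0f91f8.HD Pool.Agent.F0f91f8.RC Pool.Agent.F0f91f8.KR Pool.Agent.F0f91f8.FC
open Pool.Agent.Work.MP_0f91f8_co.EF (GG ev)
open scoped BigOperators

/-- the part of `N` composed of the primes `≤ K` -/
def sm (K N : ℕ) : ℕ := ∏ p ∈ N.primeFactors.filter (fun p => p ≤ K), p ^ N.factorization p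

/-- number of prime factors `> y`, with multiplicity -/
def nb (y N : ℕ) : ℕ := ∑ p ∈ N.primeFactors.filter (fun p => y < p), N.factorization p

/-- the representative of a prime -/
def rr {J : ℕ} (q : Fin J → ℕ) (cl : ℕ → Option (Fin J)) (p : ℕ) : ℕ :=
  match cl p with
  | some i => q i
  | none => 1

/-- the part in `(y, ∞)`, every prime replaced by its representative -/
def rq {J : ℕ} (y : ℕ) (q : Fin J → ℕ) (cl : ℕ → Option (Fin J)) (N : ℕ) : ℕ :=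
  ∏ p ∈ N.primeFactors.filter (fun p => y < p), rr q cl p ^ N.factorization p

/-- the possible values of `rq` -/
def Dq {J R' : ℕ} (q : Fin J → ℕ) (t : Fin J → Fin (R' + 1)) : ℕ := ∏ i, q i ^ (t i : ℕ)

/-- `(K, y]`-numbers -/
def Sy (K y s : ℕ) : Prop := 0 < s ∧ ∀ p : ℕ, p.Prime → p ∣ s → K < p ∧ p ≤ y

/-- the weight of a `(K, y]`-number, linear forms -/
noncomputable def w1 (K y s : ℕ) : ℝ :=
  1 / (s : ℝ) * (∏ p ∈ s.primeFactors, (1 - 5 / (p : ℝ))⁻¹) * ∏ p ∈ PN K y 1, (1 - 1 / (p : ℝ))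

/-- the weight of a `(K, y]`-number, norm form -/
noncomputable def w3 (K y s : ℕ) : ℝ :=
  (rho4 s : ℝ) / (s : ℝ) * (∏ p ∈ s.primeFactors, (1 - 5 / (p : ℝ))⁻¹) *
    ∏ p ∈ PN K y 1, (1 - (rho p : ℝ) / (p : ℝ))

/-- the factor of `n` -/
noncomputable def hn (K y n : ℕ) : ℝ :=
  ∏ p ∈ n.primeFactors.filter (fun p => K < p ∧ p ≤ y), (1 - 5 / (p : ℝ))⁻¹

/-- good `v` for given `n`: conditions on the four forms (independent of the classes) -/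
def Gv (K κ n y X E₀ R' v : ℕ) : Prop :=
  1 ≤ v ∧ v ≤ X ∧ (∀ p : ℕ, p.Prime → K < p → p ∣ v → ¬ p ∣ n) ∧
    ∀ j, sp K y (Lf κ n v j) ^ 16 ≤ X ∧ sm K (Lf κ n v j) ≤ E₀ ∧ nb y (Lf κ n v j) ≤ R'

/-- DOMINATION for fixed `n`: the law of the parts is dominated by the sum over all types. -/
def DomQ : Prop := ∃ R₀ : ℕ, 0 < R₀ ∧
  ∀ (K κ n y X E₀ R' J : ℕ) (q : Fin J → ℕ) (cl : ℕ → Option (Fin J)) (Vs : Finset ℕ),
  10 ≤ K → K ≤ y → 0 < κ → (∀ p : ℕ, p.Prime → p ∣ κ → p ≤ K) → 0 < n → y ^ (8 * R₀) ≤ X →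
  (∀ v ∈ Vs, Gv K κ n y X E₀ R' v) →
  ∀ Ψ : (Fin 4 → ℕ) → (Fin 4 → ℕ) → (Fin 4 → ℕ) → ℝ, (∀ s e D, 0 ≤ Ψ s e D) →
  ∑ v ∈ Vs, Ψ (fun j => sp K y (Lf κ n v j)) (fun j => sm K (Lf κ n v j))
      (fun j => rq y q cl (Lf κ n v j)) ≤
    6 * X * ∑ e : Fin 4 → Fin (E₀ + 1), ∑ t : Fin 4 → Fin J → Fin (R' + 1), ∑ s ∈ SS K y n X,
      Wt K y n s * Ψ s (fun j => (e j : ℕ)) (fun j => Dq q (t j))

/-- PRODUCT LAW -/
def WtP : Prop := ∀ (K y n : ℕ) (s : Fin 4 → ℕ), 10 ≤ K → 0 < n → AdmS K y n s →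
  Wt K y n s ≤ hn K y n * (w1 K y (s 0) * w1 K y (s 1) * w1 K y (s 2) * w3 K y (s 3))

/-- MASSES -/
def MasS : Prop := ∀ (K y : ℕ) (T : Finset ℕ), 10 ≤ K → (∀ s ∈ T, Sy K y s) →
  ∑ s ∈ T, w1 K y s ≤ 3 ∧ ∑ s ∈ T, w3 K y s ≤ 3

/-- GRAM MATRIX of a set without related pairs -/
def GamS : Prop := ∀ (σ : Measure GG) (_ : IsFiniteMeasure σ) (E : Set GG), Cn σ E → ∀ K : ℕ, 10 ≤ K →
  ∀ ε : ℝ, 0 < ε → ∃ y₀ : ℕ, ∀ y ≥ y₀, ∀ T : Finset ℕ, (∀ s ∈ T, Sy K y s) →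
  ∑ s ∈ T, ∑ s' ∈ T, w1 K y s * w1 K y s' *
    ‖∫ g in E, ev g s' * conj (ev g s) ∂σ‖ ^ 2 ≤ ε

/-- good members of the family (`X = 3 k w! DR M`) -/
def Gm (w K κ k a n y X E₀ R' : ℕ) (cl0 : ℕ → Prop) : Prop :=
  Gv K κ n y X E₀ R' (k * a) ∧ (∀ p : ℕ, p.Prime → w < p → ¬ p ^ 2 ∣ n) ∧ hn K y n ≤ 2 ∧
    ∀ (j : Fin 4) (p : ℕ), p.Prime → y < p → p ∣ Lf κ n (k * a) j → ¬ cl0 p

open Classical in
/-- BAD MEMBERS ARE RARE. `M = Y^R`, `cl0` the set of exceptional primes. -/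
def GoodS : Prop := ∃ C : ℝ, 0 < C ∧ ∀ w K : ℕ, 10 ≤ w → w ≤ K → ∀ δ₁ : ℝ, 0 < δ₁ → ∃ R₁ : ℕ, ∀ R ≥ R₁,
  ∃ (E₀ : ℕ) (δ : ℝ), 0 < δ ∧ ∃ Y₁ : ℕ, ∀ Y ≥ Y₁, ∀ cl0 : ℕ → Prop,
  ∑ p ∈ (Finset.Icc 1 (Y ^ (3 * R))).filter (fun p => p.Prime ∧ Y < p ∧ cl0 p), 1 / (p : ℝ) ≤ δ →
  ∀ (e : Fin (w + 1) → Fin K) (e' : Fin (K + 1) → Fin K),
  BRK 1 w K (Y ^ R) (fun a n =>
    if Gm w K (kR 1 w K e) (kK 1 w K e') a n Y
      (3 * kK 1 w K e' * w.factorial * DR 1 w K * Y ^ R) E₀ (3 * R) cl0 then 0 else 1) ≤ C / w + δ₁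

/-- REPRESENTATIVES -/
def RepQ : Prop := ∀ (X : Type) (_ : MeasurableSpace X) (μ : Measure X) (_ : IsProbabilityMeasure μ)
  (S : Sys μ) (A : Set X), MeasurableSet A → ∀ (σ : Measure GG) (_ : IsFiniteMeasure σ)
  (V : SpV S (b1 μ A) σ) (E : Set GG), MeasurableSet E → ∀ (K y R' J : ℕ) (q : Fin J → ℕ)
  (cl : ℕ → Option (Fin J)) (δ : ℝ), 0 ≤ δ → (∀ i, 0 < q i) →
  (∀ (p : ℕ) (i : Fin J), p.Prime → cl p = some i → dd S A p (q i) ≤ δ) → ∀ L : ℕ, 0 < L → K ≤ y →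
  (∀ p : ℕ, p.Prime → y < p → p ∣ L → cl p ≠ none) → nb y L ≤ R' →
  ‖U S L (V.V (b1 σ E)) - U S (sm K L * sp K y L * rq y q cl L) (V.V (b1 σ E))‖ ≤ R' * Real.sqrt δ

/-- SLOTS: Bessel's inequality for the second argument of `bt` -/
def SltS : Prop := ∀ (X : Type) (_ : MeasurableSpace X) (μ : Measure X) (_ : IsProbabilityMeasure μ)
  (S : Sys μ) (A : Set X), MeasurableSet A → ∀ (σ : Measure GG) (_ : IsFiniteMeasure σ)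
  (V : SpV S (b1 μ A) σ) (E : Set GG), MeasurableSet E → ∀ (K y : ℕ) (T : Finset ℕ), 10 ≤ K →
  (∀ s ∈ T, Sy K y s) → ∀ (z c : ℕ) (H : Lp ℂ 2 μ), 0 < z → 0 < c → ‖H‖ ≤ 1 →
  ∑ s ∈ T, w1 K y s * ‖bt S A z H (U S (s * c) (V.V (b1 σ E)))‖ ^ 2 ≤
    2 * (∑ s ∈ T, ∑ s' ∈ T, w1 K y s * w1 K y s' *
      ‖∫ g in E, ev g s' * conj (ev g s) ∂σ‖ ^ 2) ^ (1 / 4 : ℝ)

end Pool.Agent.F0f91f8.PC
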