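import Pool.Agent.Work.MP_0f91f8_co.PC.StmtsB
import Pool.Agent.Work.MP_0f91f8_co.PC.I_CV
import Pool.Agent.Work.MP_0f91f8_co.PC.I_PBl

/-!
# Block PC, item BSp: norms of linear combinations (helper72)
-/

set_option autoImplicit false

namespace Pool.Agent.F0f91f8.PC

open Filter Topology ComplexConjugate MeasureTheory
open Pool.Agent.F0f91f8.HD Pool.Agent.F0f91f8.RC Pool.Agent.F0f91f8.KR Pool.Agent.F0f91f8.FC
open Pool.Agent.Work.MP_0f91f8_co.EF (GG ev)
open scoped BigOperators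

namespace IBSp

variable {Y : Type} [MeasurableSpace Y] {ν : Measure Y}

theorem bl_sum {ι : Type} (f : ι → Y → ℂ) (c : ι → ℂ) (I : Finset ι)
    (hf : ∀ i ∈ I, MemLp (f i) 2 ν) :
    MemLp (fun y => ∑ i ∈ I, c i * f i y) 2 ν ∧
      bl ν (fun y => ∑ i ∈ I, c i * f i y) = ∑ i ∈ I, c i • bl ν (f i) := by
  classical
  induction I using Finset.induction_on with
  | empty =>
    simp only [Finset.sum_empty]
    have h0 : MemLp (fun _ : Y => (0 : ℂ)) 2 ν := MemLp.zero
    refine ⟨h0, ?_⟩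
    rw [ICV.bl_eq h0]
    exact MemLp.toLp_zero h0
  | insert a s ha ih =>
    obtain ⟨h1, h2⟩ := ih fun i hi => hf i (Finset.mem_insert_of_mem hi)
    have ha' := hf a (Finset.mem_insert_self a s)
    have h3 : MemLp (fun y => c a * f a y) 2 ν := ha'.const_smul (c a)
    have e : (fun y => ∑ i ∈ insert a s, c i * f i y) =
        (fun y => c a * f a y) + fun y => ∑ i ∈ s, c i * f i y := by
      funext y
      rw [Finset.sum_insert ha]
      rfl
    have h4 : bl ν (fun y => c a * f a y) = c a • bl ν (f a) := by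
      rw [ICV.bl_eq ha', ICV.bl_eq h3]
      exact MemLp.toLp_const_smul (c a) ha'
    rw [e]
    refine ⟨h3.add h1, ?_⟩
    rw [ICV.bl_eq (h3.add h1), MemLp.toLp_add h3 h1, ← ICV.bl_eq h3, ← ICV.bl_eq h1, h2, h4,
      Finset.sum_insert ha]

end IBSp

open IBSp in
theorem pr_BSp : StBSp := by
  intro X _ μ _ S F σ _ V E hE ι I c x hx
  have hm : ∀ i ∈ I, MemLp (fun g => ev g (x i) * E.indicator (fun _ => (1 : ℂ)) g) 2 σ :=
    fun i _ => ICV.mem_ev (ICV.mem_ind hE) (x i)
  obtain ⟨h1, h2⟩ := bl_sum (ν := σ)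
    (fun i g => ev g (x i) * E.indicator (fun _ => (1 : ℂ)) g) c I hm
  have h3 : ∑ i ∈ I, c i • U S (x i) (V.V (b1 σ E)) =
      V.V (bl σ fun g => ∑ i ∈ I, c i * (ev g (x i) * E.indicator (fun _ => (1 : ℂ)) g)) := by
    rw [h2, map_sum]
    refine Finset.sum_congr rfl fun i hi => ?_
    rw [LinearIsometry.map_smul, V.mul (x i) (hx i hi) _ (ICV.mem_ind hE)]
    rfl
  rw [h3, LinearIsometry.norm_map, IPBl.nsq h1, ← integral_indicator hE]
  refine integral_congr_ae (Eventually.of_forall fun g => ?_)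
  by_cases h : g ∈ E
  · simp only [Set.indicator_of_mem h, mul_one]
  · simp only [Set.indicator_of_notMem h, mul_zero, Finset.sum_const_zero, norm_zero]
    norm_num

end Pool.Agent.F0f91f8.PC
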