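import Mathlib
import Pool.Agent.Work.MP_0f91f8_co.PC.StmtsC
import Pool.Agent.Work.MP_0f91f8_co.EF.Ev

/-!
# Block PC, module CT, item CGm: the Gram matrix of a set without related pairs
-/

set_option autoImplicit false

namespace Pool.Agent.F0f91f8.PC

open Filter Topology ComplexConjugate MeasureTheory
open Pool.Agent.F0f91f8.HD Pool.Agent.F0f91f8.RC Pool.Agent.F0f91f8.KR Pool.Agent.F0f91f8.FC
open Pool.Agent.Work.MP_0f91f8_co.EF (GG ev)
open scoped BigOperators

namespace ICGm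

open Pool.Agent.Work.MP_0f91f8_co.EF (Ev_pf)

lemma ev_meas (n : ℕ) : Measurable fun g : GG => ev g n := (Ev_pf.2.1 n).measurable

lemma ev_prime (g : GG) (p : Nat.Primes) : ev g p = (g p : ℂ) := by
  rw [Pool.Agent.Work.MP_0f91f8_co.EF.XEv.ev_pos g p.2.ne_zero,
    Pool.Agent.Work.MP_0f91f8_co.EF.XEv.pr_prime g p p.2]
  rfl

/-- the terms of the distance -/
noncomputable def tm (g g' : GG) (p : ℕ) : ℝ := ‖1 - ev g p * conj (ev g' p)‖ ^ 2 / (p : ℝ)

lemma tm_nonneg (g g' : GG) (p : ℕ) : 0 ≤ tm g g' p := by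
  unfold tm
  positivity

/-- the truncated distance -/
noncomputable def Dst (K y : ℕ) (g g' : GG) : ℝ := ∑ p ∈ PN K y 1, tm g g' p

lemma Dst_nonneg (K y : ℕ) (g g' : GG) : 0 ≤ Dst K y g g' :=
  Finset.sum_nonneg fun p _ => tm_nonneg g g' p

lemma PN_eq (K y : ℕ) : PN K y 1 = (Finset.range (y + 1)).filter fun p => ¬ p ≤ K ∧ p.Prime := by
  ext p
  unfold PN
  rw [Finset.mem_filter, Finset.mem_filter, Finset.mem_Icc, Finset.mem_range]
  constructor
  · rintro ⟨⟨h1, h2⟩, h3, h4, h5⟩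
    exact ⟨by omega, by omega, h3⟩
  · rintro ⟨h1, h2, h3⟩
    refine ⟨⟨h3.one_lt.le, by omega⟩, h3, by omega, ?_⟩
    intro h
    exact h3.one_lt.ne' (Nat.dvd_one.1 h)

lemma Dst_tendsto (K : ℕ) (g g' : GG) (h : ¬ Rl g g') :
    Tendsto (fun y => Dst K y g g') atTop atTop := by
  classical
  set b : ℕ → ℝ := Set.indicator {p : ℕ | p.Prime} (tm g g') with hb
  have hb0 : ∀ n, 0 ≤ b n := fun n => Set.indicator_nonneg (fun p _ => tm_nonneg g g' p) n
  have h1 : ¬ Summable b := by
    intro hs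
    apply h
    unfold Rl
    have h2 := (summable_subtype_iff_indicator (f := tm g g') (s := {p : ℕ | p.Prime})).2 hs
    refine h2.congr ?_
    intro p
    have e1 := ev_prime g p
    have e2 := ev_prime g' p
    show tm g g' (p : ℕ) = _
    unfold tm
    rw [e1, e2]
  have h2 := (not_summable_iff_tendsto_nat_atTop_of_nonneg hb0).1 h1
  have h3 : Tendsto (fun y : ℕ => (∑ i ∈ Finset.range (y + 1), b i) +
      (-(∑ i ∈ Finset.range (K + 1), b i))) atTop atTop :=
    tendsto_atTop_add_const_right _ _ (h2.comp (tendsto_add_atTop_nat 1))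
  refine tendsto_atTop_mono ?_ h3
  intro y
  have e1 : ∑ i ∈ Finset.range (y + 1), b i =
      ∑ i ∈ (Finset.range (y + 1)).filter (fun i => i ≤ K), b i +
      ∑ i ∈ (Finset.range (y + 1)).filter (fun i => ¬ i ≤ K), b i :=
    (Finset.sum_filter_add_sum_filter_not _ _ _).symm
  have e2 : ∑ i ∈ (Finset.range (y + 1)).filter (fun i => i ≤ K), b i ≤
      ∑ i ∈ Finset.range (K + 1), b i := by
    refine Finset.sum_le_sum_of_subset_of_nonneg ?_ fun i _ _ => hb0 i
    intro i hi
    rw [Finset.mem_filter] at hi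
    rw [Finset.mem_range]
    omega
  have e3 : ∑ i ∈ (Finset.range (y + 1)).filter (fun i => ¬ i ≤ K), b i = Dst K y g g' := by
    unfold Dst
    rw [PN_eq, ← Finset.filter_filter, Finset.sum_filter (fun p : ℕ => p.Prime)]
    refine Finset.sum_congr rfl fun i _ => ?_
    rw [hb, Set.indicator_apply]
    rfl
  rw [e1, e3]
  linarith

lemma mem_PN {K y p : ℕ} (h : p ∈ PN K y 1) : p.Prime ∧ K < p ∧ p ≤ y := by
  unfold PN at h
  rw [Finset.mem_filter, Finset.mem_Icc] at h
  exact ⟨h.2.1, h.2.2.1, h.1.2⟩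

lemma PN_mem {K y p : ℕ} (h : p.Prime) (h1 : K < p) (h2 : p ≤ y) : p ∈ PN K y 1 := by
  rw [PN_eq, Finset.mem_filter, Finset.mem_range]
  exact ⟨by omega, by omega, h⟩

lemma w1_nonneg {K y s : ℕ} (hK : 10 ≤ K) (hs : Sy K y s) : 0 ≤ w1 K y s := by
  unfold w1
  refine mul_nonneg (mul_nonneg (by positivity) ?_) ?_
  · refine Finset.prod_nonneg fun p hp => ?_
    have hp' := Nat.prime_of_mem_primeFactors hp
    have h1 := (hs.2 p hp' (Nat.dvd_of_mem_primeFactors hp)).1
    have h2 : (11 : ℝ) ≤ (p : ℝ) := by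
      have : 11 ≤ p := by omega
      exact_mod_cast this
    rw [inv_nonneg, sub_nonneg, div_le_one (by linarith)]
    linarith
  · refine Finset.prod_nonneg fun p hp => ?_
    have hp' := (mem_PN hp).1
    have h2 : (1 : ℝ) ≤ (p : ℝ) := by exact_mod_cast hp'.one_lt.le
    rw [sub_nonneg, div_le_one (by linarith)]
    exact h2

lemma sy_of_SN {K y N s : ℕ} (hs : s ∈ SN (PN K y 1) N) : Sy K y s := by
  classical
  unfold SN at hs
  rw [Finset.mem_image] at hs
  obtain ⟨e, _, rfl⟩ := hs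
  refine ⟨?_, ?_⟩
  · refine Finset.prod_pos fun p _ => ?_
    exact pow_pos (mem_PN p.2).1.pos _
  · intro q hq hd
    obtain ⟨p, _, hp⟩ := (Prime.dvd_finsetProd_iff hq.prime _).1 hd
    have h1 := hq.dvd_of_dvd_pow hp
    have h2 := (Nat.prime_dvd_prime_iff_eq hq (mem_PN p.2).1).1 h1
    rw [h2]
    exact (mem_PN p.2).2

lemma mem_SN {K y N s : ℕ} (hs : Sy K y s) (hN : s ≤ N) : s ∈ SN (PN K y 1) N := by
  classical
  unfold SN
  rw [Finset.mem_image]
  refine ⟨fun p => s.factorization p, ?_, ?_⟩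
  · rw [Fintype.mem_piFinset]
    intro p
    rw [Finset.mem_range]
    have := Nat.factorization_lt (p : ℕ) hs.1.ne'
    omega
  · rw [Finset.prod_coe_sort (PN K y 1) (fun p => p ^ s.factorization p)]
    have h1 := Nat.prod_factorization_pow_eq_self hs.1.ne'
    conv_rhs => rw [← h1]
    rw [Finsupp.prod_of_support_subset s.factorization (s := PN K y 1)]
    · intro p hp
      rw [Nat.support_factorization] at hp
      have hp' := Nat.prime_of_mem_primeFactors hp
      have h2 := hs.2 p hp' (Nat.dvd_of_mem_primeFactors hp)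
      exact PN_mem hp' h2.1 h2.2
    · intro p _
      exact pow_zero p

lemma meas_Dst (K y : ℕ) : Measurable fun p : GG × GG => Dst K y p.1 p.2 := by
  unfold Dst tm
  refine Finset.measurable_sum _ fun q _ => ?_
  refine Measurable.div_const ?_ _
  refine Measurable.pow_const ?_ 2
  refine Measurable.norm ?_
  refine Measurable.const_sub ?_ 1
  refine Measurable.mul ((ev_meas q).comp measurable_fst) ?_
  exact (Complex.continuous_conj.measurable).comp ((ev_meas q).comp measurable_snd)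

end ICGm

open ICGm in
theorem pr_CGm (hId : StCId) (hPb : StCPb) : GamS := by
  classical
  intro σ hσ E hE K hK ε hε
  set ν := (σ.prod σ).restrict (E ×ˢ E) with hν
  have hEE : MeasurableSet (E ×ˢ E) := hE.1.prod hE.1
  have hF1 : ∀ (y : ℕ) (p : GG × GG), ‖Real.exp (-(Dst K y p.1 p.2))‖ ≤ 1 := by
    intro y p
    rw [Real.norm_eq_abs, abs_of_nonneg (Real.exp_nonneg _)]
    rw [Real.exp_le_one_iff]
    linarith [Dst_nonneg K y p.1 p.2]
  have hFm : ∀ y : ℕ, AEStronglyMeasurable (fun p : GG × GG => Real.exp (-(Dst K y p.1 p.2))) ν :=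
    fun y => (Real.measurable_exp.comp (meas_Dst K y).neg).aestronglyMeasurable
  have hlim : Tendsto (fun y : ℕ => ∫ p, Real.exp (-(Dst K y p.1 p.2)) ∂ν) atTop (𝓝 0) := by
    have h0 := tendsto_integral_of_dominated_convergence (μ := ν) (f := fun _ => (0 : ℝ))
      (fun _ => (1 : ℝ)) hFm (integrable_const _) (fun y => Eventually.of_forall (hF1 y)) ?_
    · simpa using h0
    · rw [hν, ae_restrict_iff' hEE]
      have h1 : ∀ᵐ p ∂(σ.prod σ), ¬ (p.1 ∈ E ∧ p.2 ∈ E ∧ Rl p.1 p.2) := by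
        rw [ae_iff]
        simpa using hE.2
      filter_upwards [h1] with p hp hpE
      have h2 : ¬ Rl p.1 p.2 := fun h => hp ⟨hpE.1, hpE.2, h⟩
      exact Real.tendsto_exp_neg_atTop_nhds_zero.comp (Dst_tendsto K p.1 p.2 h2)
  have hev := hlim.eventually (gt_mem_nhds (show (0 : ℝ) < ε / 10000 by positivity))
  obtain ⟨y₀, hy₀⟩ := eventually_atTop.1 hev
  refine ⟨y₀, ?_⟩
  intro y hy T hT
  set N := T.sup id + 1 with hN
  have hsub : T ⊆ SN (PN K y 1) N := by
    intro s hs
    exact mem_SN (hT s hs) ((Finset.le_sup (f := id) hs).trans (Nat.le_succ _))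
  have hnn : ∀ s ∈ SN (PN K y 1) N, ∀ s' ∈ SN (PN K y 1) N,
      0 ≤ w1 K y s * w1 K y s' * ‖∫ g in E, ev g s' * conj (ev g s) ∂σ‖ ^ 2 := by
    intro s hs s' hs'
    have h1 := w1_nonneg hK (sy_of_SN hs)
    have h2 := w1_nonneg hK (sy_of_SN hs')
    positivity
  calc ∑ s ∈ T, ∑ s' ∈ T, w1 K y s * w1 K y s' * ‖∫ g in E, ev g s' * conj (ev g s) ∂σ‖ ^ 2
      ≤ ∑ s ∈ SN (PN K y 1) N, ∑ s' ∈ SN (PN K y 1) N,
        w1 K y s * w1 K y s' * ‖∫ g in E, ev g s' * conj (ev g s) ∂σ‖ ^ 2 := by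
        refine (Finset.sum_le_sum fun s hs => ?_).trans
          (Finset.sum_le_sum_of_subset_of_nonneg hsub fun s hs _ => ?_)
        · exact Finset.sum_le_sum_of_subset_of_nonneg hsub fun s' hs' _ => hnn s (hsub hs) s' hs'
        · exact Finset.sum_nonneg fun s' hs' => hnn s hs s' hs'
    _ = ∫ p, ‖∑ s ∈ SN (PN K y 1) N, (w1 K y s : ℂ) * (ev p.1 s * conj (ev p.2 s))‖ ^ 2 ∂ν :=
        hId σ hσ E hE.1 _ _
    _ ≤ ∫ p, 10000 * Real.exp (-(Dst K y p.1 p.2)) ∂ν := by
        refine integral_mono_of_nonneg (Eventually.of_forall fun p => by positivity) ?_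
          (Eventually.of_forall fun p => ?_)
        · exact (Integrable.of_bound (hFm y) 1 (Eventually.of_forall (hF1 y))).const_mul _
        · have h1 := hPb K y N p.1 p.2 hK (by omega)
          have h2 : ∑ q ∈ PN K y 1, ‖1 - ev p.1 q * conj (ev p.2 q)‖ ^ 2 / (2 * (q : ℝ)) =
              Dst K y p.1 p.2 / 2 := by
            unfold Dst tm
            rw [Finset.sum_div]
            refine Finset.sum_congr rfl fun q _ => ?_
            rw [div_div, mul_comm (q : ℝ) 2]
          rw [h2] at h1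
          have h3 := pow_le_pow_left₀ (norm_nonneg _) h1 2
          refine h3.trans (le_of_eq ?_)
          rw [mul_pow, ← Real.exp_nat_mul]
          norm_num
          congr 1
          ring
    _ = 10000 * ∫ p, Real.exp (-(Dst K y p.1 p.2)) ∂ν := integral_const_mul _ _
    _ ≤ ε := by
        have h1 := hy₀ y hy
        have h2 : (∫ p, Real.exp (-(Dst K y p.1 p.2)) ∂ν) < ε / 10000 := h1
        linarith

end Pool.Agent.F0f91f8.PC
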