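import Mathlib
import Pool.Agent.Work.MP_0f91f8_co.PC.StmtsC

set_option autoImplicit false

namespace Pool.Agent.F0f91f8.PC

open Pool.Agent.F0f91f8.FC
open scoped BigOperators

namespace ICWp

/-- the factor of a prime -/
noncomputable def cc (p : ℕ) : ℝ := (1 - 5 / (p : ℝ))⁻¹

/-- the four factors of a prime -/
noncomputable def bb (p : ℕ) : ℝ := (1 - 1 / (p : ℝ)) ^ 3 * (1 - (rho p : ℝ) / (p : ℝ))

theorem five_lt {p : ℕ} (hp : 11 ≤ p) : 0 < 1 - 5 / (p : ℝ) := by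
  have h : (11 : ℝ) ≤ p := by exact_mod_cast hp
  rw [sub_pos, div_lt_one (by linarith)]
  linarith

theorem one_le_cc {p : ℕ} (hp : 11 ≤ p) : 1 ≤ cc p := by
  unfold cc
  rw [one_le_inv₀ (five_lt hp)]
  have : (0 : ℝ) ≤ 5 / (p : ℝ) := by positivity
  linarith

theorem low (hRh : StRh) {p : ℕ} (hp : 11 ≤ p) (hpp : p.Prime) :
    1 - 5 / (p : ℝ) ≤ 1 - (om p : ℝ) / p ∧ 1 - (om p : ℝ) / p ≤ bb p := by
  have h11 : (11 : ℝ) ≤ p := by exact_mod_cast hp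
  have hr : (rho p : ℝ) ≤ 2 := by exact_mod_cast hRh p hpp
  have hr0 : (0 : ℝ) ≤ rho p := by positivity
  have hom : (om p : ℝ) = 3 + rho p := by unfold om; push_cast; ring
  rw [hom]
  constructor
  · have : (3 + (rho p : ℝ)) / p ≤ 5 / p := by
      apply div_le_div_of_nonneg_right _ (by linarith)
      linarith
    linarith
  · unfold bb
    set u : ℝ := 1 / (p : ℝ) with hu
    have hu0 : 0 < u := by rw [hu]; positivity
    have hu1 : u ≤ 1 / 11 := by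
      rw [hu]
      exact one_div_le_one_div_of_le (by norm_num) h11
    have e1 : (rho p : ℝ) / p = rho p * u := by rw [hu]; ring
    have e2 : (3 + (rho p : ℝ)) / p = (3 + rho p) * u := by rw [hu]; ring
    rw [e1, e2]
    set r : ℝ := (rho p : ℝ) with hrd
    have h3 : 1 - 3 * u ≤ (1 - u) ^ 3 := by nlinarith [sq_nonneg u, mul_nonneg hu0.le (sq_nonneg u)]
    have h4 : 0 ≤ 1 - r * u := by nlinarith
    calc 1 - (3 + r) * u ≤ (1 - 3 * u) * (1 - r * u) := by nlinarith [mul_nonneg hr0 (sq_nonneg u)]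
      _ ≤ (1 - u) ^ 3 * (1 - r * u) := mul_le_mul_of_nonneg_right h3 h4

theorem one_le_bc (hRh : StRh) {p : ℕ} (hp : 11 ≤ p) (hpp : p.Prime) : 1 ≤ bb p * cc p := by
  have h1 := low hRh hp hpp
  have h2 : 1 - 5 / (p : ℝ) ≤ bb p := h1.1.trans h1.2
  unfold cc
  rw [← div_eq_mul_inv, one_le_div (five_lt hp)]
  exact h2

/-- a product of factors `≥ 1` over a subset of a union of five sets -/
theorem prod_five {f : ℕ → ℝ} {D N A₀ A₁ A₂ A₃ : Finset ℕ} (hN : ∀ p ∈ N, 1 ≤ f p)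
    (h₀ : ∀ p ∈ A₀, 1 ≤ f p) (h₁ : ∀ p ∈ A₁, 1 ≤ f p) (h₂ : ∀ p ∈ A₂, 1 ≤ f p)
    (h₃ : ∀ p ∈ A₃, 1 ≤ f p) (hD : ∀ p ∈ D, p ∈ N ∨ p ∈ A₀ ∨ p ∈ A₁ ∨ p ∈ A₂ ∨ p ∈ A₃) :
    ∏ p ∈ D, f p ≤ (∏ p ∈ N, f p) * ((∏ p ∈ A₀, f p) * (∏ p ∈ A₁, f p) * (∏ p ∈ A₂, f p) *
      ∏ p ∈ A₃, f p) := by
  have hu : ∀ A B : Finset ℕ, (∀ p ∈ A, 1 ≤ f p) → (∀ p ∈ B, 1 ≤ f p) →
      ∏ p ∈ A ∪ B, f p ≤ (∏ p ∈ A, f p) * ∏ p ∈ B, f p := by
    intro A B hA hB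
    rw [← Finset.prod_union_inter]
    refine le_mul_of_one_le_right ?_ (Finset.one_le_prod fun p hp => hA p (Finset.mem_inter.1 hp).1)
    refine Finset.prod_nonneg fun p hp => ?_
    rcases Finset.mem_union.1 hp with h | h
    · linarith [hA p h]
    · linarith [hB p h]
  have hmem : ∀ A B : Finset ℕ, (∀ p ∈ A, 1 ≤ f p) → (∀ p ∈ B, 1 ≤ f p) →
      ∀ p ∈ A ∪ B, 1 ≤ f p := by
    intro A B hA hB p hp
    rcases Finset.mem_union.1 hp with h | h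
    · exact hA p h
    · exact hB p h
  have g01 := hmem A₀ A₁ h₀ h₁
  have g012 := hmem (A₀ ∪ A₁) A₂ g01 h₂
  have g0123 := hmem (A₀ ∪ A₁ ∪ A₂) A₃ g012 h₃
  have gN := hmem N (A₀ ∪ A₁ ∪ A₂ ∪ A₃) hN g0123
  have hsub : D ⊆ N ∪ (A₀ ∪ A₁ ∪ A₂ ∪ A₃) := by
    intro p hp
    rcases hD p hp with h | h | h | h | h <;> simp [h]
  have p1 : ∀ A : Finset ℕ, (∀ p ∈ A, 1 ≤ f p) → 0 ≤ ∏ p ∈ A, f p := fun A hA =>
    Finset.prod_nonneg fun p hp => by linarith [hA p hp]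
  calc ∏ p ∈ D, f p ≤ ∏ p ∈ N ∪ (A₀ ∪ A₁ ∪ A₂ ∪ A₃), f p :=
        Finset.prod_le_prod_of_subset_of_one_le hsub
          (fun p hp => by linarith [gN p (hsub hp)]) (fun p hp _ => gN p hp)
    _ ≤ (∏ p ∈ N, f p) * ∏ p ∈ A₀ ∪ A₁ ∪ A₂ ∪ A₃, f p := hu _ _ hN g0123
    _ ≤ _ := by
        refine mul_le_mul_of_nonneg_left ?_ (p1 N hN)
        refine (hu _ _ g012 h₃).trans (mul_le_mul_of_nonneg_right ?_ (p1 _ h₃))
        refine (hu _ _ g01 h₂).trans (mul_le_mul_of_nonneg_right ?_ (p1 _ h₂))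
        exact hu _ _ h₀ h₁

theorem ge11 {K p : ℕ} (hK : 10 ≤ K) (h : K < p) : 11 ≤ p := by omega

/-- the product over the primes -/
theorem prodPN (hRh : StRh) (K y n : ℕ) (s : Fin 4 → ℕ) (hK : 10 ≤ K) (hnp : 0 < n)
    (hs : AdmS K y n s) :
    ∏ p ∈ PN K y ((∏ j, s j) * n), (1 - (om p : ℝ) / p) ≤
      (∏ p ∈ PN K y 1, bb p) * (hn K y n * ((∏ p ∈ (s 0).primeFactors, cc p) *
        (∏ p ∈ (s 1).primeFactors, cc p) * (∏ p ∈ (s 2).primeFactors, cc p) *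
        ∏ p ∈ (s 3).primeFactors, cc p)) := by
  classical
  set Q := PN K y ((∏ j, s j) * n) with hQ
  have hP1 : ∀ p ∈ PN K y 1, p.Prime ∧ K < p ∧ p ≤ y := by
    intro p hp
    rw [PN, Finset.mem_filter, Finset.mem_Icc] at hp
    exact ⟨hp.2.1, hp.2.2.1, hp.1.2⟩
  have hsub : Q ⊆ PN K y 1 := by
    intro p hp
    rw [hQ, PN, Finset.mem_filter, Finset.mem_Icc] at hp
    rw [PN, Finset.mem_filter, Finset.mem_Icc]
    exact ⟨hp.1, hp.2.1, hp.2.2.1, fun h => hp.2.1.one_lt.ne' (Nat.dvd_one.1 h)⟩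
  have hD : ∀ p ∈ PN K y 1 \ Q, p.Prime ∧ K < p ∧ p ≤ y ∧ p ∣ (∏ j, s j) * n := by
    intro p hp
    rw [Finset.mem_sdiff] at hp
    obtain ⟨h1, h2, h3⟩ := hP1 p hp.1
    refine ⟨h1, h2, h3, ?_⟩
    by_contra hc
    apply hp.2
    rw [hQ, PN, Finset.mem_filter, Finset.mem_Icc]
    exact ⟨⟨h1.one_lt.le, h3⟩, h1, h2, hc⟩
  have hb0 : ∀ p ∈ PN K y 1, 0 ≤ bb p := by
    intro p hp
    obtain ⟨h1, h2, h3⟩ := hP1 p hp
    have h4 := low hRh (ge11 hK h2) h1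
    have h5 := five_lt (ge11 hK h2)
    linarith [h4.1, h4.2]
  have ha0 : ∀ p ∈ Q, 0 ≤ 1 - (om p : ℝ) / p := by
    intro p hp
    obtain ⟨h1, h2, h3⟩ := hP1 p (hsub hp)
    have h4 := low hRh (ge11 hK h2) h1
    have h5 := five_lt (ge11 hK h2)
    linarith [h4.1]
  have hc0 : 0 ≤ ∏ p ∈ Q, bb p := Finset.prod_nonneg fun p hp => hb0 p (hsub hp)
  have step1 : ∏ p ∈ Q, (1 - (om p : ℝ) / p) ≤ ∏ p ∈ Q, bb p := by
    refine Finset.prod_le_prod ha0 fun p hp => ?_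
    obtain ⟨h1, h2, h3⟩ := hP1 p (hsub hp)
    exact (low hRh (ge11 hK h2) h1).2
  have step2 : 1 ≤ ∏ p ∈ PN K y 1 \ Q, bb p * cc p := by
    refine Finset.one_le_prod fun p hp => ?_
    obtain ⟨h1, h2, -, -⟩ := hD p hp
    exact one_le_bc hRh (ge11 hK h2) h1
  have step3 : (∏ p ∈ Q, bb p) * ∏ p ∈ PN K y 1 \ Q, bb p * cc p =
      (∏ p ∈ PN K y 1, bb p) * ∏ p ∈ PN K y 1 \ Q, cc p := by
    rw [Finset.prod_mul_distrib, ← mul_assoc, mul_comm (∏ p ∈ Q, bb p),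
      Finset.prod_sdiff hsub]
  have step4 : ∏ p ∈ PN K y 1 \ Q, cc p ≤ hn K y n * ((∏ p ∈ (s 0).primeFactors, cc p) *
        (∏ p ∈ (s 1).primeFactors, cc p) * (∏ p ∈ (s 2).primeFactors, cc p) *
        ∏ p ∈ (s 3).primeFactors, cc p) := by
    have hs3 : ∀ j, ∀ p ∈ (s j).primeFactors, 1 ≤ cc p := fun j p hp =>
      one_le_cc (ge11 hK (hs.2.2.1 j p (Nat.prime_of_mem_primeFactors hp)
        (Nat.dvd_of_mem_primeFactors hp)).1)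
    refine prod_five (N := n.primeFactors.filter (fun p => K < p ∧ p ≤ y)) (fun p hp => ?_)
      (hs3 0) (hs3 1) (hs3 2) (hs3 3) fun p hp => ?_
    · rw [Finset.mem_filter] at hp
      exact one_le_cc (ge11 hK hp.2.1)
    · obtain ⟨h1, h2, h3, h4⟩ := hD p hp
      rcases h1.dvd_mul.1 h4 with h5 | h5
      · right
        obtain ⟨j, -, h6⟩ := (Prime.dvd_finsetProd_iff h1.prime _).1 h5
        have h7 : p ∈ (s j).primeFactors := Nat.mem_primeFactors.2 ⟨h1, h6, (hs.1 j).ne'⟩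
        fin_cases j
        · exact Or.inl h7
        · exact Or.inr (Or.inl h7)
        · exact Or.inr (Or.inr (Or.inl h7))
        · exact Or.inr (Or.inr (Or.inr h7))
      · left
        rw [Finset.mem_filter]
        exact ⟨Nat.mem_primeFactors.2 ⟨h1, h5, hnp.ne'⟩, h2, h3⟩
  calc ∏ p ∈ Q, (1 - (om p : ℝ) / p) ≤ ∏ p ∈ Q, bb p := step1
    _ ≤ (∏ p ∈ Q, bb p) * ∏ p ∈ PN K y 1 \ Q, bb p * cc p := le_mul_of_one_le_right hc0 step2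
    _ = _ := step3
    _ ≤ _ := mul_le_mul_of_nonneg_left step4 (Finset.prod_nonneg hb0)

end ICWp

/-- [CWp] product law -/
theorem pr_CWp (hRh : FC.StRh) : WtP := by
  intro K y n s hK hnp hs
  have h1 := ICWp.prodPN hRh K y n s hK hnp hs
  have e1 : ∏ p ∈ PN K y 1, ICWp.bb p = (∏ p ∈ PN K y 1, (1 - 1 / (p : ℝ))) ^ 3 *
      ∏ p ∈ PN K y 1, (1 - (rho p : ℝ) / (p : ℝ)) := by
    unfold ICWp.bb
    rw [Finset.prod_mul_distrib, Finset.prod_pow]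
  have hS : ((∏ j, s j : ℕ) : ℝ) = s 0 * s 1 * s 2 * s 3 := by
    rw [Fin.prod_univ_four]
    push_cast
    ring
  have hr0 : (0 : ℝ) ≤ (rho4 (s 3) : ℝ) / ((∏ j, s j : ℕ) : ℝ) := by positivity
  have h2 := mul_le_mul_of_nonneg_left h1 hr0
  unfold Wt
  refine h2.trans (le_of_eq ?_)
  rw [e1, hS]
  unfold w1 w3 ICWp.cc
  have p0 : (s 0 : ℝ) ≠ 0 := by exact_mod_cast (hs.1 0).ne'
  have p1 : (s 1 : ℝ) ≠ 0 := by exact_mod_cast (hs.1 1).ne'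
  have p2 : (s 2 : ℝ) ≠ 0 := by exact_mod_cast (hs.1 2).ne'
  have p3 : (s 3 : ℝ) ≠ 0 := by exact_mod_cast (hs.1 3).ne'
  field_simp

end Pool.Agent.F0f91f8.PC
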