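import Mathlib
import Pool.Agent.Work.MP_0f91f8_co.PC.StmtsA

/-!
# Block PC, assembly, item DC: colourings
-/

set_option autoImplicit false

namespace Pool.Agent.F0f91f8.PC

open Filter Topology ComplexConjugate MeasureTheory
open Pool.Agent.F0f91f8.HD Pool.Agent.F0f91f8.RC Pool.Agent.F0f91f8.KR Pool.Agent.F0f91f8.FC
open scoped BigOperators

namespace IDC

theorem bdR_ind (A : Set ℕ) : BdR (ind A) := by
  refine ⟨1, fun n => ?_⟩
  unfold ind
  by_cases h : n ∈ A
  · rw [Set.indicator_of_mem h, abs_one]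
  · rw [Set.indicator_of_notMem h, abs_zero]
    exact zero_le_one

theorem mzero {m : (ℕ → ℝ) → ℝ} (hm : IsMean m) : m (fun _ => 0) = 0 := by
  have h := hm.2.1 0 (fun _ => 1) ⟨1, fun n => by rw [abs_one]⟩
  simpa using h

theorem mnonpos {m : (ℕ → ℝ) → ℝ} (hm : IsMean m) {F : ℕ → ℝ} (hF : BdR F)
    (h : ∀ n, 0 < n → F n = 0) : m F ≤ 0 := by
  have h1 : BdR fun n => (-1 : ℝ) * F n := by
    obtain ⟨C, hC⟩ := hF
    exact ⟨C, fun n => by rw [abs_mul, abs_neg, abs_one, one_mul]; exact hC n⟩
  have h2 := hm.2.2.1 _ h1 fun n hn => by rw [h n hn, mul_zero]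
  rw [hm.2.1 (-1) F hF] at h2
  linarith

theorem msum {m : (ℕ → ℝ) → ℝ} (hm : IsMean m) {r : ℕ} (A : Fin r → Set ℕ) (s : Finset (Fin r)) :
    BdR (fun n => ∑ i ∈ s, ind (A i) n) ∧
      m (fun n => ∑ i ∈ s, ind (A i) n) = ∑ i ∈ s, m (ind (A i)) := by
  classical
  induction s using Finset.induction_on with
  | empty =>
    refine ⟨⟨0, fun n => by simp⟩, ?_⟩
    simpa using mzero hm
  | insert a s ha ih =>
    have e : (fun n => ∑ i ∈ insert a s, ind (A i) n) =
        fun n => ind (A a) n + ∑ i ∈ s, ind (A i) n := by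
      funext n
      rw [Finset.sum_insert ha]
    rw [e]
    refine ⟨?_, ?_⟩
    · obtain ⟨C, hC⟩ := bdR_ind (A a)
      obtain ⟨C', hC'⟩ := ih.1
      exact ⟨C + C', fun n => le_trans (abs_add_le _ _) (add_le_add (hC n) (hC' n))⟩
    · have h := hm.1 (ind (A a)) (fun n => ∑ i ∈ s, ind (A i) n) (bdR_ind _) ih.1
      rw [h, ih.2, Finset.sum_insert ha]

/-- some colour has positive mean -/
theorem exists_pos {m : (ℕ → ℝ) → ℝ} (hm : IsMean m) {r : ℕ} (c : ℕ → Fin r) :
    ∃ i, 0 < m (ind {n | c n = i}) := by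
  classical
  by_contra hcon
  push Not at hcon
  have h1 := (msum hm (fun i => {n | c n = i}) Finset.univ).2
  have h2 : (fun n => ∑ i : Fin r, ind {n | c n = i} n) = fun _ => (1 : ℝ) := by
    funext n
    rw [Finset.sum_eq_single (c n)]
    · unfold ind
      rw [Set.indicator_of_mem (by rfl)]
    · intro i _ hi
      unfold ind
      rw [Set.indicator_of_notMem]
      intro h
      exact hi h.symm
    · intro h
      exact absurd (Finset.mem_univ _) h
  rw [h2, hm.2.2.2.1] at h1
  have h3 : ∑ i : Fin r, m (ind {n | c n = i}) ≤ 0 :=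
    Finset.sum_nonpos fun i _ => hcon i
  linarith

end IDC

open IDC in
/-- [DC] Colourings with infinitely many classes of primes. -/
theorem pr_DC (hMe : FC.MeanS) (hM : FinPM) : FinPC := by
  classical
  intro cl h r c hc
  obtain ⟨m, hm⟩ := hMe
  obtain ⟨i₀, hi₀⟩ := exists_pos hm c
  set A : Set ℕ := {n | c n = i₀} with hA
  have hLPC : LPC (fun p q => m (ind {n | ¬(p * n ∈ A ↔ q * n ∈ A)})) := by
    intro R δ hδ
    obtain ⟨J, hJ⟩ := h R δ hδ
    refine ⟨J, fun Y₀ => ?_⟩
    obtain ⟨Y, hY, D, hD, hsum⟩ := hJ Y₀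
    set cl' : ℕ → Option (Fin J) := fun p =>
      if hp : cl p ∈ D then some (Fin.castLE hD (D.equivFin ⟨cl p, hp⟩)) else none with hcl'
    have hinj : ∀ p p' : ℕ, ∀ i, cl' p = some i → cl' p' = some i → cl p = cl p' := by
      intro p p' i h1 h2
      rw [hcl'] at h1 h2
      by_cases hp : cl p ∈ D
      · by_cases hp' : cl p' ∈ D
        · simp only [hp, hp', dif_pos] at h1 h2
          have h3 : Fin.castLE hD (D.equivFin ⟨cl p, hp⟩) =
              Fin.castLE hD (D.equivFin ⟨cl p', hp'⟩) :=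
            (Option.some.inj h1).trans (Option.some.inj h2).symm
          have h4 := D.equivFin.injective (Fin.castLE_injective hD h3)
          exact congrArg Subtype.val h4
        · simp only [hp', dif_neg, not_false_iff] at h2
          exact absurd h2 (by simp)
      · simp only [hp, dif_neg, not_false_iff] at h1
        exact absurd h1 (by simp)
    set q : Fin J → ℕ := fun i =>
      if hq : ∃ p : ℕ, p.Prime ∧ cl' p = some i then hq.choose else 1 with hqdef
    refine ⟨Y, hY, q, cl', ?_, ?_, ?_⟩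
    · intro i
      rw [hqdef]
      show 0 < (if hq : ∃ p : ℕ, p.Prime ∧ cl' p = some i then hq.choose else 1)
      split_ifs with hq
      · exact hq.choose_spec.1.pos
      · exact one_pos
    · intro p i hp hpi
      have hq : ∃ p : ℕ, p.Prime ∧ cl' p = some i := ⟨p, hp, hpi⟩
      have e : q i = hq.choose := by
        rw [hqdef]
        show (if hq : ∃ p : ℕ, p.Prime ∧ cl' p = some i then hq.choose else 1) = _
        rw [dif_pos hq]
      have h1 : cl p = cl (q i) := by
        rw [e]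
        exact hinj p _ i hpi hq.choose_spec.2
      have h2 : (q i).Prime := by
        rw [e]
        exact hq.choose_spec.1
      have h3 : ∀ n, c (p * n) = c (q i * n) := by
        intro n
        rcases Nat.eq_zero_or_pos n with rfl | hn
        · rw [mul_zero, mul_zero]
        · exact hc p (q i) hp h2 h1 n hn
      have h4 : {n | ¬(p * n ∈ A ↔ q i * n ∈ A)} = (∅ : Set ℕ) := by
        ext n
        simp only [hA, Set.mem_ofPred_eq, Set.mem_empty_iff_false, iff_false, not_not]
        rw [h3 n]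
      show m (ind {n | ¬(p * n ∈ A ↔ q i * n ∈ A)}) ≤ δ
      rw [h4]
      have h5 : ind (∅ : Set ℕ) = fun _ => 0 := by
        funext n
        unfold ind
        rw [Set.indicator_of_notMem (Set.notMem_empty n)]
      rw [h5, mzero hm]
      exact hδ.le
    · refine le_trans (le_of_eq ?_) hsum
      apply Finset.sum_congr _ fun _ _ => rfl
      apply Finset.filter_congr
      intro p _
      have : cl' p = none ↔ cl p ∉ D := by
        rw [hcl']
        show (if hp : cl p ∈ D then some (Fin.castLE hD (D.equivFin ⟨cl p, hp⟩)) else none) = none ↔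
          cl p ∉ D
        split_ifs with hp
        · simp [hp]
        · simp [hp]
      rw [this]
  obtain ⟨x, y, z, hx, hy, hz, hxyz, hmean⟩ := hM m hm A hLPC (m (ind A) ^ 3 / 2)
    (half_pos (pow_pos hi₀ 3))
  have hpos : 0 < m (ind {n | x * n ∈ A ∧ y * n ∈ A ∧ z * n ∈ A}) := by
    have : 0 < m (ind A) ^ 3 := pow_pos hi₀ 3
    linarith
  have hex : ∃ n, 0 < n ∧ x * n ∈ A ∧ y * n ∈ A ∧ z * n ∈ A := by
    by_contra hcon
    push Not at hcon
    have h1 := mnonpos hm (bdR_ind {n | x * n ∈ A ∧ y * n ∈ A ∧ z * n ∈ A}) fun n hn => by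
      unfold ind
      rw [Set.indicator_of_notMem]
      rintro ⟨h1, h2, h3⟩
      exact hcon n hn h1 h2 h3
    linarith
  obtain ⟨n, hn, h1, h2, h3⟩ := hex
  refine ⟨x * n, y * n, z * n, Nat.mul_pos hx hn, Nat.mul_pos hy hn, Nat.mul_pos hz hn, ?_, ?_, ?_⟩
  · rw [mul_pow, mul_pow, mul_pow, ← hxyz]
    ring
  · have e1 : c (x * n) = i₀ := h1
    have e2 : c (y * n) = i₀ := h2
    rw [e1, e2]
  · have e2 : c (y * n) = i₀ := h2
    have e3 : c (z * n) = i₀ := h3
    rw [e2, e3]

end Pool.Agent.F0f91f8.PC
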