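import Pool.Agent.Work.MP_0f91f8_co.PC.StmtsDm
import Pool.Agent.Work.MP_0f91f8_co.FC.I_Cp

/-!
# Block PC, domination: item DCp (the parts are admissible)
-/

set_option autoImplicit false

namespace Pool.Agent.F0f91f8.PC

open Filter Topology ComplexConjugate
open Pool.Agent.F0f91f8.FC
open scoped BigOperators

namespace XDCp

theorem dvd_v {κ n v p : ℕ} (hp : p.Prime) (j : Fin 4) (h : p ∣ Lf κ n v j) (hn : p ∣ n) :
    p ∣ v := by
  haveI : Fact p.Prime := ⟨hp⟩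
  have h2 : (n : ZMod p) = 0 := (ZMod.natCast_eq_zero_iff n p).2 hn
  have h3 := XCp.cast_Lf p κ n v j h
  rw [h2] at h3
  have h4 : (v : ZMod p) = 0 := by
    fin_cases j <;> simpa using h3
  exact (ZMod.natCast_eq_zero_iff v p).1 h4

theorem two_dvd {κ n v p : ℕ} (hp : p.Prime) (h2 : 2 < p) (hκ : ¬ p ∣ κ) (i j : Fin 4)
    (hij : i ≠ j) (hi : p ∣ Lf κ n v i) (hj : p ∣ Lf κ n v j) : p ∣ n := by
  haveI : Fact p.Prime := ⟨hp⟩
  have g1 := XCp.cast_Lf p κ n v i hi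
  have g2 := XCp.cast_Lf p κ n v j hj
  have h3 := XCp.two_sq (v : ZMod p) ((κ : ZMod p) * n) i j hij g1 g2
  have h4 : (2 : ZMod p) ≠ 0 := by
    intro h
    have h' : ((2 : ℕ) : ZMod p) = 0 := by exact_mod_cast h
    have := Nat.le_of_dvd (by norm_num) ((ZMod.natCast_eq_zero_iff 2 p).1 h')
    omega
  have h5 : ((κ : ZMod p) * n) = 0 := by
    rcases mul_eq_zero.1 h3 with h | h
    · exact absurd h h4
    · exact pow_eq_zero_iff (two_ne_zero) |>.1 h
  rcases mul_eq_zero.1 h5 with h | h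
  · exact absurd ((ZMod.natCast_eq_zero_iff κ p).1 h) hκ
  · exact (ZMod.natCast_eq_zero_iff n p).1 h

theorem scale (q κ n v : ℕ) (j : Fin 4) :
    Lf (q * κ) n (q * v) j = (![q, q, q, q ^ 2] : Fin 4 → ℕ) j * Lf κ n v j := by
  fin_cases j
  · show q * v = q * v
    rfl
  · show q * v + q * κ * n = q * (v + κ * n)
    ring
  · show q * v + 2 * (q * κ * n) = q * (v + 2 * (κ * n))
    ring
  · show (q * v + q * κ * n) ^ 2 + (q * κ * n) ^ 2 = q ^ 2 * ((v + κ * n) ^ 2 + (κ * n) ^ 2)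
    ring

end XDCp

open XDCp in
/-- [DCp] -/
theorem pr_DCp : StDCp := by
  classical
  intro K y κ n X v hK hκ hκp hn hv hNo
  have hv1 : 1 ≤ v := (Finset.mem_Icc.1 hv).1
  have hL0 : ∀ j, Lf κ n v j ≠ 0 := by
    intro j
    have hκn : 0 < κ * n := Nat.mul_pos hκ hn
    fin_cases j
    · show v ≠ 0
      omega
    · show v + κ * n ≠ 0
      omega
    · show v + 2 * (κ * n) ≠ 0
      omega
    · show (v + κ * n) ^ 2 + (κ * n) ^ 2 ≠ 0
      positivity
  have hnn : ∀ (j : Fin 4) (p : ℕ), p.Prime → K < p → p ∣ Lf κ n v j → ¬ p ∣ n :=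
    fun j p hp hKp h h' => hNo p hp hKp (dvd_v hp j h h') h'
  refine ⟨⟨Nat.mul_pos (Nat.factorial_pos K) hκ, Dvd.intro _ rfl, ?_⟩,
    ⟨fun j => XCp.sp_pos _ _ _, ?_, ?_, ?_⟩, ?_⟩
  · intro p hp h
    rcases hp.dvd_mul.1 h with h | h
    · exact hp.dvd_factorial.1 h
    · exact hκp p hp h
  · intro i j hij
    by_contra hc
    obtain ⟨p, hp, h1, h2⟩ := Nat.Prime.not_coprime_iff_dvd.1 hc
    have hKp := (XCp.prime_sp hp h1).1
    have d1 := h1.trans (XCp.sp_dvd K y _ (hL0 i))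
    have d2 := h2.trans (XCp.sp_dvd K y _ (hL0 j))
    exact hnn i p hp hKp d1 (two_dvd hp (by omega)
      (fun h => absurd (hκp p hp h) (not_le.2 hKp)) i j hij d1 d2)
  · intro j p hp h
    exact XCp.prime_sp hp h
  · intro j
    by_contra hc
    obtain ⟨p, hp, h1, h2⟩ := Nat.Prime.not_coprime_iff_dvd.1 hc
    exact hnn j p hp (XCp.prime_sp hp h1).1 (h1.trans (XCp.sp_dvd K y _ (hL0 j))) h2
  · unfold Ns
    rw [Finset.mem_filter]
    simp only [add_zero, scale]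
    refine ⟨hv, fun j => (XCp.sp_dvd K y _ (hL0 j)).trans (Dvd.intro_left _ rfl), ?_⟩
    intro p hp hdiv
    obtain ⟨hpi, hpp, hwp, hnd⟩ := Finset.mem_filter.1 hp
    have hpy : p ≤ y := (Finset.mem_Icc.1 hpi).2
    rw [Prime.dvd_finsetProd_iff hpp.prime] at hdiv
    obtain ⟨j, -, hj⟩ := hdiv
    have hq : ¬ p ∣ K.factorial := fun h => absurd (hpp.dvd_factorial.1 h) (not_le.2 hwp)
    have hj' : p ∣ Lf κ n v j := by
      rcases hpp.dvd_mul.1 hj with h | h
      · exfalso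
        apply hq
        fin_cases j
        · exact h
        · exact h
        · exact h
        · exact hpp.dvd_of_dvd_pow h
      · exact h
    apply hnd
    refine Dvd.dvd.mul_right ?_ n
    exact (XCp.dvd_sp (hL0 j) hpp hj' hwp hpy).trans
      (Finset.dvd_prod_of_mem (fun j => sp K y (Lf κ n v j)) (Finset.mem_univ j))

end Pool.Agent.F0f91f8.PC
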