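import Pool.Agent.Work.MP_0f91f8_co.PC.StmtsDm

/-!
# Block PC, item DCw: the weight of `FC/DefsS.lean` against the product weight
-/

set_option autoImplicit false

namespace Pool.Agent.F0f91f8.PC

open Filter Topology ComplexConjugate
open Pool.Agent.F0f91f8.FC
open scoped BigOperators

namespace XDCw

theorem one_sub_sum_le_prod {ι : Type} [DecidableEq ι] (T : Finset ι) (x : ι → ℝ)
    (h0 : ∀ i ∈ T, 0 ≤ x i) (h1 : ∀ i ∈ T, x i ≤ 1) :
    1 - ∑ i ∈ T, x i ≤ ∏ i ∈ T, (1 - x i) ∧ ∏ i ∈ T, (1 - x i) ≤ 1 ∧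
      0 ≤ ∏ i ∈ T, (1 - x i) := by
  induction T using Finset.induction_on with
  | empty => simp
  | insert a T ha ih =>
    obtain ⟨i1, i2, i3⟩ := ih (fun i hi => h0 i (Finset.mem_insert_of_mem hi))
      (fun i hi => h1 i (Finset.mem_insert_of_mem hi))
    have a0 := h0 a (Finset.mem_insert_self a T)
    have a1 := h1 a (Finset.mem_insert_self a T)
    rw [Finset.sum_insert ha, Finset.prod_insert ha]
    refine ⟨?_, ?_, ?_⟩
    · nlinarith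
    · nlinarith
    · exact mul_nonneg (by linarith) i3

theorem local_ineq (p r : ℝ) (hp : 100 ≤ p) (hr : 0 ≤ r) (hr2 : r ≤ 2) :
    0 < 1 - 5 / p ∧ 1 - 5 / p ≤ 1 - (3 + r) / p ∧
      1 - (3 + r) / p ≤ (1 - 1 / p) ^ 3 * (1 - r / p) := by
  have hp0 : (0 : ℝ) < p := by linarith
  set x : ℝ := 1 / p with hx
  have hx0 : 0 < x := by positivity
  have hx1 : x ≤ 1 / 100 := one_div_le_one_div_of_le (by norm_num) hp
  have e1 : 5 / p = 5 * x := by rw [hx]; ring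
  have e2 : (3 + r) / p = (3 + r) * x := by rw [hx]; ring
  have e3 : r / p = r * x := by rw [hx]; ring
  rw [e1, e2, e3]
  refine ⟨by linarith, by nlinarith, ?_⟩
  have h3 : 1 - 3 * x ≤ (1 - x) ^ 3 := by nlinarith [mul_pos hx0 hx0]
  have h4 : 0 ≤ 1 - r * x := by nlinarith
  have h5 : (1 - 3 * x) * (1 - r * x) ≤ (1 - x) ^ 3 * (1 - r * x) :=
    mul_le_mul_of_nonneg_right h3 h4
  have h6 : 0 ≤ r * x ^ 2 := by positivity
  nlinarith

theorem alg (a b c d D0 D1 D2 D3 E0 E3 r : ℝ) (ha : a ≠ 0) (hb : b ≠ 0) (hc : c ≠ 0)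
    (hd : d ≠ 0) : 1 / a * D0 * E0 * (1 / b * D1 * E0) * (1 / c * D2 * E0) * (r / d * D3 * E3) =
      r / (a * b * c * d) * (D0 * D1 * D2 * D3 * (E0 ^ 3 * E3)) := by
  field_simp

end XDCw

open XDCw

/-- item DCw -/
theorem pr_DCw (hRh : FC.StRh) : StDCw := by
  intro K y n s hK hn hsum hA
  obtain ⟨hs0, hcop, hpr, -⟩ := hA
  set S : ℕ := ∏ j, s j with hS
  set P1 := PN K y 1 with hP1
  set PS := PN K y (S * n) with hPS
  set U : Finset ℕ := Finset.univ.biUnion (fun j : Fin 4 => (s j).primeFactors) with hU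
  set Nn := n.primeFactors.filter (fun p => K < p) with hNn
  have hKR : (100 : ℝ) ≤ (K : ℝ) := by exact_mod_cast hK
  -- local facts
  have hloc : ∀ p : ℕ, p.Prime → K < p → 0 < 1 - 5 / (p : ℝ) ∧
      1 - 5 / (p : ℝ) ≤ 1 - (om p : ℝ) / p ∧
      1 - (om p : ℝ) / p ≤ (1 - 1 / (p : ℝ)) ^ 3 * (1 - (rho p : ℝ) / p) := by
    intro p hp hKp
    have h1 : (100 : ℝ) ≤ (p : ℝ) := by
      have : (K : ℝ) < (p : ℝ) := by exact_mod_cast hKp
      linarith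
    have h2 : (rho p : ℝ) ≤ 2 := by exact_mod_cast hRh p hp
    have h3 : ((om p : ℕ) : ℝ) = 3 + (rho p : ℝ) := by
      unfold om
      push_cast
      ring
    rw [h3]
    exact local_ineq p (rho p) h1 (by positivity) h2
  have hmemP1 : ∀ p, p ∈ P1 → p.Prime ∧ K < p := by
    intro p hp
    rw [hP1] at hp
    unfold PN at hp
    rw [Finset.mem_filter] at hp
    exact ⟨hp.2.1, hp.2.2.1⟩
  have hPSP1 : PS ⊆ P1 := by
    intro p hp
    rw [hPS] at hp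
    unfold PN at hp
    rw [Finset.mem_filter] at hp
    rw [hP1]
    unfold PN
    rw [Finset.mem_filter]
    exact ⟨hp.1, hp.2.1, hp.2.2.1, fun h => hp.2.1.one_lt.ne' (Nat.dvd_one.1 h)⟩
  have hmemU : ∀ p, p ∈ U → p.Prime ∧ K < p := by
    intro p hp
    rw [hU, Finset.mem_biUnion] at hp
    obtain ⟨j, -, hj⟩ := hp
    have h1 := Nat.prime_of_mem_primeFactors hj
    exact ⟨h1, (hpr j p h1 (Nat.dvd_of_mem_primeFactors hj)).1⟩
  have hmemN : ∀ p, p ∈ Nn → p.Prime ∧ K < p := by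
    intro p hp
    rw [hNn, Finset.mem_filter] at hp
    exact ⟨Nat.prime_of_mem_primeFactors hp.1, hp.2⟩
  have hdiff : P1 \ PS ⊆ U ∪ Nn := by
    intro p hp
    rw [Finset.mem_sdiff] at hp
    obtain ⟨hp1, hp2⟩ := hp
    have hpp := hmemP1 p hp1
    have hd : p ∣ S * n := by
      by_contra hnd
      apply hp2
      rw [hPS]
      unfold PN
      rw [Finset.mem_filter]
      rw [hP1] at hp1
      unfold PN at hp1
      rw [Finset.mem_filter] at hp1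
      exact ⟨hp1.1, hp1.2.1, hp1.2.2.1, hnd⟩
    rw [Finset.mem_union]
    rcases (Nat.Prime.dvd_mul hpp.1).1 hd with h | h
    · left
      rw [hS] at h
      obtain ⟨j, -, hj⟩ := (Prime.dvd_finsetProd_iff hpp.1.prime _).1 h
      rw [hU, Finset.mem_biUnion]
      exact ⟨j, Finset.mem_univ _, Nat.mem_primeFactors.2 ⟨hpp.1, hj, (hs0 j).ne'⟩⟩
    · right
      rw [hNn, Finset.mem_filter]
      exact ⟨Nat.mem_primeFactors.2 ⟨hpp.1, h, hn.ne'⟩, hpp.2⟩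
  -- the functions
  set g : ℕ → ℝ := fun p => 1 - 5 / (p : ℝ) with hg
  set B : ℕ → ℝ := fun p => (1 - 1 / (p : ℝ)) ^ 3 * (1 - (rho p : ℝ) / p) with hB
  set A : ℕ → ℝ := fun p => 1 - (om p : ℝ) / p with hAd
  have hg0 : ∀ p : ℕ, p.Prime → K < p → 0 < g p := fun p h1 h2 => (hloc p h1 h2).1
  have hg1 : ∀ p : ℕ, g p ≤ 1 := by
    intro p
    have : (0 : ℝ) ≤ 5 / (p : ℝ) := by positivity
    simp only [hg]
    linarith
  have hUpos : 0 < ∏ p ∈ U, g p := Finset.prod_pos fun p hp => hg0 p (hmemU p hp).1 (hmemU p hp).2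
  have hNpos : 0 < ∏ p ∈ Nn, g p := Finset.prod_pos fun p hp => hg0 p (hmemN p hp).1 (hmemN p hp).2
  have hNhalf : 1 / 2 ≤ ∏ p ∈ Nn, g p := by
    have h1 := (one_sub_sum_le_prod Nn (fun p : ℕ => 5 / (p : ℝ)) (fun p _ => by positivity)
      (fun p hp => by
        have := (hloc p (hmemN p hp).1 (hmemN p hp).2).1
        linarith)).1
    have h2 : ∑ p ∈ Nn, 5 / (p : ℝ) = 5 * ∑ p ∈ Nn, 1 / (p : ℝ) := by
      rw [Finset.mul_sum]
      refine Finset.sum_congr rfl fun p _ => ?_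
      ring
    have h3 : ∏ p ∈ Nn, (1 - 5 / (p : ℝ)) = ∏ p ∈ Nn, g p := rfl
    rw [h2, h3] at h1
    linarith
  have hBpos : ∀ p ∈ P1, 0 < B p := by
    intro p hp
    have h1 := hloc p (hmemP1 p hp).1 (hmemP1 p hp).2
    simp only [hB]
    linarith [h1.1, h1.2.1, h1.2.2]
  -- main product inequality
  have hunion : (∏ p ∈ U, g p) * ∏ p ∈ Nn, g p ≤ ∏ p ∈ U ∪ Nn, g p := by
    rw [← Finset.prod_union_inter]
    have h1 : ∏ p ∈ U ∩ Nn, g p ≤ 1 := Finset.prod_le_one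
      (fun p hp => (hg0 p (hmemU p (Finset.mem_inter.1 hp).1).1
        (hmemU p (Finset.mem_inter.1 hp).1).2).le) (fun p _ => hg1 p)
    have h2 : 0 ≤ ∏ p ∈ U ∪ Nn, g p := Finset.prod_nonneg fun p hp => by
      rcases Finset.mem_union.1 hp with h | h
      · exact (hg0 p (hmemU p h).1 (hmemU p h).2).le
      · exact (hg0 p (hmemN p h).1 (hmemN p h).2).le
    exact mul_le_of_le_one_right h2 h1
  have hsub : ∏ p ∈ U ∪ Nn, g p ≤ ∏ p ∈ P1 \ PS, g p := by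
    rw [← Finset.prod_sdiff hdiff]
    have h1 : ∏ p ∈ (U ∪ Nn) \ (P1 \ PS), g p ≤ 1 := Finset.prod_le_one
      (fun p hp => by
        rcases Finset.mem_union.1 (Finset.mem_sdiff.1 hp).1 with h | h
        · exact (hg0 p (hmemU p h).1 (hmemU p h).2).le
        · exact (hg0 p (hmemN p h).1 (hmemN p h).2).le) (fun p _ => hg1 p)
    have h2 : 0 ≤ ∏ p ∈ P1 \ PS, g p := Finset.prod_nonneg fun p hp => by
      have := hmemP1 p (Finset.mem_sdiff.1 hp).1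
      exact (hg0 p this.1 this.2).le
    exact mul_le_of_le_one_left h2 h1
  have hgB : ∏ p ∈ P1 \ PS, g p ≤ ∏ p ∈ P1 \ PS, B p := by
    refine Finset.prod_le_prod (fun p hp => ?_) (fun p hp => ?_)
    · have := hmemP1 p (Finset.mem_sdiff.1 hp).1
      exact (hg0 p this.1 this.2).le
    · have := hmemP1 p (Finset.mem_sdiff.1 hp).1
      have h1 := hloc p this.1 this.2
      exact h1.2.1.trans h1.2.2
  have hAB : ∏ p ∈ PS, A p ≤ ∏ p ∈ PS, B p := by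
    refine Finset.prod_le_prod (fun p hp => ?_) (fun p hp => ?_)
    · have := hmemP1 p (hPSP1 hp)
      have h1 := hloc p this.1 this.2
      exact h1.1.le.trans h1.2.1
    · have := hmemP1 p (hPSP1 hp)
      exact (hloc p this.1 this.2).2.2
  have hPSpos : 0 ≤ ∏ p ∈ PS, B p := Finset.prod_nonneg fun p hp => (hBpos p (hPSP1 hp)).le
  have hmain : ∏ p ∈ PS, A p ≤ 2 * ((∏ p ∈ U, g p)⁻¹ * ∏ p ∈ P1, B p) := by
    have h1 : (∏ p ∈ U, g p) * (1 / 2) ≤ ∏ p ∈ P1 \ PS, B p :=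
      (mul_le_mul_of_nonneg_left hNhalf hUpos.le).trans (hunion.trans (hsub.trans hgB))
    have h2 : ∏ p ∈ P1, B p = (∏ p ∈ P1 \ PS, B p) * ∏ p ∈ PS, B p :=
      (Finset.prod_sdiff hPSP1).symm
    rw [h2]
    have h3 : (∏ p ∈ U, g p) * (1 / 2) * ∏ p ∈ PS, B p ≤
        (∏ p ∈ P1 \ PS, B p) * ∏ p ∈ PS, B p := mul_le_mul_of_nonneg_right h1 hPSpos
    have h4 : (∏ p ∈ U, g p)⁻¹ * ((∏ p ∈ U, g p) * (1 / 2) * ∏ p ∈ PS, B p) ≤
        (∏ p ∈ U, g p)⁻¹ * ((∏ p ∈ P1 \ PS, B p) * ∏ p ∈ PS, B p) :=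
      mul_le_mul_of_nonneg_left h3 (inv_nonneg.2 hUpos.le)
    have h5 : (∏ p ∈ U, g p)⁻¹ * ((∏ p ∈ U, g p) * (1 / 2) * ∏ p ∈ PS, B p) =
        (1 / 2) * ∏ p ∈ PS, B p := by
      rw [← mul_assoc, ← mul_assoc, inv_mul_cancel₀ hUpos.ne', one_mul]
    rw [h5] at h4
    linarith
  -- assemble
  have hD : ∏ j, ∏ p ∈ (s j).primeFactors, (1 - 5 / (p : ℝ))⁻¹ = (∏ p ∈ U, g p)⁻¹ := by
    rw [hU, Finset.prod_biUnion, ← Finset.prod_inv_distrib]
    · refine Finset.prod_congr rfl fun j _ => ?_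
      rw [Finset.prod_inv_distrib]
    · intro i _ j _ hij
      exact (hcop i j hij).disjoint_primeFactors
  have hE : (∏ p ∈ P1, (1 - 1 / (p : ℝ))) ^ 3 * ∏ p ∈ P1, (1 - (rho p : ℝ) / (p : ℝ)) =
      ∏ p ∈ P1, B p := by
    rw [← Finset.prod_pow, ← Finset.prod_mul_distrib]
  have hSc : ((S : ℕ) : ℝ) = (s 0 : ℝ) * s 1 * s 2 * s 3 := by
    rw [hS, Fin.prod_univ_four]
    push_cast
    ring
  have hSpos : ∀ j, (0 : ℝ) < (s j : ℝ) := fun j => by exact_mod_cast hs0 j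
  have hc : 0 ≤ (rho4 (s 3) : ℝ) / ((S : ℕ) : ℝ) := by positivity
  have hL : Wt K y n s = (rho4 (s 3) : ℝ) / ((S : ℕ) : ℝ) * ∏ p ∈ PS, A p := rfl
  have hR : wt0 K y (s 0) * wt0 K y (s 1) * wt0 K y (s 2) * wt3 K y (s 3) =
      (rho4 (s 3) : ℝ) / ((S : ℕ) : ℝ) * ((∏ p ∈ U, g p)⁻¹ * ∏ p ∈ P1, B p) := by
    rw [← hD, ← hE, hSc, Fin.prod_univ_four]
    unfold wt0 wt3
    rw [← hP1]
    exact alg _ _ _ _ _ _ _ _ _ _ _ (hSpos 0).ne' (hSpos 1).ne' (hSpos 2).ne' (hSpos 3).ne'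
  rw [hL, hR]
  calc (rho4 (s 3) : ℝ) / ((S : ℕ) : ℝ) * ∏ p ∈ PS, A p
      ≤ (rho4 (s 3) : ℝ) / ((S : ℕ) : ℝ) * (2 * ((∏ p ∈ U, g p)⁻¹ * ∏ p ∈ P1, B p)) :=
        mul_le_mul_of_nonneg_left hmain hc
    _ = 2 * ((rho4 (s 3) : ℝ) / ((S : ℕ) : ℝ) * ((∏ p ∈ U, g p)⁻¹ * ∏ p ∈ P1, B p)) := by ring

end Pool.Agent.F0f91f8.PC
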