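import Pool.Agent.Work.MP_0f91f8_co.PC.StmtsDm

/-!
# [DDd]: the domination inequality `DmS` (block PC of MP_0f91f8_co)
-/

set_option autoImplicit false

namespace Pool.Agent.F0f91f8.PC

open Filter Topology ComplexConjugate
open Pool.Agent.F0f91f8.FC
open scoped BigOperators

namespace XDDd

/-- the four weights -/
noncomputable def W4 (K y : ℕ) (j : Fin 4) (s : ℕ) : ℝ := if j = 3 then wt3 K y s else wt0 K y s

theorem prod_W4 (K y : ℕ) (s : Fin 4 → ℕ) :
    ∏ j, W4 K y j (s j) = wt0 K y (s 0) * wt0 K y (s 1) * wt0 K y (s 2) * wt3 K y (s 3) := by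
  rw [Fin.prod_univ_four]
  unfold W4
  rw [if_neg (by decide), if_neg (by decide), if_neg (by decide), if_pos rfl]

/-- summation first over the coordinate `σ`, then over the three others -/
theorem key (N : Finset ℕ) (w : Fin 4 → ℕ → ℝ) (x : ℕ) (hx : x ∈ N)
    (hw : ∀ j, ∀ s ∈ N, 0 ≤ w j s) (hm : ∀ j, ∑ s ∈ N, w j s ≤ 2) (σ : Fin 4)
    (G : (Fin 4 → ℕ) → ℝ) (θ : ℝ) (hθ : 0 ≤ θ)
    (h : ∀ s : Fin 4 → ℕ, (∀ j, s j ∈ N) →
      ∑ s' ∈ N, w σ s' * G (Function.update s σ s') ≤ θ) :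
    ∑ s ∈ Fintype.piFinset (fun _ : Fin 4 => N), (∏ j, w j (s j)) * G s ≤ 8 * θ := by
  have e1 : ∑ s ∈ Fintype.piFinset (fun _ : Fin 4 => N), (∏ j, w j (s j)) * G s =
      ∑ q ∈ (Fintype.piFinset (fun _ : Fin 3 => N)) ×ˢ N,
        (∏ i, w (σ.succAbove i) (q.1 i)) *
          (w σ q.2 * G (Fin.insertNth (α := fun _ => ℕ) σ q.2 q.1)) := by
    refine Finset.sum_bij' (fun s _ => (fun i => s (σ.succAbove i), s σ))
      (fun q _ => Fin.insertNth (α := fun _ => ℕ) σ q.2 q.1) ?_ ?_ ?_ ?_ ?_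
    · intro s hs
      rw [Fintype.mem_piFinset] at hs
      rw [Finset.mem_product]
      refine ⟨?_, hs σ⟩
      rw [Fintype.mem_piFinset]
      intro i
      exact hs _
    · intro q hq
      rw [Finset.mem_product, Fintype.mem_piFinset] at hq
      rw [Fintype.mem_piFinset]
      intro j
      refine Fin.succAboveCases σ ?_ ?_ j
      · rw [Fin.insertNth_apply_same]
        exact hq.2
      · intro i
        rw [Fin.insertNth_apply_succAbove]
        exact hq.1 i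
    · intro s hs
      exact Fin.insertNth_self_removeNth σ s
    · intro q hq
      refine Prod.ext ?_ ?_
      · funext i
        exact Fin.insertNth_apply_succAbove (α := fun _ => ℕ) σ q.2 q.1 i
      · exact Fin.insertNth_apply_same (α := fun _ => ℕ) σ q.2 q.1
    · intro s hs
      have e2 : Fin.insertNth (α := fun _ => ℕ) σ (s σ) (fun i => s (σ.succAbove i)) = s :=
        Fin.insertNth_self_removeNth σ s
      simp only
      rw [e2, Fin.prod_univ_succAbove (fun j => w j (s j)) σ]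
      ring
  rw [e1, Finset.sum_product]
  have e3 : ∀ r ∈ Fintype.piFinset (fun _ : Fin 3 => N),
      ∑ s' ∈ N, (∏ i, w (σ.succAbove i) (r i)) *
        (w σ s' * G (Fin.insertNth (α := fun _ => ℕ) σ s' r)) ≤
      (∏ i, w (σ.succAbove i) (r i)) * θ := by
    intro r hr
    rw [Fintype.mem_piFinset] at hr
    rw [← Finset.mul_sum]
    refine mul_le_mul_of_nonneg_left ?_ (Finset.prod_nonneg fun i _ => hw _ _ (hr i))
    have h' := h (Fin.insertNth (α := fun _ => ℕ) σ x r) (by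
      intro j
      refine Fin.succAboveCases σ ?_ ?_ j
      · rw [Fin.insertNth_apply_same]
        exact hx
      · intro i
        rw [Fin.insertNth_apply_succAbove]
        exact hr i)
    refine le_trans (le_of_eq ?_) h'
    refine Finset.sum_congr rfl fun s' _ => ?_
    rw [Fin.update_insertNth]
  refine le_trans (Finset.sum_le_sum e3) ?_
  rw [← Finset.sum_mul]
  have e4 : ∑ r ∈ Fintype.piFinset (fun _ : Fin 3 => N), ∏ i, w (σ.succAbove i) (r i) =
      ∏ i : Fin 3, ∑ s ∈ N, w (σ.succAbove i) s :=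
    (Finset.prod_univ_sum (fun _ : Fin 3 => N) (fun i s => w (σ.succAbove i) s)).symm
  rw [e4]
  refine mul_le_mul_of_nonneg_right ?_ hθ
  have e5 : ∏ i : Fin 3, ∑ s ∈ N, w (σ.succAbove i) s ≤ ∏ _i : Fin 3, (2 : ℝ) :=
    Finset.prod_le_prod (fun i _ => Finset.sum_nonneg fun s hs => hw _ s hs) fun i _ => hm _
  refine le_trans e5 (le_of_eq ?_)
  rw [Finset.prod_const, Finset.card_univ, Fintype.card_fin]
  norm_num

/-- `K! κ` is admissible -/
theorem adm (K κ : ℕ) (hκ : 0 < κ) (hp : ∀ p : ℕ, p.Prime → p ∣ κ → p ≤ K) :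
    Adm K (K.factorial * κ) := by
  refine ⟨Nat.mul_pos (Nat.factorial_pos K) hκ, Dvd.intro _ rfl, ?_⟩
  intro p hpp hd
  rcases (Nat.Prime.dvd_mul hpp).1 hd with h | h
  · exact (Nat.Prime.dvd_factorial hpp).1 h
  · exact hp p hpp h

open Classical in
theorem mem_SS {K y n X : ℕ} {s : Fin 4 → ℕ} (hs : s ∈ SS K y n X) :
    (∀ j, s j ∈ Finset.range (X + 1)) ∧ AdmS K y n s ∧ (∏ j, s j) ^ 4 ≤ X := by
  unfold SS at hs
  rw [Finset.mem_filter, Fintype.mem_piFinset] at hs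
  exact hs

end XDDd

/-- [DDd] -/
theorem pr_DDd (hSB : FC.StSB) (hMa : MaS) (hNa : StDNa) (hCw : StDCw) (hCp : StDCp)
    (hFb : StDFb) : StDDd := by
  have _ := hCp
  obtain ⟨R₀, hR₀, hSB⟩ := hSB
  refine ⟨R₀, hR₀, ?_⟩
  intro J K y κ n X E₀ T₀ cl σ hK hκ hκp hn hy hX hsum hσ Ψ θ hΨ hθ
  obtain ⟨hpos, hm0, hm3⟩ := hMa K y X hK
  obtain ⟨_, _, hN⟩ := hNa K y X
  have hX1 : 1 ≤ X := le_trans (Nat.one_le_pow _ _ (by omega)) hX
  have h1N : 1 ∈ Nm K y X := hN 1 one_pos hX1 fun p hp hd =>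
    absurd (Nat.dvd_one.1 hd) hp.one_lt.ne'
  have hW : ∀ j, ∀ s ∈ Nm K y X, 0 ≤ XDDd.W4 K y j s := by
    intro j s hs
    unfold XDDd.W4
    split_ifs
    · exact (hpos s hs).2
    · exact (hpos s hs).1
  have hM : ∀ j, ∑ s ∈ Nm K y X, XDDd.W4 K y j s ≤ 2 := by
    intro j
    unfold XDDd.W4
    split_ifs
    · exact hm3
    · exact hm0
  refine le_trans (hFb J K y κ n X E₀ T₀ cl hK hκ hκp hn Ψ hΨ) ?_
  have hft : ∀ (f : Fin 4 → Fin E₀) (t : Fin 4 → Fin J → Fin (T₀ + 1)),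
      ∑ s ∈ SS K y n X, ((Ns K y (K.factorial * κ) n 0 X s).card : ℝ) *
        Ψ (fun j => (f j : ℕ)) (fun j i => (t j i : ℕ)) s ≤ 96 * X * θ := by
    intro f t
    have hθf : ∀ s : Fin 4 → ℕ, (∀ j, s j ∈ Nm K y X) →
        ∑ s' ∈ Nm K y X, XDDd.W4 K y σ s' *
          Ψ (fun j => (f j : ℕ)) (fun j i => (t j i : ℕ)) (Function.update s σ s') ≤ θ := by
      intro s hs
      have h1 := hθ (fun j => (f j : ℕ)) (fun j i => (t j i : ℕ)) s (fun j => (f j).2)
        (fun j i => Nat.lt_succ_iff.1 (t j i).2) hs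
      refine le_trans (le_of_eq ?_) h1
      refine Finset.sum_congr rfl fun s' _ => ?_
      unfold XDDd.W4
      rw [if_neg hσ]
    have hθ0 : 0 ≤ θ := by
      refine le_trans ?_ (hθf (fun _ => 1) fun _ => h1N)
      exact Finset.sum_nonneg fun s' hs' => mul_nonneg (hW σ s' hs') (hΨ _ _ _)
    have hk := XDDd.key (Nm K y X) (XDDd.W4 K y) 1 h1N hW hM σ
      (fun s => Ψ (fun j => (f j : ℕ)) (fun j i => (t j i : ℕ)) s) θ hθ0 hθf
    have hsub : SS K y n X ⊆ Fintype.piFinset (fun _ : Fin 4 => Nm K y X) := by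
      intro s hs
      have hs := XDDd.mem_SS hs
      rw [Fintype.mem_piFinset]
      intro j
      exact hN (s j) (hs.2.1.1 j) (Nat.lt_succ_iff.1 (Finset.mem_range.1 (hs.1 j)))
        fun p hp hd => hs.2.1.2.2.1 j p hp hd
    have hstep : ∑ s ∈ SS K y n X, ((Ns K y (K.factorial * κ) n 0 X s).card : ℝ) *
        Ψ (fun j => (f j : ℕ)) (fun j i => (t j i : ℕ)) s ≤
        ∑ s ∈ SS K y n X, 12 * X * ((∏ j, XDDd.W4 K y j (s j)) *
          Ψ (fun j => (f j : ℕ)) (fun j i => (t j i : ℕ)) s) := by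
      refine Finset.sum_le_sum fun s hs => ?_
      have hs := XDDd.mem_SS hs
      have h1 := hSB K y (K.factorial * κ) n 0 X s (by omega) (XDDd.adm K κ hκ hκp) hn hy hX
        hs.2.1 hs.2.2
      have h2 := hCw K y n s hK hn hsum hs.2.1
      rw [← XDDd.prod_W4] at h2
      have h3 : ((Ns K y (K.factorial * κ) n 0 X s).card : ℝ) ≤
          12 * X * ∏ j, XDDd.W4 K y j (s j) := by
        refine le_trans h1 ?_
        have h4 : (6 : ℝ) * X * Wt K y n s ≤ 6 * X * (2 * ∏ j, XDDd.W4 K y j (s j)) :=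
          mul_le_mul_of_nonneg_left h2 (by positivity)
        refine le_trans h4 (le_of_eq ?_)
        ring
      refine le_trans (mul_le_mul_of_nonneg_right h3 (hΨ _ _ _)) (le_of_eq ?_)
      ring
    refine le_trans hstep ?_
    rw [← Finset.mul_sum]
    have hext : ∑ s ∈ SS K y n X, ((∏ j, XDDd.W4 K y j (s j)) *
          Ψ (fun j => (f j : ℕ)) (fun j i => (t j i : ℕ)) s) ≤
        ∑ s ∈ Fintype.piFinset (fun _ : Fin 4 => Nm K y X), ((∏ j, XDDd.W4 K y j (s j)) *
          Ψ (fun j => (f j : ℕ)) (fun j i => (t j i : ℕ)) s) := by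
      refine Finset.sum_le_sum_of_subset_of_nonneg hsub fun s hs _ => ?_
      rw [Fintype.mem_piFinset] at hs
      exact mul_nonneg (Finset.prod_nonneg fun j _ => hW j _ (hs j)) (hΨ _ _ _)
    have hfin := le_trans hext hk
    have h5 : (12 : ℝ) * X * ∑ s ∈ SS K y n X, ((∏ j, XDDd.W4 K y j (s j)) *
          Ψ (fun j => (f j : ℕ)) (fun j i => (t j i : ℕ)) s) ≤ 12 * X * (8 * θ) :=
      mul_le_mul_of_nonneg_left hfin (by positivity)
    refine le_trans h5 (le_of_eq ?_)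
    ring
  refine le_trans (Finset.sum_le_sum fun f _ => Finset.sum_le_sum fun t _ => hft f t) ?_
  rw [Finset.sum_const, Finset.sum_const, Finset.card_univ, Finset.card_univ, nsmul_eq_mul,
    nsmul_eq_mul]
  have c1 : Fintype.card (Fin 4 → Fin E₀) = E₀ ^ 4 := by
    rw [Fintype.card_fun, Fintype.card_fin, Fintype.card_fin]
  have c2 : Fintype.card (Fin 4 → Fin J → Fin (T₀ + 1)) = (T₀ + 1) ^ (4 * J) := by
    rw [Fintype.card_fun, Fintype.card_fun, Fintype.card_fin, Fintype.card_fin, Fintype.card_fin,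
      ← pow_mul, mul_comm]
  rw [c1, c2]
  push_cast
  refine le_of_eq ?_
  ring

end Pool.Agent.F0f91f8.PC
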