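import Pool.Agent.Work.MP_0f91f8_co.PC.StmtsDm

/-!
# Block PC, item DEu: the Euler product
-/

set_option autoImplicit false

namespace Pool.Agent.F0f91f8.PC

open Filter Topology ComplexConjugate
open Pool.Agent.F0f91f8.FC
open scoped BigOperators

namespace XDEu

/-- the geometric tail -/
theorem geo (t : ℝ) (ht : 0 ≤ t) (ht' : t ≤ 1 / 101) (z : ℂ) (hz : ‖z‖ = t) (A : ℕ) :
    ‖∑ a ∈ Finset.range A, z ^ (a + 2)‖ ≤ t ^ 2 / (1 - t) := by
  have h1 : (0 : ℝ) < 1 - t := by linarith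
  calc ‖∑ a ∈ Finset.range A, z ^ (a + 2)‖ ≤ ∑ a ∈ Finset.range A, ‖z ^ (a + 2)‖ := norm_sum_le _ _
    _ = t ^ 2 * ∑ a ∈ Finset.range A, t ^ a := by
        rw [Finset.mul_sum]
        refine Finset.sum_congr rfl fun a _ => ?_
        rw [norm_pow, hz]
        ring
    _ ≤ t ^ 2 * (1 / (1 - t)) := by
        refine mul_le_mul_of_nonneg_left ?_ (by positivity)
        rw [geom_sum_eq (by linarith)]
        rw [show (t ^ A - 1) / (t - 1) = (1 - t ^ A) / (1 - t) by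
          rw [← neg_div_neg_eq]; ring_nf]
        refine div_le_div_of_nonneg_right ?_ h1.le
        have : 0 ≤ t ^ A := by positivity
        linarith
    _ = t ^ 2 / (1 - t) := by ring

/-- one factor -/
theorem fac (t : ℝ) (ht : 0 < t) (ht' : t ≤ 1 / 101) (w : ℂ) (hw : ‖w‖ = 1) (A : ℕ) (hA : 1 ≤ A) :
    ‖∑ a ∈ Finset.range (A + 1), ((1 - t : ℝ) : ℂ) *
      ((if a = 0 then (1 : ℝ) else (1 - 5 * t)⁻¹ * t ^ a : ℝ) : ℂ) * w ^ a‖ ≤
      Real.exp (-(1 - w.re) * t + 20 * t ^ 2) := by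
  obtain ⟨B, rfl⟩ : ∃ B, A = B + 1 := ⟨A - 1, by omega⟩
  have h5 : (0 : ℝ) < 1 - 5 * t := by linarith
  have h1 : (0 : ℝ) < 1 - t := by linarith
  have e1 : ∑ a ∈ Finset.range (B + 1 + 1), ((1 - t : ℝ) : ℂ) *
      ((if a = 0 then (1 : ℝ) else (1 - 5 * t)⁻¹ * t ^ a : ℝ) : ℂ) * w ^ a =
      ((1 - t : ℝ) : ℂ) * (1 + (((1 - 5 * t)⁻¹ : ℝ) : ℂ) * ((t : ℂ) * w) +
        (((1 - 5 * t)⁻¹ : ℝ) : ℂ) * ∑ a ∈ Finset.range B, ((t : ℂ) * w) ^ (a + 2)) := by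
    rw [Finset.sum_range_succ', Finset.sum_range_succ']
    simp only [Nat.add_eq_zero_iff, one_ne_zero, and_false, if_false, if_true, pow_zero, zero_add]
    rw [mul_add, mul_add, Finset.mul_sum, Finset.mul_sum]
    push_cast
    have : ∀ a ∈ Finset.range B, (1 - (t : ℂ)) * ((1 - 5 * (t : ℂ))⁻¹ * (t : ℂ) ^ (a + 1 + 1)) *
        w ^ (a + 1 + 1) = (1 - (t : ℂ)) * ((1 - 5 * (t : ℂ))⁻¹ * ((t : ℂ) * w) ^ (a + 2)) := by
      intro a _
      rw [mul_pow]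
      ring
    rw [Finset.sum_congr rfl this]
    ring
  rw [e1]
  set R : ℂ := ∑ a ∈ Finset.range B, ((t : ℂ) * w) ^ (a + 2) with hR
  have hRn : ‖R‖ ≤ t ^ 2 / (1 - t) := by
    refine geo t ht.le ht' _ ?_ B
    rw [norm_mul, hw, mul_one, Complex.norm_real, Real.norm_of_nonneg ht.le]
  have h5c : (1 - 5 * (t : ℂ)) ≠ 0 := by
    have := h5.ne'
    exact_mod_cast this
  have e2 : ((1 - t : ℝ) : ℂ) * (1 + (((1 - 5 * t)⁻¹ : ℝ) : ℂ) * ((t : ℂ) * w) +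
      (((1 - 5 * t)⁻¹ : ℝ) : ℂ) * R) = (1 - (t : ℂ) + t * w) +
      (((4 * t ^ 2 / (1 - 5 * t) : ℝ) : ℂ) * w + (((1 - t) / (1 - 5 * t) : ℝ) : ℂ) * R) := by
    have hc : (1 - 5 * (t : ℂ)) * (1 - 5 * (t : ℂ))⁻¹ = 1 := mul_inv_cancel₀ h5c
    push_cast
    rw [div_eq_mul_inv, div_eq_mul_inv]
    linear_combination ((t : ℂ) * w) * hc
  rw [e2]
  have hE : ‖((4 * t ^ 2 / (1 - 5 * t) : ℝ) : ℂ) * w + (((1 - t) / (1 - 5 * t) : ℝ) : ℂ) * R‖ ≤
      8 * t ^ 2 := by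
    refine (norm_add_le _ _).trans ?_
    rw [norm_mul, norm_mul, hw, Complex.norm_real, Complex.norm_real,
      Real.norm_of_nonneg (by positivity), Real.norm_of_nonneg (by positivity), mul_one]
    have k1 : (1 - t) / (1 - 5 * t) * ‖R‖ ≤ (1 - t) / (1 - 5 * t) * (t ^ 2 / (1 - t)) :=
      mul_le_mul_of_nonneg_left hRn (by positivity)
    have k2 : (1 - t) / (1 - 5 * t) * (t ^ 2 / (1 - t)) = t ^ 2 / (1 - 5 * t) := by
      field_simp
    have k3 : 4 * t ^ 2 / (1 - 5 * t) + t ^ 2 / (1 - 5 * t) ≤ 8 * t ^ 2 := by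
      rw [← add_div, div_le_iff₀ h5]
      nlinarith [sq_nonneg t, mul_pos ht ht]
    linarith
  -- the main part
  have hre1 : w.re ^ 2 + w.im ^ 2 = 1 := by
    have := Complex.sq_norm w
    rw [hw, Complex.normSq_apply] at this
    nlinarith
  have hre2 : w.re ≤ 1 := by nlinarith [sq_nonneg w.im, sq_nonneg (w.re - 1)]
  have hre3 : -1 ≤ w.re := by nlinarith [sq_nonneg w.im, sq_nonneg (w.re + 1)]
  have hM : ‖1 - (t : ℂ) + t * w‖ ≤ Real.exp (-(1 - w.re) * t + 2 * t ^ 2) := by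
    have e3 : ‖1 - (t : ℂ) + t * w‖ ^ 2 = 1 - 2 * t * (1 - w.re) + t ^ 2 * (2 * (1 - w.re)) := by
      rw [Complex.sq_norm, Complex.normSq_apply]
      simp only [Complex.add_re, Complex.sub_re, Complex.one_re, Complex.ofReal_re, Complex.mul_re,
        Complex.ofReal_im, Complex.add_im, Complex.sub_im, Complex.one_im, Complex.mul_im]
      linear_combination (t ^ 2) * hre1
    have e4 : ‖1 - (t : ℂ) + t * w‖ ^ 2 ≤ Real.exp (-(1 - w.re) * t + 2 * t ^ 2) ^ 2 := by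
      rw [e3, ← Real.exp_nat_mul]
      have h := Real.add_one_le_exp (((2 : ℕ) : ℝ) * (-(1 - w.re) * t + 2 * t ^ 2))
      push_cast at h ⊢
      nlinarith [sq_nonneg t]
    exact (abs_le_of_sq_le_sq' e4 (Real.exp_pos _).le).2
  refine (norm_add_le _ _).trans ((add_le_add hM hE).trans ?_)
  -- combine
  set u : ℝ := (1 - w.re) * t with hu
  have hu0 : 0 ≤ u := mul_nonneg (by linarith) ht.le
  have hu1 : u ≤ 1 / 2 := by
    have : u ≤ 2 * t := mul_le_mul_of_nonneg_right (by linarith) ht.le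
    linarith
  have hexp : (1 : ℝ) / 2 ≤ Real.exp (-u) := by
    have := Real.add_one_le_exp (-u)
    linarith
  have r1 : Real.exp (-(1 - w.re) * t + 2 * t ^ 2) = Real.exp (-u) * Real.exp (2 * t ^ 2) := by
    rw [← Real.exp_add]
    congr 1
    rw [hu]
    ring
  have r2 : Real.exp (-(1 - w.re) * t + 20 * t ^ 2) = Real.exp (-u) * Real.exp (20 * t ^ 2) := by
    rw [← Real.exp_add]
    congr 1
    rw [hu]
    ring
  rw [r1, r2]
  have k4 : 8 * t ^ 2 ≤ Real.exp (-u) * (16 * t ^ 2) := by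
    nlinarith [sq_nonneg t]
  have k5 : Real.exp (2 * t ^ 2) + 16 * t ^ 2 ≤ Real.exp (20 * t ^ 2) := by
    have a1 : (1 : ℝ) ≤ Real.exp (2 * t ^ 2) := Real.one_le_exp (by positivity)
    have a2 := Real.add_one_le_exp (18 * t ^ 2)
    have a3 : Real.exp (20 * t ^ 2) = Real.exp (2 * t ^ 2) * Real.exp (18 * t ^ 2) := by
      rw [← Real.exp_add]
      congr 1
      ring
    rw [a3]
    nlinarith [sq_nonneg t]
  calc Real.exp (-u) * Real.exp (2 * t ^ 2) + 8 * t ^ 2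
      ≤ Real.exp (-u) * (Real.exp (2 * t ^ 2) + 16 * t ^ 2) := by linarith
    _ ≤ Real.exp (-u) * Real.exp (20 * t ^ 2) :=
        mul_le_mul_of_nonneg_left k5 (Real.exp_pos _).le

/-- the sum of the squares of the reciprocals -/
theorem sqs (K y : ℕ) (hK : 100 ≤ K) :
    ∑ p ∈ PN K y 1, (1 / (p : ℝ)) ^ 2 ≤ 1 / (K : ℝ) := by
  rcases le_or_gt K y with h | h
  · have h1 : ∑ p ∈ PN K y 1, (1 / (p : ℝ)) ^ 2 ≤ ∑ p ∈ Finset.Ioc K y, ((p : ℝ) ^ 2)⁻¹ := by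
      have h2 : ∑ p ∈ PN K y 1, (1 / (p : ℝ)) ^ 2 = ∑ p ∈ PN K y 1, ((p : ℝ) ^ 2)⁻¹ :=
        Finset.sum_congr rfl fun p _ => by rw [one_div, inv_pow]
      rw [h2]
      refine Finset.sum_le_sum_of_subset_of_nonneg ?_ fun _ _ _ => by positivity
      intro p hp
      unfold PN at hp
      rw [Finset.mem_filter, Finset.mem_Icc] at hp
      exact Finset.mem_Ioc.2 ⟨hp.2.2.1, hp.1.2⟩
    have h3 := sum_Ioc_inv_sq_le_sub (α := ℝ) (k := K) (n := y) (by omega) h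
    have h4 : (0 : ℝ) ≤ (y : ℝ)⁻¹ := by positivity
    rw [one_div]
    linarith
  · have : PN K y 1 = ∅ := by
      unfold PN
      rw [Finset.filter_eq_empty_iff]
      intro p hp
      rw [Finset.mem_Icc] at hp
      omega
    rw [this, Finset.sum_empty]
    positivity

end XDEu

theorem pr_DEu (hNa : StDNa) (hNb : StDNb) : StDEu := by
  intro K y A hK hA ψ h1 hmul hnorm
  obtain ⟨hP, -, -⟩ := hNa K y A
  set g : ℕ → ℕ → ℂ := fun p a => ((1 - 1 / (p : ℝ) : ℝ) : ℂ) *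
    ((if a = 0 then (1 : ℝ) else (1 - 5 * (1 / (p : ℝ)))⁻¹ * (1 / (p : ℝ)) ^ a : ℝ) : ℂ) *
      ψ p ^ a with hg
  have e1 : ∑ s ∈ Nm K y A, (wt0 K y s : ℂ) * ψ s =
      ∑ s ∈ Nm K y A, ∏ p ∈ PN K y 1, g p (s.factorization p) := by
    refine Finset.sum_congr rfl fun s hs => ?_
    obtain ⟨a1, -, a3⟩ := hNb K y A s hs
    rw [a1, a3 ψ h1 hmul, Complex.ofReal_prod, ← Finset.prod_mul_distrib]
    refine Finset.prod_congr rfl fun p _ => ?_
    rw [hg, Complex.ofReal_mul]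
    have : (5 : ℝ) / (p : ℝ) = 5 * (1 / (p : ℝ)) := by ring
    rw [this]
  rw [e1, hP g, norm_prod]
  have h2 : ∀ p ∈ PN K y 1, ‖∑ a ∈ Finset.range (A + 1), g p a‖ ≤
      Real.exp (-(1 - (ψ p).re) * (1 / (p : ℝ)) + 20 * (1 / (p : ℝ)) ^ 2) := by
    intro p hp
    unfold PN at hp
    rw [Finset.mem_filter, Finset.mem_Icc] at hp
    have hp1 : 101 ≤ p := by omega
    have hp2 : (101 : ℝ) ≤ p := by exact_mod_cast hp1
    refine XDEu.fac (1 / (p : ℝ)) (by positivity) ?_ (ψ p) (hnorm p hp.2.1) A hA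
    exact one_div_le_one_div_of_le (by norm_num) hp2
  refine (Finset.prod_le_prod (fun _ _ => norm_nonneg _) h2).trans ?_
  rw [← Real.exp_sum, Finset.sum_add_distrib, ← Finset.mul_sum, Real.exp_add]
  have h3 : ∑ p ∈ PN K y 1, -(1 - (ψ p).re) * (1 / (p : ℝ)) =
      -∑ p ∈ PN K y 1, (1 - (ψ p).re) / (p : ℝ) := by
    rw [← Finset.sum_neg_distrib]
    refine Finset.sum_congr rfl fun p _ => by ring
  rw [h3, mul_comm]
  refine mul_le_mul_of_nonneg_right ?_ (Real.exp_pos _).le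
  have h4 := XDEu.sqs K y hK
  have hKr : (100 : ℝ) ≤ K := by exact_mod_cast hK
  have h5 : (1 : ℝ) / K ≤ 1 / 100 := one_div_le_one_div_of_le (by norm_num) hKr
  have h6 : 20 * ∑ p ∈ PN K y 1, (1 / (p : ℝ)) ^ 2 ≤ 1 / 5 := by linarith
  calc Real.exp (20 * ∑ p ∈ PN K y 1, (1 / (p : ℝ)) ^ 2) ≤ Real.exp (1 / 5) :=
        Real.exp_le_exp.2 h6
    _ ≤ 2 := by
        have h7 : Real.exp (1 / 5) ^ 5 = Real.exp 1 := by
          rw [← Real.exp_nat_mul]
          norm_num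
        have h8 := Real.exp_one_lt_d9
        by_contra hcon
        push Not at hcon
        have h9 : (2 : ℝ) ^ 5 < Real.exp (1 / 5) ^ 5 := pow_lt_pow_left₀ hcon (by norm_num) (by norm_num)
        rw [h7] at h9
        norm_num at h9
        linarith

end Pool.Agent.F0f91f8.PC
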