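import Pool.Agent.Work.MP_0f91f8_co.PC.StmtsDm

/-!
# Item DFb of block PC: sorting the good `v` by the three kinds of parts of the forms
-/

set_option autoImplicit false

namespace Pool.Agent.F0f91f8.PC

open Filter Topology ComplexConjugate
open Pool.Agent.F0f91f8.FC
open scoped BigOperators

namespace XDFb

/-- the parts are positive -/
theorem sp_pos (w y N : ℕ) : 0 < sp w y N := by
  unfold sp
  refine Finset.prod_pos fun p hp => ?_
  have h1 : p.Prime := Nat.prime_of_mem_primeFactors (Finset.mem_filter.1 hp).1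
  exact pow_pos h1.pos _

/-- the product of four numbers with small 16-th power -/
theorem prod_le (s : Fin 4 → ℕ) (X : ℕ) (h : ∀ j, s j ^ 16 ≤ X) : (∏ j, s j) ^ 4 ≤ X := by
  by_contra hlt
  push Not at hlt
  have h1 : X ^ 4 < ((∏ j, s j) ^ 4) ^ 4 := Nat.pow_lt_pow_left hlt (by norm_num)
  have h2 : ((∏ j, s j) ^ 4) ^ 4 = ∏ j, s j ^ 16 := by
    rw [← pow_mul, Finset.prod_pow]
  have h3 : ∏ j, s j ^ 16 ≤ ∏ _j : Fin 4, X := Finset.prod_le_prod' fun j _ => h j
  have h4 : ∏ _j : Fin 4, X = X ^ 4 := by simp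
  omega

/-- membership in `SS` -/
theorem mem_SS {w y n X : ℕ} {s : Fin 4 → ℕ} (h1 : ∀ j, s j ≤ X) (h2 : AdmS w y n s)
    (h3 : (∏ j, s j) ^ 4 ≤ X) : s ∈ SS w y n X := by
  classical
  unfold SS
  refine Finset.mem_filter.2 ⟨?_, h2, h3⟩
  rw [Fintype.mem_piFinset]
  intro j
  rw [Finset.mem_range]
  have := h1 j
  omega

end XDFb

theorem pr_DFb (hCp : StDCp) : StDFb := by
  classical
  intro J K y κ n X E₀ T₀ cl hK hκ hκp hn Ψ hΨ
  have hdata : ∀ v ∈ GdS cl K y κ n X E₀ T₀, v ∈ Finset.Icc 1 X ∧ NoC K v n ∧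
      ∀ j : Fin 4, sp K y (Lf κ n v j) ^ 16 ≤ X ∧ sp 0 K (Lf κ n v j) ≤ E₀ ∧
        ∀ i, hv cl (rp y (Lf κ n v j)) i ≤ T₀ := by
    intro v hvm
    unfold GdS at hvm
    rw [Finset.mem_filter] at hvm
    exact ⟨hvm.1, hvm.2.1, hvm.2.2⟩
  rcases Nat.eq_zero_or_pos E₀ with h0 | h0
  · have hemp : GdS cl K y κ n X E₀ T₀ = ∅ := by
      refine Finset.eq_empty_of_forall_notMem fun v hvm => ?_
      have h1 := ((hdata v hvm).2.2 0).2.1
      have h2 := XDFb.sp_pos 0 K (Lf κ n v 0)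
      omega
    rw [hemp, Finset.sum_empty]
    refine Finset.sum_nonneg fun f _ => Finset.sum_nonneg fun t _ => Finset.sum_nonneg fun s _ => ?_
    exact mul_nonneg (Nat.cast_nonneg _) (hΨ _ _ _)
  · obtain ⟨e, rfl⟩ : ∃ e, E₀ = e + 1 := ⟨E₀ - 1, by omega⟩
    set G := GdS cl K y κ n X (e + 1) T₀ with hG
    let fv : ℕ → Fin 4 → Fin (e + 1) := fun v j => Fin.ofNat (e + 1) (sp 0 K (Lf κ n v j) - 1)
    let tv : ℕ → Fin 4 → Fin J → Fin (T₀ + 1) := fun v j i =>
      Fin.ofNat (T₀ + 1) (hv cl (rp y (Lf κ n v j)) i)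
    let sv : ℕ → Fin 4 → ℕ := fun v j => sp K y (Lf κ n v j)
    let F : (Fin 4 → Fin (e + 1)) × (Fin 4 → Fin J → Fin (T₀ + 1)) × (Fin 4 → ℕ) → ℝ := fun q =>
      Ψ (fun j => (q.1 j : ℕ)) (fun j i => (q.2.1 j i : ℕ)) q.2.2
    let T : Finset ((Fin 4 → Fin (e + 1)) × (Fin 4 → Fin J → Fin (T₀ + 1)) × (Fin 4 → ℕ)) :=
      Finset.univ ×ˢ (Finset.univ ×ˢ SS K y n X)
    have hval : ∀ v ∈ G, Ψ (fun j => sp 0 K (Lf κ n v j) - 1) (fun j => hv cl (rp y (Lf κ n v j)))
        (fun j => sp K y (Lf κ n v j)) = F (fv v, tv v, sv v) := by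
      intro v hvm
      have h1 : (fun j => sp 0 K (Lf κ n v j) - 1) = fun j => ((fv v j : Fin (e + 1)) : ℕ) := by
        funext j
        have h2 := ((hdata v hvm).2.2 j).2.1
        show _ = ((Fin.ofNat (e + 1) (sp 0 K (Lf κ n v j) - 1) : Fin (e + 1)) : ℕ)
        rw [Fin.val_ofNat, Nat.mod_eq_of_lt (by omega)]
      have h3 : (fun j => hv cl (rp y (Lf κ n v j))) =
          fun j i => ((tv v j i : Fin (T₀ + 1)) : ℕ) := by
        funext j i
        have h4 := ((hdata v hvm).2.2 j).2.2 i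
        show _ = ((Fin.ofNat (T₀ + 1) (hv cl (rp y (Lf κ n v j)) i) : Fin (T₀ + 1)) : ℕ)
        rw [Fin.val_ofNat, Nat.mod_eq_of_lt (by omega)]
      rw [h1, h3]
    have hcp : ∀ v ∈ G, AdmS K y n (sv v) ∧ v ∈ Ns K y (K.factorial * κ) n 0 X (sv v) := by
      intro v hvm
      have h := hdata v hvm
      exact (hCp K y κ n X v hK hκ hκp hn h.1 h.2.1).2
    have hmaps : ∀ v ∈ G, (fun v => (fv v, tv v, sv v)) v ∈ T := by
      intro v hvm
      obtain ⟨h1, h2, h3⟩ := hdata v hvm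
      refine Finset.mem_product.2 ⟨Finset.mem_univ _, Finset.mem_product.2 ⟨Finset.mem_univ _, ?_⟩⟩
      show sv v ∈ _
      refine XDFb.mem_SS ?_ (hcp v hvm).1 (XDFb.prod_le _ _ fun j => (h3 j).1)
      intro j
      have h5 : sv v j ≤ sv v j ^ 16 := Nat.le_self_pow (by norm_num) _
      have h6 : sv v j ^ 16 ≤ X := (h3 j).1
      omega
    rw [← Finset.sum_fiberwise_of_maps_to hmaps]
    have hstep : ∀ q ∈ T, ∑ v ∈ G.filter (fun v => (fv v, tv v, sv v) = q),
        Ψ (fun j => sp 0 K (Lf κ n v j) - 1) (fun j => hv cl (rp y (Lf κ n v j)))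
          (fun j => sp K y (Lf κ n v j)) ≤
        ((Ns K y (K.factorial * κ) n 0 X q.2.2).card : ℝ) * F q := by
      intro q hq
      have h1 : ∑ v ∈ G.filter (fun v => (fv v, tv v, sv v) = q),
          Ψ (fun j => sp 0 K (Lf κ n v j) - 1) (fun j => hv cl (rp y (Lf κ n v j)))
            (fun j => sp K y (Lf κ n v j)) =
          ((G.filter (fun v => (fv v, tv v, sv v) = q)).card : ℝ) * F q := by
        rw [← nsmul_eq_mul, ← Finset.sum_const]
        refine Finset.sum_congr rfl fun v hvm => ?_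
        rw [Finset.mem_filter] at hvm
        rw [hval v hvm.1, hvm.2]
      rw [h1]
      have h2 : (G.filter (fun v => (fv v, tv v, sv v) = q)).card ≤
          (Ns K y (K.factorial * κ) n 0 X q.2.2).card := by
        refine Finset.card_le_card fun v hvm => ?_
        rw [Finset.mem_filter] at hvm
        have h3 := (hcp v hvm.1).2
        have h4 : sv v = q.2.2 := by rw [← hvm.2]
        rw [h4] at h3
        exact h3
      exact mul_le_mul_of_nonneg_right (by exact_mod_cast h2) (hΨ _ _ _)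
    refine le_trans (Finset.sum_le_sum hstep) (le_of_eq ?_)
    rw [Finset.sum_product]
    refine Finset.sum_congr rfl fun f _ => ?_
    rw [Finset.sum_product]

end Pool.Agent.F0f91f8.PC
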