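import Mathlib
import Pool.Agent.Work.MP_0f91f8_co.PC.StmtsA

/-!
# Block PC (MP_0f91f8_co), item DM (helper92): from systems to means
-/

set_option autoImplicit false

namespace Pool.Agent.F0f91f8.PC

open Filter Topology ComplexConjugate MeasureTheory
open Pool.Agent.F0f91f8.HD Pool.Agent.F0f91f8.RC Pool.Agent.F0f91f8.KR Pool.Agent.F0f91f8.FC

namespace IDM

theorem real_one {X : Type} [MeasurableSpace X] {μ : Measure X} (S : Sys μ) {B : Set X}
    (hB : MeasurableSet B) : μ.real {x | S.T 1 x ∈ B ∧ S.T 1 x ∈ B ∧ S.T 1 x ∈ B} = μ.real B := by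
  have e : {x | S.T 1 x ∈ B ∧ S.T 1 x ∈ B ∧ S.T 1 x ∈ B} = (S.T 1) ⁻¹' B := by
    ext x
    simp only [Set.mem_setOf_eq, Set.mem_preimage, and_self]
  rw [e]
  unfold Measure.real
  rw [(S.mp 1 Nat.one_pos).measure_preimage hB.nullMeasurableSet]

end IDM

open IDM in
theorem pr_DM (hSy : SysS) (hX : FinX) : FinPM := by
  intro m hm A hL ε hε
  obtain ⟨X, mX, μ, pμ, S, B, hB, h3, hd⟩ := hSy m hm A
  have hL' : LPC (dd S B) := by
    intro R δ hδ
    obtain ⟨J, hJ⟩ := hL R δ hδ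
    refine ⟨J, fun Y₀ => ?_⟩
    obtain ⟨Y, hY, q, cl, hq, h1, h2⟩ := hJ Y₀
    refine ⟨Y, hY, q, cl, hq, fun p i hp hc => ?_, h2⟩
    rw [hd p (q i) hp.pos (hq i)]
    exact h1 p i hp hc
  have h1 : μ.real B = m (ind A) := by
    rw [← real_one S hB, h3 1 1 1 Nat.one_pos Nat.one_pos Nat.one_pos]
    congr 2
    ext n
    simp only [one_mul, Set.mem_setOf_eq, and_self]
  obtain ⟨x, y, z, hx, hy, hz, hxyz, hle⟩ := hX X mX μ pμ S B hB hL' ε hε
  refine ⟨x, y, z, hx, hy, hz, hxyz, ?_⟩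
  rw [← h3 x y z hx hy hz, ← h1]
  exact hle

end Pool.Agent.F0f91f8.PC
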