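import Pool.Agent.Work.MP_0f91f8_co.PC.StmtsDm

/-! Block PC, item DMa: the masses of the product weights. -/

set_option autoImplicit false

namespace Pool.Agent.F0f91f8.PC

open Filter Topology ComplexConjugate
open Pool.Agent.F0f91f8.FC
open scoped BigOperators

namespace XDMa

/-- the local factor -/
noncomputable def hh (r : ℝ) (p a : ℕ) : ℝ :=
  (1 - r / (p : ℝ)) * (if a = 0 then 1 else r * (1 - 5 / (p : ℝ))⁻¹ * (1 / (p : ℝ)) ^ a)

theorem hh_nonneg {r : ℝ} (hr0 : 0 ≤ r) (hr : r ≤ 2) {p : ℕ} (hp : 100 < p) (a : ℕ) :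
    0 ≤ hh r p a := by
  have hp' : (100 : ℝ) < p := by exact_mod_cast hp
  have hp0 : (0 : ℝ) < p := by linarith
  have h1 : 0 ≤ 1 - r / (p : ℝ) := by
    rw [sub_nonneg, div_le_one hp0]
    linarith
  have h2 : 0 < 1 - 5 / (p : ℝ) := by
    rw [sub_pos, div_lt_one hp0]
    linarith
  unfold hh
  apply mul_nonneg h1
  split_ifs
  · exact zero_le_one
  · positivity

theorem geo (x : ℝ) (h0 : 0 ≤ x) (h1 : x < 1) (n : ℕ) :
    ∑ i ∈ Finset.range n, x ^ i ≤ (1 - x)⁻¹ := by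
  have h2 : 0 < 1 - x := by linarith
  have h3 := mul_neg_geom_sum x n
  have h4 : 0 ≤ x ^ n := pow_nonneg h0 n
  rw [← one_div, le_div_iff₀ h2, mul_comm, h3]
  linarith

theorem loc {r : ℝ} (hr0 : 0 ≤ r) (hr : r ≤ 2) {p : ℕ} (hp : 100 < p) (A : ℕ) :
    ∑ a ∈ Finset.range (A + 1), hh r p a ≤ 1 + 25 / (p : ℝ) ^ 2 := by
  have hp' : (100 : ℝ) < p := by exact_mod_cast hp
  have hp0 : (0 : ℝ) < p := by linarith
  have h1 : 0 ≤ 1 - r / (p : ℝ) := by
    rw [sub_nonneg, div_le_one hp0]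
    linarith
  have h2 : 0 < 1 - 5 / (p : ℝ) := by
    rw [sub_pos, div_lt_one hp0]
    linarith
  rw [Finset.sum_range_succ']
  have e0 : hh r p 0 = 1 - r / (p : ℝ) := by
    unfold hh
    rw [if_pos rfl, mul_one]
  have e1 : ∑ a ∈ Finset.range A, hh r p (a + 1) =
      (1 - r / (p : ℝ)) * (r * (1 - 5 / (p : ℝ))⁻¹ * (1 / (p : ℝ))) *
        ∑ a ∈ Finset.range A, (1 / (p : ℝ)) ^ a := by
    rw [Finset.mul_sum]
    apply Finset.sum_congr rfl
    intro a _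
    unfold hh
    rw [if_neg (Nat.succ_ne_zero a), pow_succ]
    ring
  have hx0 : 0 ≤ 1 / (p : ℝ) := by positivity
  have hx1 : 1 / (p : ℝ) < 1 := by
    rw [div_lt_one hp0]
    linarith
  have hg := geo (1 / (p : ℝ)) hx0 hx1 A
  have hc : 0 ≤ (1 - r / (p : ℝ)) * (r * (1 - 5 / (p : ℝ))⁻¹ * (1 / (p : ℝ))) := by positivity
  rw [e0, e1]
  have h3 := mul_le_mul_of_nonneg_left hg hc
  refine (add_le_add_left h3 _).trans ?_
  have hp5 : (0 : ℝ) < p - 5 := by linarith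
  have hp1 : (0 : ℝ) < p - 1 := by linarith
  have e5 : (1 - 5 / (p : ℝ))⁻¹ = p / (p - 5) := by
    field_simp
  have e6 : (1 - 1 / (p : ℝ))⁻¹ = p / (p - 1) := by
    field_simp
  rw [e5, e6]
  have e7 : (1 - r / (p : ℝ)) * (r * ((p : ℝ) / (p - 5)) * (1 / (p : ℝ))) * ((p : ℝ) / (p - 1)) +
      (1 - r / (p : ℝ)) = 1 + (r * (6 * p - 5) / (p * (p - 5) * (p - 1)) -
        r ^ 2 / ((p - 5) * (p - 1))) := by
    field_simp
    ring
  rw [e7]
  have h8 : r * (6 * p - 5) / (p * (p - 5) * (p - 1)) ≤ 25 / (p : ℝ) ^ 2 := by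
    rw [div_le_div_iff₀ (by positivity) (by positivity)]
    have h9 : r * (6 * (p : ℝ) - 5) ≤ 12 * p := by nlinarith
    have h10 : 12 * (p : ℝ) * p ^ 2 ≤ 25 * (p * (p - 5) * (p - 1)) := by
      have h11 : 12 * (p : ℝ) ^ 2 ≤ 25 * ((p - 5) * (p - 1)) := by nlinarith
      nlinarith
    calc r * (6 * (p : ℝ) - 5) * p ^ 2 ≤ 12 * p * p ^ 2 := by
          apply mul_le_mul_of_nonneg_right h9
          positivity
      _ ≤ _ := h10
  have h12 : 0 ≤ r ^ 2 / (((p : ℝ) - 5) * (p - 1)) := by positivity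
  linarith

theorem mem_PN {K y p : ℕ} (hp : p ∈ PN K y 1) : p.Prime ∧ K < p ∧ p ≤ y := by
  unfold PN at hp
  rw [Finset.mem_filter, Finset.mem_Icc] at hp
  exact ⟨hp.2.1, hp.2.2.1, hp.1.2⟩

theorem prod_le {K y : ℕ} (hK : 100 ≤ K) (F : ℕ → ℝ) (h0 : ∀ p ∈ PN K y 1, 0 ≤ F p)
    (hF : ∀ p ∈ PN K y 1, F p ≤ 1 + 25 / (p : ℝ) ^ 2) : ∏ p ∈ PN K y 1, F p ≤ 2 := by
  have hK0 : (100 : ℝ) ≤ K := by exact_mod_cast hK
  have hKp : (0 : ℝ) < K := by linarith
  have h1 : ∏ p ∈ PN K y 1, F p ≤ ∏ p ∈ PN K y 1, Real.exp (25 / (p : ℝ) ^ 2) := by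
    apply Finset.prod_le_prod h0
    intro p hp
    refine (hF p hp).trans ?_
    have := Real.add_one_le_exp (25 / (p : ℝ) ^ 2)
    linarith
  have h2 : ∑ p ∈ PN K y 1, 25 / (p : ℝ) ^ 2 ≤ 1 / 4 := by
    have h3 : PN K y 1 ⊆ Finset.Ioc K y := by
      intro p hp
      obtain ⟨_, h4, h5⟩ := mem_PN hp
      exact Finset.mem_Ioc.mpr ⟨h4, h5⟩
    have h4 : ∑ p ∈ PN K y 1, 25 / (p : ℝ) ^ 2 ≤ ∑ p ∈ Finset.Ioc K y, 25 / (p : ℝ) ^ 2 := by
      apply Finset.sum_le_sum_of_subset_of_nonneg h3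
      intro p _ _
      positivity
    have h5 : ∑ p ∈ Finset.Ioc K y, 25 / (p : ℝ) ^ 2 =
        25 * ∑ p ∈ Finset.Ioc K y, ((p : ℝ) ^ 2)⁻¹ := by
      rw [Finset.mul_sum]
      apply Finset.sum_congr rfl
      intro p _
      rw [div_eq_mul_inv]
    rw [h5] at h4
    rcases le_or_gt K y with hy | hy
    · have h6 := sum_Ioc_inv_sq_le_sub (α := ℝ) (k := K) (n := y) (by omega) hy
      have h7 : (0 : ℝ) ≤ (y : ℝ)⁻¹ := by positivity
      have h8 : (K : ℝ)⁻¹ ≤ 1 / 100 := by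
        rw [inv_eq_one_div]
        exact one_div_le_one_div_of_le (by norm_num) hK0
      linarith
    · rw [Finset.Ioc_eq_empty (by omega), Finset.sum_empty, mul_zero] at h4
      linarith
  refine h1.trans ?_
  rw [← Real.exp_sum]
  have h9 : Real.exp (∑ p ∈ PN K y 1, 25 / (p : ℝ) ^ 2) ≤ Real.exp (1 / 4) := Real.exp_le_exp.mpr h2
  have h10 : Real.exp (1 / 4) ≤ 2 := by
    have h11 : Real.exp (1 / 4) ^ 4 ≤ 2 ^ 4 := by
      rw [← Real.exp_nat_mul]
      have h12 : ((4 : ℕ) : ℝ) * (1 / 4) = 1 := by norm_num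
      rw [h12]
      have := Real.exp_one_lt_d9
      linarith
    exact le_of_pow_le_pow_left₀ (by norm_num) (by norm_num) h11
  exact h9.trans h10

end XDMa

theorem pr_DMa (hRh : FC.StRh) (hNa : StDNa) (hNb : StDNb) : StDMa := by
  intro K y A hK
  have hr : ∀ p ∈ PN K y 1, (0 : ℝ) ≤ (rho p : ℝ) ∧ (rho p : ℝ) ≤ 2 := by
    intro p hp
    exact ⟨Nat.cast_nonneg _, by exact_mod_cast hRh p (XDMa.mem_PN hp).1⟩
  have hbig : ∀ p ∈ PN K y 1, 100 < p := by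
    intro p hp
    have := (XDMa.mem_PN hp).2.1
    omega
  have e0 : ∀ s ∈ Nm K y A, wt0 K y s = ∏ p ∈ PN K y 1, XDMa.hh 1 p (s.factorization p) := by
    intro s hs
    rw [(hNb K y A s hs).1]
    apply Finset.prod_congr rfl
    intro p _
    unfold XDMa.hh
    rw [one_mul]
  have e3 : ∀ s ∈ Nm K y A,
      wt3 K y s = ∏ p ∈ PN K y 1, XDMa.hh (rho p) p (s.factorization p) := by
    intro s hs
    rw [(hNb K y A s hs).2.1]
    rfl
  have hsum : ∀ g : ℕ → ℕ → ℝ, ∑ s ∈ Nm K y A, ∏ p ∈ PN K y 1, g p (s.factorization p) =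
      ∏ p ∈ PN K y 1, ∑ a ∈ Finset.range (A + 1), g p a := by
    intro g
    have h := (hNa K y A).1 (fun p a => (g p a : ℂ))
    exact_mod_cast h
  refine ⟨?_, ?_, ?_⟩
  · intro s hs
    rw [e0 s hs, e3 s hs]
    constructor
    · apply Finset.prod_nonneg
      intro p hp
      exact XDMa.hh_nonneg (by norm_num) (by norm_num) (hbig p hp) _
    · apply Finset.prod_nonneg
      intro p hp
      exact XDMa.hh_nonneg (hr p hp).1 (hr p hp).2 (hbig p hp) _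
  · rw [Finset.sum_congr rfl e0, hsum (fun p a => XDMa.hh 1 p a)]
    apply XDMa.prod_le hK
    · intro p hp
      apply Finset.sum_nonneg
      intro a _
      exact XDMa.hh_nonneg (by norm_num) (by norm_num) (hbig p hp) _
    · intro p hp
      exact XDMa.loc (by norm_num) (by norm_num) (hbig p hp) A
  · rw [Finset.sum_congr rfl e3, hsum (fun p a => XDMa.hh (rho p) p a)]
    apply XDMa.prod_le hK
    · intro p hp
      apply Finset.sum_nonneg
      intro a _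
      exact XDMa.hh_nonneg (hr p hp).1 (hr p hp).2 (hbig p hp) _
    · intro p hp
      exact XDMa.loc (hr p hp).1 (hr p hp).2 (hbig p hp) A

end Pool.Agent.F0f91f8.PC
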