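import Pool.Agent.Work.MP_0f91f8_co.PC.StmtsDm

set_option autoImplicit false

namespace Pool.Agent.F0f91f8.PC

open Filter Topology ComplexConjugate
open Pool.Agent.F0f91f8.FC
open scoped BigOperators

namespace XDNa

/-- sum over the divisors of a product of coprime numbers -/
theorem sum_div {m n : ℕ} (h : m.Coprime n) (F : ℕ → ℂ) :
    ∑ d ∈ (m * n).divisors, F d = ∑ a ∈ m.divisors, ∑ b ∈ n.divisors, F (a * b) := by
  rw [Nat.divisors_mul, Finset.mul_def, Finset.sum_image h.mul_injOn_divisors,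
    Finset.sum_product]

theorem not_dvd {S : Finset ℕ} (hS : ∀ p ∈ S, p.Prime) {q : ℕ} (hq : q.Prime) (hqS : q ∉ S) :
    ¬ q ∣ ∏ p ∈ S, p := by
  intro h
  obtain ⟨p, hp, hqp⟩ := (hq.prime.dvd_finsetProd_iff _).1 h
  exact hqS (((Nat.prime_dvd_prime_iff_eq hq (hS p hp)).1 hqp) ▸ hp)

theorem prod_ne {S : Finset ℕ} (hS : ∀ p ∈ S, p.Prime) : ∏ p ∈ S, p ≠ 0 :=
  Finset.prod_ne_zero_iff.2 fun p hp => (hS p hp).ne_zero

/-- the product formula -/
theorem prodform (A : ℕ) (g : ℕ → ℕ → ℂ) (S : Finset ℕ) : (∀ p ∈ S, p.Prime) →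
    ∑ s ∈ ((∏ p ∈ S, p) ^ A).divisors, ∏ p ∈ S, g p (s.factorization p) =
      ∏ p ∈ S, ∑ a ∈ Finset.range (A + 1), g p a := by
  classical
  induction S using Finset.induction_on with
  | empty => intro _; simp
  | insert q S hqS ih =>
    intro hS
    have hq : q.Prime := hS q (Finset.mem_insert_self _ _)
    have hS' : ∀ p ∈ S, p.Prime := fun p hp => hS p (Finset.mem_insert_of_mem hp)
    have hnd := not_dvd hS' hq hqS
    have hcop : (q ^ A).Coprime ((∏ p ∈ S, p) ^ A) :=
      Nat.Coprime.pow _ _ ((Nat.Prime.coprime_iff_not_dvd hq).2 hnd)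
    rw [Finset.prod_insert hqS, mul_pow, sum_div hcop, Finset.prod_insert hqS, ← ih hS',
      Nat.sum_divisors_prime_pow hq, Finset.sum_mul]
    refine Finset.sum_congr rfl fun j _ => ?_
    rw [Finset.mul_sum]
    refine Finset.sum_congr rfl fun b hb => ?_
    have hb' := Nat.dvd_of_mem_divisors hb
    have hb0 : b ≠ 0 := (Nat.pos_of_mem_divisors hb).ne'
    have ha0 : q ^ j ≠ 0 := pow_ne_zero _ hq.ne_zero
    have hqb : ¬ q ∣ b := fun h => hnd (hq.dvd_of_dvd_pow (h.trans hb'))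
    rw [Finset.prod_insert hqS]
    have e1 : (q ^ j * b).factorization q = j := by
      rw [Nat.factorization_mul ha0 hb0, Finsupp.add_apply, Nat.factorization_eq_zero_of_not_dvd hqb,
        add_zero, hq.factorization_pow, Finsupp.single_eq_same]
    rw [e1]
    congr 1
    refine Finset.prod_congr rfl fun p hp => ?_
    have hpq : p ≠ q := fun h => hqS (h ▸ hp)
    rw [Nat.factorization_mul ha0 hb0, Finsupp.add_apply, hq.factorization_pow,
      Finsupp.single_eq_of_ne hpq, zero_add]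

theorem mem_PN (K y p : ℕ) : p ∈ PN K y 1 ↔ p.Prime ∧ K < p ∧ p ≤ y := by
  unfold PN
  rw [Finset.mem_filter, Finset.mem_Icc]
  constructor
  · rintro ⟨⟨_, h2⟩, h3, h4, _⟩; exact ⟨h3, h4, h2⟩
  · rintro ⟨h3, h4, h2⟩
    exact ⟨⟨h3.one_lt.le, h2⟩, h3, h4, fun h => h3.one_lt.ne' (Nat.dvd_one.1 h)⟩

theorem PN_prime (K y : ℕ) : ∀ p ∈ PN K y 1, p.Prime := fun p hp => ((mem_PN K y p).1 hp).1

end XDNa

open XDNa in
theorem pr_DNa : StDNa := by
  intro K y A
  have hP := PN_prime K y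
  have hne := prod_ne hP
  refine ⟨fun g => prodform A g _ hP, ?_, ?_⟩
  · intro s hs
    have h0 := Nat.pos_of_mem_divisors hs
    refine ⟨h0, fun p hp => ?_⟩
    have hpp := Nat.prime_of_mem_primeFactors hp
    have hd : p ∣ ∏ q ∈ PN K y 1, q :=
      hpp.dvd_of_dvd_pow ((Nat.dvd_of_mem_primeFactors hp).trans (Nat.dvd_of_mem_divisors hs))
    by_contra hcon
    exact not_dvd hP hpp hcon hd
  · intro s hs hsA hpr
    unfold Nm
    rw [Nat.mem_divisors]
    refine ⟨?_, pow_ne_zero _ hne⟩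
    rw [← Nat.factorization_le_iff_dvd hs.ne' (pow_ne_zero _ hne)]
    intro p
    rw [Nat.factorization_pow, Finsupp.smul_apply, smul_eq_mul]
    by_cases hp : p.Prime
    · by_cases hd : p ∣ s
      · have h1 : s.factorization p < s := Nat.factorization_lt p hs.ne'
        have h2 : p ∣ ∏ q ∈ PN K y 1, q :=
          Finset.dvd_prod_of_mem _ ((mem_PN K y p).2 ⟨hp, hpr p hp hd⟩)
        have h3 : 1 ≤ (∏ q ∈ PN K y 1, q).factorization p :=
          (hp.dvd_iff_one_le_factorization hne).1 h2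
        calc s.factorization p ≤ A := h1.le.trans hsA
          _ = A * 1 := (mul_one A).symm
          _ ≤ A * (∏ q ∈ PN K y 1, q).factorization p := Nat.mul_le_mul_left A h3
      · rw [Nat.factorization_eq_zero_of_not_dvd hd]
        exact Nat.zero_le _
    · rw [Nat.factorization_eq_zero_of_not_prime _ hp]
      exact Nat.zero_le _

end Pool.Agent.F0f91f8.PC
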