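import Pool.Agent.Work.MP_0f91f8_co.PC.StmtsDm

/-! Block PC, item DNb: the weights as products. -/

set_option autoImplicit false

namespace Pool.Agent.F0f91f8.PC

open Filter Topology ComplexConjugate
open Pool.Agent.F0f91f8.FC
open scoped BigOperators

namespace XDNb

theorem prime_of_PN {K y p : ℕ} (h : p ∈ PN K y 1) : p.Prime := by
  unfold PN at h
  exact (Finset.mem_filter.1 h).2.1

theorem fac_zero_iff {s p : ℕ} (hs : 0 < s) (hp : p.Prime) :
    s.factorization p = 0 ↔ p ∉ s.primeFactors := by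
  rw [← Nat.support_factorization, Finsupp.mem_support_iff, not_not]

theorem prod_ext {Q : Finset ℕ} {s : ℕ} (hs : 0 < s) (hQ : ∀ p ∈ Q, p.Prime)
    (hsub : s.primeFactors ⊆ Q) (f : ℕ → ℝ) :
    ∏ p ∈ s.primeFactors, f p = ∏ p ∈ Q, (if s.factorization p = 0 then 1 else f p) := by
  rw [← Finset.prod_subset hsub]
  · refine Finset.prod_congr rfl fun p hp => ?_
    have h : ¬ s.factorization p = 0 := by
      rw [fac_zero_iff hs (Nat.prime_of_mem_primeFactors hp)]
      exact fun h => h hp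
    rw [if_neg h]
  · intro p hp hps
    rw [if_pos ((fac_zero_iff hs (hQ p hp)).2 hps)]

theorem self_eq {Q : Finset ℕ} {s : ℕ} (hs : 0 < s) (hQ : ∀ p ∈ Q, p.Prime)
    (hsub : s.primeFactors ⊆ Q) : s = ∏ p ∈ Q, p ^ s.factorization p := by
  conv_lhs => rw [← Nat.prod_factorization_pow_eq_self hs.ne']
  rw [Finsupp.prod, Nat.support_factorization]
  refine Finset.prod_subset hsub fun p hp hps => ?_
  rw [(fac_zero_iff hs (hQ p hp)).2 hps, pow_zero]

theorem psi_pow {ψ : ℕ → ℂ} (h1 : ψ 1 = 1) (hm : ∀ a b : ℕ, 0 < a → 0 < b → ψ (a * b) = ψ a * ψ b)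
    {p : ℕ} (hp : 0 < p) (k : ℕ) : ψ (p ^ k) = ψ p ^ k := by
  induction k with
  | zero => simp [h1]
  | succ k ih => rw [pow_succ, hm _ _ (pow_pos hp k) hp, ih, pow_succ]

theorem psi_prod {ψ : ℕ → ℂ} (h1 : ψ 1 = 1)
    (hm : ∀ a b : ℕ, 0 < a → 0 < b → ψ (a * b) = ψ a * ψ b) (Q : Finset ℕ) (e : ℕ → ℕ)
    (hQ : ∀ p ∈ Q, 0 < p) : ψ (∏ p ∈ Q, p ^ e p) = ∏ p ∈ Q, ψ p ^ e p := by
  classical
  induction Q using Finset.induction_on with
  | empty => simp [h1]
  | insert a Q ha ih =>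
    rw [Finset.prod_insert ha, Finset.prod_insert ha]
    have hpos : 0 < a := hQ a (Finset.mem_insert_self _ _)
    have hQ' : ∀ p ∈ Q, 0 < p := fun p hp => hQ p (Finset.mem_insert_of_mem hp)
    rw [hm _ _ (pow_pos hpos _) (Finset.prod_pos fun p hp => pow_pos (hQ' p hp) _), ih hQ',
      psi_pow h1 hm hpos]

end XDNb

theorem pr_DNb (hNa : StDNa) : StDNb := by
  intro K y A s hs
  obtain ⟨-, h2, -⟩ := hNa K y A
  obtain ⟨hpos, hsub⟩ := h2 s hs
  have hQ : ∀ p ∈ PN K y 1, p.Prime := fun p hp => XDNb.prime_of_PN hp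
  have hself := XDNb.self_eq hpos hQ hsub
  have hinv : (1 : ℝ) / (s : ℝ) = ∏ p ∈ PN K y 1, (1 / (p : ℝ)) ^ s.factorization p := by
    have h : (s : ℝ) = ∏ p ∈ PN K y 1, (p : ℝ) ^ s.factorization p := by
      conv_lhs => rw [hself]
      push_cast
      rfl
    rw [h, one_div, ← Finset.prod_inv_distrib]
    refine Finset.prod_congr rfl fun p _ => ?_
    rw [one_div, inv_pow]
  have h5 := XDNb.prod_ext hpos hQ hsub (fun p => (1 - 5 / (p : ℝ))⁻¹)
  refine ⟨?_, ?_, ?_⟩
  · unfold wt0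
    rw [hinv, h5, ← Finset.prod_mul_distrib, ← Finset.prod_mul_distrib]
    refine Finset.prod_congr rfl fun p _ => ?_
    by_cases h : s.factorization p = 0
    · rw [if_pos h, if_pos h, h]; ring
    · rw [if_neg h, if_neg h]; ring
  · unfold wt3
    have hr : (rho4 s : ℝ) =
        ∏ p ∈ PN K y 1, (if s.factorization p = 0 then 1 else (rho p : ℝ)) := by
      rw [← XDNb.prod_ext hpos hQ hsub (fun p => (rho p : ℝ))]
      unfold rho4
      push_cast
      rfl
    have hd : (rho4 s : ℝ) / (s : ℝ) = (rho4 s : ℝ) * (1 / (s : ℝ)) := by ring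
    rw [hd, hr, hinv, h5, ← Finset.prod_mul_distrib, ← Finset.prod_mul_distrib,
      ← Finset.prod_mul_distrib]
    refine Finset.prod_congr rfl fun p _ => ?_
    by_cases h : s.factorization p = 0
    · rw [if_pos h, if_pos h, if_pos h, h]; ring
    · rw [if_neg h, if_neg h, if_neg h]; ring
  · intro ψ h1 hm
    conv_lhs => rw [hself]
    exact XDNb.psi_prod h1 hm _ _ (fun p hp => (hQ p hp).pos)

end Pool.Agent.F0f91f8.PC
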