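import Pool.Agent.Work.MP_0f91f8_co.PC.StmtsDm

/-! Item DTq of the block PC (helper42): number and size of the primes beyond `y`. The auxiliary
lemmas on `rp` are copied from `FC/I_Tp.lean`. -/

set_option autoImplicit false

namespace Pool.Agent.F0f91f8.PC

open Pool.Agent.F0f91f8.FC
open scoped BigOperators

namespace XDTq

lemma prod_eq (N : ℕ) (hN : N ≠ 0) : ∏ p ∈ N.primeFactors, p ^ N.factorization p = N := by
  have h := Nat.prod_factorization_pow_eq_self hN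
  rw [Finsupp.prod, Nat.support_factorization] at h
  exact h

lemma rp_le (y N : ℕ) (hN : N ≠ 0) : rp y N ≤ N := by
  calc rp y N ≤ ∏ p ∈ N.primeFactors, p ^ N.factorization p :=
        Finset.prod_le_prod_of_subset_of_one_le' (Finset.filter_subset _ _)
          (fun p hp _ => Nat.one_le_pow _ _ (Nat.pos_of_mem_primeFactors hp))
    _ = N := prod_eq N hN

lemma rp_ne (y N : ℕ) : rp y N ≠ 0 := by
  unfold rp
  refine Finset.prod_ne_zero_iff.2 fun p hp => ?_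
  exact pow_ne_zero _ (Nat.pos_of_mem_primeFactors (Finset.mem_filter.1 hp).1).ne'

lemma rp_prime (y N p : ℕ) (hp : p.Prime) (h : p ∣ rp y N) : y < p := by
  unfold rp at h
  obtain ⟨q, hq, hpq⟩ := (Prime.dvd_finsetProd_iff hp.prime _).1 h
  have hq' := Finset.mem_filter.1 hq
  have h1 := hp.dvd_of_dvd_pow hpq
  have h2 := (Nat.prime_dvd_prime_iff_eq hp (Nat.prime_of_mem_primeFactors hq'.1)).1 h1
  rw [h2]
  exact hq'.2

lemma pow_le (y M : ℕ) (hM : M ≠ 0) (h : ∀ p : ℕ, p.Prime → p ∣ M → y < p) (S : Finset ℕ)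
    (hS : S ⊆ M.primeFactors) : (y + 1) ^ (∑ p ∈ S, M.factorization p) ≤ M := by
  rw [← Finset.prod_pow_eq_pow_sum]
  calc ∏ p ∈ S, (y + 1) ^ (M.factorization p) ≤ ∏ p ∈ S, p ^ (M.factorization p) :=
        Finset.prod_le_prod' (fun p hp => Nat.pow_le_pow_left
          (h p (Nat.prime_of_mem_primeFactors (hS hp)) (Nat.dvd_of_mem_primeFactors (hS hp))) _)
    _ ≤ ∏ p ∈ M.primeFactors, p ^ (M.factorization p) :=
        Finset.prod_le_prod_of_subset_of_one_le' hS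
          (fun p hp _ => Nat.one_le_pow _ _ (Nat.pos_of_mem_primeFactors hp))
    _ = M := prod_eq M hM

lemma sum_hv {J : ℕ} (cl : ℕ → Option (Fin J)) (M : ℕ) :
    ∑ i, hv cl M i =
      ∑ p ∈ M.primeFactors.filter (fun p => cl p ≠ none), M.factorization p := by
  simp only [hv, Finset.sum_filter]
  rw [Finset.sum_comm]
  refine Finset.sum_congr rfl fun p _ => ?_
  cases h : cl p with
  | none => simp
  | some i => simp

lemma Lf_le (κ N₀ X n v : ℕ) (hX : 1 ≤ X) (hn : n ≤ N₀ * X) (hv : v ≤ X) (j : Fin 4) :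
    Lf κ n v j ≤ 2 * (1 + κ * N₀) ^ 2 * X ^ 2 := by
  set T := (1 + κ * N₀) * X with hT
  have hκn : κ * n ≤ κ * N₀ * X := by
    rw [mul_assoc]
    exact Nat.mul_le_mul_left _ hn
  have hTe : T = X + κ * N₀ * X := by rw [hT]; ring
  have hT1 : 1 ≤ T := by omega
  have hTT : T ≤ T ^ 2 := by nlinarith
  have hR : 2 * (1 + κ * N₀) ^ 2 * X ^ 2 = 2 * T ^ 2 := by rw [hT]; ring
  rw [hR]
  have h1 : (v + κ * n) ^ 2 ≤ T ^ 2 := Nat.pow_le_pow_left (by omega) 2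
  have h2 : (κ * n) ^ 2 ≤ T ^ 2 := Nat.pow_le_pow_left (by omega) 2
  fin_cases j
  · show v ≤ 2 * T ^ 2
    omega
  · show v + κ * n ≤ 2 * T ^ 2
    omega
  · show v + 2 * (κ * n) ≤ 2 * T ^ 2
    omega
  · show (v + κ * n) ^ 2 + (κ * n) ^ 2 ≤ 2 * T ^ 2
    omega

lemma Lf_ne (κ n a : ℕ) (ha : 0 < a) (j : Fin 4) : Lf κ n a j ≠ 0 := by
  fin_cases j
  · show a ≠ 0
    omega
  · show a + κ * n ≠ 0
    omega
  · show a + 2 * (κ * n) ≠ 0
    omega
  · show (a + κ * n) ^ 2 + (κ * n) ^ 2 ≠ 0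
    have : 0 < (a + κ * n) ^ 2 := by positivity
    omega

end XDTq

theorem pr_DTq : StDTq := by
  intro κ N₀ R _ hR
  obtain ⟨C, hC⟩ : ∃ C : ℕ, C = 2 * (1 + κ * N₀) ^ 2 := ⟨_, rfl⟩
  refine ⟨4 * C, ?_⟩
  intro y hy X n v _ hXy _ hnX hv j
  have hv' := Finset.mem_Icc.1 hv
  have hC1 : 1 ≤ C := by
    have h : 1 ≤ (1 + κ * N₀) ^ 2 := Nat.one_le_pow _ _ (by omega)
    omega
  have hX1 : 1 ≤ X := hv'.1.trans hv'.2
  have hL : Lf κ n v j ≤ C * X ^ 2 := by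
    rw [hC]
    exact XDTq.Lf_le κ N₀ X n v hX1 hnX hv'.2 j
  have hy1 : 1 ≤ y := by omega
  have hX2 : X ^ 2 ≤ 4 ^ R * y ^ (2 * R) := by
    calc X ^ 2 ≤ ((2 * y) ^ R) ^ 2 :=
          Nat.pow_le_pow_left (hXy.le.trans (Nat.pow_le_pow_left (by omega) R)) 2
      _ = ((2 * y) ^ 2) ^ R := by rw [← pow_mul, ← pow_mul, mul_comm R 2]
      _ = 4 ^ R * y ^ (2 * R) := by
          rw [mul_pow, mul_pow, ← pow_mul y 2 R]
          norm_num
  have hC2 : C * 4 ^ R ≤ y ^ R := by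
    calc C * 4 ^ R ≤ C ^ R * 4 ^ R :=
          Nat.mul_le_mul_right _ (Nat.le_self_pow (by omega) C)
      _ = (4 * C) ^ R := by rw [mul_pow, mul_comm]
      _ ≤ y ^ R := Nat.pow_le_pow_left hy R
  have hLy : Lf κ n v j ≤ y ^ (3 * R) := by
    calc Lf κ n v j ≤ C * X ^ 2 := hL
      _ ≤ C * (4 ^ R * y ^ (2 * R)) := Nat.mul_le_mul_left _ hX2
      _ = (C * 4 ^ R) * y ^ (2 * R) := by ring
      _ ≤ y ^ R * y ^ (2 * R) := Nat.mul_le_mul_right _ hC2
      _ = y ^ (3 * R) := by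
          rw [← pow_add]
          congr 1
          ring
  have hne := XDTq.Lf_ne κ n v hv'.1 j
  refine ⟨Nat.pos_of_ne_zero hne, hLy, ?_⟩
  intro J cl
  rw [XDTq.sum_hv]
  have h1 := XDTq.pow_le y (rp y (Lf κ n v j)) (XDTq.rp_ne y _)
    (fun p hp h => XDTq.rp_prime y _ p hp h) _
    (Finset.filter_subset (fun p => cl p ≠ none) _)
  have h2 := h1.trans ((XDTq.rp_le y _ hne).trans
    (hLy.trans (Nat.pow_le_pow_left (Nat.le_succ y) (3 * R))))
  exact (Nat.pow_le_pow_iff_right (by omega)).1 h2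

end Pool.Agent.F0f91f8.PC
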