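import Pool.Agent.Work.MP_0f91f8_co.K.AllD

/-!
# Block PC: concentration of functions at finite distance from `1` (helper83)

`G1 g`: `g` completely multiplicative, `∑ |1 - g p|²/p < ∞`. In nested limits `g x` and `g y` are close to
constants on the family `AvK 1 w K M`. No hypotheses.
-/

set_option autoImplicit false

namespace Pool.Agent.F0f91f8.PC

open Filter Topology ComplexConjugate
open Pool.Agent.F0f91f8.HD Pool.Agent.F0f91f8.RC Pool.Agent.F0f91f8.KR
open scoped BigOperators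

/-- [DX] concentration of `g x` and `g y` -/
def StDX : Prop := ∀ g : ℕ → ℂ, G1 g → ∀ ε : ℝ, 0 < ε → Nest fun w K M =>
  ∀ (e : Fin (w + 1) → Fin K) (e' : Fin (K + 1) → Fin K),
    1 - ‖BFK 1 w K M fun a n => g (tX (kR 1 w K e) (kK 1 w K e') a n)‖ ^ 2 ≤ ε ∧
    1 - ‖BFK 1 w K M fun a n => g (tY (kR 1 w K e) (kK 1 w K e') a n)‖ ^ 2 ≤ ε

namespace IDX

/-- the modulus of the constant of concentration -/
theorem cL_norm {g : ℕ → ℂ} (hg : G1 g) (w M : ℕ) : 1 - tl g w ≤ ‖cL g w M‖ ^ 2 := by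
  obtain ⟨h0, -, -, -, hS, -, -⟩ := pr_DTl g hg
  have hp : ∀ p ∈ pr4 w M, p.Prime ∧ w < p := by
    intro p hp
    unfold pr4 at hp
    rw [Finset.mem_filter] at hp
    exact ⟨hp.2.1, hp.2.2.1⟩
  have h1 := hS w (pr4 w M) hp
  have hre : (∑ p ∈ pr4 w M, (g p - 1) / (p : ℂ)).re =
      -((∑ p ∈ pr4 w M, ‖1 - g p‖ ^ 2 / (p : ℝ)) / 2) := by
    rw [Complex.re_sum, Finset.sum_div, ← Finset.sum_neg_distrib]
    refine Finset.sum_congr rfl fun p hp' => ?_
    have hp0 : 0 < p := (hp p hp').1.pos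
    have hn := hg.cm.2.2 p hp0
    have hn2 : (g p).re ^ 2 + (g p).im ^ 2 = 1 := by
      have h2 : ‖g p‖ ^ 2 = 1 := by rw [hn, one_pow]
      rw [← Complex.normSq_eq_norm_sq, Complex.normSq_apply] at h2
      nlinarith
    have hn3 : ‖1 - g p‖ ^ 2 = 2 - 2 * (g p).re := by
      rw [← Complex.normSq_eq_norm_sq, Complex.normSq_apply]
      simp only [Complex.sub_re, Complex.sub_im, Complex.one_re, Complex.one_im]
      nlinarith
    have e1 : ((g p - 1) / (p : ℂ)).re = ((g p).re - 1) / (p : ℝ) := by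
      rw [show ((p : ℕ) : ℂ) = ((p : ℝ) : ℂ) by push_cast; rfl, Complex.div_ofReal_re]
      simp
    rw [e1, hn3]
    ring
  unfold cL
  rw [Complex.norm_exp, hre, ← Real.exp_nat_mul]
  have h2 := Real.add_one_le_exp
    (((2 : ℕ) : ℝ) * -((∑ p ∈ pr4 w M, ‖1 - g p‖ ^ 2 / (p : ℝ)) / 2))
  push_cast at h2 ⊢
  linarith

theorem gT_eq {g : ℕ → ℂ} (hg : CM g) (w n : ℕ) (hn : 0 < n)
    (h : ∀ p : ℕ, p.Prime → p ∣ n → w < p) : g n = gT g w n := by
  have h1 := (pr_DFc g hg w w n hn le_rfl).1 h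
  have h2 : gP g w w n = 1 := by
    unfold gP
    rw [Finset.filter_false_of_mem (fun p _ h3 => by omega), Finset.prod_empty]
  rw [h1, h2, one_mul]

theorem no_small {w n : ℕ} (h : n % w.factorial = 1 % w.factorial) (p : ℕ) (hp : p.Prime)
    (hpn : p ∣ n) : w < p := by
  by_contra hle
  push Not at hle
  have hd : p ∣ w.factorial := (hp.dvd_factorial).2 hle
  have h1 : n ≡ 1 [MOD w.factorial] := h
  have h2 : n ≡ 1 [MOD p] := h1.of_dvd hd
  have h3 : p ∣ 1 := (h2.dvd_iff dvd_rfl).1 hpn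
  exact hp.one_lt.ne' (Nat.dvd_one.1 h3)

/-- average of a function which is close to a constant -/
theorem near (Q D a₀ M : ℕ) (hD : 0 < D) (hM : 0 < M) (F : ℕ → ℕ → ℂ) (c : ℂ)
    (G1' G2' : ℕ → ℕ → ℝ) (x1 x2 : ℝ)
    (h : ∀ b n, 0 < b → 0 < n → ‖F (Q * b + a₀) n - c‖ ≤ G1' (Q * b + a₀) n + G2' (Q * b + a₀) n)
    (h1 : BR Q D a₀ M G1' ≤ x1) (h2 : BR Q D a₀ M G2' ≤ x2) :
    ‖Bx Q D a₀ M F - c‖ ≤ x1 + x2 := by
  obtain ⟨hadd, hmul, hnorm, -, hadd', -, hone⟩ := pr_DBx Q D a₀ M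
  have e0 : Bx Q D a₀ M (fun _ _ => -c) = -c := by
    have := hmul (-c) (fun _ _ => 1)
    rw [(hone hD hM).1, mul_one] at this
    simpa only [mul_one] using this
  have e1 : Bx Q D a₀ M F - c = Bx Q D a₀ M (fun a n => F a n + -c) := by
    rw [hadd F (fun _ _ => -c), e0, sub_eq_add_neg]
  rw [e1]
  refine (hnorm _).trans ?_
  have e2 := IKTv.mono Q D a₀ M (fun a n => ‖F a n + -c‖) (fun a n => G1' a n + G2' a n)
    (fun b n hb hn => by
      have := h b n hb hn
      rwa [sub_eq_add_neg] at this)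
  refine e2.trans ?_
  rw [hadd' G1' G2']
  linarith

/-- from closeness to the conclusion -/
theorem fin_le {g : ℕ → ℂ} (hg : G1 g) (w M : ℕ) (X : ℂ) (u : ℂ) (hu : ‖u‖ = 1) (hX : ‖X‖ ≤ 1)
    (δ : ℝ) (h : ‖X - u * (cL g w M * cL g w M)‖ ≤ δ) : 1 - ‖X‖ ^ 2 ≤ 2 * (tl g w + δ) := by
  have h1 := cL_norm hg w M
  have h2 : ‖u * (cL g w M * cL g w M)‖ = ‖cL g w M‖ ^ 2 := by
    rw [norm_mul, hu, one_mul, norm_mul, sq]
  have h3 : ‖u * (cL g w M * cL g w M)‖ - ‖X‖ ≤ δ := by
    have := norm_sub_norm_le (u * (cL g w M * cL g w M)) X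
    rw [norm_sub_rev] at this
    linarith
  rw [h2] at h3
  have h4 := norm_nonneg X
  nlinarith

end IDX

open IDX in
/-- Item DX, no hypotheses. -/
theorem pr_DX : StDX := by
  obtain ⟨C1, hC1, hL⟩ := all_RLm
  obtain ⟨C2, hC2, hA⟩ := all_DLm
  intro g hg ε hε
  obtain ⟨t0, -, ttl, ter, -, -, -⟩ := pr_DTl g hg
  have hlim : Tendsto (fun w => 2 * (tl g w + (2 * (C1 + C2) * er g w))) atTop (𝓝 0) := by
    have := (ttl.add (ter.const_mul (2 * (C1 + C2)))).const_mul 2
    simpa using this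
  have hev := hlim.eventually (gt_mem_nhds (show (0 : ℝ) < ε / 2 by positivity))
  unfold Nest
  filter_upwards [hev, eventually_ge_atTop 2] with w hw hw2
  filter_upwards [eventually_ge_atTop w] with K hK
  have hK1 : 1 ≤ K := by omega
  have hQ0 : 0 < w.factorial := Nat.factorial_pos w
  have hη : 0 < ε / 16 := by positivity
  have hall : ∀ (e : Fin (w + 1) → Fin K) (e' : Fin (K + 1) → Fin K), ∃ M1 : ℕ, ∀ M ≥ M1,
      ((BR w.factorial (DR 1 w K) 1 M fun _ s => ‖gT g w (w.factorial * s + 1) - cL g w M‖) ≤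
        C1 * er g w + ε / 16) ∧
      ((BR w.factorial (DR 1 w K) 1 M fun a _ => ‖gT g w a - cL g w M‖) ≤
        C2 * er g w + ε / 16) ∧
      ((BR w.factorial (DR 1 w K) 1 M fun a s =>
        ‖gT g w (kK 1 w K e' * a + kR 1 w K e * (w.factorial * s + 1)) - cL g w M‖) ≤
        C1 * er g w + ε / 16) ∧
      ((BR w.factorial (DR 1 w K) 1 M fun a s =>
        ‖gT g w (kK 1 w K e' * a + 2 * (kR 1 w K e * (w.factorial * s + 1))) - cL g w M‖) ≤
        C1 * er g w + ε / 16) := by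
    intro e e'
    obtain ⟨hPar, hDp, -, -, -, -, -, -⟩ := all_KPr 1 w K e e' le_rfl hw2 hK
    have hpr : ∀ p : ℕ, p.Prime → p ∣ kR 1 w K e * w.factorial → p ≤ w := by
      intro p hp hd
      rcases (hp.dvd_mul).1 hd with h | h
      · exact hPar.κp p hp h
      · exact (hp.dvd_factorial).1 h
    obtain ⟨M1, hM1⟩ := hL g hg w (kR 1 w K e) (kK 1 w K e') w.factorial (DR 1 w K)
      hw2 hPar.κ0 hPar.k0 hQ0 hDp hpr (ε / 16) hη
    obtain ⟨M2, hM2⟩ := hA g hg w (kR 1 w K e) (kK 1 w K e') w.factorial (DR 1 w K)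
      hw2 hPar.κ0 hPar.k0 hQ0 hDp hpr (ε / 16) hη
    refine ⟨M1 + M2, fun M hM => ?_⟩
    obtain ⟨a1, a2, a3⟩ := hM1 M (by omega) 1 hQ0
    obtain ⟨b1, -, -⟩ := hM2 M (by omega) 1 hQ0
    exact ⟨a1, b1, a2, a3⟩
  choose M1 hM1 using hall
  filter_upwards [eventually_ge_atTop (1 + ∑ e, ∑ e', M1 e e')] with M hM
  intro e e'
  have s1 : M1 e e' ≤ ∑ e, ∑ e', M1 e e' :=
    (Finset.single_le_sum (f := fun e' => M1 e e') (fun _ _ => Nat.zero_le _)
      (Finset.mem_univ e')).trans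
      (Finset.single_le_sum (f := fun e => ∑ e', M1 e e') (fun _ _ => Nat.zero_le _)
        (Finset.mem_univ e))
  have hMp : 0 < M := by omega
  obtain ⟨hPar, hDp, -, -, -, -, hcon, -⟩ := all_KPr 1 w K e e' le_rfl hw2 hK
  obtain ⟨r1, r2, r3, r4⟩ := hM1 e e' M (by omega)
  have hcm := hg.cm
  have ker : 0 ≤ er g w := Real.sqrt_nonneg _
  have hcL : ‖cL g w M‖ ≤ 1 := ((pr_DTl g hg).2.2.2.2.2.1 w M).1
  have key : ∀ x y X Y : ℂ, ‖x‖ ≤ 1 → ‖Y‖ ≤ 1 → ‖x * X - y * Y‖ ≤ ‖x - y‖ + ‖X - Y‖ := by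
    intro x y X Y hx hY
    have e1 : x * X - y * Y = (x - y) * Y + x * (X - Y) := by ring
    rw [e1]
    refine (norm_add_le _ _).trans ?_
    rw [norm_mul, norm_mul]
    have q1 := mul_le_mul_of_nonneg_left hY (norm_nonneg (x - y))
    have q2 := mul_le_mul_of_nonneg_right hx (norm_nonneg (X - Y))
    linarith
  have hMd := pr_RMd w K (kR 1 w K e) (kK 1 w K e') hPar
  constructor
  · have hn := near w.factorial (DR 1 w K) 1 M hDp hMp
      (fun a s => g (tX (kR 1 w K e) (kK 1 w K e') a (w.factorial * s + 1)))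
      (g (2 * kR 1 w K e) * (cL g w M * cL g w M)) _ _ _ _ (fun b s hb hs => by
        have hn0 : 0 < w.factorial * s + 1 := Nat.succ_pos _
        have hm0 : 0 < kK 1 w K e' * (w.factorial * b + 1) +
            kR 1 w K e * (w.factorial * s + 1) := by
          have := hPar.κ0
          positivity
        have g1 : g (w.factorial * s + 1) = gT g w (w.factorial * s + 1) :=
          gT_eq hcm w _ hn0 (no_small (Nat.mul_add_mod _ _ _))
        have g2 : g (kK 1 w K e' * (w.factorial * b + 1) + kR 1 w K e * (w.factorial * s + 1)) =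
            gT g w (kK 1 w K e' * (w.factorial * b + 1) + kR 1 w K e * (w.factorial * s + 1)) :=
          gT_eq hcm w _ hm0
            (no_small (hMd (w.factorial * b + 1) (w.factorial * s + 1) (hcon b)).1)
        have g3 : g (tX (kR 1 w K e) (kK 1 w K e') (w.factorial * b + 1)
            (w.factorial * s + 1)) = g (2 * kR 1 w K e) * (gT g w (w.factorial * s + 1) *
            gT g w (kK 1 w K e' * (w.factorial * b + 1) +
              kR 1 w K e * (w.factorial * s + 1))) := by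
          unfold tX
          rw [hcm.2.1, ← mul_assoc 2, hcm.2.1 (2 * kR 1 w K e), g1, g2, mul_assoc]
        rw [g3, ← mul_sub, norm_mul, hcm.2.2 _ (by have := hPar.κ0; positivity), one_mul]
        have n1 : ‖gT g w (w.factorial * s + 1)‖ ≤ 1 := by
          rw [← g1]; exact DFi.cm_le hcm _
        exact key _ _ _ _ n1 hcL) r1 r3
    have hX1 : ‖Bx w.factorial (DR 1 w K) 1 M
        (fun a s => g (tX (kR 1 w K e) (kK 1 w K e') a (w.factorial * s + 1)))‖ ≤ 1 :=
      DFi.bx_le _ _ _ _ _ fun a n => DFi.cm_le hcm _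
    have hf := fin_le hg w M _ _ (hcm.2.2 _ (by have := hPar.κ0; positivity)) hX1 _ hn
    unfold BFK BxR
    refine hf.trans ?_
    nlinarith [mul_nonneg hC1.le ker, mul_nonneg hC2.le ker]
  · have hn := near w.factorial (DR 1 w K) 1 M hDp hMp
      (fun a s => g (tY (kR 1 w K e) (kK 1 w K e') a (w.factorial * s + 1)))
      (g (kK 1 w K e') * (cL g w M * cL g w M)) _ _ _ _ (fun b s hb hs => by
        have ha0 : 0 < w.factorial * b + 1 := Nat.succ_pos _
        have hm0 : 0 < kK 1 w K e' * (w.factorial * b + 1) +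
            2 * (kR 1 w K e * (w.factorial * s + 1)) := by
          have := hPar.κ0
          positivity
        have g1 : g (w.factorial * b + 1) = gT g w (w.factorial * b + 1) :=
          gT_eq hcm w _ ha0 (no_small (Nat.mul_add_mod _ _ _))
        have g2 : g (kK 1 w K e' * (w.factorial * b + 1) +
            2 * (kR 1 w K e * (w.factorial * s + 1))) =
            gT g w (kK 1 w K e' * (w.factorial * b + 1) +
              2 * (kR 1 w K e * (w.factorial * s + 1))) :=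
          gT_eq hcm w _ hm0
            (no_small (hMd (w.factorial * b + 1) (w.factorial * s + 1) (hcon b)).2.1)
        have g3 : g (tY (kR 1 w K e) (kK 1 w K e') (w.factorial * b + 1)
            (w.factorial * s + 1)) = g (kK 1 w K e') * (gT g w (w.factorial * b + 1) *
            gT g w (kK 1 w K e' * (w.factorial * b + 1) +
              2 * (kR 1 w K e * (w.factorial * s + 1)))) := by
          unfold tY
          rw [hcm.2.1, hcm.2.1 (kK 1 w K e'), g1, g2, mul_assoc]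
        rw [g3, ← mul_sub, norm_mul, hcm.2.2 _ hPar.k0, one_mul]
        have n1 : ‖gT g w (w.factorial * b + 1)‖ ≤ 1 := by
          rw [← g1]; exact DFi.cm_le hcm _
        exact key _ _ _ _ n1 hcL) r2 r4
    have hX1 : ‖Bx w.factorial (DR 1 w K) 1 M
        (fun a s => g (tY (kR 1 w K e) (kK 1 w K e') a (w.factorial * s + 1)))‖ ≤ 1 :=
      DFi.bx_le _ _ _ _ _ fun a n => DFi.cm_le hcm _
    have hf := fin_le hg w M _ _ (hcm.2.2 _ hPar.k0) hX1 _ hn
    unfold BFK BxR
    refine hf.trans ?_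
    nlinarith [mul_nonneg hC1.le ker, mul_nonneg hC2.le ker]

end Pool.Agent.F0f91f8.PC
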