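import Mathlib
import Pool.Agent.Work.MP_0f91f8_co.PC.StmtsA

/-!
# Block PC, item FXa: the ergodic form of Theorem PC
-/

set_option autoImplicit false

namespace Pool.Agent.F0f91f8.PC

open Filter Topology ComplexConjugate MeasureTheory
open Pool.Agent.F0f91f8.HD Pool.Agent.F0f91f8.RC Pool.Agent.F0f91f8.KR Pool.Agent.F0f91f8.FC
open Pool.Agent.Work.MP_0f91f8_co.EF (GG ev)
open scoped BigOperators

namespace IFXa

/-- the tails of disjoint sets have small measure -/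
theorem tail {Y : Type} [MeasurableSpace Y] (σ : Measure Y) [IsFiniteMeasure σ] (C : ℕ → Set Y)
    (hC : ∀ j, MeasurableSet (C j)) (hd : ∀ i j, i ≠ j → Disjoint (C i) (C j)) (δ : ℝ)
    (hδ : 0 < δ) : ∃ N : ℕ, σ.real (⋃ j ∈ Set.Ici N, C j) ≤ δ := by
  have hmeas : ∀ N : ℕ, MeasurableSet (⋃ j ∈ Set.Ici N, C j) := fun N =>
    MeasurableSet.biUnion (Set.to_countable _) fun j _ => hC j
  have hanti : Antitone fun N : ℕ => ⋃ j ∈ Set.Ici N, C j := by
    intro a b hab x hx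
    simp only [Set.mem_iUnion, Set.mem_Ici] at hx ⊢
    obtain ⟨j, hj, hx⟩ := hx
    exact ⟨j, hab.trans hj, hx⟩
  have hempty : (⋂ N : ℕ, ⋃ j ∈ Set.Ici N, C j) = ∅ := by
    rw [Set.eq_empty_iff_forall_notMem]
    intro x hx
    rw [Set.mem_iInter] at hx
    have h0 := hx 0
    simp only [Set.mem_iUnion, Set.mem_Ici] at h0
    obtain ⟨j, -, hj⟩ := h0
    have h1 := hx (j + 1)
    simp only [Set.mem_iUnion, Set.mem_Ici] at h1
    obtain ⟨k, hk, hxk⟩ := h1
    exact Set.disjoint_left.1 (hd j k (by omega)) hj hxk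
  have ht := tendsto_measure_iInter_atTop (μ := σ) (s := fun N : ℕ => ⋃ j ∈ Set.Ici N, C j)
    (fun N => (hmeas N).nullMeasurableSet) hanti ⟨0, measure_ne_top _ _⟩
  rw [hempty, measure_empty] at ht
  have ht2 := (ENNReal.tendsto_toReal ENNReal.zero_ne_top).comp ht
  obtain ⟨N, hN⟩ := (ht2.eventually (gt_mem_nhds (show (0 : ENNReal).toReal < δ by simpa using hδ))).exists
  exact ⟨N, le_of_lt hN⟩

/-- subsets of continuous sets are continuous -/
theorem cn_mono {σ : Measure GG} {E F : Set GG} (h : Cn σ E) (hF : MeasurableSet F)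
    (hFE : F ⊆ E) : Cn σ F := by
  refine ⟨hF, measure_mono_null ?_ h.2⟩
  rintro p ⟨h1, h2, h3⟩
  exact ⟨hFE h1, hFE h2, h3⟩

/-- only Pythagorean triples matter -/
theorem avK_pyth (E w K M : ℕ) (Φ Ψ : ℕ → ℕ → ℕ → ℂ)
    (h : ∀ x y z, x ^ 2 + y ^ 2 = z ^ 2 → Φ x y z = Ψ x y z) :
    AvK E w K M Φ = AvK E w K M Ψ := by
  unfold AvK BxR Bx
  simp only [h _ _ _ (tXYZ _ _ _ _)]

end IFXa

open IFXa in
/-- Item FXa. -/
theorem pr_FXa (hSp : SpecS) (hCl : ClsS) (hCo : ContS) (hCp : ClpS) (hMn : MainS)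
    (hAL : KR.StAvL) (hAP : KR.StAvP) (hNs : KR.StNst) (_hU : StCU) (hB : StCB) (_hV : StCV)
    (hDA : StDA) (hDB : StDB) : FinX := by
  classical
  intro X _ μ _ S A hA hL ε hε
  obtain ⟨σ, hσ, ⟨V⟩⟩ := hSp X _ μ inferInstance S (b1 μ A)
  obtain ⟨C, χ, hC, hd, hG⟩ := hCl σ hσ
  have hCm : ∀ j, MeasurableSet (C j) := fun j => (hC j).1
  -- the number `N`
  obtain ⟨N, hN⟩ := tail σ C hCm hd ((ε / 16) ^ 2) (by positivity)
  have hNs' : 2 * Real.sqrt (σ.real (⋃ j ∈ Set.Ici N, C j)) ≤ ε / 8 := by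
    have h1 : Real.sqrt (σ.real (⋃ j ∈ Set.Ici N, C j)) ≤ ε / 16 := by
      rw [show ε / 16 = Real.sqrt ((ε / 16) ^ 2) from (Real.sqrt_sq (by positivity)).symm]
      exact Real.sqrt_le_sqrt hN
    linarith
  obtain ⟨ε', hε'⟩ : ∃ ε' : ℝ, ε' = ε / (8 * ((N : ℝ) + 1) ^ 2) := ⟨_, rfl⟩
  have hε'0 : 0 < ε' := by rw [hε']; positivity
  have hGm : MeasurableSet (⋃ j, C j)ᶜ := (MeasurableSet.iUnion hCm).compl
  have hDm : MeasurableSet (⋃ j ∈ Finset.range N, C j) :=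
    Finset.measurableSet_biUnion _ fun j _ => hCm j
  have h1m : MeasurableSet ({1} : Set GG) := isClosed_singleton.measurableSet
  -- the three families of conditions
  have hMain := hMn X _ μ inferInstance S A hA σ hσ V (ε / 8) (by positivity)
  have hPairs : Nest fun w K M => ∀ i : Fin N × Fin N,
      ‖Lm S A V w K M (C i.1 \ {1}) (C i.2)‖ ≤ ε' := by
    refine hNs.2.2 (Fin N × Fin N) inferInstance _ fun i => ?_
    have htriv : Nest fun _ _ _ => True := by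
      unfold Nest
      simp
    rcases (hC i.1).2 with h1 | h1
    · refine hNs.1 _ _ (fun w K M _ hK hM _ => ?_) htriv
      have h2 := (hDA X _ μ inferInstance S A hA σ hσ V w K M hK hM (C i.1 \ {1}) (C i.1 \ {1})
        (C i.2) ((hCm _).diff h1m) ((hCm _).diff h1m) (hCm _)).2.2.2.1
      rw [h1, Set.empty_sdiff, h2, norm_zero]
      exact hε'0.le
    · rcases (hC i.2).2 with h3 | h3
      · refine hNs.1 _ _ (fun w K M _ hK hM _ => ?_) htriv
        have h2 := (hDA X _ μ inferInstance S A hA σ hσ V w K M hK hM (C i.1 \ {1}) (C i.1 \ {1})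
          (C i.1 \ {1}) ((hCm _).diff h1m) ((hCm _).diff h1m) ((hCm _).diff h1m)).2.2.2.2.1
        rw [h3, h2, norm_zero]
        exact hε'0.le
      · have h4 := hCp X _ μ inferInstance S A hA σ hσ V (χ i.1) (χ i.2) ε' hε'0
        rw [h1, h3]
        exact h4
  have hCont := hCo X _ μ inferInstance S A hA hL σ hσ V ((⋃ j, C j)ᶜ \ {1}) Set.univ
    ((⋃ j ∈ Finset.range N, C j) \ {1}) ((⋃ j, C j)ᶜ) (hGm.diff h1m) MeasurableSet.univ
    (hDm.diff h1m) hGm (Or.inl (cn_mono hG (hGm.diff h1m) Set.sdiff_subset)) (Or.inr hG)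
    (ε / 8) (by positivity)
  -- one choice of `w`, `K`, `M`
  obtain ⟨w, hw1, hw2, hw3⟩ := (hMain.and (hPairs.and hCont)).exists
  obtain ⟨K, ⟨hK1, hK2, hK3⟩, hK0⟩ := ((hw1.and (hw2.and hw3)).and (eventually_gt_atTop 0)).exists
  obtain ⟨M, hM3, ⟨hM1, hM2⟩, hM0⟩ :=
    (hK3.and_eventually ((hK1.and hK2).and (eventually_gt_atTop 0))).exists
  have hM1' : μ.real A ^ 3 - ε / 8 ≤ (Lm S A V w K M {1} Set.univ).re := by
    have e : Lm S A V w K M {1} Set.univ =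
        AvK 1 w K M fun x y z => bt S A z (U S x (V.V (b1 σ {1}))) (U S y (b1 μ A)) := by
      unfold Lm
      rw [V.one]
    rw [e]
    exact hM1
  have hdec := hDB X _ μ inferInstance S A hA σ hσ V C hCm hd w K M N hK0 hM0
  have hsum : (∑ j ∈ Finset.range N, ∑ k ∈ Finset.range N,
      ‖Lm S A V w K M (C j \ {1}) (C k)‖) ≤ ε / 8 := by
    calc (∑ j ∈ Finset.range N, ∑ k ∈ Finset.range N, ‖Lm S A V w K M (C j \ {1}) (C k)‖)
        ≤ ∑ j ∈ Finset.range N, ∑ k ∈ Finset.range N, ε' := by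
          refine Finset.sum_le_sum fun j hj => Finset.sum_le_sum fun k hk => ?_
          exact hM2 (⟨j, Finset.mem_range.1 hj⟩, ⟨k, Finset.mem_range.1 hk⟩)
      _ = (N : ℝ) ^ 2 * ε' := by
          rw [Finset.sum_const, Finset.sum_const, Finset.card_range, nsmul_eq_mul, nsmul_eq_mul]
          ring
      _ ≤ ((N : ℝ) + 1) ^ 2 * ε' := by
          refine mul_le_mul_of_nonneg_right ?_ hε'0.le
          have : (0 : ℝ) ≤ N := Nat.cast_nonneg N
          nlinarith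
      _ = ε / 8 := by
          rw [hε']
          field_simp
  have hlow : μ.real A ^ 3 - ε < (Lm S A V w K M Set.univ Set.univ).re := by
    have h1 := Complex.abs_re_le_norm
      (Lm S A V w K M Set.univ Set.univ - Lm S A V w K M {1} Set.univ)
    rw [Complex.sub_re] at h1
    have h2 := (abs_le.1 h1).1
    have h3 : ‖Lm S A V w K M ((⋃ j, C j)ᶜ \ {1}) Set.univ‖ ≤ ε / 8 := hM3.1
    have h4 : ‖Lm S A V w K M ((⋃ j ∈ Finset.range N, C j) \ {1}) ((⋃ j, C j)ᶜ)‖ ≤ ε / 8 := hM3.2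
    linarith
  -- the contradiction
  by_contra hcon
  push Not at hcon
  have hcpos : 0 < μ.real A ^ 3 - ε :=
    lt_of_le_of_lt measureReal_nonneg (hcon 3 4 5 (by norm_num) (by norm_num) (by norm_num)
      (by norm_num))
  obtain ⟨Φ, hΦ⟩ : ∃ Φ : ℕ → ℕ → ℕ → ℂ, Φ = fun x y z => if x ^ 2 + y ^ 2 = z ^ 2 then
    bt S A z (U S x (V.V (b1 σ Set.univ))) (U S y (V.V (b1 σ Set.univ))) else 0 := ⟨_, rfl⟩
  have e1 : Lm S A V w K M Set.univ Set.univ = AvK 1 w K M Φ := by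
    unfold Lm
    refine avK_pyth _ _ _ _ _ _ fun x y z hxyz => ?_
    rw [hΦ]
    simp only [if_pos hxyz]
  have e2 : ‖AvK 1 w K M Φ‖ ≤
      (AvK 1 w K M fun _ _ _ => (((μ.real A ^ 3 - ε : ℝ)) : ℂ)).re := by
    refine (hAP 1 w K M hK0 hM0).2.1 Φ (fun _ _ _ => μ.real A ^ 3 - ε) fun x y z hx hy hz => ?_
    rw [hΦ]
    by_cases hxyz : x ^ 2 + y ^ 2 = z ^ 2
    · simp only [if_pos hxyz]
      rw [V.one, (hB X _ μ inferInstance S A hA).2.2.2.2.2.2 x y z hx hy hz, Complex.norm_real,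
        Real.norm_eq_abs, abs_of_nonneg measureReal_nonneg]
      exact (hcon x y z hx hy hz hxyz).le
    · simp only [if_neg hxyz, norm_zero]
      exact hcpos.le
  have e3 : (AvK 1 w K M fun _ _ _ => (((μ.real A ^ 3 - ε : ℝ)) : ℂ)) =
      ((μ.real A ^ 3 - ε : ℝ) : ℂ) := by
    have h1 := (hAL 1 w K M).2.1 (fun _ _ _ => 1) ((μ.real A ^ 3 - ε : ℝ) : ℂ)
    rw [(hAP 1 w K M hK0 hM0).2.2] at h1
    simp only [mul_one] at h1
    exact h1
  rw [e3, Complex.ofReal_re] at e2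
  rw [e1] at hlow
  exact absurd ((Complex.re_le_norm _).trans e2) (not_le.2 hlow)

end Pool.Agent.F0f91f8.PC
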