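import Pool.Agent.Work.MP_0f91f8_co.PC.StmtsG

/-!
# Block PC, module G: item GPp (probability that a prime divides a form, uniformly)
-/

set_option autoImplicit false

namespace Pool.Agent.F0f91f8.PC

open Filter Topology ComplexConjugate
open Pool.Agent.F0f91f8.HD Pool.Agent.F0f91f8.RC Pool.Agent.F0f91f8.KR Pool.Agent.F0f91f8.FC
open scoped BigOperators

open Classical in
/-- [GPp] -/
theorem pr_GPp (hPl : StGPl) (hZp : StRZp) (hPr : StKPr) : StGPp := by
  intro w K hw hK
  have key : ∀ (e : Fin (w + 1) → Fin K) (e' : Fin (K + 1) → Fin K), ∃ C : ℝ, 0 < C ∧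
      ∀ M : ℕ, 1 ≤ M → ∀ (j : Fin 4) (p : ℕ), p.Prime → K < p →
      BRK 1 w K M (fun a n => if p ∣ Lf (kR 1 w K e) n (kK 1 w K e' * a) j then 1 else 0) ≤
        C / p := by
    intro e e'
    obtain ⟨hPar, hD, -, hQ, -⟩ := hPr 1 w K e e' le_rfl (by omega) hK
    obtain ⟨C₁, hC₁, h1⟩ := hPl w K (kR 1 w K e) (kK 1 w K e') hw hK hPar
    obtain ⟨C₂, hC₂, h2⟩ := hZp w.factorial (DR 1 w K) (kR 1 w K e) (kK 1 w K e') hQ hD
      hPar.κ0 hPar.k0
    refine ⟨C₁ + C₂, by linarith, fun M hM j p hp hKp => ?_⟩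
    have hp0 : (0 : ℝ) < p := by exact_mod_cast hp.pos
    by_cases hj : j = 3
    · subst hj
      have h3 := (h2 M hM 1 hQ).1 p hp
      have e1 : BRK 1 w K M
          (fun a n => if p ∣ Lf (kR 1 w K e) n (kK 1 w K e' * a) 3 then 1 else 0) =
          BR w.factorial (DR 1 w K) 1 M fun a s =>
            if p ∣ tZ (kR 1 w K e) (kK 1 w K e') a (w.factorial * s + 1) then 1 else 0 := by
        unfold BRK BR
        congr 1
      rw [e1]
      refine h3.trans ?_
      exact div_le_div_of_nonneg_right (by linarith) hp0.le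
    · refine (h1 M hM j hj p hp hKp).trans ?_
      exact div_le_div_of_nonneg_right (by linarith) hp0.le
  choose C hC hb using key
  refine ⟨(∑ e, ∑ e', C e e') + 1, ?_, fun M hM e e' j p hp hKp => ?_⟩
  · have : 0 ≤ ∑ e, ∑ e', C e e' :=
      Finset.sum_nonneg fun e _ => Finset.sum_nonneg fun e' _ => (hC e e').le
    linarith
  · have hp0 : (0 : ℝ) < p := by exact_mod_cast hp.pos
    refine (hb e e' M hM j p hp hKp).trans ?_
    refine div_le_div_of_nonneg_right ?_ hp0.le
    have h1 : C e e' ≤ ∑ e', C e e' :=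
      Finset.single_le_sum (f := fun e' => C e e') (fun e' _ => (hC e e').le)
        (Finset.mem_univ e')
    have h2 : ∑ e', C e e' ≤ ∑ e, ∑ e', C e e' :=
      Finset.single_le_sum (f := fun e => ∑ e', C e e')
        (fun e _ => Finset.sum_nonneg fun e' _ => (hC e e').le) (Finset.mem_univ e)
    linarith

end Pool.Agent.F0f91f8.PC
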