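import Pool.Agent.Work.MP_0f91f8_co.PC.StmtsP

/-!
# Block PC, module P, item PAv: rules of the averages `avR`, `avC`
-/

set_option autoImplicit false

namespace Pool.Agent.F0f91f8.PC

open Filter Topology ComplexConjugate MeasureTheory
open Pool.Agent.F0f91f8.HD Pool.Agent.F0f91f8.RC Pool.Agent.F0f91f8.KR Pool.Agent.F0f91f8.FC
open scoped BigOperators

namespace IPAv

lemma normK (w K : ℕ) : ‖((K : ℂ) ^ (w + 1) * (K : ℂ) ^ (K + 1))‖ =
    (K : ℝ) ^ (w + 1) * (K : ℝ) ^ (K + 1) := by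
  rw [norm_mul, norm_pow, norm_pow, Complex.norm_natCast]

lemma normM (D M : ℕ) : ‖((M : ℂ) ^ 2 * ((D * M : ℕ) : ℂ) ^ 2)‖ =
    (M : ℝ) ^ 2 * ((D * M : ℕ) : ℝ) ^ 2 := by
  rw [norm_mul, norm_pow, norm_pow, Complex.norm_natCast, Complex.norm_natCast]

lemma bx_sub (Q D a₀ M : ℕ) (F G : ℕ → ℕ → ℂ) :
    ‖BxR Q D a₀ M F - BxR Q D a₀ M G‖ ≤
      BR Q D a₀ M fun a s => ‖F a (Q * s + 1) - G a (Q * s + 1)‖ := by
  unfold BxR Bx BR
  rw [← sub_div, norm_div, normM]
  refine div_le_div_of_nonneg_right ?_ (by positivity)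
  rw [← Finset.sum_sub_distrib]
  refine (norm_sum_le _ _).trans (Finset.sum_le_sum fun u _ => ?_)
  rw [← Finset.sum_sub_distrib]
  refine (norm_sum_le _ _).trans (Finset.sum_le_sum fun u' _ => ?_)
  rw [← Finset.sum_sub_distrib]
  refine (norm_sum_le _ _).trans (Finset.sum_le_sum fun v _ => ?_)
  rw [← Finset.sum_sub_distrib]
  exact norm_sum_le _ _

lemma br_mono (Q D a₀ M : ℕ) (F G : ℕ → ℕ → ℝ) (ha : 0 < a₀)
    (h : ∀ a s, 0 < a → F a s ≤ G a s) : BR Q D a₀ M F ≤ BR Q D a₀ M G := by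
  unfold BR
  refine div_le_div_of_nonneg_right ?_ (by positivity)
  refine Finset.sum_le_sum fun u _ => Finset.sum_le_sum fun u' _ => Finset.sum_le_sum fun v _ =>
    Finset.sum_le_sum fun v' _ => h _ _ ?_
  omega

lemma br_add (Q D a₀ M : ℕ) (F G : ℕ → ℕ → ℝ) :
    BR Q D a₀ M (fun a s => F a s + G a s) = BR Q D a₀ M F + BR Q D a₀ M G := by
  unfold BR
  simp only [Finset.sum_add_distrib, add_div]

lemma br_mul (Q D a₀ M : ℕ) (c : ℝ) (F : ℕ → ℕ → ℝ) :
    BR Q D a₀ M (fun a s => c * F a s) = c * BR Q D a₀ M F := by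
  unfold BR
  simp only [← Finset.mul_sum, mul_div_assoc]

lemma br_const (Q D a₀ M : ℕ) (c : ℝ) (hc : 0 ≤ c) : BR Q D a₀ M (fun _ _ => c) ≤ c := by
  unfold BR
  refine div_le_of_le_mul₀ (by positivity) hc (le_of_eq ?_)
  simp only [Finset.sum_const, Nat.card_Icc, Nat.add_sub_cancel, nsmul_eq_mul]
  ring

lemma sum5 {α : Type} (s : Finset α) (A B : Finset ℕ) (f : α → ℕ → ℕ → ℕ → ℕ → ℂ) :
    ∑ e ∈ s, ∑ u ∈ A, ∑ u' ∈ A, ∑ v ∈ B, ∑ v' ∈ B, f e u u' v v' =
      ∑ u ∈ A, ∑ u' ∈ A, ∑ v ∈ B, ∑ v' ∈ B, ∑ e ∈ s, f e u u' v v' := by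
  rw [Finset.sum_comm]
  refine Finset.sum_congr rfl fun u _ => ?_
  rw [Finset.sum_comm]
  refine Finset.sum_congr rfl fun u' _ => ?_
  rw [Finset.sum_comm]
  refine Finset.sum_congr rfl fun v _ => ?_
  rw [Finset.sum_comm]

lemma bx_sum {α : Type} (s : Finset α) (Q D a₀ M : ℕ) (C : ℂ) (F : α → ℕ → ℕ → ℂ) :
    BxR Q D a₀ M (fun a n => (∑ e ∈ s, F e a n) / C) = (∑ e ∈ s, BxR Q D a₀ M (F e)) / C := by
  unfold BxR Bx
  simp only [← Finset.sum_div]
  rw [div_right_comm, sum5]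

lemma bx_le (Q D a₀ M : ℕ) (F : ℕ → ℕ → ℂ) (c : ℝ) (hc : 0 ≤ c) (ha : 0 < a₀)
    (h : ∀ a n, 0 < a → 0 < n → ‖F a n‖ ≤ c) : ‖BxR Q D a₀ M F‖ ≤ c := by
  have h1 := bx_sub Q D a₀ M F (fun _ _ => 0)
  have h2 : BxR Q D a₀ M (fun _ _ => 0) = 0 := by
    unfold BxR Bx
    simp
  rw [h2, sub_zero] at h1
  refine h1.trans ((br_mono Q D a₀ M _ (fun _ _ => c) ha fun a s ha' => ?_).trans
    (br_const Q D a₀ M c hc))
  rw [sub_zero]
  exact h a _ ha' (Nat.succ_pos _)

lemma br_int {Y : Type} [MeasurableSpace Y] (ν : Measure Y) (Q D a₀ M : ℕ)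
    (F : ℕ → ℕ → Y → ℝ) (hF : ∀ a s, Integrable (F a s) ν) :
    Integrable (fun y => BR Q D a₀ M fun a s => F a s y) ν ∧
    BR Q D a₀ M (fun a s => ∫ y, F a s y ∂ν) = ∫ y, BR Q D a₀ M (fun a s => F a s y) ∂ν := by
  unfold BR
  have i1 : ∀ u u' v : ℕ, Integrable (fun y => ∑ v' ∈ Finset.Icc 1 (D * M),
      F (Q * (v + v') + a₀) (u + u') y) ν := fun u u' v =>
    integrable_finsetSum _ fun v' _ => hF _ _
  have i2 : ∀ u u' : ℕ, Integrable (fun y => ∑ v ∈ Finset.Icc 1 (D * M),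
      ∑ v' ∈ Finset.Icc 1 (D * M), F (Q * (v + v') + a₀) (u + u') y) ν := fun u u' =>
    integrable_finsetSum _ fun v _ => i1 u u' v
  have i3 : ∀ u : ℕ, Integrable (fun y => ∑ u' ∈ Finset.Icc 1 M, ∑ v ∈ Finset.Icc 1 (D * M),
      ∑ v' ∈ Finset.Icc 1 (D * M), F (Q * (v + v') + a₀) (u + u') y) ν := fun u =>
    integrable_finsetSum _ fun u' _ => i2 u u'
  refine ⟨(integrable_finsetSum _ fun u _ => i3 u).div_const _, ?_⟩
  rw [integral_div, integral_finsetSum _ fun u _ => i3 u]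
  refine congrArg (fun t => t / ((M : ℝ) ^ 2 * ((D * M : ℕ) : ℝ) ^ 2)) ?_
  refine Finset.sum_congr rfl fun u _ => ?_
  rw [integral_finsetSum _ fun u' _ => i2 u u']
  refine Finset.sum_congr rfl fun u' _ => ?_
  rw [integral_finsetSum _ fun v _ => i1 u u' v]
  refine Finset.sum_congr rfl fun v _ => ?_
  rw [integral_finsetSum _ fun v' _ => hF _ _]

lemma cardE (w K : ℕ) : (Finset.univ : Finset (Fin (w + 1) → Fin K)).card = K ^ (w + 1) := by
  rw [Finset.card_univ, Fintype.card_fun, Fintype.card_fin, Fintype.card_fin]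

/-- bound of a double average -/
lemma avb (w K : ℕ) (G : (Fin (w + 1) → Fin K) → (Fin (K + 1) → Fin K) → ℝ) (c : ℝ)
    (hc : 0 ≤ c) (h : ∀ e e', G e e' ≤ c) :
    (∑ e, ∑ e', G e e') / ((K : ℝ) ^ (w + 1) * (K : ℝ) ^ (K + 1)) ≤ c := by
  refine div_le_of_le_mul₀ (by positivity) hc ?_
  refine (Finset.sum_le_sum fun e _ => Finset.sum_le_sum fun e' _ => h e e').trans
    (le_of_eq ?_)
  rw [Finset.sum_const, Finset.sum_const, cardE, cardE, nsmul_eq_mul, nsmul_eq_mul]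
  push_cast
  ring

end IPAv

open IPAv in
theorem pr_PAv : StPAv := by
  intro w K M
  refine ⟨fun Φ => rfl, ?_, ?_, ?_, ?_, ?_, ?_, ?_, ?_⟩
  · intro F G
    unfold avC avR
    rw [← sub_div, norm_div, normK]
    refine div_le_div_of_nonneg_right ?_ (by positivity)
    rw [← Finset.sum_sub_distrib]
    refine (norm_sum_le _ _).trans (Finset.sum_le_sum fun e _ => ?_)
    rw [← Finset.sum_sub_distrib]
    refine (norm_sum_le _ _).trans (Finset.sum_le_sum fun e' _ => ?_)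
    exact bx_sub _ _ _ _ _ _
  · intro F G h
    unfold avR
    refine div_le_div_of_nonneg_right ?_ (by positivity)
    refine Finset.sum_le_sum fun e _ => Finset.sum_le_sum fun e' _ => ?_
    exact br_mono _ _ _ _ _ _ Nat.one_pos fun a s ha => h e e' a _ ha (Nat.succ_pos _)
  · intro F G
    unfold avR
    rw [← add_div]
    refine congrArg (fun t => t / ((K : ℝ) ^ (w + 1) * (K : ℝ) ^ (K + 1))) ?_
    rw [← Finset.sum_add_distrib]
    refine Finset.sum_congr rfl fun e _ => ?_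
    rw [← Finset.sum_add_distrib]
    refine Finset.sum_congr rfl fun e' _ => ?_
    exact br_add _ _ _ _ _ _
  · intro c F
    unfold avR
    rw [← mul_div_assoc]
    refine congrArg (fun t => t / ((K : ℝ) ^ (w + 1) * (K : ℝ) ^ (K + 1))) ?_
    rw [Finset.mul_sum]
    refine Finset.sum_congr rfl fun e _ => ?_
    rw [Finset.mul_sum]
    refine Finset.sum_congr rfl fun e' _ => ?_
    exact br_mul _ _ _ _ _ _
  · intro c hc
    unfold avR
    exact avb w K _ c hc fun e e' => br_const _ _ _ _ c hc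
  · intro F c hc h
    unfold avR
    exact avb w K _ c hc h
  · intro Y _ ν F hF
    unfold avR
    have i0 := fun (e : Fin (w + 1) → Fin K) (e' : Fin (K + 1) → Fin K) =>
      br_int ν w.factorial (DR 1 w K) 1 M (fun a s y => F e e' a (w.factorial * s + 1) y)
        (fun a s => hF e e' a _)
    rw [integral_div, integral_finsetSum _ fun e _ => integrable_finsetSum _ fun e' _ =>
      (i0 e e').1]
    refine congrArg (fun t => t / ((K : ℝ) ^ (w + 1) * (K : ℝ) ^ (K + 1))) ?_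
    refine Finset.sum_congr rfl fun e _ => ?_
    rw [integral_finsetSum _ fun e' _ => (i0 e e').1]
    exact Finset.sum_congr rfl fun e' _ => (i0 e e').2
  · intro F c hc h
    have h1 : avC w K M F = (∑ e' : Fin (K + 1) → Fin K, BxR w.factorial (DR 1 w K) 1 M
        (fun a n => (∑ e : Fin (w + 1) → Fin K, F e e' a n) / (K : ℂ) ^ (w + 1))) /
        (K : ℂ) ^ (K + 1) := by
      unfold avC
      rw [Finset.sum_congr rfl fun e' _ => bx_sum (Finset.univ) w.factorial (DR 1 w K) 1 M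
        ((K : ℂ) ^ (w + 1)) (fun e a n => F e e' a n), ← Finset.sum_div, div_div,
        Finset.sum_comm]
    rw [h1, norm_div, norm_pow, Complex.norm_natCast]
    refine div_le_of_le_mul₀ (by positivity) hc ?_
    refine (norm_sum_le _ _).trans ?_
    refine (Finset.sum_le_sum fun e' _ => bx_le _ _ _ _ _ c hc Nat.one_pos
      fun a n ha hn => h e' a n ha hn).trans (le_of_eq ?_)
    rw [Finset.sum_const, cardE, nsmul_eq_mul]
    push_cast
    ring

end Pool.Agent.F0f91f8.PC
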