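import Mathlib
import Pool.Agent.Work.MP_0f91f8_co.PC.StmtsR

/-!
# Block PC, item Rd: the ergodic form, uniform and simultaneous
-/

set_option autoImplicit false

namespace Pool.Agent.F0f91f8.PC

open Filter Topology ComplexConjugate MeasureTheory
open Pool.Agent.F0f91f8.HD Pool.Agent.F0f91f8.RC Pool.Agent.F0f91f8.KR Pool.Agent.F0f91f8.FC
open Pool.Agent.Work.MP_0f91f8_co.EF (GG ev)
open scoped BigOperators

namespace IRd

/-- the tails of disjoint sets have small measure -/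
theorem tail {Y : Type} [MeasurableSpace Y] (σ : Measure Y) [IsFiniteMeasure σ] (C : ℕ → Set Y)
    (hC : ∀ j, MeasurableSet (C j)) (hd : ∀ i j, i ≠ j → Disjoint (C i) (C j)) (δ : ℝ)
    (hδ : 0 < δ) : ∃ N : ℕ, σ.real (⋃ j ∈ Set.Ici N, C j) ≤ δ := by
  have hmeas : ∀ N : ℕ, MeasurableSet (⋃ j ∈ Set.Ici N, C j) := fun N =>
    MeasurableSet.biUnion (Set.to_countable _) fun j _ => hC j
  have hanti : Antitone fun N : ℕ => ⋃ j ∈ Set.Ici N, C j := by
    intro a b hab x hx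
    simp only [Set.mem_iUnion, Set.mem_Ici] at hx ⊢
    obtain ⟨j, hj, hx⟩ := hx
    exact ⟨j, hab.trans hj, hx⟩
  have hempty : (⋂ N : ℕ, ⋃ j ∈ Set.Ici N, C j) = ∅ := by
    rw [Set.eq_empty_iff_forall_notMem]
    intro x hx
    rw [Set.mem_iInter] at hx
    have h0 := hx 0
    simp only [Set.mem_iUnion, Set.mem_Ici] at h0
    obtain ⟨j, -, hj⟩ := h0
    have h1 := hx (j + 1)
    simp only [Set.mem_iUnion, Set.mem_Ici] at h1
    obtain ⟨k, hk, hxk⟩ := h1
    exact Set.disjoint_left.1 (hd j k (by omega)) hj hxk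
  have ht := tendsto_measure_iInter_atTop (μ := σ) (s := fun N : ℕ => ⋃ j ∈ Set.Ici N, C j)
    (fun N => (hmeas N).nullMeasurableSet) hanti ⟨0, measure_ne_top _ _⟩
  rw [hempty, measure_empty] at ht
  have ht2 := (ENNReal.tendsto_toReal ENNReal.zero_ne_top).comp ht
  obtain ⟨N, hN⟩ := (ht2.eventually (gt_mem_nhds (show (0 : ENNReal).toReal < δ by simpa using hδ))).exists
  exact ⟨N, le_of_lt hN⟩

/-- subsets of continuous sets are continuous -/
theorem cn_mono {σ : Measure GG} {E F : Set GG} (h : Cn σ E) (hF : MeasurableSet F)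
    (hFE : F ⊆ E) : Cn σ F := by
  refine ⟨hF, measure_mono_null ?_ h.2⟩
  rintro p ⟨h1, h2, h3⟩
  exact ⟨hFE h1, hFE h2, h3⟩

/-- only Pythagorean triples matter -/
theorem avK_pyth (E w K M : ℕ) (Φ Ψ : ℕ → ℕ → ℕ → ℂ)
    (h : ∀ x y z, x ^ 2 + y ^ 2 = z ^ 2 → Φ x y z = Ψ x y z) :
    AvK E w K M Φ = AvK E w K M Ψ := by
  unfold AvK BxR Bx
  simp only [h _ _ _ (tXYZ _ _ _ _)]

/-- one set: the continuous conditions that are needed -/
theorem one (hSp : SpecS) (hCl : ClsS) (hCp : ClpS) (hMn : MainS) (hNs : KR.StNst)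
    (hDA : StDA) (hDB : StDB) (X : Type) (inst : MeasurableSpace X) (μ : Measure X)
    (_ : IsProbabilityMeasure μ) (S : Sys μ) (A : Set X) (hA : MeasurableSet A) (ε : ℝ)
    (hε : 0 < ε) : ∃ (σ : Measure GG) (_ : IsFiniteMeasure σ) (V : SpV S (b1 μ A) σ)
      (E1 E2 G : Set GG) (P : ℕ → ℕ → ℕ → Prop), MeasurableSet E1 ∧ MeasurableSet E2 ∧
      MeasurableSet G ∧ Cn σ E1 ∧ Cn σ G ∧ Nest P ∧
      ∀ w K M, 0 < K → 0 < M → P w K M → ‖Lm S A V w K M E1 Set.univ‖ ≤ ε / 8 →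
        ‖Lm S A V w K M E2 G‖ ≤ ε / 8 →
        μ.real A ^ 3 - ε < (Lm S A V w K M Set.univ Set.univ).re := by
  classical
  obtain ⟨σ, hσ, ⟨V⟩⟩ := hSp X _ μ inferInstance S (b1 μ A)
  obtain ⟨C, χ, hC, hd, hG⟩ := hCl σ hσ
  have hCm : ∀ j, MeasurableSet (C j) := fun j => (hC j).1
  -- the number `N`
  obtain ⟨N, hN⟩ := tail σ C hCm hd ((ε / 16) ^ 2) (by positivity)
  have hNs' : 2 * Real.sqrt (σ.real (⋃ j ∈ Set.Ici N, C j)) ≤ ε / 8 := by
    have h1 : Real.sqrt (σ.real (⋃ j ∈ Set.Ici N, C j)) ≤ ε / 16 := by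
      rw [show ε / 16 = Real.sqrt ((ε / 16) ^ 2) from (Real.sqrt_sq (by positivity)).symm]
      exact Real.sqrt_le_sqrt hN
    linarith
  obtain ⟨ε', hε'⟩ : ∃ ε' : ℝ, ε' = ε / (8 * ((N : ℝ) + 1) ^ 2) := ⟨_, rfl⟩
  have hε'0 : 0 < ε' := by rw [hε']; positivity
  have hGm : MeasurableSet (⋃ j, C j)ᶜ := (MeasurableSet.iUnion hCm).compl
  have hDm : MeasurableSet (⋃ j ∈ Finset.range N, C j) :=
    Finset.measurableSet_biUnion _ fun j _ => hCm j
  have h1m : MeasurableSet ({1} : Set GG) := isClosed_singleton.measurableSet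
  have hMain := hMn X _ μ inferInstance S A hA σ hσ V (ε / 8) (by positivity)
  have hPairs : Nest fun w K M => ∀ i : Fin N × Fin N,
      ‖Lm S A V w K M (C i.1 \ {1}) (C i.2)‖ ≤ ε' := by
    refine hNs.2.2 (Fin N × Fin N) inferInstance _ fun i => ?_
    have htriv : Nest fun _ _ _ => True := by
      unfold Nest
      simp
    rcases (hC i.1).2 with h1 | h1
    · refine hNs.1 _ _ (fun w K M _ hK hM _ => ?_) htriv
      have h2 := (hDA X _ μ inferInstance S A hA σ hσ V w K M hK hM (C i.1 \ {1}) (C i.1 \ {1})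
        (C i.2) ((hCm _).diff h1m) ((hCm _).diff h1m) (hCm _)).2.2.2.1
      rw [h1, Set.empty_sdiff, h2, norm_zero]
      exact hε'0.le
    · rcases (hC i.2).2 with h3 | h3
      · refine hNs.1 _ _ (fun w K M _ hK hM _ => ?_) htriv
        have h2 := (hDA X _ μ inferInstance S A hA σ hσ V w K M hK hM (C i.1 \ {1}) (C i.1 \ {1})
          (C i.1 \ {1}) ((hCm _).diff h1m) ((hCm _).diff h1m) ((hCm _).diff h1m)).2.2.2.2.1
        rw [h3, h2, norm_zero]
        exact hε'0.le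
      · have h4 := hCp X _ μ inferInstance S A hA σ hσ V (χ i.1) (χ i.2) ε' hε'0
        rw [h1, h3]
        exact h4
  refine ⟨σ, hσ, V, (⋃ j, C j)ᶜ \ {1}, (⋃ j ∈ Finset.range N, C j) \ {1}, (⋃ j, C j)ᶜ,
    _, hGm.diff h1m, hDm.diff h1m, hGm, cn_mono hG (hGm.diff h1m) Set.sdiff_subset, hG,
    hNs.2.1 _ _ hMain hPairs, ?_⟩
  rintro w K M hK0 hM0 ⟨hM1, hM2⟩ h3 h4
  have hM1' : μ.real A ^ 3 - ε / 8 ≤ (Lm S A V w K M {1} Set.univ).re := by
    have e : Lm S A V w K M {1} Set.univ =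
        AvK 1 w K M fun x y z => bt S A z (U S x (V.V (b1 σ {1}))) (U S y (b1 μ A)) := by
      unfold Lm
      rw [V.one]
    rw [e]
    exact hM1
  have hdec := hDB X _ μ inferInstance S A hA σ hσ V C hCm hd w K M N hK0 hM0
  have hsum : (∑ j ∈ Finset.range N, ∑ k ∈ Finset.range N,
      ‖Lm S A V w K M (C j \ {1}) (C k)‖) ≤ ε / 8 := by
    calc (∑ j ∈ Finset.range N, ∑ k ∈ Finset.range N, ‖Lm S A V w K M (C j \ {1}) (C k)‖)
        ≤ ∑ j ∈ Finset.range N, ∑ k ∈ Finset.range N, ε' := by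
          refine Finset.sum_le_sum fun j hj => Finset.sum_le_sum fun k hk => ?_
          exact hM2 (⟨j, Finset.mem_range.1 hj⟩, ⟨k, Finset.mem_range.1 hk⟩)
      _ = (N : ℝ) ^ 2 * ε' := by
          rw [Finset.sum_const, Finset.sum_const, Finset.card_range, nsmul_eq_mul, nsmul_eq_mul]
          ring
      _ ≤ ((N : ℝ) + 1) ^ 2 * ε' := by
          refine mul_le_mul_of_nonneg_right ?_ hε'0.le
          have : (0 : ℝ) ≤ N := Nat.cast_nonneg N
          nlinarith
      _ = ε / 8 := by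
          rw [hε']
          field_simp
  have h1 := Complex.abs_re_le_norm
    (Lm S A V w K M Set.univ Set.univ - Lm S A V w K M {1} Set.univ)
  rw [Complex.sub_re] at h1
  have h2 := (abs_le.1 h1).1
  linarith

end IRd

open IRd in
/-- Item Rd. -/
theorem pr_Rd (hSp : SpecS) (hCl : ClsS) (hCo : ContR) (hCp : ClpS) (hMn : MainS)
    (hAL : KR.StAvL) (hAP : KR.StAvP) (hNs : KR.StNst) (hB : StCB)
    (hDA : StDA) (hDB : StDB) : FinXR := by
  classical
  intro r ε hε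
  have hr1 : (0 : ℝ) < (r : ℝ) + 1 := by positivity
  have hε1 : 0 < ε / ((r : ℝ) + 1) := by positivity
  obtain ⟨R, hR⟩ := hCo (ε / ((r : ℝ) + 1) / 8) (by positivity)
  refine ⟨R, fun X _ μ _ S A hA hL => ?_⟩
  have hone := fun i : Fin r => one hSp hCl hCp hMn hNs hDA hDB X _ μ inferInstance S (A i) (hA i)
    (ε / ((r : ℝ) + 1)) hε1
  choose σ hσ V E1 E2 G P hE1 hE2 hGm hC1 hCG hP hlow using hone
  have hCont := hR X _ μ inferInstance S (fun p q => ∑ i, dd S (A i) p q) hL (Fin r × Bool)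
    inferInstance (fun i => A i.1) (fun i => hA i.1) (fun i p q => ?_) (fun i => σ i.1)
    (fun i => hσ i.1) (fun i => V i.1) (fun i => if i.2 then E2 i.1 else E1 i.1)
    (fun i => if i.2 then G i.1 else Set.univ) (fun i => ?_) (fun i => ?_) (fun i => ?_)
  · have hPall : Nest fun w K M => ∀ i : Fin r, P i w K M := hNs.2.2 (Fin r) inferInstance P hP
    -- one choice of `w`, `K`, `M`
    obtain ⟨w, hw1, hw3⟩ := (hPall.and hCont).exists
    obtain ⟨K, ⟨hK1, hK3⟩, hK0⟩ := ((hw1.and hw3).and (eventually_gt_atTop 0)).exists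
    obtain ⟨M, hM3, hM1, hM0⟩ := (hK3.and_eventually (hK1.and (eventually_gt_atTop 0))).exists
    have hlow' : ∀ i : Fin r, μ.real (A i) ^ 3 - ε / ((r : ℝ) + 1) <
        (Lm S (A i) (V i) w K M Set.univ Set.univ).re := by
      intro i
      refine hlow i w K M hK0 hM0 (hM1 i) ?_ ?_
      · have := hM3 (i, false)
        simpa using this
      · have := hM3 (i, true)
        simpa using this
    have hsumlow : ∑ i, μ.real (A i) ^ 3 - ε <
        ∑ i, (Lm S (A i) (V i) w K M Set.univ Set.univ).re := by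
      have h1 : ∑ i, (μ.real (A i) ^ 3 - ε / ((r : ℝ) + 1)) ≤
          ∑ i, (Lm S (A i) (V i) w K M Set.univ Set.univ).re :=
        Finset.sum_le_sum fun i _ => (hlow' i).le
      rw [Finset.sum_sub_distrib, Finset.sum_const, Finset.card_univ, Fintype.card_fin,
        nsmul_eq_mul] at h1
      have h2 : (r : ℝ) * (ε / ((r : ℝ) + 1)) < ε := by
        rw [mul_div_assoc', div_lt_iff₀ hr1]
        nlinarith
      linarith
    -- the contradiction
    by_contra hcon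
    push Not at hcon
    obtain ⟨c, hc⟩ : ∃ c : ℝ, c = ∑ i, μ.real (A i) ^ 3 - ε := ⟨_, rfl⟩
    rw [← hc] at hsumlow
    have hcon' : ∀ x y z : ℕ, 0 < x → 0 < y → 0 < z → x ^ 2 + y ^ 2 = z ^ 2 →
        ∑ i, μ.real {t | S.T x t ∈ A i ∧ S.T y t ∈ A i ∧ S.T z t ∈ A i} < c := by
      intro x y z hx hy hz hxyz
      rw [hc]
      exact hcon x y z hx hy hz hxyz
    have hcpos : 0 < c :=
      lt_of_le_of_lt (Finset.sum_nonneg fun i _ => measureReal_nonneg)
        (hcon' 3 4 5 (by norm_num) (by norm_num) (by norm_num) (by norm_num))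
    obtain ⟨Ψ, hΨ⟩ : ∃ Ψ : Fin r → ℕ → ℕ → ℕ → ℂ, Ψ = fun i x y z =>
      bt S (A i) z (U S x ((V i).V (b1 (σ i) Set.univ))) (U S y ((V i).V (b1 (σ i) Set.univ))) :=
      ⟨_, rfl⟩
    obtain ⟨Φ, hΦ⟩ : ∃ Φ : ℕ → ℕ → ℕ → ℂ, Φ = fun x y z => if x ^ 2 + y ^ 2 = z ^ 2 then
      ∑ i, Ψ i x y z else 0 := ⟨_, rfl⟩
    have e1 : ∑ i, Lm S (A i) (V i) w K M Set.univ Set.univ = AvK 1 w K M Φ := by
      have h1 := (hAL 1 w K M).2.2 (Fin r) Finset.univ Ψ
      have h2 : ∀ i, Lm S (A i) (V i) w K M Set.univ Set.univ = AvK 1 w K M (Ψ i) := by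
        intro i
        rw [hΨ]
        rfl
      rw [Finset.sum_congr rfl (fun i _ => h2 i), ← h1]
      refine avK_pyth _ _ _ _ _ _ fun x y z hxyz => ?_
      rw [hΦ]
      simp only [if_pos hxyz]
    have e2 : ‖AvK 1 w K M Φ‖ ≤ (AvK 1 w K M fun _ _ _ => ((c : ℝ) : ℂ)).re := by
      refine (hAP 1 w K M hK0 hM0).2.1 Φ (fun _ _ _ => c) fun x y z hx hy hz => ?_
      rw [hΦ]
      by_cases hxyz : x ^ 2 + y ^ 2 = z ^ 2
      · simp only [if_pos hxyz]
        have h3 : ∀ i, Ψ i x y z =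
            ((μ.real {t | S.T x t ∈ A i ∧ S.T y t ∈ A i ∧ S.T z t ∈ A i} : ℝ) : ℂ) := by
          intro i
          rw [hΨ]
          show bt S (A i) z (U S x ((V i).V (b1 (σ i) Set.univ)))
            (U S y ((V i).V (b1 (σ i) Set.univ))) = _
          rw [(V i).one, (hB X _ μ inferInstance S (A i) (hA i)).2.2.2.2.2.2 x y z hx hy hz]
        rw [Finset.sum_congr rfl (fun i _ => h3 i), ← Complex.ofReal_sum, Complex.norm_real,
          Real.norm_eq_abs, abs_of_nonneg (Finset.sum_nonneg fun i _ => measureReal_nonneg)]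
        exact (hcon' x y z hx hy hz hxyz).le
      · simp only [if_neg hxyz, norm_zero]
        exact hcpos.le
    have e3 : (AvK 1 w K M fun _ _ _ => ((c : ℝ) : ℂ)) = ((c : ℝ) : ℂ) := by
      have h1 := (hAL 1 w K M).2.1 (fun _ _ _ => 1) ((c : ℝ) : ℂ)
      rw [(hAP 1 w K M hK0 hM0).2.2] at h1
      simp only [mul_one] at h1
      exact h1
    rw [e3, Complex.ofReal_re] at e2
    rw [← Complex.re_sum, e1] at hsumlow
    exact absurd ((Complex.re_le_norm _).trans e2) (not_le.2 hsumlow)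
  · exact Finset.single_le_sum (f := fun i => dd S (A i) p q) (fun i _ => by unfold dd; positivity)
      (Finset.mem_univ i.1)
  · rcases i with ⟨i, b⟩
    cases b
    · simpa using hE1 i
    · simpa using hE2 i
  · rcases i with ⟨i, b⟩
    cases b
    · simp
    · simpa using hGm i
  · rcases i with ⟨i, b⟩
    cases b
    · left
      simpa using hC1 i
    · right
      simpa using hCG i

end Pool.Agent.F0f91f8.PC
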