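import Mathlib
import Pool.Agent.Work.MP_0f91f8_co.PC.StmtsV
import Pool.Agent.Work.MP_0f91f8_co.K.I_AvP

/-!
# Block PC, module V, item VMn: the main term
-/

set_option autoImplicit false

namespace Pool.Agent.F0f91f8.PC

open Filter Topology ComplexConjugate MeasureTheory
open Pool.Agent.F0f91f8.HD Pool.Agent.F0f91f8.RC Pool.Agent.F0f91f8.KR Pool.Agent.F0f91f8.FC
open Pool.Agent.Work.MP_0f91f8_co.EF (GG ev ct IsFo S_Ev S_Haar S_Fol S_Cnt S_Chr)
open scoped BigOperators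

namespace XVMn

/-- the value of `bt` at a member -/
lemma bt_eq (hUn : StVUn) {X : Type} [mX : MeasurableSpace X] {μ : Measure X}
    [hμ : IsProbabilityMeasure μ] (S : Sys μ) (A : Set X) (hA : MeasurableSet A)
    (I : Lp ℂ 2 μ) (J : X → ℝ) (hI : (I : X → ℂ) =ᵐ[μ] fun x => (J x : ℂ))
    (hJ : ∀ n : ℕ, 0 < n → (fun x => J (S.T n x)) =ᵐ[μ] J) (x y z : ℕ) (hx : 0 < x) (hy : 0 < y) :
    bt S A z (U S x I) (U S y (b1 μ A)) =
      ((∫ t, J t * A.indicator (fun _ => (1 : ℝ)) (S.T y t) *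
        A.indicator (fun _ => (1 : ℝ)) (S.T z t) ∂μ : ℝ) : ℂ) := by
  unfold bt
  rw [← integral_complex_ofReal]
  refine integral_congr_ae ?_
  have h1 := (hUn X mX μ S).1 x hx I
  have h2 : (fun t => (I : X → ℂ) (S.T x t)) =ᵐ[μ] fun t => (J (S.T x t) : ℂ) :=
    (S.mp x hx).quasiMeasurePreserving.ae_eq_comp hI
  have h3 := hJ x hx
  have h4 : U S y (b1 μ A) = b1 μ {t | S.T y t ∈ A} :=
    (hUn X mX μ S).2.2.2.2.2 y A hy hA inferInstance
  have hm : MeasurableSet {t | S.T y t ∈ A} := (S.T y).measurable hA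
  have h5 : (b1 μ {t | S.T y t ∈ A} : X → ℂ) =ᵐ[μ]
      ({t | S.T y t ∈ A} : Set X).indicator fun _ => (1 : ℂ) := by
    have hL : MemLp (({t | S.T y t ∈ A} : Set X).indicator fun _ => (1 : ℂ)) 2 μ :=
      memLp_indicator_const 2 hm 1 (Or.inr (measure_ne_top _ _))
    unfold b1 bl
    rw [dif_pos hL]
    exact MemLp.coeFn_toLp hL
  rw [h4]
  filter_upwards [h1, h2, h3, h5] with t h1 h2 h3 h5
  rw [h1, h2, h3, h5]
  by_cases hy' : S.T y t ∈ A <;> by_cases hz' : S.T z t ∈ A <;> simp [Set.indicator, hy', hz']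

/-- the real part of the mean -/
noncomputable def rA (w K M : ℕ) (g : GG) : ℝ :=
  (AvK 1 w K M fun _ y z => ev g y * conj (ev g z)).re

lemma term_cont (hEv : S_Ev) (y z : ℕ) : Continuous fun g : GG => ev g y * conj (ev g z) :=
  (hEv.2.1 y).mul (Complex.continuous_conj.comp (hEv.2.1 z))

lemma term_norm (hEv : S_Ev) (g : GG) {y z : ℕ} (hy : 0 < y) (hz : 0 < z) :
    ‖ev g y * conj (ev g z)‖ = 1 := by
  rw [norm_mul, RCLike.norm_conj, (hEv.1 g).norm y hy, (hEv.1 g).norm z hz, one_mul]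

lemma rA_cont (hEv : S_Ev) (w K M : ℕ) (hK : 1 ≤ K) (hM : 1 ≤ M) : Continuous (rA w K M) := by
  obtain ⟨ι, S, X, Y, Z, hS, hpos, hrep⟩ := IAvP.rep 1 w K M hK hM
  unfold rA
  simp only [hrep]
  exact Complex.continuous_re.comp (Continuous.div_const
    (continuous_finsetSum _ fun i _ => term_cont hEv _ _) _)

lemma rA_le (hEv : S_Ev) (w K M : ℕ) (hK : 1 ≤ K) (hM : 1 ≤ M) (g : GG) : |rA w K M g| ≤ 1 := by
  obtain ⟨ι, S, X, Y, Z, hS, hpos, hrep⟩ := IAvP.rep 1 w K M hK hM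
  have hc : (0 : ℝ) < (S.card : ℝ) := by exact_mod_cast hS.card_pos
  unfold rA
  rw [hrep]
  refine (Complex.abs_re_le_norm _).trans ?_
  rw [norm_div, Complex.norm_natCast, div_le_iff₀ hc, one_mul]
  refine (norm_sum_le _ _).trans ?_
  calc ∑ i ∈ S, ‖ev g (Y i) * conj (ev g (Z i))‖ = ∑ _i ∈ S, (1 : ℝ) :=
        Finset.sum_congr rfl fun i hi => term_norm hEv g (hpos i hi).2.1 (hpos i hi).2.2
    _ = S.card := by rw [Finset.sum_const, nsmul_eq_mul, mul_one]
    _ ≤ (S.card : ℝ) := le_rfl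

lemma rA_one (hEv : S_Ev) (w K M : ℕ) (hK : 1 ≤ K) (hM : 1 ≤ M) : rA w K M 1 = 1 := by
  obtain ⟨ι, S, X, Y, Z, hS, hpos, hrep⟩ := IAvP.rep 1 w K M hK hM
  have hc : (S.card : ℂ) ≠ 0 := by exact_mod_cast hS.card_pos.ne'
  unfold rA
  rw [hrep]
  have : ∑ i ∈ S, ev (1 : GG) (Y i) * conj (ev (1 : GG) (Z i)) = (S.card : ℂ) := by
    rw [Finset.sum_congr rfl fun i hi => by
      rw [hEv.2.2.1 _ (hpos i hi).2.1, hEv.2.2.1 _ (hpos i hi).2.2, map_one, one_mul]]
    rw [Finset.sum_const, nsmul_eq_mul, mul_one]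
  rw [this, div_self hc, Complex.one_re]

/-- the average of `bt` is the integral of the average -/
lemma main_int (hEv : S_Ev) (w K M : ℕ) (hK : 1 ≤ K) (hM : 1 ≤ M) (σ' : Measure GG)
    [IsFiniteMeasure σ'] (Φ : ℕ → ℕ → ℕ → ℂ)
    (h : ∀ x y z : ℕ, 0 < x → 0 < y → 0 < z → Φ x y z = ∫ g, ev g y * conj (ev g z) ∂σ') :
    (AvK 1 w K M Φ).re = ∫ g, rA w K M g ∂σ' := by
  obtain ⟨ι, S, X, Y, Z, hS, hpos, hrep⟩ := IAvP.rep 1 w K M hK hM
  have hint : ∀ i ∈ S, Integrable (fun g : GG => ev g (Y i) * conj (ev g (Z i))) σ' := by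
    intro i hi
    refine Integrable.of_bound (term_cont hEv _ _).aestronglyMeasurable 1 ?_
    exact Filter.Eventually.of_forall fun g =>
      (term_norm hEv g (hpos i hi).2.1 (hpos i hi).2.2).le
  unfold rA
  simp only [hrep]
  have h1 : (∑ i ∈ S, Φ (X i) (Y i) (Z i)) / (S.card : ℂ) =
      ∫ g, (∑ i ∈ S, ev g (Y i) * conj (ev g (Z i))) / (S.card : ℂ) ∂σ' := by
    rw [integral_div, integral_finsetSum _ hint]
    congr 1
    exact Finset.sum_congr rfl fun i hi => h _ _ _ (hpos i hi).1 (hpos i hi).2.1 (hpos i hi).2.2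
  rw [h1]
  have h2 := integral_re ((integrable_finsetSum _ hint).div_const (S.card : ℂ))
  exact h2.symm

end XVMn

open XVMn in
theorem pr_VMn (hPos : ∀ f1 f2 : ℕ → ℂ, CM f1 → CM f2 → ∀ ε : ℝ, 0 < ε → Nest fun w K M =>
      -ε ≤ (AvK 1 w K M fun x y z => f1 x * f2 y * conj (f1 z * f2 z)).re)
    (hEv : S_Ev) (hNf : StNf) (hUn : StVUn) (hJ : StVJ) (hJ3 : StVJ3) : StVMn := by
  classical
  intro X mX μ hμ S A hA σ hσ V ε hε
  obtain ⟨J, hJm, hJb, hJI, hJT, hJF⟩ := hJ X mX μ hμ S A hA σ hσ V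
  obtain ⟨σ', hσ', hσe, hσ1⟩ := hJ3 X mX μ hμ S A hA J hJm hJb hJT hJF
  set F : ℕ → ℕ → ℕ → GG → ℝ := fun w K M g =>
    if 1 ≤ K ∧ 1 ≤ M then Set.indicator {1} (fun _ => (1 : ℝ)) g - rA w K M g else 0 with hF
  have hs1 : MeasurableSet ({1} : Set GG) := isClosed_singleton.measurableSet
  have hFm : ∀ w K M, Measurable (F w K M) := by
    intro w K M
    by_cases h : 1 ≤ K ∧ 1 ≤ M
    · simp only [hF, if_pos h]
      exact (measurable_const.indicator hs1).sub (rA_cont hEv w K M h.1 h.2).measurable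
    · simp only [hF, if_neg h]
      exact measurable_const
  have hFb : ∀ w K M g, |F w K M g| ≤ 2 := by
    intro w K M g
    by_cases h : 1 ≤ K ∧ 1 ≤ M
    · simp only [hF, if_pos h]
      have h1 := rA_le hEv w K M h.1 h.2 g
      have h2 : |Set.indicator ({1} : Set GG) (fun _ => (1 : ℝ)) g| ≤ 1 := by
        by_cases hg : g ∈ ({1} : Set GG)
        · rw [Set.indicator_of_mem hg, abs_one]
        · rw [Set.indicator_of_notMem hg, abs_zero]
          exact zero_le_one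
      have h3 := abs_sub (Set.indicator ({1} : Set GG) (fun _ => (1 : ℝ)) g) (rA w K M g)
      linarith
    · simp only [hF, if_neg h, abs_zero]
      norm_num
  have hCMev : ∀ g : GG, CM (ev g) := fun g => ⟨(hEv.1 g).zero, (hEv.1 g).mul, (hEv.1 g).norm⟩
  have hCM1 : CM fun n : ℕ => if n = 0 then (0 : ℂ) else 1 := by
    refine ⟨if_pos rfl, ?_, ?_⟩
    · intro m n
      by_cases hm : m = 0
      · simp [hm]
      · by_cases hn : n = 0
        · simp [hn]
        · simp [hm, hn]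
    · intro n hn
      simp [hn.ne']
  have hNest : ∀ g : GG, ∀ ε : ℝ, 0 < ε → Nest fun w K M => F w K M g ≤ ε := by
    intro g ε hε
    by_cases hg : g = 1
    · subst hg
      refine Filter.Eventually.of_forall fun w => Filter.Eventually.of_forall fun K =>
        Filter.Eventually.of_forall fun M => ?_
      by_cases h : 1 ≤ K ∧ 1 ≤ M
      · simp only [hF, if_pos h]
        rw [rA_one hEv w K M h.1 h.2, Set.indicator_of_mem (Set.mem_singleton _)]
        linarith
      · simp only [hF, if_neg h]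
        exact hε.le
    · have hp := hPos _ _ hCM1 (hCMev g) ε hε
      refine hp.mono fun w hp => hp.mono fun K hp => hp.mono fun M hp => ?_
      by_cases h : 1 ≤ K ∧ 1 ≤ M
      · simp only [hF, if_pos h]
        rw [Set.indicator_of_notMem (by simpa using hg)]
        have he : (AvK 1 w K M fun x y z => (if x = 0 then (0 : ℂ) else 1) * ev g y *
            conj ((if z = 0 then (0 : ℂ) else 1) * ev g z)).re = rA w K M g := by
          obtain ⟨ι, S, X, Y, Z, hS, hpos, hrep⟩ := IAvP.rep 1 w K M h.1 h.2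
          unfold rA
          rw [hrep, hrep]
          congr 2
          refine Finset.sum_congr rfl fun i hi => ?_
          obtain ⟨h1, h2, h3⟩ := hpos i hi
          rw [if_neg h1.ne', if_neg h3.ne', one_mul, one_mul]
        beta_reduce at hp
        rw [he] at hp
        linarith
      · simp only [hF, if_neg h]
        exact hε.le
  have hmain := hNf GG inferInstance σ' hσ' F 2 hFm hFb (Filter.Eventually.of_forall hNest) ε hε
  refine hmain.mono fun w hw => (hw.and (eventually_ge_atTop 1)).mono fun K hK =>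
    (hK.1.and (eventually_ge_atTop 1)).mono fun M hM => ?_
  have hK1 := hK.2
  have hM1 := hM.2
  have h1 := hM.1
  have h2 : (AvK 1 w K M fun x y z => bt S A z (U S x (V.V (b1 σ {1}))) (U S y (b1 μ A))).re =
      ∫ g, rA w K M g ∂σ' := by
    refine main_int hEv w K M hK1 hM1 σ' _ fun x y z hx hy hz => ?_
    rw [bt_eq hUn S A hA _ J hJI hJT x y z hx hy, hσe y z hy hz]
  beta_reduce at h1 ⊢
  rw [h2]
  have h3 : ∫ g, F w K M g ∂σ' = σ'.real {1} - ∫ g, rA w K M g ∂σ' := by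
    simp only [hF, if_pos (And.intro hK1 hM1)]
    rw [integral_sub]
    · rw [integral_indicator_const _ hs1, smul_eq_mul, mul_one]
    · exact (integrable_const (1 : ℝ)).indicator hs1
    · refine Integrable.of_bound (rA_cont hEv w K M hK1 hM1).aestronglyMeasurable 1 ?_
      exact Filter.Eventually.of_forall fun g => rA_le hEv w K M hK1 hM1 g
  rw [h3] at h1
  linarith

end Pool.Agent.F0f91f8.PC
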