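import Pool.Agent.Work.MP_0f91f8_co.FC.I_RB
import Pool.Agent.Work.MP_0f91f8_co.FC.I_RA

/-!
# Block PC: the Hilbert space of a mean with dense bounded functions; the dilations are unitary (helper79)
-/

set_option autoImplicit false

namespace Pool.Agent.F0f91f8.FC

open Filter Topology ComplexConjugate
open Pool.Agent.F0f91f8.HD
open scoped BigOperators

/-- the classes of bounded functions are dense -/
def Dns {m : (ℕ → ℝ) → ℝ} (R : Rep m) : Prop :=
  ∀ (h : R.H) (ε : ℝ), 0 < ε → ∃ F : ℕ → ℂ, BdC F ∧ ‖R.e F - h‖ ≤ ε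

open XRB in
/-- the Hilbert space of a mean, with the density of the bounded functions -/
theorem ex_RepD : ∀ m : (ℕ → ℝ) → ℝ, IsMean m → ∃ R : Rep m, Dns R := by
  intro m hm
  have hA : StRA := pr_RA
  refine ⟨{ H := HM m hm hA
            e := eM m hm hA
            T := TM m hm hA
            B := BM m hm hA
            e_add := ?_
            e_smul := ?_
            e_inner := ?_
            T_one := ?_
            T_mul := ?_
            T_e := ?_
            B_add := ?_
            B_smul := ?_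
            B_symm := ?_
            B_le := ?_
            B_e := ?_
            B_T := ?_ }, ?_⟩
  · intro F G hF hG
    rw [eM_eq m hm hA _ (bd_add hF hG), eM_eq m hm hA _ hF, eM_eq m hm hA _ hG,
      ← UniformSpace.Completion.coe_add]
    rfl
  · intro c F hF
    rw [eM_eq m hm hA _ (bd_smul c hF), eM_eq m hm hA _ hF, ← UniformSpace.Completion.coe_smul]
    rfl
  · intro F G hF hG
    rw [eM_eq m hm hA _ hF, eM_eq m hm hA _ hG, UniformSpace.Completion.inner_coe, inner_def]
    rfl
  · intro h
    induction h using UniformSpace.Completion.induction_on with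
    | hp => exact isClosed_eq (TM m hm hA 1).continuous continuous_id
    | ih a =>
      rw [TM_coe m hm hA 1 one_pos]
      congr 1
      apply XRB.ext
      funext n
      show fn m hm hA a (1 * n) = _
      rw [one_mul]
  · intro k n hk hn h
    induction h using UniformSpace.Completion.induction_on with
    | hp =>
      exact isClosed_eq (TM m hm hA _).continuous
        ((TM m hm hA k).continuous.comp (TM m hm hA n).continuous)
    | ih a =>
      rw [TM_coe m hm hA n hn, TM_coe m hm hA k hk, TM_coe m hm hA (k * n) (Nat.mul_pos hk hn)]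
      congr 1
      apply XRB.ext
      funext j
      show fn m hm hA a (k * n * j) = fn m hm hA a (n * (k * j))
      congr 1
      ring
  · intro k hk F hF
    rw [eM_eq m hm hA _ hF, eM_eq m hm hA _ (bd_dil hF k), TM_coe m hm hA k hk]
    rfl
  · intro b hb h h' k
    unfold BM
    rw [dif_pos hb, dif_pos hb, dif_pos hb, map_add, inner_add_left]
  · intro b hb c h k
    unfold BM
    rw [dif_pos hb, dif_pos hb, ContinuousLinearMap.map_smulₛₗ, inner_smul_left,
      Complex.conj_conj]
  · intro b hb h k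
    induction h, k using UniformSpace.Completion.induction_on₂ with
    | hp =>
      exact isClosed_eq (BM_cont m hm hA b hb)
        ((BM_cont m hm hA b hb).comp (continuous_snd.prodMk continuous_fst))
    | ih F G =>
      rw [BM_coe m hm hA b hb, BM_coe m hm hA b hb]
      congr 1
      funext n
      ring
  · intro b C hC h k
    have hb : BdC b := ⟨C, hC⟩
    induction h, k using UniformSpace.Completion.induction_on₂ with
    | hp =>
      exact isClosed_le (BM_cont m hm hA b hb).norm (by fun_prop)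
    | ih F G =>
      rw [BM_coe m hm hA b hb, UniformSpace.Completion.norm_coe, UniformSpace.Completion.norm_coe,
        norm_eq, norm_eq]
      exact (hA m hm).2.2.2.2.2.2.2 b _ _ C hC (fn_bd m hm hA F) (fn_bd m hm hA G)
  · intro b F G hb hF hG
    rw [eM_eq m hm hA _ hF, eM_eq m hm hA _ hG, BM_coe m hm hA b hb]
    rfl
  · intro b hb n hn h k
    have hb' : BdC (fun j => b (n * j)) := bd_dil hb n
    induction h, k using UniformSpace.Completion.induction_on₂ with
    | hp =>
      exact isClosed_eq ((BM_cont m hm hA _ hb').comp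
        (((TM m hm hA n).continuous.comp continuous_fst).prodMk
          ((TM m hm hA n).continuous.comp continuous_snd))) (BM_cont m hm hA b hb)
    | ih F G =>
      rw [TM_coe m hm hA n hn, TM_coe m hm hA n hn, BM_coe m hm hA _ hb', BM_coe m hm hA b hb]
      exact (hA m hm).2.2.2.2.1 n hn (fun j => b j * fn m hm hA F j * fn m hm hA G j)
        (bd_mul (bd_mul hb (fn_bd m hm hA F)) (fn_bd m hm hA G))

  · intro h ε hε
    obtain ⟨v, hv⟩ := Metric.denseRange_iff.1 (UniformSpace.Completion.denseRange_coe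
      (α := VM m hm hA)) h ε hε
    refine ⟨fn m hm hA v, fn_bd m hm hA v, ?_⟩
    show ‖eM m hm hA (fn m hm hA v) - h‖ ≤ ε
    rw [eM_eq m hm hA _ (fn_bd m hm hA v), el_fn]
    rw [dist_eq_norm, norm_sub_rev] at hv
    exact hv.le

section
variable {m : (ℕ → ℝ) → ℝ}

/-- the dilations are surjective -/
theorem T_surj (R : Rep m) (hD : Dns R) {k : ℕ} (hk : 0 < k) : Function.Surjective (R.T k) := by
  have hcl : IsClosed (Set.range (R.T k)) := (R.T k).isometry.isClosedEmbedding.isClosed_range
  intro h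
  have hmem : h ∈ closure (Set.range (R.T k)) := by
    rw [Metric.mem_closure_iff]
    intro ε hε
    obtain ⟨F, hF, hh⟩ := hD h (ε / 2) (by linarith)
    obtain ⟨C, hC⟩ := hF
    have hF' : BdC (fun n => if k ∣ n then F (n / k) else 0) := by
      refine ⟨C, fun n => ?_⟩
      show ‖(if k ∣ n then F (n / k) else 0 : ℂ)‖ ≤ C
      split_ifs
      · exact hC _
      · rw [norm_zero]
        exact (norm_nonneg _).trans (hC 0)
    refine ⟨R.T k (R.e fun n => if k ∣ n then F (n / k) else 0), ⟨_, rfl⟩, ?_⟩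
    rw [R.T_e k hk _ hF']
    have h1 : (fun n => if k ∣ k * n then F (k * n / k) else 0) = F := by
      funext n
      rw [if_pos (Dvd.intro n rfl), Nat.mul_div_cancel_left n hk]
    rw [h1, dist_eq_norm, norm_sub_rev]
    linarith
  rw [hcl.closure_eq] at hmem
  exact hmem

/-- the dilations as unitary operators (`k = 0`: identity) -/
noncomputable def TE (R : Rep m) (hD : Dns R) (k : ℕ) : R.H ≃ₗᵢ[ℂ] R.H :=
  if hk : 0 < k then LinearIsometryEquiv.ofSurjective (R.T k) (T_surj R hD hk)
  else LinearIsometryEquiv.refl ℂ R.H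

theorem TE_apply (R : Rep m) (hD : Dns R) {k : ℕ} (hk : 0 < k) (h : R.H) :
    TE R hD k h = R.T k h := by
  unfold TE
  rw [dif_pos hk]
  rfl

theorem TE_mul (R : Rep m) (hD : Dns R) {j k : ℕ} (hj : 0 < j) (hk : 0 < k) (h : R.H) :
    TE R hD (j * k) h = TE R hD j (TE R hD k h) := by
  rw [TE_apply R hD (Nat.mul_pos hj hk), TE_apply R hD hj, TE_apply R hD hk,
    R.T_mul j k hj hk]

theorem TE_one (R : Rep m) (hD : Dns R) (h : R.H) : TE R hD 1 h = h := by
  rw [TE_apply R hD one_pos, R.T_one]

theorem B_add_right (R : Rep m) {b : ℕ → ℂ} (hb : BdC b) (h k k' : R.H) :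
    R.B b h (k + k') = R.B b h k + R.B b h k' := by
  rw [R.B_symm b hb h (k + k'), R.B_add b hb, R.B_symm b hb k h, R.B_symm b hb k' h]

theorem B_smul_right (R : Rep m) {b : ℕ → ℂ} (hb : BdC b) (c : ℂ) (h k : R.H) :
    R.B b h (c • k) = c * R.B b h k := by
  rw [R.B_symm b hb h (c • k), R.B_smul b hb, R.B_symm b hb k h]

theorem B_sub_right (R : Rep m) {b : ℕ → ℂ} (hb : BdC b) (h k k' : R.H) :
    R.B b h (k - k') = R.B b h k - R.B b h k' := by
  rw [sub_eq_add_neg, ← neg_one_smul ℂ k', B_add_right R hb, B_smul_right R hb]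
  ring

/-- exchange of the bounded functions -/
theorem B_swap (R : Rep m) (hD : Dns R) {b F : ℕ → ℂ} (hb : BdC b) (hF : BdC F) (h : R.H) :
    R.B b (R.e F) h = R.B F (R.e b) h := by
  obtain ⟨Cb, hCb⟩ := hb
  obtain ⟨CF, hCF⟩ := hF
  have hb : BdC b := ⟨Cb, hCb⟩
  have hF : BdC F := ⟨CF, hCF⟩
  have hCb0 : 0 ≤ Cb := (norm_nonneg _).trans (hCb 0)
  have hCF0 : 0 ≤ CF := (norm_nonneg _).trans (hCF 0)
  rw [← sub_eq_zero, ← norm_eq_zero]
  refine le_antisymm (le_of_forall_pos_le_add fun ε hε => ?_) (norm_nonneg _)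
  rw [zero_add]
  set D : ℝ := Cb * ‖R.e F‖ + CF * ‖R.e b‖ + 1 with hDdef
  have hD0 : 0 < D := by positivity
  obtain ⟨G, hG, hh⟩ := hD h (ε / D) (div_pos hε hD0)
  have h1 : R.B b (R.e F) (R.e G) = R.B F (R.e b) (R.e G) := by
    rw [R.B_e b F G hb hF hG, R.B_e F b G hF hb hG]
    congr 1
    funext n
    ring
  have h2 : R.B b (R.e F) h - R.B F (R.e b) h =
      R.B F (R.e b) (R.e G - h) - R.B b (R.e F) (R.e G - h) := by
    rw [B_sub_right R hF, B_sub_right R hb, h1]
    ring
  rw [h2]
  refine (norm_sub_le _ _).trans ?_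
  have h3 := R.B_le F CF hCF (R.e b) (R.e G - h)
  have h4 := R.B_le b Cb hCb (R.e F) (R.e G - h)
  have h5 : CF * ‖R.e b‖ * ‖R.e G - h‖ + Cb * ‖R.e F‖ * ‖R.e G - h‖ ≤ D * (ε / D) := by
    have h6 : CF * ‖R.e b‖ * ‖R.e G - h‖ + Cb * ‖R.e F‖ * ‖R.e G - h‖ ≤
        D * ‖R.e G - h‖ := by
      rw [hDdef]
      nlinarith [norm_nonneg (R.e G - h)]
    exact h6.trans (mul_le_mul_of_nonneg_left hh hD0.le)
  have h7 : D * (ε / D) = ε := by
    field_simp
  linarith

end

end Pool.Agent.F0f91f8.FC
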