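import Pool.Agent.Work.MP_0f91f8_co.PC.StmtsV
import Pool.Agent.Work.MP_0f91f8_co.KT.PosD

/-!
# Block PC, module CP, pretentious pairs (2c): statements with complete proofs (helper43)

Item `X`: statement `StX`, file `PC/I_X.lean`, theorem `pr_X`, namespace `Pool.Agent.F0f91f8.PC`. Earlier items may be
taken as hypotheses, as said in the docstring. `κ = kR 1 w K e`, `k = kK 1 w K e'`; `2 κ = 2 w! (kp w K e)`.
-/

set_option autoImplicit false

namespace Pool.Agent.F0f91f8.PC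

open Filter Topology ComplexConjugate MeasureTheory
open Pool.Agent.F0f91f8.HD Pool.Agent.F0f91f8.RC Pool.Agent.F0f91f8.KR Pool.Agent.F0f91f8.FC
open Pool.Agent.Work.MP_0f91f8_co.EF (GG ev S_Ev)
open scoped BigOperators

/-! ## 1. Averages -/

/-- the average over all parameters of the family, complex values -/
noncomputable def avC (w K M : ℕ)
    (F : (Fin (w + 1) → Fin K) → (Fin (K + 1) → Fin K) → ℕ → ℕ → ℂ) : ℂ :=
  (∑ e : Fin (w + 1) → Fin K, ∑ e' : Fin (K + 1) → Fin K,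
    BxR w.factorial (DR 1 w K) 1 M (F e e')) / ((K : ℂ) ^ (w + 1) * (K : ℂ) ^ (K + 1))

/-- the average over all parameters of the family, real values -/
noncomputable def avR (w K M : ℕ)
    (F : (Fin (w + 1) → Fin K) → (Fin (K + 1) → Fin K) → ℕ → ℕ → ℝ) : ℝ :=
  (∑ e : Fin (w + 1) → Fin K, ∑ e' : Fin (K + 1) → Fin K,
    BR w.factorial (DR 1 w K) 1 M fun a s => F e e' a (w.factorial * s + 1)) /
    ((K : ℝ) ^ (w + 1) * (K : ℝ) ^ (K + 1))

/-- [PAv] (EASY) rules. The first clause is `rfl`. All are immediate from the definitions: nested finite sums divided by the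
number of terms (for `K = 0` or `M = 0` everything is `0`); see `pr_DBx`, `K/I_KMo.lean`, `K/I_KRe.lean`. In the last clause exchange the
sums over `e` and `e'` and move the sum over `e` inside (`Finset.sum_comm`): the average is
`K^(-K-1) ∑ e', BxR (fun a n => (∑ e, F e e' a n) / K^(w+1))`. -/
def StPAv : Prop := ∀ w K M : ℕ,
  (∀ Φ : ℕ → ℕ → ℕ → ℂ, AvK 1 w K M Φ = avC w K M fun e e' a n =>
    Φ (tX (kR 1 w K e) (kK 1 w K e') a n) (tY (kR 1 w K e) (kK 1 w K e') a n)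
      (tZ (kR 1 w K e) (kK 1 w K e') a n)) ∧
  (∀ F G, ‖avC w K M F - avC w K M G‖ ≤
    avR w K M fun e e' a n => ‖F e e' a n - G e e' a n‖) ∧
  (∀ F G, (∀ e e' a n, 0 < a → 0 < n → F e e' a n ≤ G e e' a n) →
    avR w K M F ≤ avR w K M G) ∧
  (∀ F G, avR w K M (fun e e' a n => F e e' a n + G e e' a n) = avR w K M F + avR w K M G) ∧
  (∀ (c : ℝ) F, avR w K M (fun e e' a n => c * F e e' a n) = c * avR w K M F) ∧
  (∀ c : ℝ, 0 ≤ c → avR w K M (fun _ _ _ _ => c) ≤ c) ∧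
  (∀ (F : (Fin (w + 1) → Fin K) → (Fin (K + 1) → Fin K) → ℕ → ℕ → ℝ) (c : ℝ), 0 ≤ c →
    (∀ e e', (BR w.factorial (DR 1 w K) 1 M fun a s => F e e' a (w.factorial * s + 1)) ≤ c) →
    avR w K M F ≤ c) ∧
  (∀ (Y : Type) (_ : MeasurableSpace Y) (ν : Measure Y)
    (F : (Fin (w + 1) → Fin K) → (Fin (K + 1) → Fin K) → ℕ → ℕ → Y → ℝ),
    (∀ e e' a n, Integrable (F e e' a n) ν) →
    avR w K M (fun e e' a n => ∫ y, F e e' a n y ∂ν) =
      ∫ y, avR w K M (fun e e' a n => F e e' a n y) ∂ν) ∧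
  ∀ (F : (Fin (w + 1) → Fin K) → (Fin (K + 1) → Fin K) → ℕ → ℕ → ℂ) (c : ℝ), 0 ≤ c →
    (∀ e' a n, 0 < a → 0 < n →
      ‖(∑ e : Fin (w + 1) → Fin K, F e e' a n) / (K : ℂ) ^ (w + 1)‖ ≤ c) → ‖avC w K M F‖ ≤ c

/-! ## 2. Hilbert space -/

/-- `bz(H, G) = ∫ 1_A H G dμ` -/
noncomputable def bz {X : Type} [MeasurableSpace X] (μ : Measure X) (A : Set X)
    (H G : Lp ℂ 2 μ) : ℂ := ∫ x, A.indicator (fun _ => (1 : ℂ)) x * H x * G x ∂μ

/-- [PBz] (EASY) `bz` is bilinear and bounded by the product of the norms. `1_A H G` is integrable (`MemLp` of `H` and `G`, exponents `2`, `2`, and `1_A` is bounded and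
measurable), `‖∫ 1_A H G‖ ≤ ∫ ‖H‖ ‖G‖ ≤ ‖H‖ ‖G‖` (Cauchy-Schwarz; e.g. `bz H G = inner ℂ (K) G` where `K ∈ L²` is the class of `1_A conj H`, `L2.inner_def`,
`norm_inner_le_norm`, `‖K‖ ≤ ‖H‖` by `Lp.norm_le_norm_of_ae_le`). -/
def StPBz : Prop := ∀ (X : Type) (_ : MeasurableSpace X) (μ : Measure X) (_ : IsProbabilityMeasure μ)
  (A : Set X), MeasurableSet A →
  (∀ H H' G, bz μ A (H + H') G = bz μ A H G + bz μ A H' G) ∧
  (∀ (c : ℂ) H G, bz μ A (c • H) G = c * bz μ A H G) ∧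
  (∀ H G, bz μ A H G = bz μ A G H) ∧
  ∀ H G, ‖bz μ A H G‖ ≤ ‖H‖ * ‖G‖

/-- [PBl] (EASY) classes of bounded measurable functions. `MemLp` on a finite measure space (`MemLp.of_bound`), `bl = toLp` (`dif_pos`), `MemLp.toLp_add`,
`MemLp.toLp_const_smul`, `‖toLp φ‖² = ∫ ‖φ‖²` (`Lp.norm_toLp`, `eLpNorm` for `2`, or `L2.inner_def` with `inner_self_eq_norm_sq`). -/
def StPBl : Prop := ∀ (Y : Type) (_ : MeasurableSpace Y) (ν : Measure Y) (_ : IsFiniteMeasure ν)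
  (φ ψ : Y → ℂ) (C : ℝ), Measurable φ → Measurable ψ → (∀ y, ‖φ y‖ ≤ C) → (∀ y, ‖ψ y‖ ≤ C) →
  MemLp φ 2 ν ∧ (bl ν fun y => φ y + ψ y) = bl ν φ + bl ν ψ ∧
  (bl ν fun y => φ y - ψ y) = bl ν φ - bl ν ψ ∧
  (∀ c : ℂ, (bl ν fun y => c * φ y) = c • bl ν φ) ∧
  ‖bl ν φ‖ ^ 2 = ∫ y, ‖φ y‖ ^ 2 ∂ν

/-- [PAl] (EASY) the algebra of the trilinear form. `V.mul`: `U S x (V (bl φ)) = V (bl (ev x φ)) = V (bl (ev z (ev x conj (ev z) φ))) = U S z (V (bl (ev x conj (ev z) φ)))` since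
`ev z conj (ev z) = 1` (`S_Ev`: modulus one; functions equal everywhere); `MemLp` of a product with a bounded continuous function. The same for `y`, `ψ`. Then
`bt S A z (U S z H) (U S z G) = ∫ 1_A(T z x) H(T z x) G(T z x) = ∫ 1_A H G` (`StVUn` for the first equation, almost everywhere; `S.mp z`, `MeasurePreserving.integral_comp'` for the
measurable equivalence `S.T z`). (hEv : S_Ev) (hUn : StVUn) -/
def StPAl : Prop := ∀ (X : Type) (_ : MeasurableSpace X) (μ : Measure X) (_ : IsProbabilityMeasure μ)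
  (S : Sys μ) (A : Set X), MeasurableSet A → ∀ (F : Lp ℂ 2 μ) (σ : Measure GG)
  (_ : IsFiniteMeasure σ) (V : SpV S F σ) (φ ψ : GG → ℂ), MemLp φ 2 σ → MemLp ψ 2 σ →
  ∀ x y z : ℕ, 0 < x → 0 < y → 0 < z →
    bt S A z (U S x (V.V (bl σ φ))) (U S y (V.V (bl σ ψ))) =
      bz μ A (V.V (bl σ fun g => ev g x * conj (ev g z) * φ g))
        (V.V (bl σ fun g => ev g y * conj (ev g z) * ψ g))

/-! ## 3. Pointwise -/

/-- [PPt] (EASY-MEDIUM) a pretentious function on the family: the factor `f (kp w K e)` splits off. `Dec f g t q` (`pr_DDe`). As in `PosD.prod_main` (`KT/PosD.lean`): by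
`all_RPZ` (conjugated, see `p1'` there) `f x conj f z = f (2 κ) B` up to `PosD.HZ g t w K κ k M a n`, where `B` (`conj cQ cL (f n conj (..) conj gP)`) does not depend on `κ`. Use it for `κ = kR 1 w K e`
and for `κ = w!` (which is `kR 1 w K e₀` with `e₀ = 0`, `kp w K e₀ = 1`; `K ≥ 1`); `f (2 κ) = f (kp w K e) f (2 w!)`. So the first function is at most `HZ` for `e` plus `HZ` for `e₀`. By `all_RPY` the second one
is at most `HY` for `e` plus `HY` for `e₀`. `PosD.err` bounds the averages by `C eT g t w K + η`, and `eT → 0` in the nested limit (`IKTr.eT_le`, `ev_inv`, `ev_of`, `pr_DTl`, as in `posPret`). -/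
def StPPt : Prop := ∀ f : ℕ → ℂ, CM f → Pret f → ∀ ε : ℝ, 0 < ε → Nest fun w K M =>
  ∀ (e : Fin (w + 1) → Fin K) (e' : Fin (K + 1) → Fin K),
    (BR w.factorial (DR 1 w K) 1 M fun a s =>
      ‖f (tX (kR 1 w K e) (kK 1 w K e') a (w.factorial * s + 1)) *
          conj (f (tZ (kR 1 w K e) (kK 1 w K e') a (w.factorial * s + 1))) -
        f (kp w K e) * (f (tX w.factorial (kK 1 w K e') a (w.factorial * s + 1)) *
          conj (f (tZ w.factorial (kK 1 w K e') a (w.factorial * s + 1))))‖) ≤ ε ∧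
    (BR w.factorial (DR 1 w K) 1 M fun a s =>
      ‖f (tY (kR 1 w K e) (kK 1 w K e') a (w.factorial * s + 1)) *
          conj (f (tZ (kR 1 w K e) (kK 1 w K e') a (w.factorial * s + 1))) -
        f (tY w.factorial (kK 1 w K e') a (w.factorial * s + 1)) *
          conj (f (tZ w.factorial (kK 1 w K e') a (w.factorial * s + 1)))‖) ≤ ε

/-- [PKp] (EASY) averages over the exponents. If some `f p ≠ 1`: for `w ≥ p` the norm is `≤ 2 / (K ‖1 - f p‖)` (`pr_RKp pr_DKp` with `E = 1`, as in `posPret` of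
`KT/PosD.lean`). -/
def StPKp : Prop := ∀ f : ℕ → ℂ, CM f → (∃ p : ℕ, p.Prime ∧ f p ≠ 1) → ∀ ε : ℝ, 0 < ε →
  Nest fun w K _ => ‖(∑ e : Fin (w + 1) → Fin K, f (kp w K e)) / (K : ℂ) ^ (w + 1)‖ ≤ ε

/-- [PRl] (EASY) a function at finite distance of a pretentious one is pretentious: `q`, `χ`, `t` of `ev χ`, `‖ev g p - D‖² ≤ 2 ‖ev g p - ev χ p‖² + 2 ‖ev χ p - D‖²`, and
`‖ev g p - ev χ p‖ = ‖1 - conj..‖ = ‖1 - g p conj (χ p)‖` (`ev g p = g p` for primes: `EF` lemma `pr_prime`, modulus one). (hEv : S_Ev) -/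
def StPRl : Prop := ∀ g χ : GG, Rl g χ → Pret (ev χ) → Pret (ev g)

/-! ## 4. Assembly -/

/-- [PFi] (MEDIUM, helper43) both functions live on pretentious characters. Write `x₀ = tX w! k a n` etc., `H = V (bl (ev x conj (ev z) φ))`, `G = V (bl (ev y conj (ev z) ψ))`,
`H' = V (bl (ev (kp w K e) (ev x₀ conj (ev z₀)) φ))`, `G' = V (bl (ev y₀ conj (ev z₀) ψ))`; `|bz H G - bz H' G'| ≤ L (‖H - H'‖ + ‖G - G'‖)`, `t ≤ δ + t²/δ`,
`avR ‖H - H'‖² ≤ ∫ 2 avR |..| |φ| dσ` small by `StPPt` and `StNf`. The average of `bz H' G'` over `e` is `bz (V (bl ((avg ev (kp)) ..))) G'`, norm `≤ L (∫ |avg ev (kp)| |φ| dσ)^(1/2)`, small by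
`StPKp` and `StNf`. (hEv hNf hAv hBz hBl hAl hPt hKp) -/
def StPFi : Prop := ∀ (X : Type) (_ : MeasurableSpace X) (μ : Measure X) (_ : IsProbabilityMeasure μ)
  (S : Sys μ) (A : Set X), MeasurableSet A → ∀ (F : Lp ℂ 2 μ) (σ : Measure GG)
  (_ : IsFiniteMeasure σ) (V : SpV S F σ) (φ ψ : GG → ℂ), Measurable φ → Measurable ψ →
  (∀ g, ‖φ g‖ ≤ 1) → (∀ g, ‖ψ g‖ ≤ 1) → (∀ g, φ g ≠ 0 → Pret (ev g) ∧ g ≠ 1) →
  (∀ g, ψ g ≠ 0 → Pret (ev g)) → ∀ ε : ℝ, 0 < ε → Nest fun w K M =>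
    ‖AvK 1 w K M fun x y z => bt S A z (U S x (V.V (bl σ φ))) (U S y (V.V (bl σ ψ)))‖ ≤ ε

/-- (2b), module CP of helper75: one of the two characters is not pretentious -/
def StNPc : Prop := ∀ (X : Type) (_ : MeasurableSpace X) (μ : Measure X) (_ : IsProbabilityMeasure μ)
  (S : Sys μ) (A : Set X), MeasurableSet A → ∀ (σ : Measure GG) (_ : IsFiniteMeasure σ)
  (V : SpV S (b1 μ A) σ) (χ χ' : GG), (¬ Pret (ev χ) ∨ ¬ Pret (ev χ')) → ∀ ε : ℝ, 0 < ε →
  Nest fun w K M =>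
    ‖AvK 1 w K M fun x y z => bt S A z (U S x (V.V (b1 σ (cls χ \ {1})))) (U S y (V.V (b1 σ (cls χ'))))‖
      ≤ ε

/-- classes are measurable (module of helper75) -/
def StClm : Prop := ∀ χ : GG, MeasurableSet (cls χ)

/-- [PCl] (EASY, helper43) the interface statement `ClpS`. (hNPc : StNPc) (hClm : StClm) (hRl : StPRl) (hFi : StPFi) -/
def StPCl : Prop := ClpS

end Pool.Agent.F0f91f8.PC
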