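import Pool.Agent.Work.MP_0f91f8_co.PC.StmtsC
import Pool.Agent.Work.MP_0f91f8_co.PC.StmtsV
import Pool.Agent.Work.MP_0f91f8_co.PC.StmtsP
import Pool.Agent.Work.MP_0f91f8_co.PC.I_DX

/-!
# Block PC, `ClsS` and pairs of classes, one of them not pretentious: statements with proofs (helper75)

Item `X`: statement `StX`, file `PC/I_X.lean`, theorem `pr_X`, namespace `Pool.Agent.F0f91f8.PC`. Earlier items and the items
`StCU`, `StCB`, `StCV` of `StmtsC.lean` may be taken as hypotheses. Facts on `ev`: `EF/Ev.lean` (`Ev_pf`: `ev g` is completely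
multiplicative, unimodular at `n > 0`, continuous in `g`, `ev (g h) n = ev g n ev h n`); for a prime `p` one has `ev g p = g p`.
-/

set_option autoImplicit false

namespace Pool.Agent.F0f91f8.PC

open Filter Topology ComplexConjugate MeasureTheory
open Pool.Agent.F0f91f8.HD Pool.Agent.F0f91f8.RC Pool.Agent.F0f91f8.KR Pool.Agent.F0f91f8.FC
open Pool.Agent.Work.MP_0f91f8_co.EF (GG ev)
open scoped BigOperators

/-! ## 1. Classes -/

/-- [BEq] (EASY) `Rl` is an equivalence relation. `g conj g = 1` on the circle; `‖1 - g conj g'‖ = ‖1 - g' conj g‖` (conjugation);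
`1 - a conj c = (1 - a conj b) + a conj b (1 - b conj c)` for `‖b‖ = 1`, so
`‖1 - a conj c‖² ≤ 2 ‖1 - a conj b‖² + 2 ‖1 - b conj c‖²`, comparison (`Summable.of_nonneg_of_le`). -/
def StBEq : Prop := (∀ g : GG, Rl g g) ∧ (∀ g g' : GG, Rl g g' → Rl g' g) ∧
  ∀ g g' g'' : GG, Rl g g' → Rl g' g'' → Rl g g''

/-- [BMe] (EASY-MEDIUM) measurability. All terms are `≥ 0`, so `Rl g g'` iff there is `C : ℕ` with `∑ p ∈ s, .. ≤ C` for all finite sets `s`
of primes (`summable_of_sum_le`, `Summable.sum_le_tsum`): a countable union over `C` of an intersection of closed sets (an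
intersection of closed sets is closed). The finite sums are continuous on `GG × GG`; `GG` is second countable, so the product σ-algebra
is the Borel one (`Prod.opensMeasurableSpace` and the like). `cls χ` is the preimage under the measurable map `g ↦ (g, χ)`. -/
def StBMe : Prop := MeasurableSet {p : GG × GG | Rl p.1 p.2} ∧ ∀ χ : GG, MeasurableSet (cls χ)

/-- [BCl] (MEDIUM) `ClsS`. Let `s : Setoid GG` be given by `Rl` (`StBEq`). The sets `As q = cls q.out`, `q : Quotient s`, are measurable and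
pairwise disjoint, so the set `P` of the `q` with `0 < σ (As q)` is countable (`Measure.countable_meas_pos_of_disjoint_iUnion`); let
`i : P → ℕ` be injective. `C j = cls q.out` and `χ j = q.out` if `j = i q`, else `C j = ∅`, `χ j = 1`. For `E = (⋃ C j)ᶜ`:
`measure_prod_null` (the set is measurable by `StBMe`): the section at `x ∉ E` is empty; the section at `x ∈ E` is contained in `cls x` (symmetry),
which is `As q` for the class `q` of `x`; if it had positive measure, `x ∈ cls q.out = C (i q)`, a contradiction.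
(hEq : StBEq) (hMe : StBMe) -/
def StBCl : Prop := ClsS

/-! ## 2. Functions -/

/-- [BGa] (EASY) the quotient is at finite distance from `1`. `CM`: `ev 0 = 0`, multiplicativity, modulus one. The summability is `Rl`
(`ev g p = g p` for primes; as `p : Nat.Primes`). -/
def StBGa : Prop := ∀ g χ : GG, Rl g χ → G1 fun n => ev g n * conj (ev χ n)

/-! ## 3. Finite averages -/

/-- the index set of the averages `BFK 1 w K M` -/
def IF (w K M : ℕ) : Finset (ℕ × ℕ × ℕ × ℕ) :=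
  Finset.Icc 1 M ×ˢ (Finset.Icc 1 M ×ˢ
    (Finset.Icc 1 (DR 1 w K * M) ×ˢ Finset.Icc 1 (DR 1 w K * M)))

/-- the value of `a` -/
def aI (w : ℕ) (i : ℕ × ℕ × ℕ × ℕ) : ℕ := w.factorial * (i.2.2.1 + i.2.2.2) + 1

/-- the value of `n` -/
def nI (w : ℕ) (i : ℕ × ℕ × ℕ × ℕ) : ℕ := w.factorial * (i.1 + i.2.1) + 1

/-- [BIf] (EASY) unfold `BFK`, `BxR`, `Bx`; `Finset.sum_product`; `DR 1 w K = K² w! w!^K > 0`; `kR`, `kK`, `aI`, `nI` are positive
(products of powers of primes), `tX, tY, tZ` of positive parameters are positive. -/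
def StBIf : Prop := ∀ w K M : ℕ, 0 < K → 0 < M → (IF w K M).Nonempty ∧
  (∀ G : ℕ → ℕ → ℂ,
    BFK 1 w K M G = (∑ i ∈ IF w K M, G (aI w i) (nI w i)) / ((IF w K M).card : ℂ)) ∧
  ∀ (e : Fin (w + 1) → Fin K) (e' : Fin (K + 1) → Fin K), ∀ i ∈ IF w K M,
    0 < tX (kR 1 w K e) (kK 1 w K e') (aI w i) (nI w i) ∧
    0 < tY (kR 1 w K e) (kK 1 w K e') (aI w i) (nI w i) ∧
    0 < tZ (kR 1 w K e) (kK 1 w K e') (aI w i) (nI w i)

/-- [BVr] (EASY) variance. With `m` the mean: `∑ ‖F i - m‖² = ∑ ‖F i‖² - |I| ‖m‖²` (expand the inner products), and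
`(∑ ‖F i - m‖/|I|)² ≤ ∑ ‖F i - m‖²/|I|` (Cauchy-Schwarz, `inner_mul_le_norm_mul_norm` or `sq_sum_le_card_mul_sum_sq`). -/
def StBVr : Prop := ∀ (H : Type) (_ : NormedAddCommGroup H) (_ : InnerProductSpace ℂ H) (ι : Type)
  (I : Finset ι), I.Nonempty → ∀ F : ι → H,
  (∑ i ∈ I, ‖F i - (I.card : ℂ)⁻¹ • ∑ j ∈ I, F j‖) / (I.card : ℝ) ≤
    Real.sqrt ((∑ i ∈ I, ‖F i‖ ^ 2) / (I.card : ℝ) - ‖(I.card : ℂ)⁻¹ • ∑ j ∈ I, F j‖ ^ 2)

/-- [BSp] (EASY-MEDIUM) norms of linear combinations. `V.mul` with the function `1_E` (`b1 σ E = bl σ 1_E`; bounded measurable functions are in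
`L²` of the finite measure): `U S n (V (1_E)) = V (bl (ev · n 1_E))`. `V` is a linear isometry, `bl` is linear on functions in `L²`
(`MemLp.toLp_add`, `MemLp.toLp_const_smul`), so the vector is `V (bl φ)`, `φ g = (∑ c i ev g (x i)) 1_E(g)`, and
`‖bl φ‖² = ∫ ‖φ‖²` (`MeasureTheory.L2.inner_def` or `Lp.norm_toLp`, `eLpNorm`), `∫ ‖φ‖² = ∫_E ‖∑ ..‖²` (`integral_indicator`). -/
def StBSp : Prop := ∀ (X : Type) (_ : MeasurableSpace X) (μ : Measure X) (_ : IsProbabilityMeasure μ)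
  (S : Sys μ) (F : Lp ℂ 2 μ) (σ : Measure GG) (_ : IsFiniteMeasure σ) (V : SpV S F σ) (E : Set GG),
  MeasurableSet E → ∀ (ι : Type) (I : Finset ι) (c : ι → ℂ) (x : ι → ℕ), (∀ i ∈ I, 0 < x i) →
  ‖∑ i ∈ I, c i • U S (x i) (V.V (b1 σ E))‖ ^ 2 =
    ∫ g in E, ‖∑ i ∈ I, c i * ev g (x i)‖ ^ 2 ∂σ

/-- [BTf] (MEDIUM) the trilinear form at a mean. Choose `B ≥ 0` and `H' ∈ L²` with `‖H' x‖ ≤ B` almost everywhere and `‖H - H'‖ ≤ η` (e.g. a
simple function, `Lp.simpleFunc.denseRange` / `Lp.simpleFunc.isDenseInducing`, or truncation as in the proof of `StCT`). Let `P` be the mean of the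
`c j • U (x j) H'`: `‖P‖ ≤ B` almost everywhere (`T (x j)` preserves `μ`, `StCU`), and the mean of the `c j • U (x j) H` differs from it by at most
`η` in norm. The part with the difference is `≤ η ‖G‖` (`StCB`). The other part is `∫ Φ P G dμ` with `Φ t = |I|⁻¹ ∑ d i 1_A(T (z i) t)`,
the function of the vector `|I|⁻¹ ∑ d i • U (z i) (b1 μ A)`, and `|∫ Φ P G| ≤ B ∫ |Φ| |G| ≤ B ‖Φ‖ ‖G‖`. (hU : StCU) (hB : StCB) -/
def StBTf : Prop := ∀ (X : Type) (_ : MeasurableSpace X) (μ : Measure X) (_ : IsProbabilityMeasure μ)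
  (S : Sys μ) (A : Set X), MeasurableSet A → ∀ (H : Lp ℂ 2 μ) (η : ℝ), 0 < η → ∃ B : ℝ, 0 ≤ B ∧
  ∀ (ι : Type) (I : Finset ι), I.Nonempty → ∀ (c d : ι → ℂ) (x z : ι → ℕ),
  (∀ i ∈ I, ‖c i‖ ≤ 1 ∧ ‖d i‖ ≤ 1 ∧ 0 < x i ∧ 0 < z i) → ∀ G : Lp ℂ 2 μ,
    ‖(∑ i ∈ I, d i * bt S A (z i) ((I.card : ℂ)⁻¹ • ∑ j ∈ I, c j • U S (x j) H) G) /
      (I.card : ℂ)‖ ≤
      (B * ‖(I.card : ℂ)⁻¹ • ∑ i ∈ I, d i • U S (z i) (b1 μ A)‖ + η) * ‖G‖

/-- [BAs] (MEDIUM) two means. `H = V (b1 σ E)`, `G = V (b1 σ E')` have norm `≤ 1` and `‖H‖² = σ.real E` (`StCV`). `B` from `StBTf` for `H`, `η`. Put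
`u i = ev χ (x i)`, `v i = ev χ' (y i)` (modulus one), `F i = conj (u i) • U (x i) H`, `G i = conj (v i) • U (y i) G`, with means `F`, `G'`. Then
`bt (z i) (U (x i) H) (U (y i) G) = u i v i bt (z i) (F i) (G i)`, and
`bt (F i) (G i) = bt (F i - F) (G i) + bt F (G i - G') + bt F G'`. The first sum is at most the mean of the `‖F i - F‖`, the second at most the
mean of the `‖G i - G'‖` (norms `≤ 1`), and by `StBVr`, `StBSp` (`c i = conj (u i)/|I|`) these are at most the two square roots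
(`‖F i‖² = ‖H‖² = ∫_E 1`). The third is `≤ (B ‖Φ‖ + η) ‖G'‖` by `StBTf` with `c i = conj (u i)`, `d i = u i v i`, and `‖Φ‖²` is the last integral
(`StBSp` with `E = univ`, `V.one`). Symmetry and additivity of `bt`: `StCB`.
(hU : StCU) (hB : StCB) (hV : StCV) (hVr : StBVr) (hSp : StBSp) (hTf : StBTf) -/
def StBAs : Prop := ∀ (X : Type) (_ : MeasurableSpace X) (μ : Measure X) (_ : IsProbabilityMeasure μ)
  (S : Sys μ) (A : Set X), MeasurableSet A → ∀ (σ : Measure GG) (_ : IsFiniteMeasure σ)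
  (V : SpV S (b1 μ A) σ) (E E' : Set GG), MeasurableSet E → MeasurableSet E' →
  ∀ η : ℝ, 0 < η → ∃ B : ℝ, 0 ≤ B ∧
  ∀ (χ χ' : GG) (ι : Type) (I : Finset ι), I.Nonempty → ∀ x y z : ι → ℕ,
  (∀ i ∈ I, 0 < x i ∧ 0 < y i ∧ 0 < z i) →
  ‖(∑ i ∈ I, bt S A (z i) (U S (x i) (V.V (b1 σ E))) (U S (y i) (V.V (b1 σ E')))) /
    (I.card : ℂ)‖ ≤
    Real.sqrt (∫ g in E, (1 - ‖(∑ i ∈ I, ev g (x i) * conj (ev χ (x i))) / (I.card : ℂ)‖ ^ 2) ∂σ) +
    Real.sqrt (∫ g in E', (1 - ‖(∑ i ∈ I, ev g (y i) * conj (ev χ' (y i))) / (I.card : ℂ)‖ ^ 2) ∂σ) +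
    B * Real.sqrt (∫ g, ‖(∑ i ∈ I, ev χ (x i) * ev χ' (y i) * ev g (z i)) / (I.card : ℂ)‖ ^ 2 ∂σ) +
    η

/-! ## 4. Arithmetic input -/

/-- [BAp] (EASY-MEDIUM) `ev χ` or `ev χ'` is aperiodic (`PretStmt`, contrapositive), all three functions are `CM` (`EF/Ev.lean`), so the averages tend
to `0` for every `g` (`Aper3`); they are bounded by `1` and continuous in `g` (finite sums): dominated convergence.
(hA : Aper3) (hP : PretStmt) -/
def StBAp : Prop := ∀ (σ : Measure GG) (_ : IsFiniteMeasure σ) (χ χ' : GG),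
  (¬ Pret (ev χ) ∨ ¬ Pret (ev χ')) → ∀ κ k Q D : ℕ, 0 < κ → 0 < k → 0 < Q → 0 < D →
  Tendsto (fun M : ℕ => ∫ g, ‖BxR Q D 1 M fun a n =>
    ev χ (tX κ k a n) * ev χ' (tY κ k a n) * ev g (tZ κ k a n)‖ ^ 2 ∂σ) atTop (𝓝 0)

/-- [BCx] (MEDIUM) concentration on a part of a class. For `(e, e')` let `f w K M (e, e') g = 1_E(g) (1 - ‖BFK ..‖²)`, with `tX`, and the same with `tY`:
values in `[0, 1]` (`‖BFK‖ ≤ 1` for functions bounded by `1`), measurable (`BFK` is a finite sum of continuous functions). Let `F w K M g` be the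
supremum over all `(e, e')` and over the two cases (finitely many; a real `iSup` over an empty type is `0`). `StDX` for
`ψ = ev g conj (ev χ)` (`StBGa`, `g ∈ E ⊆ cls χ`) gives `Nest (F w K M g ≤ ε)` for every `g` (`0` outside `E`), and `StNf` (`StmtsV.lean`, `C = 1`)
gives `Nest (∫ F ≤ ε)`; the integrals of the claim are `≤ ∫ F`. (hX : StDX) (hGa : StBGa) (hNf : StNf) -/
def StBCx : Prop := ∀ (σ : Measure GG) (_ : IsFiniteMeasure σ) (χ : GG) (E : Set GG),
  MeasurableSet E → E ⊆ cls χ → ∀ ε : ℝ, 0 < ε → Nest fun w K M =>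
  ∀ (e : Fin (w + 1) → Fin K) (e' : Fin (K + 1) → Fin K),
  ∫ g in E, (1 - ‖BFK 1 w K M fun a n => ev g (tX (kR 1 w K e) (kK 1 w K e') a n) *
    conj (ev χ (tX (kR 1 w K e) (kK 1 w K e') a n))‖ ^ 2) ∂σ ≤ ε ∧
  ∫ g in E, (1 - ‖BFK 1 w K M fun a n => ev g (tY (kR 1 w K e) (kK 1 w K e') a n) *
    conj (ev χ (tY (kR 1 w K e) (kK 1 w K e') a n))‖ ^ 2) ∂σ ≤ ε

/-! ## 5. Pairs of classes, one of them not pretentious -/

/-- [BNp] (MEDIUM) `StNPc` of `StmtsP.lean`. `E = cls χ \ {1}`, `E' = cls χ'` (measurable, `StBMe`). `B` from `StBAs` with `η = ε/4`. `StBCx` for `(χ, E)` and `(χ', E')` with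
`ε²/16`: for `w, K, M` in nested limits (`K, M > 0`) the two first square roots are `≤ ε/4` for all `e, e'`. For fixed `w, K > 0` and all
`M` large (finitely many `e, e'`, `StBAp` with `κ = kR 1 w K e`, `k = kK 1 w K e'`, `Q = w!`, `D = DR 1 w K`) the last square root is
`≤ ε/(4 (B+1))`. With `StBIf` (`I = IF w K M`, `x i = tX κ k (aI w i) (nI w i)`, ..) every `BFK` of the trilinear form is `≤ ε`, and
`AvK 1 w K M` is the mean over `(e, e')` of these (unfold `AvK`; number of terms `K^(w+1) K^(K+1)`, `K > 0`; compare `KR.StAvP`).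
(hMe : StBMe) (hIf : StBIf) (hAs : StBAs) (hAp : StBAp) (hCx : StBCx) -/
def StBNp : Prop := StNPc

end Pool.Agent.F0f91f8.PC
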