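import Pool.Agent.Work.MP_0f91f8_co.PC.DefsDm
import Pool.Agent.Work.MP_0f91f8_co.FC.StmtsS

/-!
# Block PC, domination: statements with complete proofs (helper48)

Item `X`: statement `StX`, file `PC/I_X.lean`, theorem `pr_X`, namespace `Pool.Agent.F0f91f8.PC`. Earlier items may be taken as
hypotheses; the items of `FC/StmtsS.lean` are landed (`FC/AllS.lean`: `FC.all_SB`; `FC/I_Cp.lean`, `FC/I_Tl.lean`, `FC/I_Tp.lean`,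
`FC/I_Ms.lean`, `FC/I_Sh.lean`, `FC/I_Rh.lean` may be copied or imported).
-/

set_option autoImplicit false

namespace Pool.Agent.F0f91f8.PC

open Filter Topology ComplexConjugate
open Pool.Agent.F0f91f8.FC
open scoped BigOperators

/-- [DNa] (EASY-MEDIUM) sums over `Nm` are products. `P = ∏_{p ∈ PN K y 1} p` is squarefree with prime factors the set `PN K y 1`; the
divisors of `P^A` correspond to the functions `a : PN K y 1 → {0, .., A}`, `s = ∏ p^(a p)`, `s.factorization p = a p`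
(induction on the set of primes, `Nat.Coprime.sum_divisors_mul` or a bijection with `Finset.pi`, `Finset.prod_univ_sum`). Members
of `Nm` are positive, their prime factors are in `PN K y 1`. A positive `s ≤ A` all of whose prime factors `p` satisfy
`K < p ≤ y` is in `Nm K y A` (`2^(v_p s) ≤ s ≤ A`). -/
def StDNa : Prop := ∀ K y A : ℕ,
  (∀ g : ℕ → ℕ → ℂ, ∑ s ∈ Nm K y A, ∏ p ∈ PN K y 1, g p (s.factorization p) =
    ∏ p ∈ PN K y 1, ∑ a ∈ Finset.range (A + 1), g p a) ∧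
  (∀ s ∈ Nm K y A, 0 < s ∧ s.primeFactors ⊆ PN K y 1) ∧
  ∀ s : ℕ, 0 < s → s ≤ A → (∀ p : ℕ, p.Prime → p ∣ s → K < p ∧ p ≤ y) → s ∈ Nm K y A

/-- [DNb] (EASY) the weights as products: for `s ∈ Nm`, `1/s = ∏ p^(-v_p s)`, so `wt0 K y s = ∏_{p ∈ PN K y 1} g0 p (v_p s)` with
`g0 p 0 = 1 - 1/p`, `g0 p a = (1 - 1/p)(1 - 5/p)⁻¹ p^(-a)` for `a ≥ 1`; `wt3` with `g3 p 0 = 1 - rho p/p`,
`g3 p a = (1 - rho p/p)(1 - 5/p)⁻¹ rho p p^(-a)`. For `ψ` completely multiplicative `ψ s = ∏ ψ(p)^(v_p s)`. (hNa : StDNa) -/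
def StDNb : Prop := ∀ K y A : ℕ, ∀ s ∈ Nm K y A,
  wt0 K y s = ∏ p ∈ PN K y 1, (1 - 1 / (p : ℝ)) *
    (if s.factorization p = 0 then 1 else (1 - 5 / (p : ℝ))⁻¹ * (1 / (p : ℝ)) ^ s.factorization p) ∧
  wt3 K y s = ∏ p ∈ PN K y 1, (1 - (rho p : ℝ) / (p : ℝ)) *
    (if s.factorization p = 0 then 1 else
      (rho p : ℝ) * (1 - 5 / (p : ℝ))⁻¹ * (1 / (p : ℝ)) ^ s.factorization p) ∧
  ∀ ψ : ℕ → ℂ, ψ 1 = 1 → (∀ a b : ℕ, 0 < a → 0 < b → ψ (a * b) = ψ a * ψ b) →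
    ψ s = ∏ p ∈ PN K y 1, ψ p ^ s.factorization p

/-- [DMa] (EASY-MEDIUM) `MaS`. `rho p ≤ 2` and `p > 100`. By `StDNa`, `StDNb` the sum of `wt0` is `∏_p (1 - 1/p)(1 + c_p ∑_{a=1}^A p^(-a))`,
`c_p = (1 - 5/p)⁻¹ = p/(p-5)`, each factor is at most `(1 - 1/p)(1 + c_p/(p-1)) = 1 + 5/(p(p-5)) ≤ 1 + 6/p²`. For `wt3` the factor
is at most `(1 - r/p)(1 + r c_p/(p-1))`, `r ≤ 2`, which is `≤ 1 + 25/p²`. `∏ (1 + 25/p²) ≤ exp(25 ∑_{m > K} 1/(m(m-1))) ≤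
exp(25/K) ≤ 2`. (hRh : FC.StRh) (hNa : StDNa) (hNb : StDNb) -/
def StDMa : Prop := MaS

/-- [DEu] (EASY-MEDIUM) `EuS`. By `StDNa`, `StDNb` the sum is `∏_p F_p`, `F_p = (1 - 1/p)(1 + c_p ∑_{a=1}^A ψ(p)^a p^(-a))`, `ψ = ψ(p)`. Write
`F_p = 1 - (1 - ψ)/p + E_p`, `|E_p| ≤ 8/p²` (`c_p - 1 = 5/(p-5)`; the terms `a ≥ 2` sum to at most `c_p/(p(p-1))`; `p > 100`).
`|1 - (1-ψ)/p|² = 1 - 2(1 - Re ψ)/p + |1-ψ|²/p² ≤ exp(-2(1 - Re ψ)/p + 4/p²)`. So, as `exp((1 - Re ψ)/p) ≤ 2`,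
`|F_p| ≤ exp(-(1 - Re ψ)/p + 2/p²) + 8/p² ≤ exp(-(1 - Re ψ)/p) (exp(2/p²) + 16/p²) ≤ exp(-(1 - Re ψ)/p + 20/p²)`, and
`exp(20 ∑_{p > K} 1/p²) ≤ exp(20/K) ≤ 2`. (hNa : StDNa) (hNb : StDNb) -/
def StDEu : Prop := EuS

/-- [DCw] (EASY-MEDIUM) the weight of `FC/DefsS.lean` is at most twice the product weight. `S = ∏ s j`, pairwise coprime and coprime
to `n`. `PN K y (S n)` is `PN K y 1` without the primes dividing `S n`, so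
`∏_{PN (S n)} (1 - om p/p) = ∏_{PN 1} (1 - om p/p) ∏_{p ∈ PN 1, p ∣ S n} (1 - om p/p)⁻¹`, and `om p ≤ 5`, `p > 100`:
`≤ ∏_{PN 1} (1 - 1/p)³ (1 - rho p/p) ∏_j ∏_{p ∣ s j} (1 - 5/p)⁻¹ ∏_{p ∣ n, p > K} (1 - 5/p)⁻¹` (`1 - (3+r)/p ≤ (1-1/p)³(1-r/p)`),
and the last product is `≤ exp(10 ∑_{p ∣ n, p > K} 1/p) ≤ exp(1/2) ≤ 2` (`(1-x)⁻¹ ≤ exp(2x)` for `0 ≤ x ≤ 1/2`). (hRh : FC.StRh) -/
def StDCw : Prop := ∀ (K y n : ℕ) (s : Fin 4 → ℕ), 100 ≤ K → 0 < n →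
  ∑ p ∈ n.primeFactors.filter (fun p => K < p), 1 / (p : ℝ) ≤ 1 / 20 → AdmS K y n s →
  Wt K y n s ≤ 2 * (wt0 K y (s 0) * wt0 K y (s 1) * wt0 K y (s 2) * wt3 K y (s 3))

/-- [DCp] (EASY-MEDIUM, compare `FC/I_Cp.lean`) the parts `s j = sp K y L_j`, `L_j = Lf κ n v j`, `v` and `n` without common prime `> K`.
A prime `p > K` dividing two of the `L_j`, or one `L_j` and `n`, divides `n` (`κ` has only primes `≤ K`, `p > 2`) and then `v`: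
impossible. So the `s j` are pairwise coprime and coprime to `n`, positive, with primes in `(K, y]`. With `w := K`,
`κ := K! κ`, `c := 0` the forms are `Lf (K! κ) n (K! v) = (K! L_0, K! L_1, K! L_2, K!² L_3)`, so `s j` divides them and a prime
of `(K, y]` (it does not divide `K!`) dividing one of them divides the `s j`. `Adm K (K! κ)`. -/
def StDCp : Prop := ∀ K y κ n X v : ℕ, 100 ≤ K → 0 < κ →
  (∀ p : ℕ, p.Prime → p ∣ κ → p ≤ K) → 0 < n → v ∈ Finset.Icc 1 X → NoC K v n →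
  Adm K (K.factorial * κ) ∧ AdmS K y n (fun j => sp K y (Lf κ n v j)) ∧
  v ∈ Ns K y (K.factorial * κ) n 0 X (fun j => sp K y (Lf κ n v j))

/-- [DFb] (EASY-MEDIUM, compare `FC/I_Fb.lean`) sort the `v ∈ GdS` by `f j = sp 0 K L_j - 1 < E₀` (`sp 0 K L_j ≥ 1`),
`t j = hv cl (rp y L_j)`, `t j i ≤ T₀`, and `s j = sp K y L_j`: `s ∈ SS K y n X` (`StDCp`; `s j^16 ≤ X` gives `(∏ s)^4 ≤ X`,
`s j ≤ X`) and `v ∈ Ns .. s`. (hCp : StDCp) -/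
def StDFb : Prop := ∀ (J K y κ n X E₀ T₀ : ℕ) (cl : ℕ → Option (Fin J)),
  100 ≤ K → 0 < κ → (∀ p : ℕ, p.Prime → p ∣ κ → p ≤ K) → 0 < n →
  ∀ Ψ : (Fin 4 → ℕ) → (Fin 4 → Fin J → ℕ) → (Fin 4 → ℕ) → ℝ, (∀ f t s, 0 ≤ Ψ f t s) →
  ∑ v ∈ GdS cl K y κ n X E₀ T₀,
      Ψ (fun j => sp 0 K (Lf κ n v j) - 1) (fun j => hv cl (rp y (Lf κ n v j)))
        (fun j => sp K y (Lf κ n v j)) ≤
    ∑ f : Fin 4 → Fin E₀, ∑ t : Fin 4 → Fin J → Fin (T₀ + 1), ∑ s ∈ SS K y n X,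
      ((Ns K y (K.factorial * κ) n 0 X s).card : ℝ) *
        Ψ (fun j => (f j : ℕ)) (fun j i => (t j i : ℕ)) s

/-- [DDd] (EASY-MEDIUM) `DmS`. `R₀` of `FC.StSB`. In `StDFb`: `|Ns| ≤ 6 X Wt` (`StSB` with `w := K`, `κ := K! κ`, `c := 0`; members of `SS`
are admissible, `StDCp` gives `Adm`; take any `v`, or prove `Adm K (K! κ)` directly), `Wt ≤ 2 ∏ weights` (`StDCw`), and
`SS ⊆ (Nm K y X)^4` (`StDNa`, last clause), all terms nonnegative (`MaS`): for fixed `f`, `t`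
`∑_{s ∈ SS} |Ns| Ψ ≤ 12 X ∑_{s ∈ (Nm)^4} wt0 (s 0) wt0 (s 1) wt0 (s 2) wt3 (s 3) Ψ f t s`. Sum first over the coordinate `σ ≠ 3`
(hypothesis: `≤ θ`; write the sum over functions as an iterated sum, `Fin.consEquiv` or `Fintype.piFinset` bijections), then over
the three other coordinates (masses `≤ 2`, `MaS`): `≤ 12 X 8 θ`. The number of `f` is `E₀^4`, of `t` `(T₀+1)^(4J)`. `θ ≥ 0`
because it bounds a sum of nonnegative terms (if `E₀ = 0` both sides are `0`).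
(hSB : FC.StSB) (hMa : MaS) (hNa : StDNa) (hCw : StDCw) (hCp : StDCp) (hFb : StDFb) -/
def StDDd : Prop := DmS

/-- [DTt] (MEDIUM, copy of `FC/I_Tl.lean`) `TlP`. Let `V` be the set of `v ≤ X` with `NoC K v n`. For `p ∈ (K, y]`: if `p ∣ n`
then no `L_j` is divisible by `p` (`p ∤ v`, `L_j = v, v, v, v²` modulo `p`); if `p ∤ n`, `p ∤ 2κ n`, there are at most two classes of
`v` modulo `p^k` with `p^k ∣ L_j` (linear forms: one; `L_3 = (v + κ n)² + (κ n)²`: two solutions `v, v'` with `v = v'` modulo `p`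
are equal modulo `p^k` since `p ∤ 2 (v + κ n)`), so at most `2 (X/p^k + 1)` such `v`, none for `k > Λ = log₂(C₀ X²)`,
`L_j ≤ C₀ X²`, `C₀ = 10 (1 + κ N₀)²`. First moment of `log sp`: `≤ 4 C X log y + 2 Λ y log y` (`StCh`), Markov, `log y ≤ log X/R`,
`2 Λ y ≤ X` for `y ≤ √X`, `X ≥ X₀`. (hCh : FC.StCh) -/
def StDTt : Prop := TlP

/-- [DTq] (EASY-MEDIUM, compare `FC/I_Tp.lean`) `TpP`. `L_j ≤ C₀ X²`, `C₀ = 10 (1 + κ N₀)²`; `Y₀ = 4 C₀`: `X < (y+1)^R ≤ (2y)^R`, so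
`L_j ≤ C₀ 4^R y^(2R) ≤ y^(3R)`. If `k` primes `> y` (with multiplicity) divide `L_j` then `(y+1)^k ≤ L_j ≤ y^(3R)`, so
`k ≤ 3R`; `∑_i hv cl (rp y L_j) i ≤ k`. -/
def StDTq : Prop := TpP

end Pool.Agent.F0f91f8.PC
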